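import Pool.Agent.M3.TSDefs
import Pool.Agent.M3.Key

/-!
# M3/S2/Def : section 2 (label system of one view), abstract three vertex geometry and input (helper44)

`Tri` : hidden vertex `x = (xi, a)`, known vertices `b`, `c`; rounded nodes `gm t w : Γ` (time `t = 0, .., n`), small
cells `ca t, cb t, cc t`, averaged windows `ρ t g` (exact martingale along the nodes, independent of every pair of
vertices), exact windows `J t w`.  `Rz t α β γ g` : the cells `α, β, γ` and the node `g` are compatible (realised).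
Everything below is to be instantiated by section 0 (`Model`), `κ` = left ends of cells.
-/

set_option autoImplicit false

namespace Pool.Agent.M3.S2

open Finset Pool.Agent.PWZ Pool.Agent.M3.TS

noncomputable section

/-- three vertices, hidden `x = (xi, a)` -/
structure Tri (Om Ξ A B C V Γ κ : Type) [Fintype Om] [Fintype Ξ] [Fintype A] [Fintype B]
    [Fintype C] [Fintype V] where
  P : FP Om
  xi : Om → Ξ
  a : Om → A
  b : Om → B
  c : Om → C
  n : ℕ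
  gm : ℕ → Om → Γ
  par : ℕ → Γ → Γ
  ca : ℕ → A → κ
  cb : ℕ → B → κ
  cc : ℕ → C → κ
  ρ : ℕ → Γ → V → ℝ
  J : ℕ → Om → V → ℝ
  near : ℝ
  K : ℝ
  K1 : 1 ≤ K
  ppos : ∀ w, P.p w ≠ 0
  par_gm : ∀ t w, par t (gm (t + 1) w) = gm t w
  wt : ∀ t g, Wt (ρ t g)
  Jwt : ∀ t w, Wt (J t w)
  near0 : 0 ≤ near
  Jnear : ∀ t w, ∀ f h : V → ℝ, (∀ d, |f d| ≤ 1) → (∀ d, |h d| ≤ 1) →
    |iw (J t w) f h - iw (ρ t (gm t w)) f h| ≤ near
  /-- the node is independent of every pair of vertices, and the pairs are uniform -/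
  iab : ∀ t g x0 a0 b0, P.Pr (fun w => xi w = x0 ∧ a w = a0 ∧ b w = b0 ∧ gm t w = g) =
    P.Pr (fun w => gm t w = g) / (Fintype.card Ξ * Fintype.card A * Fintype.card B)
  iac : ∀ t g x0 a0 c0, P.Pr (fun w => xi w = x0 ∧ a w = a0 ∧ c w = c0 ∧ gm t w = g) =
    P.Pr (fun w => gm t w = g) / (Fintype.card Ξ * Fintype.card A * Fintype.card C)
  ibc : ∀ t g x0 b0 c0, P.Pr (fun w => xi w = x0 ∧ b w = b0 ∧ c w = c0 ∧ gm t w = g) =
    P.Pr (fun w => gm t w = g) / (Fintype.card Ξ * Fintype.card B * Fintype.card C)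
  /-- the private randomness is independent of everything -/
  ixi : ∀ t g x0 a0 b0 c0, P.Pr (fun w => xi w = x0 ∧ a w = a0 ∧ b w = b0 ∧ c w = c0 ∧ gm t w = g) =
    P.Pr (fun w => a w = a0 ∧ b w = b0 ∧ c w = c0 ∧ gm t w = g) / Fintype.card Ξ
  /-- the averaged windows are a martingale along the nodes -/
  mart : ∀ t g v, P.E (fun w => ind (gm t w = g) * ρ (t + 1) (gm (t + 1) w) v) =
    P.Pr (fun w => gm t w = g) * ρ t g v
  /-- cells are nested -/
  na : ∀ t a a', ca (t + 1) a = ca (t + 1) a' → ca t a = ca t a'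
  nb : ∀ t b b', cb (t + 1) b = cb (t + 1) b' → cb t b = cb t b'
  nc : ∀ t c c', cc (t + 1) c = cc (t + 1) c' → cc t c = cc t c'
  /-- the windows of realised nodes have mass one -/
  one : ∀ t w, ∑ d, ρ t (gm t w) d = 1
  /-- number of compatible cells, in probability: `cXY` = vertex `X` known, cell of `Y` counted, third vertex free -/
  cab : ∀ t g a0 β, P.Pr (fun w => a w = a0 ∧ gm t w = g ∧
      ∃ w', ca t (a w') = ca t a0 ∧ cb t (b w') = β ∧ cc t (c w') = cc t (c w) ∧ gm t w' = g) ≤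
    K * P.Pr (fun w => a w = a0 ∧ gm t w = g ∧ cb t (b w) = β)
  cac : ∀ t g a0 γ, P.Pr (fun w => a w = a0 ∧ gm t w = g ∧
      ∃ w', ca t (a w') = ca t a0 ∧ cb t (b w') = cb t (b w) ∧ cc t (c w') = γ ∧ gm t w' = g) ≤
    K * P.Pr (fun w => a w = a0 ∧ gm t w = g ∧ cc t (c w) = γ)
  cba : ∀ t g b0 α, P.Pr (fun w => b w = b0 ∧ gm t w = g ∧
      ∃ w', ca t (a w') = α ∧ cb t (b w') = cb t b0 ∧ cc t (c w') = cc t (c w) ∧ gm t w' = g) ≤
    K * P.Pr (fun w => b w = b0 ∧ gm t w = g ∧ ca t (a w) = α)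
  cbc : ∀ t g b0 γ, P.Pr (fun w => b w = b0 ∧ gm t w = g ∧
      ∃ w', ca t (a w') = ca t (a w) ∧ cb t (b w') = cb t b0 ∧ cc t (c w') = γ ∧ gm t w' = g) ≤
    K * P.Pr (fun w => b w = b0 ∧ gm t w = g ∧ cc t (c w) = γ)
  cca : ∀ t g c0 α, P.Pr (fun w => c w = c0 ∧ gm t w = g ∧
      ∃ w', ca t (a w') = α ∧ cb t (b w') = cb t (b w) ∧ cc t (c w') = cc t c0 ∧ gm t w' = g) ≤
    K * P.Pr (fun w => c w = c0 ∧ gm t w = g ∧ ca t (a w) = α)
  ccb : ∀ t g c0 β, P.Pr (fun w => c w = c0 ∧ gm t w = g ∧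
      ∃ w', ca t (a w') = ca t (a w) ∧ cb t (b w') = β ∧ cc t (c w') = cc t c0 ∧ gm t w' = g) ≤
    K * P.Pr (fun w => c w = c0 ∧ gm t w = g ∧ cb t (b w) = β)
  /-- number of compatible cells, surely -/
  nuA : ∀ t w, ∃ s : Finset κ, (s.card : ℝ) ≤ K ∧ ∀ w', cb t (b w') = cb t (b w) →
    cc t (c w') = cc t (c w) → gm t w' = gm t w → ca t (a w') ∈ s
  nuB : ∀ t w, ∃ s : Finset κ, (s.card : ℝ) ≤ K ∧ ∀ w', ca t (a w') = ca t (a w) →
    cc t (c w') = cc t (c w) → gm t w' = gm t w → cb t (b w') ∈ s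
  nuC : ∀ t w, ∃ s : Finset κ, (s.card : ℝ) ≤ K ∧ ∀ w', ca t (a w') = ca t (a w) →
    cb t (b w') = cb t (b w) → gm t w' = gm t w → cc t (c w') ∈ s
  /-- a known vertex has bounded density on its compatible cells -/
  edgeB : ∀ t g x0 a0 c0, ∀ E : B → Prop, ∀ δ : ℝ, 0 ≤ δ →
    (∀ β, (∃ w', ca t (a w') = ca t a0 ∧ cb t (b w') = β ∧ cc t (c w') = cc t c0 ∧ gm t w' = g) →
      ∑ b' ∈ cel (cb t) β, ind (E b') ≤ δ * ((cel (cb t) β).card : ℝ)) →
    P.Pr (fun w => xi w = x0 ∧ a w = a0 ∧ c w = c0 ∧ gm t w = g ∧ E (b w)) ≤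
      2 * δ * P.Pr (fun w => xi w = x0 ∧ a w = a0 ∧ c w = c0 ∧ gm t w = g)

variable {Om Ξ A B C V Γ κ : Type} [Fintype Om] [Fintype Ξ] [Fintype A] [Fintype B]
    [Fintype C] [Fintype V]

/-- compatible cells -/
def Tri.Rz (T : Tri Om Ξ A B C V Γ κ) (t : ℕ) (α β γ : κ) (g : Γ) : Prop :=
  ∃ w, T.ca t (T.a w) = α ∧ T.cb t (T.b w) = β ∧ T.cc t (T.c w) = γ ∧ T.gm t w = g

/-- the ancestor at the time `j` of a node of time `t` -/
def anc (par : ℕ → Γ → Γ) : ℕ → Γ → ℕ → Γ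
  | 0, g, _ => g
  | t + 1, g, j => if j ≤ t then anc par t (par t g) j else g

/-- references of the structured face `(a,b)` : birth time, birth node, cells, members, sign functions -/
structure Refs (A B V Γ κ S : Type) where
  tb : S → ℕ
  gb : S → Γ
  al : S → κ
  be : S → κ
  mem : S → A → B → Prop
  v : S → A → V → ℝ
  u : S → B → V → ℝ

theorem anc_self (par : ℕ → Γ → Γ) (t : ℕ) (g : Γ) : anc par t g t = g := by
  cases t with
  | zero => rfl
  | succ t => unfold anc; rw [if_neg (by omega)]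

theorem anc_succ (par : ℕ → Γ → Γ) {t j : ℕ} (h : j ≤ t) (g : Γ) :
    anc par (t + 1) g j = anc par t (par t g) j := by
  conv_lhs => unfold anc
  rw [if_pos h]

theorem Tri.anc_gm (T : Tri Om Ξ A B C V Γ κ) {t j : ℕ} (h : j ≤ t) (w : Om) :
    anc T.par t (T.gm t w) j = T.gm j w := by
  induction t with
  | zero => have : j = 0 := by omega
            subst this; rfl
  | succ t ih =>
    rcases Nat.lt_or_ge t j with h1 | h1
    · have : j = t + 1 := by omega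
      subst this
      exact anc_self _ _ _
    · rw [anc_succ _ h1, T.par_gm]
      exact ih h1

theorem Tri.gm_anc (T : Tri Om Ξ A B C V Γ κ) {t j : ℕ} (h : j ≤ t) {w w' : Om}
    (hw : T.gm t w = T.gm t w') : T.gm j w = T.gm j w' := by
  rw [← T.anc_gm h w, ← T.anc_gm h w', hw]

theorem nest_le {α κ : Type} {c : ℕ → α → κ} (hc : ∀ t x x', c (t + 1) x = c (t + 1) x' → c t x = c t x')
    {t j : ℕ} (h : j ≤ t) {x x' : α} (hx : c t x = c t x') : c j x = c j x' := by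
  induction t with
  | zero => have : j = 0 := by omega
            subst this; exact hx
  | succ t ih =>
    rcases Nat.lt_or_ge t j with h1 | h1
    · have : j = t + 1 := by omega
      subst this; exact hx
    · exact ih h1 (hc t x x' hx)

/-- the input of section 2 -/
structure Inp (T : Tri Om Ξ A B C V Γ κ) (S : Type) [Fintype S] where
  R : Refs A B V Γ κ S
  /-- time `0` is a dummy level -/
  tb1 : ∀ s, 1 ≤ R.tb s
  tbn : ∀ s, R.tb s ≤ T.n
  /-- members are in the cells of the birth -/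
  mal : ∀ s a b, R.mem s a b → T.ca (R.tb s) a = R.al s ∧ T.cb (R.tb s) b = R.be s
  v1 : ∀ s a d, |R.v s a d| ≤ 1
  u1 : ∀ s b d, |R.u s b d| ≤ 1
  /-- face `(b,c)`, known -/
  G1 : ℕ → Γ → B → C → V → ℝ
  G1b : ∀ t g b c d, |G1 t g b c d| ≤ 1
  /-- face `(a,c)` -/
  G2 : ℕ → Γ → A → C → V → ℝ
  G2b : ∀ t g a c d, |G2 t g a c d| ≤ 1
  /-- coefficients of the structured face `(a,b)` -/
  cf : ℕ → Γ → A → B → S → ℝ
  cfb : ∀ t g a b s, |cf t g a b s| ≤ 1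
  /-- the coefficients depend only on the list -/
  cfs : ∀ t t' w w', (∀ s, (R.tb s ≤ t ∧ T.gm (R.tb s) w = R.gb s ∧ R.mem s (T.a w) (T.b w)) ↔
    (R.tb s ≤ t' ∧ T.gm (R.tb s) w' = R.gb s ∧ R.mem s (T.a w') (T.b w'))) →
    cf t (T.gm t w) (T.a w) (T.b w) = cf t' (T.gm t' w') (T.a w') (T.b w')
  /-- sizes : list, moves on a path, references on a path -/
  Λ : ℝ
  p0 : ℝ
  Ms : ℝ
  Λ1 : 1 ≤ Λ
  p01 : 1 ≤ p0
  Ms1 : 1 ≤ Ms
  hΛ : ∀ t ≤ T.n, ∀ w, ∑ s, ind (R.tb s ≤ t ∧ T.gm (R.tb s) w = R.gb s ∧ R.mem s (T.a w) (T.b w)) ≤ Λ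
  hMs : T.P.E (fun w => ∑ s, ind (T.gm (R.tb s) w = R.gb s ∧ T.ca (R.tb s) (T.a w) = R.al s ∧
    T.cb (R.tb s) (T.b w) = R.be s)) ≤ Ms
  mv1 : ∀ w, ∑ t ∈ range T.n, ind (G1 (t + 1) (T.gm (t + 1) w) (T.b w) (T.c w) ≠
    G1 t (T.gm t w) (T.b w) (T.c w)) ≤ p0
  mv2 : ∀ w, ∑ t ∈ range T.n, ind (G2 (t + 1) (T.gm (t + 1) w) (T.a w) (T.c w) ≠
    G2 t (T.gm t w) (T.a w) (T.c w)) ≤ p0
  mv3 : ∀ w, ∑ t ∈ range T.n, ind (cf (t + 1) (T.gm (t + 1) w) (T.a w) (T.b w) ≠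
    cf t (T.gm t w) (T.a w) (T.b w)) ≤ p0

namespace Inp

variable {T : Tri Om Ξ A B C V Γ κ} {S : Type} [Fintype S] (I : Inp T S)

/-- `s` is born on the path (time `t`) -/
def on (s : S) (t : ℕ) (w : Om) : Prop := I.R.tb s ≤ t ∧ T.gm (I.R.tb s) w = I.R.gb s

/-- `s` is in the list of the pair `(a,b)` at time `t` -/
def live (s : S) (t : ℕ) (w : Om) : Prop := I.on s t w ∧ I.R.mem s (T.a w) (T.b w)

/-- the structured face -/
def G3 (t : ℕ) (w : Om) (d : V) : ℝ :=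
  ∑ s, ind (I.live s t w) * I.cf t (T.gm t w) (T.a w) (T.b w) s * I.R.v s (T.a w) d * I.R.u s (T.b w) d

/-- THE PROCESS -/
def TT (t : ℕ) (w : Om) : ℝ :=
  iw (T.J t w) (fun d => I.G1 t (T.gm t w) (T.b w) (T.c w) d * I.G2 t (T.gm t w) (T.a w) (T.c w) d)
    (I.G3 t w)

end Inp

end

end Pool.Agent.M3.S2
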