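import Pool.Agent.M3.S2.Geo0
import Pool.Agent.M3.S2.Def

/-!
# M3/S2/Geo (helper93): the three vertex geometry `Tri` of section 2 in the model of section 0

`tri`: hidden vertex `i`, known vertices `b = vq j`, `c = vq l` (`i, j, l` distinct); times `t = 0, .., N`, exponent
`ex N t = N - t` (constant after the time `N`); node `gq h (ex N t) = (θ, rounded node of the faces)`;
cells of scale `ex N t - (h+3)`; `ρ` = averaged windows `Bin.rho`; `J` = exact window `Bin.Wd`;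
`near = 8 / 2^h`, `K = 2^(h+5)`.
-/

set_option autoImplicit false
set_option linter.unusedSectionVars false

namespace Pool.Agent.M3.Mod

open Finset Pool.Agent.PWZ Pool.Agent.M3.Bin

variable {k N : ℕ} {Θ Ξ Q : Type} [Fintype Θ] [Nonempty Θ] [Fintype Ξ] [Nonempty Ξ] [Fintype Q] [Nonempty Q]

/-! ### counting -/

theorem count_img (base : V k) (M : ℕ) (Pd : V k → Prop) (h : ∀ c, Pd c → ∃ m < M, c = base - (m : V k)) :
    ∑ c : V k, ind (Pd c) ≤ M := by
  classical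
  have h1 : ∑ c : V k, ind (Pd c) ≤ ∑ c ∈ (range M).image (fun m : ℕ => base - (m : V k)), (1 : ℝ) := by
    rw [← Finset.sum_subset (Finset.subset_univ ((range M).image (fun m : ℕ => base - (m : V k))))]
    · exact Finset.sum_le_sum fun c _ => ind_le_one _
    · intro c _ hc
      refine ind_not fun hp => hc ?_
      obtain ⟨m, hm, rfl⟩ := h c hp
      exact Finset.mem_image.mpr ⟨m, Finset.mem_range.mpr hm, rfl⟩
  rw [Finset.sum_const, nsmul_eq_mul, mul_one] at h1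
  refine h1.trans ?_
  exact_mod_cast Finset.card_image_le.trans (by rw [Finset.card_range])

theorem num_aux (h e : ℕ) : (e = e - (h + 3) + (h + 3) ∧ e - h = e - (h + 3) + 3) ∨
    (e - (h + 3) = 0 ∧ e - h ≤ 2 ∧ e ≤ h + 2) := by omega

theorem num1 (h e : ℕ) : 2 ^ (e - h) + 2 ^ e + 5 * 2 ^ (e - (h + 3)) ≤ 2 ^ (h + 5) * 2 ^ (e - (h + 3)) := by
  have h0 : 1 ≤ 2 ^ h := Nat.one_le_two_pow
  have h5 : 2 ^ (h + 5) = 32 * 2 ^ h := by ring
  rcases num_aux h e with ⟨h1, h2⟩ | ⟨h1, h2, h3⟩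
  · rw [h2]
    have h4 : 2 ^ e = 2 ^ (e - (h + 3)) * (8 * 2 ^ h) := by
      conv_lhs => rw [h1]
      ring
    rw [h4, h5, pow_add]
    generalize 2 ^ (e - (h + 3)) = s
    nlinarith
  · rw [h1, h5]
    have h4 : 2 ^ (e - h) ≤ 2 ^ 2 := Nat.pow_le_pow_right (by norm_num) h2
    have h6 : 2 ^ e ≤ 2 ^ (h + 2) := Nat.pow_le_pow_right (by norm_num) h3
    have h7 : 2 ^ (h + 2) = 4 * 2 ^ h := by ring
    omega

theorem num2 (h e : ℕ) : ((2 ^ (e - h) + 2 ^ e + 4 * 2 ^ (e - (h + 3))) + (2 ^ (e - (h + 3)) - 1)) /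
    2 ^ (e - (h + 3)) + 1 ≤ 2 ^ (h + 5) := by
  rw [Nat.succ_le_iff, Nat.div_lt_iff_lt_mul (Nat.two_pow_pos _)]
  have h1 := num1 h e
  have h2 := Nat.two_pow_pos (e - (h + 3))
  omega

theorem sumQ (f : V k → ℝ) : ∑ b : Q × V k, f b.2 = (Fintype.card Q : ℝ) * ∑ v : V k, f v := by
  rw [Fintype.sum_prod_type]
  simp only [Finset.sum_const, nsmul_eq_mul, Finset.card_univ]

theorem geo_card_cel {α κ : Type*} [Fintype α] (c : α → κ) (β : κ) :
    ((TS.cel c β).card : ℝ) = ∑ b : α, ind (c b = β) := by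
  classical
  unfold TS.cel
  rw [Finset.card_filter]
  push_cast
  refine Finset.sum_congr rfl fun b _ => ?_
  by_cases h : c b = β
  · rw [ind_of h, if_pos h]
  · rw [ind_not h, if_neg h]

theorem geo_sum_cel {α κ : Type*} [Fintype α] (c : α → κ) (β : κ) (f : α → ℝ) :
    ∑ b ∈ TS.cel c β, f b = ∑ b : α, ind (c b = β) * f b := by
  classical
  unfold TS.cel
  rw [Finset.sum_filter]
  refine Finset.sum_congr rfl fun b _ => ?_
  by_cases h : c b = β
  · rw [ind_of h, if_pos h, one_mul]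
  · rw [ind_not h, if_neg h, zero_mul]

/-- the centre -/
theorem ctr3 {x y z : Fin 3} (hxy : y ≠ x) (hzx : z ≠ x) (hzy : z ≠ y) (ω : Sp k N 3 Θ (Ξ × Q)) :
    ctr ω = (vq x ω).2 + (vq y ω).2 + (vq z ω).2 := by
  rw [ctr_eq x, co_eq hxy hzx hzy, add_assoc]
  rfl

theorem gq_flr {h e : ℕ} {ω : Sp k N 3 Θ (Ξ × Q)} {g : Θ × (V k × ℕ)} (hg : gq h e ω = g) {x y z : Fin 3}
    (hxy : y ≠ x) (hzx : z ≠ x) (hzy : z ≠ y) :
    flr (e - h) ((vq x ω).2 + (vq y ω).2 + (vq z ω).2 + ((nz ω % 2 ^ e : ℕ) : V k)) = g.2.1 := by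
  rw [← hg, ← ctr3 hxy hzx hzy]
  rfl

/-- **number of compatible cells, in probability** -/
theorem geo_cnt {x y z : Fin 3} (hxy : y ≠ x) (hzx : z ≠ x) (hzy : z ≠ y) {h e : ℕ} (he : e ≤ k)
    (g : Θ × (V k × ℕ)) (x0 : Q × V k) (β : V k) :
    (PQ k N Θ Ξ Q).Pr (fun ω => vq x ω = x0 ∧ gq h e ω = g ∧ ∃ ω' : Sp k N 3 Θ (Ξ × Q),
      flr (e - (h + 3)) (vq x ω').2 = flr (e - (h + 3)) x0.2 ∧ flr (e - (h + 3)) (vq y ω').2 = β ∧
      flr (e - (h + 3)) (vq z ω').2 = flr (e - (h + 3)) (vq z ω).2 ∧ gq h e ω' = g) ≤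
      2 ^ (h + 5) * (PQ k N Θ Ξ Q).Pr (fun ω => vq x ω = x0 ∧ gq h e ω = g ∧
        flr (e - (h + 3)) (vq y ω).2 = β) := by
  have hs : e - (h + 3) ≤ k := by omega
  rw [pmf_set hzx h e g x0 (fun c => ∃ ω' : Sp k N 3 Θ (Ξ × Q),
      flr (e - (h + 3)) (vq x ω').2 = flr (e - (h + 3)) x0.2 ∧ flr (e - (h + 3)) (vq y ω').2 = β ∧
      flr (e - (h + 3)) (vq z ω').2 = flr (e - (h + 3)) c.2 ∧ gq h e ω' = g),
    pmf_set hxy h e g x0 (fun b => flr (e - (h + 3)) b.2 = β), ← mul_assoc ((2 : ℝ) ^ (h + 5))]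
  refine mul_le_mul_of_nonneg_right ?_ (mul_nonneg (Nat.cast_nonneg _)
    (mul_nonneg (kap_pos (k := k) (Θ := Θ) (Ξ := Ξ) (Q := Q)).le (WS_nonneg (Q := Q) (k := k) (N := N) _ _ _)))
  rw [sumQ (fun c => ind (∃ ω' : Sp k N 3 Θ (Ξ × Q),
      flr (e - (h + 3)) (vq x ω').2 = flr (e - (h + 3)) x0.2 ∧ flr (e - (h + 3)) (vq y ω').2 = β ∧
      flr (e - (h + 3)) (vq z ω').2 = flr (e - (h + 3)) c ∧ gq h e ω' = g)),
    sumQ (fun b => ind (flr (e - (h + 3)) b = β)), mul_left_comm]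
  refine mul_le_mul_of_nonneg_left ?_ (Nat.cast_nonneg _)
  by_cases hβ : flr (e - (h + 3)) β = β
  · rw [card_cell' hs β hβ]
    refine (count_img (g.2.1 - flr (e - (h + 3)) x0.2 - β + ((2 ^ (e - h) - 1 + (2 ^ (e - (h + 3)) - 1) : ℕ) : V k))
      (2 ^ (e - h) + 2 ^ e + 4 * 2 ^ (e - (h + 3))) _ ?_).trans ?_
    · rintro c ⟨ω', h1, h2, h3, h4⟩
      exact bd_mem (Nat.mod_lt _ (Nat.two_pow_pos e)) h1 h2 h3 (gq_flr h4 hxy hzx hzy)
    · have h1 := num1 h e
      have h2 : 2 ^ (e - h) + 2 ^ e + 4 * 2 ^ (e - (h + 3)) ≤ 2 ^ (h + 5) * 2 ^ (e - (h + 3)) := by omega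
      exact_mod_cast h2
  · have h1 : ∀ c : V k, ind (∃ ω' : Sp k N 3 Θ (Ξ × Q),
        flr (e - (h + 3)) (vq x ω').2 = flr (e - (h + 3)) x0.2 ∧ flr (e - (h + 3)) (vq y ω').2 = β ∧
        flr (e - (h + 3)) (vq z ω').2 = flr (e - (h + 3)) c ∧ gq h e ω' = g) = 0 := by
      intro c
      refine ind_not ?_
      rintro ⟨ω', -, h2, -⟩
      exact hβ (by rw [← h2, flr_flr le_rfl])
    rw [Finset.sum_congr rfl fun c _ => h1 c, Finset.sum_const_zero]
    exact mul_nonneg (by positivity) (Finset.sum_nonneg fun _ _ => ind_nonneg _)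

/-- **number of compatible cells, surely** -/
theorem nu {x y z : Fin 3} (hxy : y ≠ x) (hzx : z ≠ x) (hzy : z ≠ y) {h e : ℕ} (he : e ≤ k)
    (ω : Sp k N 3 Θ (Ξ × Q)) :
    ∃ S : Finset (V k), (S.card : ℝ) ≤ 2 ^ (h + 5) ∧ ∀ ω' : Sp k N 3 Θ (Ξ × Q),
      flr (e - (h + 3)) (vq x ω').2 = flr (e - (h + 3)) (vq x ω).2 →
      flr (e - (h + 3)) (vq y ω').2 = flr (e - (h + 3)) (vq y ω).2 → gq h e ω' = gq h e ω →
      flr (e - (h + 3)) (vq z ω').2 ∈ S := by
  classical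
  have hs : e - (h + 3) ≤ k := by omega
  set s := e - (h + 3) with hsd
  set base : V k := (gq h e ω).2.1 - flr s (vq x ω).2 - flr s (vq y ω).2 + ((2 ^ (e - h) - 1 + (2 ^ s - 1) : ℕ) : V k)
    with hbase
  set M := 2 ^ (e - h) + 2 ^ e + 4 * 2 ^ s with hM
  refine ⟨(range ((M + (2 ^ s - 1)) / 2 ^ s + 1)).image (fun j : ℕ => flr s base - ((j * 2 ^ s : ℕ) : V k)), ?_, ?_⟩
  · have h1 := (Finset.card_image_le (s := range ((M + (2 ^ s - 1)) / 2 ^ s + 1))
      (f := fun j : ℕ => flr s base - ((j * 2 ^ s : ℕ) : V k))).trans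
      ((Finset.card_range _).le.trans (num2 h e))
    exact_mod_cast h1
  · intro ω' h1 h2 h3
    obtain ⟨m, hm, h4⟩ := bd_mem (c0 := (vq z ω').2) (Nat.mod_lt (nz ω') (Nat.two_pow_pos e)) h1 h2 rfl
      (gq_flr h3 hxy hzx hzy)
    obtain ⟨j, hj, h5⟩ := cover s hs base m M hm.le
    rw [Finset.mem_image]
    exact ⟨j, hj, by rw [h4, h5]⟩

/-! ### edges -/

theorem interval_cover {s j : ℕ} (hsj : s ≤ j) (hj : j ≤ k) (u g1 : V k) (E : Q × V k → Prop) {δ : ℝ} (hδ : 0 ≤ δ)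
    (hE : ∀ b0 : Q × V k, flr j (u + b0.2) = g1 →
      ∑ b ∈ TS.cel (fun b : Q × V k => flr s b.2) (flr s b0.2), ind (E b) ≤
        δ * ((TS.cel (fun b : Q × V k => flr s b.2) (flr s b0.2)).card : ℝ)) :
    ∑ b : Q × V k, ind (E b) * ind (flr j (u + b.2) = g1) ≤
      2 * δ * ∑ b : Q × V k, ind (flr j (u + b.2) = g1) := by
  by_cases hg : flr j g1 = g1
  swap
  · have h1 : ∀ b : Q × V k, ind (flr j (u + b.2) = g1) = 0 := by
      intro b
      refine ind_not fun h => hg ?_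
      rw [← h, flr_flr le_rfl]
    simp only [h1, mul_zero, Finset.sum_const_zero, le_refl]
  have hcQ : (0 : ℝ) ≤ Fintype.card Q := Nat.cast_nonneg _
  have hR : ∑ b : Q × V k, ind (flr j (u + b.2) = g1) = (Fintype.card Q : ℝ) * 2 ^ j := by
    rw [sumQ (fun b => ind (flr j (u + b) = g1))]
    congr 1
    rw [← card_cell' hj g1 hg]
    exact Equiv.sum_comp (Equiv.addLeft u) (fun y => ind (flr j y = g1))
  rw [hR]
  set base : V k := g1 - u + ((2 ^ j - 1 : ℕ) : V k) with hb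
  set T := 2 ^ (j - s) + (if s = 0 then 0 else 1) with hT
  have hin : ∀ b : Q × V k, flr j (u + b.2) = g1 → ∃ t ∈ range T, flr s b.2 = flr s (base - ((t * 2 ^ s : ℕ) : V k)) := by
    intro b hb1
    obtain ⟨r, hr, h1⟩ := flr_add_rem j (u + b.2)
    rw [hb1] at h1
    obtain ⟨t, ht, h2⟩ := win_cover hsj hj base (2 ^ j - 1 - r) (by have := Nat.two_pow_pos j; omega)
    refine ⟨t, ht, ?_⟩
    rw [← h2]
    congr 1
    have h3 : ((2 ^ j - 1 : ℕ) : V k) = ((2 ^ j - 1 - r : ℕ) : V k) + (r : V k) := by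
      rw [← Nat.cast_add]
      congr 1
      omega
    rw [hb, h3]
    linear_combination h1
  have hT2 : (T : ℝ) * 2 ^ s ≤ 2 * 2 ^ j := by
    have h3 : (2 : ℝ) ^ (j - s) * 2 ^ s = 2 ^ j := by rw [← pow_add, Nat.sub_add_cancel hsj]
    have h4 : (2 : ℝ) ^ s ≤ 2 ^ j := pow_le_pow_right₀ (by norm_num) hsj
    have h5 : (0 : ℝ) < 2 ^ j := by positivity
    rw [hT]
    push_cast
    by_cases h0 : s = 0
    · rw [if_pos h0, add_zero, h3]
      linarith
    · rw [if_neg h0, add_mul, h3, one_mul]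
      linarith
  have hcel : ∀ v : V k, ((TS.cel (fun b : Q × V k => flr s b.2) (flr s v)).card : ℝ) = (Fintype.card Q : ℝ) * 2 ^ s := by
    intro v
    rw [geo_card_cel, sumQ (fun b => ind (flr s b = flr s v)), card_cell' (hsj.trans hj) _ (flr_flr le_rfl v)]
  have hcell : ∀ t ∈ range T, ∑ b : Q × V k, ind (flr s b.2 = flr s (base - ((t * 2 ^ s : ℕ) : V k))) *
      (ind (E b) * ind (flr j (u + b.2) = g1)) ≤ δ * ((Fintype.card Q : ℝ) * 2 ^ s) := by
    intro t _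
    by_cases hex : ∃ b0 : Q × V k, flr s b0.2 = flr s (base - ((t * 2 ^ s : ℕ) : V k)) ∧ flr j (u + b0.2) = g1
    · obtain ⟨b0, h1, h2⟩ := hex
      have h3 := hE b0 h2
      rw [hcel, geo_sum_cel] at h3
      refine le_trans ?_ h3
      rw [← h1]
      refine Finset.sum_le_sum fun b _ => ?_
      refine mul_le_mul_of_nonneg_left ?_ (ind_nonneg _)
      exact mul_le_of_le_one_right (ind_nonneg _) (ind_le_one _)
    · have h1 : ∀ b : Q × V k, ind (flr s b.2 = flr s (base - ((t * 2 ^ s : ℕ) : V k))) *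
          (ind (E b) * ind (flr j (u + b.2) = g1)) = 0 := by
        intro b
        by_cases h2 : flr s b.2 = flr s (base - ((t * 2 ^ s : ℕ) : V k))
        · rw [ind_not (fun h3 => hex ⟨b, h2, h3⟩)]
          ring
        · rw [ind_not h2]
          ring
      rw [Finset.sum_congr rfl fun b _ => h1 b, Finset.sum_const_zero]
      positivity
  calc ∑ b : Q × V k, ind (E b) * ind (flr j (u + b.2) = g1)
      ≤ ∑ b : Q × V k, ∑ t ∈ range T, ind (flr s b.2 = flr s (base - ((t * 2 ^ s : ℕ) : V k))) *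
        (ind (E b) * ind (flr j (u + b.2) = g1)) := by
        refine Finset.sum_le_sum fun b _ => ?_
        by_cases h1 : flr j (u + b.2) = g1
        · obtain ⟨t, ht, h2⟩ := hin b h1
          have h3 := Finset.single_le_sum (f := fun t => ind (flr s b.2 = flr s (base - ((t * 2 ^ s : ℕ) : V k))) *
            (ind (E b) * ind (flr j (u + b.2) = g1))) (fun t _ => mul_nonneg (ind_nonneg _)
              (mul_nonneg (ind_nonneg _) (ind_nonneg _))) ht
          rw [ind_of h2, one_mul] at h3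
          exact h3
        · rw [ind_not h1, mul_zero]
          refine Finset.sum_nonneg fun t _ => ?_
          rw [mul_zero]
    _ = ∑ t ∈ range T, ∑ b : Q × V k, ind (flr s b.2 = flr s (base - ((t * 2 ^ s : ℕ) : V k))) *
        (ind (E b) * ind (flr j (u + b.2) = g1)) := Finset.sum_comm
    _ ≤ ∑ _t ∈ range T, δ * ((Fintype.card Q : ℝ) * 2 ^ s) := Finset.sum_le_sum hcell
    _ = δ * (Fintype.card Q : ℝ) * ((T : ℝ) * 2 ^ s) := by
        rw [Finset.sum_const, card_range, nsmul_eq_mul]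
        ring
    _ ≤ δ * (Fintype.card Q : ℝ) * (2 * 2 ^ j) := mul_le_mul_of_nonneg_left hT2 (mul_nonneg hδ hcQ)
    _ = _ := by ring

/-- **a known vertex has bounded density on its compatible cells** -/
theorem edge {i j l : Fin 3} (hij : j ≠ i) (hli : l ≠ i) (hlj : l ≠ j) {h e : ℕ} (he : e ≤ k)
    (g : Θ × (V k × ℕ)) (x0 : Ξ) (a0 c0 : Q × V k) (E : Q × V k → Prop) (δ : ℝ) (hδ : 0 ≤ δ)
    (hE : ∀ β : V k, (∃ ω' : Sp k N 3 Θ (Ξ × Q), flr (e - (h + 3)) (vq i ω').2 = flr (e - (h + 3)) a0.2 ∧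
      flr (e - (h + 3)) (vq j ω').2 = β ∧ flr (e - (h + 3)) (vq l ω').2 = flr (e - (h + 3)) c0.2 ∧ gq h e ω' = g) →
      ∑ b' ∈ TS.cel (fun b : Q × V k => flr (e - (h + 3)) b.2) β, ind (E b') ≤
        δ * ((TS.cel (fun b : Q × V k => flr (e - (h + 3)) b.2) β).card : ℝ)) :
    (PQ k N Θ Ξ Q).Pr (fun ω => xq i ω = x0 ∧ vq i ω = a0 ∧ vq l ω = c0 ∧ gq h e ω = g ∧ E (vq j ω)) ≤
      2 * δ * (PQ k N Θ Ξ Q).Pr (fun ω => xq i ω = x0 ∧ vq i ω = a0 ∧ vq l ω = c0 ∧ gq h e ω = g) := by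
  set s := e - (h + 3) with hs
  have hL : (PQ k N Θ Ξ Q).Pr (fun ω => xq i ω = x0 ∧ vq i ω = a0 ∧ vq l ω = c0 ∧ gq h e ω = g ∧ E (vq j ω)) =
      kap k Θ Ξ Q * ∑ b : Q × V k, ind (E b) * Wz N h e g.2 (a0.2 + b.2 + c0.2) := by
    rw [Pr_sum _ (fun ω => vq j ω), Finset.mul_sum]
    refine Finset.sum_congr rfl fun b _ => ?_
    by_cases hb : E b
    · rw [ind_of hb, one_mul, ← pmf hij hli hlj h e g x0 a0 b c0]
      refine FP.Pr_congr _ fun ω _ => ?_
      constructor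
      · rintro ⟨h1, h2, h3, h4, h5, -⟩
        exact ⟨h2, h3, h1, h4, h5⟩
      · rintro ⟨h1, h2, h3, h4, h5⟩
        refine ⟨h3, h1, h2, h4, h5, ?_⟩
        rw [h3]
        exact hb
    · rw [ind_not hb, zero_mul, mul_zero]
      refine Pr_none _ ?_
      rintro ω ⟨h1, -, -, -, -, h6⟩
      rw [h1] at h6
      exact hb h6
  rw [hL, pmf2 hli h e g x0 a0 c0, mul_left_comm]
  refine mul_le_mul_of_nonneg_left ?_ (kap_pos (k := k) (Θ := Θ) (Ξ := Ξ) (Q := Q)).le
  rw [← sum_Wz (Q := Q) (N := N) h e g.2 (a0.2 + c0.2)]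
  unfold Wz
  have e1 : ∀ b : Q × V k, ind (E b) * (((2 : ℝ) ^ N)⁻¹ * ∑ w ∈ range (2 ^ N), ind (G h e (a0.2 + b.2 + c0.2) w = g.2)) =
      ((2 : ℝ) ^ N)⁻¹ * ∑ w ∈ range (2 ^ N), ind (E b) * ind (G h e (a0.2 + c0.2 + b.2) w = g.2) := by
    intro b
    rw [mul_left_comm, Finset.mul_sum, add_right_comm]
  rw [Finset.sum_congr rfl fun b _ => e1 b, ← Finset.mul_sum, ← Finset.mul_sum, Finset.sum_comm,
    Finset.sum_comm (s := (univ : Finset (Q × V k))), mul_left_comm]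
  refine mul_le_mul_of_nonneg_left ?_ (by positivity)
  rw [Finset.mul_sum]
  refine Finset.sum_le_sum fun w hw => ?_
  rw [Finset.mem_range] at hw
  by_cases hhi : w / 2 ^ e = g.2.2
  swap
  · have h1 : ∀ z : V k, ind (G h e z w = g.2) = 0 := fun z => ind_not fun hh => hhi (congrArg Prod.snd hh)
    simp only [h1, mul_zero, Finset.sum_const_zero, le_refl]
  set u : V k := a0.2 + c0.2 + ((w % 2 ^ e : ℕ) : V k) with hu
  have h1 : ∀ b : Q × V k, ind (G h e (a0.2 + c0.2 + b.2) w = g.2) = ind (flr (e - h) (u + b.2) = g.2.1) := by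
    intro b
    have h2 : (G h e (a0.2 + c0.2 + b.2) w).1 = flr (e - h) (u + b.2) := by
      show flr (e - h) (a0.2 + c0.2 + b.2 + ((w % 2 ^ e : ℕ) : V k)) = _
      rw [hu]
      congr 1
      ring
    by_cases h3 : flr (e - h) (u + b.2) = g.2.1
    · rw [ind_of h3, ind_of (Prod.ext (h2.trans h3) hhi)]
    · rw [ind_not h3, ind_not fun hh => h3 (by rw [← h2, hh])]
  have h2 : ∑ b : Q × V k, ind (E b) * ind (G h e (a0.2 + c0.2 + b.2) w = g.2) =
      ∑ b : Q × V k, ind (E b) * ind (flr (e - h) (u + b.2) = g.2.1) :=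
    Finset.sum_congr rfl fun b _ => by rw [h1]
  rw [h2, Finset.sum_congr rfl fun b _ => h1 b]
  refine interval_cover (s := s) (j := e - h) (by omega) (by omega) u g.2.1 E hδ ?_
  intro b0 hb0
  refine hE _ ?_
  -- the cell of `b0` is compatible
  by_contra hno
  push Not at hno
  have h3 := pmf (k := k) (N := N) (Θ := Θ) (Ξ := Ξ) (Q := Q) hij hli hlj h e g x0 a0 b0 c0
  rw [Pr_none _ (by
    rintro ω ⟨-, h5, h6, h7, h8⟩
    exact hno ω (by rw [h5]) (by rw [h6]) (by rw [h7]) h8)] at h3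
  have h4 : ind (G h e (a0.2 + b0.2 + c0.2) w = g.2) = 1 := by
    rw [add_right_comm, h1, ind_of hb0]
  have h5 : 0 < Wz N h e g.2 (a0.2 + b0.2 + c0.2) := by
    unfold Wz
    refine mul_pos (by positivity) ?_
    refine lt_of_lt_of_le one_pos ?_
    rw [← h4]
    exact Finset.single_le_sum (f := fun w => ind (G h e (a0.2 + b0.2 + c0.2) w = g.2))
      (fun _ _ => ind_nonneg _) (Finset.mem_range.mpr hw)
  have h6 := mul_pos (kap_pos (k := k) (Θ := Θ) (Ξ := Ξ) (Q := Q)) h5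
  rw [← h3] at h6
  exact lt_irrefl _ h6

/-! ### the instance -/

theorem rho_one {h e : ℕ} (he : e ≤ k) {g : V k} (hg : flr (e - h) g = g) : ∑ v : V k, rho h e g v = 1 := by
  unfold rho
  rw [← Finset.mul_sum, Finset.sum_comm]
  have h1 : ∀ y : V k, ∑ v : V k, ind (flr (e - h) y = g) * Wd e y v = ind (flr (e - h) y = g) := by
    intro y
    rw [← Finset.mul_sum, Wd_sum, mul_one]
  rw [Finset.sum_congr rfl fun y _ => h1 y, card_cell' (by omega) g hg]
  field_simp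

theorem exk (hN : N ≤ k) (t : ℕ) : ex N t ≤ k := (Nat.sub_le N t).trans hN

theorem ex_anti (N t : ℕ) : ex N (t + 1) ≤ ex N t := by unfold ex; omega

/-- the rounded windows are a martingale along the nodes -/
theorem mart_gq (hN : N ≤ k) (h t : ℕ) (g : Θ × (V k × ℕ)) (v : V k) :
    (PQ k N Θ Ξ Q).E (fun ω => ind (gq h (ex N t) ω = g) * rho h (ex N (t + 1)) (gq h (ex N (t + 1)) ω).2.1 v) =
      (PQ k N Θ Ξ Q).Pr (fun ω => gq h (ex N t) ω = g) * rho h (ex N t) g.2.1 v := by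
  have hI : ∀ (e : ℕ) (ω : Sp k N 3 Θ (Ξ × Q)), ind (gq h e ω = g) =
      ind (th ω = g.1) * ind (G h e (ctr ω) (nz ω) = g.2) := by
    intro e ω
    by_cases h1 : th ω = g.1
    · by_cases h2 : G h e (ctr ω) (nz ω) = g.2
      · rw [ind_of h1, ind_of h2, ind_of (Prod.ext h1 h2), one_mul]
      · rw [ind_not h2, ind_not (fun hh => h2 (congrArg Prod.snd hh)), mul_zero]
    · rw [ind_not h1, ind_not (fun hh => h1 (congrArg Prod.fst hh)), zero_mul]
  rcases Nat.lt_or_ge t N with ht | ht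
  · set e := ex N (t + 1) with he
    have he1 : ex N t = e + 1 := ex_succ ht
    have heN : e < N := by rw [he]; unfold ex; omega
    rw [he1]
    have h1 : (PQ k N Θ Ξ Q).E (fun ω => ind (gq h (e + 1) ω = g) * rho h e (gq h e ω).2.1 v) =
        (PQ k N Θ Ξ Q).E (fun ω => ind (th ω = g.1) * (fun z w => ind (G h (e + 1) z w = g.2) *
          rho h e (G h e z w).1 v) (ctr ω) (nz ω)) := by
      refine FP.E_congr _ fun ω _ => ?_
      rw [hI, mul_assoc]
      rfl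
    have h2 : (PQ k N Θ Ξ Q).Pr (fun ω => gq h (e + 1) ω = g) =
        (PQ k N Θ Ξ Q).E (fun ω => ind (th ω = g.1) * (fun z w => ind (G h (e + 1) z w = g.2)) (ctr ω) (nz ω)) :=
      FP.E_congr _ fun ω _ => hI _ _
    have h3 := h1.trans (E_thF (k := k) (N := N) (P := Ξ × Q) g.1 (fun z w => ind (G h (e + 1) z w = g.2) *
          rho h e (G h e z w).1 v))
    have h4 := h2.trans (E_thF (k := k) (N := N) (P := Ξ × Q) g.1 (fun z w => ind (G h (e + 1) z w = g.2)))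
    rw [h3, h4, rho_nodes heN hN]
    ring
  · have he0 : ex N t = 0 := ex_top ht
    have he1 : ex N (t + 1) = 0 := ex_top (by omega)
    rw [he0, he1]
    unfold FP.Pr
    rw [← FP.E_mul_const]
    refine FP.E_congr _ fun ω _ => ?_
    by_cases h1 : gq h 0 ω = g
    · simp only [h1]
    · rw [ind_not h1, zero_mul, zero_mul]

/-- **the three vertex geometry in the model of section 0** -/
noncomputable def tri (Θ Ξ Q : Type) [Fintype Θ] [Nonempty Θ] [Fintype Ξ] [Nonempty Ξ] [Fintype Q] [Nonempty Q]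
    {i j l : Fin 3} (hij : j ≠ i) (hli : l ≠ i) (hlj : l ≠ j) (hN : N ≤ k) (h : ℕ) :
    S2.Tri (Sp k N 3 Θ (Ξ × Q)) Ξ (Q × V k) (Q × V k) (Q × V k) (V k) (Θ × (V k × ℕ)) (V k) where
  P := PQ k N Θ Ξ Q
  xi := xq i
  a := vq i
  b := vq j
  c := vq l
  n := N
  gm t := gq h (ex N t)
  par t g := if t < N then (g.1, Bin.par h (ex N (t + 1)) g.2) else g
  ca t a := flr (ex N t - (h + 3)) a.2
  cb t b := flr (ex N t - (h + 3)) b.2
  cc t c := flr (ex N t - (h + 3)) c.2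
  ρ t g := rho h (ex N t) g.2.1
  J t ω := Wd (ex N t) (Yn (ex N t) ω).1
  near := 8 * ((2 : ℝ) ^ h)⁻¹
  K := 2 ^ (h + 5)
  K1 := one_le_pow₀ (by norm_num)
  ppos := Pm_ne
  par_gm := by
    intro t ω
    by_cases ht : t < N
    · rw [if_pos ht]
      have h1 := par_G h (ex N (t + 1)) (ctr ω) (nz ω)
      rw [← ex_succ ht] at h1
      exact Prod.ext rfl h1
    · rw [if_neg ht, ex_top (by omega), ex_top (by omega)]
  wt t g := Wt_rho h (ex N t) (exk hN t) _
  Jwt t ω := Wt_Wd _ _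
  near0 := by positivity
  Jnear := by
    intro t ω f f' hf hf'
    exact iw_near h (ex N t) (exk hN t) _ f f' (fun d => (hf d).trans one_le_two) (fun d => (hf' d).trans one_le_two)
  iab := by
    intro t g x0 a0 b0
    rw [pmf2 hij h (ex N t) g x0 a0 b0, pmf_node]
    have h1 := cQ (Q := Ξ)
    have h2 := cQ (Q := Q × V k)
    field_simp
  iac := by
    intro t g x0 a0 c0
    rw [pmf2 hli h (ex N t) g x0 a0 c0, pmf_node]
    have h1 := cQ (Q := Ξ)
    have h2 := cQ (Q := Q × V k)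
    field_simp
  ibc := by
    intro t g x0 b0 c0
    rw [pmf3 hij hli hlj h (ex N t) g x0 b0 c0, pmf_node]
    have h1 := cQ (Q := Ξ)
    have h2 := cQ (Q := Q × V k)
    field_simp
  ixi := by
    intro t g x0 a0 b0 c0
    rw [pmf hij hli hlj h (ex N t) g x0 a0 b0 c0, Pr_sum _ (fun ω => xq i ω)]
    have h3 : ∀ x : Ξ, (PQ k N Θ Ξ Q).Pr (fun ω => xq i ω = x ∧ vq i ω = a0 ∧ vq j ω = b0 ∧ vq l ω = c0 ∧
        gq h (ex N t) ω = g) = kap k Θ Ξ Q * Wz N h (ex N t) g.2 (a0.2 + b0.2 + c0.2) := fun x =>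
      pmf hij hli hlj h (ex N t) g x a0 b0 c0
    rw [Finset.sum_congr rfl fun x _ => h3 x, Finset.sum_const, nsmul_eq_mul, Finset.card_univ]
    have h1 := cQ (Q := Ξ)
    field_simp
  mart := mart_gq hN h
  na := by
    intro t a a' haa
    exact flr_mono_eq (Nat.sub_le_sub_right (ex_anti N t) _) haa
  nb := by
    intro t a a' haa
    exact flr_mono_eq (Nat.sub_le_sub_right (ex_anti N t) _) haa
  nc := by
    intro t a a' haa
    exact flr_mono_eq (Nat.sub_le_sub_right (ex_anti N t) _) haa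
  one := by
    intro t ω
    exact rho_one (exk hN t) (G_aligned h (ex N t) (ctr ω) (nz ω))
  cab := by
    intro t g a0 β
    exact geo_cnt hij hli hlj (exk hN t) g a0 β
  cac := by
    intro t g a0 γ
    refine le_trans (le_of_eq ?_) (geo_cnt hli hij hlj.symm (exk hN t) g a0 γ)
    refine FP.Pr_congr _ fun ω _ => and_congr_right fun _ => and_congr_right fun _ => exists_congr fun ω' => ?_
    tauto
  cba := by
    intro t g b0 α
    refine le_trans (le_of_eq ?_) (geo_cnt hij.symm hlj hli (exk hN t) g b0 α)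
    refine FP.Pr_congr _ fun ω _ => and_congr_right fun _ => and_congr_right fun _ => exists_congr fun ω' => ?_
    tauto
  cbc := by
    intro t g b0 γ
    refine le_trans (le_of_eq ?_) (geo_cnt hlj hij.symm hli.symm (exk hN t) g b0 γ)
    refine FP.Pr_congr _ fun ω _ => and_congr_right fun _ => and_congr_right fun _ => exists_congr fun ω' => ?_
    tauto
  cca := by
    intro t g c0 α
    refine le_trans (le_of_eq ?_) (geo_cnt hli.symm hlj.symm hij (exk hN t) g c0 α)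
    refine FP.Pr_congr _ fun ω _ => and_congr_right fun _ => and_congr_right fun _ => exists_congr fun ω' => ?_
    tauto
  ccb := by
    intro t g c0 β
    refine le_trans (le_of_eq ?_) (geo_cnt hlj.symm hli.symm hij.symm (exk hN t) g c0 β)
    refine FP.Pr_congr _ fun ω _ => and_congr_right fun _ => and_congr_right fun _ => exists_congr fun ω' => ?_
    tauto
  nuA := by
    intro t ω
    obtain ⟨s, h1, h2⟩ := nu (x := j) (y := l) (z := i) hlj hij.symm hli.symm (exk hN t) ω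
    exact ⟨s, h1, h2⟩
  nuB := by
    intro t ω
    obtain ⟨s, h1, h2⟩ := nu (x := i) (y := l) (z := j) hli hij hlj.symm (exk hN t) ω
    exact ⟨s, h1, h2⟩
  nuC := by
    intro t ω
    obtain ⟨s, h1, h2⟩ := nu (x := i) (y := j) (z := l) hij hli hlj (exk hN t) ω
    exact ⟨s, h1, h2⟩
  edgeB := by
    intro t g x0 a0 c0 E δ hδ hE
    exact edge hij hli hlj (exk hN t) g x0 a0 c0 E δ hδ hE

end Pool.Agent.M3.Mod
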