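import Pool.Agent.M3.S2.LMap

/-!
# M3/S2/LMPar (helper11): parameters of the vertices for the two uses of Lemma M' in section 2

`parT` : private randomness only.  `parE` : the parameter contains a vertex `r`, known exactly.
`parC` : the parameter contains a vertex `r`, known up to its small cell, and the public randomness.
-/

set_option autoImplicit false
set_option linter.unusedSectionVars false

namespace Pool.Agent.M3.S2

open Finset Pool.Agent.PWZ Pool.Agent.M3 Pool.Agent.M3.TS Pool.Agent.M3.Bin

variable {k : ℕ} {P R : Type} [Fintype P] [Fintype R]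

noncomputable section

/-- private randomness, no shift, no cells -/
def parT (k : ℕ) (P : Type) [Fintype P] : Par k P where
  tau := fun _ => 0
  cell := fun _ _ => 0
  nest := fun _ _ _ _ _ _ => rfl
  card := fun _ _ => by simp only [Finset.filter_true]; omega
  comp := fun _ _ _ _ => rfl

/-- the number of an element of a finite type -/
def code (R : Type) [Fintype R] (r : R) : ℕ := (Fintype.equivFin R r : ℕ)

/-- decoding -/
def dec (R : Type) [Fintype R] (r0 : R) (n : ℕ) : R :=
  if h : n < Fintype.card R then (Fintype.equivFin R).symm ⟨n, h⟩ else r0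

theorem dec_code (r0 r : R) : dec R r0 (code R r) = r := by
  unfold dec code
  rw [dif_pos (Fintype.equivFin R r).isLt]
  exact (Fintype.equivFin R).symm_apply_apply r

theorem code_inj {r r' : R} (h : code R r = code R r') : r = r' := by
  rw [← dec_code r r, h, dec_code]

/-- the parameter contains a vertex with shift `s`, known exactly -/
def parE (k : ℕ) (R P : Type) [Fintype R] [Fintype P] (s : R → V k) : Par k (R × P) where
  tau := fun q => s q.1
  cell := fun _ q => code R q.1
  nest := fun _ _ _ _ _ h => h
  card := fun _ _ => by omega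
  comp := fun _ q q' h => by rw [code_inj h]

/-- the parameter contains `th`, known exactly, and a vertex `(p, v)`, known up to its small cell -/
def parC (k : ℕ) (Θ P' P : Type) [Fintype Θ] [Fintype P'] [Fintype P] : Par k ((Θ × (P' × V k)) × P) where
  tau := fun q => q.1.2.2
  cell := fun j q => code (Θ × V k) (q.1.1, flr j q.1.2.2)
  nest := fun j j' q q' hj h => by
    have h1 := Prod.mk.inj (code_inj h)
    show code (Θ × V k) (q.1.1, flr j' q.1.2.2) = code (Θ × V k) (q'.1.1, flr j' q'.1.2.2)
    rw [h1.1, flr_mono_eq hj h1.2]
  card := fun j q => by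
    classical
    have key : ∀ i : ℕ, i ≤ k → (univ.filter fun q' : (Θ × (P' × V k)) × P =>
        code (Θ × V k) (q'.1.1, flr i q'.1.2.2) = code (Θ × V k) (q.1.1, flr i q.1.2.2)).card =
        Fintype.card P' * Fintype.card P * 2 ^ i := by
      intro i hi
      have h1 : (univ.filter fun q' : (Θ × (P' × V k)) × P =>
          code (Θ × V k) (q'.1.1, flr i q'.1.2.2) = code (Θ × V k) (q.1.1, flr i q.1.2.2)) =
          (({q.1.1} : Finset Θ) ×ˢ ((univ : Finset P') ×ˢ
            (univ.filter fun v' : V k => flr i v' = flr i q.1.2.2))) ×ˢ (univ : Finset P) := by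
        ext ⟨⟨θ, ⟨p', v'⟩⟩, p⟩
        simp only [Finset.mem_filter, Finset.mem_univ, true_and, Finset.mem_product, and_true,
          Finset.mem_singleton]
        exact ⟨fun h => Prod.mk.inj (code_inj h), fun h => by rw [h.1, h.2]⟩
      rw [h1, Finset.card_product, Finset.card_product, Finset.card_product, card_cell hi, Finset.card_univ,
        Finset.card_univ, Finset.card_singleton]
      ring
    by_cases hj : j + 1 ≤ k
    · rw [key (j + 1) hj, key j (by omega)]
      exact le_of_eq (by ring)
    · have h2 : ∀ i : ℕ, k ≤ i → ∀ v : V k, flr i v = 0 := by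
        intro i hi v
        unfold flr
        have h3 : v.val % 2 ^ i = v.val := Nat.mod_eq_of_lt ((ZMod.val_lt v).trans_le
          (Nat.pow_le_pow_right (by norm_num) hi))
        rw [h3, ZMod.natCast_zmod_val, sub_self]
      have h4 : ∀ i, k ≤ i → ∀ q' : (Θ × (P' × V k)) × P, code (Θ × V k) (q'.1.1, flr i q'.1.2.2) =
          code (Θ × V k) (q'.1.1, 0) := by
        intro i hi q'
        rw [h2 i hi]
      have h5 : k ≤ j := by omega
      simp only [h4 (j + 1) (by omega), h4 j h5]
      omega
  comp := fun j q q' h => (Prod.mk.inj (code_inj h)).2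

end

end Pool.Agent.M3.S2
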