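import Pool.Agent.M3.S2.Opt
import Pool.Agent.M3.S2.Geo

/-!
# M3/S2/PubM : the public node of the view in the model of section 0 (helper52)

`pubM : Pubn (tri ..) (fun t => Qn i h (ex N t))`: the public node of the view of the hidden vertex `i` (public
randomness, exact path of `z`, small cells of the two other vertices) has at most two options for the rounded node of the
faces; the probability that `g` is an option, given any two vertices, is at most twice the probability of `g`.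
-/

set_option autoImplicit false
set_option linter.unusedSectionVars false

namespace Pool.Agent.M3.Mod

open Finset Pool.Agent.PWZ Pool.Agent.M3.Bin

variable {k N : ℕ} {Θ Ξ Q : Type} [Fintype Θ] [Nonempty Θ] [Fintype Ξ] [Nonempty Ξ] [Fintype Q] [Nonempty Q]

theorem others3 {i j l : Fin 3} (hij : j ≠ i) (hli : l ≠ i) (hlj : l ≠ j) (y : Fin 3) (hy : y ≠ i) : y = j ∨ y = l := by
  revert i j l y
  decide

/-- the shift -/
def shD (h e : ℕ) : ℕ := 2 * (2 ^ (e - (h + 3)) - 1)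

theorem shD_le (h e : ℕ) : 2 * shD h e ≤ 2 ^ (e - h) := by
  unfold shD
  rcases Nat.eq_zero_or_pos (e - (h + 3)) with h0 | h0
  · rw [h0]
    simp
  · have h1 : e - h = (e - (h + 3)) + 3 := by omega
    rw [h1, pow_add]
    omega

/-- the rounded node is `g` after a small shift of the position -/
def nearG (h e : ℕ) (g : V k × ℕ) (z : V k) (w : ℕ) : Prop :=
  w / 2 ^ e = g.2 ∧ ∃ d ≤ 2 * shD h e, flr (e - h) (Bin.pos e z w - ((shD h e : ℕ) : V k) + ((d : ℕ) : V k)) = g.1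

theorem count_shift {jj : ℕ} (hj : jj ≤ k) (D : ℕ) (hD : 2 * D ≤ 2 ^ jj) (g1 u : V k) :
    ∑ z : V k, ind (∃ d ≤ 2 * D, flr jj (z + u - ((D : ℕ) : V k) + ((d : ℕ) : V k)) = g1) ≤
      2 * ∑ z : V k, ind (flr jj (z + u) = g1) := by
  by_cases hg : flr jj g1 = g1
  · have h1 : ∑ z : V k, ind (flr jj (z + u) = g1) = (2 : ℝ) ^ jj := by
      rw [← card_cell' hj g1 hg]
      exact Equiv.sum_comp (Equiv.addRight u) (fun y => ind (flr jj y = g1))
    rw [h1]
    refine (count_img (g1 - u + ((2 ^ jj - 1 + D : ℕ) : V k)) (2 ^ jj + 2 * D) _ ?_).trans ?_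
    · rintro z ⟨d, hd, hz⟩
      obtain ⟨r, hr, h2⟩ := flr_add_rem jj (z + u - ((D : ℕ) : V k) + ((d : ℕ) : V k))
      rw [hz] at h2
      refine ⟨(2 ^ jj - 1 - r) + d, by omega, ?_⟩
      have h3 : ((2 ^ jj - 1 + D : ℕ) : V k) = ((2 ^ jj - 1 - r : ℕ) : V k) + (r : V k) + (D : V k) := by
        rw [← Nat.cast_add, ← Nat.cast_add]
        congr 1
        omega
      rw [h3, Nat.cast_add]
      linear_combination h2
    · have h2 : ((2 ^ jj + 2 * D : ℕ) : ℝ) ≤ ((2 * 2 ^ jj : ℕ) : ℝ) := by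
        exact_mod_cast (by omega : 2 ^ jj + 2 * D ≤ 2 * 2 ^ jj)
      refine h2.trans (le_of_eq ?_)
      push_cast
      ring
  · have h1 : ∀ z : V k, ind (∃ d ≤ 2 * D, flr jj (z + u - ((D : ℕ) : V k) + ((d : ℕ) : V k)) = g1) = 0 := by
      intro z
      refine ind_not ?_
      rintro ⟨d, -, h2⟩
      exact hg (by rw [← h2, flr_flr le_rfl])
    rw [Finset.sum_congr rfl fun z _ => h1 z, Finset.sum_const_zero]
    exact mul_nonneg (by norm_num) (Finset.sum_nonneg fun _ _ => ind_nonneg _)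

/-- given everything but the position of one vertex -/
theorem near_le {h e : ℕ} (he : e ≤ k) (y : Fin 3) (g : Θ × (V k × ℕ)) (s : Sp k N 3 Θ (Ξ × Q) → Prop)
    (hs : ∀ v w : Sp k N 3 Θ (Ξ × Q), (th v, (vx y v).1, ot y v) = (th w, (vx y w).1, ot y w) → (s v ↔ s w)) :
    (PQ k N Θ Ξ Q).Pr (fun ω => s ω ∧ th ω = g.1 ∧ nearG h e g.2 (ctr ω) (nz ω)) ≤
      2 * (PQ k N Θ Ξ Q).Pr (fun ω => s ω ∧ gq h e ω = g) := by
  have hs' : ∀ v w : Sp k N 3 Θ (Ξ × Q), (th v, (vx y v).1, ot y v) = (th w, (vx y w).1, ot y w) →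
      ((s v ∧ th v = g.1) ↔ (s w ∧ th w = g.1)) := by
    intro v w hvw
    have h1 := hs v w hvw
    simp only [Prod.mk.injEq] at hvw
    rw [h1, hvw.1]
  have h1 : (PQ k N Θ Ξ Q).Pr (fun ω => s ω ∧ th ω = g.1 ∧ nearG h e g.2 (ctr ω) (nz ω)) =
      (PQ k N Θ Ξ Q).Pr (fun ω => s ω ∧ th ω = g.1) *
        (PQ k N Θ Ξ Q).Pr (fun ω => nearG h e g.2 (ctr ω) (nz ω)) := by
    rw [← indep_Pr (indep_face y) (s := fun ω => s ω ∧ th ω = g.1)
      (t := fun ω => nearG h e g.2 (ctr ω) (nz ω)) hs' (fun v w hvw => by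
        simp only [Prod.mk.injEq] at hvw
        rw [hvw.1, hvw.2])]
    exact FP.Pr_congr _ fun ω _ => (and_assoc).symm
  have h2 : (PQ k N Θ Ξ Q).Pr (fun ω => s ω ∧ gq h e ω = g) =
      (PQ k N Θ Ξ Q).Pr (fun ω => s ω ∧ th ω = g.1) *
        (PQ k N Θ Ξ Q).Pr (fun ω => G h e (ctr ω) (nz ω) = g.2) := by
    rw [← indep_Pr (indep_face y) (s := fun ω => s ω ∧ th ω = g.1)
      (t := fun ω => G h e (ctr ω) (nz ω) = g.2) hs' (fun v w hvw => by
        simp only [Prod.mk.injEq] at hvw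
        rw [hvw.1, hvw.2])]
    refine FP.Pr_congr _ fun ω _ => ⟨fun h3 => ⟨⟨h3.1, congrArg Prod.fst h3.2⟩, congrArg Prod.snd h3.2⟩,
      fun h3 => ⟨h3.1.1, Prod.ext h3.1.2 h3.2⟩⟩
  have h3 : (PQ k N Θ Ξ Q).Pr (fun ω => nearG h e g.2 (ctr ω) (nz ω)) ≤
      2 * (PQ k N Θ Ξ Q).Pr (fun ω => G h e (ctr ω) (nz ω) = g.2) := by
    have h4 : (PQ k N Θ Ξ Q).Pr (fun ω => nearG h e g.2 (ctr ω) (nz ω)) = _ :=
      E_cn (k := k) (N := N) (Θ := Θ) (P := Ξ × Q) (fun z w => ind (nearG h e g.2 z w))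
    have h5 : (PQ k N Θ Ξ Q).Pr (fun ω => G h e (ctr ω) (nz ω) = g.2) = _ :=
      E_cn (k := k) (N := N) (Θ := Θ) (P := Ξ × Q) (fun z w => ind (G h e z w = g.2))
    rw [h4, h5, mul_left_comm]
    refine mul_le_mul_of_nonneg_left ?_ (by positivity)
    rw [Finset.sum_comm, Finset.sum_comm (s := (univ : Finset (V k))), Finset.mul_sum]
    refine Finset.sum_le_sum fun w _ => ?_
    by_cases hhi : w / 2 ^ e = g.2.2
    · have h6 : ∀ z : V k, ind (nearG h e g.2 z w) = ind (∃ d ≤ 2 * shD h e,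
          flr (e - h) (z + ((w % 2 ^ e : ℕ) : V k) - ((shD h e : ℕ) : V k) + ((d : ℕ) : V k)) = g.2.1) := by
        intro z
        congr 1
        refine propext ⟨fun h7 => h7.2, fun h7 => ⟨hhi, h7⟩⟩
      have h7 : ∀ z : V k, ind (G h e z w = g.2) = ind (flr (e - h) (z + ((w % 2 ^ e : ℕ) : V k)) = g.2.1) := by
        intro z
        congr 1
        refine propext ⟨fun h8 => congrArg Prod.fst h8, fun h8 => Prod.ext h8 hhi⟩
      rw [Finset.sum_congr rfl fun z _ => h6 z, Finset.sum_congr rfl fun z _ => h7 z]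
      exact count_shift (by omega) (shD h e) (shD_le h e) g.2.1 _
    · have h6 : ∀ z : V k, ind (nearG h e g.2 z w) = 0 := fun z => ind_not fun h7 => hhi h7.1
      rw [Finset.sum_congr rfl fun z _ => h6 z, Finset.sum_const_zero]
      exact mul_nonneg (by norm_num) (Finset.sum_nonneg fun _ _ => ind_nonneg _)
  rw [h1, h2]
  calc _ ≤ (PQ k N Θ Ξ Q).Pr (fun ω => s ω ∧ th ω = g.1) *
        (2 * (PQ k N Θ Ξ Q).Pr (fun ω => G h e (ctr ω) (nz ω) = g.2)) :=
        mul_le_mul_of_nonneg_left h3 (FP.Pr_nonneg _ _)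
    _ = _ := by ring

/-- the nodes realised in the class of the public node are near the node -/
theorem near_of_Qn {i j l : Fin 3} (hij : j ≠ i) (hli : l ≠ i) (hlj : l ≠ j) {h e : ℕ}
    {v w : Sp k N 3 Θ (Ξ × Q)} (hvw : Qn i h e v = Qn i h e w) :
    th v = th w ∧ nearG h e (Gm h e v) (ctr w) (nz w) := by
  unfold Qn at hvw
  simp only [Prod.mk.injEq] at hvw
  obtain ⟨h1, h2, h3⟩ := hvw
  have hb : flr (e - (h + 3)) (vx j v).2 = flr (e - (h + 3)) (vx j w).2 := congrFun h3 ⟨j, hij⟩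
  have hc : flr (e - (h + 3)) (vx l v).2 = flr (e - (h + 3)) (vx l w).2 := congrFun h3 ⟨l, hli⟩
  have hYv : Yn e v = ((Zn i e w).1 + ((vx j v).2 + (vx l v).2), (Zn i e w).2) := by
    rw [Yn_eq i, co_eq hij hli hlj, h2]
  have hYw : Yn e w = ((Zn i e w).1 + ((vx j w).2 + (vx l w).2), (Zn i e w).2) := by
    rw [Yn_eq i, co_eq hij hli hlj]
  refine ⟨h1, ?_, ?_⟩
  · have h4 : nz w / 2 ^ e = (Yn e w).2 := rfl
    have h5 : (Gm h e v).2 = (Yn e v).2 := rfl
    rw [h4, h5, hYv, hYw]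
  · obtain ⟨o1, ho1, hv1⟩ := flr_add_rem (e - (h + 3)) (vx j v).2
    obtain ⟨o2, ho2, hv2⟩ := flr_add_rem (e - (h + 3)) (vx j w).2
    obtain ⟨o3, ho3, hv3⟩ := flr_add_rem (e - (h + 3)) (vx l v).2
    obtain ⟨o4, ho4, hv4⟩ := flr_add_rem (e - (h + 3)) (vx l w).2
    rw [hb] at hv1
    rw [hc] at hv3
    refine ⟨(o1 + o3) + (shD h e - o2 - o4), ?_, ?_⟩
    · unfold shD
      omega
    · have h6 : Bin.pos e (ctr w) (nz w) = (Zn i e w).1 + ((vx j w).2 + (vx l w).2) := congrArg Prod.fst hYw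
      have h7 : (Gm h e v).1 = flr (e - h) ((Zn i e w).1 + ((vx j v).2 + (vx l v).2)) := by
        show flr (e - h) (Yn e v).1 = _
        rw [hYv]
      rw [h6, h7]
      congr 1
      have h8 : (((o1 + o3) + (shD h e - o2 - o4) : ℕ) : V k) + (o2 : V k) + (o4 : V k) =
          (o1 : V k) + (o3 : V k) + ((shD h e : ℕ) : V k) := by
        rw [← Nat.cast_add, ← Nat.cast_add, ← Nat.cast_add, ← Nat.cast_add]
        congr 1
        unfold shD
        omega
      linear_combination h8 + hv2 + hv4 - hv1 - hv3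

/-- **the public node of the view** -/
theorem pubM {i j l : Fin 3} (hij : j ≠ i) (hli : l ≠ i) (hlj : l ≠ j) (hN : N ≤ k) (h : ℕ) :
    S2.Pubn (tri Θ Ξ Q hij hli hlj hN h) (fun t (ω : Sp k N 3 Θ (Ξ × Q)) => Qn i h (ex N t) ω) := by
  have hopt : ∀ (y : Fin 3) (t : ℕ) (g : Θ × (V k × ℕ)) (s : Sp k N 3 Θ (Ξ × Q) → Prop),
      (∀ v w : Sp k N 3 Θ (Ξ × Q), (th v, (vx y v).1, ot y v) = (th w, (vx y w).1, ot y w) → (s v ↔ s w)) →
      (PQ k N Θ Ξ Q).Pr (fun ω => s ω ∧ g ∈ (tri Θ Ξ Q hij hli hlj hN h).OPT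
        (fun t (ω : Sp k N 3 Θ (Ξ × Q)) => Qn i h (ex N t) ω) t ω) ≤
        2 * (PQ k N Θ Ξ Q).Pr (fun ω => s ω ∧ gq h (ex N t) ω = g) := by
    intro y t g s hs
    refine le_trans (FP.Pr_mono _ ?_) (near_le (exk hN t) y g s hs)
    rintro ω _ ⟨h1, h2⟩
    obtain ⟨v, h3, h4⟩ := S2.Tri.mem_OPT.1 h2
    have h4' : gq h (ex N t) v = g := h4
    obtain ⟨h5, h6⟩ := near_of_Qn hij hli hlj h3
    refine ⟨h1, ?_, ?_⟩
    · rw [← h5, ← h4']
      rfl
    · rw [← h4']
      exact h6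
  have hot : ∀ (y x : Fin 3), x ≠ y → ∀ v w : Sp k N 3 Θ (Ξ × Q), ot y v = ot y w → vx x v = vx x w :=
    fun y x hx v w hh => congrFun hh ⟨x, hx⟩
  refine ⟨filt_Qn i h, ?_, ?_, ?_, ?_, ?_, ?_, ?_⟩
  · intro t v w hvw
    have h1 : Qn i h (ex N t) v = Qn i h (ex N t) w := hvw
    unfold Qn at h1
    simp only [Prod.mk.injEq] at h1
    exact congrFun h1.2.2 ⟨j, hij⟩
  · intro t v w hvw
    have h1 : Qn i h (ex N t) v = Qn i h (ex N t) w := hvw
    unfold Qn at h1
    simp only [Prod.mk.injEq] at h1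
    exact congrFun h1.2.2 ⟨l, hli⟩
  · -- combination
    intro t w w' hw
    have h1 : Qn i h (ex N t) w' = Qn i h (ex N t) w := hw
    unfold Qn at h1
    simp only [Prod.mk.injEq] at h1
    obtain ⟨h2, h3, h4⟩ := h1
    set v : Sp k N 3 Θ (Ξ × Q) := (w.1, (fun y => if y = i then w'.2.1 y else w.2.1 y), w'.2.2) with hv
    have hvi : vx i v = vx i w' := by
      show (if i = i then w'.2.1 i else w.2.1 i) = _
      rw [if_pos rfl]
      rfl
    have hvo : ∀ y, y ≠ i → vx y v = vx y w := by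
      intro y hy
      show (if y = i then w'.2.1 y else w.2.1 y) = _
      rw [if_neg hy]
      rfl
    have hnz : nz v = nz w' := rfl
    have hZ : Zn i (ex N t) v = Zn i (ex N t) w := by
      rw [← h3]
      unfold Zn
      rw [hvi, hnz]
    have hQ : Qn i h (ex N t) v = Qn i h (ex N t) w := by
      unfold Qn
      rw [hZ]
      refine Prod.ext rfl (Prod.ext rfl ?_)
      funext y
      show sc h (ex N t) y.1 v = sc h (ex N t) y.1 w
      unfold sc
      rw [hvo y.1 y.2]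
    refine ⟨v, hQ, ?_, ?_, ?_⟩
    · show xq i v = xq i w'
      unfold xq
      rw [hvi]
    · show vq i v = vq i w'
      unfold vq
      rw [hvi]
    · show gq h (ex N t) v = gq h (ex N t) w
      have hY : Yn (ex N t) v = Yn (ex N t) w := by
        rw [Yn_eq i, Yn_eq i, hZ, co_eq hij hli hlj, co_eq hij hli hlj, hvo j hij, hvo l hli]
      refine Prod.ext rfl ?_
      exact fac_Yn_Gm h (ex N t) v w hY
  · -- at most two options
    intro t w
    classical
    obtain ⟨g1, g2, hg⟩ := two_options h (ex N t) (exk hN t) (Zn i (ex N t) w).1 (vx j w).2 (vx l w).2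
    refine le_trans (Finset.card_le_card (t := {(th w, (g1, (Zn i (ex N t) w).2)), (th w, (g2, (Zn i (ex N t) w).2))}) ?_)
      Finset.card_le_two
    intro g hgm
    obtain ⟨v, h1, h2⟩ := S2.Tri.mem_OPT.1 hgm
    have h2' : gq h (ex N t) v = g := h2
    have h1' : Qn i h (ex N t) v = Qn i h (ex N t) w := h1
    unfold Qn at h1'
    simp only [Prod.mk.injEq] at h1'
    obtain ⟨a1, a2, a3⟩ := h1'
    have hb : flr (ex N t - (h + 3)) (vx j v).2 = flr (ex N t - (h + 3)) (vx j w).2 := congrFun a3 ⟨j, hij⟩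
    have hc : flr (ex N t - (h + 3)) (vx l v).2 = flr (ex N t - (h + 3)) (vx l w).2 := congrFun a3 ⟨l, hli⟩
    have hY : Yn (ex N t) v = ((Zn i (ex N t) w).1 + (vx j v).2 + (vx l v).2, (Zn i (ex N t) w).2) := by
      rw [Yn_eq i, co_eq hij hli hlj, a2, add_assoc]
    have hG : Gm h (ex N t) v = (flr (ex N t - h) ((Zn i (ex N t) w).1 + (vx j v).2 + (vx l v).2),
        (Zn i (ex N t) w).2) := by
      rw [Gm_eq, hY]
    rw [Finset.mem_insert, Finset.mem_singleton, ← h2']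
    rcases hg _ _ hb hc with h5 | h5
    · left
      refine Prod.ext a1 ?_
      show Gm h (ex N t) v = _
      rw [hG, h5]
    · right
      refine Prod.ext a1 ?_
      show Gm h (ex N t) v = _
      rw [hG, h5]
  · intro t g b0 c0
    have h1 := hopt i t g (fun ω => vq j ω = b0 ∧ vq l ω = c0) (fun v w hvw => by
      simp only [Prod.mk.injEq] at hvw
      have h2 := hot i j hij v w hvw.2.2
      have h3 := hot i l hli v w hvw.2.2
      unfold vq
      rw [h2, h3])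
    refine le_trans (le_of_eq (FP.Pr_congr _ fun ω _ => ?_)) (h1.trans (le_of_eq ?_))
    · exact (and_assoc).symm
    · congr 1
      exact FP.Pr_congr _ fun ω _ => and_assoc
  · intro t g x0 a0 c0
    have h1 := hopt j t g (fun ω => xq i ω = x0 ∧ vq i ω = a0 ∧ vq l ω = c0) (fun v w hvw => by
      simp only [Prod.mk.injEq] at hvw
      have h2 := hot j i hij.symm v w hvw.2.2
      have h3 := hot j l hlj v w hvw.2.2
      unfold xq vq
      rw [h2, h3])
    refine le_trans (le_of_eq (FP.Pr_congr _ fun ω _ => ?_)) (h1.trans (le_of_eq ?_))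
    · show (xq i ω = x0 ∧ vq i ω = a0 ∧ vq l ω = c0 ∧ _) ↔ _
      tauto
    · congr 1
      refine FP.Pr_congr _ fun ω _ => ?_
      show _ ↔ (xq i ω = x0 ∧ vq i ω = a0 ∧ vq l ω = c0 ∧ gq h (ex N t) ω = g)
      tauto
  · intro t g x0 a0 b0
    have h1 := hopt l t g (fun ω => xq i ω = x0 ∧ vq i ω = a0 ∧ vq j ω = b0) (fun v w hvw => by
      simp only [Prod.mk.injEq] at hvw
      have h2 := hot l i hli.symm v w hvw.2.2
      have h3 := hot l j hlj.symm v w hvw.2.2
      unfold xq vq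
      rw [h2, h3])
    refine le_trans (le_of_eq (FP.Pr_congr _ fun ω _ => ?_)) (h1.trans (le_of_eq ?_))
    · show (xq i ω = x0 ∧ vq i ω = a0 ∧ vq j ω = b0 ∧ _) ↔ _
      tauto
    · congr 1
      refine FP.Pr_congr _ fun ω _ => ?_
      show _ ↔ (xq i ω = x0 ∧ vq i ω = a0 ∧ vq j ω = b0 ∧ gq h (ex N t) ω = g)
      tauto

end Pool.Agent.M3.Mod
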