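import Pool.Agent.M3.Model3
import Pool.Agent.M3.Bin.Rho
import Pool.Agent.M3.Bin.InstF

/-!
# M3/S2/Geo0 (helper93): joint law of the three vertices and the rounded node; intervals of cells

Private randomness `P = Ξ × Q`: `xq i : Ξ` (extra randomness of the vertex `i`), `vq i : Q × V k` (the vertex itself, with
its own private randomness `Q`; take `Q = Unit` if not needed).
`pmf`: `P(xq i = x0, vq i = a, vq j = b, vq l = c, (θ, node) = g) = κ W(a + b + c)`, `W z` = probability (noise only)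
that the rounded node of the centre `z` is `g`.  Two vertices and the node are independent.
-/

set_option autoImplicit false
set_option linter.unusedSectionVars false

namespace Pool.Agent.M3.Mod

open Finset Pool.Agent.PWZ Pool.Agent.M3.Bin

/-! ### general facts -/

section gen

variable {Om : Type*} [Fintype Om]

theorem Pr_sum {O : Type*} [Fintype O] (P : FP Om) (X : Om → O) (s : Om → Prop) :
    P.Pr s = ∑ o, P.Pr (fun w => X w = o ∧ s w) := by
  classical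
  unfold FP.Pr
  rw [← P.E_sum]
  refine P.E_congr fun w _ => ?_
  rw [Finset.sum_eq_single (X w)]
  · by_cases h : s w
    · rw [ind_of h, ind_of ⟨rfl, h⟩]
    · rw [ind_not h, ind_not fun h' => h h'.2]
  · intro o _ ho
    exact ind_not fun h => ho h.1.symm
  · exact fun h => absurd (Finset.mem_univ _) h

theorem indep_Pr {P : FP Om} {κ ι : Type*} {X : Om → κ} {Y : Om → ι} (h : P.Indep X Y) {s t : Om → Prop}
    (hs : ∀ v w, X v = X w → (s v ↔ s w)) (ht : ∀ v w, Y v = Y w → (t v ↔ t w)) :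
    P.Pr (fun w => s w ∧ t w) = P.Pr s * P.Pr t := by
  have h1 := h (fun w => ind (s w)) (fun w => ind (t w)) (Fac.ind hs) (Fac.ind ht)
  unfold FP.Pr
  rw [← h1]
  refine P.E_congr fun w _ => ?_
  by_cases h2 : s w
  · by_cases h3 : t w
    · rw [ind_of h2, ind_of h3, ind_of ⟨h2, h3⟩, one_mul]
    · rw [ind_not h3, ind_not fun h' => h3 h'.2, mul_zero]
  · rw [ind_not h2, ind_not fun h' => h2 h'.1, zero_mul]

theorem unif_comp [Nonempty Om] (e : Om ≃ Om) (f : Om → ℝ) :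
    (FP.unif Om).E (fun w => f (e w)) = (FP.unif Om).E f := by
  rw [FP.unif_E, FP.unif_E, Equiv.sum_comp e f]

theorem Pr_true (P : FP Om) : P.Pr (fun _ => True) = 1 := by
  unfold FP.Pr
  simp only [ind_of]
  exact P.E_const 1

theorem Pr_none (P : FP Om) {s : Om → Prop} (h : ∀ w, ¬s w) : P.Pr s = 0 := by
  unfold FP.Pr
  rw [← P.E_const 0]
  exact P.E_congr fun w _ => ind_not (h w)

end gen

variable {k N : ℕ} {Θ Ξ Q : Type} [Fintype Θ] [Nonempty Θ] [Fintype Ξ] [Nonempty Ξ] [Fintype Q] [Nonempty Q]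

/-- a vertex, with its own private randomness -/
def vq (j : Fin 3) (ω : Sp k N 3 Θ (Ξ × Q)) : Q × V k := ((vx j ω).1.2, (vx j ω).2)

/-- the extra randomness of a vertex -/
def xq (j : Fin 3) (ω : Sp k N 3 Θ (Ξ × Q)) : Ξ := (vx j ω).1.1

/-- the law -/
noncomputable abbrev PQ (k N : ℕ) (Θ Ξ Q : Type) [Fintype Θ] [Nonempty Θ] [Fintype Ξ] [Nonempty Ξ] [Fintype Q]
    [Nonempty Q] : FP (Sp k N 3 Θ (Ξ × Q)) := Pm (k := k) (N := N) (m := 3) (Θ := Θ) (P := Ξ × Q)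

/-- the law of a vertex -/
theorem Pr_vx {P : Type} [Fintype P] [Nonempty P] (j : Fin 3) (x : P × V k) :
    (Pm (k := k) (N := N) (m := 3) (Θ := Θ) (P := P)).Pr (fun ω => vx j ω = x) =
      1 / ((Fintype.card P : ℝ) * 2 ^ k) := by
  classical
  have h1 : ∀ x', (Pm (k := k) (N := N) (m := 3) (Θ := Θ) (P := P)).Pr (fun ω => vx j ω = x') =
      (Pm (k := k) (N := N) (m := 3) (Θ := Θ) (P := P)).Pr (fun ω => vx j ω = x) := by
    intro x'
    let e : Sp k N 3 Θ P ≃ Sp k N 3 Θ P := Equiv.prodCongr (Equiv.refl Θ) (Equiv.prodCongr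
      (Equiv.piCongrRight fun l => if l = j then Equiv.swap x x' else Equiv.refl _) (Equiv.refl _))
    have h2 : ∀ ω : Sp k N 3 Θ P, vx j (e ω) = Equiv.swap x x' (vx j ω) := by
      intro ω
      show (if j = j then Equiv.swap x x' else Equiv.refl _) (vx j ω) = _
      rw [if_pos rfl]
    have h3 := unif_comp e (fun ω => ind (vx j ω = x'))
    unfold FP.Pr Pm
    rw [← h3]
    congr 1
    funext ω
    congr 1
    rw [h2]
    apply propext
    constructor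
    · intro h
      have := congrArg (Equiv.swap x x') h
      rwa [Equiv.swap_apply_self, Equiv.swap_apply_right] at this
    · rintro rfl
      exact Equiv.swap_apply_left _ _
  have h2 := Pr_sum (Pm (k := k) (N := N) (m := 3) (Θ := Θ) (P := P)) (fun ω => vx j ω) (fun _ => True)
  rw [Pr_true] at h2
  have h3 : ∀ o, (Pm (k := k) (N := N) (m := 3) (Θ := Θ) (P := P)).Pr (fun ω => vx j ω = o ∧ True) =
      (Pm (k := k) (N := N) (m := 3) (Θ := Θ) (P := P)).Pr (fun ω => vx j ω = x) := by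
    intro o
    rw [← h1 o]
    exact FP.Pr_congr _ fun _ _ => ⟨fun h => h.1, fun h => ⟨h, trivial⟩⟩
  rw [Finset.sum_congr rfl fun o _ => h3 o, Finset.sum_const, nsmul_eq_mul, Finset.card_univ,
    Fintype.card_prod, card_V] at h2
  push_cast at h2
  rw [eq_div_iff (by
    have : (Fintype.card P : ℝ) ≠ 0 := Nat.cast_ne_zero.mpr Fintype.card_ne_zero
    positivity), mul_comm]
  exact h2.symm

theorem cQ : (Fintype.card Q : ℝ) ≠ 0 := Nat.cast_ne_zero.mpr Fintype.card_ne_zero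

theorem card_QV : (Fintype.card (Q × V k) : ℝ) = (Fintype.card Q : ℝ) * 2 ^ k := by
  rw [Fintype.card_prod, card_V]
  push_cast
  rfl

theorem Pr_vq (j : Fin 3) (b : Q × V k) :
    (PQ k N Θ Ξ Q).Pr (fun ω => vq j ω = b) = 1 / ((Fintype.card Q : ℝ) * 2 ^ k) := by
  rw [Pr_sum _ (fun ω => xq j ω)]
  have h1 : ∀ p : Ξ, (PQ k N Θ Ξ Q).Pr (fun ω => xq j ω = p ∧ vq j ω = b) =
      1 / ((Fintype.card (Ξ × Q) : ℝ) * 2 ^ k) := by
    intro p
    rw [← Pr_vx (k := k) (N := N) (Θ := Θ) (P := Ξ × Q) j ((p, b.1), b.2)]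
    refine FP.Pr_congr _ fun ω _ => ?_
    constructor
    · rintro ⟨h1, h2⟩
      have h3 : (vq j ω).1 = b.1 := congrArg Prod.fst h2
      have h4 : (vq j ω).2 = b.2 := congrArg Prod.snd h2
      exact Prod.ext (Prod.ext h1 h3) h4
    · intro h
      have h3 : (vx j ω).1.2 = b.1 := congrArg (fun z => z.1.2) h
      have h4 : (vx j ω).2 = b.2 := congrArg Prod.snd h
      exact ⟨congrArg (fun z => z.1.1) h, Prod.ext h3 h4⟩
  rw [Finset.sum_congr rfl fun p _ => h1 p, Finset.sum_const, nsmul_eq_mul, Finset.card_univ, Fintype.card_prod]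
  have h2 := cQ (Q := Ξ)
  have h3 := cQ (Q := Q)
  push_cast
  field_simp

theorem Pr_th {P : Type} [Fintype P] [Nonempty P] (θ : Θ) :
    (Pm (k := k) (N := N) (m := 3) (Θ := Θ) (P := P)).Pr (fun ω => th ω = θ) = 1 / (Fintype.card Θ : ℝ) := by
  classical
  unfold FP.Pr Pm
  rw [FP.unif_E, Fintype.sum_prod_type, Fintype.card_prod]
  have h1 : ∀ θ' : Θ, ∑ y : (Fin 3 → P × V k) × Fin (2 ^ N), ind (th (k := k) (N := N) (m := 3) (Θ := Θ) (P := P) (θ', y) = θ) =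
      (Fintype.card ((Fin 3 → P × V k) × Fin (2 ^ N)) : ℝ) * ind (θ' = θ) := by
    intro θ'
    have : ∀ y : (Fin 3 → P × V k) × Fin (2 ^ N), ind (th (k := k) (N := N) (m := 3) (Θ := Θ) (P := P) (θ', y) = θ) =
        ind (θ' = θ) := fun _ => rfl
    simp only [this, Finset.sum_const, nsmul_eq_mul, Finset.card_univ]
  rw [Finset.sum_congr rfl fun θ' _ => h1 θ', ← Finset.mul_sum, Finset.sum_eq_single θ
    (fun θ' _ h => ind_not h) (fun h => absurd (Finset.mem_univ _) h), ind_of rfl, mul_one]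
  have h2 : (Fintype.card ((Fin 3 → P × V k) × Fin (2 ^ N)) : ℝ) ≠ 0 := Nat.cast_ne_zero.mpr Fintype.card_ne_zero
  have h3 : (Fintype.card Θ : ℝ) ≠ 0 := Nat.cast_ne_zero.mpr Fintype.card_ne_zero
  push_cast at h2 ⊢
  field_simp

/-- probability (noise only) that the rounded node of the centre `z` is `g` -/
noncomputable def Wz (N h e : ℕ) (g : V k × ℕ) (z : V k) : ℝ := ((2 : ℝ) ^ N)⁻¹ * ∑ w ∈ range (2 ^ N), ind (G h e z w = g)

theorem Wz_nonneg (h e : ℕ) (g : V k × ℕ) (z : V k) : 0 ≤ Wz N h e g z :=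
  mul_nonneg (by positivity) (Finset.sum_nonneg fun _ _ => ind_nonneg _)

/-- the constant of the joint law -/
noncomputable def kap (k : ℕ) (Θ Ξ Q : Type) [Fintype Θ] [Fintype Ξ] [Fintype Q] : ℝ :=
  1 / ((Fintype.card Θ : ℝ) * (Fintype.card Ξ : ℝ) * (Fintype.card Q : ℝ) ^ 3 * (2 ^ k) ^ 3)

theorem kap_pos : 0 < kap k Θ Ξ Q := by
  have h2 : (0 : ℝ) < Fintype.card Ξ := by exact_mod_cast Fintype.card_pos
  have h3 : (0 : ℝ) < Fintype.card Θ := by exact_mod_cast Fintype.card_pos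
  have h4 : (0 : ℝ) < Fintype.card Q := by exact_mod_cast Fintype.card_pos
  unfold kap
  positivity

/-- the node with the public randomness -/
def gq (h e : ℕ) (ω : Sp k N 3 Θ (Ξ × Q)) : Θ × (V k × ℕ) := (th ω, Gm h e ω)

/-- **joint law** of the vertices and the node -/
theorem pmf {i j l : Fin 3} (hij : j ≠ i) (hli : l ≠ i) (hlj : l ≠ j) (h e : ℕ) (g : Θ × (V k × ℕ)) (x0 : Ξ)
    (a b c : Q × V k) :
    (PQ k N Θ Ξ Q).Pr (fun ω => xq i ω = x0 ∧ vq i ω = a ∧ vq j ω = b ∧ vq l ω = c ∧ gq h e ω = g) =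
      kap k Θ Ξ Q * Wz N h e g.2 (a.2 + b.2 + c.2) := by
  have e1 : (PQ k N Θ Ξ Q).Pr (fun ω => xq i ω = x0 ∧ vq i ω = a ∧ vq j ω = b ∧ vq l ω = c ∧ gq h e ω = g) =
      (PQ k N Θ Ξ Q).Pr (fun ω => vx i ω = ((x0, a.1), a.2) ∧
      (vq j ω = b ∧ (vq l ω = c ∧ (th ω = g.1 ∧ G h e (a.2 + b.2 + c.2) (nz ω) = g.2)))) := by
    refine FP.Pr_congr _ fun ω _ => ?_
    have hc : vq i ω = a → vq j ω = b → vq l ω = c → ctr ω = a.2 + b.2 + c.2 := by
      intro h1 h2 h3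
      rw [ctr_eq i, co_eq hij hli hlj, add_assoc, ← h1, ← h2, ← h3]
      rfl
    constructor
    · rintro ⟨h1, h2, h3, h4, h5⟩
      have h7 : (vq i ω).1 = a.1 := congrArg Prod.fst h2
      have h8 : (vq i ω).2 = a.2 := congrArg Prod.snd h2
      refine ⟨Prod.ext (Prod.ext h1 h7) h8, h3, h4, congrArg Prod.fst h5, ?_⟩
      have h6 := congrArg Prod.snd h5
      rw [← hc h2 h3 h4]
      exact h6
    · rintro ⟨h1, h3, h4, h5, h6⟩
      have h7 : (vx i ω).1.2 = a.1 := congrArg (fun z => z.1.2) h1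
      have h8 : (vx i ω).2 = a.2 := congrArg Prod.snd h1
      have h2 : vq i ω = a := Prod.ext h7 h8
      refine ⟨congrArg (fun z => z.1.1) h1, h2, h3, h4, Prod.ext h5 ?_⟩
      rw [← hc h2 h3 h4] at h6
      exact h6
  rw [e1]
  have ho : ∀ (u v : Fin 3) (huv : v ≠ u) (ω ω' : Sp k N 3 Θ (Ξ × Q)), ot u ω = ot u ω' → vx v ω = vx v ω' :=
    fun u v huv ω ω' hh => congrFun hh ⟨v, huv⟩
  have hv : ∀ (v : Fin 3) (ω ω' : Sp k N 3 Θ (Ξ × Q)), vx v ω = vx v ω' → vq v ω = vq v ω' := by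
    intro v ω ω' hh
    unfold vq
    rw [hh]
  rw [indep_Pr (indep_vx i) (s := fun ω => vx i ω = ((x0, a.1), a.2)) (t := fun ω => vq j ω = b ∧ (vq l ω = c ∧
      (th ω = g.1 ∧ G h e (a.2 + b.2 + c.2) (nz ω) = g.2))) (fun ω ω' hh => by rw [hh]) (fun ω ω' hh => by
        simp only [Prod.mk.injEq] at hh
        rw [hv j _ _ (ho i j hij ω ω' hh.2.1), hv l _ _ (ho i l hli ω ω' hh.2.1), hh.1, hh.2.2])]
  rw [indep_Pr (indep_vx j) (s := fun ω => vq j ω = b) (t := fun ω => vq l ω = c ∧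
      (th ω = g.1 ∧ G h e (a.2 + b.2 + c.2) (nz ω) = g.2)) (fun ω ω' hh => by rw [hv j ω ω' hh]) (fun ω ω' hh => by
        simp only [Prod.mk.injEq] at hh
        rw [hv l _ _ (ho j l hlj ω ω' hh.2.1), hh.1, hh.2.2])]
  rw [indep_Pr (indep_vx l) (s := fun ω => vq l ω = c) (t := fun ω =>
      (th ω = g.1 ∧ G h e (a.2 + b.2 + c.2) (nz ω) = g.2)) (fun ω ω' hh => by rw [hv l ω ω' hh]) (fun ω ω' hh => by
        simp only [Prod.mk.injEq] at hh
        rw [hh.1, hh.2.2])]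
  rw [indep_Pr indep_th (s := fun ω => th ω = g.1) (t := fun ω => G h e (a.2 + b.2 + c.2) (nz ω) = g.2)
      (fun ω ω' hh => by rw [hh]) (fun ω ω' hh => by
        have : nz ω = nz ω' := by unfold nz; rw [hh]
        rw [this])]
  rw [Pr_vx, Pr_vq, Pr_vq, Pr_th]
  have h1 : (PQ k N Θ Ξ Q).Pr (fun ω => G h e (a.2 + b.2 + c.2) (nz ω) = g.2) =
      Wz N h e g.2 (a.2 + b.2 + c.2) := E_nz (fun w => ind (G h e (a.2 + b.2 + c.2) w = g.2))
  rw [h1]
  unfold kap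
  have h2 := cQ (Q := Ξ)
  have h3 := cQ (Q := Θ)
  have h4 := cQ (Q := Q)
  rw [Fintype.card_prod]
  push_cast
  field_simp

/-- sum over the centres -/
noncomputable def WS (Q : Type) [Fintype Q] (N h e : ℕ) (g : V k × ℕ) : ℝ := ∑ z : Q × V k, Wz N h e g z.2

theorem WS_nonneg (h e : ℕ) (g : V k × ℕ) : 0 ≤ WS Q N h e g := Finset.sum_nonneg fun _ _ => Wz_nonneg _ _ _ _

theorem sum_Wz (h e : ℕ) (g : V k × ℕ) (y : V k) : ∑ z : Q × V k, Wz N h e g (y + z.2) = WS Q N h e g := by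
  unfold WS
  rw [Fintype.sum_prod_type, Fintype.sum_prod_type]
  exact Finset.sum_congr rfl fun q _ => Equiv.sum_comp (Equiv.addLeft y) (fun z => Wz N h e g z)

/-- one vertex with its randomness, one further vertex -/
theorem pmf2 {i j : Fin 3} (hij : j ≠ i) (h e : ℕ) (g : Θ × (V k × ℕ)) (x0 : Ξ) (a b : Q × V k) :
    (PQ k N Θ Ξ Q).Pr (fun ω => xq i ω = x0 ∧ vq i ω = a ∧ vq j ω = b ∧ gq h e ω = g) =
      kap k Θ Ξ Q * WS Q N h e g.2 := by
  obtain ⟨l, hli, hlj⟩ : ∃ l : Fin 3, l ≠ i ∧ l ≠ j := by revert i j; decide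
  rw [Pr_sum _ (fun ω => vq l ω)]
  have h1 : ∀ c : Q × V k, (PQ k N Θ Ξ Q).Pr (fun ω => vq l ω = c ∧
      xq i ω = x0 ∧ vq i ω = a ∧ vq j ω = b ∧ gq h e ω = g) =
      kap k Θ Ξ Q * Wz N h e g.2 (a.2 + b.2 + c.2) := by
    intro c
    rw [← pmf hij hli hlj h e g x0 a b c]
    refine FP.Pr_congr _ fun ω _ => ?_
    tauto
  rw [Finset.sum_congr rfl fun c _ => h1 c, ← Finset.mul_sum, sum_Wz]

/-- the randomness of one vertex, the two other vertices -/
theorem pmf3 {i j l : Fin 3} (hij : j ≠ i) (hli : l ≠ i) (hlj : l ≠ j) (h e : ℕ) (g : Θ × (V k × ℕ)) (x0 : Ξ)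
    (b c : Q × V k) :
    (PQ k N Θ Ξ Q).Pr (fun ω => xq i ω = x0 ∧ vq j ω = b ∧ vq l ω = c ∧ gq h e ω = g) =
      kap k Θ Ξ Q * WS Q N h e g.2 := by
  rw [Pr_sum _ (fun ω => vq i ω)]
  have h1 : ∀ a : Q × V k, (PQ k N Θ Ξ Q).Pr (fun ω => vq i ω = a ∧
      xq i ω = x0 ∧ vq j ω = b ∧ vq l ω = c ∧ gq h e ω = g) =
      kap k Θ Ξ Q * Wz N h e g.2 ((b.2 + c.2) + a.2) := by
    intro a
    have e1 : (b.2 + c.2) + a.2 = a.2 + b.2 + c.2 := by ring
    rw [e1, ← pmf hij hli hlj h e g x0 a b c]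
    refine FP.Pr_congr _ fun ω _ => ?_
    tauto
  rw [Finset.sum_congr rfl fun a _ => h1 a, ← Finset.mul_sum, sum_Wz]

/-- two vertices and the node -/
theorem pmf_pair {x y : Fin 3} (hxy : y ≠ x) (h e : ℕ) (g : Θ × (V k × ℕ)) (a b : Q × V k) :
    (PQ k N Θ Ξ Q).Pr (fun ω => vq x ω = a ∧ vq y ω = b ∧ gq h e ω = g) =
      (Fintype.card Ξ : ℝ) * (kap k Θ Ξ Q * WS Q N h e g.2) := by
  rw [Pr_sum _ (fun ω => xq x ω), Finset.sum_congr rfl fun x0 _ => pmf2 hxy h e g x0 a b, Finset.sum_const,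
    nsmul_eq_mul, Finset.card_univ]

/-- the node -/
theorem pmf_node (h e : ℕ) (g : Θ × (V k × ℕ)) :
    (PQ k N Θ Ξ Q).Pr (fun ω => gq h e ω = g) =
      (Fintype.card Ξ : ℝ) * (Fintype.card (Q × V k) * (Fintype.card (Q × V k) * (kap k Θ Ξ Q * WS Q N h e g.2))) := by
  have h01 : (1 : Fin 3) ≠ 0 := by decide
  rw [Pr_sum _ (fun ω => vq 0 ω)]
  have h1 : ∀ a : Q × V k, (PQ k N Θ Ξ Q).Pr (fun ω => vq 0 ω = a ∧ gq h e ω = g) =
      Fintype.card (Q × V k) * ((Fintype.card Ξ : ℝ) * (kap k Θ Ξ Q * WS Q N h e g.2)) := by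
    intro a
    rw [Pr_sum _ (fun ω => vq 1 ω)]
    have h2 : ∀ b : Q × V k, (PQ k N Θ Ξ Q).Pr (fun ω => vq 1 ω = b ∧ vq 0 ω = a ∧ gq h e ω = g) =
        (Fintype.card Ξ : ℝ) * (kap k Θ Ξ Q * WS Q N h e g.2) := by
      intro b
      rw [← pmf_pair h01 h e g a b]
      refine FP.Pr_congr _ fun ω _ => ?_
      tauto
    rw [Finset.sum_congr rfl fun b _ => h2 b, Finset.sum_const, nsmul_eq_mul, Finset.card_univ]
  rw [Finset.sum_congr rfl fun a _ => h1 a, Finset.sum_const, nsmul_eq_mul, Finset.card_univ]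
  ring

/-- a set of values of the second vertex -/
theorem pmf_set {x y : Fin 3} (hxy : y ≠ x) (h e : ℕ) (g : Θ × (V k × ℕ)) (a : Q × V k) (B : Q × V k → Prop) :
    (PQ k N Θ Ξ Q).Pr (fun ω => vq x ω = a ∧ gq h e ω = g ∧ B (vq y ω)) =
      (∑ b : Q × V k, ind (B b)) * ((Fintype.card Ξ : ℝ) * (kap k Θ Ξ Q * WS Q N h e g.2)) := by
  rw [Pr_sum _ (fun ω => vq y ω), Finset.sum_mul]
  refine Finset.sum_congr rfl fun b _ => ?_
  by_cases hb : B b
  · rw [ind_of hb, one_mul, ← pmf_pair hxy h e g a b]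
    refine FP.Pr_congr _ fun ω _ => ?_
    constructor
    · rintro ⟨h1, h2, h3, -⟩
      exact ⟨h2, h1, h3⟩
    · rintro ⟨h1, h2, h3⟩
      refine ⟨h2, h1, h3, ?_⟩
      rw [h2]
      exact hb
  · rw [ind_not hb, zero_mul]
    refine Pr_none _ ?_
    rintro ω ⟨h1, -, -, h4⟩
    rw [h1] at h4
    exact hb h4

/-! ### the martingale -/

/-- law of the centre and the noise -/
theorem E_cn {P : Type} [Fintype P] [Nonempty P] (F : V k → ℕ → ℝ) :
    (Pm (k := k) (N := N) (m := 3) (Θ := Θ) (P := P)).E (fun ω => F (ctr ω) (nz ω)) =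
      ((2 : ℝ) ^ k * 2 ^ N)⁻¹ * ∑ z : V k, ∑ w ∈ range (2 ^ N), F z w := by
  classical
  unfold Pm
  rw [FP.unif_E, ← Equiv.sum_comp (faceEquiv (k := k) (N := N) (m := 3) (Θ := Θ) (P := P) 0).symm]
  have h1 : ∀ q : (Θ × P × ({j : Fin 3 // j ≠ 0} → P × V k)) × (V k × Fin (2 ^ N)),
      F (ctr ((faceEquiv (k := k) (N := N) (m := 3) (Θ := Θ) (P := P) 0).symm q))
        (nz ((faceEquiv (k := k) (N := N) (m := 3) (Θ := Θ) (P := P) 0).symm q)) = F q.2.1 q.2.2 := by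
    intro q
    have h2 := (faceEquiv (k := k) (N := N) (m := 3) (Θ := Θ) (P := P) 0).apply_symm_apply q
    have h3 := congrArg (fun q => q.2.1) h2
    have h4 := congrArg (fun q => q.2.2.val) h2
    simp only [faceEquiv, Equiv.coe_fn_mk] at h3 h4
    unfold ctr nz vx
    exact congrArg₂ F h3 h4
  have hc : Fintype.card (Sp k N 3 Θ P) =
      Fintype.card (Θ × P × ({j : Fin 3 // j ≠ 0} → P × V k)) * (2 ^ k * 2 ^ N) := by
    rw [Fintype.card_congr (faceEquiv (k := k) (N := N) (m := 3) (Θ := Θ) (P := P) 0),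
      Fintype.card_prod _ (V k × Fin (2 ^ N)), Fintype.card_prod (V k), card_V, Fintype.card_fin]
  rw [Finset.sum_congr rfl fun q _ => h1 q, Fintype.sum_prod_type, hc]
  simp only [Finset.sum_const, nsmul_eq_mul, Finset.card_univ]
  have h2 : (Fintype.card (Θ × P × ({j : Fin 3 // j ≠ 0} → P × V k)) : ℝ) ≠ 0 :=
    Nat.cast_ne_zero.mpr Fintype.card_ne_zero
  generalize Fintype.card (Θ × P × ({j : Fin 3 // j ≠ 0} → P × V k)) = M at h2 ⊢
  rw [Fintype.sum_prod_type]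
  have h3 : ∀ z : V k, ∑ w : Fin (2 ^ N), F z w = ∑ w ∈ range (2 ^ N), F z w :=
    fun z => (Finset.sum_range (fun w => F z w)).symm
  rw [Finset.sum_congr rfl fun z _ => h3 z]
  push_cast
  field_simp

theorem E_thF {P : Type} [Fintype P] [Nonempty P] (θ : Θ) (F : V k → ℕ → ℝ) :
    (Pm (k := k) (N := N) (m := 3) (Θ := Θ) (P := P)).E (fun ω => ind (th ω = θ) * F (ctr ω) (nz ω)) =
      1 / (Fintype.card Θ : ℝ) * (((2 : ℝ) ^ k * 2 ^ N)⁻¹ * ∑ z : V k, ∑ w ∈ range (2 ^ N), F z w) := by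
  rw [← E_cn (k := k) (N := N) (Θ := Θ) (P := P) F, ← Pr_th (k := k) (N := N) (P := P) θ]
  exact indep_th (fun ω => ind (th ω = θ)) (fun ω => F (ctr ω) (nz ω)) (Fac.ind fun v w hvw => by rw [hvw])
    (fun v w hvw => by
      have hvw' : v.2 = w.2 := hvw
      have h1 : ctr v = ctr w := by unfold ctr vx; rw [hvw']
      have h2 : nz v = nz w := by unfold nz; rw [hvw']
      show F (ctr v) (nz v) = F (ctr w) (nz w)
      rw [h1, h2])

theorem flr_sub_mul {j i : ℕ} (hj : j ≤ i) (v : V k) (c : ℕ) :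
    flr j (v - ((c * 2 ^ i : ℕ) : V k)) = flr j v - ((c * 2 ^ i : ℕ) : V k) := by
  have := flr_add_mul hj (v - ((c * 2 ^ i : ℕ) : V k)) c
  rw [sub_add_cancel] at this
  rw [this]
  ring

/-- the rounded windows are a martingale along the nodes -/
theorem rho_nodes {h e : ℕ} (he : e < N) (hN : N ≤ k) (g : V k × ℕ) (v : V k) :
    ∑ z : V k, ∑ w ∈ range (2 ^ N), ind (G h (e + 1) z w = g) * rho h e (G h e z w).1 v =
      (∑ z : V k, ∑ w ∈ range (2 ^ N), ind (G h (e + 1) z w = g)) * rho h (e + 1) g.1 v := by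
  have hG : ∀ (z : V k) (w : ℕ), ind (G h (e + 1) z w = g) =
      ind (w / 2 ^ (e + 1) = g.2) * ind (flr (e + 1 - h) (pos (e + 1) z w) = g.1) := by
    intro z w
    unfold G gam
    by_cases h1 : w / 2 ^ (e + 1) = g.2
    · by_cases h2 : flr (e + 1 - h) (pos (e + 1) z w) = g.1
      · rw [ind_of h1, ind_of h2, ind_of (Prod.ext h2 h1), one_mul]
      · rw [ind_not h2, ind_not (fun hh => h2 (congrArg Prod.fst hh)), mul_zero]
    · rw [ind_not h1, ind_not (fun hh => h1 (congrArg Prod.snd hh)), zero_mul]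
  rw [Finset.sum_comm, Finset.sum_comm (s := (univ : Finset (V k)))]
  set Φ : ℕ → ℝ := fun b => ∑ y : V k, ind (flr (e + 1 - h) y = g.1) * rho h e (flr (e - h) y - ((b * 2 ^ e : ℕ) : V k)) v
    with hΦ
  have h1 : ∀ w ∈ range (2 ^ N), ∑ z : V k, ind (G h (e + 1) z w = g) * rho h e (G h e z w).1 v =
      (fun hi b => ind (hi = g.2) * Φ b) (w / 2 ^ (e + 1)) (bit e w) := by
    intro w _
    have h2 : ∀ z : V k, ind (G h (e + 1) z w = g) * rho h e (G h e z w).1 v = ind (w / 2 ^ (e + 1) = g.2) *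
        (fun y => ind (flr (e + 1 - h) y = g.1) * rho h e (flr (e - h) y - ((bit e w * 2 ^ e : ℕ) : V k)) v)
          (pos (e + 1) z w) := by
      intro z
      have h3 : (G h e z w).1 = flr (e - h) (pos (e + 1) z w) - ((bit e w * 2 ^ e : ℕ) : V k) := by
        rw [← flr_sub_mul (Nat.sub_le e h), pos_succ, add_sub_cancel_right]
        rfl
      rw [hG, h3]
      ring
    rw [Finset.sum_congr rfl fun z _ => h2 z, ← Finset.mul_sum]
    exact congrArg (fun r => ind (w / 2 ^ (e + 1) = g.2) * r) (sum_pos (e + 1) w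
      (fun y => ind (flr (e + 1 - h) y = g.1) * rho h e (flr (e - h) y - ((bit e w * 2 ^ e : ℕ) : V k)) v))
  have h2 : ∀ w ∈ range (2 ^ N), ∑ z : V k, ind (G h (e + 1) z w = g) =
      ind (w / 2 ^ (e + 1) = g.2) * ∑ y : V k, ind (flr (e + 1 - h) y = g.1) := by
    intro w _
    rw [Finset.sum_congr rfl fun z _ => hG z w, ← Finset.mul_sum]
    congr 1
    exact sum_pos (e + 1) w (fun y => ind (flr (e + 1 - h) y = g.1))
  rw [Finset.sum_congr rfl h1, Finset.sum_congr rfl h2, ← Finset.sum_mul, mul_assoc]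
  refine (sum_bit e he (fun hi b => ind (hi = g.2) * Φ b)).trans ?_
  rw [← rho_mart h e (by omega) g.1 v, Finset.sum_mul]
  refine Finset.sum_congr rfl fun w _ => ?_
  have h3 : ∑ y : V k, ind (flr (e + 1 - h) y = g.1) * ((rho h e (flr (e - h) y) v +
      rho h e (flr (e - h) y - ((1 * 2 ^ e : ℕ) : V k)) v) / 2) = (Φ 0 + Φ 1) / 2 := by
    rw [hΦ]
    simp only
    rw [← Finset.sum_add_distrib, Finset.sum_div]
    refine Finset.sum_congr rfl fun y _ => ?_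
    rw [zero_mul, Nat.cast_zero, sub_zero]
    ring
  rw [h3]
  ring

/-! ### intervals and cells -/

/-- the position of a vertex whose cell is compatible -/
theorem bd_mem {s j e : ℕ} {a b c c0 α β g1 : V k} {n : ℕ} (hn : n < 2 ^ e) (ha : flr s a = α) (hb : flr s b = β)
    (hc : flr s c = flr s c0) (hg : flr j (a + b + c + (n : V k)) = g1) :
    ∃ m : ℕ, m < 2 ^ j + 2 ^ e + 4 * 2 ^ s ∧
      c0 = (g1 - α - β + ((2 ^ j - 1 + (2 ^ s - 1) : ℕ) : V k)) - (m : V k) := by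
  obtain ⟨r1, hr1, e1⟩ := flr_add_rem s a
  obtain ⟨r2, hr2, e2⟩ := flr_add_rem s b
  obtain ⟨r3, hr3, e3⟩ := flr_add_rem s c
  obtain ⟨r4, hr4, e4⟩ := flr_add_rem s c0
  obtain ⟨r5, hr5, e5⟩ := flr_add_rem j (a + b + c + (n : V k))
  rw [ha] at e1
  rw [hb] at e2
  rw [hc] at e3
  rw [hg] at e5
  refine ⟨(2 ^ j - 1 - r5) + n + r1 + r2 + r3 + (2 ^ s - 1 - r4), by omega, ?_⟩
  have h1 : ((2 ^ j - 1 + (2 ^ s - 1) : ℕ) : V k) = ((2 ^ j - 1 - r5 : ℕ) : V k) + (r5 : V k) +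
      ((2 ^ s - 1 - r4 : ℕ) : V k) + (r4 : V k) := by
    rw [← Nat.cast_add, ← Nat.cast_add, ← Nat.cast_add]
    congr 1
    omega
  rw [h1]
  simp only [Nat.cast_add]
  linear_combination e4 - e1 - e2 - e3 + e5

end Pool.Agent.M3.Mod
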