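import Pool.Agent.M3.S2.Num

/-!
# M3/S2/Num2 : the choice of the constants of stage 2, all the smallness conditions (helper44)
-/

set_option autoImplicit false
set_option linter.unusedSectionVars false

namespace Pool.Agent.M3.S2

open Finset Pool.Agent.PWZ Pool.Agent.M3.TS

namespace Num

/-- accuracy of stage 2 -/
noncomputable def eta2 (z : ℕ) : ℝ := (1 / 2) ^ (6 * z + 33)
/-- cap of the histories of stage 2 -/
def n4 (z : ℕ) : ℕ := 2 ^ (35 * z + 202)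
/-- rounding of stage 2 -/
def h2 (z : ℕ) : ℕ := 35 * z + 207
noncomputable def etap2 (z : ℕ) : ℝ := (1 / 2) ^ (35 * z + 201)
def j2 (z : ℕ) : ℕ := W z + 2 * mu z + z + 5
def E2 (z : ℕ) : ℕ := W z + 2 * 2 ^ z + 238 * z + 1436
noncomputable def eps2 (z : ℕ) : ℝ := (1 / 2) ^ (2 * E2 z + (35 * z + 212))
noncomputable def epsp2 (z : ℕ) : ℝ := (1 / 2) ^ (2 * E2 z + (35 * z + 212) + 1)
/-- cap of the births of stage 2 -/
def n3 (z : ℕ) : ℕ := (j2 z + 1) * 2 ^ (71 * z + 411)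

theorem eta2_eq (z : ℕ) : eta2 z = (1 / 2) ^ (6 * z + 33) := rfl
theorem n4_cast (z : ℕ) : (n4 z : ℝ) = 2 ^ (35 * z + 202) := by
  unfold n4
  push_cast
  rfl
theorem etap2_eq (z : ℕ) : etap2 z = (1 / 2) ^ (35 * z + 201) := rfl
theorem j2_eq (z : ℕ) : j2 z = W z + 2 * mu z + z + 5 := rfl
theorem E2_eq (z : ℕ) : E2 z = W z + 2 * 2 ^ z + 238 * z + 1436 := rfl
theorem eps2_eq (z : ℕ) : eps2 z = (1 / 2) ^ (2 * E2 z + (35 * z + 212)) := rfl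
theorem epsp2_eq (z : ℕ) : epsp2 z = (1 / 2) ^ (2 * E2 z + (35 * z + 212) + 1) := rfl
theorem n3_eq (z : ℕ) : n3 z = (j2 z + 1) * 2 ^ (71 * z + 411) := rfl

attribute [irreducible] eta2 n4 etap2 j2 E2 eps2 epsp2 n3

theorem eta2_pos (z : ℕ) : 0 < eta2 z := by rw [eta2_eq]; positivity
theorem etap2_pos (z : ℕ) : 0 < etap2 z := by rw [etap2_eq]; positivity
theorem eps2_pos (z : ℕ) : 0 < eps2 z := by rw [eps2_eq]; positivity
theorem epsp2_pos (z : ℕ) : 0 < epsp2 z := by rw [epsp2_eq]; positivity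

theorem n4_eta (z : ℕ) : (n4 z : ℝ) * eta2 z = 2 ^ (29 * z + 169) := by
  rw [n4_cast, eta2_eq]
  have h : 35 * z + 202 = (6 * z + 33) + (29 * z + 169) := by omega
  have h1 := half_two (6 * z + 33) 0
  rw [add_zero, pow_zero] at h1
  rw [h, pow_add]
  calc (2 : ℝ) ^ (6 * z + 33) * 2 ^ (29 * z + 169) * (1 / 2) ^ (6 * z + 33) =
      ((1 / 2) ^ (6 * z + 33) * 2 ^ (6 * z + 33)) * 2 ^ (29 * z + 169) := by ring
    _ = _ := by rw [h1, one_mul]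

theorem X4_le (z : ℕ) : 1 + (n4 z : ℝ) * eta2 z ≤ 2 ^ (29 * z + 170) := by
  rw [n4_eta]
  have h1 : (1 : ℝ) ≤ 2 ^ 0 := by norm_num
  exact add2 h1 (le_refl ((2 : ℝ) ^ (29 * z + 169))) (by omega) (by omega)

theorem X4_ge (z : ℕ) : 1 ≤ 1 + (n4 z : ℝ) * eta2 z := by
  rw [n4_eta]
  linarith [pow_pos2 (29 * z + 169)]

theorem half_le_one (n : ℕ) : (1 / 2 : ℝ) ^ n ≤ 1 := pow_le_one₀ (by norm_num) (by norm_num)

/-! ### smallness conditions of stage 1 -/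

theorem cX1 (z : ℕ) : 2 * eta1 z / (1 + n2 z * eta1 z) ≤ 1 / 4 := by
  have hX := X_ge z
  rw [div_le_iff₀ (by linarith)]
  have h1 : eta1 z ≤ (1 / 2) ^ 3 := by
    rw [eta1_eq]
    exact half_pow_le (by omega)
  norm_num at h1
  linarith

theorem cetap1 (z : ℕ) : etap z ≤ 4 * eta1 z / (1 + n2 z * eta1 z) := by
  have h1 := etaX (e := 2 * z + 13) (c := 2) (l := 6 * z + 32) (lt_of_lt_of_le one_pos (X_ge z)) (X_le z) (by omega)
  rw [← eta1_eq, ← etap_eq] at h1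
  norm_num at h1
  exact h1

theorem cnear1 (z : ℕ) {near : ℝ} (h : near = 8 / 2 ^ h1 z) : near ≤ 2 * eta1 z / (1 + n2 z * eta1 z) / 4 := by
  have h3 := etaX (e := 2 * z + 13 + 1) (c := 0) (l := 6 * z + 35) (lt_of_lt_of_le one_pos (X_ge z)) (X_le z) (by omega)
  rw [pow_zero, one_mul, pow_succ (1 / 2 : ℝ) (2 * z + 13), ← eta1_eq] at h3
  have h4 : near = (1 / 2) ^ (6 * z + 35) := by
    rw [h, show h1 z = 3 + (6 * z + 35) by unfold h1; omega, pow_add, one_div, inv_pow]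
    field_simp
    norm_num
  rw [h4]
  refine h3.trans (le_of_eq ?_)
  ring

theorem ceps1 (z : ℕ) : 2 * epsp z ≤ eps z := by
  rw [eps_eq, epsp_eq, pow_succ]
  linarith

theorem eps_le_one (z : ℕ) : eps z ≤ 1 := by
  rw [eps_eq]
  exact half_le_one _

theorem floor_n1 (z : ℕ) : ⌊((n1 z : ℕ) : ℝ)⌋₊ = n1 z := Nat.floor_natCast _

/-! ### smallness conditions of stage 2 -/

theorem cX2 (z : ℕ) : 2 * eta2 z / (1 + n4 z * eta2 z) ≤ 1 / 4 := by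
  have hX := X4_ge z
  rw [div_le_iff₀ (by linarith)]
  have h1 : eta2 z ≤ (1 / 2) ^ 3 := by
    rw [eta2_eq]
    exact half_pow_le (by omega)
  norm_num at h1
  linarith

theorem cetap2 (z : ℕ) : etap2 z ≤ 4 * eta2 z / (1 + n4 z * eta2 z) := by
  have h1 := etaX (e := 6 * z + 33) (c := 2) (l := 35 * z + 201) (lt_of_lt_of_le one_pos (X4_ge z)) (X4_le z)
    (by omega)
  rw [← eta2_eq, ← etap2_eq] at h1
  norm_num at h1
  exact h1

theorem near2_eq (z : ℕ) {near : ℝ} (h : near = 8 / 2 ^ h2 z) : near = (1 / 2) ^ (35 * z + 204) := by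
  rw [h, show h2 z = 3 + (35 * z + 204) by unfold h2; omega, pow_add, one_div, inv_pow]
  field_simp
  norm_num

theorem near1_eq (z : ℕ) {near : ℝ} (h : near = 8 / 2 ^ h1 z) : near = (1 / 2) ^ (6 * z + 35) := by
  rw [h, show h1 z = 3 + (6 * z + 35) by unfold h1; omega, pow_add, one_div, inv_pow]
  field_simp
  norm_num

theorem cnear2 (z : ℕ) {near : ℝ} (h : near = 8 / 2 ^ h2 z) : near ≤ 2 * eta2 z / (1 + n4 z * eta2 z) / 4 := by
  have h3 := etaX (e := 6 * z + 33 + 1) (c := 0) (l := 35 * z + 204) (lt_of_lt_of_le one_pos (X4_ge z)) (X4_le z)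
    (by omega)
  rw [pow_zero, one_mul, pow_succ (1 / 2 : ℝ) (6 * z + 33), ← eta2_eq] at h3
  rw [near2_eq z h]
  refine h3.trans (le_of_eq ?_)
  ring

theorem ceps2 (z : ℕ) : 2 * epsp2 z ≤ eps2 z := by
  rw [eps2_eq, epsp2_eq, pow_succ]
  linarith

theorem eps2_le_one (z : ℕ) : eps2 z ≤ 1 := by
  rw [eps2_eq]
  exact half_le_one _

theorem Nw_le (z : ℕ) : (Nw z : ℝ) ≤ 2 ^ W z := by
  rw [Nw_eq, W_eq]
  push_cast
  rw [M_cast]
  have h1 : (2 : ℝ) ^ mexp z + 1 ≤ 2 ^ (mexp z + 1) := by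
    have h2 : (1 : ℝ) ≤ 2 ^ 0 := by norm_num
    exact add2 (le_refl ((2 : ℝ) ^ mexp z)) h2 (by omega) (by omega)
  have h2 : ((2 : ℝ) ^ mexp z + 1) ^ n1 z ≤ 2 ^ ((mexp z + 1) * n1 z) := by
    rw [pow_mul]
    exact pow_le_pow_left₀ (by linarith [pow_pos2 (mexp z)]) h1 _
  have h3 : 1 ≤ n1 z := by
    rw [n1_eq]
    exact Nat.mul_pos (Nat.succ_pos _) (Nat.pow_pos (by norm_num))
  have h4 : (2 : ℝ) ^ mexp z ≤ 2 ^ ((mexp z + 1) * n1 z) := le2 (by nlinarith)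
  have h5 : (2 : ℝ) ^ ((mexp z + 1) * n1 z + 2) = 4 * 2 ^ ((mexp z + 1) * n1 z) := by
    rw [pow_add]
    norm_num
    ring
  rw [h5]
  linarith [pow_pos2 ((mexp z + 1) * n1 z)]

end Num

noncomputable section

variable {Om A B C V Γ κ S : Type} [Fintype Om] [Fintype A] [Fintype B] [Fintype C] [Fintype V]
  [Fintype S] [DecidableEq S] {m : ℕ} {T : Tri Om (S → Fin m) A B C V Γ κ}

namespace Inp

open Pool.Agent.M3.S2.Num

variable {I : Inp T S} {z : ℕ}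

theorem n1_ok (h : I.Small z) : ((j1 z : ℝ) + 1) * (96 * (I.p0 + 2) / etap z ^ 2) ≤ (n1 z : ℝ) := by
  rw [n1_eq, etap_eq]
  push_cast
  have h1 : 96 * (I.p0 + 2) / ((1 / 2 : ℝ) ^ (6 * z + 32)) ^ 2 = 96 * (I.p0 + 2) * (1 / ((1 / 2) ^ (6 * z + 32)) ^ 2) := by
    ring
  rw [h1, one_div_sq]
  have h2 : (96 : ℝ) ≤ 2 ^ 7 := by norm_num
  have hp := I.p01
  have h3 : 96 * (I.p0 + 2) ≤ 2 ^ (z + 9) := mul2' (by linarith) h2 (p2_le h) (by omega)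
  have h4 : 96 * (I.p0 + 2) * 2 ^ (2 * (6 * z + 32)) ≤ 2 ^ (13 * z + 73) :=
    mul2' (pow_pos2 _).le h3 (le_refl ((2 : ℝ) ^ (2 * (6 * z + 32)))) (by omega)
  exact mul_le_mul_of_nonneg_left h4 (by positivity)

theorem n3_ok (h : I.Small z) : ((j2 z : ℝ) + 1) * (96 * (I.p0 + 3) / etap2 z ^ 2) ≤ (n3 z : ℝ) := by
  rw [n3_eq, etap2_eq]
  push_cast
  have h1 : 96 * (I.p0 + 3) / ((1 / 2 : ℝ) ^ (35 * z + 201)) ^ 2 =
      96 * (I.p0 + 3) * (1 / ((1 / 2) ^ (35 * z + 201)) ^ 2) := by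
    ring
  rw [h1, one_div_sq]
  have h2 : (96 : ℝ) ≤ 2 ^ 7 := by norm_num
  have hp := I.p01
  have h3 : 96 * (I.p0 + 3) ≤ 2 ^ (z + 9) := mul2' (by linarith) h2 (p3_le h) (by omega)
  have h4 : 96 * (I.p0 + 3) * 2 ^ (2 * (35 * z + 201)) ≤ 2 ^ (71 * z + 411) :=
    mul2' (pow_pos2 _).le h3 (le_refl ((2 : ℝ) ^ (2 * (35 * z + 201)))) (by omega)
  exact mul_le_mul_of_nonneg_left h4 (by positivity)

/-- (8) -/
theorem b8 : (1 / 2 : ℝ) ^ j2 z * (Nw z * Mc z ^ 2) ≤ (1 / 2) ^ (z + 5) := by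
  have h1 : (Nw z : ℝ) * Mc z ^ 2 ≤ 2 ^ (W z + 2 * mu z) := by
    rw [Mc_eq, ← pow_mul, mul_comm (mu z) 2]
    exact mul2 (pow_pos2 _).le (Nw_le z) (le_refl ((2 : ℝ) ^ (2 * mu z)))
  have h2 : (1 / 2 : ℝ) ^ j2 z * (Nw z * Mc z ^ 2) ≤ (1 / 2) ^ j2 z * 2 ^ (W z + 2 * mu z) :=
    mul_le_mul_of_nonneg_left h1 (pow_nonneg (by norm_num) _)
  refine h2.trans (le_of_eq ?_)
  have h3 : j2 z = (W z + 2 * mu z) + (z + 5) := by
    rw [j2_eq]
    omega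
  rw [h3, half_two]

/-- (9) -/
theorem b9 (h : I.Small z) {K2 : ℝ} (hK : K2 = 2 ^ (35 * z + 212)) :
    10 ^ 8 * eps2 z / (2 * eta2 z / (1 + n4 z * eta2 z)) ^ 4 * (1 + Real.log (K2 / eps2 z)) *
      (Nw z * ((I.p0 + 2) * Mc z ^ 2 * (1 + 32 / etap2 z ^ 2) + (2 + 6 / eta2 z ^ 2) * (nN z * I.Ms))) ≤
      (1 / 2) ^ (z + 5) := by
  have hX0 : 0 < 1 + (n4 z : ℝ) * eta2 z := lt_of_lt_of_le one_pos (X4_ge z)
  have hp := I.p01
  have hms := I.Ms1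
  have hd : (1 / 2 : ℝ) ^ (35 * z + 202) ≤ 2 * eta2 z / (1 + n4 z * eta2 z) := by
    have h1 := etaX (e := 6 * z + 33) (c := 1) (l := 35 * z + 202) hX0 (X4_le z) (by omega)
    rw [pow_one, ← eta2_eq] at h1
    exact h1
  have hd4 : (1 / 2 : ℝ) ^ (140 * z + 808) ≤ (2 * eta2 z / (1 + n4 z * eta2 z)) ^ 4 := by
    rw [show 140 * z + 808 = (35 * z + 202) * 4 by omega, pow_mul]
    exact pow_le_pow_left₀ (by positivity) hd 4
  set dn : ℝ := (2 * eta2 z / (1 + n4 z * eta2 z)) ^ 4 with hdn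
  have hpos : 0 < dn := lt_of_lt_of_le (by positivity) hd4
  -- the two terms
  have t1 : (I.p0 + 2) * Mc z ^ 2 * (1 + 32 / etap2 z ^ 2) ≤ 2 ^ (97 * z + 594 + 2 * 2 ^ z) := by
    have h1 : 32 / etap2 z ^ 2 = 2 ^ (70 * z + 407) := by
      rw [etap2_eq]
      rw [show (32 : ℝ) / ((1 / 2) ^ (35 * z + 201)) ^ 2 = 32 * (1 / ((1 / 2) ^ (35 * z + 201)) ^ 2) by ring,
        one_div_sq, show 70 * z + 407 = 5 + 2 * (35 * z + 201) by omega, pow_add]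
      norm_num
    have h0 : (1 : ℝ) ≤ 2 ^ 0 := by norm_num
    have h2 : 1 + 32 / etap2 z ^ 2 ≤ 2 ^ (70 * z + 408) := by
      rw [h1]
      exact add2 h0 (le_refl ((2 : ℝ) ^ (70 * z + 407))) (by omega) (by omega)
    have h20 : 0 ≤ 1 + 32 / etap2 z ^ 2 := by
      rw [h1]
      linarith [pow_pos2 (70 * z + 407)]
    have h3 : Mc z ^ 2 ≤ 2 ^ (2 * mu z) := by
      rw [Mc_eq, ← pow_mul, mul_comm (mu z) 2]
    have h4 : (I.p0 + 2) * Mc z ^ 2 ≤ 2 ^ (z + 2 + 2 * mu z) := mul2 (sq_nonneg _) (p2_le h) h3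
    refine mul2' h20 h4 h2 ?_
    rw [mu_eq]
    omega
  have t2 : (2 + 6 / eta2 z ^ 2) * (nN z * I.Ms) ≤ 2 ^ (33 * z + 198 + 2 ^ z) := by
    have h1 : 6 / eta2 z ^ 2 ≤ 2 ^ (12 * z + 69) := by
      rw [eta2_eq]
      rw [show (6 : ℝ) / ((1 / 2) ^ (6 * z + 33)) ^ 2 = 6 * (1 / ((1 / 2) ^ (6 * z + 33)) ^ 2) by ring,
        one_div_sq]
      have h6 : (6 : ℝ) ≤ 2 ^ 3 := by norm_num
      exact mul2' (pow_pos2 _).le h6 (le_refl ((2 : ℝ) ^ (2 * (6 * z + 33)))) (by omega)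
    have h0 : (2 : ℝ) ≤ 2 ^ 1 := by norm_num
    have h2 : 2 + 6 / eta2 z ^ 2 ≤ 2 ^ (12 * z + 70) := add2 h0 h1 (by omega) (by omega)
    have h3 : nN z * I.Ms ≤ 2 ^ (21 * z + 128 + 2 ^ z) := by
      rw [nN_eq]
      exact mul2 (by linarith) (le_refl ((2 : ℝ) ^ (21 * z + 128))) h.ms
    exact mul2' (mul_nonneg (nN_pos z).le (by linarith)) h2 h3 (by omega)
  have t10 : 0 ≤ (I.p0 + 2) * Mc z ^ 2 * (1 + 32 / etap2 z ^ 2) := by
    have h1 : 0 ≤ 32 / etap2 z ^ 2 := div_nonneg (by norm_num) (sq_nonneg _)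
    exact mul_nonneg (mul_nonneg (by linarith) (sq_nonneg _)) (by linarith)
  have t20 : 0 ≤ (2 + 6 / eta2 z ^ 2) * (nN z * I.Ms) := by
    have h1 : 0 ≤ 6 / eta2 z ^ 2 := div_nonneg (by norm_num) (sq_nonneg _)
    exact mul_nonneg (by linarith) (mul_nonneg (nN_pos z).le (by linarith))
  set s : ℝ := (I.p0 + 2) * Mc z ^ 2 * (1 + 32 / etap2 z ^ 2) + (2 + 6 / eta2 z ^ 2) * (nN z * I.Ms) with hs
  have hs1 : s ≤ 2 ^ (97 * z + 595 + 2 * 2 ^ z) := add2 t1 t2 (by omega) (by omega)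
  have hs0 : 0 ≤ s := by
    rw [hs]
    linarith
  have hD : 10 ^ 8 * (Nw z * s) / dn ≤ 2 ^ (W z + 2 * 2 ^ z + 237 * z + 1430) := by
    have h1 : (Nw z : ℝ) * s ≤ 2 ^ (W z + (97 * z + 595 + 2 * 2 ^ z)) := mul2 hs0 (Nw_le z) hs1
    have h3 : (10 : ℝ) ^ 8 ≤ 2 ^ 27 := by norm_num
    have h4 : 10 ^ 8 * (Nw z * s) ≤ 2 ^ (27 + (W z + (97 * z + 595 + 2 * 2 ^ z))) :=
      mul2 (mul_nonneg (Nat.cast_nonneg _) hs0) h3 h1
    rw [div_le_iff₀ hpos]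
    refine h4.trans ?_
    have h5 : (2 : ℝ) ^ (W z + 2 * 2 ^ z + 237 * z + 1430) * (1 / 2) ^ (140 * z + 808) ≤
        2 ^ (W z + 2 * 2 ^ z + 237 * z + 1430) * dn := mul_le_mul_of_nonneg_left hd4 (pow_pos2 _).le
    refine le_trans (le_of_eq ?_) h5
    have h6 := half_two (140 * z + 808) 0
    have h7 : W z + 2 * 2 ^ z + 237 * z + 1430 = (140 * z + 808) + (27 + (W z + (97 * z + 595 + 2 * 2 ^ z))) := by
      omega
    rw [h7, pow_add 2 (140 * z + 808)]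
    rw [add_zero, pow_zero] at h6
    calc (2 : ℝ) ^ (27 + (W z + (97 * z + 595 + 2 * 2 ^ z))) = ((1 / 2) ^ (140 * z + 808) * 2 ^ (140 * z + 808)) *
          2 ^ (27 + (W z + (97 * z + 595 + 2 * 2 ^ z))) := by rw [h6, one_mul]
      _ = _ := by ring
  have hE := eps_log (E2 z) (35 * z + 212)
  rw [← eps2_eq] at hE
  have hfin : 10 ^ 8 * eps2 z / dn * (1 + Real.log (K2 / eps2 z)) * (Nw z * s) =
      10 ^ 8 * (Nw z * s) / dn * (eps2 z * (1 + Real.log (K2 / eps2 z))) := by ring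
  rw [hfin]
  have h6 : eps2 z * (1 + Real.log (K2 / eps2 z)) ≤ 2 * (1 / 2) ^ E2 z := by
    rw [hK]
    exact hE
  have h60 : 0 ≤ eps2 z * (1 + Real.log (K2 / eps2 z)) := by
    refine mul_nonneg (eps2_pos z).le ?_
    have h7 : (1 : ℝ) ≤ K2 / eps2 z := by
      rw [le_div_iff₀ (eps2_pos z), one_mul, hK]
      exact (eps2_le_one z).trans (one_le_pow₀ (by norm_num))
    have := Real.log_nonneg h7
    linarith
  have h7 := mul_le_mul hD h6 h60 (pow_pos2 _).le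
  refine h7.trans (le_of_eq ?_)
  have h8 : E2 z = (W z + 2 * 2 ^ z + 237 * z + 1430 + 1) + (z + 5) := by
    rw [E2_eq]
    omega
  have h9 := half_two (W z + 2 * 2 ^ z + 237 * z + 1430 + 1) (z + 5)
  rw [pow_succ 2 (W z + 2 * 2 ^ z + 237 * z + 1430)] at h9
  rw [h8, ← h9]
  ring

/-- (10) -/
theorem b10 (h : I.Small z) : 6 / eta2 z ^ 2 * (I.Λ * nN z) / (n4 z + 1) ≤ (1 / 2) ^ (z + 5) := by
  have hL := I.Λ1
  have h1 : 6 / eta2 z ^ 2 ≤ 2 ^ (12 * z + 69) := by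
    rw [eta2_eq]
    rw [show (6 : ℝ) / ((1 / 2) ^ (6 * z + 33)) ^ 2 = 6 * (1 / ((1 / 2) ^ (6 * z + 33)) ^ 2) by ring,
      one_div_sq]
    have h6 : (6 : ℝ) ≤ 2 ^ 3 := by norm_num
    exact mul2' (pow_pos2 _).le h6 (le_refl ((2 : ℝ) ^ (2 * (6 * z + 33)))) (by omega)
  have h2 : I.Λ * nN z ≤ 2 ^ (z + (21 * z + 128)) := by
    rw [nN_eq]
    exact mul2 (pow_pos2 _).le h.lam (le_refl ((2 : ℝ) ^ (21 * z + 128)))
  have h3 : 6 / eta2 z ^ 2 * (I.Λ * nN z) ≤ 2 ^ (34 * z + 197) :=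
    mul2' (mul_nonneg (by linarith) (nN_pos z).le) h1 h2 (by omega)
  refine div2 h3 (n := 35 * z + 202) ?_ (by omega)
  rw [n4_cast]
  linarith

/-- **the error** -/
theorem err_ok (h : I.Small z) {near1 near2 : ℝ} (hn1 : near1 = 8 / 2 ^ h1 z) (hn2 : near2 = 8 / 2 ^ h2 z) :
    I.Λ * (1601 * eta1 z + (1 + n2 z * eta1 z) * near1 + eta1 z * n2 z *
      (1601 * eta2 z + (1 + n4 z * eta2 z) * near2)) ≤ (1 / 2) ^ z := by
  have hL := I.Λ1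
  have a1 : 1601 * eta1 z ≤ 1 / 4 * (1 / 2) ^ (2 * z) := by
    rw [eta1_eq, pow_add]
    have : (0 : ℝ) < (1 / 2) ^ (2 * z) := by positivity
    norm_num
    nlinarith
  have a2 : (1 + n2 z * eta1 z) * near1 ≤ 1 / 16384 * (1 / 2) ^ (2 * z) := by
    rw [near1_eq z hn1]
    have h3 : (1 + (n2 z : ℝ) * eta1 z) * (1 / 2) ^ (6 * z + 35) ≤ 2 ^ (4 * z + 21) * (1 / 2) ^ (6 * z + 35) :=
      mul_le_mul_of_nonneg_right (X_le z) (by positivity)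
    refine h3.trans (le_of_eq ?_)
    have h4 := half_two (4 * z + 21) (2 * z + 14)
    rw [show 4 * z + 21 + (2 * z + 14) = 6 * z + 35 by omega] at h4
    rw [mul_comm, h4, pow_add]
    norm_num
    ring
  have a3 : 1601 * eta2 z + (1 + n4 z * eta2 z) * near2 ≤ 2048 * eta2 z := by
    have h3 := cnear2 z hn2
    have hX := X4_ge z
    have hX0 : (0 : ℝ) < 1 + n4 z * eta2 z := by linarith
    have he := eta2_pos z
    have h4 : (1 + (n4 z : ℝ) * eta2 z) * near2 ≤ (1 + n4 z * eta2 z) * (2 * eta2 z / (1 + n4 z * eta2 z) / 4) :=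
      mul_le_mul_of_nonneg_left h3 hX0.le
    have h5 : (1 + (n4 z : ℝ) * eta2 z) * (2 * eta2 z / (1 + n4 z * eta2 z) / 4) = eta2 z / 2 := by
      field_simp
      norm_num
    rw [h5] at h4
    linarith
  have a4 : eta1 z * n2 z * (1601 * eta2 z + (1 + n4 z * eta2 z) * near2) ≤ 1 / 4 * (1 / 2) ^ (2 * z) := by
    have h3 : eta1 z * n2 z = 2 ^ (4 * z + 20) := by
      rw [mul_comm]
      exact n2_eta z
    rw [h3]
    have h4 : (2 : ℝ) ^ (4 * z + 20) * (1601 * eta2 z + (1 + n4 z * eta2 z) * near2) ≤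
        2 ^ (4 * z + 20) * (2048 * eta2 z) := mul_le_mul_of_nonneg_left a3 (pow_pos2 _).le
    refine h4.trans (le_of_eq ?_)
    rw [eta2_eq]
    have h5 := half_two (4 * z + 20) (2 * z + 13)
    rw [show 4 * z + 20 + (2 * z + 13) = 6 * z + 33 by omega] at h5
    calc (2 : ℝ) ^ (4 * z + 20) * (2048 * (1 / 2) ^ (6 * z + 33)) =
        2048 * ((1 / 2) ^ (6 * z + 33) * 2 ^ (4 * z + 20)) := by ring
      _ = 2048 * ((1 / 2) ^ (2 * z) * (1 / 2) ^ 13) := by rw [h5, pow_add]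
      _ = _ := by
        norm_num
        ring
  have hp : (0 : ℝ) < (1 / 2) ^ (2 * z) := by positivity
  have a5 : 1601 * eta1 z + (1 + n2 z * eta1 z) * near1 + eta1 z * n2 z *
      (1601 * eta2 z + (1 + n4 z * eta2 z) * near2) ≤ (1 / 2) ^ (2 * z) := by linarith
  calc _ ≤ I.Λ * (1 / 2) ^ (2 * z) := mul_le_mul_of_nonneg_left a5 (by linarith)
    _ ≤ 2 ^ z * (1 / 2) ^ (2 * z) := mul_le_mul_of_nonneg_right h.lam hp.le
    _ = (1 / 2) ^ z := by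
      have h3 := half_two z z
      rw [← two_mul] at h3
      rw [mul_comm, h3]

/-- all the bounds together -/
theorem total_le (h : I.Small z) (hm : 0 < m) (hS : Fintype.card S ≤ m) (hK : T.K = 2 ^ (6 * z + 43)) {K2 : ℝ}
    (hK2 : K2 = 2 ^ (35 * z + 212)) :
    I.q1sum (eta1 z) (n2 z) (R0 z) (epsp z) (etap z) (epsp z) (eps z) T.K (j1 z) (2 ^ z) (M z) (nN z) (Mc z) +
      (1 / 2 : ℝ) ^ j2 z * (Nw z * Mc z ^ 2) +
      10 ^ 8 * eps2 z / (2 * eta2 z / (1 + n4 z * eta2 z)) ^ 4 * (1 + Real.log (K2 / eps2 z)) *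
      (Nw z * ((I.p0 + 2) * Mc z ^ 2 * (1 + 32 / etap2 z ^ 2) + (2 + 6 / eta2 z ^ 2) * (nN z * I.Ms))) +
      6 / eta2 z ^ 2 * (I.Λ * nN z) / (n4 z + 1) ≤ (1 / 2) ^ z := by
  have a1 := q1sum_le h hm hS hK
  have a2 := b8 (z := z)
  have a3 := b9 h hK2
  have a4 := b10 h
  have a5 : (1 / 2 : ℝ) ^ (z + 5) = (1 / 2) ^ z / 32 := by
    rw [pow_add]
    norm_num
    ring
  rw [a5] at a1 a2 a3 a4
  have hp : (0 : ℝ) < (1 / 2) ^ z := by positivity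
  linarith

end Inp

end

end Pool.Agent.M3.S2
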