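import Pool.Agent.M3.S1Lay

/-!
# M3/S2/OutNum (helper27): the sizes of the input of section 2 in the layer `n`

`sizes_exist` : for given `C0`, `Cp` there are `C`, `n0` such that for `n ≥ n0` there are `J`, `cap`, `cap2`, `z` with
`cap ≥ J 64 / (3 ep^2)`, `3 (2^-J + 32 / (ep^3 th cap2)) ≤ 2^-(2 n^C0 + 3)`, `2 (cap+1) 2^cap ≤ 2^z`,
`2 (cap2+1)^cap 2^cap ≤ 2^(2^z)`, `2 cap + 1 ≤ 2^z`, `n^Cp ≤ 2^z`, `2 n^C0 + 3 ≤ z`, `lh (n+1) ≤ z`, `n ≤ z`, `z ≤ n^C`.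
-/

set_option autoImplicit false
set_option linter.unusedSectionVars false

namespace Pool.Agent.M3.Mod

open Finset Pool.Agent.PWZ

theorem nat_two (n : ℕ) : n + 1 ≤ 2 ^ n := Nat.lt_two_pow_self

theorem exp_two (x : ℝ) (_hx : 0 ≤ x) {m : ℕ} (h : x ≤ m) : Real.exp x ≤ 2 ^ (2 * m) := by
  have h1 : Real.exp x ≤ Real.exp (m : ℝ) := Real.exp_le_exp.2 h
  refine h1.trans ?_
  rw [pow_mul]
  have h2 : Real.exp (m : ℝ) = Real.exp 1 ^ m := by
    rw [← Real.exp_nat_mul, mul_one]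
  rw [h2]
  refine pow_le_pow_left₀ (Real.exp_pos _).le ?_ m
  have := Real.exp_one_lt_d9
  norm_num
  linarith

theorem half_exp (m : ℕ) : (1 / 2 : ℝ) ^ (2 * m) ≤ Real.exp (-(m : ℝ)) := by
  rw [pow_mul]
  have h2 : Real.exp (-(m : ℝ)) = Real.exp (-1) ^ m := by
    rw [← Real.exp_nat_mul, mul_neg, mul_one]
  rw [h2]
  refine pow_le_pow_left₀ (by norm_num) ?_ m
  rw [Real.exp_neg, le_inv_comm₀ (by norm_num) (Real.exp_pos 1)]
  have := Real.exp_one_lt_d9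
  norm_num
  linarith

/-- the sizes of the input -/
theorem sizes_exist (L : Lay) (C0 Cp : ℕ) : ∃ C n0 : ℕ, ∀ n ≥ n0, ∃ J cap cap2 z : ℕ,
    (J : ℝ) * (64 / (3 * L.lep (n + 1) ^ 2)) ≤ cap ∧ 0 < cap2 ∧
    3 * ((1 / 2 : ℝ) ^ J + 32 / (L.lep (n + 1) ^ 3 * L.lth (n + 1)) / cap2) ≤ (1 / 2) ^ (2 * n ^ C0 + 3) ∧
    2 * ((cap : ℝ) + 1) * 2 ^ cap ≤ 2 ^ z ∧ 2 * ((cap2 : ℝ) + 1) ^ cap * 2 ^ cap ≤ 2 ^ (2 ^ z) ∧
    2 * (cap : ℝ) + 1 ≤ 2 ^ z ∧ (n : ℝ) ^ Cp ≤ 2 ^ z ∧ 2 * n ^ C0 + 3 ≤ z ∧ L.lh (n + 1) ≤ z ∧ n ≤ z ∧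
    z ≤ n ^ C := by
  obtain ⟨Cc, hCc⟩ := exists_nat_ge (64 / (3 * L.c ^ 2))
  obtain ⟨Cd, hCd⟩ := pow_unbounded_of_one_lt (1 / L.c ^ 3) (by norm_num : (1 : ℝ) < 2)
  obtain ⟨b, hb⟩ := pow_unbounded_of_one_lt (1 + L.kap) (by norm_num : (1 : ℝ) < 2)
  have hc := L.c_pos
  have hkap := L.kap_pos
  -- the numbers
  set Jn : ℕ → ℕ := fun n => 2 * n ^ C0 + 6 with hJ
  set cap : ℕ → ℕ := fun n => Jn n * (Cc * (n + 2) ^ 8) with hcap
  set l2 : ℕ → ℕ := fun n => 5 + Jn n + 12 * (n + 2) + Cd + 2 * 2 ^ (b * (n + 1)) with hl2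
  set z : ℕ → ℕ := fun n => 2 * cap n + 3 + (5 + Jn n + 12 * (n + 2) + Cd) + (b * (n + 1) + 2) + n * Cp +
    L.a + 8 * (n + 2) with hz
  refine ⟨C0 + Cp + 60, Cc + Cd + b + L.a + Cp + 100, fun n hn => ⟨Jn n, cap n, 2 ^ l2 n, z n, ?_, ?_, ?_, ?_, ?_, ?_,
    ?_, ?_, ?_, ?_, ?_⟩⟩
  · -- the cap
    have e1 : L.lep (n + 1) = L.c / ((n : ℝ) + 2) ^ 4 := by
      unfold Lay.lep
      push_cast
      ring_nf
    rw [e1, hcap]
    push_cast
    refine mul_le_mul_of_nonneg_left ?_ (Nat.cast_nonneg _)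
    have e2 : (64 : ℝ) / (3 * (L.c / ((n : ℝ) + 2) ^ 4) ^ 2) = 64 / (3 * L.c ^ 2) * ((n : ℝ) + 2) ^ 8 := by
      field_simp
    rw [e2]
    exact mul_le_mul_of_nonneg_right hCc (by positivity)
  · positivity
  · -- the probability
    have e1 : L.lep (n + 1) = L.c / ((n : ℝ) + 2) ^ 4 := by
      unfold Lay.lep
      push_cast
      ring_nf
    have hlth : L.lth (n + 1) = Real.exp (-(1 + L.kap) ^ (n + 1)) := rfl
    have hx : (1 + L.kap) ^ (n + 1) ≤ ((2 ^ (b * (n + 1)) : ℕ) : ℝ) := by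
      push_cast
      rw [pow_mul]
      exact pow_le_pow_left₀ (by linarith) hb.le _
    have hexp := exp_two ((1 + L.kap) ^ (n + 1)) (by positivity) hx
    have e3 : 32 / (L.lep (n + 1) ^ 3 * L.lth (n + 1)) =
        32 * (1 / L.c ^ 3) * ((n : ℝ) + 2) ^ 12 * Real.exp ((1 + L.kap) ^ (n + 1)) := by
      rw [e1, hlth, Real.exp_neg]
      field_simp
    have h12 : ((n : ℝ) + 2) ^ 12 ≤ 2 ^ (12 * (n + 2)) := by
      rw [mul_comm 12, pow_mul]
      refine pow_le_pow_left₀ (by positivity) ?_ 12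
      have := nat_two (n + 2)
      have h3 : ((n + 2 : ℕ) : ℝ) + 1 ≤ 2 ^ (n + 2) := by exact_mod_cast this
      push_cast at h3
      linarith
    have h4 : 32 / (L.lep (n + 1) ^ 3 * L.lth (n + 1)) ≤
        2 ^ 5 * 2 ^ Cd * 2 ^ (12 * (n + 2)) * 2 ^ (2 * 2 ^ (b * (n + 1))) := by
      rw [e3]
      have h32 : (32 : ℝ) = 2 ^ 5 := by norm_num
      rw [h32]
      refine mul_le_mul (mul_le_mul (mul_le_mul_of_nonneg_left hCd.le (by positivity)) h12 (by positivity)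
        (by positivity)) hexp (Real.exp_pos _).le (by positivity)
    have h5 : 32 / (L.lep (n + 1) ^ 3 * L.lth (n + 1)) / ((2 ^ l2 n : ℕ) : ℝ) ≤ (1 / 2) ^ Jn n := by
      rw [div_le_iff₀ (by positivity)]
      refine h4.trans (le_of_eq ?_)
      push_cast
      have h6 : l2 n = Jn n + (5 + Cd + 12 * (n + 2) + 2 * 2 ^ (b * (n + 1))) := by
        rw [hl2]
        ring
      rw [h6, pow_add (2 : ℝ) (Jn n), ← mul_assoc]
      rw [show (1 / 2 : ℝ) ^ Jn n * 2 ^ Jn n = 1 by rw [← mul_pow]; norm_num]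
      rw [one_mul, pow_add, pow_add, pow_add]
    have h7 : (1 / 2 : ℝ) ^ Jn n = (1 / 2) ^ (2 * n ^ C0 + 3) * (1 / 8) := by
      rw [hJ]
      simp only
      rw [show 2 * n ^ C0 + 6 = (2 * n ^ C0 + 3) + 3 by ring, pow_add]
      norm_num
    have h8 : (0 : ℝ) < (1 / 2) ^ (2 * n ^ C0 + 3) := by positivity
    rw [h7] at h5 ⊢
    linarith
  · -- Λ
    have h1 := nat_two (cap n)
    have h2 : (cap n : ℝ) + 1 ≤ 2 ^ cap n := by exact_mod_cast h1
    have h3 : 2 * ((cap n : ℝ) + 1) * 2 ^ cap n ≤ 2 ^ (2 * cap n + 1) := by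
      have e : (2 : ℝ) ^ (2 * cap n + 1) = 2 * 2 ^ cap n * 2 ^ cap n := by ring
      rw [e]
      have h4 : (0 : ℝ) < 2 ^ cap n := by positivity
      nlinarith
    refine h3.trans (pow_le_pow_right₀ (by norm_num) ?_)
    rw [hz]
    simp only
    omega
  · -- Ms
    have hpos : (1 : ℝ) ≤ 2 ^ l2 n := one_le_pow₀ (by norm_num)
    have h1 : (((2 ^ l2 n : ℕ) : ℝ) + 1) ≤ 2 ^ (l2 n + 1) := by
      push_cast
      rw [pow_succ]
      linarith
    have h2 : 2 * (((2 ^ l2 n : ℕ) : ℝ) + 1) ^ cap n * 2 ^ cap n ≤ 2 ^ (1 + (l2 n + 1) * cap n + cap n) := by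
      have e : ∀ a b : ℕ, (2 : ℝ) ^ (1 + a * b + b) = 2 * (2 ^ a) ^ b * 2 ^ b := by
        intro a b
        rw [pow_add, pow_add, pow_one, pow_mul]
      rw [e]
      refine mul_le_mul_of_nonneg_right (mul_le_mul_of_nonneg_left ?_ (by norm_num)) (by positivity)
      exact pow_le_pow_left₀ (by positivity) h1 _
    refine h2.trans (pow_le_pow_right₀ (by norm_num) ?_)
    -- natural numbers
    have h3 := nat_two (cap n)
    have h4 := nat_two (5 + Jn n + 12 * (n + 2) + Cd)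
    have h5 : l2 n + 2 ≤ 2 ^ (5 + Jn n + 12 * (n + 2) + Cd) * 2 ^ (b * (n + 1) + 2) := by
      have h6 : 1 ≤ 2 ^ (5 + Jn n + 12 * (n + 2) + Cd) := Nat.one_le_two_pow
      have h7 : 1 ≤ 2 ^ (b * (n + 1)) := Nat.one_le_two_pow
      have h8 : 2 ^ (b * (n + 1) + 2) = 4 * 2 ^ (b * (n + 1)) := by ring
      rw [h8, hl2]
      simp only
      generalize 5 + Jn n + 12 * (n + 2) + Cd = x at *
      generalize 2 ^ (b * (n + 1)) = y at *
      generalize 2 ^ x = v at *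
      nlinarith
    have h9 : 1 + (l2 n + 1) * cap n + cap n ≤ (l2 n + 2) * 2 ^ cap n := by
      have : (l2 n + 2) * (cap n + 1) ≤ (l2 n + 2) * 2 ^ cap n := Nat.mul_le_mul_left _ h3
      nlinarith
    refine h9.trans ?_
    refine (Nat.mul_le_mul_right _ h5).trans ?_
    rw [← pow_add, ← pow_add]
    refine Nat.pow_le_pow_right (by norm_num) ?_
    rw [hz]
    simp only
    omega
  · -- moves
    have h1 := nat_two (cap n)
    have h2 : (cap n : ℝ) + 1 ≤ 2 ^ cap n := by exact_mod_cast h1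
    have h3 : 2 * (cap n : ℝ) + 1 ≤ 2 ^ (cap n + 1) := by
      rw [pow_succ]
      linarith
    refine h3.trans (pow_le_pow_right₀ (by norm_num) ?_)
    rw [hz]
    simp only
    omega
  · have h1 : (n : ℝ) ≤ 2 ^ n := by
      have := nat_two n
      exact_mod_cast (Nat.le_succ n).trans this
    have h2 : (n : ℝ) ^ Cp ≤ 2 ^ (n * Cp) := by
      rw [pow_mul]
      exact pow_le_pow_left₀ (Nat.cast_nonneg _) h1 Cp
    refine h2.trans (pow_le_pow_right₀ (by norm_num) ?_)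
    rw [hz]
    simp only
    omega
  · rw [hz, hJ]
    simp only
    omega
  · have h1 : L.lh (n + 1) = L.a + 8 * Nat.clog 2 (n + 2) := rfl
    have h2 : Nat.clog 2 (n + 2) ≤ n + 2 := Nat.clog_le_of_le_pow ((Nat.le_succ _).trans (nat_two (n + 2)))
    rw [h1, hz]
    simp only
    omega
  · rw [hz]
    simp only
    omega
  · -- polynomial bound
    have hn1 : 100 ≤ n := by omega
    have hCn : Cc + Cd + b + L.a + Cp ≤ n := by omega
    have hp : ∀ {i j : ℕ}, i ≤ j → n ^ i ≤ n ^ j := fun h => Nat.pow_le_pow_right (by omega) h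
    have hn0 : n ^ 0 = 1 := pow_zero n
    have hn1' : n ^ 1 = n := pow_one n
    have hJn : Jn n ≤ n ^ (C0 + 1) := by
      rw [hJ]
      simp only
      have h1 : 1 ≤ n ^ C0 := Nat.one_le_pow _ _ (by omega)
      have h2 : n ^ (C0 + 1) = n ^ C0 * n := pow_succ n C0
      rw [h2]
      nlinarith
    have hn2 : (n + 2) ^ 8 ≤ n ^ 16 := by
      have h1 : n + 2 ≤ n ^ 2 := by nlinarith
      calc (n + 2) ^ 8 ≤ (n ^ 2) ^ 8 := Nat.pow_le_pow_left h1 8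
        _ = n ^ 16 := by rw [← pow_mul]
    have hcapn : cap n ≤ n ^ (C0 + 18) := by
      rw [hcap]
      simp only
      calc Jn n * (Cc * (n + 2) ^ 8) ≤ n ^ (C0 + 1) * (n * n ^ 16) :=
            Nat.mul_le_mul hJn (Nat.mul_le_mul (by omega) hn2)
        _ = n ^ (C0 + 18) := by ring
    have hbig : n ^ (C0 + Cp + 60) = n ^ (C0 + Cp + 59) * n := pow_succ n _
    have q1 : cap n ≤ n ^ (C0 + Cp + 59) := hcapn.trans (hp (by omega))
    have q2 : Jn n ≤ n ^ (C0 + Cp + 59) := hJn.trans (hp (by omega))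
    have q3 : n * n ≤ n ^ (C0 + Cp + 59) := by
      have : n * n = n ^ 2 := (sq n).symm
      rw [this]
      exact hp (by omega)
    have q4 : b * (n + 1) ≤ 2 * (n * n) := by nlinarith
    have q5 : n * Cp ≤ n * n := Nat.mul_le_mul_left _ (by omega)
    have q6 : 100 * n ^ (C0 + Cp + 59) ≤ n ^ (C0 + Cp + 59) * n := by
      rw [mul_comm]
      exact Nat.mul_le_mul_left _ hn1
    have q7 : n ≤ n * n := by nlinarith
    rw [hbig, hz]
    simp only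
    omega

end Pool.Agent.M3.Mod
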