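import Pool.Agent.M3.S2.InpC
import Pool.Agent.M3.S2.OutNum
import Pool.Agent.M3.S2.Num2
import Pool.Agent.M3.NVT

/-!
# M3.S2.InpL : the input of section 2 for a layer, with all sizes (helper27)

`inpL` : for every `C0, Cp` there are `C, n0` such that for every `n ≥ n0` there is a size `z ≤ n^C` with which the
instance `I : Inp (tri Unit Ξ Unit .. (h1 z)) S` exists for all families as in `NVThm`, `I.Small z`, and the process is
`4 I.TT` off an event of probability at most `(1/2)^(2 n^C0 + 3)`.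
-/

set_option autoImplicit false
set_option linter.unusedSectionVars false

namespace Pool.Agent.M3.Mod

open Finset Pool.Agent.PWZ Pool.Agent.M3.Bin

noncomputable section

/-- **THE INPUT OF SECTION 2 WITH ALL SIZES** -/
theorem inpL (L : Lay) (C0 Cp : ℕ) : ∃ C n0 : ℕ, ∀ n ≥ n0, ∃ z : ℕ,
    2 * n ^ C0 + 3 ≤ z ∧ (n : ℝ) ^ Cp ≤ 2 ^ z ∧ L.lh (n + 1) ≤ z ∧ n ≤ z ∧ z ≤ n ^ C ∧
    ∀ (k N : ℕ) (hN : N ≤ k) (F : Fin 3 → Unit × V k → Unit × V k → V k → ℝ), (∀ i b c d, |F i b c d| ≤ 1) →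
    ∀ (i j l : Fin 3) (hij : j ≠ i) (hli : l ≠ i) (hlj : l ≠ j) (R : Fin 3 → Fam2 k Unit), R l = Dl N L F n l →
      (R j = fine (L.lh n) (Rl N L F n j) ∨ R j = Rl N L F (n + 1) j) →
      (∀ e g x y d, |R i e g x y d| ≤ 2) →
      (∀ ω : Sp k N 3 Unit Unit, ∑ t ∈ range N, ind (chE (L.lh (n + 1)) i (R i) t ω) ≤ (n : ℝ) ^ Cp) →
    ∃ (S : Type) (_ : Fintype S) (_ : DecidableEq S), ∀ (m : ℕ) [NeZero m],
      ∃ I : S2.Inp (tri Unit (S → Fin m) Unit hij hli hlj hN (S2.Num.h1 z)) S,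
        I.Small z ∧
        (∀ t (ω : Sp k N 3 Unit ((S → Fin m) × Unit)), I.G1 t (gq (S2.Num.h1 z) (ex N t) ω) (vq j ω) (vq l ω) =
           fun d => fz (L.lh (n + 1)) i (R i) t (prU ω) d / 2) ∧
        (Pm : FP (Sp k N 3 Unit ((S → Fin m) × Unit))).Pr (fun ω => ∃ t ≤ N,
          TZ (L.lh (n + 1)) R t (prU ω) ≠ 4 * I.TT t ω) ≤ (1 / 2) ^ (2 * n ^ C0 + 3) := by
  obtain ⟨C, n0, h⟩ := sizes_exist L C0 Cp
  refine ⟨C, n0, fun n hn => ?_⟩
  obtain ⟨J, cap, cap2, z, h1, h2, h3, h4, h5, h6, h7, h8, h9, h10, h11⟩ := h n hn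
  refine ⟨z, h8, h7, h9, h10, h11, ?_⟩
  intro k N hN F hF i j l hij hli hlj R hRl hRj hRi hp
  obtain ⟨y, hy⟩ := R3_of hRj
  have hh : L.lh (n + 1) ≤ S2.Num.h1 z := by
    have : z ≤ S2.Num.h1 z := by unfold S2.Num.h1; omega
    exact h9.trans this
  obtain ⟨S, iS, hS⟩ := inp_exists L n hF hij hli hlj hN hh R hRl y hy hRi cap cap2 (p0 := 2 ^ z) h6
    (fun ω => (hp ω).trans h7)
  let dS : DecidableEq S := Classical.decEq S
  refine ⟨S, iS, dS, ?_⟩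
  intro m _
  obtain ⟨I, e1, e2, e3, e4, e5⟩ := hS (S → Fin m)
  refine ⟨I, ⟨?_, ?_, ?_⟩, e4, ?_⟩
  · rw [e1]; exact h4
  · rw [e2]
  · rw [e3]; exact h5
  · have hb := (Pr_BadL (k := k) (N := N) cap cap2 L n hF h1 h2 j l y).trans h3
    refine le_trans ?_ hb
    rw [← Pr_prU (Θ := Unit) (P := (S → Fin m) × Unit) (BadL L n F cap cap2 j l y)]
    refine FP.Pr_mono _ fun ω _ hw => ?_
    by_contra hnb
    obtain ⟨t, ht, hne⟩ := hw
    exact hne (e5 ω hnb t ht)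

end

end Pool.Agent.M3.Mod
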