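import Pool.Agent.M3.S2.Opt

/-!
# M3/S2/Out : OUTPUT OF SECTION 2 = interface with section 2B (helper44)

`Out T Q TT E eps q Lam J M` : for the process `TT` and the known face `E t g (b, c)` there are labels `f t g (xi, a, b)`,
`g t g (xi, a, c)` (natural forms: functions of the node `g` and of the coordinates) and a formula `Phi b e f g` with
* `err` : `|TT t - iw J_t 1 (Phi b e f g)| ≤ eps` for all `t ≤ n`, outside `q`; `bd` : `|Phi| ≤ Lam` for all values;
* `chf`, `chg` : at most `J` changes in mean;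
* `vf`, `vg` : outside `q` at most `M` values for given `b` (resp. `c`) along the public path `Q`, at the options.
`natf` : natural form of a function of `(K w, gm t w)`, `natf_eq`, `natf_or`; `vals_nat_b`, `vals_nat_c` : from the form
`T.clb`, `T.clc` to the form of `Out`; `valE` : values of the known face.
-/

set_option autoImplicit false
set_option linter.unusedSectionVars false

namespace Pool.Agent.M3.S2

open Finset Pool.Agent.PWZ Pool.Agent.M3.TS

noncomputable section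

/-! ### natural forms -/

section nat

variable {Om Γ 𝒦 X : Type}

open Classical in
/-- natural form of a function of `(K w, gm t w)` -/
def natf (gm : ℕ → Om → Γ) (K : Om → 𝒦) (L : ℕ → Om → X) (x0 : X) (t : ℕ) (g : Γ) (k : 𝒦) : X :=
  if h : ∃ w, gm t w = g ∧ K w = k then L t h.choose else x0

variable {gm : ℕ → Om → Γ} {K : Om → 𝒦} {L : ℕ → Om → X} {x0 : X}

theorem natf_eq {t : ℕ} (hL : Fac (fun w => (K w, gm t w)) (L t)) (w : Om) :
    natf gm K L x0 t (gm t w) (K w) = L t w := by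
  have h : ∃ v, gm t v = gm t w ∧ K v = K w := ⟨w, rfl, rfl⟩
  unfold natf
  rw [dif_pos h]
  exact hL _ _ (Prod.ext h.choose_spec.2 h.choose_spec.1)

/-- every value of the natural form is a value or the default -/
theorem natf_or (t : ℕ) (g : Γ) (k : 𝒦) :
    natf gm K L x0 t g k = x0 ∨ ∃ v, gm t v = g ∧ K v = k ∧ natf gm K L x0 t g k = L t v := by
  unfold natf
  by_cases h : ∃ w, gm t w = g ∧ K w = k
  · rw [dif_pos h]
    exact Or.inr ⟨h.choose, h.choose_spec.1, h.choose_spec.2, rfl⟩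
  · rw [dif_neg h]
    exact Or.inl rfl

end nat

variable {Om Ξ A B C V Γ κ : Type} [Fintype Om] [Fintype Ξ] [Fintype A] [Fintype B]
    [Fintype C] [Fintype V] {υ : ℕ → Type}

/-- **THE OUTPUT** -/
structure Out (T : Tri Om Ξ A B C V Γ κ) (Q : ∀ t, Om → υ t) (TT : ℕ → Om → ℝ) (E : ℕ → Γ → B → C → V → ℝ)
    (eps q Lam J : ℝ) (M : ℕ) where
  /-- values of the labels -/
  F' : Type
  G' : Type
  /-- label of `(a, b)`, label of `(a, c)` -/
  f : ℕ → Γ → Ξ × A × B → F'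
  g : ℕ → Γ → Ξ × A × C → G'
  /-- the formula -/
  Phi : B → (V → ℝ) → F' → G' → V → ℝ
  Phi0 : ∀ b e x y, (∀ d, e d = 0) → ∀ d, Phi b e x y d = 0
  bd : ∀ b e t t' g1 x g2 y d, (∀ d, |e d| ≤ 1) → t ≤ T.n → t' ≤ T.n → |Phi b e (f t g1 x) (g t' g2 y) d| ≤ Lam
  err : T.P.Pr (fun w => ∃ t ≤ T.n, eps < |TT t w - iw (T.J t w) (fun _ => 1)
    (Phi (T.b w) (E t (T.gm t w) (T.b w) (T.c w)) (f t (T.gm t w) (T.xi w, T.a w, T.b w))
      (g t (T.gm t w) (T.xi w, T.a w, T.c w)))|) ≤ q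
  chf : ∑ t ∈ range T.n, T.P.Pr (fun w => f (t + 1) (T.gm (t + 1) w) (T.xi w, T.a w, T.b w) ≠
    f t (T.gm t w) (T.xi w, T.a w, T.b w)) ≤ J
  chg : ∑ t ∈ range T.n, T.P.Pr (fun w => g (t + 1) (T.gm (t + 1) w) (T.xi w, T.a w, T.c w) ≠
    g t (T.gm t w) (T.xi w, T.a w, T.c w)) ≤ J
  vf : T.P.Pr (fun w0 => ¬ ∃ s : Finset F', s.card ≤ M ∧ ∀ t ≤ T.n, ∀ o ∈ T.OPT Q t w0, ∀ w, Q t w = Q t w0 →
    f t o (T.xi w, T.a w, T.b w0) ∈ s) ≤ q
  vg : T.P.Pr (fun w0 => ¬ ∃ s : Finset G', s.card ≤ M ∧ ∀ t ≤ T.n, ∀ o ∈ T.OPT Q t w0, ∀ w, Q t w = Q t w0 →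
    g t o (T.xi w, T.a w, T.c w0) ∈ s) ≤ q

/-! ### value sets -/

section vals

variable {T : Tri Om Ξ A B C V Γ κ} {Q : ∀ t, Om → υ t} {X : Type}

open Classical in
/-- value sets of the natural form, known vertex `b` -/
theorem vals_nat_b {L : ℕ → Om → X} {x0 : X} {M : ℕ} {w0 : Om} {s : Finset X} (hs : s.card ≤ M)
    (h : ∀ t ≤ T.n, ∀ w, T.clb Q t w0 w → L t w ∈ s) :
    ∃ s' : Finset X, s'.card ≤ M + 1 ∧ ∀ t ≤ T.n, ∀ o ∈ T.OPT Q t w0, ∀ w, Q t w = Q t w0 →
      natf T.gm (fun w => (T.xi w, T.a w, T.b w)) L x0 t o (T.xi w, T.a w, T.b w0) ∈ s' := by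
  refine ⟨insert x0 s, (Finset.card_insert_le _ _).trans (by omega), ?_⟩
  intro t ht o ho w hw
  rcases natf_or (gm := T.gm) (K := fun w => (T.xi w, T.a w, T.b w)) (L := L) (x0 := x0) t o
    (T.xi w, T.a w, T.b w0) with h1 | ⟨v, h1, h2, h3⟩
  · rw [h1]
    exact Finset.mem_insert_self _ _
  · rw [h3]
    simp only [Prod.mk.injEq] at h2
    refine Finset.mem_insert_of_mem (h t ht v ⟨h2.2.2, ?_, w, hw, h2.1.symm, h2.2.1.symm⟩)
    rw [h1]
    exact ho

open Classical in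
/-- value sets of the natural form, known vertex `c` -/
theorem vals_nat_c {L : ℕ → Om → X} {x0 : X} {M : ℕ} {w0 : Om} {s : Finset X} (hs : s.card ≤ M)
    (h : ∀ t ≤ T.n, ∀ w, T.clc Q t w0 w → L t w ∈ s) :
    ∃ s' : Finset X, s'.card ≤ M + 1 ∧ ∀ t ≤ T.n, ∀ o ∈ T.OPT Q t w0, ∀ w, Q t w = Q t w0 →
      natf T.gm (fun w => (T.xi w, T.a w, T.c w)) L x0 t o (T.xi w, T.a w, T.c w0) ∈ s' := by
  refine ⟨insert x0 s, (Finset.card_insert_le _ _).trans (by omega), ?_⟩
  intro t ht o ho w hw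
  rcases natf_or (gm := T.gm) (K := fun w => (T.xi w, T.a w, T.c w)) (L := L) (x0 := x0) t o
    (T.xi w, T.a w, T.c w0) with h1 | ⟨v, h1, h2, h3⟩
  · rw [h1]
    exact Finset.mem_insert_self _ _
  · rw [h3]
    simp only [Prod.mk.injEq] at h2
    refine Finset.mem_insert_of_mem (h t ht v ⟨h2.2.2, ?_, w, hw, h2.1.symm, h2.2.1.symm⟩)
    rw [h1]
    exact ho

open Classical in
/-- **values of the known face** along the public path, at the options -/
theorem valE (hP : Pubn T Q) (E : ℕ → Γ → B → C → X) {p0 : ℝ}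
    (hE : ∑ t ∈ range T.n, T.P.Pr (fun w => E (t + 1) (T.gm (t + 1) w) (T.b w) (T.c w) ≠
      E t (T.gm t w) (T.b w) (T.c w)) ≤ p0) (M : ℕ) :
    T.P.Pr (fun w0 => ¬ ∃ s : Finset X, s.card ≤ M + 2 ∧ ∀ t ≤ T.n, ∀ o ∈ T.OPT Q t w0,
      E t o (T.b w0) (T.c w0) ∈ s) ≤ 2 * p0 / (M + 1) := by
  set φ : ℕ → B → C → Γ → ℝ := fun t b0 c0 o => ind (E (t + 1) o b0 c0 ≠ E t (T.par t o) b0 c0) with hφ
  have hφ0 : ∀ t b0 c0 o, 0 ≤ φ t b0 c0 o := fun t b0 c0 o => ind_nonneg _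
  -- the new values
  set N : Om → ℕ := fun w0 => ∑ t ∈ range T.n, ((T.OPT Q (t + 1) w0).filter
    (fun o => E (t + 1) o (T.b w0) (T.c w0) ≠ E t (T.par t o) (T.b w0) (T.c w0))).card with hN
  have hNE : ∀ w0, (N w0 : ℝ) = ∑ t ∈ range T.n, ∑ o ∈ T.OPT Q (t + 1) w0, φ t (T.b w0) (T.c w0) o := by
    intro w0
    rw [hN]
    push_cast
    refine Finset.sum_congr rfl fun t _ => ?_
    rw [Finset.card_filter]
    push_cast
    refine Finset.sum_congr rfl fun o _ => ?_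
    rw [hφ]
    by_cases h : E (t + 1) o (T.b w0) (T.c w0) ≠ E t (T.par t o) (T.b w0) (T.c w0)
    · rw [if_pos h]
      exact (ind_of h).symm
    · rw [if_neg h]
      exact (ind_not h).symm
  have hmean : T.P.E (fun w0 => (N w0 : ℝ)) ≤ 2 * p0 := by
    rw [T.P.E_congr fun w _ => hNE w, T.P.E_sum]
    calc ∑ t ∈ range T.n, T.P.E (fun w0 => ∑ o ∈ T.OPT Q (t + 1) w0, φ t (T.b w0) (T.c w0) o) ≤
        ∑ t ∈ range T.n, 2 * T.P.E (fun w => φ t (T.b w) (T.c w) (T.gm (t + 1) w)) :=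
          Finset.sum_le_sum fun t _ => hP.E_opt (t + 1) (φ t) (hφ0 t)
      _ = 2 * ∑ t ∈ range T.n, T.P.Pr (fun w => E (t + 1) (T.gm (t + 1) w) (T.b w) (T.c w) ≠
            E t (T.gm t w) (T.b w) (T.c w)) := by
          rw [← Finset.mul_sum]
          congr 1
          refine Finset.sum_congr rfl fun t _ => ?_
          unfold FP.Pr
          refine T.P.E_congr fun w _ => ?_
          rw [hφ]
          simp only [T.par_gm]
      _ ≤ 2 * p0 := by linarith
  have hM : (0 : ℝ) < M + 1 := by positivity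
  rw [le_div_iff₀ hM]
  refine le_trans ?_ hmean
  rw [mul_comm]
  refine le_trans ?_ (T.P.markov (f := fun w0 => (N w0 : ℝ)) (fun w _ => Nat.cast_nonneg _) ((M : ℝ) + 1))
  refine mul_le_mul_of_nonneg_left (T.P.Pr_mono fun w0 _ hw => ?_) hM.le
  by_contra hlt
  apply hw
  have hle : N w0 ≤ M := by
    by_contra h
    apply hlt
    have : M + 1 ≤ N w0 := by omega
    exact_mod_cast this
  refine ⟨(T.OPT Q 0 w0).image (fun o => E 0 o (T.b w0) (T.c w0)) ∪ (range T.n).biUnion (fun t =>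
    ((T.OPT Q (t + 1) w0).filter (fun o => E (t + 1) o (T.b w0) (T.c w0) ≠ E t (T.par t o) (T.b w0) (T.c w0))).image
      (fun o => E (t + 1) o (T.b w0) (T.c w0))), ?_, ?_⟩
  · refine (Finset.card_union_le _ _).trans ?_
    have h1 : ((T.OPT Q 0 w0).image (fun o => E 0 o (T.b w0) (T.c w0))).card ≤ 2 :=
      Finset.card_image_le.trans (hP.two 0 w0)
    have h2 : ((range T.n).biUnion (fun t => ((T.OPT Q (t + 1) w0).filter (fun o => E (t + 1) o (T.b w0) (T.c w0) ≠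
        E t (T.par t o) (T.b w0) (T.c w0))).image (fun o => E (t + 1) o (T.b w0) (T.c w0)))).card ≤ M :=
      (Finset.card_biUnion_le.trans (Finset.sum_le_sum fun t _ => Finset.card_image_le)).trans hle
    omega
  · intro t
    induction t with
    | zero =>
      intro _ o ho
      exact Finset.mem_union_left _ (Finset.mem_image_of_mem _ ho)
    | succ t ih =>
      intro ht o ho
      by_cases h : E (t + 1) o (T.b w0) (T.c w0) ≠ E t (T.par t o) (T.b w0) (T.c w0)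
      · refine Finset.mem_union_right _ (Finset.mem_biUnion.2 ⟨t, Finset.mem_range.2 (by omega), ?_⟩)
        exact Finset.mem_image_of_mem _ (Finset.mem_filter.2 ⟨ho, h⟩)
      · push Not at h
        rw [h]
        refine ih (by omega) (T.par t o) ?_
        obtain ⟨v, hv1, hv2⟩ := Tri.mem_OPT.1 ho
        refine Tri.mem_OPT.2 ⟨v, hP.filt t v w0 hv1, ?_⟩
        rw [← hv2, T.par_gm]

end vals

end

end Pool.Agent.M3.S2
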