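import Pool.Agent.M3.S2.Sys

/-!
# M3/S2/Cnt : counts of the references (helper39)

`pr_act`, `pr_intr` : `Pr (act s)`, `Pr (intr s) ≤ K Pr (onab s)`; `mean_hl` : `E Σ_s' 1[hl s' ≠ []] ≤ K² Ms`;
`pr_capc` : `Pr (not capc) ≤ 2 K² Ms / Mc`; monotonicity in time along the path.
-/

set_option autoImplicit false

namespace Pool.Agent.M3.S2

open Finset Pool.Agent.PWZ Pool.Agent.M3.TS

/-- decomposition of an event by the value of a map -/
theorem Pr_split {Om 𝒳 : Type} [Fintype Om] [Fintype 𝒳] (P : FP Om) (X : Om → 𝒳) (E : Om → Prop) :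
    P.Pr E = ∑ x, P.Pr (fun w => X w = x ∧ E w) := by
  classical
  unfold FP.Pr
  rw [← P.E_sum]
  refine P.E_congr fun w _ => ?_
  rw [Finset.sum_eq_single (X w)]
  · by_cases h : E w
    · rw [ind_of h, ind_of ⟨rfl, h⟩]
    · rw [ind_not h, ind_not fun h' => h h'.2]
  · intro x _ hx
    exact ind_not fun h => hx h.1.symm
  · intro h
    exact absurd (Finset.mem_univ _) h

variable {Om A B C V Γ κ S : Type} [Fintype Om] [Fintype A] [Fintype B] [Fintype C] [Fintype V]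
  [Fintype S] [DecidableEq S] {m : ℕ} {T : Tri Om (S → Fin m) A B C V Γ κ}

namespace Inp

variable (I : Inp T S)

/-- the event `onab` at the last time -/
theorem onab_iff (w : Om) (s : S) : I.onab w T.n s ↔ (T.gm (I.R.tb s) w = I.R.gb s ∧
    T.ca (I.R.tb s) (T.a w) = I.R.al s ∧ T.cb (I.R.tb s) (T.b w) = I.R.be s) := by
  unfold onab on
  constructor
  · rintro ⟨⟨-, h1⟩, h2, h3⟩
    exact ⟨h1, h2, h3⟩
  · rintro ⟨h1, h2, h3⟩
    exact ⟨⟨I.tbn s, h1⟩, h2, h3⟩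

theorem intr_iff (s : S) {t : ℕ} (w : Om) : I.intr s t (T.gm t w) (T.b w) (T.c w) ↔
    (I.R.tb s ≤ t ∧ T.gm (I.R.tb s) w = I.R.gb s ∧ T.cb (I.R.tb s) (T.b w) = I.R.be s ∧
      T.Rz (I.R.tb s) (I.R.al s) (I.R.be s) (T.cc (I.R.tb s) (T.c w)) (I.R.gb s)) := by
  unfold intr
  constructor
  · rintro ⟨⟨h1, h2⟩, h3, h4⟩
    rw [T.anc_gm h1] at h2
    exact ⟨h1, h2, h3, h4⟩
  · rintro ⟨h1, h2, h3, h4⟩
    exact ⟨⟨h1, by rw [T.anc_gm h1]; exact h2⟩, h3, h4⟩

/-- an active reference for `(a, c)` -/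
theorem pr_act (s : S) : T.P.Pr (fun w => I.act w T.n s) ≤ T.K * T.P.Pr (fun w => I.onab w T.n s) := by
  classical
  have hK0 : 0 ≤ T.K := zero_le_one.trans T.K1
  rw [Pr_split T.P T.a (fun w => I.act w T.n s), Pr_split T.P T.a (fun w => I.onab w T.n s), Finset.mul_sum]
  refine Finset.sum_le_sum fun a0 _ => ?_
  by_cases ha : T.ca (I.R.tb s) a0 = I.R.al s
  · have h1 := T.cab (I.R.tb s) (I.R.gb s) a0 (I.R.be s)
    refine le_trans (T.P.Pr_mono ?_) (h1.trans (mul_le_mul_of_nonneg_left (T.P.Pr_mono ?_) hK0))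
    · rintro w _ ⟨h2, ⟨-, h3⟩, h4, w', h5, h6, h7, h8⟩
      exact ⟨h2, h3, w', by rw [h5, ha], h6, h7, h8⟩
    · rintro w _ ⟨h2, h3, h4⟩
      refine ⟨h2, (I.onab_iff w s).2 ⟨h3, ?_, h4⟩⟩
      rw [h2]
      exact ha
  · have h1 : T.P.Pr (fun w => T.a w = a0 ∧ I.act w T.n s) ≤ 0 := by
      have h2 : T.P.Pr (fun w => T.a w = a0 ∧ I.act w T.n s) ≤ T.P.Pr (fun _ => False) :=
        T.P.Pr_mono fun w _ h => ha (by rw [← h.1]; exact h.2.2.1)
      have h3 : T.P.Pr (fun _ : Om => False) = 0 := by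
        unfold FP.Pr
        have : (fun _ : Om => ind False) = fun _ => (0 : ℝ) := by
          funext _
          exact ind_not (fun h => h)
        rw [this, T.P.E_const]
      linarith
    exact h1.trans (mul_nonneg hK0 (T.P.Pr_nonneg _))

/-- an introduced reference for `(b, c)` -/
theorem pr_intr (s : S) : T.P.Pr (fun w => I.intr s T.n (T.gm T.n w) (T.b w) (T.c w)) ≤
    T.K * T.P.Pr (fun w => I.onab w T.n s) := by
  classical
  have hK0 : 0 ≤ T.K := zero_le_one.trans T.K1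
  rw [Pr_split T.P T.b (fun w => I.intr s T.n (T.gm T.n w) (T.b w) (T.c w)),
    Pr_split T.P T.b (fun w => I.onab w T.n s), Finset.mul_sum]
  refine Finset.sum_le_sum fun b0 _ => ?_
  by_cases hb : T.cb (I.R.tb s) b0 = I.R.be s
  · have h1 := T.cba (I.R.tb s) (I.R.gb s) b0 (I.R.al s)
    refine le_trans (T.P.Pr_mono ?_) (h1.trans (mul_le_mul_of_nonneg_left (T.P.Pr_mono ?_) hK0))
    · rintro w _ ⟨h2, h3⟩
      obtain ⟨-, h4, -, w', h5, h6, h7, h8⟩ := (I.intr_iff s w).1 h3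
      exact ⟨h2, h4, w', h5, by rw [h6, hb], h7, h8⟩
    · rintro w _ ⟨h2, h3, h4⟩
      refine ⟨h2, (I.onab_iff w s).2 ⟨h3, h4, ?_⟩⟩
      rw [h2]
      exact hb
  · have h1 : T.P.Pr (fun w => T.b w = b0 ∧ I.intr s T.n (T.gm T.n w) (T.b w) (T.c w)) ≤ 0 := by
      have h2 : T.P.Pr (fun w => T.b w = b0 ∧ I.intr s T.n (T.gm T.n w) (T.b w) (T.c w)) ≤
          T.P.Pr (fun _ => False) :=
        T.P.Pr_mono fun w _ h => hb (by
          rw [← h.1]
          exact ((I.intr_iff s w).1 h.2).2.2.1)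
      have h3 : T.P.Pr (fun _ : Om => False) = 0 := by
        unfold FP.Pr
        have : (fun _ : Om => ind False) = fun _ => (0 : ℝ) := by
          funext _
          exact ind_not (fun h => h)
        rw [this, T.P.E_const]
      linarith
    exact h1.trans (mul_nonneg hK0 (T.P.Pr_nonneg _))

theorem sum_onab : ∑ s, T.P.Pr (fun w => I.onab w T.n s) ≤ I.Ms := by
  refine le_trans (le_of_eq ?_) I.hMs
  rw [T.P.E_sum]
  refine Finset.sum_congr rfl fun s _ => ?_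
  unfold FP.Pr
  refine T.P.E_congr fun w _ => ?_
  exact congrArg ind (propext (I.onab_iff w s))

/-! ### monotonicity in time -/

private theorem act_mono_cnt {w : Om} {t t' : ℕ} (h : t ≤ t') {s : S} (ha : I.act w t s) : I.act w t' s :=
  ⟨⟨ha.1.1.trans h, ha.1.2⟩, ha.2.1, ha.2.2⟩

theorem onab_mono {w : Om} {t t' : ℕ} (h : t ≤ t') {s : S} (ha : I.onab w t s) : I.onab w t' s :=
  ⟨⟨ha.1.1.trans h, ha.1.2⟩, ha.2.1, ha.2.2⟩

theorem intr_mono {w : Om} {t t' : ℕ} (h : t ≤ t') {s : S}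
    (hi : I.intr s t (T.gm t w) (T.b w) (T.c w)) : I.intr s t' (T.gm t' w) (T.b w) (T.c w) := by
  rw [I.intr_iff] at hi ⊢
  exact ⟨hi.1.trans h, hi.2⟩

theorem hl_succ_ne {al : ℕ → Om → Set (S × (V → ℝ))} {s' : S} {t : ℕ} {w : Om}
    (h : T.hl al s' t (T.gm t w) (T.b w) (T.c w) ≠ []) :
    T.hl al s' (t + 1) (T.gm (t + 1) w) (T.b w) (T.c w) ≠ [] := by
  unfold Tri.hl
  rw [T.par_gm]
  intro h'
  rw [List.append_eq_nil_iff] at h'
  exact h h'.1

theorem hl_mono {al : ℕ → Om → Set (S × (V → ℝ))} {s' : S} {t t' : ℕ} (htt : t ≤ t') {w : Om}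
    (h : T.hl al s' t (T.gm t w) (T.b w) (T.c w) ≠ []) :
    T.hl al s' t' (T.gm t' w) (T.b w) (T.c w) ≠ [] := by
  induction t', htt using Nat.le_induction with
  | base => exact h
  | succ k _ ih => exact hl_succ_ne ih

theorem capc_anti {al : ℕ → Om → Set (S × (V → ℝ))} {Mc : ℝ} {t t' : ℕ} (htt : t ≤ t') {w : Om}
    (h : I.capc al Mc t' (T.gm t' w) (T.b w) (T.c w)) : I.capc al Mc t (T.gm t w) (T.b w) (T.c w) := by
  refine ⟨le_trans (Finset.sum_le_sum fun s _ => ind_mono fun hi => I.intr_mono htt hi) h.1,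
    le_trans (Finset.sum_le_sum fun s _ => ind_mono fun hi => hl_mono htt hi) h.2⟩

/-! ### letters -/

/-- if there is a letter for `s'` at `(b, c)` then `s'` is active for some `(a, c)` in the cells -/
theorem hl_act {al : ℕ → Om → Set (S × (V → ℝ))} (hal : ∀ t w s' h, (s', h) ∈ al t w → I.act w t s') {s' : S}
    {t : ℕ} {w : Om} (h : T.hl al s' t (T.gm t w) (T.b w) (T.c w) ≠ []) :
    I.R.tb s' ≤ t ∧ T.gm (I.R.tb s') w = I.R.gb s' ∧
      T.Rz (I.R.tb s') (I.R.al s') (I.R.be s') (T.cc (I.R.tb s') (T.c w)) (I.R.gb s') ∧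
      ∃ w', T.ca (I.R.tb s') (T.a w') = I.R.al s' ∧ T.cb (I.R.tb s') (T.b w') = T.cb (I.R.tb s') (T.b w) ∧
        T.cc (I.R.tb s') (T.c w') = T.cc (I.R.tb s') (T.c w) ∧ T.gm (I.R.tb s') w' = I.R.gb s' := by
  classical
  induction t with
  | zero =>
    exact absurd rfl h
  | succ t ih =>
    by_cases h0 : T.hl al s' t (T.gm t w) (T.b w) (T.c w) = []
    · -- a new letter
      have h1 : ∃ h' : V → ℝ, h' ∈ T.nw al s' (t + 1) (T.gm (t + 1) w) (T.b w) (T.c w) := by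
        by_contra hno
        push Not at hno
        refine h ?_
        have hemp : T.nw al s' (t + 1) (T.gm (t + 1) w) (T.b w) (T.c w) = ∅ :=
          Set.eq_empty_iff_forall_notMem.2 hno
        unfold Tri.hl
        rw [T.par_gm, h0, List.nil_append]
        have hf : (T.nw al s' (t + 1) (T.gm (t + 1) w) (T.b w) (T.c w)).Finite := by
          rw [hemp]
          exact Set.finite_empty
        rw [dif_pos hf]
        have h2 : hf.toFinset = ∅ := by
          ext x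
          simp [hemp]
        rw [h2]
        simp
      obtain ⟨h', w', e1, e2, e3, e4⟩ := h1
      have ha := hal (t + 1) w' s' h' e4
      obtain ⟨⟨a1, a2⟩, a3, a4⟩ := ha
      have hg : T.gm (I.R.tb s') w' = T.gm (I.R.tb s') w := T.gm_anc a1 e3
      have hb : T.cb (I.R.tb s') (T.b w') = T.cb (I.R.tb s') (T.b w) := nest_le T.nb a1 e1
      refine ⟨a1, by rw [← hg]; exact a2, by rw [← e2]; exact a4, w', a3, hb, by rw [e2], a2⟩
    · obtain ⟨h1, h2⟩ := ih h0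
      exact ⟨by omega, h2⟩

theorem pr_hl {al : ℕ → Om → Set (S × (V → ℝ))} (hal : ∀ t w s' h, (s', h) ∈ al t w → I.act w t s') (s' : S) :
    T.P.Pr (fun w => T.hl al s' T.n (T.gm T.n w) (T.b w) (T.c w) ≠ []) ≤
      T.K ^ 2 * T.P.Pr (fun w => I.onab w T.n s') := by
  classical
  have hK0 : 0 ≤ T.K := zero_le_one.trans T.K1
  have h1 : T.P.Pr (fun w => T.hl al s' T.n (T.gm T.n w) (T.b w) (T.c w) ≠ []) ≤
      T.K * T.P.Pr (fun w => I.act w T.n s') := by
    rw [Pr_split T.P T.c (fun w => T.hl al s' T.n (T.gm T.n w) (T.b w) (T.c w) ≠ []),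
      Pr_split T.P T.c (fun w => I.act w T.n s'), Finset.mul_sum]
    refine Finset.sum_le_sum fun c0 _ => ?_
    by_cases hc : T.Rz (I.R.tb s') (I.R.al s') (I.R.be s') (T.cc (I.R.tb s') c0) (I.R.gb s')
    · have h2 := T.cca (I.R.tb s') (I.R.gb s') c0 (I.R.al s')
      refine le_trans (T.P.Pr_mono ?_) (h2.trans (mul_le_mul_of_nonneg_left (T.P.Pr_mono ?_) hK0))
      · rintro w _ ⟨h3, h4⟩
        obtain ⟨-, e1, -, w', e2, e3, e4, e5⟩ := I.hl_act hal h4
        exact ⟨h3, e1, w', e2, e3, by rw [e4, h3], e5⟩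
      · rintro w _ ⟨h3, h4, h5⟩
        refine ⟨h3, ⟨I.tbn s', h4⟩, h5, ?_⟩
        rw [h3]
        exact hc
    · have h2 : T.P.Pr (fun w => T.c w = c0 ∧ T.hl al s' T.n (T.gm T.n w) (T.b w) (T.c w) ≠ []) ≤ 0 := by
        have h3 : T.P.Pr (fun w => T.c w = c0 ∧ T.hl al s' T.n (T.gm T.n w) (T.b w) (T.c w) ≠ []) ≤
            T.P.Pr (fun _ => False) :=
          T.P.Pr_mono fun w _ h => hc (by
            rw [← h.1]
            exact (I.hl_act hal h.2).2.2.1)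
        have h4 : T.P.Pr (fun _ : Om => False) = 0 := by
          unfold FP.Pr
          have : (fun _ : Om => ind False) = fun _ => (0 : ℝ) := by
            funext _
            exact ind_not (fun h => h)
          rw [this, T.P.E_const]
        linarith
      exact h2.trans (mul_nonneg hK0 (T.P.Pr_nonneg _))
  have h2 := mul_le_mul_of_nonneg_left (I.pr_act s') hK0
  calc _ ≤ T.K * T.P.Pr (fun w => I.act w T.n s') := h1
    _ ≤ T.K * (T.K * T.P.Pr (fun w => I.onab w T.n s')) := h2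
    _ = _ := by ring

theorem mean_hl {al : ℕ → Om → Set (S × (V → ℝ))} (hal : ∀ t w s' h, (s', h) ∈ al t w → I.act w t s') :
    T.P.E (fun w => ∑ s', ind (T.hl al s' T.n (T.gm T.n w) (T.b w) (T.c w) ≠ [])) ≤ T.K ^ 2 * I.Ms := by
  rw [T.P.E_sum]
  have h1 : ∀ s' ∈ (univ : Finset S), T.P.E (fun w => ind (T.hl al s' T.n (T.gm T.n w) (T.b w) (T.c w) ≠ [])) ≤
      T.K ^ 2 * T.P.Pr (fun w => I.onab w T.n s') := fun s' _ => I.pr_hl hal s'
  refine (Finset.sum_le_sum h1).trans ?_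
  rw [← Finset.mul_sum]
  exact mul_le_mul_of_nonneg_left I.sum_onab (sq_nonneg _)

theorem mean_intr : T.P.E (fun w => ∑ s, ind (I.intr s T.n (T.gm T.n w) (T.b w) (T.c w))) ≤ T.K * I.Ms := by
  have hK0 : 0 ≤ T.K := zero_le_one.trans T.K1
  rw [T.P.E_sum]
  have h1 : ∀ s ∈ (univ : Finset S), T.P.E (fun w => ind (I.intr s T.n (T.gm T.n w) (T.b w) (T.c w))) ≤
      T.K * T.P.Pr (fun w => I.onab w T.n s) := fun s _ => I.pr_intr s
  refine (Finset.sum_le_sum h1).trans ?_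
  rw [← Finset.mul_sum]
  exact mul_le_mul_of_nonneg_left I.sum_onab hK0

theorem mean_act : T.P.E (fun w => ∑ s, ind (I.act w T.n s)) ≤ T.K * I.Ms := by
  have hK0 : 0 ≤ T.K := zero_le_one.trans T.K1
  rw [T.P.E_sum]
  have h1 : ∀ s ∈ (univ : Finset S), T.P.E (fun w => ind (I.act w T.n s)) ≤
      T.K * T.P.Pr (fun w => I.onab w T.n s) := fun s _ => I.pr_act s
  refine (Finset.sum_le_sum h1).trans ?_
  rw [← Finset.mul_sum]
  exact mul_le_mul_of_nonneg_left I.sum_onab hK0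

theorem pr_capc {al : ℕ → Om → Set (S × (V → ℝ))} (hal : ∀ t w s' h, (s', h) ∈ al t w → I.act w t s') {Mc : ℝ}
    (hMc : 0 < Mc) :
    T.P.Pr (fun w => ¬ I.capc al Mc T.n (T.gm T.n w) (T.b w) (T.c w)) ≤ 2 * T.K ^ 2 * I.Ms / Mc := by
  have hK0 : 0 ≤ T.K := zero_le_one.trans T.K1
  have hMs0 : 0 ≤ I.Ms := zero_le_one.trans I.Ms1
  have e1 := T.P.markov (f := fun w => ∑ s, ind (I.intr s T.n (T.gm T.n w) (T.b w) (T.c w)))
    (fun w _ => Finset.sum_nonneg fun s _ => ind_nonneg _) Mc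
  have e2 := T.P.markov (f := fun w => ∑ s', ind (T.hl al s' T.n (T.gm T.n w) (T.b w) (T.c w) ≠ []))
    (fun w _ => Finset.sum_nonneg fun s _ => ind_nonneg _) Mc
  have e3 := I.mean_intr
  have e4 := I.mean_hl hal
  have e5 : T.K * I.Ms ≤ T.K ^ 2 * I.Ms := by
    have h1 := mul_le_mul_of_nonneg_right T.K1 (mul_nonneg hK0 hMs0)
    calc T.K * I.Ms = 1 * (T.K * I.Ms) := by ring
      _ ≤ T.K * (T.K * I.Ms) := h1
      _ = _ := by ring
  have h1 : T.P.Pr (fun w => ¬ I.capc al Mc T.n (T.gm T.n w) (T.b w) (T.c w)) ≤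
      T.P.Pr (fun w => Mc ≤ ∑ s, ind (I.intr s T.n (T.gm T.n w) (T.b w) (T.c w))) +
      T.P.Pr (fun w => Mc ≤ ∑ s', ind (T.hl al s' T.n (T.gm T.n w) (T.b w) (T.c w) ≠ [])) := by
    refine le_trans (T.P.Pr_mono ?_) (T.P.Pr_or_le _ _)
    intro w _ h
    by_contra hno
    push Not at hno
    exact h ⟨hno.1.le, hno.2.le⟩
  rw [le_div_iff₀ hMc]
  have h2 := mul_le_mul_of_nonneg_right h1 hMc.le
  rw [add_mul] at h2
  linarith

/-- at all times -/
theorem pr_capc_all {al : ℕ → Om → Set (S × (V → ℝ))} (hal : ∀ t w s' h, (s', h) ∈ al t w → I.act w t s') {Mc : ℝ}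
    (hMc : 0 < Mc) :
    T.P.Pr (fun w => ∃ t ≤ T.n, ¬ I.capc al Mc t (T.gm t w) (T.b w) (T.c w)) ≤ 2 * T.K ^ 2 * I.Ms / Mc :=
  le_trans (T.P.Pr_mono fun _ _ ⟨_, ht, h⟩ h' => h (I.capc_anti ht h')) (I.pr_capc hal hMc)

end Inp

end Pool.Agent.M3.S2
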