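import Pool.Agent.M3.S2.Sys
import Pool.Agent.M3.RunP
import Pool.Agent.M3.TSStep

/-!
# M3/S2/Gen : from names, runs and Lemma M' to the error bound (helper44)

`lft X Z` = the function of the value of `X` which represents a function `Z` of `X`.
`LM` = the conclusion of Lemma M' (`TSLay.lemmaM'`).
`gen_err`: `U` a family on `Y` with names `F`, `Z` a bounded process which is a function of `(X, nx t)` and passes all
public tests (conditionally on `(nx t, cx t X)`), every name tested against `Z`: then `⟨U_Y, Z⟩` is small at all times,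
outside a small probability, as long as `Y` is not lost.
-/

set_option autoImplicit false

namespace Pool.Agent.M3.S2

open Finset Pool.Agent.PWZ Pool.Agent.M3.TS

noncomputable section

/-! ### functions of a map as functions of its value -/

open Classical in
/-- the function of the value of `X` which represents `Z` -/
def lft {Om α β : Type} (dflt : β) (X : Om → α) (Z : Om → β) (x : α) : β :=
  if h : ∃ w, X w = x then Z h.choose else dflt

theorem lft_eq {Om α β : Type} {dflt : β} {X : Om → α} {Z : Om → β} (h : Fac X Z) (w : Om) :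
    lft dflt X Z (X w) = Z w := by
  unfold lft
  have h1 : ∃ v, X v = X w := ⟨w, rfl⟩
  rw [dif_pos h1]
  exact h _ _ h1.choose_spec

theorem lft_all {Om α β : Type} {dflt : β} {X : Om → α} {Z : Om → β} {p : β → Prop} (hd : p dflt)
    (hZ : ∀ w, p (Z w)) (x : α) : p (lft dflt X Z x) := by
  unfold lft
  split_ifs with h
  · exact hZ _
  · exact hd

end

/-! ### Lemma M' as a hypothesis -/

/-- the conclusion of Lemma M' -/
def LM {Om 𝒳 𝒴 V Γx Γy κx κy : Type} [Fintype Om] [Fintype 𝒳] [Fintype 𝒴] [Fintype V]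
    (P : FP Om) (X : Om → 𝒳) (Y : Om → 𝒴) (n : ℕ) (nx : ℕ → Om → Γx) (ny : ℕ → Om → Γy)
    (cx : ℕ → 𝒳 → κx) (cy : ℕ → 𝒴 → κy) (ρx : ℕ → Γx → V → ℝ) (ρy : ℕ → Γy → V → ℝ)
    (J : ℕ → Om → V → ℝ) (near Kc : ℝ) : Prop :=
  ∀ (u : ℕ → Γy → 𝒴 → V → ℝ) (v : ℕ → Γx → 𝒳 → V → ℝ),
    (∀ t g y c, |u t g y c| ≤ 1) → (∀ t g x c, |v t g x c| ≤ 1) →
    (∀ g y c, u 0 g y c = 0) → (∀ g x c, v 0 g x c = 0) →
    ∀ η ε m : ℝ, 0 < η → η ≤ 1 / 4 → 0 < ε → ε ≤ 1 → near ≤ η / 4 →
    HF n ny cy ρy u η ε → HF n nx cx ρx v η ε → moves P Y n ny u ≤ m → moves P X n nx v ≤ m →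
    P.Pr (fun w => ∃ t ≤ n, 400 * η < |TT X Y nx ny J u v t w|) ≤
      10 ^ 8 * ε * m / η ^ 4 * (1 + Real.log (Kc / ε))

/-! ### conditional expectations and counts -/

section count

variable {Om 𝒳 Γ κ : Type} [Fintype Om] [Fintype 𝒳] (P : FP Om) {X : Om → 𝒳} {nd : ℕ → Om → Γ}
  {cl : ℕ → 𝒳 → κ}

/-- a function of `(X, node)`, given the node and the cell: average over the cell -/
theorem ce_cell_unif (hp : ∀ w, P.p w ≠ 0)
    (free : ∀ t g x x', P.Pr (fun w => X w = x ∧ nd t w = g) = P.Pr (fun w => X w = x' ∧ nd t w = g))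
    (t : ℕ) (ψ : Γ → 𝒳 → ℝ) (w : Om) :
    P.ce (fun w => (nd t w, cl t (X w))) (fun w => ψ (nd t w) (X w)) w =
      (∑ x ∈ cel (cl t) (cl t (X w)), ψ (nd t w) x) / ((cel (cl t) (cl t (X w))).card : ℝ) := by
  classical
  set q : ℝ := P.Pr (fun v => X v = X w ∧ nd t v = nd t w) with hq
  have hqx : ∀ x, P.Pr (fun v => X v = x ∧ nd t v = nd t w) = q := fun x => free t (nd t w) x (X w)
  have hq0 : 0 < q := by
    have h1 : 0 < P.m (fun v => (X v, nd t v)) w := P.m_pos _ (hp w)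
    have e : P.m (fun v => (X v, nd t v)) w = q := by
      unfold FP.m
      rw [hq]
      unfold FP.Pr
      refine P.E_congr fun v _ => ?_
      congr 1
      exact propext Prod.mk_inj
    rwa [e] at h1
  -- the numerator
  have h1 : P.E (fun v => ind ((nd t v, cl t (X v)) = (nd t w, cl t (X w))) * ψ (nd t v) (X v)) =
      q * ∑ x ∈ cel (cl t) (cl t (X w)), ψ (nd t w) x := by
    have e : ∀ v, ind ((nd t v, cl t (X v)) = (nd t w, cl t (X w))) * ψ (nd t v) (X v) =
        ∑ x ∈ cel (cl t) (cl t (X w)), ind (X v = x ∧ nd t v = nd t w) * ψ (nd t w) x := by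
      intro v
      by_cases h : nd t v = nd t w ∧ cl t (X v) = cl t (X w)
      · rw [ind_of (Prod.mk_inj.2 h), one_mul, Finset.sum_eq_single (X v)]
        · rw [ind_of ⟨rfl, h.1⟩, one_mul, h.1]
        · intro x _ hx
          rw [ind_not fun h' => hx h'.1.symm, zero_mul]
        · intro h'
          exact absurd (mem_cel.2 h.2) h'
      · rw [ind_not fun h' => h (Prod.mk_inj.1 h'), zero_mul]
        symm
        refine Finset.sum_eq_zero fun x hx => ?_
        rw [ind_not fun h' => h ⟨h'.2, by rw [h'.1]; exact mem_cel.1 hx⟩, zero_mul]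
    rw [P.E_congr fun v _ => e v, P.E_sum, Finset.mul_sum]
    refine Finset.sum_congr rfl fun x _ => ?_
    rw [P.E_mul_const]
    congr 1
    exact hqx x
  have h2 : P.m (fun v => (nd t v, cl t (X v))) w = q * ((cel (cl t) (cl t (X w))).card : ℝ) := by
    unfold FP.m
    have e : ∀ v, ind ((nd t v, cl t (X v)) = (nd t w, cl t (X w))) =
        ∑ x ∈ cel (cl t) (cl t (X w)), ind (X v = x ∧ nd t v = nd t w) := by
      intro v
      by_cases h : nd t v = nd t w ∧ cl t (X v) = cl t (X w)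
      · rw [ind_of (Prod.mk_inj.2 h), Finset.sum_eq_single (X v)]
        · rw [ind_of ⟨rfl, h.1⟩]
        · intro x _ hx
          rw [ind_not fun h' => hx h'.1.symm]
        · intro h'
          exact absurd (mem_cel.2 h.2) h'
      · rw [ind_not fun h' => h (Prod.mk_inj.1 h')]
        symm
        refine Finset.sum_eq_zero fun x hx => ?_
        rw [ind_not fun h' => h ⟨h'.2, by rw [h'.1]; exact mem_cel.1 hx⟩]
    rw [P.E_congr fun v _ => e v, P.E_sum, Finset.sum_congr rfl fun x _ => show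
      P.E (fun v => ind (X v = x ∧ nd t v = nd t w)) = q from hqx x, Finset.sum_const, nsmul_eq_mul, mul_comm]
  unfold FP.ce
  rw [h1, h2, mul_div_mul_left _ _ hq0.ne']

/-- every individual of every cell is realised at every realised node -/
theorem realised (hp : ∀ w, P.p w ≠ 0)
    (free : ∀ t g x x', P.Pr (fun w => X w = x ∧ nd t w = g) = P.Pr (fun w => X w = x' ∧ nd t w = g))
    (t : ℕ) (w : Om) (x : 𝒳) : ∃ w', X w' = x ∧ nd t w' = nd t w := by
  by_contra h
  have h0 : P.Pr (fun v => X v = x ∧ nd t v = nd t w) = 0 := by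
    unfold FP.Pr
    have : (fun v => ind (X v = x ∧ nd t v = nd t w)) = fun _ => (0 : ℝ) := by
      funext v
      exact ind_not fun h' => h ⟨v, h'⟩
    rw [this]
    exact P.E_const 0
  have h1 : 0 < P.m (fun v => (X v, nd t v)) w := P.m_pos _ (hp w)
  have e : P.m (fun v => (X v, nd t v)) w = P.Pr (fun v => X v = X w ∧ nd t v = nd t w) := by
    unfold FP.m FP.Pr
    refine P.E_congr fun v _ => ?_
    congr 1
    exact propext Prod.mk_inj
  rw [e, free t (nd t w) (X w) x, h0] at h1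
  exact lt_irrefl _ h1

end count

/-! ### counting births -/

section cnt

variable {𝒳 : Type}

theorem cnt_zero_iff (L : List (Finset 𝒳)) (x : 𝒳) : cnt L x = 0 ↔ ∀ S ∈ L, x ∉ S := by
  induction L with
  | nil => simp [cnt_nil]
  | cons S L ih =>
    rw [cnt_cons]
    have h1 := cnt_nonneg L x
    have h2 := ind_nonneg (x ∈ S)
    constructor
    · intro h S' hS'
      have h3 : ind (x ∈ S) = 0 := by linarith
      have h4 : cnt L x = 0 := by linarith
      rcases List.mem_cons.1 hS' with h5 | h5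
      · subst h5
        intro hx
        rw [ind_of hx] at h3
        norm_num at h3
      · exact ih.1 h4 S' h5
    · intro h
      rw [ind_not (h S List.mem_cons_self), ih.2 fun S' hS' => h S' (List.mem_cons_of_mem _ hS'), add_zero]

theorem one_le_cnt {L : List (Finset 𝒳)} {x : 𝒳} (h : ¬ ∀ S ∈ L, x ∉ S) : 1 ≤ cnt L x := by
  induction L with
  | nil => exact absurd (fun S hS => absurd hS List.not_mem_nil) h
  | cons S L ih =>
    rw [cnt_cons]
    have h1 := cnt_nonneg L x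
    have h2 := ind_nonneg (x ∈ S)
    by_cases hx : x ∈ S
    · rw [ind_of hx]; linarith
    · have h3 : ¬ ∀ S ∈ L, x ∉ S := fun h4 => h fun S' hS' => by
        rcases List.mem_cons.1 hS' with h5 | h5
        · subst h5; exact hx
        · exact h4 S' h5
      linarith [ih h3]

theorem cumB_succ {Γ κ : Type} (par : ℕ → Γ → Γ) (cl : ℕ → 𝒳 → κ) (Bn : ℕ → Γ → κ → List (Finset 𝒳)) (t : ℕ)
    (g : Γ) (x : 𝒳) : cumB par cl Bn (t + 1) g x = cumB par cl Bn t (par t g) x +
      cnt (Bn (t + 1) g (cl (t + 1) x)) x := by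
  unfold cumB
  rw [Finset.sum_range_succ, anc_self]
  congr 1
  refine Finset.sum_congr rfl fun j hj => ?_
  rw [anc_succ par (by rw [Finset.mem_range] at hj; omega)]

theorem cumB_nng {Γ κ : Type} (par : ℕ → Γ → Γ) (cl : ℕ → 𝒳 → κ) (Bn : ℕ → Γ → κ → List (Finset 𝒳)) (t : ℕ)
    (g : Γ) (x : 𝒳) : 0 ≤ cumB par cl Bn t g x := Finset.sum_nonneg fun _ _ => cnt_nonneg _ _

theorem lost_mono {Γ κ : Type} {par : ℕ → Γ → Γ} {cl : ℕ → 𝒳 → κ} {Bn : ℕ → Γ → κ → List (Finset 𝒳)} {n1 : ℝ}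
    {t : ℕ} {g : Γ} {x : 𝒳} (h : lost par cl Bn n1 t (par t g) x) : lost par cl Bn n1 (t + 1) g x := by
  unfold lost at *
  rw [cumB_succ]
  linarith [cnt_nonneg (Bn (t + 1) g (cl (t + 1) x)) x]

end cnt

/-! ### the error bound -/

section err

variable {Om 𝒳 𝒴 V Γx Γy κx κy : Type} [Fintype Om] [Fintype 𝒳] [Fintype 𝒴] [Fintype V]
  {P : FP Om} {X : Om → 𝒳} {Y : Om → 𝒴} {n : ℕ} {nx : ℕ → Om → Γx} {ny : ℕ → Om → Γy}
  {cx : ℕ → 𝒳 → κx} {cy : ℕ → 𝒴 → κy} {ρx : ℕ → Γx → V → ℝ} {ρy : ℕ → Γy → V → ℝ}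
  {J : ℕ → Om → V → ℝ} {near Kc : ℝ}

theorem iw_smul_l (ρ : V → ℝ) (c : ℝ) (f h : V → ℝ) : iw ρ (fun d => c * f d) h = c * iw ρ f h := by
  unfold iw
  rw [Finset.mul_sum]
  exact Finset.sum_congr rfl fun d _ => by ring

theorem iw_smul_r (ρ : V → ℝ) (c : ℝ) (f h : V → ℝ) : iw ρ f (fun d => c * h d) = c * iw ρ f h := by
  unfold iw
  rw [Finset.mul_sum]
  exact Finset.sum_congr rfl fun d _ => by ring

/-- public tests, conditional form, give the form in every cell -/
theorem HF_of_tests (hp : ∀ w, P.p w ≠ 0)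
    (free : ∀ t g x x', P.Pr (fun w => X w = x ∧ nx t w = g) = P.Pr (fun w => X w = x' ∧ nx t w = g))
    (Z : ℕ → Om → V → ℝ) (hZf : ∀ t, Fac (fun w => (X w, nx t w)) (Z t)) {Xb η1 ε2 r : ℝ} (hXb : 0 < Xb)
    (hr : 2 * η1 / Xb ≤ r)
    (P2 : ∀ t ≤ n, ∀ w, ∀ g : V → ℝ, (∀ d, |g d| ≤ 1) →
      P.ce (fun w => (nx t w, cx t (X w))) (fun w => ind (η1 ≤ |iw (ρx t (nx t w)) g (Z t w)|)) w ≤ ε2) :
    HF n nx cx ρx (fun t g x d => lft (fun _ => 0) (fun w => (X w, nx t w)) (Z t) (x, g) d / Xb) r ε2 := by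
  classical
  intro t ht w k w' hw'
  by_cases hk : (cel (cx t) k).Nonempty
  · obtain ⟨x0, hx0⟩ := hk
    obtain ⟨w0, hw0, hw0'⟩ := realised P hp free t w x0
    have hkx : cx t (X w0) = k := by rw [hw0]; exact mem_cel.1 hx0
    set ψ : Γx → 𝒳 → ℝ := fun g x => ind (η1 ≤ |iw (ρx t g) (fun d => w' d / 2)
      (lft (fun _ => 0) (fun w => (X w, nx t w)) (Z t) (x, g))|) with hψ
    have h1 := P2 t ht w0 (fun d => w' d / 2) (fun d => by
      rw [abs_div, abs_of_pos (by norm_num : (0 : ℝ) < 2)]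
      have := hw' d
      linarith)
    have h2 : P.ce (fun w => (nx t w, cx t (X w))) (fun w => ind (η1 ≤ |iw (ρx t (nx t w)) (fun d => w' d / 2) (Z t w)|)) w0 =
        P.ce (fun w => (nx t w, cx t (X w))) (fun w => ψ (nx t w) (X w)) w0 := by
      congr 1
      funext v
      simp only [hψ]
      rw [lft_eq (hZf t) v]
    rw [h2, ce_cell_unif P hp free t ψ w0, hkx, hw0'] at h1
    have hc : 0 < ((cel (cx t) k).card : ℝ) := by
      exact_mod_cast Finset.card_pos.2 ⟨x0, hx0⟩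
    rw [div_le_iff₀ hc] at h1
    refine le_trans (Finset.sum_le_sum fun x _ => ?_) h1
    simp only [hψ]
    refine ind_mono fun h => ?_
    have e1 : iw (ρx t (nx t w)) (fun d => lft (fun _ => 0) (fun w => (X w, nx t w)) (Z t) (x, nx t w) d / Xb) w' =
        2 / Xb * iw (ρx t (nx t w)) (fun d => w' d / 2) (lft (fun _ => 0) (fun w => (X w, nx t w)) (Z t) (x, nx t w)) := by
      unfold iw
      rw [Finset.mul_sum]
      refine Finset.sum_congr rfl fun d _ => ?_
      field_simp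
    rw [e1, abs_mul, abs_of_pos (by positivity : 0 < 2 / Xb)] at h
    have h3 : 2 * η1 / Xb < 2 / Xb * |iw (ρx t (nx t w)) (fun d => w' d / 2)
        (lft (fun _ => 0) (fun w => (X w, nx t w)) (Z t) (x, nx t w))| := lt_of_le_of_lt hr h
    rw [show 2 * η1 / Xb = 2 / Xb * η1 by ring] at h3
    exact (lt_of_mul_lt_mul_left h3 (by positivity)).le
  · rw [Finset.not_nonempty_iff_eq_empty] at hk
    rw [hk]
    simp

/-- **THE ERROR BOUND**: names, runs, Lemma M' -/
theorem gen_err (hp : ∀ w, P.p w ≠ 0)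
    (free : ∀ t g x x', P.Pr (fun w => X w = x ∧ nx t w = g) = P.Pr (fun w => X w = x' ∧ nx t w = g))
    {Xb : ℝ} (hX1 : 1 ≤ Xb)
    {U F : ℕ → Γy → 𝒴 → V → ℝ} {Bn : ℕ → Γy → κy → List (Finset 𝒴)} {pary : ℕ → Γy → Γy} {η' ε' n1 δ : ℝ}
    (hN : NOut P Y n ny cy ρy pary U F Bn η' ε' n1 δ) (hpar : ∀ t w, pary t (ny (t + 1) w) = ny t w)
    (hU1 : ∀ t g y d, |U t g y d| ≤ 1) (hU0 : ∀ g y d, U 0 g y d = 0)
    (hLM : LM P X Y n nx ny cx cy ρx ρy J near Kc)
    (Jnear : ∀ t w, ∀ f h : V → ℝ, (∀ d, |f d| ≤ 1) → (∀ d, |h d| ≤ 1) →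
      |iw (J t w) f h - iw (ρy t (ny t w)) f h| ≤ near)
    (Z : ℕ → Om → V → ℝ) (hZf : ∀ t, Fac (fun w => (X w, nx t w)) (Z t)) (hZb : ∀ t w d, |Z t w d| ≤ Xb)
    (hZ0 : ∀ w d, Z 0 w d = 0) {η1 ε2 : ℝ} (hη1 : 0 < η1)
    (P2 : ∀ t ≤ n, ∀ w, ∀ g : V → ℝ, (∀ d, |g d| ≤ 1) →
      P.ce (fun w => (nx t w, cx t (X w))) (fun w => ind (η1 ≤ |iw (ρx t (nx t w)) g (Z t w)|)) w ≤ ε2)
    (P1 : ∀ t ≤ n, ∀ w, ¬ lost pary cy Bn n1 t (ny t w) (Y w) →
      |iw (ρy t (ny t w)) (F t (ny t w) (Y w)) (Z t w)| ≤ η1)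
    {ε m : ℝ} (hηM : 2 * η1 / Xb ≤ 1 / 4) (hη'0 : 0 < η') (hη' : η' ≤ 4 * η1 / Xb)
    (hε : 0 < ε) (hε1 : ε ≤ 1) (h2ε' : 2 * ε' ≤ ε) (hε2 : ε2 ≤ ε) (hnear : near ≤ 2 * η1 / Xb / 4)
    (hmU : moves P Y n ny U * (1 + 32 / η' ^ 2) ≤ m)
    (hmZ : ∑ t ∈ range n, P.Pr (fun w => Z (t + 1) w ≠ Z t w) ≤ m) :
    P.Pr (fun w => ∃ t ≤ n, ¬ lost pary cy Bn n1 t (ny t w) (Y w) ∧
      1601 * η1 + Xb * near < |iw (J t w) (U t (ny t w) (Y w)) (Z t w)|) ≤
      10 ^ 8 * ε * m / (2 * η1 / Xb) ^ 4 * (1 + Real.log (Kc / ε)) := by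
  classical
  have hXp : 0 < Xb := by linarith
  set ηM : ℝ := 2 * η1 / Xb with hηMd
  have hηM0 : 0 < ηM := by positivity
  have hη1X : η1 = ηM * Xb / 2 := by rw [hηMd]; field_simp
  set u : ℕ → Γy → 𝒴 → V → ℝ := fun t g y d =>
    ind (¬ lost pary cy Bn n1 t g y) * ((U t g y d - F t g y d) / 2) with hu
  set v : ℕ → Γx → 𝒳 → V → ℝ := fun t g x d =>
    lft (fun _ => 0) (fun w => (X w, nx t w)) (Z t) (x, g) d / Xb with hv
  have hu1 : ∀ t g y d, |u t g y d| ≤ 1 := by
    intro t g y d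
    simp only [hu]
    rw [abs_mul, abs_of_nonneg (ind_nonneg _), abs_div, abs_of_pos (by norm_num : (0 : ℝ) < 2)]
    have h1 : |U t g y d - F t g y d| ≤ 2 := by
      have h2 := hU1 t g y d
      have h3 := hN.F1 t g y d
      rw [abs_le] at h2 h3 ⊢
      constructor <;> linarith [h2.1, h2.2, h3.1, h3.2]
    have h4 := ind_le_one (¬ lost pary cy Bn n1 t g y)
    have h5 := ind_nonneg (¬ lost pary cy Bn n1 t g y)
    have h6 : |U t g y d - F t g y d| / 2 ≤ 1 := by linarith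
    exact mul_le_one₀ h4 (by positivity) h6
  have hv1 : ∀ t g x d, |v t g x d| ≤ 1 := by
    intro t g x d
    simp only [hv]
    rw [abs_div, abs_of_pos hXp, div_le_one hXp]
    exact lft_all (p := fun f : V → ℝ => |f d| ≤ Xb) (by simp; linarith) (fun w => hZb t w d) (x, g)
  have hu0 : ∀ g y d, u 0 g y d = 0 := by
    intro g y d
    simp only [hu, hU0, hN.F0]
    ring
  have hv0 : ∀ g x d, v 0 g x d = 0 := by
    intro g x d
    simp only [hv]
    have : lft (fun _ => 0) (fun w => (X w, nx 0 w)) (Z 0) (x, g) d = 0 :=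
      lft_all (p := fun f : V → ℝ => f d = 0) rfl (fun w => hZ0 w d) (x, g)
    rw [this, zero_div]
  have hHFu : HF n ny cy ρy u ηM ε := by
    intro t ht w k w' hw'
    have h1 := hN.hf t ht w k w' hw'
    have h2 : 2 * ε' * ((cel (cy t) k).card : ℝ) ≤ ε * ((cel (cy t) k).card : ℝ) :=
      mul_le_mul_of_nonneg_right h2ε' (Nat.cast_nonneg _)
    refine le_trans (Finset.sum_le_sum fun y _ => ?_) (h1.trans h2)
    refine ind_mono fun h => ?_
    have e : iw (ρy t (ny t w)) (u t (ny t w) y) w' =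
        ind (¬ lost pary cy Bn n1 t (ny t w) y) / 2 *
          iw (ρy t (ny t w)) (fun d => U t (ny t w) y d - F t (ny t w) y d) w' := by
      unfold iw
      rw [Finset.mul_sum]
      refine Finset.sum_congr rfl fun d _ => ?_
      simp only [hu]
      ring
    rw [e, abs_mul] at h
    have h3 : |ind (¬ lost pary cy Bn n1 t (ny t w) y) / 2| ≤ 1 / 2 := by
      rw [abs_of_nonneg (by have := ind_nonneg (¬ lost pary cy Bn n1 t (ny t w) y); positivity)]
      have := ind_le_one (¬ lost pary cy Bn n1 t (ny t w) y)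
      linarith
    have h4 := abs_nonneg (iw (ρy t (ny t w)) (fun d => U t (ny t w) y d - F t (ny t w) y d) w')
    have h5 := mul_le_mul_of_nonneg_right h3 h4
    have h6 : η' ≤ 2 * ηM := by
      rw [hηMd]
      calc η' ≤ 4 * η1 / Xb := hη'
        _ = 2 * (2 * η1 / Xb) := by ring
    linarith
  have hHFv : HF n nx cx ρx v ηM ε := by
    have h1 := HF_of_tests (ρx := ρx) (cx := cx) hp free Z hZf hXp (le_refl (2 * η1 / Xb)) P2
    intro t ht w k w' hw'
    exact (h1 t ht w k w' hw').trans (mul_le_mul_of_nonneg_right hε2 (Nat.cast_nonneg _))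
  -- moves
  have hmu : moves P Y n ny u ≤ m := by
    have h1 : moves P Y n ny u ≤ moves P Y n ny U + births P Y n ny cy Bn := by
      unfold moves births
      rw [← Finset.sum_add_distrib]
      refine Finset.sum_le_sum fun t ht => ?_
      rw [Finset.mem_range] at ht
      unfold FP.Pr
      rw [← P.E_add]
      refine P.E_mono fun w _ => ?_
      have h0 := cnt_nonneg (Bn (t + 1) (ny (t + 1) w) (cy (t + 1) (Y w))) (Y w)
      by_cases hUm : U (t + 1) (ny (t + 1) w) (Y w) ≠ U t (ny t w) (Y w)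
      · rw [ind_of hUm]
        have := ind_le_one (u (t + 1) (ny (t + 1) w) (Y w) ≠ u t (ny t w) (Y w))
        linarith
      · rw [ind_not hUm, zero_add]
        rw [not_not] at hUm
        by_cases hb : ∀ S ∈ Bn (t + 1) (ny (t + 1) w) (cy (t + 1) (Y w)), Y w ∉ S
        · have h2 := hN.lm.stay t ht w (Y w) hb
          have h3 : cumB pary cy Bn (t + 1) (ny (t + 1) w) (Y w) = cumB pary cy Bn t (ny t w) (Y w) := by
            rw [cumB_succ, hpar, (cnt_zero_iff _ _).2 hb, add_zero]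
          have h4 : u (t + 1) (ny (t + 1) w) (Y w) = u t (ny t w) (Y w) := by
            funext d
            simp only [hu]
            have h5 : lost pary cy Bn n1 (t + 1) (ny (t + 1) w) (Y w) = lost pary cy Bn n1 t (ny t w) (Y w) := by
              unfold lost
              rw [h3]
            rw [h5, hUm, h2]
          rw [ind_not (fun h => h h4)]
          exact h0
        · exact (ind_le_one _).trans (one_le_cnt hb)
    have h2 := hN.mean
    have h3 : moves P Y n ny U + births P Y n ny cy Bn ≤ moves P Y n ny U * (1 + 32 / η' ^ 2) := by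
      have : 32 / η' ^ 2 * moves P Y n ny U = moves P Y n ny U * (32 / η' ^ 2) := mul_comm _ _
      rw [mul_add, mul_one]
      linarith
    linarith
  have hmv : moves P X n nx v ≤ m := by
    refine le_trans ?_ hmZ
    unfold moves
    refine Finset.sum_le_sum fun t _ => P.Pr_mono fun w _ h h' => h ?_
    funext d
    simp only [hv]
    rw [lft_eq (hZf (t + 1)) w, lft_eq (hZf t) w, h']
  have hmain := hLM u v hu1 hv1 hu0 hv0 ηM ε m hηM0 hηM hε hε1 hnear hHFu hHFv hmu hmv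
  refine le_trans (P.Pr_mono fun w _ => ?_) hmain
  rintro ⟨t, ht, hnl, hbig⟩
  refine ⟨t, ht, ?_⟩
  by_contra hcon
  rw [not_lt] at hcon
  -- the decomposition
  have e1 : iw (J t w) (U t (ny t w) (Y w)) (Z t w) =
      2 * Xb * TS.TT X Y nx ny J u v t w + iw (J t w) (F t (ny t w) (Y w)) (Z t w) := by
    unfold TS.TT iw
    rw [Finset.mul_sum, ← Finset.sum_add_distrib]
    refine Finset.sum_congr rfl fun d _ => ?_
    simp only [hu, hv]
    rw [lft_eq (hZf t) w, ind_of hnl]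
    field_simp
    ring
  have e2 : |iw (J t w) (F t (ny t w) (Y w)) (Z t w) - iw (ρy t (ny t w)) (F t (ny t w) (Y w)) (Z t w)| ≤
      Xb * near := by
    have h1 := Jnear t w (F t (ny t w) (Y w)) (fun d => Xb⁻¹ * Z t w d) (hN.F1 t _ _) (fun d => by
      rw [abs_mul, abs_of_pos (by positivity)]
      calc Xb⁻¹ * |Z t w d| ≤ Xb⁻¹ * Xb := mul_le_mul_of_nonneg_left (hZb t w d) (by positivity)
        _ = 1 := by field_simp)
    rw [iw_smul_r, iw_smul_r, ← mul_sub, abs_mul, abs_of_pos (by positivity)] at h1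
    calc _ = Xb * (Xb⁻¹ * |iw (J t w) (F t (ny t w) (Y w)) (Z t w) - iw (ρy t (ny t w)) (F t (ny t w) (Y w)) (Z t w)|) := by
          field_simp
      _ ≤ Xb * near := mul_le_mul_of_nonneg_left h1 hXp.le
  have e3 := P1 t ht w hnl
  have h1 : |iw (J t w) (F t (ny t w) (Y w)) (Z t w)| ≤ η1 + Xb * near := by
    have := abs_sub_abs_le_abs_sub (iw (J t w) (F t (ny t w) (Y w)) (Z t w))
      (iw (ρy t (ny t w)) (F t (ny t w) (Y w)) (Z t w))
    linarith
  have h2 : |2 * Xb * TS.TT X Y nx ny J u v t w| ≤ 1600 * η1 := by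
    rw [abs_mul, abs_of_pos (by positivity)]
    calc 2 * Xb * |TS.TT X Y nx ny J u v t w| ≤ 2 * Xb * (400 * ηM) :=
          mul_le_mul_of_nonneg_left hcon (by positivity)
      _ = 1600 * η1 := by rw [hη1X]; ring
  rw [e1] at hbig
  have h3 := abs_add_le (2 * Xb * TS.TT X Y nx ny J u v t w) (iw (J t w) (F t (ny t w) (Y w)) (Z t w))
  linarith

end err

end Pool.Agent.M3.S2
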