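import Pool.Agent.M3.S2.Par2
import Pool.Agent.M3.S2.Cnt
import Pool.Agent.M3.S2.Gen

/-!
# M3/S2/Fin2 (helper93) : stage 2, all triples `(s, s', i)` together

`ev2` : the pair `(s, s')` is active for `(a, b)` at some time; `sum_ev2` : their number on a path is at most
`nN · #onab`, `mean_ev2` : expected number at most `nN Ms`.  `fin2` : the union bound over all `(s, s', i)`, `i < Nw`,
for any processes `Z s s'` for which the error bound of one triple holds (`Stage2`).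
-/

set_option autoImplicit false
set_option linter.unusedSectionVars false

namespace Pool.Agent.M3.S2

open Finset Pool.Agent.PWZ Pool.Agent.M3.TS

noncomputable section

variable {Om A B C V Γ κ S : Type} [Fintype Om] [Fintype A] [Fintype B] [Fintype C] [Fintype V]
  [Fintype S] [DecidableEq S] {m : ℕ} {T : Tri Om (S → Fin m) A B C V Γ κ}

/-- union bound over a finite type -/
theorem fin2_ex {ι : Type} [Fintype ι] (P : FP Om) (p : ι → Om → Prop) :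
    P.Pr (fun w => ∃ i, p i w) ≤ ∑ i, P.Pr (p i) := by
  classical
  unfold FP.Pr
  rw [← P.E_sum]
  refine P.E_mono fun w _ => ?_
  by_cases h : ∃ i, p i w
  · obtain ⟨i, hi⟩ := h
    have h1 : ind (p i w) ≤ ∑ i, ind (p i w) :=
      Finset.single_le_sum (f := fun i => ind (p i w)) (fun _ _ => ind_nonneg _) (Finset.mem_univ i)
    rw [ind_of hi] at h1
    exact (ind_le_one _).trans h1
  · rw [ind_not h]
    exact Finset.sum_nonneg fun _ _ => ind_nonneg _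

theorem fin2_exr (P : FP Om) (Nw : ℕ) (p : ℕ → Om → Prop) :
    P.Pr (fun w => ∃ i < Nw, p i w) ≤ ∑ i ∈ range Nw, P.Pr (p i) := by
  unfold FP.Pr
  rw [← P.E_sum]
  refine P.E_mono fun w _ => ?_
  by_cases h : ∃ i < Nw, p i w
  · obtain ⟨i, hi, hp⟩ := h
    have h1 : ind (p i w) ≤ ∑ i ∈ range Nw, ind (p i w) :=
      Finset.single_le_sum (f := fun i => ind (p i w)) (fun _ _ => ind_nonneg _) (Finset.mem_range.mpr hi)
    rw [ind_of hp] at h1
    exact (ind_le_one _).trans h1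
  · rw [ind_not h]
    exact Finset.sum_nonneg fun _ _ => ind_nonneg _

/-- union bound over all triples -/
theorem fin2_ex3 (P : FP Om) (Nw : ℕ) (p : S → S → ℕ → Om → Prop) :
    P.Pr (fun w => ∃ s s', ∃ i < Nw, p s s' i w) ≤ ∑ s, ∑ s', ∑ i ∈ range Nw, P.Pr (p s s' i) := by
  refine (fin2_ex P (fun s w => ∃ s', ∃ i < Nw, p s s' i w)).trans (Finset.sum_le_sum fun s _ => ?_)
  refine (fin2_ex P (fun s' w => ∃ i < Nw, p s s' i w)).trans (Finset.sum_le_sum fun s' _ => ?_)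
  exact fin2_exr P Nw (p s s')

theorem fin2_lost_le {𝒳 Γ' κ' : Type} {par : ℕ → Γ' → Γ'} {cl : ℕ → 𝒳 → κ'} {Bn : ℕ → Γ' → κ' → List (Finset 𝒳)} {n1 : ℝ}
    {nd : ℕ → Om → Γ'} (hpar : ∀ t w, par t (nd (t + 1) w) = nd t w) {t u : ℕ} (h : t ≤ u) {w : Om} {x : 𝒳}
    (hl : lost par cl Bn n1 t (nd t w) x) : lost par cl Bn n1 u (nd u w) x := by
  induction u, h using Nat.le_induction with
  | base => exact hl
  | succ k _ ih =>
    refine lost_mono ?_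
    rw [hpar]
    exact ih

namespace Inp

variable (I : Inp T S)

theorem NB_mono_le {R0 : ℝ} {w : Om} {t u : ℕ} (h : t ≤ u) {s : S} (h1 : I.NB R0 w t s) : I.NB R0 w u s := by
  obtain ⟨j, hj, h2⟩ := h1
  exact ⟨j, hj.trans h, h2⟩

/-- the pair `(s, s')` is active for `(a, b)` at some time -/
def ev2 (R0 nN : ℝ) (s s' : S) (w : Om) : Prop := ∃ t ≤ T.n, I.act2 R0 nN w t s s'

/-- number of active pairs on a path -/
theorem sum_ev2 {R0 nN : ℝ} (hn : 0 ≤ nN) (w : Om) :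
    ∑ s, ∑ s', ind (I.ev2 R0 nN s s' w) ≤ nN * ∑ s, ind (I.onab w T.n s) := by
  classical
  have key : ∀ s, ∑ s', ind (I.ev2 R0 nN s s' w) ≤ nN * ind (I.onab w T.n s) := by
    intro s
    by_cases h : ∃ t ≤ T.n, ∑ r, ind (I.NB R0 w t r) ≤ nN
    · obtain ⟨t1, ht1, hc1⟩ := h
      set t0 := Nat.findGreatest (fun t => ∑ r, ind (I.NB R0 w t r) ≤ nN) T.n with ht0
      have h1 : ∑ r, ind (I.NB R0 w t0 r) ≤ nN :=
        Nat.findGreatest_spec (P := fun t => ∑ r, ind (I.NB R0 w t r) ≤ nN) ht1 hc1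
      have h2 : ∀ t ≤ T.n, ∑ r, ind (I.NB R0 w t r) ≤ nN → t ≤ t0 := fun t ht hc =>
        Nat.le_findGreatest (P := fun t => ∑ r, ind (I.NB R0 w t r) ≤ nN) ht hc
      have h3 : ∀ s', ind (I.ev2 R0 nN s s' w) ≤ ind (I.onab w T.n s) * ind (I.NB R0 w t0 s') := by
        intro s'
        by_cases he : I.ev2 R0 nN s s' w
        · obtain ⟨t, ht, h4, h5, h6⟩ := he
          rw [ind_of (I.onab_mono ht h4), ind_of (I.NB_mono_le (h2 t ht h6) h5), mul_one]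
          exact ind_le_one _
        · rw [ind_not he]
          exact mul_nonneg (ind_nonneg _) (ind_nonneg _)
      refine (Finset.sum_le_sum fun s' _ => h3 s').trans ?_
      rw [← Finset.mul_sum, mul_comm]
      exact mul_le_mul_of_nonneg_right h1 (ind_nonneg _)
    · have h3 : ∀ s', ind (I.ev2 R0 nN s s' w) = 0 := by
        intro s'
        refine ind_not ?_
        rintro ⟨t, ht, _, _, h6⟩
        exact h ⟨t, ht, h6⟩
      rw [Finset.sum_congr rfl fun s' _ => h3 s', Finset.sum_const_zero]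
      exact mul_nonneg hn (ind_nonneg _)
  rw [Finset.mul_sum]
  exact Finset.sum_le_sum fun s _ => key s

theorem mean_ev2 {R0 nN : ℝ} (hn : 0 ≤ nN) : ∑ s, ∑ s', T.P.Pr (I.ev2 R0 nN s s') ≤ nN * I.Ms := by
  have h : ∑ s, ∑ s', T.P.Pr (I.ev2 R0 nN s s') = T.P.E (fun w => ∑ s, ∑ s', ind (I.ev2 R0 nN s s' w)) := by
    rw [T.P.E_sum]
    exact Finset.sum_congr rfl fun s _ => (T.P.E_sum _ _).symm
  rw [h]
  refine (T.P.E_mono fun w _ => I.sum_ev2 hn w).trans ?_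
  rw [T.P.E_smul, T.P.E_sum]
  exact mul_le_mul_of_nonneg_left I.sum_onab hn

/-! ### the union bound -/

variable {al : ℕ → Om → Set (S × (V → ℝ))} {Mc : ℝ}
  {F : S → S → ℕ → ℕ → Γ → B × C → V → ℝ} {Bn : S → S → ℕ → ℕ → Γ → κ × κ → List (Finset (B × C))}
  {η' ε' n3 δ : ℝ}

/-- no `(b, c)` is lost in one of the systems -/
theorem lost2 (hN : ∀ s s' i, NOut T.P (fun w => (T.b w, T.c w)) T.n T.gm (fun t (y : B × C) => (T.cb t y.1, T.cc t y.2))
      T.ρ T.par (I.k2 al Mc s s' i) (F s s' i) (Bn s s' i) η' ε' n3 δ) (hδ : 0 ≤ δ) (Nw : ℕ) :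
    T.P.Pr (fun w => ∃ s s', ∃ i < Nw, ∃ t ≤ T.n, lost T.par (fun t (y : B × C) => (T.cb t y.1, T.cc t y.2))
      (Bn s s' i) n3 t (T.gm t w) (T.b w, T.c w)) ≤ δ * (Nw * Mc ^ 2) := by
  refine (fin2_ex3 T.P Nw _).trans ?_
  refine le_trans (Finset.sum_le_sum fun s _ => Finset.sum_le_sum fun s' _ => Finset.sum_le_sum fun i _ => ?_)
    (?_ : ∑ s, ∑ s', ∑ i ∈ range Nw, δ * T.P.Pr (fun w => ∃ t ≤ T.n, I.k2 al Mc s s' i t (T.gm t w) (T.b w, T.c w) ≠ 0)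
      ≤ _)
  · refine le_trans (T.P.Pr_mono ?_) (hN s s' i).tail
    rintro w _ ⟨t, ht, h⟩
    exact fin2_lost_le T.par_gm ht h
  · have h1 := mul_le_mul_of_nonneg_left (I.sum_k2_act al Mc Nw) hδ
    simp only [Finset.mul_sum] at h1 ⊢
    exact h1

/-- **all triples together**: `D` = the factor of the error bound, `C2` = number of moves of `Z` per active pair -/
theorem fin2 {R0 nN : ℝ} (hn : 0 ≤ nN) {D C2 : ℝ} (hD : 0 ≤ D) (hC2 : 0 ≤ C2) (Nw : ℕ) (bad : S → S → ℕ → Om → Prop)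
    (herr : ∀ s s' i, i < Nw → ∀ mm : ℝ,
      moves T.P (fun w => (T.b w, T.c w)) T.n T.gm (I.k2 al Mc s s' i) * (1 + 32 / η' ^ 2) ≤ mm →
      C2 * T.P.Pr (I.ev2 R0 nN s s') ≤ mm → T.P.Pr (bad s s' i) ≤ D * mm) :
    T.P.Pr (fun w => ∃ s s', ∃ i < Nw, bad s s' i w) ≤
      D * (Nw * ((I.p0 + 2) * Mc ^ 2 * (1 + 32 / η' ^ 2) + C2 * (nN * I.Ms))) := by
  have hM0 : ∀ s s' i, 0 ≤ moves T.P (fun w => (T.b w, T.c w)) T.n T.gm (I.k2 al Mc s s' i) * (1 + 32 / η' ^ 2) := by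
    intro s s' i
    refine mul_nonneg (Finset.sum_nonneg fun _ _ => T.P.Pr_nonneg _) (by positivity)
  have hE0 : ∀ s s', 0 ≤ C2 * T.P.Pr (I.ev2 R0 nN s s') := fun s s' => mul_nonneg hC2 (T.P.Pr_nonneg _)
  refine (fin2_ex3 T.P Nw bad).trans ?_
  have h1 : ∑ s, ∑ s', ∑ i ∈ range Nw, T.P.Pr (bad s s' i) ≤ ∑ s, ∑ s', ∑ i ∈ range Nw,
      D * (moves T.P (fun w => (T.b w, T.c w)) T.n T.gm (I.k2 al Mc s s' i) * (1 + 32 / η' ^ 2) +
        C2 * T.P.Pr (I.ev2 R0 nN s s')) := by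
    refine Finset.sum_le_sum fun s _ => Finset.sum_le_sum fun s' _ => Finset.sum_le_sum fun i hi => ?_
    rw [Finset.mem_range] at hi
    refine herr s s' i hi _ ?_ ?_
    · have := hE0 s s'
      linarith
    · have := hM0 s s' i
      linarith
  refine h1.trans ?_
  have h2 : ∑ s, ∑ s', ∑ i ∈ range Nw,
      D * (moves T.P (fun w => (T.b w, T.c w)) T.n T.gm (I.k2 al Mc s s' i) * (1 + 32 / η' ^ 2) +
        C2 * T.P.Pr (I.ev2 R0 nN s s')) =
      D * ((∑ s, ∑ s', ∑ i ∈ range Nw, moves T.P (fun w => (T.b w, T.c w)) T.n T.gm (I.k2 al Mc s s' i)) *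
        (1 + 32 / η' ^ 2) + Nw * (C2 * ∑ s, ∑ s', T.P.Pr (I.ev2 R0 nN s s'))) := by
    simp only [← Finset.mul_sum, ← Finset.sum_mul, Finset.sum_add_distrib, Finset.sum_const, card_range,
      nsmul_eq_mul]
    ring
  rw [h2]
  refine mul_le_mul_of_nonneg_left ?_ hD
  have h3 := mul_le_mul_of_nonneg_right (I.sum_k2_moves al Mc Nw) (by positivity : (0 : ℝ) ≤ 1 + 32 / η' ^ 2)
  have h4 := mul_le_mul_of_nonneg_left (mul_le_mul_of_nonneg_left (I.mean_ev2 (R0 := R0) hn) hC2)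
    (Nat.cast_nonneg (α := ℝ) Nw)
  have e : (Nw : ℝ) * ((I.p0 + 2) * Mc ^ 2 * (1 + 32 / η' ^ 2) + C2 * (nN * I.Ms)) =
      Nw * ((I.p0 + 2) * Mc ^ 2) * (1 + 32 / η' ^ 2) + Nw * (C2 * (nN * I.Ms)) := by ring
  rw [e]
  linarith

/-- outside a small probability: at all times all triples are fine (nobody lost, no `bad`) -/
theorem fin2' {R0 nN : ℝ} (hn : 0 ≤ nN) {D C2 : ℝ} (hD : 0 ≤ D) (hC2 : 0 ≤ C2) (Nw : ℕ) (hδ : 0 ≤ δ)
    (hN : ∀ s s' i, NOut T.P (fun w => (T.b w, T.c w)) T.n T.gm (fun t (y : B × C) => (T.cb t y.1, T.cc t y.2))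
      T.ρ T.par (I.k2 al Mc s s' i) (F s s' i) (Bn s s' i) η' ε' n3 δ)
    (big : S → S → ℕ → ℕ → Om → Prop)
    (herr : ∀ s s' i, i < Nw → ∀ mm : ℝ,
      moves T.P (fun w => (T.b w, T.c w)) T.n T.gm (I.k2 al Mc s s' i) * (1 + 32 / η' ^ 2) ≤ mm →
      C2 * T.P.Pr (I.ev2 R0 nN s s') ≤ mm → T.P.Pr (fun w => ∃ t ≤ T.n, ¬ lost T.par
        (fun t (y : B × C) => (T.cb t y.1, T.cc t y.2)) (Bn s s' i) n3 t (T.gm t w) (T.b w, T.c w) ∧
          big s s' i t w) ≤ D * mm) :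
    T.P.Pr (fun w => ∃ s s', ∃ i < Nw, ∃ t ≤ T.n, big s s' i t w) ≤
      D * (Nw * ((I.p0 + 2) * Mc ^ 2 * (1 + 32 / η' ^ 2) + C2 * (nN * I.Ms))) + δ * (Nw * Mc ^ 2) := by
  have h1 := I.fin2 (al := al) (Mc := Mc) (η' := η') hn hD hC2 Nw _ herr
  have h2 := I.lost2 hN hδ Nw
  refine le_trans (le_trans (T.P.Pr_mono ?_) (T.P.Pr_or_le _ _)) (add_le_add h1 h2)
  rintro w _ ⟨s, s', i, hi, t, ht, h⟩
  by_cases hl : lost T.par (fun t (y : B × C) => (T.cb t y.1, T.cc t y.2)) (Bn s s' i) n3 t (T.gm t w) (T.b w, T.c w)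
  · exact Or.inr ⟨s, s', i, hi, t, ht, hl⟩
  · exact Or.inl ⟨s, s', i, hi, t, ht, hl, h⟩

end Inp

end

end Pool.Agent.M3.S2
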