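import Pool.Agent.M3.S2.Stage2
import Pool.Agent.M3.S2.Fin2

/-!
# M3/S2/Fin2b (helper93) : stage 2, all triples together, applied to the runs of `Stage2`

`fin2_err` : for names `F, Bn` (with tails) of all `k2 (s, s', i)` and public tests `ts s s'`, outside a small
probability `|⟨k2 (s, s', i), Z2 (s, s')⟩_J| ≤ 1601 η2 + (1 + n4 η2) near` for all `s, s'`, `i < Nw` and all times.
`fin2_ex` : existence of the names and of the tests.
-/

set_option autoImplicit false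
set_option linter.unusedSectionVars false

namespace Pool.Agent.M3.S2

open Finset Pool.Agent.PWZ Pool.Agent.M3.TS

noncomputable section

variable {Om A B C V Γ κ S : Type} [Fintype Om] [Fintype A] [Fintype B] [Fintype C] [Fintype V]
  [Fintype S] [DecidableEq S] {m : ℕ} {T : Tri Om (S → Fin m) A B C V Γ κ}

theorem hl_bd (al : ℕ → Om → Set (S × (V → ℝ))) (hal : ∀ t w s' h, (s', h) ∈ al t w → ∀ d, |h d| ≤ 1) (s' : S) (t : ℕ)
    (g : Γ) (b0 : B) (c0 : C) : ∀ h ∈ T.hl al s' t g b0 c0, ∀ d, |h d| ≤ 1 := by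
  classical
  induction t generalizing g with
  | zero =>
    intro h hh
    unfold Tri.hl at hh
    simp at hh
  | succ t ih =>
    intro h hh
    unfold Tri.hl at hh
    rw [List.mem_append] at hh
    rcases hh with hh | hh
    · exact ih _ h hh
    · split_ifs at hh with hf
      · rw [Finset.mem_toList, Finset.mem_sdiff, Set.Finite.mem_toFinset] at hh
        obtain ⟨⟨w, _, _, _, h4⟩, _⟩ := hh
        exact hal _ _ _ _ h4
      · simp at hh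

namespace Inp

variable (I : Inp T S) {al : ℕ → Om → Set (S × (V → ℝ))} {Mc : ℝ}

theorem k2_bd (hal : ∀ t w s' h, (s', h) ∈ al t w → ∀ d, |h d| ≤ 1) (s s' : S) (i t : ℕ) (g : Γ) (y : B × C) (d : V) :
    |I.k2 al Mc s s' i t g y d| ≤ 1 := by
  have h0 : |(T.hl al s' t g y.1 y.2).getD i 0 d| ≤ 1 := by
    rcases Nat.lt_or_ge i (T.hl al s' t g y.1 y.2).length with h | h
    · rw [List.getD_eq_getElem _ _ h]
      exact hl_bd (T := T) al hal s' t g y.1 y.2 _ (List.getElem_mem h) d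
    · rw [List.getD_eq_default _ _ h]
      simp
  unfold k2
  rw [abs_mul, abs_mul, abs_mul, abs_of_nonneg (ind_nonneg _)]
  have h1 := ind_le_one (I.intr s t g y.1 y.2 ∧ I.capc al Mc t g y.1 y.2)
  have h3 := I.G1b t g y.1 y.2 d
  have h4 := I.u1 s y.1 d
  exact mul_le_one₀ (mul_le_one₀ (mul_le_one₀ h1 (abs_nonneg _) h3) (abs_nonneg _) h4) (abs_nonneg _) h0

theorem k2_start (s s' : S) (i : ℕ) (g : Γ) (y : B × C) (d : V) : I.k2 al Mc s s' i 0 g y d = 0 := by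
  unfold k2
  have h : ¬ (I.intr s 0 g y.1 y.2 ∧ I.capc al Mc 0 g y.1 y.2) := fun h => by
    have h1 := h.1.1.1
    have h2 := I.tb1 s
    omega
  rw [ind_not h]
  ring

variable {F : S → S → ℕ → ℕ → Γ → B × C → V → ℝ} {Bn : S → S → ℕ → ℕ → Γ → κ × κ → List (Finset (B × C))}
  {ts : S → S → ℕ → Om → List (Unit × (V → ℝ))}

/-- **stage 2, all triples together** -/
theorem fin2_err {η2 : ℝ} (hη : 0 < η2) {n4 : ℕ} {R0 nN ε3 : ℝ} (hn : 0 ≤ nN) {Nw : ℕ} {n3 : ℝ}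
    (hts : ∀ s s', I.Tests2 F Bn Nw n3 η2 n4 R0 nN ε3 s s' (ts s s'))
    {η' ε' δ : ℝ} (hη' : 0 < η') (hδ : 0 ≤ δ)
    (hal : ∀ t w s' h, (s', h) ∈ al t w → ∀ d, |h d| ≤ 1)
    (hN : ∀ s s' i, NOut T.P (fun w => (T.b w, T.c w)) T.n T.gm (fun t (y : B × C) => (T.cb t y.1, T.cc t y.2)) T.ρ
      T.par (I.k2 al Mc s s' i) (F s s' i) (Bn s s' i) η' ε' n3 δ) {Kc : ℝ} (hKc : 1 ≤ Kc)
    (hLM : LM T.P (fun w => (T.xi w, T.a w)) (fun w => (T.b w, T.c w)) T.n (fun t w => (T.cb t (T.b w), T.gm t w))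
      (fun t w => T.gm t w) (fun t x => T.ca t x.2) (fun t y => (T.cb t y.1, T.cc t y.2))
      (fun t g => T.ρ t g.2) T.ρ T.J T.near Kc)
    {ε : ℝ} (hX : 2 * η2 / (1 + n4 * η2) ≤ 1 / 4) (hηη : η' ≤ 4 * η2 / (1 + n4 * η2))
    (hε : 0 < ε) (hε1 : ε ≤ 1) (h1 : 2 * ε' ≤ ε) (h2 : 2 * ε3 ≤ ε) (hnear : T.near ≤ 2 * η2 / (1 + n4 * η2) / 4) :
    T.P.Pr (fun w => ∃ s s', ∃ i < Nw, ∃ t ≤ T.n, 1601 * η2 + (1 + n4 * η2) * T.near <
        |iw (T.J t w) (I.k2 al Mc s s' i t (T.gm t w) (T.b w, T.c w)) (I.Z2 F Bn Nw n3 η2 n4 R0 nN (ts s s') s s' t w)|) ≤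
      10 ^ 8 * ε / (2 * η2 / (1 + n4 * η2)) ^ 4 * (1 + Real.log (Kc / ε)) *
        (Nw * ((I.p0 + 2) * Mc ^ 2 * (1 + 32 / η' ^ 2) + (2 + 6 / η2 ^ 2) * (nN * I.Ms))) + δ * (Nw * Mc ^ 2) := by
  have hlog : 0 ≤ Real.log (Kc / ε) := Real.log_nonneg (by
    rw [le_div_iff₀ hε]
    linarith)
  have hp : (0 : ℝ) < 1 + n4 * η2 := by positivity
  refine I.fin2' (al := al) (Mc := Mc) (η' := η') (R0 := R0) hn (by positivity) (by positivity) Nw hδ hN _ ?_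
  intro s s' i hi mm hm1 hm2
  refine (I.err2 hη (hts s s') hi hη' (hN s s' i) (fun i t g y d => (hN s s' i).F1 t g y d)
    (I.k2_bd hal s s' i) (I.k2_start s s' i) hLM hX hηη hε hε1 h1 h2 hnear hm1 hm2).trans (le_of_eq ?_)
  ring

/-- existence of names and tests of stage 2 -/
theorem fin2_exist (Mc : ℝ) {η2 : ℝ} (hη : 0 < η2) (n4 : ℕ) (R0 nN : ℝ) {ε3 : ℝ} (hε3 : 0 < ε3) (Nw : ℕ)
    (hal : ∀ t w s' h, (s', h) ∈ al t w → ∀ d, |h d| ≤ 1) {η' ε' : ℝ} (hη' : 0 < η') (hε' : 0 < ε') (j : ℕ)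
    (n3 : ℝ) (hn3 : ((j : ℝ) + 1) * (96 * (I.p0 + 3) / η' ^ 2) ≤ n3) :
    ∃ (F : S → S → ℕ → ℕ → Γ → B × C → V → ℝ) (Bn : S → S → ℕ → ℕ → Γ → κ × κ → List (Finset (B × C)))
      (ts : S → S → ℕ → Om → List (Unit × (V → ℝ))),
      (∀ s s' i, NOut T.P (fun w => (T.b w, T.c w)) T.n T.gm (fun t (y : B × C) => (T.cb t y.1, T.cc t y.2)) T.ρ
        T.par (I.k2 al Mc s s' i) (F s s' i) (Bn s s' i) η' ε' n3 ((1 / 2) ^ j)) ∧
      ∀ s s', I.Tests2 F Bn Nw n3 η2 n4 R0 nN ε3 s s' (ts s s') := by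
  obtain ⟨F, Bn, hN⟩ := I.names2 al Mc hal hη' hε' j n3 hn3
  choose ts hts using fun s s' => I.tests2 F Bn Nw n3 hη n4 R0 nN hε3 s s'
  exact ⟨F, Bn, ts, hN, hts⟩

end Inp

end

end Pool.Agent.M3.S2
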