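import Pool.Agent.M3.S2.Stage2g
import Pool.Agent.M3.S2.Fin2b
import Pool.Agent.M3.S2.Geo

/-!
# M3/S2/Two (helper93) : two roundings

`Fine T1 T2` : the same space, the same vertices, times and exact windows; `T2` has the finer nodes and cells
(`crs t` = coarse node of a fine node).  Everything of stage 1 and the activity of stage 2 belong to the coarse
geometry `T1`, names, public tests and runs of stage 2 to the fine geometry `T2`:
`U2` = the family `k2` read at the fine nodes, `act_fine` : `Tri.Act` for `act2`, `tg2` = target,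
`fine_exist` : names and tests, `fine_lost`, `fine_err` : all triples together.
`Mod.fineTri` : the instance of the model (`h1 ≤ h2`).
-/

set_option autoImplicit false
set_option linter.unusedSectionVars false

namespace Pool.Agent.M3.S2

open Finset Pool.Agent.PWZ Pool.Agent.M3.TS

noncomputable section

/-- `T2` is a finer rounding of the same space as `T1` -/
structure Fine {Om Ξ A B C V Γ κ Γ2 κ2 : Type} [Fintype Om] [Fintype Ξ] [Fintype A] [Fintype B] [Fintype C]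
    [Fintype V] (T1 : Tri Om Ξ A B C V Γ κ) (T2 : Tri Om Ξ A B C V Γ2 κ2) where
  hP : T2.P = T1.P
  hxi : T2.xi = T1.xi
  ha : T2.a = T1.a
  hb : T2.b = T1.b
  hc : T2.c = T1.c
  hn : T2.n = T1.n
  hJ : T2.J = T1.J
  /-- the coarse node of a fine node -/
  crs : ℕ → Γ2 → Γ
  crs_gm : ∀ t w, crs t (T2.gm t w) = T1.gm t w
  ca : ∀ t x y, T2.ca t x = T2.ca t y → T1.ca t x = T1.ca t y
  cb : ∀ t x y, T2.cb t x = T2.cb t y → T1.cb t x = T1.cb t y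
  cc : ∀ t x y, T2.cc t x = T2.cc t y → T1.cc t x = T1.cc t y

theorem Fine.gm_eq {Om Ξ A B C V Γ κ Γ2 κ2 : Type} [Fintype Om] [Fintype Ξ] [Fintype A] [Fintype B] [Fintype C]
    [Fintype V] {T1 : Tri Om Ξ A B C V Γ κ} {T2 : Tri Om Ξ A B C V Γ2 κ2} (fi : Fine T1 T2) {t : ℕ} {v w : Om}
    (h : T2.gm t v = T2.gm t w) : T1.gm t v = T1.gm t w := by
  rw [← fi.crs_gm, ← fi.crs_gm, h]

variable {Om A B C V Γ κ Γ2 κ2 S : Type} [Fintype Om] [Fintype A] [Fintype B] [Fintype C] [Fintype V]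
  [Fintype S] [DecidableEq S] {m : ℕ} {T1 : Tri Om (S → Fin m) A B C V Γ κ} {T2 : Tri Om (S → Fin m) A B C V Γ2 κ2}

namespace Inp

variable (I : Inp T1 S)

/-- the target of the pair `(s, s')` -/
def tg2 (s s' : S) (a : A) (d : V) : ℝ := I.R.v s a d * I.R.v s' a d

theorem tg2_bd (s s' : S) (a : A) (d : V) : |I.tg2 s s' a d| ≤ 1 := by
  unfold tg2
  rw [abs_mul]
  exact mul_le_one₀ (I.v1 s a d) (abs_nonneg _) (I.v1 s' a d)

/-- the activity of the pair `(s, s')`, a property of the coarse geometry, is an activity of the fine geometry -/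
theorem act_fine (fi : Fine T1 T2) (R0 nN : ℝ) (s s' : S) : T2.Act (fun t w => I.act2 R0 nN w t s s') where
  cong := fun t v w hx ha hb hg => by
    refine I.act2_congr ?_ ?_ ?_ (fi.gm_eq hg)
    · rw [← fi.hxi]; exact hx
    · rw [← fi.ha]; exact ha
    · rw [← fi.hb]; exact fi.cb t _ _ hb
  zero := fun w => I.act2_zero
  conv := by
    refine ⟨fun t w => I.onab w t s ∧ I.NB R0 w t s', fun t w => ∑ r, ind (I.NB R0 w t r) ≤ nN, ?_, ?_, ?_⟩
    · intro t w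
      unfold act2
      tauto
    · intro t w h
      exact ⟨I.onab_mono_s2 (Nat.le_succ t) h.1, I.NB_mono (Nat.le_succ t) h.2⟩
    · intro t w h
      exact le_trans (Finset.sum_le_sum fun r _ => ind_mono fun h1 => I.NB_mono (Nat.le_succ t) h1) h

/-- the family `k2 (s, s', i)` at the fine nodes -/
def U2 (crs : ℕ → Γ2 → Γ) (al : ℕ → Om → Set (S × (V → ℝ))) (Mc : ℝ) (s s' : S) (i t : ℕ) (g : Γ2) (y : B × C)
    (d : V) : ℝ := I.k2 al Mc s s' i t (crs t g) y d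

variable (fi : Fine T1 T2) (al : ℕ → Om → Set (S × (V → ℝ))) (Mc : ℝ)

theorem U2_gm (s s' : S) (i t : ℕ) (w : Om) (y : B × C) :
    I.U2 fi.crs al Mc s s' i t (T2.gm t w) y = I.k2 al Mc s s' i t (T1.gm t w) y := by
  funext d
  unfold U2
  rw [fi.crs_gm]

/-- the number of moves is the same in both geometries -/
theorem U2_moves (s s' : S) (i : ℕ) :
    moves T2.P (fun w => (T2.b w, T2.c w)) T2.n T2.gm (I.U2 fi.crs al Mc s s' i) =
      moves T1.P (fun w => (T1.b w, T1.c w)) T1.n T1.gm (I.k2 al Mc s s' i) := by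
  unfold moves
  rw [fi.hP, fi.hn, fi.hb, fi.hc]
  refine Finset.sum_congr rfl fun t _ => T1.P.Pr_congr fun w _ => ?_
  rw [I.U2_gm, I.U2_gm]

theorem U2_mv (s s' : S) (i : ℕ) (w : Om) :
    ∑ t ∈ range T2.n, ind (I.U2 fi.crs al Mc s s' i (t + 1) (T2.gm (t + 1) w) (T2.b w, T2.c w) ≠
      I.U2 fi.crs al Mc s s' i t (T2.gm t w) (T2.b w, T2.c w)) ≤ I.p0 + 2 := by
  rw [fi.hn, fi.hb, fi.hc]
  have h1 := I.k2_mv al Mc s s' i w
  have h2 := ind_le_one (I.e2 al Mc s s' w)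
  have h3 := I.p01
  have h4 : ∑ t ∈ range T1.n, ind (I.U2 fi.crs al Mc s s' i (t + 1) (T2.gm (t + 1) w) (T1.b w, T1.c w) ≠
      I.U2 fi.crs al Mc s s' i t (T2.gm t w) (T1.b w, T1.c w)) =
      ∑ t ∈ range T1.n, ind (I.k2 al Mc s s' i (t + 1) (T1.gm (t + 1) w) (T1.b w, T1.c w) ≠
      I.k2 al Mc s s' i t (T1.gm t w) (T1.b w, T1.c w)) :=
    Finset.sum_congr rfl fun t _ => by rw [I.U2_gm, I.U2_gm]
  rw [h4]
  nlinarith

theorem U2_bd (crs : ℕ → Γ2 → Γ) (hal : ∀ t w s' h, (s', h) ∈ al t w → ∀ d, |h d| ≤ 1) (s s' : S) (i t : ℕ) (g : Γ2)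
    (y : B × C) (d : V) : |I.U2 crs al Mc s s' i t g y d| ≤ 1 := I.k2_bd hal s s' i t (crs t g) y d

theorem U2_start (crs : ℕ → Γ2 → Γ) (s s' : S) (i : ℕ) (g : Γ2) (y : B × C) (d : V) :
    I.U2 crs al Mc s s' i 0 g y d = 0 := I.k2_start s s' i (crs 0 g) y d

/-- **names and public tests of stage 2 in the fine geometry** -/
theorem fine_exist (hal : ∀ t w s' h, (s', h) ∈ al t w → ∀ d, |h d| ≤ 1) {η2 : ℝ} (hη : 0 < η2) (n4 : ℕ) (R0 nN : ℝ)
    {ε3 : ℝ} (hε3 : 0 < ε3) (Nw : ℕ) {η' ε' : ℝ} (hη' : 0 < η') (hε' : 0 < ε') (j : ℕ)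
    (n3 : ℝ) (hn3 : ((j : ℝ) + 1) * (96 * (I.p0 + 3) / η' ^ 2) ≤ n3) :
    ∃ (F : S → S → ℕ → ℕ → Γ2 → B × C → V → ℝ) (Bn : S → S → ℕ → ℕ → Γ2 → κ2 × κ2 → List (Finset (B × C)))
      (ts : S → S → ℕ → Om → List (Unit × (V → ℝ))),
      (∀ s s' i, NOut T2.P (fun w => (T2.b w, T2.c w)) T2.n T2.gm (fun t (y : B × C) => (T2.cb t y.1, T2.cc t y.2))
        T2.ρ T2.par (I.U2 fi.crs al Mc s s' i) (F s s' i) (Bn s s' i) η' ε' n3 ((1 / 2) ^ j)) ∧
      ∀ s s', T2.Testsg (F s s') (Bn s s') Nw n3 (fun t w => I.act2 R0 nN w t s s') (I.tg2 s s') η2 n4 ε3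
        (ts s s') := by
  have h : ∀ s s' i, ∃ (F : ℕ → Γ2 → B × C → V → ℝ) (Bn : ℕ → Γ2 → κ2 × κ2 → List (Finset (B × C))),
      NOut T2.P (fun w => (T2.b w, T2.c w)) T2.n T2.gm (fun t (y : B × C) => (T2.cb t y.1, T2.cc t y.2)) T2.ρ
        T2.par (I.U2 fi.crs al Mc s s' i) F Bn η' ε' n3 ((1 / 2) ^ j) := fun s s' i =>
    names_tail T2.side2 (I.U2 fi.crs al Mc s s' i) (I.U2_bd al Mc fi.crs hal s s' i)
      (I.U2_start al Mc fi.crs s s' i) (I.p0 + 2) (I.U2_mv fi al Mc s s' i) hη' hε' j n3 (by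
        rw [show I.p0 + 2 + 1 = I.p0 + 3 by ring]
        exact hn3)
  choose F Bn hN using h
  choose ts hts using fun s s' => T2.testsg (F s s') (Bn s s') Nw n3 (fun t w => I.act2 R0 nN w t s s') (I.tg2 s s')
    hη n4 hε3
  exact ⟨F, Bn, ts, hN, hts⟩

variable {al Mc} {F : S → S → ℕ → ℕ → Γ2 → B × C → V → ℝ} {Bn : S → S → ℕ → ℕ → Γ2 → κ2 × κ2 → List (Finset (B × C))}
  {ts : S → S → ℕ → Om → List (Unit × (V → ℝ))} {η' ε' n3 δ : ℝ}

/-- no `(b, c)` is lost in one of the fine systems -/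
theorem fine_lost (hN : ∀ s s' i, NOut T2.P (fun w => (T2.b w, T2.c w)) T2.n T2.gm
      (fun t (y : B × C) => (T2.cb t y.1, T2.cc t y.2)) T2.ρ T2.par (I.U2 fi.crs al Mc s s' i) (F s s' i)
      (Bn s s' i) η' ε' n3 δ) (hδ : 0 ≤ δ) (Nw : ℕ) :
    T1.P.Pr (fun w => ∃ s s', ∃ i < Nw, ∃ t ≤ T1.n, lost T2.par (fun t (y : B × C) => (T2.cb t y.1, T2.cc t y.2))
      (Bn s s' i) n3 t (T2.gm t w) (T1.b w, T1.c w)) ≤ δ * (Nw * Mc ^ 2) := by
  refine (fin2_ex3 T1.P Nw _).trans ?_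
  refine le_trans (Finset.sum_le_sum fun s _ => Finset.sum_le_sum fun s' _ => Finset.sum_le_sum fun i _ => ?_)
    (?_ : ∑ s, ∑ s', ∑ i ∈ range Nw, δ * T1.P.Pr (fun w => ∃ t ≤ T1.n,
      I.k2 al Mc s s' i t (T1.gm t w) (T1.b w, T1.c w) ≠ 0) ≤ _)
  · have h1 := (hN s s' i).tail
    rw [fi.hP, fi.hn, fi.hb, fi.hc] at h1
    refine le_trans (T1.P.Pr_mono ?_) (h1.trans (mul_le_mul_of_nonneg_left (le_of_eq ?_) hδ))
    · rintro w _ ⟨t, ht, h⟩
      exact fin2_lost_le T2.par_gm ht h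
    · refine T1.P.Pr_congr fun w _ => exists_congr fun t => and_congr_right fun _ => ?_
      rw [I.U2_gm]
  · have h1 := mul_le_mul_of_nonneg_left (I.sum_k2_act al Mc Nw) hδ
    simp only [Finset.mul_sum] at h1 ⊢
    exact h1

/-- **stage 2, all triples together, fine geometry** -/
theorem fine_err {η2 : ℝ} (hη : 0 < η2) {n4 : ℕ} {R0 nN ε3 : ℝ} (hn : 0 ≤ nN) {Nw : ℕ}
    (hts : ∀ s s', T2.Testsg (F s s') (Bn s s') Nw n3 (fun t w => I.act2 R0 nN w t s s') (I.tg2 s s') η2 n4 ε3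
      (ts s s'))
    (hη' : 0 < η') (hδ : 0 ≤ δ)
    (hal : ∀ t w s' h, (s', h) ∈ al t w → ∀ d, |h d| ≤ 1)
    (hN : ∀ s s' i, NOut T2.P (fun w => (T2.b w, T2.c w)) T2.n T2.gm
      (fun t (y : B × C) => (T2.cb t y.1, T2.cc t y.2)) T2.ρ T2.par (I.U2 fi.crs al Mc s s' i) (F s s' i)
      (Bn s s' i) η' ε' n3 δ) {Kc : ℝ} (hKc : 1 ≤ Kc)
    (hLM : LM T2.P (fun w => (T2.xi w, T2.a w)) (fun w => (T2.b w, T2.c w)) T2.n
      (fun t w => (T2.cb t (T2.b w), T2.gm t w)) (fun t w => T2.gm t w) (fun t x => T2.ca t x.2)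
      (fun t y => (T2.cb t y.1, T2.cc t y.2)) (fun t g => T2.ρ t g.2) T2.ρ T2.J T2.near Kc)
    {ε : ℝ} (hX : 2 * η2 / (1 + n4 * η2) ≤ 1 / 4) (hηη : η' ≤ 4 * η2 / (1 + n4 * η2))
    (hε : 0 < ε) (hε1 : ε ≤ 1) (h1 : 2 * ε' ≤ ε) (h2 : 2 * ε3 ≤ ε)
    (hnear : T2.near ≤ 2 * η2 / (1 + n4 * η2) / 4) :
    T1.P.Pr (fun w => ∃ s s', ∃ i < Nw, ∃ t ≤ T1.n, 1601 * η2 + (1 + n4 * η2) * T2.near <
        |iw (T1.J t w) (I.k2 al Mc s s' i t (T1.gm t w) (T1.b w, T1.c w))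
          (T2.Zg (F s s') (Bn s s') Nw n3 (fun t w => I.act2 R0 nN w t s s') (I.tg2 s s') η2 n4 (ts s s') t w)|) ≤
      10 ^ 8 * ε / (2 * η2 / (1 + n4 * η2)) ^ 4 * (1 + Real.log (Kc / ε)) *
        (Nw * ((I.p0 + 2) * Mc ^ 2 * (1 + 32 / η' ^ 2) + (2 + 6 / η2 ^ 2) * (nN * I.Ms))) + δ * (Nw * Mc ^ 2) := by
  have hlog : 0 ≤ Real.log (Kc / ε) := Real.log_nonneg (by
    rw [le_div_iff₀ hε]
    linarith)
  have hp : (0 : ℝ) < 1 + n4 * η2 := by positivity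
  have hD : 0 ≤ 10 ^ 8 * ε / (2 * η2 / (1 + n4 * η2)) ^ 4 * (1 + Real.log (Kc / ε)) := by positivity
  have hC2 : 0 ≤ 2 + 6 / η2 ^ 2 := by positivity
  have e1 := I.fin2 (al := al) (Mc := Mc) (η' := η') (R0 := R0) hn hD hC2 Nw
    (fun s s' i w => ∃ t ≤ T1.n, ¬ lost T2.par (fun t (y : B × C) => (T2.cb t y.1, T2.cc t y.2)) (Bn s s' i) n3 t
      (T2.gm t w) (T1.b w, T1.c w) ∧ 1601 * η2 + (1 + n4 * η2) * T2.near <
        |iw (T1.J t w) (I.k2 al Mc s s' i t (T1.gm t w) (T1.b w, T1.c w))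
          (T2.Zg (F s s') (Bn s s') Nw n3 (fun t w => I.act2 R0 nN w t s s') (I.tg2 s s') η2 n4 (ts s s') t w)|)
    (fun s s' i hi mm hm1 hm2 => by
      have h := Tri.errg (T := T2) (I.act_fine fi R0 nN s s') (I.tg2_bd s s') hη (hts s s') hi hη' (hN s s' i)
        (fun i t g y d => (hN s s' i).F1 t g y d) (I.U2_bd al Mc fi.crs hal s s' i)
        (I.U2_start al Mc fi.crs s s' i) hLM hX hηη hε hε1 h1 h2 hnear (mm := mm)
        (by rw [I.U2_moves]; exact hm1) (by rw [fi.hP, fi.hn]; exact hm2)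
      have h3 : T1.P.Pr (fun w => ∃ t ≤ T1.n, ¬ lost T2.par (fun t (y : B × C) => (T2.cb t y.1, T2.cc t y.2))
          (Bn s s' i) n3 t (T2.gm t w) (T1.b w, T1.c w) ∧ 1601 * η2 + (1 + n4 * η2) * T2.near <
        |iw (T1.J t w) (I.k2 al Mc s s' i t (T1.gm t w) (T1.b w, T1.c w))
          (T2.Zg (F s s') (Bn s s') Nw n3 (fun t w => I.act2 R0 nN w t s s') (I.tg2 s s') η2 n4 (ts s s') t w)|) =
          T2.P.Pr (fun w => ∃ t ≤ T2.n, ¬ lost T2.par (fun t (y : B × C) => (T2.cb t y.1, T2.cc t y.2))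
          (Bn s s' i) n3 t (T2.gm t w) (T2.b w, T2.c w) ∧ 1601 * η2 + (1 + n4 * η2) * T2.near <
        |iw (T2.J t w) (I.U2 fi.crs al Mc s s' i t (T2.gm t w) (T2.b w, T2.c w))
          (T2.Zg (F s s') (Bn s s') Nw n3 (fun t w => I.act2 R0 nN w t s s') (I.tg2 s s') η2 n4 (ts s s') t w)|) := by
        have e : ∀ t w, I.U2 fi.crs al Mc s s' i t (T2.gm t w) (T2.b w, T2.c w) =
            I.k2 al Mc s s' i t (T1.gm t w) (T1.b w, T1.c w) := fun t w => by rw [I.U2_gm, fi.hb, fi.hc]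
        simp only [e]
        rw [fi.hP, fi.hn, fi.hb, fi.hc, fi.hJ]
      rw [h3]
      refine h.trans (le_of_eq ?_)
      ring)
  have e2 := I.fine_lost fi hN hδ Nw
  refine le_trans (le_trans (T1.P.Pr_mono ?_) (T1.P.Pr_or_le _ _)) (add_le_add e1 e2)
  rintro w _ ⟨s, s', i, hi, t, ht, h⟩
  by_cases hl : lost T2.par (fun t (y : B × C) => (T2.cb t y.1, T2.cc t y.2)) (Bn s s' i) n3 t (T2.gm t w)
      (T1.b w, T1.c w)
  · exact Or.inr ⟨s, s', i, hi, t, ht, hl⟩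
  · exact Or.inl ⟨s, s', i, hi, t, ht, hl, h⟩

end Inp

end

end Pool.Agent.M3.S2

namespace Pool.Agent.M3.Mod

open Finset Pool.Agent.PWZ Pool.Agent.M3.Bin

variable {k N : ℕ}

/-- **the two roundings of the model** -/
noncomputable def fineTri (Θ Ξ Q : Type) [Fintype Θ] [Nonempty Θ] [Fintype Ξ] [Nonempty Ξ] [Fintype Q] [Nonempty Q]
    {i j l : Fin 3} (hij : j ≠ i) (hli : l ≠ i) (hlj : l ≠ j) (hN : N ≤ k) {h1 h2 : ℕ} (h : h1 ≤ h2) :
    S2.Fine (tri Θ Ξ Q hij hli hlj hN h1) (tri Θ Ξ Q hij hli hlj hN h2) where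
  hP := rfl
  hxi := rfl
  ha := rfl
  hb := rfl
  hc := rfl
  hn := rfl
  hJ := rfl
  crs := fun t g => (g.1, (flr (ex N t - h1) g.2.1, g.2.2))
  crs_gm := fun t w => by
    refine Prod.ext rfl (Prod.ext ?_ rfl)
    show flr (ex N t - h1) (flr (ex N t - h2) _) = flr (ex N t - h1) _
    exact flr_flr (by omega) _
  ca := fun t x y hxy => flr_mono_eq (by omega) hxy
  cb := fun t x y hxy => flr_mono_eq (by omega) hxy
  cc := fun t x y hxy => flr_mono_eq (by omega) hxy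

end Pool.Agent.M3.Mod
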