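import Pool.Agent.M3.S2.Vals3
import Pool.Agent.M3.S2.Two

/-!
# M3/S2/Vals4 : number of values of the label of `(a, b)` along the public path, two roundings (helper52)

* `Fine.pubn` : a public node of the fine geometry is a public node of the coarse one; `Fine.clb`, `Fine.clc` : points;
* `okF` : the sizes are not too large; **`valsF0`** : all the values of the label along the public path;
* **`valsF`** : probability that the sizes are too large.
-/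

set_option autoImplicit false
set_option linter.unusedSectionVars false

namespace Pool.Agent.M3.S2

open Finset Pool.Agent.PWZ Pool.Agent.M3.TS
open Inp (nu2 nu2_true)

noncomputable section

section fine

variable {Om Ξ A B C V Γ κ Γ2 κ2 : Type} [Fintype Om] [Fintype Ξ] [Fintype A] [Fintype B] [Fintype C]
    [Fintype V] {υ : ℕ → Type} {T1 : Tri Om Ξ A B C V Γ κ} {T2 : Tri Om Ξ A B C V Γ2 κ2} {Q : ∀ t, Om → υ t}

open Classical in
/-- the coarse options are the images of the fine ones -/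
theorem Fine.opt_eq (fi : Fine T1 T2) (t : ℕ) (w : Om) : T1.OPT Q t w = (T2.OPT Q t w).image (fi.crs t) := by
  ext g
  rw [Tri.mem_OPT, Finset.mem_image]
  constructor
  · rintro ⟨w', h1, h2⟩
    exact ⟨T2.gm t w', Tri.mem_OPT.2 ⟨w', h1, rfl⟩, by rw [fi.crs_gm, h2]⟩
  · rintro ⟨g2, h1, h2⟩
    obtain ⟨w', h3, h4⟩ := Tri.mem_OPT.1 h1
    exact ⟨w', h3, by rw [← fi.crs_gm, h4, h2]⟩

theorem Fine.mem_opt (fi : Fine T1 T2) {t : ℕ} {w : Om} {g : Γ} (h : g ∈ T1.OPT Q t w) :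
    ∃ g2 ∈ T2.OPT Q t w, fi.crs t g2 = g := by
  classical
  rw [fi.opt_eq] at h
  exact Finset.mem_image.1 h

theorem Fine.opt_mem (fi : Fine T1 T2) {t : ℕ} {w w' : Om} (h : T2.gm t w' ∈ T2.OPT Q t w) :
    T1.gm t w' ∈ T1.OPT Q t w := by
  classical
  rw [fi.opt_eq]
  exact Finset.mem_image.2 ⟨_, h, fi.crs_gm t w'⟩

/-- **a public node of the fine geometry is a public node of the coarse one** -/
theorem Fine.pubn (fi : Fine T1 T2) (hP : Pubn T2 Q) : Pubn T1 Q where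
  filt := hP.filt
  qb := fun t v w h => by
    have h1 := hP.qb t v w h
    have h2 : T2.cb t (T1.b v) = T2.cb t (T1.b w) := by rw [← fi.hb]; exact h1
    exact fi.cb t _ _ h2
  qc := fun t v w h => by
    have h1 := hP.qc t v w h
    have h2 : T2.cc t (T1.c v) = T2.cc t (T1.c w) := by rw [← fi.hc]; exact h1
    exact fi.cc t _ _ h2
  comb := fun t w w' h => by
    obtain ⟨v, h1, h2, h3, h4⟩ := hP.comb t w w' h
    exact ⟨v, h1, by rw [← fi.hxi]; exact h2, by rw [← fi.ha]; exact h3, fi.gm_eq h4⟩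
  two := fun t w => by
    classical
    rw [fi.opt_eq]
    exact Finset.card_image_le.trans (hP.two t w)
  obc := fun t g b0 c0 => by
    have h1 := hP.E_opt t (fun b c g2 => ind (b = b0 ∧ c = c0 ∧ fi.crs t g2 = g)) (fun _ _ _ => ind_nonneg _)
    simp only [fi.crs_gm, fi.hP, fi.hb, fi.hc] at h1
    refine le_trans (T1.P.E_mono fun w _ => ?_) h1
    by_cases h : T1.b w = b0 ∧ T1.c w = c0 ∧ g ∈ T1.OPT Q t w
    · obtain ⟨g2, h2, h3⟩ := fi.mem_opt h.2.2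
      rw [ind_of h]
      refine le_trans (le_of_eq ?_) (Finset.single_le_sum (f := fun g2 => ind (T1.b w = b0 ∧ T1.c w = c0 ∧
        fi.crs t g2 = g)) (fun _ _ => ind_nonneg _) h2)
      exact (ind_of ⟨h.1, h.2.1, h3⟩).symm
    · rw [ind_not h]
      exact Finset.sum_nonneg fun _ _ => ind_nonneg _
  oac := fun t g x0 a0 c0 => by
    have h1 := hP.E_opt_ac t (fun x a c g2 => ind (x = x0 ∧ a = a0 ∧ c = c0 ∧ fi.crs t g2 = g))
      (fun _ _ _ _ => ind_nonneg _)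
    simp only [fi.crs_gm, fi.hP, fi.hxi, fi.ha, fi.hc] at h1
    refine le_trans (T1.P.E_mono fun w _ => ?_) h1
    by_cases h : T1.xi w = x0 ∧ T1.a w = a0 ∧ T1.c w = c0 ∧ g ∈ T1.OPT Q t w
    · obtain ⟨g2, h2, h3⟩ := fi.mem_opt h.2.2.2
      rw [ind_of h]
      refine le_trans (le_of_eq ?_) (Finset.single_le_sum (f := fun g2 => ind (T1.xi w = x0 ∧ T1.a w = a0 ∧
        T1.c w = c0 ∧ fi.crs t g2 = g)) (fun _ _ => ind_nonneg _) h2)
      exact (ind_of ⟨h.1, h.2.1, h.2.2.1, h3⟩).symm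
    · rw [ind_not h]
      exact Finset.sum_nonneg fun _ _ => ind_nonneg _
  oab := fun t g x0 a0 b0 => by
    have h1 := hP.E_opt_ab t (fun x a b g2 => ind (x = x0 ∧ a = a0 ∧ b = b0 ∧ fi.crs t g2 = g))
      (fun _ _ _ _ => ind_nonneg _)
    simp only [fi.crs_gm, fi.hP, fi.hxi, fi.ha, fi.hb] at h1
    refine le_trans (T1.P.E_mono fun w _ => ?_) h1
    by_cases h : T1.xi w = x0 ∧ T1.a w = a0 ∧ T1.b w = b0 ∧ g ∈ T1.OPT Q t w
    · obtain ⟨g2, h2, h3⟩ := fi.mem_opt h.2.2.2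
      rw [ind_of h]
      refine le_trans (le_of_eq ?_) (Finset.single_le_sum (f := fun g2 => ind (T1.xi w = x0 ∧ T1.a w = a0 ∧
        T1.b w = b0 ∧ fi.crs t g2 = g)) (fun _ _ => ind_nonneg _) h2)
      exact (ind_of ⟨h.1, h.2.1, h.2.2.1, h3⟩).symm
    · rw [ind_not h]
      exact Finset.sum_nonneg fun _ _ => ind_nonneg _

theorem Fine.clb (fi : Fine T1 T2) {t : ℕ} {w0 w : Om} (h : T2.clb Q t w0 w) : T1.clb Q t w0 w := by
  obtain ⟨h1, h2, w', h3, h4, h5⟩ := h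
  exact ⟨by rw [← fi.hb]; exact h1, fi.opt_mem h2, w', h3, by rw [← fi.hxi]; exact h4, by rw [← fi.ha]; exact h5⟩

theorem Fine.clc (fi : Fine T1 T2) {t : ℕ} {w0 w : Om} (h : T2.clc Q t w0 w) : T1.clc Q t w0 w := by
  obtain ⟨h1, h2, w', h3, h4, h5⟩ := h
  exact ⟨by rw [← fi.hc]; exact h1, fi.opt_mem h2, w', h3, by rw [← fi.hxi]; exact h4, by rw [← fi.ha]; exact h5⟩

end fine

variable {Om A B C V Γ κ Γ2 κ2 S : Type} [Fintype Om] [Fintype A] [Fintype B] [Fintype C] [Fintype V]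
  [Fintype S] [DecidableEq S] {m : ℕ} {T1 : Tri Om (S → Fin m) A B C V Γ κ} {T2 : Tri Om (S → Fin m) A B C V Γ2 κ2}
  {υ : ℕ → Type} {Q : ∀ t, Om → υ t}

namespace Inp

/-- the sizes of the label of `(a, b)` are not too large at `w` -/
def okF (I : Inp T1 S) (T2 : Tri Om (S → Fin m) A B C V Γ2 κ2) (Q : ∀ t, Om → υ t)
    (Bn : S → S → ℕ → ℕ → Γ2 → κ2 × κ2 → List (Finset (B × C))) (ts : S → S → ℕ → Om → List (Unit × (V → ℝ)))
    (Nw M MA MN : ℕ) (w : Om) : Prop :=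
  ∑ s, ind (I.ACTB Q s w) ≤ MA ∧ ∑ s, ind (I.RECO Q s w) ≤ MN ∧ ∀ s s', okH T2 Q (Bn s s') (ts s s') Nw M w

variable {I : Inp T1 S} {al : ℕ → Om → Set (S × (V → ℝ))} {Mc : ℝ}
  {F : S → S → ℕ → ℕ → Γ2 → B × C → V → ℝ} {Bn : S → S → ℕ → ℕ → Γ2 → κ2 × κ2 → List (Finset (B × C))}
  {ts : S → S → ℕ → Om → List (Unit × (V → ℝ))} {Nw n4 : ℕ} {n3 R0 nN η2 ε3 η' ε' δ : ℝ}

open Classical in
/-- **deterministic bound** : all the values of the label of `(a, b)` along the public path -/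
theorem valsF0 (hη : 0 < η2) (fi : Fine T1 T2) (hP : Pubn T2 Q) (hR : 0 ≤ R0)
    (hl : ∀ s s', ∀ i < Nw, LMeas T2.n T2.gm (fun t (y : B × C) => (T2.cb t y.1, T2.cc t y.2)) (Bn s s' i) (F s s' i))
    (htQ : ∀ s s' t, Fac (T2.Qg t) (ts s s' t)) {M MA MN : ℕ} {w0 : Om} (hok : I.okF T2 Q Bn ts Nw M MA MN w0) :
    ∃ f : Finset (S → S → V → ℝ), f.card ≤ I.nF nN MA MN (nH n3 n4 Nw M) ∧ ∀ t ≤ T1.n, ∀ w, T2.clb Q t w0 w →
      I.fl (fun s s' t w d => η2 * (((Hi η2 n4 (T2.locg (F s s') (Bn s s') Nw n3 (fun t w => I.act2 R0 nN w t s s')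
        (I.tg2 s s')) (ts s s') nu2 t w).map Prod.snd).map fun h => h d).sum) t w ∈ f := by
  have hP1 : Pubn T1 Q := fi.pubn hP
  obtain ⟨hok1, hok2, hok3⟩ := hok
  choose fH hfH1 hfH2 using fun s s' => valsH0 (n4 := n4) (tg := I.tg2 s s') (n3 := n3)
    (F := F s s') hη hP (I.act_fine fi R0 nN s s') (hl s s') (htQ s s') (hok3 s s')
  rw [sum_ind_card] at hok1 hok2
  refine fl_card (I := I) (η2 := η2) (R0 := R0) (nN := nN)
    (H2 := fun s s' t w => (Hi η2 n4 (T2.locg (F s s') (Bn s s') Nw n3 (fun t w => I.act2 R0 nN w t s s')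
        (I.tg2 s s')) (ts s s') nu2 t w).map Prod.snd) ?_ (fun t w => T2.clb Q t w0 w)
    (univ.filter (fun s => I.ACTB Q s w0)) (univ.filter (fun s => I.RECO Q s w0)) fH (MA := MA) (MN := MN)
    (NH := nH n3 n4 Nw M) (by exact_mod_cast hok1) (by exact_mod_cast hok2) hfH1 ?_ ?_ ?_
  · intro s s' t w h
    show (Hi η2 n4 _ (ts s s') nu2 t w).map Prod.snd = []
    rw [Tri.Hig_nil hη (ts s s') t w h]
    rfl
  · intro t _ w hw s hs
    exact Finset.mem_filter.2 ⟨Finset.mem_univ _, live_ACTB hP1 (fi.clb hw) hs⟩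
  · intro t ht w hw s hs
    exact Finset.mem_filter.2 ⟨Finset.mem_univ _, NB_RECO hR hP1 ht (fi.clb hw) hs⟩
  · intro t ht w hw s s'
    exact hfH2 s s' t (by rw [fi.hn]; exact ht) w hw

/-- **the births of stage 2 at the options, all triples** -/
theorem sum_E_pO2 (fi : Fine T1 T2) (hP : Pubn T2 Q) (hε' : 0 < ε')
    (hN : ∀ s s' i, NOut T2.P (fun w => (T2.b w, T2.c w)) T2.n T2.gm
      (fun t (y : B × C) => (T2.cb t y.1, T2.cc t y.2)) T2.ρ T2.par (I.U2 fi.crs al Mc s s' i) (F s s' i)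
      (Bn s s' i) η' ε' n3 δ) (Nw : ℕ) :
    ∑ s, ∑ s', ∑ i ∈ range Nw, T2.P.E (fun w => (T2.pO2 Q (Bn s s' i) w : ℝ)) ≤
      2 * T2.K ^ 2 * (32 / η' ^ 2 / ε') * (Nw * ((I.p0 + 2) * Mc ^ 2)) := by
  have hK0 : 0 ≤ T2.K := zero_le_one.trans T2.K1
  have hc : 0 ≤ 2 * T2.K ^ 2 * (32 / η' ^ 2 / ε') := by positivity
  have h1 : ∀ s s' i, T2.P.E (fun w => (T2.pO2 Q (Bn s s' i) w : ℝ)) ≤ 2 * T2.K ^ 2 * (32 / η' ^ 2 / ε') *
      moves T1.P (fun w => (T1.b w, T1.c w)) T1.n T1.gm (I.k2 al Mc s s' i) := by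
    intro s s' i
    have e1 := E_pO2 hP (Bn s s' i)
    have e2 := births'_le T2.side2 (Bn s s' i) hε'
      (fun t g k S hS => ⟨(hN s s' i).sub t g k S hS, (hN s s' i).thick t g k S hS⟩)
    have e3 := (hN s s' i).mean
    rw [I.U2_moves fi al Mc s s' i] at e3
    have e4 := div_le_div_of_nonneg_right e3 hε'.le
    refine e1.trans ((mul_le_mul_of_nonneg_left (mul_le_mul_of_nonneg_left (e2.trans e4) (by positivity))
      (by norm_num)).trans (le_of_eq ?_))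
    ring
  refine (Finset.sum_le_sum fun s _ => Finset.sum_le_sum fun s' _ => Finset.sum_le_sum fun i _ => h1 s s' i).trans ?_
  simp only [← Finset.mul_sum]
  exact mul_le_mul_of_nonneg_left (I.sum_k2_moves al Mc Nw) hc

/-- **the public tests of stage 2 at the options, all pairs** -/
theorem sum_E_pOT2 (hη : 0 < η2) (hn : 0 ≤ nN) (hε3 : 0 < ε3) (fi : Fine T1 T2) (hP : Pubn T2 Q)
    (hF : ∀ s s' i t g y d, |F s s' i t g y d| ≤ 1)
    (hts : ∀ s s', T2.Testsg (F s s') (Bn s s') Nw n3 (fun t w => I.act2 R0 nN w t s s') (I.tg2 s s') η2 n4 ε3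
      (ts s s')) :
    ∑ s, ∑ s', T2.P.E (fun w => (T2.pOAb Q (tgL T2 (ts s s')) w : ℝ)) ≤
      2 * T2.K * (6 / η2 ^ 2 / ε3) * (nN * I.Ms) := by
  have hK0 : 0 ≤ T2.K := zero_le_one.trans T2.K1
  have hc : 0 ≤ 2 * T2.K * (6 / η2 ^ 2 / ε3) := by positivity
  have h1 : ∀ s s', T2.P.E (fun w => (T2.pOAb Q (tgL T2 (ts s s')) w : ℝ)) ≤
      2 * T2.K * (6 / η2 ^ 2 / ε3) * T1.P.Pr (I.ev2 R0 nN s s') := by
    intro s s'
    refine (E_testsg hP (I.act_fine fi R0 nN s s') (I.tg2_bd s s') hη hε3 (hF s s') (hts s s')).trans (le_of_eq ?_)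
    rw [fi.hP, fi.hn]
    rfl
  refine (Finset.sum_le_sum fun s _ => Finset.sum_le_sum fun s' _ => h1 s s').trans ?_
  simp only [← Finset.mul_sum]
  exact mul_le_mul_of_nonneg_left (I.mean_ev2 hn) hc

private theorem markov_nat (P : FP Om) {p : Om → Prop} {X : Om → ℝ} {M : ℕ} {c : ℝ}
    (h1 : ∀ w, 0 ≤ X w) (h2 : ∀ w, p w → (M : ℝ) + 1 ≤ X w) (h3 : P.E X ≤ c) : P.Pr p ≤ c / (M + 1) := by
  have hM : (0 : ℝ) < M + 1 := by positivity
  rw [le_div_iff₀ hM]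
  refine le_trans ?_ h3
  unfold FP.Pr
  rw [mul_comm, ← P.E_smul]
  refine P.E_mono fun w _ => ?_
  by_cases h : p w
  · rw [ind_of h, mul_one]
    exact h2 w h
  · rw [ind_not h, mul_zero]
    exact h1 w

/-- **NUMBER OF VALUES OF THE LABEL OF `(a, b)`** along the public path -/
theorem valsF (hη : 0 < η2) (hn : 0 ≤ nN) (hε' : 0 < ε') (hε3 : 0 < ε3) (fi : Fine T1 T2) (hP : Pubn T2 Q)
    (hN : ∀ s s' i, NOut T2.P (fun w => (T2.b w, T2.c w)) T2.n T2.gm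
      (fun t (y : B × C) => (T2.cb t y.1, T2.cc t y.2)) T2.ρ T2.par (I.U2 fi.crs al Mc s s' i) (F s s' i)
      (Bn s s' i) η' ε' n3 δ)
    (hts : ∀ s s', T2.Testsg (F s s') (Bn s s') Nw n3 (fun t w => I.act2 R0 nN w t s s') (I.tg2 s s') η2 n4 ε3
      (ts s s')) (M MA MN : ℕ) :
    T1.P.Pr (fun w => ¬ I.okF T2 Q Bn ts Nw M MA MN w) ≤
      (2 * T2.K ^ 2 * (32 / η' ^ 2 / ε') * (Nw * ((I.p0 + 2) * Mc ^ 2)) +
        2 * T2.K * (6 / η2 ^ 2 / ε3) * (nN * I.Ms)) / (M + 1) +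
      (2 * T1.K * I.Ms / (MA + 1) + 2 * T1.K ^ 3 * I.Ms / (MN + 1)) := by
  classical
  have hP1 : Pubn T1 Q := fi.pubn hP
  have hA : T1.P.Pr (fun w => (MA : ℝ) < ∑ s, ind (I.ACTB Q s w)) ≤ 2 * T1.K * I.Ms / (MA + 1) := by
    refine markov_nat T1.P (fun w => Finset.sum_nonneg fun _ _ => ind_nonneg _) (fun w h => ?_)
      (sum_ACTB (I := I) hP1)
    rw [sum_ind_card] at h ⊢
    exact_mod_cast h
  have hR : T1.P.Pr (fun w => (MN : ℝ) < ∑ s, ind (I.RECO Q s w)) ≤ 2 * T1.K ^ 3 * I.Ms / (MN + 1) := by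
    refine markov_nat T1.P (fun w => Finset.sum_nonneg fun _ _ => ind_nonneg _) (fun w h => ?_)
      (sum_RECO (I := I) hP1)
    rw [sum_ind_card] at h ⊢
    exact_mod_cast h
  have hB : T1.P.Pr (fun w => ∃ s s', ¬ okH T2 Q (Bn s s') (ts s s') Nw M w) ≤
      (2 * T2.K ^ 2 * (32 / η' ^ 2 / ε') * (Nw * ((I.p0 + 2) * Mc ^ 2)) +
        2 * T2.K * (6 / η2 ^ 2 / ε3) * (nN * I.Ms)) / (M + 1) := by
    refine markov_nat T1.P (X := fun w => ∑ s, ∑ s', ((∑ i ∈ range Nw, (T2.pO2 Q (Bn s s' i) w : ℝ)) +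
      (T2.pOAb Q (tgL T2 (ts s s')) w : ℝ))) (fun w => ?_) (fun w h => ?_) ?_
    · exact Finset.sum_nonneg fun s _ => Finset.sum_nonneg fun s' _ =>
        add_nonneg (Finset.sum_nonneg fun i _ => Nat.cast_nonneg _) (Nat.cast_nonneg _)
    · obtain ⟨s, s', h⟩ := h
      have hnn : ∀ s s', 0 ≤ (∑ i ∈ range Nw, (T2.pO2 Q (Bn s s' i) w : ℝ)) +
          (T2.pOAb Q (tgL T2 (ts s s')) w : ℝ) := fun s s' =>
        add_nonneg (Finset.sum_nonneg fun i _ => Nat.cast_nonneg _) (Nat.cast_nonneg _)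
      have h1 : (M : ℝ) + 1 ≤ (∑ i ∈ range Nw, (T2.pO2 Q (Bn s s' i) w : ℝ)) +
          (T2.pOAb Q (tgL T2 (ts s s')) w : ℝ) := by
        unfold okH at h
        by_cases h2 : T2.pOAb Q (tgL T2 (ts s s')) w ≤ M
        · have h3 : ∃ i < Nw, M < T2.pO2 Q (Bn s s' i) w := by
            by_contra h4
            push Not at h4
            exact h ⟨h4, h2⟩
          obtain ⟨i, hi, h5⟩ := h3
          have h6 : (M : ℝ) + 1 ≤ (T2.pO2 Q (Bn s s' i) w : ℝ) := by exact_mod_cast h5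
          have h7 := Finset.single_le_sum (f := fun i => (T2.pO2 Q (Bn s s' i) w : ℝ))
            (fun _ _ => Nat.cast_nonneg _) (Finset.mem_range.2 hi)
          have h8 : (0 : ℝ) ≤ (T2.pOAb Q (tgL T2 (ts s s')) w : ℝ) := Nat.cast_nonneg _
          exact (h6.trans h7).trans (le_add_of_nonneg_right h8)
        · have h6 : (M : ℝ) + 1 ≤ (T2.pOAb Q (tgL T2 (ts s s')) w : ℝ) := by exact_mod_cast (not_le.1 h2)
          exact h6.trans (le_add_of_nonneg_left (Finset.sum_nonneg fun i _ => Nat.cast_nonneg _))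
      refine h1.trans ?_
      refine le_trans (Finset.single_le_sum (f := fun s' => (∑ i ∈ range Nw, (T2.pO2 Q (Bn s s' i) w : ℝ)) +
          (T2.pOAb Q (tgL T2 (ts s s')) w : ℝ)) (fun s' _ => hnn s s') (Finset.mem_univ s')) ?_
      exact Finset.single_le_sum (f := fun s => ∑ s', ((∑ i ∈ range Nw, (T2.pO2 Q (Bn s s' i) w : ℝ)) +
          (T2.pOAb Q (tgL T2 (ts s s')) w : ℝ))) (fun s _ => Finset.sum_nonneg fun s' _ => hnn s s')
          (Finset.mem_univ s)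
    · have e1 := sum_E_pO2 (I := I) fi hP hε' hN Nw
      have e2 := sum_E_pOT2 (I := I) hη hn hε3 fi hP (fun s s' i t g y d => (hN s s' i).F1 t g y d) hts
      refine le_trans (le_of_eq ?_) (add_le_add e1 e2)
      rw [fi.hP, T1.P.E_sum, ← Finset.sum_add_distrib]
      refine Finset.sum_congr rfl fun s _ => ?_
      rw [T1.P.E_sum, ← Finset.sum_add_distrib]
      refine Finset.sum_congr rfl fun s' _ => ?_
      rw [T1.P.E_add, T1.P.E_sum]
  refine le_trans (T1.P.Pr_mono (t := fun w => (∃ s s', ¬ okH T2 Q (Bn s s') (ts s s') Nw M w) ∨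
    ((MA : ℝ) < ∑ s, ind (I.ACTB Q s w) ∨ (MN : ℝ) < ∑ s, ind (I.RECO Q s w))) fun w _ h => ?_)
    (pr_or T1.P hB (pr_or T1.P hA hR))
  by_contra h1
  push Not at h1
  exact h ⟨h1.2.1, h1.2.2, fun s s' => h1.1 s s'⟩

end Inp

end

end Pool.Agent.M3.S2
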