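import Pool.Agent.M3.S2.Concl3
import Pool.Agent.M3.S2.Vals4
import Pool.Agent.M3.S2.Out
import Pool.Agent.M3.S2.Num2

/-!
# M3/S2/Main : existence of the output of section 2 (helper44)

`mkOut` : the structure `Out` (natural forms) from the names, tests and the error bound of `concl3`, with the value sets
of `valsG`, `valsF`; all sizes are hypotheses.  `conclN` : `concl3` with the constants of `Num`, `Num2`.
-/

set_option autoImplicit false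
set_option linter.unusedSectionVars false

namespace Pool.Agent.M3.S2

open Finset Pool.Agent.PWZ Pool.Agent.M3.TS

noncomputable section

variable {Om A B C V Γ κ Γ2 κ2 S : Type} [Fintype Om] [Fintype A] [Fintype B] [Fintype C] [Fintype V]
  [Fintype S] [DecidableEq S] {m : ℕ} {T1 : Tri Om (S → Fin m) A B C V Γ κ} {T2 : Tri Om (S → Fin m) A B C V Γ2 κ2}
  {υ : ℕ → Type} {Q : ∀ t, Om → υ t}

namespace Inp

/-- the known face at the fine nodes -/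
def E2n (I : Inp T1 S) (fi : Fine T1 T2) (t : ℕ) (g : Γ2) (b : B) (c : C) : V → ℝ := I.G1 t (fi.crs t g) b c

section mk

variable {I : Inp T1 S}
  {F : S → ℕ → C × Γ → B → V → ℝ} {Bn : S → ℕ → C × Γ → κ → List (Finset B)} {ts : ℕ → Om → List (S × (V → ℝ))}
  {F2 : S → S → ℕ → ℕ → Γ2 → B × C → V → ℝ} {Bn2 : S → S → ℕ → ℕ → Γ2 → κ2 × κ2 → List (Finset (B × C))}
  {ts2 : S → S → ℕ → Om → List (Unit × (V → ℝ))} {n1 η1 R0 ε2 η' ε' δ : ℝ} {n2 : ℕ}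
  {Nw n4 : ℕ} {n3 nN η2 ε3 η3 ε4 δ2 Mc : ℝ} {al : ℕ → Om → Set (S × (V → ℝ))}

/-- the history of the run of stage 1 is a function of `(xi, a, c)` and of the fine node -/
theorem g_fac (fi : Fine T1 T2) (hη : 0 < η1) (hF : ∀ s t g b d, |F s t g b d| ≤ 1) (hts : I.Tests1 F Bn n1 η1 n2 R0 ε2 ts) (t : ℕ) :
    Fac (fun w => ((T2.xi w, T2.a w, T2.c w), T2.gm t w))
      (Hi η1 n2 (I.loc1 F Bn n1) ts (fun t w => I.N1 R0 w t) t) := fun v w h => by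
  have hR := I.runHyp1 hη hF hts (fun t => I.N1_fac R0 t)
  refine Hi_fac (η := η1) (n2 := n2) hR.filt hR.xK hR.tsK hR.nuK t v w ?_
  simp only [Prod.mk.injEq] at h
  rw [K1_iff]
  refine ⟨by rw [← fi.hxi]; exact h.1.1, by rw [← fi.ha]; exact h.1.2.1, by rw [← fi.hc]; exact h.1.2.2,
    fi.gm_eq h.2⟩

/-- the label of `(a, b)` is a function of `(xi, a, b)` and of the fine node -/
theorem f_fac (fi : Fine T1 T2) (hts : ∀ s s', T2.Testsg (F2 s s') (Bn2 s s') Nw n3 (fun t w => I.act2 R0 nN w t s s')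
      (I.tg2 s s') η2 n4 ε3 (ts2 s s')) (t : ℕ) :
    Fac (fun w => ((T2.xi w, T2.a w, T2.b w), T2.gm t w))
      (I.fl (I.F3l T2 F2 Bn2 Nw n3 η2 n4 R0 nN ts2) t) := fun v w h => by
  simp only [Prod.mk.injEq] at h
  have hxi : T1.xi v = T1.xi w := by rw [← fi.hxi]; exact h.1.1
  have ha : T1.a v = T1.a w := by rw [← fi.ha]; exact h.1.2.1
  have hb : T1.b v = T1.b w := by rw [← fi.hb]; exact h.1.2.2
  have hg : T1.gm t v = T1.gm t w := fi.gm_eq h.2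
  have hlive : ∀ s, I.live s t v ↔ I.live s t w := by
    intro s
    unfold live on
    rw [ha, hb]
    constructor
    · rintro ⟨⟨h1, h2⟩, h3⟩
      exact ⟨⟨h1, by rw [← T1.anc_gm h1 w, ← hg, T1.anc_gm h1 v]; exact h2⟩, h3⟩
    · rintro ⟨⟨h1, h2⟩, h3⟩
      exact ⟨⟨h1, by rw [← T1.anc_gm h1 v, hg, T1.anc_gm h1 w]; exact h2⟩, h3⟩
  have hF3 : ∀ s s', I.F3l T2 F2 Bn2 Nw n3 η2 n4 R0 nN ts2 s s' t v =
      I.F3l T2 F2 Bn2 Nw n3 η2 n4 R0 nN ts2 s s' t w := by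
    intro s s'
    funext d
    unfold F3l H3
    have h1 := Tri.Hig_fac (T := T2) (F := F2 s s') (Bn := Bn2 s s') (Nw := Nw) (n3 := n3) (tg := I.tg2 s s')
      (η2 := η2) (n4 := n4) (I.act_fine fi R0 nN s s')
      (fun t => (Tri.QKg t).trans ((hts s s').tsQ t)) t v w (by
        rw [Tri.Kg_iff]
        exact ⟨h.1.1, h.1.2.1, by rw [h.1.2.2], h.2⟩)
    rw [h1]
  funext s s' d
  unfold fl
  have hi : ind (I.live s t v) = ind (I.live s t w) := by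
    congr 1
    exact propext (hlive s)
  rw [hF3 s s', ha, hb, hg, hi]

theorem Phi_zero (η1 : ℝ) (b0 : B) (e : V → ℝ) (f : S → S → V → ℝ) (g : List (S × (V → ℝ))) (he : ∀ d, e d = 0)
    (d : V) : I.Phi η1 b0 e f g d = 0 := by
  unfold Phi
  have h : ∀ s, (g.map fun p => e d * I.R.u s b0 d * p.2 d * f s p.1 d).sum = 0 := by
    intro s
    rw [he d]
    simp
  rw [Finset.sum_congr rfl fun s _ => h s]
  simp

theorem Phi_f0 (η1 : ℝ) (b0 : B) (e : V → ℝ) (g : List (S × (V → ℝ))) (d : V) :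
    I.Phi η1 b0 e (fun _ _ _ => 0) g d = 0 := by
  unfold Phi
  simp

theorem Phi_g0 (η1 : ℝ) (b0 : B) (e : V → ℝ) (f : S → S → V → ℝ) (d : V) :
    I.Phi η1 b0 e f [] d = 0 := by
  unfold Phi
  simp

/-- **the structure `Out`** from the names and tests -/
theorem mkOut (fi : Fine T1 T2) (hP : Pubn T2 Q) (hη : 0 < η1) (hε2 : 0 < ε2) (hR0 : 0 ≤ R0) (hε' : 0 < ε')
    (hN : ∀ s, NOut T1.P T1.b T1.n (fun t w => (T1.c w, T1.gm t w)) T1.cb (fun t g => T1.ρ t g.2)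
        (fun t (g : C × Γ) => (g.1, T1.par t g.2)) (I.k1 s) (F s) (Bn s) η' ε' n1 δ)
    (hts : I.Tests1 F Bn n1 η1 n2 R0 ε2 ts)
    (hη2 : 0 < η2) (hn : 0 ≤ nN) (hε4 : 0 < ε4) (hε3 : 0 < ε3)
    (hN2 : ∀ s s' i, NOut T2.P (fun w => (T2.b w, T2.c w)) T2.n T2.gm (fun t (y : B × C) => (T2.cb t y.1, T2.cc t y.2))
        T2.ρ T2.par (I.U2 fi.crs al Mc s s' i) (F2 s s' i) (Bn2 s s' i) η3 ε4 n3 δ2)
    (hts2 : ∀ s s', T2.Testsg (F2 s s') (Bn2 s s') Nw n3 (fun t w => I.act2 R0 nN w t s s') (I.tg2 s s') η2 n4 ε3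
        (ts2 s s'))
    {eps q Lam J : ℝ} {M Mg M1 Mf MA MN : ℕ}
    (herr : T1.P.Pr (fun w => ∃ t ≤ T1.n, eps < |I.TT t w - I.XX η1 (I.F3l T2 F2 Bn2 Nw n3 η2 n4 R0 nN ts2)
          (Hi η1 n2 (I.loc1 F Bn n1) ts (fun t w => I.N1 R0 w t)) t w|) ≤ q)
    (hLam : η1 * (I.Λ * ((n2 + 1) * (η2 * (n4 + 1)))) ≤ Lam)
    (hJ1 : 2 / η1 ^ 2 * (1 + I.p0) + I.p0 ≤ J) (hJ2 : I.Λ + (4 / η2 ^ 2 + 2) * (I.Λ * nN) ≤ J)
    (hMg : nG n1 n2 Mg M1 + 1 ≤ M) (hMf : I.nF nN MA MN (nH n3 n4 Nw Mf) + 1 ≤ M)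
    (hqg : 2 * (T1.K ^ 3 * (32 / η' ^ 2 * (I.p0 + 1) / ε') +
        T1.K ^ 2 * (2 / η1 ^ 2 * ((1 + n2 * η1) ^ 2 + I.p0) / ε2)) * I.Ms / (Mg + 1) +
      2 * T1.K ^ 2 * I.Ms / (M1 + 1) ≤ q)
    (hqf : (2 * T2.K ^ 2 * (32 / η3 ^ 2 / ε4) * (Nw * ((I.p0 + 2) * Mc ^ 2)) +
        2 * T2.K * (6 / η2 ^ 2 / ε3) * (nN * I.Ms)) / (Mf + 1) +
      (2 * T1.K * I.Ms / (MA + 1) + 2 * T1.K ^ 3 * I.Ms / (MN + 1)) ≤ q) :
    Nonempty (Out T2 Q I.TT (I.E2n fi) eps q Lam J M) := by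
  have hF : ∀ s t g b d, |F s t g b d| ≤ 1 := fun s t g b d => (hN s).F1 t g b d
  have hF2 : ∀ s s' i t g y d, |F2 s s' i t g y d| ≤ 1 := fun s s' i t g y d => (hN2 s s' i).F1 t g y d
  have hfF : ∀ t, Fac (fun w => ((T2.xi w, T2.a w, T2.b w), T2.gm t w))
      (I.fl (I.F3l T2 F2 Bn2 Nw n3 η2 n4 R0 nN ts2) t) := fun t => f_fac fi hts2 t
  have hfG : ∀ t, Fac (fun w => ((T2.xi w, T2.a w, T2.c w), T2.gm t w))
      (Hi η1 n2 (I.loc1 F Bn n1) ts (fun t w => I.N1 R0 w t) t) := fun t => g_fac fi hη hF hts t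
  have hLam0 : 0 ≤ η1 * (I.Λ * ((n2 + 1) * (η2 * (n4 + 1)))) := by
    have := I.Λ1
    positivity
  have hc0 : 0 ≤ η2 * (n4 + 1) := by positivity
  refine ⟨{
    F' := S → S → V → ℝ
    G' := List (S × (V → ℝ))
    f := natf T2.gm (fun w => (T2.xi w, T2.a w, T2.b w)) (I.fl (I.F3l T2 F2 Bn2 Nw n3 η2 n4 R0 nN ts2))
      (fun _ _ _ => 0)
    g := natf T2.gm (fun w => (T2.xi w, T2.a w, T2.c w))
      (Hi η1 n2 (I.loc1 F Bn n1) ts (fun t w => I.N1 R0 w t)) []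
    Phi := fun b e x y => I.Phi η1 b e x y
    Phi0 := fun b e x y he d => Phi_zero η1 b e x y he d
    bd := ?_
    err := ?_
    chf := ?_
    chg := ?_
    vf := ?_
    vg := ?_ }⟩
  · intro b e t t' g1 x g2 y d he ht ht'
    rcases natf_or (gm := T2.gm) (K := fun w => (T2.xi w, T2.a w, T2.b w))
      (L := I.fl (I.F3l T2 F2 Bn2 Nw n3 η2 n4 R0 nN ts2)) (x0 := fun _ _ _ => 0) t g1 x with h1 | ⟨v, -, -, h1⟩
    · rw [h1, Phi_f0, abs_zero]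
      exact hLam0.trans hLam
    rcases natf_or (gm := T2.gm) (K := fun w => (T2.xi w, T2.a w, T2.c w))
      (L := Hi η1 n2 (I.loc1 F Bn n1) ts (fun t w => I.N1 R0 w t)) (x0 := []) t' g2 y with h2 | ⟨v', -, -, h2⟩
    · rw [h2, Phi_g0, abs_zero]
      exact hLam0.trans hLam
    rw [h1, h2]
    refine (Phi_bd (I := I) hη.le hc0 (n2 := n2) (fun s s' t w d => F3l_bd fi hη2 hF2 hts2 s s' t w d) ?_ ?_ he
      (by rw [← fi.hn]; exact ht) v b d).trans hLam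
    · exact hist_len (η := η1) (n2 := n2) (x := fun t => I.loc1 F Bn n1 t v') (ts := fun t => ts t v')
        (ν := fun t => I.N1 R0 v' t) hη (fun t => T1.isMean t v') t'
    · exact (I.runHyp1 hη hF hts (fun t => I.N1_fac R0 t)).Hi_bd t' v'
  · refine le_trans (le_of_eq ?_) herr
    rw [fi.hP]
    refine T1.P.Pr_congr fun w _ => ?_
    rw [fi.hn]
    refine exists_congr fun t => and_congr_right fun _ => ?_
    rw [natf_eq (hfF t) w, natf_eq (hfG t) w]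
    unfold XX E2n
    rw [fi.hJ, fi.crs_gm, fi.hb, fi.hc]
  · have h := chg_f3 (I := I) fi hη2 hn hF2 hts2
    refine le_trans (le_of_eq ?_) (h.trans hJ2)
    rw [fi.hn, fi.hP]
    refine Finset.sum_congr rfl fun t _ => T1.P.Pr_congr fun w _ => ?_
    rw [natf_eq (hfF t) w, natf_eq (hfF (t + 1)) w]
  · have h := I.chg_g hη hF hts
    refine le_trans (le_of_eq ?_) (h.trans hJ1)
    rw [fi.hn, fi.hP]
    refine Finset.sum_congr rfl fun t _ => T1.P.Pr_congr fun w _ => ?_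
    rw [natf_eq (hfG t) w, natf_eq (hfG (t + 1)) w]
  · rw [fi.hP]
    refine le_trans (T1.P.Pr_mono fun w0 _ hw => ?_) ((valsF (Nw := Nw) hη2 hn hε4 hε3 fi hP hN2 hts2 Mf MA MN).trans
      hqf)
    intro hok
    apply hw
    obtain ⟨s, h1, h2⟩ := valsF0 (n3 := n3) (nN := nN) hη2 fi hP hR0 (fun s s' i _ => (hN2 s s' i).lm)
      (fun s s' t => (hts2 s s').tsQ t) hok
    obtain ⟨s', h3, h4⟩ := vals_nat_b (T := T2) (Q := Q) (x0 := fun _ _ _ => (0 : ℝ)) h1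
      (fun t ht w hw => h2 t (by rw [← fi.hn]; exact ht) w hw)
    exact ⟨s', h3.trans hMf, h4⟩
  · rw [fi.hP]
    refine le_trans (T1.P.Pr_mono fun w0 _ hw => ?_) ((valsG (n1 := n1) hη hε2 (fi.pubn hP) hε' hN hts Mg M1).trans
      hqg)
    intro hok
    apply hw
    obtain ⟨s, h1, h2⟩ := valsG0 hη (fi.pubn hP) (fun s => (hN s).lm) hts (fun t w => I.N1 R0 w t) hok
    obtain ⟨s', h3, h4⟩ := vals_nat_c (T := T2) (Q := Q) (x0 := ([] : List (S × (V → ℝ)))) h1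
      (fun t ht w hw => h2 t (by rw [← fi.hn]; exact ht) w (fi.clc hw))
    exact ⟨s', h3.trans hMg, h4⟩

end mk

open Pool.Agent.M3.S2.Num

/-- **EXISTENCE OF THE OUTPUT**, with the constants of `Num`, `Num2`; the sizes `Lam, J, M` are free -/
theorem outN0 (I : Inp T1 S) (fi : Fine T1 T2) (hP : Pubn T2 Q) {z : ℕ} (h : I.Small z) (hm : 0 < m)
    (hS : Fintype.card S ≤ m) (hK1 : T1.K = 2 ^ (6 * z + 43)) (hK2 : T2.K = 2 ^ (35 * z + 212))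
    (hn1 : T1.near = 8 / 2 ^ h1 z) (hn2 : T2.near = 8 / 2 ^ h2 z)
    (hLM : LM T1.P (fun w => (T1.xi w, T1.a w)) T1.b T1.n (fun t w => (T1.c w, T1.gm t w))
      (fun t w => (T1.c w, T1.gm t w)) (fun t x => T1.ca t x.2) T1.cb (fun t g => T1.ρ t g.2)
      (fun t g => T1.ρ t g.2) T1.J T1.near T1.K)
    (hLM2 : LM T2.P (fun w => (T2.xi w, T2.a w)) (fun w => (T2.b w, T2.c w)) T2.n
      (fun t w => (T2.cb t (T2.b w), T2.gm t w)) (fun t w => T2.gm t w) (fun t x => T2.ca t x.2)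
      (fun t y => (T2.cb t y.1, T2.cc t y.2)) (fun t g => T2.ρ t g.2) T2.ρ T2.J T2.near T2.K)
    {Lam J : ℝ} {M' Mg M1 Mf MA MN : ℕ}
    (hLam : eta1 z * (I.Λ * ((n2 z + 1) * (eta2 z * (n4 z + 1)))) ≤ Lam)
    (hJ1 : 2 / eta1 z ^ 2 * (1 + I.p0) + I.p0 ≤ J) (hJ2 : I.Λ + (4 / eta2 z ^ 2 + 2) * (I.Λ * nN z) ≤ J)
    (hMg : nG (n1 z) (n2 z) Mg M1 + 1 ≤ M') (hMf : I.nF (nN z) MA MN (nH (n3 z) (n4 z) (Nw z) Mf) + 1 ≤ M')
    (hqg : 2 * (T1.K ^ 3 * (32 / etap z ^ 2 * (I.p0 + 1) / epsp z) +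
        T1.K ^ 2 * (2 / eta1 z ^ 2 * ((1 + n2 z * eta1 z) ^ 2 + I.p0) / epsp z)) * I.Ms / (Mg + 1) +
      2 * T1.K ^ 2 * I.Ms / (M1 + 1) ≤ (1 / 2) ^ z)
    (hqf : (2 * T2.K ^ 2 * (32 / etap2 z ^ 2 / epsp2 z) * (Nw z * ((I.p0 + 2) * Mc z ^ 2)) +
        2 * T2.K * (6 / eta2 z ^ 2 / epsp2 z) * (nN z * I.Ms)) / (Mf + 1) +
      (2 * T1.K * I.Ms / (MA + 1) + 2 * T1.K ^ 3 * I.Ms / (MN + 1)) ≤ (1 / 2) ^ z) :
    Nonempty (Out T2 Q I.TT (I.E2n fi) ((1 / 2) ^ z) ((1 / 2) ^ z) Lam J M') := by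
  obtain ⟨F, Bn, ts, F2, Bn2, ts2, hN, hts, hN2, hts2, hc⟩ := I.concl3 fi hm (eta1_pos z) (n2 z) (R0_pos z)
    (epsp_pos z) (etap_pos z) (epsp_pos z) (j1 z) (n1_ok h) hLM (cX1 z) (cetap1 z) (eps_pos z) (eps_le_one z)
    (ceps1 z) (ceps1 z) (cnear1 z hn1) T1.K1 (2 ^ z) (nN_pos z) (Mc_pos z) (M := M z) (Nw := Nw z)
    (by rw [floor_n1]; exact le_of_eq (Nw_eq z).symm) (eta2_pos z) (n4 z) (epsp2_pos z) (etap2_pos z) (epsp2_pos z)
    (j2 z) (n3_ok h) T2.K1 hLM2 (cX2 z) (cetap2 z) (eps2_pos z) (eps2_le_one z) (ceps2 z) (ceps2 z) (cnear2 z hn2)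
  refine mkOut fi hP (eta1_pos z) (epsp_pos z) (R0_pos z).le (epsp_pos z) hN hts (eta2_pos z) (nN_pos z).le
    (epsp2_pos z) (epsp2_pos z) hN2 hts2 ?_ hLam hJ1 hJ2 hMg hMf hqg hqf
  refine le_trans (T1.P.Pr_mono fun w _ hw => ?_) (hc.trans (total_le h hm hS hK1 hK2))
  obtain ⟨t, ht, hw⟩ := hw
  exact ⟨t, ht, lt_of_le_of_lt (err_ok h hn1 hn2) hw⟩

end Inp

end

end Pool.Agent.M3.S2
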