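import Pool.Agent.M3.S2.Vals4
import Pool.Agent.M3.S2.Num2

/-!
# M3/S2/NumV : numerical bounds for the numbers of values of the labels of section 2 (helper21)

`MA, MN, M2` : the caps of `valsF` (powers of two), `M` (of `Num`) for both caps of `valsG`.
* `valsG_num`, `valsF_num` : the bounds of `valsG`, `valsF` are at most `2^-(z+2)`;
* `nG_le : nG + 1 ≤ 2^(2^(21 z + 126))`, `nF_le : nF + 1 ≤ 2^(2^(158 z + 931))`;
* `PhiB_le` : bound of the formula, `chgG_le`, `chgF_le` : numbers of changes;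
* **`numV`** : all together, with the constant `931`.
-/

set_option autoImplicit false
set_option linter.unusedSectionVars false

namespace Pool.Agent.M3.S2

open Finset Pool.Agent.PWZ Pool.Agent.M3.TS

namespace Num

/-! ### calculus of powers of two, natural numbers -/

theorem nle2 {m n : ℕ} (h : m ≤ n) : 2 ^ m ≤ 2 ^ n := Nat.pow_le_pow_right (by norm_num) h

theorem nadd2 {A B m n l : ℕ} (hA : A ≤ 2 ^ m) (hB : B ≤ 2 ^ n) (hm : m + 1 ≤ l) (hn : n + 1 ≤ l) :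
    A + B ≤ 2 ^ l := by
  have h1 := nle2 hm
  have h2 := nle2 hn
  rw [pow_succ] at h1 h2
  omega

theorem nmul2 {A B m n l : ℕ} (hA : A ≤ 2 ^ m) (hB : B ≤ 2 ^ n) (h : m + n ≤ l) : A * B ≤ 2 ^ l := by
  refine (Nat.mul_le_mul hA hB).trans ?_
  rw [← pow_add]
  exact nle2 h

theorem npow2 {A m k l : ℕ} (hA : A ≤ 2 ^ m) (h : m * k ≤ l) : A ^ k ≤ 2 ^ l := by
  refine (Nat.pow_le_pow_left hA k).trans ?_
  rw [← pow_mul]
  exact nle2 h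

theorem one_le2 (n : ℕ) : 1 ≤ 2 ^ n := Nat.one_le_two_pow

/-- a linear function is at most a constant times `2^z` -/
theorem lin_le {a b c z l : ℕ} (h : a + b ≤ 2 ^ c) (hl : z + c ≤ l) : a * z + b ≤ 2 ^ l := by
  have h1 : z < 2 ^ z := Nat.lt_two_pow_self
  have h2 : a * z + b ≤ (a + b) * 2 ^ z := by nlinarith [one_le2 z]
  refine h2.trans ((Nat.mul_le_mul_right _ h).trans ?_)
  rw [← pow_add]
  exact nle2 (by omega)

/-! ### sizes of the exponents -/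

theorem E1_le (z : ℕ) : E1 z ≤ 2 ^ (z + 9) := by
  rw [E1_eq]
  have h3 : z < 2 ^ z := Nat.lt_two_pow_self
  have h4 : 2 ^ (z + 9) = 2 ^ z * 512 := by rw [pow_add]; norm_num
  have h5 := one_le2 z
  rw [h4]
  generalize 2 ^ z = t at h3 h5 ⊢
  omega

theorem mexp_le (z : ℕ) : mexp z + 1 ≤ 2 ^ (z + 10) := by
  rw [mexp_eq, E1_eq]
  have h3 : z < 2 ^ z := Nat.lt_two_pow_self
  have h4 : 2 ^ (z + 10) = 2 ^ z * 1024 := by rw [pow_add]; norm_num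
  have h5 := one_le2 z
  rw [h4]
  generalize 2 ^ z = t at h3 h5 ⊢
  omega

theorem n1_le (z : ℕ) : n1 z ≤ 2 ^ (14 * z + 79) := by
  rw [n1_eq, j1_eq]
  have h1 : 2 ^ z + 7 * z + 48 + 1 ≤ 2 ^ (z + 6) := by
    have h3 : z < 2 ^ z := Nat.lt_two_pow_self
    have h4 : 2 ^ (z + 6) = 2 ^ z * 64 := by rw [pow_add]; norm_num
    have h5 := one_le2 z
    rw [h4]
    generalize 2 ^ z = t at h3 h5 ⊢
    omega
  exact nmul2 h1 (le_refl (2 ^ (13 * z + 73))) (by omega)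

theorem n1_pos (z : ℕ) : 1 ≤ n1 z := by
  rw [n1_eq]
  exact Nat.mul_pos (Nat.succ_pos _) (Nat.pow_pos (by norm_num))

theorem W_le (z : ℕ) : W z ≤ 2 ^ (15 * z + 90) := by
  rw [W_eq]
  have h1 : (mexp z + 1) * n1 z ≤ 2 ^ (15 * z + 89) := nmul2 (mexp_le z) (n1_le z) (by omega)
  have h2 : 2 ≤ 2 ^ 1 := by norm_num
  exact nadd2 h1 h2 (by omega) (by omega)

theorem mexp_W (z : ℕ) : mexp z + 1 ≤ W z := by
  rw [W_eq]
  nlinarith [n1_pos z]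

theorem mu_le (z : ℕ) : mu z ≤ 2 ^ (z + 7) := by
  rw [mu_eq]
  have h3 : z < 2 ^ z := Nat.lt_two_pow_self
  have h4 : 2 ^ (z + 7) = 2 ^ z * 128 := by rw [pow_add]; norm_num
  have h5 := one_le2 z
  rw [h4]
  generalize 2 ^ z = t at h3 h5 ⊢
  omega

theorem small_exp (z : ℕ) : 2 * 2 ^ z + 238 * z + 1436 ≤ 2 ^ (15 * z + 90) := by
  have h3 : z < 2 ^ z := Nat.lt_two_pow_self
  have h4 : 2 ^ (z + 11) = 2 ^ z * 2048 := by rw [pow_add]; norm_num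
  have h5 := one_le2 z
  have h6 : 2 ^ (z + 11) ≤ 2 ^ (15 * z + 90) := nle2 (by omega)
  refine le_trans ?_ h6
  rw [h4]
  generalize 2 ^ z = t at h3 h5 ⊢
  omega

theorem E2_le (z : ℕ) : E2 z ≤ 2 ^ (15 * z + 91) := by
  rw [E2_eq, show W z + 2 * 2 ^ z + 238 * z + 1436 = W z + (2 * 2 ^ z + 238 * z + 1436) by omega]
  exact nadd2 (W_le z) (small_exp z) (by omega) (by omega)

theorem j2_le (z : ℕ) : j2 z + 1 ≤ 2 ^ (15 * z + 91) := by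
  rw [j2_eq, mu_eq, show W z + 2 * (2 ^ z + 13 * z + 92) + z + 5 + 1 = W z + (2 * 2 ^ z + 27 * z + 190) by ring]
  refine nadd2 (W_le z) (n := 15 * z + 90) (le_trans ?_ (small_exp z)) (by omega) (by omega)
  omega

theorem n3_le (z : ℕ) : n3 z ≤ 2 ^ (86 * z + 502) := by
  rw [n3_eq]
  exact nmul2 (j2_le z) (le_refl (2 ^ (71 * z + 411))) (by omega)

theorem n3_pos (z : ℕ) : 1 ≤ n3 z := by
  rw [n3_eq]
  exact Nat.mul_pos (Nat.succ_pos _) (Nat.pow_pos (by norm_num))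

theorem n2_nat (z : ℕ) : n2 z = 2 ^ (6 * z + 33) := by
  have h := n2_cast z
  exact_mod_cast h

theorem n4_nat (z : ℕ) : n4 z = 2 ^ (35 * z + 202) := by
  have h := n4_cast z
  exact_mod_cast h

theorem M_nat (z : ℕ) : M z = 2 ^ mexp z := by
  have h := M_cast z
  exact_mod_cast h

theorem Nw_nat (z : ℕ) : Nw z ≤ 2 ^ W z := by
  have h := Nw_le z
  exact_mod_cast h

/-! ### the caps of the numbers of values -/

/-- exponents of the caps -/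
def eA (z : ℕ) : ℕ := 2 ^ z + 7 * z + 48
def eN (z : ℕ) : ℕ := 2 ^ z + 19 * z + 134
def eM2 (z : ℕ) : ℕ := 2 * E2 z + W z + 2 * 2 ^ z + 203 * z + 1236

/-- cap of the number of references which can be live -/
def MA (z : ℕ) : ℕ := 2 ^ eA z
/-- cap of the number of references which can be recorded -/
def MN (z : ℕ) : ℕ := 2 ^ eN z
/-- cap of the number of births and tests of a pair of references -/
def M2 (z : ℕ) : ℕ := 2 ^ eM2 z

theorem eA_eq (z : ℕ) : eA z = 2 ^ z + 7 * z + 48 := rfl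
theorem eN_eq (z : ℕ) : eN z = 2 ^ z + 19 * z + 134 := rfl
theorem eM2_eq (z : ℕ) : eM2 z = 2 * E2 z + W z + 2 * 2 ^ z + 203 * z + 1236 := rfl
theorem MA_nat (z : ℕ) : MA z = 2 ^ eA z := rfl
theorem MN_nat (z : ℕ) : MN z = 2 ^ eN z := rfl
theorem M2_nat (z : ℕ) : M2 z = 2 ^ eM2 z := rfl

attribute [irreducible] eA eN eM2 MA MN M2

theorem MA_cast (z : ℕ) : (MA z : ℝ) = 2 ^ eA z := by
  rw [MA_nat]
  push_cast
  rfl

theorem MN_cast (z : ℕ) : (MN z : ℝ) = 2 ^ eN z := by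
  rw [MN_nat]
  push_cast
  rfl

theorem M2_cast (z : ℕ) : (M2 z : ℝ) = 2 ^ eM2 z := by
  rw [M2_nat]
  push_cast
  rfl

theorem eM2_le (z : ℕ) : eM2 z + 1 ≤ 2 ^ (15 * z + 93) := by
  rw [eM2_eq, show 2 * E2 z + W z + 2 * 2 ^ z + 203 * z + 1236 + 1 =
    2 ^ 1 * E2 z + (W z + (2 * 2 ^ z + 203 * z + 1237)) by ring]
  have h1 : 2 ^ 1 * E2 z ≤ 2 ^ (15 * z + 92) := nmul2 le_rfl (E2_le z) (by omega)
  have h2 : W z + (2 * 2 ^ z + 203 * z + 1237) ≤ 2 ^ (15 * z + 91) :=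
    nadd2 (W_le z) (n := 15 * z + 90) (le_trans (by omega) (small_exp z)) (by omega) (by omega)
  exact nadd2 h1 h2 (by omega) (by omega)

theorem eA_le (z : ℕ) : eA z + 1 ≤ 2 ^ (z + 8) := by
  rw [eA_eq]
  have h3 : z < 2 ^ z := Nat.lt_two_pow_self
  have h4 : 2 ^ (z + 8) = 2 ^ z * 256 := by rw [pow_add]; norm_num
  have h5 := one_le2 z
  rw [h4]
  generalize 2 ^ z = t at h3 h5 ⊢
  omega

theorem eN_le (z : ℕ) : eN z + 1 ≤ 2 ^ (z + 8) := by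
  rw [eN_eq]
  have h3 : z < 2 ^ z := Nat.lt_two_pow_self
  have h4 : 2 ^ (z + 8) = 2 ^ z * 256 := by rw [pow_add]; norm_num
  have h5 := one_le2 z
  rw [h4]
  generalize 2 ^ z = t at h3 h5 ⊢
  omega

/-! ### numbers of values -/

/-- **number of histories of stage 1** -/
theorem nG_le (z : ℕ) : Inp.nG (n1 z : ℝ) (n2 z) (M z) (M z) + 1 ≤ 2 ^ (2 ^ (21 * z + 126)) := by
  unfold Inp.nG
  rw [floor_n1, ← Nw_eq, n2_nat]
  have h1 : M z * Nw z ≤ 2 ^ (mexp z + W z) := by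
    rw [M_nat]
    exact nmul2 (le_refl (2 ^ mexp z)) (Nw_nat z) le_rfl
  have h2 : M z * Nw z + 1 ≤ 2 ^ (2 ^ (15 * z + 91)) := by
    have h3 : mexp z + W z + 1 ≤ 2 ^ (15 * z + 91) := by
      rw [show mexp z + W z + 1 = mexp z + 1 + W z by omega]
      exact nadd2 (mexp_le z) (W_le z) (by omega) (by omega)
    exact nadd2 h1 (B := 1) (n := 0) (by norm_num) h3 (by omega)
  have h4 : (M z * Nw z + 1) ^ (2 ^ (6 * z + 33) + 1) ≤ 2 ^ (2 ^ (21 * z + 125)) := by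
    refine npow2 h2 ?_
    have h5 : 2 ^ (6 * z + 33) + 1 ≤ 2 ^ (6 * z + 34) :=
      nadd2 (le_refl (2 ^ (6 * z + 33))) (B := 1) (n := 0) (by norm_num) (by omega) (by omega)
    exact nmul2 (le_refl (2 ^ (15 * z + 91))) h5 (by omega)
  have h6 : 2 ^ (21 * z + 125) + 1 ≤ 2 ^ (21 * z + 126) :=
    nadd2 (le_refl (2 ^ (21 * z + 125))) (B := 1) (n := 0) (by norm_num) (by omega) (by omega)
  exact nadd2 h4 (B := 1) (n := 0) (by norm_num) h6 (by have := one_le2 (21 * z + 125); omega)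

/-- **number of histories of a pair of references** -/
theorem nH_le (z : ℕ) : nH (n3 z : ℝ) (n4 z) (Nw z) (M2 z) ≤ 2 ^ (2 ^ (136 * z + 800)) := by
  unfold nH
  rw [Nat.floor_natCast, n4_nat]
  have h1 : M2 z + 1 ≤ 2 ^ (eM2 z + 1) := by
    rw [M2_nat]
    exact nadd2 (le_refl (2 ^ eM2 z)) (B := 1) (n := 0) (by norm_num) (by omega) (by omega)
  have h2 : (M2 z + 1) ^ n3 z ≤ 2 ^ ((eM2 z + 1) * n3 z) := npow2 h1 le_rfl
  have h3 : Nw z * (M2 z + 1) ^ n3 z ≤ 2 ^ (W z + (eM2 z + 1) * n3 z) := nmul2 (Nw_nat z) h2 le_rfl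
  have h4 : 2 * (Nw z * (M2 z + 1) ^ n3 z) ≤ 2 ^ (1 + (W z + (eM2 z + 1) * n3 z)) :=
    nmul2 (m := 1) (by norm_num) h3 le_rfl
  have h5 : eM2 z + 1 ≤ (eM2 z + 1) * n3 z := Nat.le_mul_of_pos_right _ (n3_pos z)
  have h6 : 2 * (Nw z * (M2 z + 1) ^ n3 z) + (M2 z + 1) ≤ 2 ^ (2 + (W z + (eM2 z + 1) * n3 z)) :=
    nadd2 h4 h1 (by omega) (by omega)
  have h7 : (eM2 z + 1) * n3 z ≤ 2 ^ (101 * z + 595) := nmul2 (eM2_le z) (n3_le z) (by omega)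
  have h8 : W z + (eM2 z + 1) * n3 z ≤ 2 ^ (101 * z + 596) := nadd2 (W_le z) h7 (by omega) (by omega)
  have h9 : 2 + (W z + (eM2 z + 1) * n3 z) ≤ 2 ^ (101 * z + 597) :=
    nadd2 (m := 1) (by norm_num) h8 (by omega) (by omega)
  have h10 : 2 ^ (35 * z + 202) + 1 ≤ 2 ^ (35 * z + 203) :=
    nadd2 (le_refl (2 ^ (35 * z + 202))) (B := 1) (n := 0) (by norm_num) (by omega) (by omega)
  refine npow2 (m := 2 ^ (101 * z + 597)) ?_ (nmul2 (le_refl (2 ^ (101 * z + 597))) h10 (by omega))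
  rw [show 2 * (Nw z * (M2 z + 1) ^ n3 z) + M2 z + 1 = 2 * (Nw z * (M2 z + 1) ^ n3 z) + (M2 z + 1) by omega]
  exact h6.trans (nle2 h9)

end Num

noncomputable section

variable {Om A B C V Γ κ Γ2 κ2 S : Type} [Fintype Om] [Fintype A] [Fintype B] [Fintype C] [Fintype V]
  [Fintype S] [DecidableEq S] {m : ℕ} {T1 : Tri Om (S → Fin m) A B C V Γ κ} {T2 : Tri Om (S → Fin m) A B C V Γ2 κ2}

namespace Inp

open Pool.Agent.M3.S2.Num

variable {I : Inp T1 S} {z : ℕ}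

/-- **number of values of the label of `(a, b)`** -/
theorem nF_le (h : I.Small z) : I.nF (nN z) (MA z) (MN z) (nH (n3 z : ℝ) (n4 z) (Nw z) (M2 z)) + 1 ≤
    2 ^ (2 ^ (158 * z + 931)) := by
  unfold nF
  have hL := I.Λ1
  have f1 : ⌊I.Λ⌋₊ ≤ 2 ^ z := by
    refine Nat.floor_le_of_le ?_
    push_cast
    exact h.lam
  have f2 : ⌊I.Λ * nN z⌋₊ ≤ 2 ^ (22 * z + 128) := by
    refine Nat.floor_le_of_le ?_
    push_cast
    rw [nN_eq]
    exact mul2' (pow_pos2 _).le h.lam (le_refl ((2 : ℝ) ^ (21 * z + 128))) (by omega)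
  have a1 : MA z + 1 ≤ 2 ^ (2 ^ (z + 8)) := by
    rw [MA_nat]
    have := one_le2 (z + 8)
    exact nadd2 (le_refl (2 ^ eA z)) (B := 1) (n := 0) (by norm_num) (eA_le z) (by omega)
  have a2 : (MA z + 1) ^ ⌊I.Λ⌋₊ ≤ 2 ^ (2 ^ (158 * z + 929)) := by
    refine npow2 a1 ?_
    exact nmul2 (le_refl (2 ^ (z + 8))) f1 (by omega)
  have b1 : MA z * MN z ≤ 2 ^ (2 ^ (z + 9)) := by
    rw [MA_nat, MN_nat]
    refine nmul2 (le_refl (2 ^ eA z)) (le_refl (2 ^ eN z)) ?_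
    have c1 : eA z ≤ 2 ^ (z + 8) := (Nat.le_succ _).trans (eA_le z)
    have c2 : eN z ≤ 2 ^ (z + 8) := (Nat.le_succ _).trans (eN_le z)
    exact nadd2 c1 c2 (by omega) (by omega)
  have b2 : MA z * MN z * nH (n3 z : ℝ) (n4 z) (Nw z) (M2 z) + 1 ≤ 2 ^ (2 ^ (136 * z + 801)) := by
    have c1 : MA z * MN z * nH (n3 z : ℝ) (n4 z) (Nw z) (M2 z) ≤ 2 ^ (2 ^ (z + 9) + 2 ^ (136 * z + 800)) :=
      nmul2 b1 (nH_le z) le_rfl
    have c2 : 2 ^ (z + 9) + 1 ≤ 2 ^ (z + 10) :=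
      nadd2 (le_refl (2 ^ (z + 9))) (B := 1) (n := 0) (by norm_num) (by omega) (by omega)
    have c3 : 2 ^ (z + 10) + 2 ^ (136 * z + 800) ≤ 2 ^ (136 * z + 801) :=
      nadd2 (le_refl (2 ^ (z + 10))) (le_refl (2 ^ (136 * z + 800))) (by omega) (by omega)
    refine nadd2 c1 (B := 1) (n := 0) (by norm_num) (by omega) ?_
    have := one_le2 (136 * z + 801)
    omega
  have b3 : (MA z * MN z * nH (n3 z : ℝ) (n4 z) (Nw z) (M2 z) + 1) ^ ⌊I.Λ * nN z⌋₊ ≤ 2 ^ (2 ^ (158 * z + 929)) :=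
    npow2 b2 (nmul2 (le_refl (2 ^ (136 * z + 801))) f2 (by omega))
  have c1 : 2 ^ (158 * z + 929) + 2 ^ (158 * z + 929) ≤ 2 ^ (158 * z + 930) :=
    nadd2 (le_refl (2 ^ (158 * z + 929))) (le_refl (2 ^ (158 * z + 929))) (by omega) (by omega)
  have d1 : (MA z + 1) ^ ⌊I.Λ⌋₊ * (MA z * MN z * nH (n3 z : ℝ) (n4 z) (Nw z) (M2 z) + 1) ^ ⌊I.Λ * nN z⌋₊ ≤
      2 ^ (2 ^ (158 * z + 930)) := nmul2 a2 b3 c1
  have d2 : 2 ^ (158 * z + 930) + 1 ≤ 2 ^ (158 * z + 931) :=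
    nadd2 (le_refl (2 ^ (158 * z + 930))) (B := 1) (n := 0) (by norm_num) (by omega) (by omega)
  exact nadd2 d1 (B := 1) (n := 0) (by norm_num) d2 (by have := one_le2 (158 * z + 930); omega)

/-- **the bound of `valsG`** -/
theorem valsG_num (h : I.Small z) (hK : T1.K = 2 ^ (6 * z + 43)) :
    2 * (T1.K ^ 3 * (32 / etap z ^ 2 * (I.p0 + 1) / epsp z) +
      T1.K ^ 2 * (2 / eta1 z ^ 2 * ((1 + n2 z * eta1 z) ^ 2 + I.p0) / epsp z)) * I.Ms / (M z + 1) +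
      2 * T1.K ^ 2 * I.Ms / (M z + 1) ≤ (1 / 2) ^ (z + 2) := by
  have a1 := b7 h hK
  have hms := I.Ms1
  have h4 : 2 * T1.K ^ 2 ≤ 2 ^ (12 * z + 87) := by
    rw [hK, ← pow_mul, show 12 * z + 87 = (6 * z + 43) * 2 + 1 by omega, pow_succ]
    linarith
  have h5 : 2 * T1.K ^ 2 * I.Ms ≤ 2 ^ (12 * z + 87 + 2 ^ z) := mul2 (by linarith) h4 h.ms
  have a2 : 2 * T1.K ^ 2 * I.Ms / (M z + 1) ≤ (1 / 2) ^ (z + 5) := by
    refine div2 h5 (n := mexp z) ?_ ?_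
    · rw [M_cast]
      linarith
    · rw [mexp_eq]
      omega
  have e1 : 2 * (T1.K ^ 3 * (32 / etap z ^ 2 * (I.p0 + 1) / epsp z) +
      T1.K ^ 2 * (2 / eta1 z ^ 2 * ((1 + n2 z * eta1 z) ^ 2 + I.p0) / epsp z)) * I.Ms / (M z + 1) =
      2 * ((T1.K ^ 3 * (32 / etap z ^ 2 * (I.p0 + 1) / epsp z) +
      T1.K ^ 2 * (2 / eta1 z ^ 2 * ((1 + n2 z * eta1 z) ^ 2 + I.p0) / epsp z)) * I.Ms / (M z + 1)) := by ring
  rw [e1]
  have a5 : (1 / 2 : ℝ) ^ (z + 5) = (1 / 2) ^ (z + 2) / 8 := by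
    rw [pow_add, pow_add]
    norm_num
    ring
  rw [a5] at a1 a2
  have hp : (0 : ℝ) < (1 / 2) ^ (z + 2) := by positivity
  linarith

/-- **the bound of `valsF`** -/
theorem valsF_num (h : I.Small z) (hK : T1.K = 2 ^ (6 * z + 43)) (hK2 : T2.K = 2 ^ (35 * z + 212)) :
    (2 * T2.K ^ 2 * (32 / etap2 z ^ 2 / epsp2 z) * (Nw z * ((I.p0 + 2) * Mc z ^ 2)) +
      2 * T2.K * (6 / eta2 z ^ 2 / epsp2 z) * (nN z * I.Ms)) / (M2 z + 1) +
      (2 * T1.K * I.Ms / (MA z + 1) + 2 * T1.K ^ 3 * I.Ms / (MN z + 1)) ≤ (1 / 2) ^ (z + 2) := by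
  have hms := I.Ms1
  have hp := I.p01
  -- births
  have t1 : 2 * T2.K ^ 2 * (32 / etap2 z ^ 2 / epsp2 z) * (Nw z * ((I.p0 + 2) * Mc z ^ 2)) ≤
      2 ^ (2 * E2 z + W z + 2 * 2 ^ z + 202 * z + 1231) := by
    have h1 : 32 / etap2 z ^ 2 / epsp2 z = 2 ^ (2 * E2 z + 105 * z + 620) := by
      have e1 : ∀ x : ℝ, 32 / x ^ 2 = 2 ^ 5 * (1 / x ^ 2) := fun x => by ring
      have e2 : 5 + 2 * (35 * z + 201) + (2 * E2 z + (35 * z + 212) + 1) = 2 * E2 z + 105 * z + 620 := by omega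
      rw [etap2_eq, epsp2_eq, div_eq_mul_inv _ ((1 / 2 : ℝ) ^ (2 * E2 z + (35 * z + 212) + 1)), inv2, e1,
        one_div_sq, ← pow_add, ← pow_add, e2]
    have h2 : 2 * T2.K ^ 2 ≤ 2 ^ (70 * z + 425) := by
      rw [hK2, ← pow_mul, show 70 * z + 425 = (35 * z + 212) * 2 + 1 by omega, pow_succ 2 ((35 * z + 212) * 2),
        mul_comm]
    have h3 : 2 * T2.K ^ 2 * (32 / etap2 z ^ 2 / epsp2 z) ≤ 2 ^ (2 * E2 z + 175 * z + 1045) := by
      rw [h1]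
      exact mul2' (pow_pos2 _).le h2 (le_refl ((2 : ℝ) ^ (2 * E2 z + 105 * z + 620))) (by omega)
    have h4 : Mc z ^ 2 ≤ 2 ^ (2 * mu z) := by
      rw [Mc_eq, ← pow_mul, mul_comm (mu z) 2]
    have h5 : (I.p0 + 2) * Mc z ^ 2 ≤ 2 ^ (z + 2 + 2 * mu z) := mul2 (sq_nonneg _) (p2_le h) h4
    have h50 : 0 ≤ (I.p0 + 2) * Mc z ^ 2 := mul_nonneg (by linarith) (sq_nonneg _)
    have h6 : (Nw z : ℝ) * ((I.p0 + 2) * Mc z ^ 2) ≤ 2 ^ (W z + (z + 2 + 2 * mu z)) := mul2 h50 (Nw_le z) h5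
    refine mul2' (mul_nonneg (Nat.cast_nonneg _) h50) h3 h6 ?_
    rw [mu_eq]
    omega
  -- tests
  have t2 : 2 * T2.K * (6 / eta2 z ^ 2 / epsp2 z) * (nN z * I.Ms) ≤
      2 ^ (2 * E2 z + W z + 2 * 2 ^ z + 202 * z + 1231) := by
    have h1 : 6 / eta2 z ^ 2 / epsp2 z ≤ 2 ^ (2 * E2 z + 47 * z + 282) := by
      have e1 : ∀ x : ℝ, 6 / x ^ 2 = 6 * (1 / x ^ 2) := fun x => by ring
      rw [eta2_eq, epsp2_eq, div_eq_mul_inv _ ((1 / 2 : ℝ) ^ (2 * E2 z + (35 * z + 212) + 1)), inv2, e1,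
        one_div_sq]
      have h6 : (6 : ℝ) ≤ 2 ^ 3 := by norm_num
      have h7 : 6 * (2 : ℝ) ^ (2 * (6 * z + 33)) ≤ 2 ^ (12 * z + 69) :=
        mul2' (pow_pos2 _).le h6 (le_refl ((2 : ℝ) ^ (2 * (6 * z + 33)))) (by omega)
      exact mul2' (pow_pos2 _).le h7 (le_refl ((2 : ℝ) ^ (2 * E2 z + (35 * z + 212) + 1))) (by omega)
    have h10 : 0 ≤ 6 / eta2 z ^ 2 / epsp2 z := div_nonneg (div_nonneg (by norm_num) (sq_nonneg _)) (epsp2_pos z).le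
    have h2 : 2 * T2.K ≤ 2 ^ (35 * z + 213) := by
      rw [hK2, show 35 * z + 213 = (35 * z + 212) + 1 by omega, pow_succ 2 (35 * z + 212)]
      linarith
    have h3 : 2 * T2.K * (6 / eta2 z ^ 2 / epsp2 z) ≤ 2 ^ (2 * E2 z + 82 * z + 495) :=
      mul2' h10 h2 h1 (by omega)
    have h4 : nN z * I.Ms ≤ 2 ^ (21 * z + 128 + 2 ^ z) := by
      rw [nN_eq]
      exact mul2 (by linarith) (le_refl ((2 : ℝ) ^ (21 * z + 128))) h.ms
    exact mul2' (mul_nonneg (nN_pos z).le (by linarith)) h3 h4 (by omega)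
  have a1 : (2 * T2.K ^ 2 * (32 / etap2 z ^ 2 / epsp2 z) * (Nw z * ((I.p0 + 2) * Mc z ^ 2)) +
      2 * T2.K * (6 / eta2 z ^ 2 / epsp2 z) * (nN z * I.Ms)) / (M2 z + 1) ≤ (1 / 2) ^ (z + 4) := by
    refine div2 (add2 t1 t2 (l := 2 * E2 z + W z + 2 * 2 ^ z + 202 * z + 1232) (by omega) (by omega))
      (n := eM2 z) ?_ ?_
    · rw [M2_cast]
      linarith
    · rw [eM2_eq]
      omega
  have a2 : 2 * T1.K * I.Ms / (MA z + 1) ≤ (1 / 2) ^ (z + 4) := by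
    have h4 : 2 * T1.K ≤ 2 ^ (6 * z + 44) := by
      rw [hK, show 6 * z + 44 = (6 * z + 43) + 1 by omega, pow_succ 2 (6 * z + 43)]
      linarith
    refine div2 (mul2 (by linarith) h4 h.ms) (n := eA z) ?_ ?_
    · rw [MA_cast]
      linarith
    · rw [eA_eq]
      omega
  have a3 : 2 * T1.K ^ 3 * I.Ms / (MN z + 1) ≤ (1 / 2) ^ (z + 4) := by
    have h4 : 2 * T1.K ^ 3 ≤ 2 ^ (18 * z + 130) := by
      rw [hK, ← pow_mul, show 18 * z + 130 = (6 * z + 43) * 3 + 1 by omega, pow_succ]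
      linarith
    refine div2 (mul2 (by linarith) h4 h.ms) (n := eN z) ?_ ?_
    · rw [MN_cast]
      linarith
    · rw [eN_eq]
      omega
  have a5 : (1 / 2 : ℝ) ^ (z + 4) = (1 / 2) ^ (z + 2) / 4 := by
    rw [pow_add, pow_add]
    norm_num
    ring
  rw [a5] at a1 a2 a3
  have hp : (0 : ℝ) < (1 / 2) ^ (z + 2) := by positivity
  linarith

/-- **bound of the formula** -/
theorem PhiB_le (h : I.Small z) : eta1 z * (I.Λ * ((n2 z + 1) * (eta2 z * (n4 z + 1)))) ≤ 2 ^ (34 * z + 191) := by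
  have hL := I.Λ1
  have h1 : eta1 z * (n2 z + 1) ≤ 2 ^ (4 * z + 21) := by
    have h2 : eta1 z ≤ 1 := by
      rw [eta1_eq]
      exact half_le_one _
    have h3 := X_le z
    have h4 : eta1 z * (n2 z + 1) = (n2 z : ℝ) * eta1 z + eta1 z := by ring
    rw [h4]
    linarith
  have h2 : eta2 z * (n4 z + 1) ≤ 2 ^ (29 * z + 170) := by
    have h2 : eta2 z ≤ 1 := by
      rw [eta2_eq]
      exact half_le_one _
    have h3 := X4_le z
    have h4 : eta2 z * (n4 z + 1) = (n4 z : ℝ) * eta2 z + eta2 z := by ring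
    rw [h4]
    linarith
  have h20 : 0 ≤ eta2 z * (n4 z + 1) := mul_nonneg (eta2_pos z).le (by positivity)
  have h10 : 0 ≤ eta1 z * (n2 z + 1) := mul_nonneg (eta1_pos z).le (by positivity)
  have h3 : eta1 z * (n2 z + 1) * (eta2 z * (n4 z + 1)) ≤ 2 ^ (33 * z + 191) := mul2' h20 h1 h2 (by omega)
  have e1 : eta1 z * (I.Λ * ((n2 z + 1) * (eta2 z * (n4 z + 1)))) =
      I.Λ * (eta1 z * (n2 z + 1) * (eta2 z * (n4 z + 1))) := by ring
  rw [e1]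
  exact mul2' (mul_nonneg h10 h20) h.lam h3 (by omega)

/-- **number of changes of the label of `(a, c)`** -/
theorem chgG_le (h : I.Small z) : 2 / eta1 z ^ 2 * (1 + I.p0) + I.p0 ≤ 2 ^ (5 * z + 29) :=
  add2 (upd_le h) h.p (by omega) (by omega)

/-- **number of changes of the label of `(a, b)`** -/
theorem chgF_le (h : I.Small z) : I.Λ + (4 / eta2 z ^ 2 + 2) * (I.Λ * nN z) ≤ 2 ^ (34 * z + 198) := by
  have hL := I.Λ1
  have h1 : 4 / eta2 z ^ 2 + 2 ≤ 2 ^ (12 * z + 69) := by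
    rw [eta2_eq]
    have e1 : ∀ x : ℝ, 4 / x ^ 2 = 2 ^ 2 * (1 / x ^ 2) := fun x => by ring
    rw [e1, one_div_sq, ← pow_add]
    have h0 : (2 : ℝ) ≤ 2 ^ 1 := by norm_num
    exact add2 (le_refl ((2 : ℝ) ^ (2 + 2 * (6 * z + 33)))) h0 (by omega) (by omega)
  have h2 : I.Λ * nN z ≤ 2 ^ (22 * z + 128) := by
    rw [nN_eq]
    exact mul2' (pow_pos2 _).le h.lam (le_refl ((2 : ℝ) ^ (21 * z + 128))) (by omega)
  have h20 : 0 ≤ I.Λ * nN z := mul_nonneg (by linarith) (nN_pos z).le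
  have h3 : (4 / eta2 z ^ 2 + 2) * (I.Λ * nN z) ≤ 2 ^ (34 * z + 197) := mul2' h20 h1 h2 (by omega)
  exact add2 h.lam h3 (by omega) (by omega)

/-- **ALL THE NUMERICAL BOUNDS FOR THE NUMBERS OF VALUES** -/
theorem numV (h : I.Small z) (hK1 : T1.K = 2 ^ (6 * z + 43)) (hK2 : T2.K = 2 ^ (35 * z + 212)) :
    (2 * (T1.K ^ 3 * (32 / etap z ^ 2 * (I.p0 + 1) / epsp z) +
      T1.K ^ 2 * (2 / eta1 z ^ 2 * ((1 + n2 z * eta1 z) ^ 2 + I.p0) / epsp z)) * I.Ms / (M z + 1) +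
      2 * T1.K ^ 2 * I.Ms / (M z + 1) ≤ (1 / 2) ^ (z + 2)) ∧
    ((2 * T2.K ^ 2 * (32 / etap2 z ^ 2 / epsp2 z) * (Nw z * ((I.p0 + 2) * Mc z ^ 2)) +
      2 * T2.K * (6 / eta2 z ^ 2 / epsp2 z) * (nN z * I.Ms)) / (M2 z + 1) +
      (2 * T1.K * I.Ms / (MA z + 1) + 2 * T1.K ^ 3 * I.Ms / (MN z + 1)) ≤ (1 / 2) ^ (z + 2)) ∧
    nG (n1 z : ℝ) (n2 z) (M z) (M z) + 1 ≤ 2 ^ (2 ^ (931 * z + 931)) ∧
    I.nF (nN z) (MA z) (MN z) (nH (n3 z : ℝ) (n4 z) (Nw z) (M2 z)) + 1 ≤ 2 ^ (2 ^ (931 * z + 931)) ∧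
    eta1 z * (I.Λ * ((n2 z + 1) * (eta2 z * (n4 z + 1)))) ≤ 2 ^ (931 * z + 931) ∧
    2 / eta1 z ^ 2 * (1 + I.p0) + I.p0 ≤ 2 ^ (931 * z + 931) ∧
    I.Λ + (4 / eta2 z ^ 2 + 2) * (I.Λ * nN z) ≤ 2 ^ (931 * z + 931) :=
  ⟨valsG_num h hK1, valsF_num h hK1 hK2, (nG_le z).trans (nle2 (nle2 (by omega))),
    (nF_le h).trans (nle2 (nle2 (by omega))), (PhiB_le h).trans (le2 (by omega)),
    (chgG_le h).trans (le2 (by omega)), (chgF_le h).trans (le2 (by omega))⟩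

end Inp

end

end Pool.Agent.M3.S2
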