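import Pool.Agent.M3.S2.LMi
import Pool.Agent.M3.S2.PubM
import Pool.Agent.M3.S2.Two
import Pool.Agent.M3.S2.Main
import Pool.Agent.M3.S2.NumV

/-!
# M3/S2/MainM (helper93) : section 2 in the model of section 0

`tri_K`, `tri_near` : the constants of the geometry; `tri_K1`, `tri_K2` for the two roundings `h1 z`, `h2 z`;
`tri_LM1`, `tri_LM2` : Lemma M' without the auxiliary geometry; `out_tri0` : `outN0` in the model;
**`out_tri`** : the output of section 2 in the model, only `I.Small z` is needed.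
-/

set_option autoImplicit false
set_option linter.unusedSectionVars false

namespace Pool.Agent.M3.Mod

open Finset Pool.Agent.PWZ Pool.Agent.M3.Bin Pool.Agent.M3.S2

variable {k N : ℕ} {Θ Ξ Q : Type} [Fintype Θ] [Nonempty Θ] [Fintype Ξ] [Nonempty Ξ] [Fintype Q] [Nonempty Q]
  {i j l : Fin 3} (hij : j ≠ i) (hli : l ≠ i) (hlj : l ≠ j) (hN : N ≤ k)

theorem tri_K (h : ℕ) : (tri Θ Ξ Q hij hli hlj hN h).K = 2 ^ (h + 5) := rfl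

theorem tri_near (h : ℕ) : (tri Θ Ξ Q hij hli hlj hN h).near = 8 / 2 ^ h := (div_eq_mul_inv _ _).symm

theorem tri_K1 (z : ℕ) : (tri Θ Ξ Q hij hli hlj hN (Num.h1 z)).K = 2 ^ (6 * z + 43) := rfl

theorem tri_K2 (z : ℕ) : (tri Θ Ξ Q hij hli hlj hN (Num.h2 z)).K = 2 ^ (35 * z + 212) := rfl

theorem h1_le_h2 (z : ℕ) : Num.h1 z ≤ Num.h2 z := by
  unfold Num.h1 Num.h2
  omega

theorem tri_LM1 (h : ℕ) :
    LM (tri Θ Ξ Q hij hli hlj hN h).P (fun w => ((tri Θ Ξ Q hij hli hlj hN h).xi w, (tri Θ Ξ Q hij hli hlj hN h).a w))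
      (tri Θ Ξ Q hij hli hlj hN h).b (tri Θ Ξ Q hij hli hlj hN h).n
      (fun t w => ((tri Θ Ξ Q hij hli hlj hN h).c w, (tri Θ Ξ Q hij hli hlj hN h).gm t w))
      (fun t w => ((tri Θ Ξ Q hij hli hlj hN h).c w, (tri Θ Ξ Q hij hli hlj hN h).gm t w))
      (fun t x => (tri Θ Ξ Q hij hli hlj hN h).ca t x.2) (tri Θ Ξ Q hij hli hlj hN h).cb
      (fun t g => (tri Θ Ξ Q hij hli hlj hN h).ρ t g.2) (fun t g => (tri Θ Ξ Q hij hli hlj hN h).ρ t g.2)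
      (tri Θ Ξ Q hij hli hlj hN h).J (tri Θ Ξ Q hij hli hlj hN h).near (tri Θ Ξ Q hij hli hlj hN h).K :=
  LM1 hij hli hlj hN h _ rfl

theorem tri_LM2 (h : ℕ) :
    LM (tri Θ Ξ Q hij hli hlj hN h).P (fun w => ((tri Θ Ξ Q hij hli hlj hN h).xi w, (tri Θ Ξ Q hij hli hlj hN h).a w))
      (fun w => ((tri Θ Ξ Q hij hli hlj hN h).b w, (tri Θ Ξ Q hij hli hlj hN h).c w))
      (tri Θ Ξ Q hij hli hlj hN h).n
      (fun t w => ((tri Θ Ξ Q hij hli hlj hN h).cb t ((tri Θ Ξ Q hij hli hlj hN h).b w),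
        (tri Θ Ξ Q hij hli hlj hN h).gm t w))
      (fun t w => (tri Θ Ξ Q hij hli hlj hN h).gm t w)
      (fun t x => (tri Θ Ξ Q hij hli hlj hN h).ca t x.2)
      (fun t y => ((tri Θ Ξ Q hij hli hlj hN h).cb t y.1, (tri Θ Ξ Q hij hli hlj hN h).cc t y.2))
      (fun t g => (tri Θ Ξ Q hij hli hlj hN h).ρ t g.2) (tri Θ Ξ Q hij hli hlj hN h).ρ
      (tri Θ Ξ Q hij hli hlj hN h).J (tri Θ Ξ Q hij hli hlj hN h).near (tri Θ Ξ Q hij hli hlj hN h).K :=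
  LM2 hij hli hlj hN h _ rfl

section out

variable {S : Type} [Fintype S] [DecidableEq S] {m : ℕ} [Nonempty (S → Fin m)]

open Pool.Agent.M3.S2.Num in
/-- **section 2 in the model** : `T1 = tri .. (h1 z)`, `T2 = tri .. (h2 z)`, public node of the view of `i` -/
theorem out_tri0 (z : ℕ) (I : Inp (tri Θ (S → Fin m) Q hij hli hlj hN (h1 z)) S) (h : I.Small z) (hm : 0 < m)
    (hS : Fintype.card S ≤ m) {Lam J : ℝ} {M' Mg M1 Mf MA MN : ℕ}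
    (hLam : eta1 z * (I.Λ * ((n2 z + 1) * (eta2 z * (n4 z + 1)))) ≤ Lam)
    (hJ1 : 2 / eta1 z ^ 2 * (1 + I.p0) + I.p0 ≤ J) (hJ2 : I.Λ + (4 / eta2 z ^ 2 + 2) * (I.Λ * nN z) ≤ J)
    (hMg : Inp.nG (n1 z) (n2 z) Mg M1 + 1 ≤ M') (hMf : I.nF (nN z) MA MN (nH (n3 z) (n4 z) (Nw z) Mf) + 1 ≤ M')
    (hqg : 2 * (((2 : ℝ) ^ (6 * z + 43)) ^ 3 * (32 / etap z ^ 2 * (I.p0 + 1) / epsp z) +
        ((2 : ℝ) ^ (6 * z + 43)) ^ 2 * (2 / eta1 z ^ 2 * ((1 + n2 z * eta1 z) ^ 2 + I.p0) / epsp z)) * I.Ms /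
          (Mg + 1) + 2 * ((2 : ℝ) ^ (6 * z + 43)) ^ 2 * I.Ms / (M1 + 1) ≤ (1 / 2) ^ z)
    (hqf : (2 * ((2 : ℝ) ^ (35 * z + 212)) ^ 2 * (32 / etap2 z ^ 2 / epsp2 z) *
          (Nw z * ((I.p0 + 2) * Mc z ^ 2)) +
        2 * (2 : ℝ) ^ (35 * z + 212) * (6 / eta2 z ^ 2 / epsp2 z) * (nN z * I.Ms)) / (Mf + 1) +
      (2 * (2 : ℝ) ^ (6 * z + 43) * I.Ms / (MA + 1) +
        2 * ((2 : ℝ) ^ (6 * z + 43)) ^ 3 * I.Ms / (MN + 1)) ≤ (1 / 2) ^ z) :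
    Nonempty (Out (tri Θ (S → Fin m) Q hij hli hlj hN (h2 z))
      (fun t (ω : Sp k N 3 Θ ((S → Fin m) × Q)) => Qn i (h2 z) (ex N t) ω) I.TT
      (I.E2n (fineTri Θ (S → Fin m) Q hij hli hlj hN (h1_le_h2 z))) ((1 / 2) ^ z) ((1 / 2) ^ z) Lam J M') :=
  I.outN0 (fineTri Θ (S → Fin m) Q hij hli hlj hN (h1_le_h2 z)) (pubM hij hli hlj hN (h2 z)) h hm hS
    (tri_K1 hij hli hlj hN z) (tri_K2 hij hli hlj hN z) (tri_near hij hli hlj hN (h1 z))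
    (tri_near hij hli hlj hN (h2 z)) (tri_LM1 hij hli hlj hN (h1 z)) (tri_LM2 hij hli hlj hN (h2 z))
    hLam hJ1 hJ2 hMg hMf hqg hqf

theorem half_mono (z : ℕ) : (1 / 2 : ℝ) ^ (z + 2) ≤ (1 / 2) ^ z :=
  pow_le_pow_of_le_one (by norm_num) (by norm_num) (by omega)

open Pool.Agent.M3.S2.Num in
/-- **SECTION 2 IN THE MODEL**, all numbers in terms of `z` -/
theorem out_tri (z : ℕ) (I : Inp (tri Θ (S → Fin m) Q hij hli hlj hN (h1 z)) S) (h : I.Small z) (hm : 0 < m)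
    (hS : Fintype.card S ≤ m) :
    Nonempty (Out (tri Θ (S → Fin m) Q hij hli hlj hN (h2 z))
      (fun t (ω : Sp k N 3 Θ ((S → Fin m) × Q)) => Qn i (h2 z) (ex N t) ω) I.TT
      (I.E2n (fineTri Θ (S → Fin m) Q hij hli hlj hN (h1_le_h2 z))) ((1 / 2) ^ z) ((1 / 2) ^ z)
      (2 ^ (931 * z + 931)) (2 ^ (931 * z + 931)) (2 ^ (2 ^ (931 * z + 931)))) := by
  obtain ⟨a1, a2, a3, a4, a5, a6, a7⟩ := Inp.numV (T2 := tri Θ (S → Fin m) Q hij hli hlj hN (h2 z)) h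
    (tri_K1 hij hli hlj hN z) (tri_K2 hij hli hlj hN z)
  exact out_tri0 hij hli hlj hN z I h hm hS a5 a6 a7 a3 a4 (a1.trans (half_mono z)) (a2.trans (half_mono z))

end out

end Pool.Agent.M3.Mod
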