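import Pool.Agent.M3.S2.AlphB

/-!
# M3/S2/Alph : letters and their number, the stable list of letters (helper52)

`pool1, pool12, poolA, pool2, pool22` : number of births (or public tests) at the compatible cells along the path
of `w` (natural numbers), `E_pool1 ..` their expectations.
`let1_cum, let1_cum2, let2_cum, let2_cum2` : cumulative finite sets of letters along a path.
`hl_*` : the stable list.  `lists_card` : number of the lists of length at most `r`.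
-/

set_option autoImplicit false

namespace Pool.Agent.M3.S2

open Finset Pool.Agent.PWZ Pool.Agent.M3.TS

noncomputable section

/-! ### number of lists -/

open Classical in
/-- number of the lists of length at most `r` -/
theorem lists_card {α : Type*} (f : Finset α) (r : ℕ) :
    ∃ g : Finset (List α), g.card ≤ (f.card + 1) ^ r ∧ ∀ l : List α, l.length ≤ r → (∀ x ∈ l, x ∈ f) → l ∈ g := by
  induction r with
  | zero =>
    refine ⟨{[]}, by simp, fun l h _ => ?_⟩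
    rw [Finset.mem_singleton]
    exact List.length_eq_zero_iff.1 (by omega)
  | succ r ih =>
    obtain ⟨g, h1, h2⟩ := ih
    refine ⟨(g ×ˢ Finset.insertNone f).image (fun p => match p.2 with
      | none => p.1
      | some x => x :: p.1), ?_, ?_⟩
    · calc _ ≤ (g ×ˢ Finset.insertNone f).card := Finset.card_image_le
        _ = g.card * (f.card + 1) := by rw [Finset.card_product, Finset.card_insertNone]
        _ ≤ (f.card + 1) ^ r * (f.card + 1) := Nat.mul_le_mul_right _ h1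
        _ = (f.card + 1) ^ (r + 1) := (pow_succ _ _).symm
    · intro l hl hf
      cases l with
      | nil =>
        exact Finset.mem_image.2 ⟨([], none), Finset.mem_product.2
          ⟨h2 [] (Nat.zero_le _) (fun x hx => absurd hx List.not_mem_nil), by simp⟩, rfl⟩
      | cons x l =>
        refine Finset.mem_image.2 ⟨(l, some x), Finset.mem_product.2 ⟨h2 l ?_ ?_, ?_⟩, rfl⟩
        · have := hl
          rw [List.length_cons] at this
          omega
        · exact fun y hy => hf y (List.mem_cons_of_mem _ hy)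
        · exact Finset.some_mem_insertNone.2 (hf x List.mem_cons_self)

/-! ### letters -/

section tri

variable {Om Ξ A B C V Γ κ : Type} [Fintype Om] [Fintype Ξ] [Fintype A] [Fintype B]
    [Fintype C] [Fintype V]

/-- the births before `lost`, in the form used by `val_cum` -/
theorem cumB_not_lost {𝒳 Γ κ : Type} [Fintype 𝒳] {nd : ℕ → Om → Γ} {par : ℕ → Γ → Γ}
    (hp : ∀ t w, par t (nd (t + 1) w) = nd t w) {cl : ℕ → 𝒳 → κ} {Bn : ℕ → Γ → κ → List (Finset 𝒳)} {n1 : ℝ} {t : ℕ}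
    {w : Om} {x : 𝒳} (h : ¬ lost par cl Bn n1 t (nd t w) x) :
    ∑ j ∈ range t, cnt (Bn (j + 1) (nd (j + 1) w) (cl (j + 1) x)) x ≤ n1 := by
  unfold lost at h
  rw [not_lt, cumB_nd hp Bn t w x, Finset.sum_range_succ'] at h
  exact (le_add_of_nonneg_right (cnt_nonneg _ _)).trans h

namespace Tri

variable (T : Tri Om Ξ A B C V Γ κ)

/-- births of the system of `c` (nodes `(c, g)`, vertex `b`) at the compatible cells along the path -/
def pool1 (Bn : ℕ → C × Γ → κ → List (Finset B)) (w : Om) : ℕ :=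
  ∑ t ∈ range T.n, ∑ k ∈ T.CB (t + 1) w, (Bn (t + 1) (T.c w, T.gm (t + 1) w) k).length

/-- the same, cells compatible in two steps -/
def pool12 (Bn : ℕ → C × Γ → κ → List (Finset B)) (w : Om) : ℕ :=
  ∑ t ∈ range T.n, ∑ k ∈ T.CB2 (t + 1) w, (Bn (t + 1) (T.c w, T.gm (t + 1) w) k).length

/-- length of lists at nodes `(c, g)` and compatible cells of `a` along the path (public tests) -/
def poolA {X : Type} (L : ℕ → C × Γ → κ → List X) (w : Om) : ℕ :=
  ∑ t ∈ range T.n, ∑ k ∈ T.CA (t + 1) w, (L (t + 1) (T.c w, T.gm (t + 1) w) k).length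

/-- births of the system of `(b, c)` (nodes `g`) at the compatible cells along the path -/
def pool2 (Bn : ℕ → Γ → κ × κ → List (Finset (B × C))) (w : Om) : ℕ :=
  ∑ t ∈ range T.n, ∑ k ∈ T.CC (t + 1) w, (Bn (t + 1) (T.gm (t + 1) w) (T.cb (t + 1) (T.b w), k)).length

/-- the same, cells compatible in two steps -/
def pool22 (Bn : ℕ → Γ → κ × κ → List (Finset (B × C))) (w : Om) : ℕ :=
  ∑ t ∈ range T.n, ∑ k ∈ T.CC2 (t + 1) w, (Bn (t + 1) (T.gm (t + 1) w) (T.cb (t + 1) (T.b w), k)).length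

theorem CA_nonempty (t : ℕ) (w : Om) : T.ca t (T.a w) ∈ T.CA t w := T.mem_CA'.2 ⟨w, rfl, rfl, rfl, rfl⟩

theorem CB_sub_CB2 (t : ℕ) (w : Om) : T.CB t w ⊆ T.CB2 t w := fun _ h =>
  T.mem_CB2.2 ⟨T.ca t (T.a w), ⟨w, rfl, rfl, rfl, rfl⟩, T.mem_CB.1 h⟩

theorem CC_sub_CC2 (t : ℕ) (w : Om) : T.CC t w ⊆ T.CC2 t w := fun _ h =>
  T.mem_CC2.2 ⟨T.ca t (T.a w), ⟨w, rfl, rfl, rfl, rfl⟩, T.mem_CC.1 h⟩

theorem pool1_le (Bn : ℕ → C × Γ → κ → List (Finset B)) (w : Om) : T.pool1 Bn w ≤ T.pool12 Bn w :=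
  Finset.sum_le_sum fun t _ => Finset.sum_le_sum_of_subset (T.CB_sub_CB2 (t + 1) w)

theorem pool2_le (Bn : ℕ → Γ → κ × κ → List (Finset (B × C))) (w : Om) : T.pool2 Bn w ≤ T.pool22 Bn w :=
  Finset.sum_le_sum fun t _ => Finset.sum_le_sum_of_subset (T.CC_sub_CC2 (t + 1) w)

theorem E_pool1 (Bn : ℕ → C × Γ → κ → List (Finset B)) :
    T.P.E (fun w => (T.pool1 Bn w : ℝ)) ≤
      T.K * births' T.P T.b T.n (fun t w => (T.c w, T.gm t w)) T.cb Bn := by
  unfold pool1 births'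
  simp only [Nat.cast_sum]
  rw [T.P.E_sum, Finset.mul_sum]
  exact Finset.sum_le_sum fun t _ => T.E_CB_c (t + 1) (fun y k => ((Bn (t + 1) y k).length : ℝ))
    (fun _ _ => Nat.cast_nonneg _)

theorem E_pool12 (Bn : ℕ → C × Γ → κ → List (Finset B)) :
    T.P.E (fun w => (T.pool12 Bn w : ℝ)) ≤
      T.K ^ 2 * births' T.P T.b T.n (fun t w => (T.c w, T.gm t w)) T.cb Bn := by
  unfold pool12 births'
  simp only [Nat.cast_sum]
  rw [T.P.E_sum, Finset.mul_sum]
  exact Finset.sum_le_sum fun t _ => T.E_CB2_c (t + 1) (fun y k => ((Bn (t + 1) y k).length : ℝ))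
    (fun _ _ => Nat.cast_nonneg _)

theorem E_poolA {X : Type} (L : ℕ → C × Γ → κ → List X) :
    T.P.E (fun w => (T.poolA L w : ℝ)) ≤
      T.K * ∑ t ∈ range T.n, T.P.E (fun w => ((L (t + 1) (T.c w, T.gm (t + 1) w) (T.ca (t + 1) (T.a w))).length : ℝ)) := by
  unfold poolA
  simp only [Nat.cast_sum]
  rw [T.P.E_sum, Finset.mul_sum]
  exact Finset.sum_le_sum fun t _ => T.E_CA_c (t + 1) (fun y k => ((L (t + 1) y k).length : ℝ))
    (fun _ _ => Nat.cast_nonneg _)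

theorem E_pool2 (Bn : ℕ → Γ → κ × κ → List (Finset (B × C))) :
    T.P.E (fun w => (T.pool2 Bn w : ℝ)) ≤
      T.K * births' T.P (fun w => (T.b w, T.c w)) T.n T.gm (fun t y => (T.cb t y.1, T.cc t y.2)) Bn := by
  unfold pool2 births'
  simp only [Nat.cast_sum]
  rw [T.P.E_sum, Finset.mul_sum]
  exact Finset.sum_le_sum fun t _ => T.E_CC_b (t + 1)
    (fun y k => ((Bn (t + 1) y.2 (T.cb (t + 1) y.1, k)).length : ℝ)) (fun _ _ => Nat.cast_nonneg _)

theorem E_pool22 (Bn : ℕ → Γ → κ × κ → List (Finset (B × C))) :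
    T.P.E (fun w => (T.pool22 Bn w : ℝ)) ≤
      T.K ^ 2 * births' T.P (fun w => (T.b w, T.c w)) T.n T.gm (fun t y => (T.cb t y.1, T.cc t y.2)) Bn := by
  unfold pool22 births'
  simp only [Nat.cast_sum]
  rw [T.P.E_sum, Finset.mul_sum]
  exact Finset.sum_le_sum fun t _ => T.E_CC2_b (t + 1)
    (fun y k => ((Bn (t + 1) y.2 (T.cb (t + 1) y.1, k)).length : ℝ)) (fun _ _ => Nat.cast_nonneg _)

end Tri

end tri

/-! ### cumulative sets of letters -/

section inp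

variable {Om A B C V Γ κ S : Type} [Fintype Om] [Fintype A] [Fintype B] [Fintype C] [Fintype V]
  [Fintype S] [DecidableEq S] {m : ℕ} {T : Tri Om (S → Fin m) A B C V Γ κ}

namespace Inp

theorem let1_cum {F : S → ℕ → C × Γ → B → V → ℝ} {Bn : S → ℕ → C × Γ → κ → List (Finset B)} (s : S)
    (hl : LMeas T.n (fun t w => (T.c w, T.gm t w)) T.cb (Bn s) (F s)) (n1 : ℝ) (w : Om) :
    ∃ f : Finset (V → ℝ), f.card ≤ (T.pool1 (Bn s) w + 1) ^ ⌊n1⌋₊ ∧
      ∀ t ≤ T.n, ∀ h ∈ let1 (T := T) F Bn n1 s t w, h ∈ f := by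
  obtain ⟨f, h1, h2⟩ := val_cum hl w le_rfl (fun t => T.CB t w) n1
  refine ⟨f, h1, ?_⟩
  rintro t ht h ⟨b', h3, h4, rfl⟩
  have hp : ∀ t w, (fun t (g : C × Γ) => (g.1, T.par t g.2)) t ((fun t w => (T.c w, T.gm t w)) (t + 1) w) =
      (fun t w => (T.c w, T.gm t w)) t w := fun t w => by
    show (T.c w, T.par t (T.gm (t + 1) w)) = (T.c w, T.gm t w)
    rw [T.par_gm]
  refine h2 t ht b' (fun j hj => ?_) (cumB_not_lost (nd := fun t w => (T.c w, T.gm t w)) hp h4)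
  exact T.mem_CB.2 (T.Rz_anc (by omega) h3)

/-- the letters at all the `w'` with the same cell of `b`, vertex `c` and node -/
theorem let1_cum2 {F : S → ℕ → C × Γ → B → V → ℝ} {Bn : S → ℕ → C × Γ → κ → List (Finset B)} (s : S)
    (hl : LMeas T.n (fun t w => (T.c w, T.gm t w)) T.cb (Bn s) (F s)) (n1 : ℝ) (w : Om) :
    ∃ f : Finset (V → ℝ), f.card ≤ (T.pool12 (Bn s) w + 1) ^ ⌊n1⌋₊ ∧
      ∀ t ≤ T.n, ∀ w', T.cb t (T.b w') = T.cb t (T.b w) → T.c w' = T.c w → T.gm t w' = T.gm t w →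
        ∀ h ∈ let1 (T := T) F Bn n1 s t w', h ∈ f := by
  obtain ⟨f, h1, h2⟩ := val_cum hl w le_rfl (fun t => T.CB2 t w) n1
  refine ⟨f, h1, ?_⟩
  rintro t ht w' hw1 hw2 hw3 h ⟨b', h3, h4, rfl⟩
  have hp : ∀ t w, (fun t (g : C × Γ) => (g.1, T.par t g.2)) t ((fun t w => (T.c w, T.gm t w)) (t + 1) w) =
      (fun t w => (T.c w, T.gm t w)) t w := fun t w => by
    show (T.c w, T.par t (T.gm (t + 1) w)) = (T.c w, T.gm t w)
    rw [T.par_gm]
  rw [hw2, hw3] at h3 h4 ⊢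
  refine h2 t ht b' (fun j hj => ?_) (cumB_not_lost (nd := fun t w => (T.c w, T.gm t w)) hp h4)
  have hj' : j + 1 ≤ t := by omega
  refine T.mem_CB2.2 ⟨T.ca (j + 1) (T.a w'), ?_, T.Rz_anc hj' h3⟩
  refine T.Rz_anc hj' ⟨w', rfl, hw1, by rw [hw2], hw3⟩

theorem let2_cum {F : S → S → ℕ → ℕ → Γ → B × C → V → ℝ}
    {Bn : S → S → ℕ → ℕ → Γ → κ × κ → List (Finset (B × C))} (s s' : S) {Nw : ℕ}
    (hl : ∀ i < Nw, LMeas T.n T.gm (fun t (y : B × C) => (T.cb t y.1, T.cc t y.2)) (Bn s s' i) (F s s' i))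
    (n3 : ℝ) (w : Om) :
    ∃ f : Finset (V → ℝ), f.card ≤ ∑ i ∈ range Nw, (T.pool2 (Bn s s' i) w + 1) ^ ⌊n3⌋₊ ∧
      ∀ t ≤ T.n, ∀ h ∈ let2 (T := T) F Bn Nw n3 s s' t w, h ∈ f := by
  classical
  have h0 : ∀ i, ∃ f : Finset (V → ℝ), i < Nw → (f.card ≤ (T.pool2 (Bn s s' i) w + 1) ^ ⌊n3⌋₊ ∧
      ∀ t ≤ T.n, ∀ y : B × C, T.cb t y.1 = T.cb t (T.b w) →
        T.Rz t (T.ca t (T.a w)) (T.cb t y.1) (T.cc t y.2) (T.gm t w) →
        ¬ lost T.par (fun t (y : B × C) => (T.cb t y.1, T.cc t y.2)) (Bn s s' i) n3 t (T.gm t w) y →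
        F s s' i t (T.gm t w) y ∈ f) := by
    intro i
    by_cases hi : i < Nw
    · obtain ⟨f, h1, h2⟩ := val_cum (hl i hi) w le_rfl
        (fun t => (T.CC t w).image (fun k => (T.cb t (T.b w), k))) n3
      refine ⟨f, fun _ => ⟨h1.trans (Nat.pow_le_pow_left (Nat.add_le_add_right ?_ 1) _), ?_⟩⟩
      · refine Finset.sum_le_sum fun t _ => le_of_eq ?_
        rw [Finset.sum_image (fun _ _ _ _ h => (Prod.mk.inj h).2)]
      · intro t ht y h3 h4 h5
        refine h2 t ht y (fun j hj => ?_) (cumB_not_lost T.par_gm h5)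
        have hj' : j + 1 ≤ t := by omega
        refine Finset.mem_image.2 ⟨T.cc (j + 1) y.2, ?_, ?_⟩
        · rw [h3] at h4
          exact T.mem_CC.2 (T.Rz_anc hj' h4)
        · rw [nest_le T.nb hj' h3]
    · exact ⟨∅, fun h => absurd h hi⟩
  choose f hf using h0
  refine ⟨(range Nw).biUnion f, ?_, ?_⟩
  · exact Finset.card_biUnion_le.trans (Finset.sum_le_sum fun i hi => (hf i (Finset.mem_range.1 hi)).1)
  · rintro t ht h ⟨i, hi, y, h3, h4, h5, rfl⟩
    exact Finset.mem_biUnion.2 ⟨i, Finset.mem_range.2 hi, (hf i hi).2 t ht y h3 h4 h5⟩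

/-- the letters at all the `w'` with the same cells of `b`, `c` and the same node -/
theorem let2_cum2 {F : S → S → ℕ → ℕ → Γ → B × C → V → ℝ}
    {Bn : S → S → ℕ → ℕ → Γ → κ × κ → List (Finset (B × C))} (s s' : S) {Nw : ℕ}
    (hl : ∀ i < Nw, LMeas T.n T.gm (fun t (y : B × C) => (T.cb t y.1, T.cc t y.2)) (Bn s s' i) (F s s' i))
    (n3 : ℝ) (w : Om) :
    ∃ f : Finset (V → ℝ), f.card ≤ ∑ i ∈ range Nw, (T.pool22 (Bn s s' i) w + 1) ^ ⌊n3⌋₊ ∧
      ∀ t ≤ T.n, ∀ w', T.cb t (T.b w') = T.cb t (T.b w) → T.cc t (T.c w') = T.cc t (T.c w) →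
        T.gm t w' = T.gm t w → ∀ h ∈ let2 (T := T) F Bn Nw n3 s s' t w', h ∈ f := by
  classical
  have h0 : ∀ i, ∃ f : Finset (V → ℝ), i < Nw → (f.card ≤ (T.pool22 (Bn s s' i) w + 1) ^ ⌊n3⌋₊ ∧
      ∀ t ≤ T.n, ∀ w', T.cb t (T.b w') = T.cb t (T.b w) → T.cc t (T.c w') = T.cc t (T.c w) →
        T.gm t w' = T.gm t w → ∀ y : B × C, T.cb t y.1 = T.cb t (T.b w) →
        T.Rz t (T.ca t (T.a w')) (T.cb t y.1) (T.cc t y.2) (T.gm t w) →
        ¬ lost T.par (fun t (y : B × C) => (T.cb t y.1, T.cc t y.2)) (Bn s s' i) n3 t (T.gm t w) y →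
        F s s' i t (T.gm t w) y ∈ f) := by
    intro i
    by_cases hi : i < Nw
    · obtain ⟨f, h1, h2⟩ := val_cum (hl i hi) w le_rfl
        (fun t => (T.CC2 t w).image (fun k => (T.cb t (T.b w), k))) n3
      refine ⟨f, fun _ => ⟨h1.trans (Nat.pow_le_pow_left (Nat.add_le_add_right ?_ 1) _), ?_⟩⟩
      · refine Finset.sum_le_sum fun t _ => le_of_eq ?_
        rw [Finset.sum_image (fun _ _ _ _ h => (Prod.mk.inj h).2)]
      · intro t ht w' hw1 hw2 hw3 y h3 h4 h5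
        refine h2 t ht y (fun j hj => ?_) (cumB_not_lost T.par_gm h5)
        have hj' : j + 1 ≤ t := by omega
        refine Finset.mem_image.2 ⟨T.cc (j + 1) y.2, ?_, ?_⟩
        · rw [h3] at h4
          refine T.mem_CC2.2 ⟨T.ca (j + 1) (T.a w'), ?_, T.Rz_anc hj' h4⟩
          exact T.Rz_anc hj' ⟨w', rfl, hw1, hw2, hw3⟩
        · rw [nest_le T.nb hj' h3]
    · exact ⟨∅, fun h => absurd h hi⟩
  choose f hf using h0
  refine ⟨(range Nw).biUnion f, ?_, ?_⟩
  · exact Finset.card_biUnion_le.trans (Finset.sum_le_sum fun i hi => (hf i (Finset.mem_range.1 hi)).1)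
  · rintro t ht w' hw1 hw2 hw3 h ⟨i, hi, y, h3, h4, h5, rfl⟩
    rw [hw3] at h4 h5 ⊢
    exact Finset.mem_biUnion.2 ⟨i, Finset.mem_range.2 hi,
      (hf i hi).2 t ht w' hw1 hw2 hw3 y (h3.trans hw1) h4 h5⟩

end Inp

end inp

end

end Pool.Agent.M3.S2
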