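import Pool.Agent.M3.S2.Def

/-!
# M3/S2/AlphA : number of values of a label which is a function of the births on a path (helper52)

`small_card` : number of subsets with at most `r` elements.
`val_card` : a label which changes only at births (`LMeas`) takes at most `(pool + 1) ^ r` values on the individuals
in compatible cells with at most `r` births; `pool` = number of births in the compatible cells along the path.
-/

set_option autoImplicit false

namespace Pool.Agent.M3.S2

open Finset Pool.Agent.PWZ Pool.Agent.M3.TS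

noncomputable section

open Classical in
/-- number of the subsets with at most `r` elements -/
theorem small_card {α : Type*} (s : Finset α) (r : ℕ) :
    (s.powerset.filter (fun u => u.card ≤ r)).card ≤ (s.card + 1) ^ r := by
  induction r with
  | zero =>
    refine le_of_eq_of_le (b := 1) ?_ (by simp)
    rw [Finset.card_eq_one]
    refine ⟨∅, ?_⟩
    ext u
    simp only [Finset.mem_filter, Finset.mem_powerset, Finset.mem_singleton, Nat.le_zero, Finset.card_eq_zero]
    constructor
    · exact fun h => h.2
    · rintro rfl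
      exact ⟨Finset.empty_subset _, rfl⟩
  | succ r ih =>
    have hsub : s.powerset.filter (fun u => u.card ≤ r + 1) ⊆
        ((s.powerset.filter (fun u => u.card ≤ r)) ×ˢ (Finset.insertNone s)).image
          (fun p => match p.2 with
            | none => p.1
            | some x => insert x p.1) := by
      intro u hu
      obtain ⟨h1, h2⟩ := Finset.mem_filter.1 hu
      rw [Finset.mem_powerset] at h1
      by_cases h3 : u.card ≤ r
      · refine Finset.mem_image.2 ⟨(u, none), ?_, rfl⟩
        rw [Finset.mem_product]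
        exact ⟨Finset.mem_filter.2 ⟨Finset.mem_powerset.2 h1, h3⟩, by simp⟩
      · have h4 : u.Nonempty := by
          rw [← Finset.card_pos]
          omega
        obtain ⟨x, hx⟩ := h4
        refine Finset.mem_image.2 ⟨(u.erase x, some x), ?_, ?_⟩
        · rw [Finset.mem_product]
          refine ⟨Finset.mem_filter.2 ⟨Finset.mem_powerset.2 ((Finset.erase_subset _ _).trans h1), ?_⟩, ?_⟩
          · show (u.erase x).card ≤ r
            rw [Finset.card_erase_of_mem hx]
            omega
          · simpa using h1 hx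
        · exact Finset.insert_erase hx
    calc (s.powerset.filter (fun u => u.card ≤ r + 1)).card
        ≤ (((s.powerset.filter (fun u => u.card ≤ r)) ×ˢ (Finset.insertNone s)).image
          (fun p => match p.2 with
            | none => p.1
            | some x => insert x p.1)).card := Finset.card_le_card hsub
      _ ≤ ((s.powerset.filter (fun u => u.card ≤ r)) ×ˢ (Finset.insertNone s)).card := Finset.card_image_le
      _ = (s.powerset.filter (fun u => u.card ≤ r)).card * (s.card + 1) := by
        rw [Finset.card_product, Finset.card_insertNone]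
      _ ≤ (s.card + 1) ^ r * (s.card + 1) := Nat.mul_le_mul_right _ ih
      _ = (s.card + 1) ^ (r + 1) := (pow_succ _ _).symm

/-! ### codes -/

section code

variable {𝒳 Γ κ β : Type*}

open Classical in
/-- positions of the list which contain `x` -/
def posn (L : List (Finset 𝒳)) (x : 𝒳) : Finset ℕ :=
  (range L.length).filter (fun j => ∃ S, L[j]? = some S ∧ x ∈ S)

theorem mem_posn {L : List (Finset 𝒳)} {x : 𝒳} {j : ℕ} : j ∈ posn L x ↔ ∃ S, L[j]? = some S ∧ x ∈ S := by
  classical
  unfold posn
  rw [Finset.mem_filter, Finset.mem_range]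
  constructor
  · exact fun h => h.2
  · rintro ⟨S, h1, h2⟩
    refine ⟨?_, S, h1, h2⟩
    by_contra h3
    rw [List.getElem?_eq_none (by omega)] at h1
    exact absurd h1 (by simp)

theorem card_posn (L : List (Finset 𝒳)) (x : 𝒳) : ((posn L x).card : ℝ) = TS.cnt L x := by
  classical
  induction L with
  | nil =>
    have : posn ([] : List (Finset 𝒳)) x = ∅ := by
      ext j
      rw [mem_posn]
      simp
    rw [this]
    simp [TS.cnt]
  | cons S L ih =>
    have h1 : posn (S :: L) x = (if x ∈ S then {0} else ∅) ∪ (posn L x).image (· + 1) := by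
      ext j
      rw [mem_posn, Finset.mem_union, Finset.mem_image]
      cases j with
      | zero =>
        simp only [List.getElem?_cons_zero, Option.some.injEq, exists_eq_left']
        constructor
        · intro h
          left
          rw [if_pos h]
          simp
        · rintro (h | ⟨j, _, hj⟩)
          · by_contra h2
            rw [if_neg h2] at h
            simp at h
          · omega
      | succ j =>
        simp only [List.getElem?_cons_succ]
        constructor
        · intro h
          right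
          exact ⟨j, mem_posn.2 h, rfl⟩
        · rintro (h | ⟨j', h1, h2⟩)
          · by_cases h2 : x ∈ S
            · rw [if_pos h2] at h
              simp at h
            · rw [if_neg h2] at h
              simp at h
          · have : j' = j := by omega
            subst this
            exact mem_posn.1 h1
    have h2 : Disjoint (if x ∈ S then ({0} : Finset ℕ) else ∅) ((posn L x).image (· + 1)) := by
      rw [Finset.disjoint_left]
      intro j hj hj'
      obtain ⟨j', -, h4⟩ := Finset.mem_image.1 hj'
      by_cases h3 : x ∈ S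
      · rw [if_pos h3, Finset.mem_singleton] at hj
        omega
      · rw [if_neg h3] at hj
        simp at hj
    rw [h1, Finset.card_union_of_disjoint h2, Finset.card_image_of_injective _ (fun a b h => by simpa using h)]
    have h3 : TS.cnt (S :: L) x = ind (x ∈ S) + TS.cnt L x := by
      unfold TS.cnt
      rw [List.map_cons, List.sum_cons]
    rw [h3, ← ih]
    push_cast
    congr 1
    by_cases h4 : x ∈ S
    · rw [if_pos h4, ind_of h4]
      simp
    · rw [if_neg h4, ind_not h4]
      simp

open Classical in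
/-- the births which contain `x`, on the path `g`, before the time `N` -/
def codeF (g : ℕ → Γ) (cl : ℕ → 𝒳 → κ) (B : ℕ → Γ → κ → List (Finset 𝒳)) (N : ℕ) (x : 𝒳) : Finset (ℕ × κ × ℕ) :=
  (range N).biUnion fun t =>
    (posn (B (t + 1) (g (t + 1)) (cl (t + 1) x)) x).image (fun j => (t, cl (t + 1) x, j))

open Classical in
/-- all the births in the cells `Sc`, on the path `g`, before the time `N` -/
def poolF (g : ℕ → Γ) (B : ℕ → Γ → κ → List (Finset 𝒳)) (Sc : ℕ → Finset κ) (N : ℕ) : Finset (ℕ × κ × ℕ) :=
  (range N).biUnion fun t => (Sc (t + 1)).biUnion fun k =>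
    (range (B (t + 1) (g (t + 1)) k).length).image (fun j => (t, k, j))

theorem mem_codeF {g : ℕ → Γ} {cl : ℕ → 𝒳 → κ} {B : ℕ → Γ → κ → List (Finset 𝒳)} {N : ℕ} {x : 𝒳} {t : ℕ} {k : κ}
    {j : ℕ} : (t, k, j) ∈ codeF g cl B N x ↔ t < N ∧ k = cl (t + 1) x ∧
      j ∈ posn (B (t + 1) (g (t + 1)) (cl (t + 1) x)) x := by
  classical
  unfold codeF
  rw [Finset.mem_biUnion]
  constructor
  · rintro ⟨t', h1, h2⟩
    obtain ⟨j', h3, h4⟩ := Finset.mem_image.1 h2
    simp only [Prod.mk.injEq] at h4
    obtain ⟨rfl, rfl, rfl⟩ := h4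
    exact ⟨Finset.mem_range.1 h1, rfl, h3⟩
  · rintro ⟨h1, rfl, h3⟩
    exact ⟨t, Finset.mem_range.2 h1, Finset.mem_image.2 ⟨j, h3, rfl⟩⟩

theorem card_codeF (g : ℕ → Γ) (cl : ℕ → 𝒳 → κ) (B : ℕ → Γ → κ → List (Finset 𝒳)) (N : ℕ) (x : 𝒳) :
    ((codeF g cl B N x).card : ℝ) ≤ ∑ t ∈ range N, TS.cnt (B (t + 1) (g (t + 1)) (cl (t + 1) x)) x := by
  classical
  have h1 : (codeF g cl B N x).card ≤
      ∑ t ∈ range N, (posn (B (t + 1) (g (t + 1)) (cl (t + 1) x)) x).card := by
    refine Finset.card_biUnion_le.trans (Finset.sum_le_sum fun t _ => Finset.card_image_le)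
  calc ((codeF g cl B N x).card : ℝ) ≤
      ((∑ t ∈ range N, (posn (B (t + 1) (g (t + 1)) (cl (t + 1) x)) x).card : ℕ) : ℝ) := by exact_mod_cast h1
    _ = _ := by
      push_cast
      exact Finset.sum_congr rfl fun t _ => card_posn _ _

theorem card_poolF (g : ℕ → Γ) (B : ℕ → Γ → κ → List (Finset 𝒳)) (Sc : ℕ → Finset κ) (N : ℕ) :
    (poolF g B Sc N).card ≤ ∑ t ∈ range N, ∑ k ∈ Sc (t + 1), (B (t + 1) (g (t + 1)) k).length := by
  classical
  refine Finset.card_biUnion_le.trans (Finset.sum_le_sum fun t _ => ?_)
  refine Finset.card_biUnion_le.trans (Finset.sum_le_sum fun k _ => ?_)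
  exact Finset.card_image_le.trans (le_of_eq (Finset.card_range _))

theorem codeF_sub {g : ℕ → Γ} {cl : ℕ → 𝒳 → κ} {B : ℕ → Γ → κ → List (Finset 𝒳)} {Sc : ℕ → Finset κ} {N : ℕ}
    {x : 𝒳} (hx : ∀ t < N, cl (t + 1) x ∈ Sc (t + 1)) : codeF g cl B N x ⊆ poolF g B Sc N := by
  classical
  rintro ⟨t, k, j⟩ h
  obtain ⟨h1, rfl, h3⟩ := mem_codeF.1 h
  unfold poolF
  rw [Finset.mem_biUnion]
  refine ⟨t, Finset.mem_range.2 h1, ?_⟩
  rw [Finset.mem_biUnion]
  refine ⟨_, hx t h1, Finset.mem_image.2 ⟨j, ?_, rfl⟩⟩
  exact (Finset.mem_filter.1 h3).1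

variable {Om : Type*} {n : ℕ} {nd : ℕ → Om → Γ} {cl : ℕ → 𝒳 → κ} {B : ℕ → Γ → κ → List (Finset 𝒳)}
  {lam : ℕ → Γ → 𝒳 → β}

/-- the label is a function of the code -/
theorem lab_of_code (hlam : LMeas n nd cl B lam) (w : Om) {N : ℕ} (hN : N ≤ n) {x x' : 𝒳}
    (h : codeF (fun t => nd t w) cl B N x = codeF (fun t => nd t w) cl B N x') :
    lam N (nd N w) x = lam N (nd N w) x' := by
  have key : ∀ M ≤ N, lam M (nd M w) x = lam M (nd M w) x' := by
    intro M
    induction M with
    | zero => exact fun _ => hlam.zero w w x x'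
    | succ M ih =>
      intro hM
      have ih' := ih (by omega)
      have hin : ∀ y y' : 𝒳, codeF (fun t => nd t w) cl B N y = codeF (fun t => nd t w) cl B N y' →
          (∃ S ∈ B (M + 1) (nd (M + 1) w) (cl (M + 1) y), y ∈ S) → cl (M + 1) y = cl (M + 1) y' := by
        rintro y y' hyy ⟨S, hS, hyS⟩
        obtain ⟨j, hj, hjS⟩ := List.mem_iff_getElem.1 hS
        have hp : j ∈ posn (B (M + 1) (nd (M + 1) w) (cl (M + 1) y)) y :=
          mem_posn.2 ⟨S, by rw [List.getElem?_eq_getElem hj, hjS], hyS⟩
        have h2 : (M, cl (M + 1) y, j) ∈ codeF (fun t => nd t w) cl B N y := mem_codeF.2 ⟨by omega, rfl, hp⟩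
        rw [hyy] at h2
        exact (mem_codeF.1 h2).2.1
      by_cases hb : ∃ S ∈ B (M + 1) (nd (M + 1) w) (cl (M + 1) x), x ∈ S
      · have hc := hin x x' h hb
        refine hlam.same M (by omega) w x x' hc ih' ?_
        intro S hS
        obtain ⟨j, hj, hjS⟩ := List.mem_iff_getElem.1 hS
        have hj? : (B (M + 1) (nd (M + 1) w) (cl (M + 1) x))[j]? = some S := by
          rw [List.getElem?_eq_getElem hj, hjS]
        have e1 : ∀ y : 𝒳, cl (M + 1) y = cl (M + 1) x →
            (y ∈ S ↔ (M, cl (M + 1) x, j) ∈ codeF (fun t => nd t w) cl B N y) := by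
          intro y hy
          rw [mem_codeF, mem_posn, hy]
          constructor
          · exact fun h => ⟨by omega, rfl, S, hj?, h⟩
          · rintro ⟨-, -, S', h1, h2⟩
            have h3 : (B (M + 1) (nd (M + 1) w) (cl (M + 1) x))[j]? = some S' := h1
            rw [hj?] at h3
            rwa [Option.some.inj h3]
        rw [e1 x rfl, e1 x' hc.symm, h]
      · have hb' : ¬ ∃ S ∈ B (M + 1) (nd (M + 1) w) (cl (M + 1) x'), x' ∈ S := by
          intro hb'
          have hc := hin x' x h.symm hb'
          obtain ⟨S, hS, hxS⟩ := hb'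
          obtain ⟨j, hj, hjS⟩ := List.mem_iff_getElem.1 hS
          have hp : j ∈ posn (B (M + 1) (nd (M + 1) w) (cl (M + 1) x')) x' :=
            mem_posn.2 ⟨S, by rw [List.getElem?_eq_getElem hj, hjS], hxS⟩
          have h2 : (M, cl (M + 1) x', j) ∈ codeF (fun t => nd t w) cl B N x' := mem_codeF.2 ⟨by omega, rfl, hp⟩
          rw [← h] at h2
          have h3 := (mem_codeF.1 h2).2.2
          obtain ⟨S', h4, h5⟩ := mem_posn.1 h3
          exact hb ⟨S', List.mem_of_getElem? h4, h5⟩
        push Not at hb hb'
        have s1 := hlam.stay M (by omega) w x hb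
        have s2 := hlam.stay M (by omega) w x' hb'
        rw [s1, s2, ih']
  exact key N le_rfl

/-- number of values of a label on the individuals in the cells `Sc` with at most `r` births -/
theorem val_card (hlam : LMeas n nd cl B lam) (w : Om) {N : ℕ} (hN : N ≤ n) (Sc : ℕ → Finset κ) (r : ℕ) :
    ∃ s : Finset β, s.card ≤ ((∑ t ∈ range N, ∑ k ∈ Sc (t + 1), (B (t + 1) (nd (t + 1) w) k).length) + 1) ^ r ∧
      ∀ x, (∀ t < N, cl (t + 1) x ∈ Sc (t + 1)) →
        ∑ t ∈ range N, TS.cnt (B (t + 1) (nd (t + 1) w) (cl (t + 1) x)) x ≤ (r : ℝ) →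
        lam N (nd N w) x ∈ s := by
  classical
  set pool := poolF (fun t => nd t w) B Sc N with hpool
  let good : 𝒳 → Prop := fun x => (∀ t < N, cl (t + 1) x ∈ Sc (t + 1)) ∧
    ∑ t ∈ range N, TS.cnt (B (t + 1) (nd (t + 1) w) (cl (t + 1) x)) x ≤ (r : ℝ)
  let pick : Finset (ℕ × κ × ℕ) → Finset β := fun u =>
    if h : ∃ x, codeF (fun t => nd t w) cl B N x = u then {lam N (nd N w) h.choose} else ∅
  have hpick : ∀ u, (pick u).card ≤ 1 := by
    intro u
    show (if h : ∃ x, codeF (fun t => nd t w) cl B N x = u then ({lam N (nd N w) h.choose} : Finset β) else ∅).card ≤ 1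
    split_ifs with h
    · simp
    · simp
  refine ⟨(pool.powerset.filter (fun u => u.card ≤ r)).biUnion pick, ?_, ?_⟩
  · calc ((pool.powerset.filter (fun u => u.card ≤ r)).biUnion pick).card
        ≤ ∑ u ∈ pool.powerset.filter (fun u => u.card ≤ r), (pick u).card := Finset.card_biUnion_le
      _ ≤ ∑ u ∈ pool.powerset.filter (fun u => u.card ≤ r), 1 := Finset.sum_le_sum fun u _ => hpick u
      _ = (pool.powerset.filter (fun u => u.card ≤ r)).card := by simp
      _ ≤ (pool.card + 1) ^ r := small_card pool r
      _ ≤ _ := Nat.pow_le_pow_left (Nat.add_le_add_right (card_poolF _ B Sc N) 1) r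
  · intro x hx1 hx2
    rw [Finset.mem_biUnion]
    refine ⟨codeF (fun t => nd t w) cl B N x, ?_, ?_⟩
    · rw [Finset.mem_filter, Finset.mem_powerset]
      refine ⟨codeF_sub hx1, ?_⟩
      have h1 := (card_codeF (fun t => nd t w) cl B N x).trans hx2
      exact_mod_cast h1
    · have hex : ∃ y, codeF (fun t => nd t w) cl B N y = codeF (fun t => nd t w) cl B N x := ⟨x, rfl⟩
      show lam N (nd N w) x ∈ (if h : ∃ y, codeF (fun t => nd t w) cl B N y = codeF (fun t => nd t w) cl B N x
        then ({lam N (nd N w) h.choose} : Finset β) else ∅)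
      rw [dif_pos hex, Finset.mem_singleton]
      exact (lab_of_code hlam w hN hex.choose_spec).symm

end code

end

end Pool.Agent.M3.S2
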