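import Pool.Agent.M3.S2.NamT
import Pool.Agent.M3.S2.AlphA

/-!
# M3/S2/AlphB : cumulative number of values, compatible cells and their number in the mean (helper52)

* `val_cum` : cumulative version of `val_card` (all the times up to `N`).
* `count_E` : expectation of a sum over the compatible cells.
* `Tri.CA, CB, CC` : finite sets of compatible cells (`CB2, CC2` : two steps), `mem_CA ..`, `card_CA ..`;
  the counts `E_CB_c, E_CA_c, E_CC_b, E_CA_b, E_CB_a, E_CC_a` (`E_CX_y` : cells of `X`, known vertex `y`), `E_CB2_c, E_CC2_b`.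
-/

set_option autoImplicit false

namespace Pool.Agent.M3.S2

open Finset Pool.Agent.PWZ Pool.Agent.M3.TS

noncomputable section

/-! ### cumulative number of values -/

section gen

variable {Om 𝒳 Γ κ β : Type*} {n : ℕ} {nd : ℕ → Om → Γ} {cl : ℕ → 𝒳 → κ} {B : ℕ → Γ → κ → List (Finset 𝒳)}
  {lam : ℕ → Γ → 𝒳 → β}

/-- without births the label does not change -/
theorem lab_stay (hlam : LMeas n nd cl B lam) (w : Om) {M N : ℕ} (h : M ≤ N) (hN : N ≤ n) {x : 𝒳}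
    (hx : ∀ t, M ≤ t → t < N → ∀ S ∈ B (t + 1) (nd (t + 1) w) (cl (t + 1) x), x ∉ S) :
    lam N (nd N w) x = lam M (nd M w) x := by
  induction N with
  | zero =>
    have : M = 0 := by omega
    subst this
    rfl
  | succ N ih =>
    rcases Nat.lt_or_ge N M with h1 | h1
    · have : M = N + 1 := by omega
      subst this
      rfl
    · rw [hlam.stay N (by omega) w x (hx N h1 (by omega))]
      exact ih h1 (by omega) fun t h2 h3 => hx t h2 (by omega)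

theorem lab_of_code2 (hlam : LMeas n nd cl B lam) (w : Om) {M N : ℕ} (hM : M ≤ n) (hN : N ≤ n) {x x' : 𝒳}
    (h : codeF (fun t => nd t w) cl B M x = codeF (fun t => nd t w) cl B N x') :
    lam M (nd M w) x = lam N (nd N w) x' := by
  have key : ∀ {M N : ℕ}, M ≤ N → N ≤ n → ∀ {x x' : 𝒳},
      codeF (fun t => nd t w) cl B M x = codeF (fun t => nd t w) cl B N x' →
      lam M (nd M w) x = lam N (nd N w) x' := by
    intro M N hMN hN x x' h
    have h1 : ∀ t, M ≤ t → t < N → ∀ S ∈ B (t + 1) (nd (t + 1) w) (cl (t + 1) x'), x' ∉ S := by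
      intro t h2 h3 S hS hxS
      obtain ⟨j, hj, hjS⟩ := List.mem_iff_getElem.1 hS
      have hp : j ∈ posn (B (t + 1) (nd (t + 1) w) (cl (t + 1) x')) x' :=
        mem_posn.2 ⟨S, by rw [List.getElem?_eq_getElem hj, hjS], hxS⟩
      have h4 : (t, cl (t + 1) x', j) ∈ codeF (fun t => nd t w) cl B N x' := mem_codeF.2 ⟨h3, rfl, hp⟩
      rw [← h] at h4
      have := (mem_codeF.1 h4).1
      omega
    rw [lab_stay hlam w hMN hN h1]
    refine lab_of_code hlam w (by omega) ?_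
    rw [h]
    ext ⟨t, k, j⟩
    rw [mem_codeF, mem_codeF]
    constructor
    · rintro ⟨h2, h3, h4⟩
      refine ⟨?_, h3, h4⟩
      by_contra h5
      obtain ⟨S, h6, h7⟩ := mem_posn.1 h4
      exact h1 t (by omega) h2 S (List.mem_of_getElem? h6) h7
    · rintro ⟨h2, h3, h4⟩
      exact ⟨by omega, h3, h4⟩
  rcases le_total M N with h1 | h1
  · exact key h1 hN h
  · exact (key h1 hM h.symm).symm

/-- number of values of a label, at all the times up to `N`, on the individuals in the cells `Sc` with at most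
`r` births -/
theorem val_cum (hlam : LMeas n nd cl B lam) (w : Om) {N : ℕ} (hN : N ≤ n) (Sc : ℕ → Finset κ) (n1 : ℝ) :
    ∃ s : Finset β, s.card ≤ ((∑ t ∈ range N, ∑ k ∈ Sc (t + 1), (B (t + 1) (nd (t + 1) w) k).length) + 1) ^ ⌊n1⌋₊ ∧
      ∀ M ≤ N, ∀ x, (∀ t < M, cl (t + 1) x ∈ Sc (t + 1)) →
        ∑ t ∈ range M, TS.cnt (B (t + 1) (nd (t + 1) w) (cl (t + 1) x)) x ≤ n1 →
        lam M (nd M w) x ∈ s := by
  classical
  set r := ⌊n1⌋₊ with hr
  set pool := poolF (fun t => nd t w) B Sc N with hpool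
  let pick : Finset (ℕ × κ × ℕ) → Finset β := fun u =>
    if h : ∃ p : ℕ × 𝒳, p.1 ≤ N ∧ codeF (fun t => nd t w) cl B p.1 p.2 = u then
      {lam h.choose.1 (nd h.choose.1 w) h.choose.2} else ∅
  have hpick : ∀ u, (pick u).card ≤ 1 := by
    intro u
    show (if h : ∃ p : ℕ × 𝒳, p.1 ≤ N ∧ codeF (fun t => nd t w) cl B p.1 p.2 = u then
      ({lam h.choose.1 (nd h.choose.1 w) h.choose.2} : Finset β) else ∅).card ≤ 1
    split_ifs with h
    · simp
    · simp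
  refine ⟨(pool.powerset.filter (fun u => u.card ≤ r)).biUnion pick, ?_, ?_⟩
  · calc ((pool.powerset.filter (fun u => u.card ≤ r)).biUnion pick).card
        ≤ ∑ u ∈ pool.powerset.filter (fun u => u.card ≤ r), (pick u).card := Finset.card_biUnion_le
      _ ≤ ∑ u ∈ pool.powerset.filter (fun u => u.card ≤ r), 1 := Finset.sum_le_sum fun u _ => hpick u
      _ = (pool.powerset.filter (fun u => u.card ≤ r)).card := by simp
      _ ≤ (pool.card + 1) ^ r := small_card pool r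
      _ ≤ _ := Nat.pow_le_pow_left (Nat.add_le_add_right (card_poolF _ B Sc N) 1) r
  · intro M hM x hx1 hx2
    rw [Finset.mem_biUnion]
    refine ⟨codeF (fun t => nd t w) cl B M x, ?_, ?_⟩
    · rw [Finset.mem_filter, Finset.mem_powerset]
      constructor
      · rintro ⟨t, k, j⟩ h
        obtain ⟨h1, rfl, h3⟩ := mem_codeF.1 h
        rw [hpool]
        unfold poolF
        rw [Finset.mem_biUnion]
        refine ⟨t, Finset.mem_range.2 (by omega), ?_⟩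
        rw [Finset.mem_biUnion]
        exact ⟨_, hx1 t h1, Finset.mem_image.2 ⟨j, (Finset.mem_filter.1 h3).1, rfl⟩⟩
      · exact Nat.le_floor ((card_codeF (fun t => nd t w) cl B M x).trans hx2)
    · have hex : ∃ p : ℕ × 𝒳, p.1 ≤ N ∧ codeF (fun t => nd t w) cl B p.1 p.2 =
        codeF (fun t => nd t w) cl B M x := ⟨(M, x), hM, rfl⟩
      show lam M (nd M w) x ∈ (if h : ∃ p : ℕ × 𝒳, p.1 ≤ N ∧ codeF (fun t => nd t w) cl B p.1 p.2 =
        codeF (fun t => nd t w) cl B M x then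
        ({lam h.choose.1 (nd h.choose.1 w) h.choose.2} : Finset β) else ∅)
      rw [dif_pos hex, Finset.mem_singleton]
      exact (lab_of_code2 hlam w (hex.choose_spec.1.trans hN) (hM.trans hN) hex.choose_spec.2).symm

end gen

/-! ### expectation of a sum over compatible cells -/

theorem sum_biU {ι κ : Type*} [DecidableEq κ] (s : Finset ι) (f : ι → Finset κ) (φ : κ → ℝ) (hφ : ∀ k, 0 ≤ φ k) :
    ∑ k ∈ s.biUnion f, φ k ≤ ∑ i ∈ s, ∑ k ∈ f i, φ k := by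
  classical
  induction s using Finset.induction_on with
  | empty => simp
  | insert a s ha ih =>
    rw [Finset.biUnion_insert, Finset.sum_insert ha]
    have h1 := Finset.sum_union_inter (s₁ := f a) (s₂ := s.biUnion f) (f := φ)
    have h2 : 0 ≤ ∑ k ∈ f a ∩ s.biUnion f, φ k := Finset.sum_nonneg fun k _ => hφ k
    linarith

theorem count_E {Om 𝓎 κ : Type*} [Fintype Om] (P : FP Om) (Y : Om → 𝓎) (Z : Om → κ) (Cf : Om → Finset κ) {K : ℝ}
    (h : ∀ y k, P.Pr (fun w => Y w = y ∧ k ∈ Cf w) ≤ K * P.Pr (fun w => Y w = y ∧ Z w = k))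
    (φ : 𝓎 → κ → ℝ) (hφ : ∀ y k, 0 ≤ φ y k) :
    P.E (fun w => ∑ k ∈ Cf w, φ (Y w) k) ≤ K * P.E (fun w => φ (Y w) (Z w)) := by
  classical
  set 𝒦 : Finset κ := (univ : Finset Om).biUnion Cf ∪ univ.image Z with h𝒦
  set 𝒴 : Finset 𝓎 := univ.image Y with h𝒴
  have e1 : ∀ w, ∑ k ∈ Cf w, φ (Y w) k = ∑ k ∈ 𝒦, ∑ y ∈ 𝒴, φ y k * ind (Y w = y ∧ k ∈ Cf w) := by
    intro w
    have hy : ∀ k, ∑ y ∈ 𝒴, φ y k * ind (Y w = y ∧ k ∈ Cf w) = φ (Y w) k * ind (k ∈ Cf w) := by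
      intro k
      rw [Finset.sum_eq_single (Y w)]
      · rw [ind_and, ind_of rfl, one_mul]
      · intro y _ hy
        rw [ind_not fun h' => hy h'.1.symm, mul_zero]
      · intro h'
        exact absurd (Finset.mem_image_of_mem Y (Finset.mem_univ w)) h'
    rw [Finset.sum_congr rfl fun k _ => hy k]
    have hsub : Cf w ⊆ 𝒦 := fun k hk =>
      Finset.mem_union_left _ (Finset.mem_biUnion.2 ⟨w, Finset.mem_univ w, hk⟩)
    rw [← Finset.sum_subset hsub (f := fun k => φ (Y w) k * ind (k ∈ Cf w)) (fun k _ hk => by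
      rw [ind_not hk, mul_zero])]
    exact Finset.sum_congr rfl fun k hk => by rw [ind_of hk, mul_one]
  have e2 : ∀ w, φ (Y w) (Z w) = ∑ k ∈ 𝒦, ∑ y ∈ 𝒴, φ y k * ind (Y w = y ∧ Z w = k) := by
    intro w
    rw [Finset.sum_eq_single (Z w)]
    · rw [Finset.sum_eq_single (Y w)]
      · rw [ind_of ⟨rfl, rfl⟩, mul_one]
      · intro y _ hy
        rw [ind_not fun h' => hy h'.1.symm, mul_zero]
      · intro h'
        exact absurd (Finset.mem_image_of_mem Y (Finset.mem_univ w)) h'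
    · intro k _ hk
      refine Finset.sum_eq_zero fun y _ => ?_
      rw [ind_not fun h' => hk h'.2.symm, mul_zero]
    · intro h'
      exact absurd (Finset.mem_union_right _ (Finset.mem_image_of_mem Z (Finset.mem_univ w))) h'
  simp only [e1, e2]
  rw [P.E_sum, P.E_sum, Finset.mul_sum]
  refine Finset.sum_le_sum fun k _ => ?_
  rw [P.E_sum, P.E_sum, Finset.mul_sum]
  refine Finset.sum_le_sum fun y _ => ?_
  rw [P.E_smul, P.E_smul]
  have := mul_le_mul_of_nonneg_left (h y k) (hφ y k)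
  unfold FP.Pr at this
  linarith

/-! ### compatible cells -/

section tri

variable {Om Ξ A B C V Γ κ : Type} [Fintype Om] [Fintype Ξ] [Fintype A] [Fintype B]
    [Fintype C] [Fintype V]

namespace Tri

variable (T : Tri Om Ξ A B C V Γ κ)

open Classical in
/-- cells of `a` compatible with the cells of `b`, `c` and the node -/
def CA (t : ℕ) (w : Om) : Finset κ :=
  ((univ : Finset Om).filter (fun w' => T.cb t (T.b w') = T.cb t (T.b w) ∧ T.cc t (T.c w') = T.cc t (T.c w) ∧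
    T.gm t w' = T.gm t w)).image (fun w' => T.ca t (T.a w'))

open Classical in
/-- cells of `b` compatible with the cells of `a`, `c` and the node -/
def CB (t : ℕ) (w : Om) : Finset κ :=
  ((univ : Finset Om).filter (fun w' => T.ca t (T.a w') = T.ca t (T.a w) ∧ T.cc t (T.c w') = T.cc t (T.c w) ∧
    T.gm t w' = T.gm t w)).image (fun w' => T.cb t (T.b w'))

open Classical in
/-- cells of `c` compatible with the cells of `a`, `b` and the node -/
def CC (t : ℕ) (w : Om) : Finset κ :=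
  ((univ : Finset Om).filter (fun w' => T.ca t (T.a w') = T.ca t (T.a w) ∧ T.cb t (T.b w') = T.cb t (T.b w) ∧
    T.gm t w' = T.gm t w)).image (fun w' => T.cc t (T.c w'))

open Classical in
/-- two steps: cells of `b` compatible with a cell of `a` which is compatible with the cells of `b`, `c` -/
def CB2 (t : ℕ) (w : Om) : Finset κ :=
  ((univ : Finset Om).filter (fun w' => T.cb t (T.b w') = T.cb t (T.b w) ∧ T.cc t (T.c w') = T.cc t (T.c w) ∧
    T.gm t w' = T.gm t w)).biUnion (fun w' => T.CB t w')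

theorem mem_CA' {t : ℕ} {w : Om} {α : κ} : α ∈ T.CA t w ↔ ∃ w', T.ca t (T.a w') = α ∧
    T.cb t (T.b w') = T.cb t (T.b w) ∧ T.cc t (T.c w') = T.cc t (T.c w) ∧ T.gm t w' = T.gm t w := by
  classical
  unfold CA
  rw [Finset.mem_image]
  constructor
  · rintro ⟨w', h1, h2⟩
    obtain ⟨-, h3, h4, h5⟩ := Finset.mem_filter.1 h1
    exact ⟨w', h2, h3, h4, h5⟩
  · rintro ⟨w', h2, h3, h4, h5⟩
    exact ⟨w', Finset.mem_filter.2 ⟨Finset.mem_univ _, h3, h4, h5⟩, h2⟩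

theorem mem_CB' {t : ℕ} {w : Om} {β : κ} : β ∈ T.CB t w ↔ ∃ w', T.ca t (T.a w') = T.ca t (T.a w) ∧
    T.cb t (T.b w') = β ∧ T.cc t (T.c w') = T.cc t (T.c w) ∧ T.gm t w' = T.gm t w := by
  classical
  unfold CB
  rw [Finset.mem_image]
  constructor
  · rintro ⟨w', h1, h2⟩
    obtain ⟨-, h3, h4, h5⟩ := Finset.mem_filter.1 h1
    exact ⟨w', h3, h2, h4, h5⟩
  · rintro ⟨w', h2, h3, h4, h5⟩
    exact ⟨w', Finset.mem_filter.2 ⟨Finset.mem_univ _, h2, h4, h5⟩, h3⟩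

theorem mem_CC' {t : ℕ} {w : Om} {γ : κ} : γ ∈ T.CC t w ↔ ∃ w', T.ca t (T.a w') = T.ca t (T.a w) ∧
    T.cb t (T.b w') = T.cb t (T.b w) ∧ T.cc t (T.c w') = γ ∧ T.gm t w' = T.gm t w := by
  classical
  unfold CC
  rw [Finset.mem_image]
  constructor
  · rintro ⟨w', h1, h2⟩
    obtain ⟨-, h3, h4, h5⟩ := Finset.mem_filter.1 h1
    exact ⟨w', h3, h4, h2, h5⟩
  · rintro ⟨w', h2, h3, h4, h5⟩
    exact ⟨w', Finset.mem_filter.2 ⟨Finset.mem_univ _, h2, h3, h5⟩, h4⟩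

theorem mem_CA {t : ℕ} {w : Om} {α : κ} :
    α ∈ T.CA t w ↔ T.Rz t α (T.cb t (T.b w)) (T.cc t (T.c w)) (T.gm t w) := T.mem_CA'

theorem mem_CB {t : ℕ} {w : Om} {β : κ} :
    β ∈ T.CB t w ↔ T.Rz t (T.ca t (T.a w)) β (T.cc t (T.c w)) (T.gm t w) := T.mem_CB'

theorem mem_CC {t : ℕ} {w : Om} {γ : κ} :
    γ ∈ T.CC t w ↔ T.Rz t (T.ca t (T.a w)) (T.cb t (T.b w)) γ (T.gm t w) := T.mem_CC'

theorem mem_CB2 {t : ℕ} {w : Om} {β : κ} : β ∈ T.CB2 t w ↔ ∃ α,
    T.Rz t α (T.cb t (T.b w)) (T.cc t (T.c w)) (T.gm t w) ∧ T.Rz t α β (T.cc t (T.c w)) (T.gm t w) := by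
  classical
  unfold CB2
  rw [Finset.mem_biUnion]
  constructor
  · rintro ⟨w', h1, h2⟩
    obtain ⟨-, h3, h4, h5⟩ := Finset.mem_filter.1 h1
    rw [mem_CB, h4, h5] at h2
    exact ⟨T.ca t (T.a w'), ⟨w', rfl, h3, h4, h5⟩, h2⟩
  · rintro ⟨α, ⟨w', h2, h3, h4, h5⟩, h6⟩
    refine ⟨w', Finset.mem_filter.2 ⟨Finset.mem_univ _, h3, h4, h5⟩, ?_⟩
    rw [mem_CB, h2, h4, h5]
    exact h6

open Classical in
/-- two steps: cells of `c` compatible with a cell of `a` which is compatible with the cells of `b`, `c` -/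
def CC2 (t : ℕ) (w : Om) : Finset κ :=
  ((univ : Finset Om).filter (fun w' => T.cb t (T.b w') = T.cb t (T.b w) ∧ T.cc t (T.c w') = T.cc t (T.c w) ∧
    T.gm t w' = T.gm t w)).biUnion (fun w' => T.CC t w')

theorem mem_CC2 {t : ℕ} {w : Om} {γ : κ} : γ ∈ T.CC2 t w ↔ ∃ α,
    T.Rz t α (T.cb t (T.b w)) (T.cc t (T.c w)) (T.gm t w) ∧ T.Rz t α (T.cb t (T.b w)) γ (T.gm t w) := by
  classical
  unfold CC2
  rw [Finset.mem_biUnion]
  constructor
  · rintro ⟨w', h1, h2⟩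
    obtain ⟨-, h3, h4, h5⟩ := Finset.mem_filter.1 h1
    rw [mem_CC, h3, h5] at h2
    exact ⟨T.ca t (T.a w'), ⟨w', rfl, h3, h4, h5⟩, h2⟩
  · rintro ⟨α, ⟨w', h2, h3, h4, h5⟩, h6⟩
    refine ⟨w', Finset.mem_filter.2 ⟨Finset.mem_univ _, h3, h4, h5⟩, ?_⟩
    rw [mem_CC, h2, h3, h5]
    exact h6

theorem card_CA (t : ℕ) (w : Om) : ((T.CA t w).card : ℝ) ≤ T.K := by
  obtain ⟨s, h1, h2⟩ := T.nuA t w
  refine le_trans ?_ h1
  have : (T.CA t w).card ≤ s.card := Finset.card_le_card fun α hα => by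
    obtain ⟨w', rfl, h4, h5, h6⟩ := T.mem_CA'.1 hα
    exact h2 w' h4 h5 h6
  exact_mod_cast this

theorem card_CB (t : ℕ) (w : Om) : ((T.CB t w).card : ℝ) ≤ T.K := by
  obtain ⟨s, h1, h2⟩ := T.nuB t w
  refine le_trans ?_ h1
  have : (T.CB t w).card ≤ s.card := Finset.card_le_card fun α hα => by
    obtain ⟨w', h4, rfl, h5, h6⟩ := T.mem_CB'.1 hα
    exact h2 w' h4 h5 h6
  exact_mod_cast this

theorem card_CC (t : ℕ) (w : Om) : ((T.CC t w).card : ℝ) ≤ T.K := by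
  obtain ⟨s, h1, h2⟩ := T.nuC t w
  refine le_trans ?_ h1
  have : (T.CC t w).card ≤ s.card := Finset.card_le_card fun α hα => by
    obtain ⟨w', h4, h5, rfl, h6⟩ := T.mem_CC'.1 hα
    exact h2 w' h4 h5 h6
  exact_mod_cast this

/-- compatibility at the time `t` implies compatibility at the earlier times -/
theorem Rz_anc {t j : ℕ} (h : j ≤ t) {a0 : A} {b0 : B} {c0 : C} {w : Om}
    (hR : T.Rz t (T.ca t a0) (T.cb t b0) (T.cc t c0) (T.gm t w)) :
    T.Rz j (T.ca j a0) (T.cb j b0) (T.cc j c0) (T.gm j w) := by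
  obtain ⟨w', h1, h2, h3, h4⟩ := hR
  exact ⟨w', nest_le T.na h h1, nest_le T.nb h h2, nest_le T.nc h h3, T.gm_anc h h4⟩

/-! the six counts -/

theorem E_CB_c (t : ℕ) (φ : C × Γ → κ → ℝ) (hφ : ∀ y k, 0 ≤ φ y k) :
    T.P.E (fun w => ∑ k ∈ T.CB t w, φ (T.c w, T.gm t w) k) ≤
      T.K * T.P.E (fun w => φ (T.c w, T.gm t w) (T.cb t (T.b w))) := by
  refine count_E T.P (fun w => (T.c w, T.gm t w)) (fun w => T.cb t (T.b w)) (T.CB t) (fun y k => ?_) φ hφ
  refine le_trans (T.P.Pr_mono fun w _ h => ?_) ((T.ccb t y.2 y.1 k).trans (le_of_eq ?_))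
  · obtain ⟨h1, h2⟩ := h
    have e1 : T.c w = y.1 := by rw [← h1]
    have e2 : T.gm t w = y.2 := by rw [← h1]
    obtain ⟨w', h3, h4, h5, h6⟩ := T.mem_CB'.1 h2
    exact ⟨e1, e2, w', h3, h4, by rw [h5, e1], by rw [h6, e2]⟩
  · congr 1
    refine T.P.Pr_congr fun w _ => ?_
    rw [Prod.ext_iff]
    exact and_assoc.symm

theorem E_CA_c (t : ℕ) (φ : C × Γ → κ → ℝ) (hφ : ∀ y k, 0 ≤ φ y k) :
    T.P.E (fun w => ∑ k ∈ T.CA t w, φ (T.c w, T.gm t w) k) ≤
      T.K * T.P.E (fun w => φ (T.c w, T.gm t w) (T.ca t (T.a w))) := by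
  refine count_E T.P (fun w => (T.c w, T.gm t w)) (fun w => T.ca t (T.a w)) (T.CA t) (fun y k => ?_) φ hφ
  refine le_trans (T.P.Pr_mono fun w _ h => ?_) ((T.cca t y.2 y.1 k).trans (le_of_eq ?_))
  · obtain ⟨h1, h2⟩ := h
    have e1 : T.c w = y.1 := by rw [← h1]
    have e2 : T.gm t w = y.2 := by rw [← h1]
    obtain ⟨w', h3, h4, h5, h6⟩ := T.mem_CA'.1 h2
    exact ⟨e1, e2, w', h3, h4, by rw [h5, e1], by rw [h6, e2]⟩
  · congr 1
    refine T.P.Pr_congr fun w _ => ?_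
    rw [Prod.ext_iff]
    exact and_assoc.symm

theorem E_CC_b (t : ℕ) (φ : B × Γ → κ → ℝ) (hφ : ∀ y k, 0 ≤ φ y k) :
    T.P.E (fun w => ∑ k ∈ T.CC t w, φ (T.b w, T.gm t w) k) ≤
      T.K * T.P.E (fun w => φ (T.b w, T.gm t w) (T.cc t (T.c w))) := by
  refine count_E T.P (fun w => (T.b w, T.gm t w)) (fun w => T.cc t (T.c w)) (T.CC t) (fun y k => ?_) φ hφ
  refine le_trans (T.P.Pr_mono fun w _ h => ?_) ((T.cbc t y.2 y.1 k).trans (le_of_eq ?_))
  · obtain ⟨h1, h2⟩ := h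
    have e1 : T.b w = y.1 := by rw [← h1]
    have e2 : T.gm t w = y.2 := by rw [← h1]
    obtain ⟨w', h3, h4, h5, h6⟩ := T.mem_CC'.1 h2
    exact ⟨e1, e2, w', h3, by rw [h4, e1], h5, by rw [h6, e2]⟩
  · congr 1
    refine T.P.Pr_congr fun w _ => ?_
    rw [Prod.ext_iff]
    exact and_assoc.symm

theorem E_CA_b (t : ℕ) (φ : B × Γ → κ → ℝ) (hφ : ∀ y k, 0 ≤ φ y k) :
    T.P.E (fun w => ∑ k ∈ T.CA t w, φ (T.b w, T.gm t w) k) ≤
      T.K * T.P.E (fun w => φ (T.b w, T.gm t w) (T.ca t (T.a w))) := by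
  refine count_E T.P (fun w => (T.b w, T.gm t w)) (fun w => T.ca t (T.a w)) (T.CA t) (fun y k => ?_) φ hφ
  refine le_trans (T.P.Pr_mono fun w _ h => ?_) ((T.cba t y.2 y.1 k).trans (le_of_eq ?_))
  · obtain ⟨h1, h2⟩ := h
    have e1 : T.b w = y.1 := by rw [← h1]
    have e2 : T.gm t w = y.2 := by rw [← h1]
    obtain ⟨w', h3, h4, h5, h6⟩ := T.mem_CA'.1 h2
    exact ⟨e1, e2, w', h3, by rw [h4, e1], h5, by rw [h6, e2]⟩
  · congr 1
    refine T.P.Pr_congr fun w _ => ?_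
    rw [Prod.ext_iff]
    exact and_assoc.symm

theorem E_CB_a (t : ℕ) (φ : A × Γ → κ → ℝ) (hφ : ∀ y k, 0 ≤ φ y k) :
    T.P.E (fun w => ∑ k ∈ T.CB t w, φ (T.a w, T.gm t w) k) ≤
      T.K * T.P.E (fun w => φ (T.a w, T.gm t w) (T.cb t (T.b w))) := by
  refine count_E T.P (fun w => (T.a w, T.gm t w)) (fun w => T.cb t (T.b w)) (T.CB t) (fun y k => ?_) φ hφ
  refine le_trans (T.P.Pr_mono fun w _ h => ?_) ((T.cab t y.2 y.1 k).trans (le_of_eq ?_))
  · obtain ⟨h1, h2⟩ := h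
    have e1 : T.a w = y.1 := by rw [← h1]
    have e2 : T.gm t w = y.2 := by rw [← h1]
    obtain ⟨w', h3, h4, h5, h6⟩ := T.mem_CB'.1 h2
    exact ⟨e1, e2, w', by rw [h3, e1], h4, h5, by rw [h6, e2]⟩
  · congr 1
    refine T.P.Pr_congr fun w _ => ?_
    rw [Prod.ext_iff]
    exact and_assoc.symm

theorem E_CC_a (t : ℕ) (φ : A × Γ → κ → ℝ) (hφ : ∀ y k, 0 ≤ φ y k) :
    T.P.E (fun w => ∑ k ∈ T.CC t w, φ (T.a w, T.gm t w) k) ≤
      T.K * T.P.E (fun w => φ (T.a w, T.gm t w) (T.cc t (T.c w))) := by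
  refine count_E T.P (fun w => (T.a w, T.gm t w)) (fun w => T.cc t (T.c w)) (T.CC t) (fun y k => ?_) φ hφ
  refine le_trans (T.P.Pr_mono fun w _ h => ?_) ((T.cac t y.2 y.1 k).trans (le_of_eq ?_))
  · obtain ⟨h1, h2⟩ := h
    have e1 : T.a w = y.1 := by rw [← h1]
    have e2 : T.gm t w = y.2 := by rw [← h1]
    obtain ⟨w', h3, h4, h5, h6⟩ := T.mem_CC'.1 h2
    exact ⟨e1, e2, w', by rw [h3, e1], h4, h5, by rw [h6, e2]⟩
  · congr 1
    refine T.P.Pr_congr fun w _ => ?_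
    rw [Prod.ext_iff]
    exact and_assoc.symm

open Classical in
/-- cells `β` compatible with `α`, the cell of `c0` and the node `g` -/
def CBof (t : ℕ) (y : C × Γ) (α : κ) : Finset κ :=
  ((univ : Finset Om).filter (fun w' => T.ca t (T.a w') = α ∧ T.cc t (T.c w') = T.cc t y.1 ∧
    T.gm t w' = y.2)).image (fun w' => T.cb t (T.b w'))

theorem CBof_eq (t : ℕ) (w : Om) : T.CBof t (T.c w, T.gm t w) (T.ca t (T.a w)) = T.CB t w := rfl

theorem mem_CBof {t : ℕ} {y : C × Γ} {α β : κ} :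
    β ∈ T.CBof t y α ↔ T.Rz t α β (T.cc t y.1) y.2 := by
  classical
  unfold CBof
  rw [Finset.mem_image]
  constructor
  · rintro ⟨w', h1, h2⟩
    obtain ⟨-, h3, h4, h5⟩ := Finset.mem_filter.1 h1
    exact ⟨w', h3, h2, h4, h5⟩
  · rintro ⟨w', h2, h3, h4, h5⟩
    exact ⟨w', Finset.mem_filter.2 ⟨Finset.mem_univ _, h2, h4, h5⟩, h3⟩

open Classical in
/-- cells `γ` compatible with `α`, the cell of `b0` and the node `g` -/
def CCof (t : ℕ) (y : B × Γ) (α : κ) : Finset κ :=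
  ((univ : Finset Om).filter (fun w' => T.ca t (T.a w') = α ∧ T.cb t (T.b w') = T.cb t y.1 ∧
    T.gm t w' = y.2)).image (fun w' => T.cc t (T.c w'))

theorem CCof_eq (t : ℕ) (w : Om) : T.CCof t (T.b w, T.gm t w) (T.ca t (T.a w)) = T.CC t w := rfl

theorem mem_CCof {t : ℕ} {y : B × Γ} {α γ : κ} :
    γ ∈ T.CCof t y α ↔ T.Rz t α (T.cb t y.1) γ y.2 := by
  classical
  unfold CCof
  rw [Finset.mem_image]
  constructor
  · rintro ⟨w', h1, h2⟩
    obtain ⟨-, h3, h4, h5⟩ := Finset.mem_filter.1 h1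
    exact ⟨w', h3, h4, h2, h5⟩
  · rintro ⟨w', h2, h3, h4, h5⟩
    exact ⟨w', Finset.mem_filter.2 ⟨Finset.mem_univ _, h2, h3, h5⟩, h4⟩

/-- two steps -/
theorem E_CB2_c (t : ℕ) (φ : C × Γ → κ → ℝ) (hφ : ∀ y k, 0 ≤ φ y k) :
    T.P.E (fun w => ∑ k ∈ T.CB2 t w, φ (T.c w, T.gm t w) k) ≤
      T.K ^ 2 * T.P.E (fun w => φ (T.c w, T.gm t w) (T.cb t (T.b w))) := by
  classical
  have h1 : T.P.E (fun w => ∑ k ∈ T.CB2 t w, φ (T.c w, T.gm t w) k) ≤
      T.P.E (fun w => ∑ α ∈ T.CA t w, ∑ k ∈ T.CBof t (T.c w, T.gm t w) α, φ (T.c w, T.gm t w) k) := by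
    refine T.P.E_mono fun w _ => ?_
    refine le_trans ?_ (sum_biU (T.CA t w) (fun α => T.CBof t (T.c w, T.gm t w) α) (φ (T.c w, T.gm t w)) (hφ _))
    refine Finset.sum_le_sum_of_subset_of_nonneg (fun β hβ => ?_) (fun k _ _ => hφ _ k)
    obtain ⟨α, h2, h3⟩ := T.mem_CB2.1 hβ
    exact Finset.mem_biUnion.2 ⟨α, T.mem_CA.2 h2, T.mem_CBof.2 h3⟩
  have h2 := T.E_CA_c t (fun y α => ∑ k ∈ T.CBof t y α, φ y k) (fun y α => Finset.sum_nonneg fun k _ => hφ y k)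
  have h3 := T.E_CB_c t φ hφ
  have hK : (0 : ℝ) ≤ T.K := zero_le_one.trans T.K1
  have h4 := mul_le_mul_of_nonneg_left h3 hK
  simp only [CBof_eq] at h2
  calc _ ≤ _ := h1
    _ ≤ _ := h2
    _ ≤ _ := h4
    _ = _ := by ring

/-- two steps -/
theorem E_CC2_b (t : ℕ) (φ : B × Γ → κ → ℝ) (hφ : ∀ y k, 0 ≤ φ y k) :
    T.P.E (fun w => ∑ k ∈ T.CC2 t w, φ (T.b w, T.gm t w) k) ≤
      T.K ^ 2 * T.P.E (fun w => φ (T.b w, T.gm t w) (T.cc t (T.c w))) := by
  classical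
  have h1 : T.P.E (fun w => ∑ k ∈ T.CC2 t w, φ (T.b w, T.gm t w) k) ≤
      T.P.E (fun w => ∑ α ∈ T.CA t w, ∑ k ∈ T.CCof t (T.b w, T.gm t w) α, φ (T.b w, T.gm t w) k) := by
    refine T.P.E_mono fun w _ => ?_
    refine le_trans ?_ (sum_biU (T.CA t w) (fun α => T.CCof t (T.b w, T.gm t w) α) (φ (T.b w, T.gm t w)) (hφ _))
    refine Finset.sum_le_sum_of_subset_of_nonneg (fun β hβ => ?_) (fun k _ _ => hφ _ k)
    obtain ⟨α, h2, h3⟩ := T.mem_CC2.1 hβ
    exact Finset.mem_biUnion.2 ⟨α, T.mem_CA.2 h2, T.mem_CCof.2 h3⟩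
  have h2 := T.E_CA_b t (fun y α => ∑ k ∈ T.CCof t y α, φ y k) (fun y α => Finset.sum_nonneg fun k _ => hφ y k)
  have h3 := T.E_CC_b t φ hφ
  have hK : (0 : ℝ) ≤ T.K := zero_le_one.trans T.K1
  have h4 := mul_le_mul_of_nonneg_left h3 hK
  simp only [CCof_eq] at h2
  calc _ ≤ _ := h1
    _ ≤ _ := h2
    _ ≤ _ := h4
    _ = _ := by ring

end Tri

end tri

end

end Pool.Agent.M3.S2
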