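import Pool.Agent.M3.S2.NamT

/-!
# M3/S2/AlphH : the stable list `hl`, the families `k1`, `k2` (helper52)
-/

set_option autoImplicit false

namespace Pool.Agent.M3.S2

open Finset Pool.Agent.PWZ Pool.Agent.M3.TS

noncomputable section

/-- a growing list : the `i`-th entry changes at most once -/
theorem pre_moves {α : Type*} (L : ℕ → List α) (hL : ∀ t, L t <+: L (t + 1)) (i : ℕ) (d : α) (N : ℕ) :
    ∑ t ∈ range N, ind ((L (t + 1)).getD i d ≠ (L t).getD i d) ≤ ind (i < (L N).length) := by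
  have hlen : ∀ t, (L t).length ≤ (L (t + 1)).length := fun t => (hL t).length_le
  induction N with
  | zero =>
    rw [Finset.sum_range_zero]
    exact ind_nonneg _
  | succ N ih =>
    rw [Finset.sum_range_succ]
    by_cases h : i < (L N).length
    · have h1 : i < (L (N + 1)).length := lt_of_lt_of_le h (hlen N)
      have h2 : (L (N + 1)).getD i d = (L N).getD i d := by
        obtain ⟨l, hl⟩ := hL N
        rw [← hl, List.getD_append _ _ _ _ h]
      rw [ind_of h] at ih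
      rw [ind_of h1, ind_not (not_not.2 h2), add_zero]
      exact ih
    · have h1 : (L N).getD i d = d := List.getD_eq_default _ _ (not_lt.1 h)
      rw [ind_not h] at ih
      by_cases h2 : i < (L (N + 1)).length
      · rw [ind_of h2]
        have := ind_le_one ((L (N + 1)).getD i d ≠ (L N).getD i d)
        linarith
      · have h3 : (L (N + 1)).getD i d = d := List.getD_eq_default _ _ (not_lt.1 h2)
        rw [ind_not h2, h1, h3, ind_not (not_not.2 rfl), add_zero]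
        exact ih

section tri

variable {Om Ξ A B C V Γ κ S : Type} [Fintype Om] [Fintype Ξ] [Fintype A] [Fintype B] [Fintype C] [Fintype V]

namespace Tri

variable (T : Tri Om Ξ A B C V Γ κ) (al : ℕ → Om → Set (S × (V → ℝ))) (s' : S)

open Classical in
theorem hl_succ (t : ℕ) (g : Γ) (b0 : B) (c0 : C) : T.hl al s' (t + 1) g b0 c0 = T.hl al s' t (T.par t g) b0 c0 ++
      (if h : (T.nw al s' (t + 1) g b0 c0).Finite then
        (h.toFinset \ (T.hl al s' t (T.par t g) b0 c0).toFinset).toList else []) := rfl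

theorem hl_zero (g : Γ) (b0 : B) (c0 : C) : T.hl al s' 0 g b0 c0 = [] := rfl

theorem hl_pre1 (t : ℕ) (g : Γ) (b0 : B) (c0 : C) :
    T.hl al s' t (T.par t g) b0 c0 <+: T.hl al s' (t + 1) g b0 c0 := by
  rw [hl_succ]
  exact List.prefix_append _ _

theorem hl_prefix {j t : ℕ} (h : j ≤ t) (g : Γ) (b0 : B) (c0 : C) :
    T.hl al s' j (anc T.par t g j) b0 c0 <+: T.hl al s' t g b0 c0 := by
  induction t generalizing g with
  | zero =>
    have : j = 0 := by omega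
    subst this
    exact List.prefix_rfl
  | succ t ih =>
    rcases Nat.lt_or_ge t j with h1 | h1
    · have : j = t + 1 := by omega
      subst this
      rw [anc_self]
    · rw [anc_succ _ h1]
      exact (ih h1 (T.par t g)).trans (T.hl_pre1 al s' t g b0 c0)

theorem hl_nodup (t : ℕ) (g : Γ) (b0 : B) (c0 : C) : (T.hl al s' t g b0 c0).Nodup := by
  classical
  induction t generalizing g with
  | zero => exact List.nodup_nil
  | succ t ih =>
    rw [hl_succ]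
    split_ifs with h
    · refine List.Nodup.append (ih _) (Finset.nodup_toList _) ?_
      intro x hx hx'
      rw [Finset.mem_toList, Finset.mem_sdiff, List.mem_toFinset] at hx'
      exact hx'.2 hx
    · rw [List.append_nil]
      exact ih _

theorem mem_hl {t : ℕ} {g : Γ} {b0 : B} {c0 : C} {h : V → ℝ} (hh : h ∈ T.hl al s' t g b0 c0) :
    ∃ j, 1 ≤ j ∧ j ≤ t ∧ h ∈ T.nw al s' j (anc T.par t g j) b0 c0 := by
  classical
  induction t generalizing g with
  | zero => exact absurd hh List.not_mem_nil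
  | succ t ih =>
    rw [hl_succ] at hh
    rcases List.mem_append.1 hh with h1 | h1
    · obtain ⟨j, h2, h3, h4⟩ := ih h1
      refine ⟨j, h2, by omega, ?_⟩
      rw [anc_succ _ h3]
      exact h4
    · split_ifs at h1 with hf
      · rw [Finset.mem_toList, Finset.mem_sdiff, Set.Finite.mem_toFinset] at h1
        refine ⟨t + 1, by omega, le_rfl, ?_⟩
        rw [anc_self]
        exact h1.1
      · exact absurd h1 List.not_mem_nil

theorem mem_hl_self {t : ℕ} (ht : 1 ≤ t) {g : Γ} {b0 : B} {c0 : C} {h : V → ℝ}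
    (hf : (T.nw al s' t g b0 c0).Finite) (hh : h ∈ T.nw al s' t g b0 c0) : h ∈ T.hl al s' t g b0 c0 := by
  classical
  obtain ⟨t, rfl⟩ : ∃ u, t = u + 1 := ⟨t - 1, by omega⟩
  rw [hl_succ, dif_pos hf, List.mem_append]
  by_cases h1 : h ∈ T.hl al s' t (T.par t g) b0 c0
  · exact Or.inl h1
  · right
    rw [Finset.mem_toList, Finset.mem_sdiff, Set.Finite.mem_toFinset, List.mem_toFinset]
    exact ⟨hh, h1⟩

theorem mem_hl_of_nw {j t : ℕ} (hj : 1 ≤ j) (hjt : j ≤ t) {g : Γ} {b0 : B} {c0 : C} {h : V → ℝ}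
    (hf : (T.nw al s' j (anc T.par t g j) b0 c0).Finite) (hh : h ∈ T.nw al s' j (anc T.par t g j) b0 c0) :
    h ∈ T.hl al s' t g b0 c0 :=
  (T.hl_prefix al s' hjt g b0 c0).subset (T.mem_hl_self al s' hj hf hh)

/-- the list depends on `b` only through its cell -/
theorem hl_congr {t : ℕ} (g : Γ) {b0 b1 : B} (c0 : C) (h : T.cb t b0 = T.cb t b1) :
    T.hl al s' t g b0 c0 = T.hl al s' t g b1 c0 := by
  classical
  induction t generalizing g with
  | zero => rfl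
  | succ t ih =>
    have h1 : T.nw al s' (t + 1) g b0 c0 = T.nw al s' (t + 1) g b1 c0 := by
      unfold nw
      rw [h]
    rw [hl_succ, hl_succ, ih (T.par t g) (T.nb t _ _ h)]
    simp only [h1]

theorem nw_finite {t : ℕ} (hf : ∀ w, {h | (s', h) ∈ al t w}.Finite) (g : Γ) (b0 : B) (c0 : C) :
    (T.nw al s' t g b0 c0).Finite := by
  refine (Set.finite_iUnion hf).subset ?_
  rintro h ⟨w, -, -, -, h4⟩
  exact Set.mem_iUnion.2 ⟨w, h4⟩

/-- length of the list -/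
theorem hl_len {t : ℕ} {g : Γ} {b0 : B} {c0 : C} {f : Finset (V → ℝ)}
    (hf : ∀ j, 1 ≤ j → j ≤ t → ∀ h ∈ T.nw al s' j (anc T.par t g j) b0 c0, h ∈ f) :
    (T.hl al s' t g b0 c0).length ≤ f.card := by
  classical
  rw [← List.toFinset_card_of_nodup (T.hl_nodup al s' t g b0 c0)]
  refine Finset.card_le_card fun h hh => ?_
  obtain ⟨j, h1, h2, h3⟩ := T.mem_hl al s' (List.mem_toFinset.1 hh)
  exact hf j h1 h2 h h3

/-- the same for a realised node -/
theorem hl_len_real {t : ℕ} {w : Om} {f : Finset (V → ℝ)}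
    (hf : ∀ j, 1 ≤ j → j ≤ t → ∀ w', T.cb j (T.b w') = T.cb j (T.b w) → T.c w' = T.c w → T.gm j w' = T.gm j w →
      ∀ h, (s', h) ∈ al j w' → h ∈ f) :
    (T.hl al s' t (T.gm t w) (T.b w) (T.c w)).length ≤ f.card := by
  refine T.hl_len al s' fun j h1 h2 h hh => ?_
  rw [T.anc_gm h2] at hh
  obtain ⟨w', h3, h4, h5, h6⟩ := hh
  exact hf j h1 h2 w' h3 h4 h5 h h6

/-- every letter gets a number, and keeps it -/
theorem hl_index {j : ℕ} (hj : 1 ≤ j) {w : Om} {h : V → ℝ} (hf : ∀ w, {h | (s', h) ∈ al j w}.Finite)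
    (hh : (s', h) ∈ al j w) :
    ∃ i < (T.hl al s' j (T.gm j w) (T.b w) (T.c w)).length, ∀ t, j ≤ t →
      (T.hl al s' t (T.gm t w) (T.b w) (T.c w)).getD i 0 = h := by
  have h1 : h ∈ T.hl al s' j (T.gm j w) (T.b w) (T.c w) :=
    T.mem_hl_self al s' hj (T.nw_finite al s' hf _ _ _) ⟨w, rfl, rfl, rfl, hh⟩
  obtain ⟨i, hi, rfl⟩ := List.mem_iff_getElem.1 h1
  refine ⟨i, hi, fun t ht => ?_⟩
  have h2 := T.hl_prefix al s' ht (T.gm t w) (T.b w) (T.c w)
  rw [T.anc_gm ht] at h2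
  obtain ⟨l, hl⟩ := h2
  rw [← hl, List.getD_append _ _ _ _ hi, List.getD_eq_getElem _ _ hi]

theorem hl_getD_stable {j t : ℕ} (h : j ≤ t) (w : Om) (b0 : B) (c0 : C) {i : ℕ}
    (hi : i < (T.hl al s' j (T.gm j w) b0 c0).length) :
    (T.hl al s' t (T.gm t w) b0 c0).getD i 0 = (T.hl al s' j (T.gm j w) b0 c0).getD i 0 := by
  have h2 := T.hl_prefix al s' h (T.gm t w) b0 c0
  rw [T.anc_gm h] at h2
  obtain ⟨l, hl⟩ := h2
  rw [← hl, List.getD_append _ _ _ _ hi]

theorem hl_moves (w : Om) (b0 : B) (c0 : C) (i : ℕ) (N : ℕ) :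
    ∑ t ∈ range N, ind ((T.hl al s' (t + 1) (T.gm (t + 1) w) b0 c0).getD i 0 ≠
      (T.hl al s' t (T.gm t w) b0 c0).getD i 0) ≤ 1 := by
  refine (pre_moves (fun t => T.hl al s' t (T.gm t w) b0 c0) (fun t => ?_) i 0 N).trans (ind_le_one _)
  have := T.hl_pre1 al s' t (T.gm (t + 1) w) b0 c0
  rwa [T.par_gm] at this

theorem hl_getD_bound (hb : ∀ t w h, (s', h) ∈ al t w → ∀ d, |h d| ≤ 1) (t : ℕ) (g : Γ) (b0 : B) (c0 : C) (i : ℕ)
    (d : V) : |(T.hl al s' t g b0 c0).getD i 0 d| ≤ 1 := by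
  by_cases hi : i < (T.hl al s' t g b0 c0).length
  · rw [List.getD_eq_getElem _ _ hi]
    obtain ⟨j, -, -, w, -, -, -, h⟩ := T.mem_hl al s' (List.getElem_mem hi)
    exact hb j w _ h d
  · rw [List.getD_eq_default _ _ (not_lt.1 hi)]
    simp

end Tri

end tri

section inp

variable {Om A B C V Γ κ S : Type} [Fintype Om] [Fintype A] [Fintype B] [Fintype C] [Fintype V]
  [Fintype S] [DecidableEq S] {m : ℕ} {T : Tri Om (S → Fin m) A B C V Γ κ}

namespace Inp

variable (I : Inp T S)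

theorem let1_finite (F : S → ℕ → C × Γ → B → V → ℝ) (Bn : S → ℕ → C × Γ → κ → List (Finset B)) (n1 : ℝ) (s : S)
    (t : ℕ) (w : Om) : (let1 (T := T) F Bn n1 s t w).Finite := by
  refine (Set.finite_range (fun b' : B => F s t (T.c w, T.gm t w) b')).subset ?_
  rintro f ⟨b', -, -, rfl⟩
  exact ⟨b', rfl⟩

theorem let2_finite (F : S → S → ℕ → ℕ → Γ → B × C → V → ℝ)
    (Bn : S → S → ℕ → ℕ → Γ → κ × κ → List (Finset (B × C))) (Nw : ℕ) (n3 : ℝ) (s s' : S) (t : ℕ) (w : Om) :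
    (let2 (T := T) F Bn Nw n3 s s' t w).Finite := by
  refine (Set.finite_range (fun p : Fin Nw × (B × C) => F s s' p.1 t (T.gm t w) p.2)).subset ?_
  rintro f ⟨i, hi, y, -, -, -, rfl⟩
  exact ⟨(⟨i, hi⟩, y), rfl⟩

theorem intr_zero (s : S) (g : Γ) (b0 : B) (c0 : C) : ¬ I.intr s 0 g b0 c0 := by
  rintro ⟨⟨h, -⟩, -⟩
  have := I.tb1 s
  omega

/-- `intr` at the nodes of the path -/
theorem intr_gm (s : S) (t : ℕ) (w : Om) (b0 : B) (c0 : C) : I.intr s t (T.gm t w) b0 c0 ↔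
    (I.R.tb s ≤ t ∧ T.gm (I.R.tb s) w = I.R.gb s) ∧ T.cb (I.R.tb s) b0 = I.R.be s ∧
    T.Rz (I.R.tb s) (I.R.al s) (I.R.be s) (T.cc (I.R.tb s) c0) (I.R.gb s) := by
  unfold intr
  constructor
  · rintro ⟨⟨h1, h2⟩, h3⟩
    rw [T.anc_gm h1] at h2
    exact ⟨⟨h1, h2⟩, h3⟩
  · rintro ⟨⟨h1, h2⟩, h3⟩
    rw [← T.anc_gm h1 w] at h2
    exact ⟨⟨h1, h2⟩, h3⟩

theorem intr_mono' (s : S) {t t' : ℕ} (h : t ≤ t') (w : Om) (b0 : B) (c0 : C) (h1 : I.intr s t (T.gm t w) b0 c0) :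
    I.intr s t' (T.gm t' w) b0 c0 := by
  rw [intr_gm] at h1 ⊢
  exact ⟨⟨h1.1.1.trans h, h1.1.2⟩, h1.2⟩

theorem k1_zero (s : S) (g : C × Γ) (b0 : B) (d : V) : I.k1 s 0 g b0 d = 0 := by
  unfold k1
  rw [ind_not (I.intr_zero s _ _ _), zero_mul, zero_mul]

theorem k1_le (s : S) (t : ℕ) (g : C × Γ) (b0 : B) (d : V) : |I.k1 s t g b0 d| ≤ 1 := by
  unfold k1
  rw [abs_mul, abs_mul, abs_of_nonneg (ind_nonneg _)]
  have h1 := ind_le_one (I.intr s t g.2 b0 g.1)
  have h2 := I.G1b t g.2 b0 g.1 d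
  have h3 := I.u1 s b0 d
  have h4 : ind (I.intr s t g.2 b0 g.1) * |I.G1 t g.2 b0 g.1 d| ≤ 1 :=
    mul_le_one₀ h1 (abs_nonneg _) h2
  exact mul_le_one₀ h4 (abs_nonneg _) h3

theorem k2_zero (al : ℕ → Om → Set (S × (V → ℝ))) (Mc : ℝ) (s s' : S) (i : ℕ) (g : Γ) (y : B × C) (d : V) :
    I.k2 al Mc s s' i 0 g y d = 0 := by
  unfold k2
  rw [ind_not (fun h => I.intr_zero s _ _ _ h.1), zero_mul, zero_mul, zero_mul]

theorem k2_le {al : ℕ → Om → Set (S × (V → ℝ))} (hb : ∀ t w s' h, (s', h) ∈ al t w → ∀ d, |h d| ≤ 1) (Mc : ℝ)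
    (s s' : S) (i : ℕ) (t : ℕ) (g : Γ) (y : B × C) (d : V) : |I.k2 al Mc s s' i t g y d| ≤ 1 := by
  unfold k2
  rw [abs_mul, abs_mul, abs_mul, abs_of_nonneg (ind_nonneg _)]
  have h1 := ind_le_one (I.intr s t g y.1 y.2 ∧ I.capc al Mc t g y.1 y.2)
  have h2 := I.G1b t g y.1 y.2 d
  have h3 := I.u1 s y.1 d
  have h5 := T.hl_getD_bound al s' (fun t w h => hb t w s' h) t g y.1 y.2 i d
  exact mul_le_one₀ (mul_le_one₀ (mul_le_one₀ h1 (abs_nonneg _) h2) (abs_nonneg _) h3) (abs_nonneg _) h5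

/-- the number of the changes of a monotone predicate is at most one -/
theorem mono_moves (Q : ℕ → Prop) (hQ : ∀ t, Q t → Q (t + 1)) (N : ℕ) :
    ∑ t ∈ range N, ind (Q (t + 1) ∧ ¬ Q t) ≤ ind (Q N) := by
  induction N with
  | zero =>
    rw [Finset.sum_range_zero]
    exact ind_nonneg _
  | succ N ih =>
    rw [Finset.sum_range_succ]
    by_cases h : Q N
    · rw [ind_not (fun h' => h'.2 h), add_zero, ind_of (hQ N h)]
      exact ih.trans (ind_le_one _)
    · rw [ind_not h] at ih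
      have : ind (Q (N + 1) ∧ ¬ Q N) ≤ ind (Q (N + 1)) := ind_mono fun h' => h'.1
      linarith

theorem k1_moves (s : S) (w : Om) : ∑ t ∈ range T.n, ind (I.k1 s (t + 1) (T.c w, T.gm (t + 1) w) (T.b w) ≠
    I.k1 s t (T.c w, T.gm t w) (T.b w)) ≤ I.p0 + 1 := by
  have h1 : ∀ t, ind (I.k1 s (t + 1) (T.c w, T.gm (t + 1) w) (T.b w) ≠ I.k1 s t (T.c w, T.gm t w) (T.b w)) ≤
      ind (I.G1 (t + 1) (T.gm (t + 1) w) (T.b w) (T.c w) ≠ I.G1 t (T.gm t w) (T.b w) (T.c w)) +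
      ind (I.intr s (t + 1) (T.gm (t + 1) w) (T.b w) (T.c w) ∧ ¬ I.intr s t (T.gm t w) (T.b w) (T.c w)) := by
    intro t
    refine le_trans (ind_mono fun h => ?_) (ind_or_le _ _)
    by_contra h2
    push Not at h2
    obtain ⟨h3, h4⟩ := h2
    apply h
    have h5 : I.intr s (t + 1) (T.gm (t + 1) w) (T.b w) (T.c w) ↔ I.intr s t (T.gm t w) (T.b w) (T.c w) :=
      ⟨h4, I.intr_mono' s (Nat.le_succ t) w _ _⟩
    funext d
    unfold k1
    simp only [h3, h5]
  have h2 := mono_moves (fun t => I.intr s t (T.gm t w) (T.b w) (T.c w))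
    (fun t => I.intr_mono' s (Nat.le_succ t) w _ _) T.n
  have h3 := I.mv1 w
  have h4 := Finset.sum_le_sum fun t (_ : t ∈ range T.n) => h1 t
  rw [Finset.sum_add_distrib] at h4
  have h5 := ind_le_one (I.intr s T.n (T.gm T.n w) (T.b w) (T.c w))
  linarith

/-- the cap is antitone along the path -/
theorem capc_anti' (al : ℕ → Om → Set (S × (V → ℝ))) (Mc : ℝ) {t : ℕ} (w : Om) (b0 : B) (c0 : C)
    (h : I.capc al Mc (t + 1) (T.gm (t + 1) w) b0 c0) : I.capc al Mc t (T.gm t w) b0 c0 := by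
  obtain ⟨h1, h2⟩ := h
  constructor
  · refine le_trans (Finset.sum_le_sum fun s _ => ind_mono fun h3 => ?_) h1
    exact I.intr_mono' s (Nat.le_succ t) w _ _ h3
  · refine le_trans (Finset.sum_le_sum fun s _ => ind_mono fun h3 h4 => ?_) h2
    have h5 := T.hl_pre1 al s t (T.gm (t + 1) w) b0 c0
    rw [T.par_gm, h4] at h5
    exact h3 (List.prefix_nil.1 h5)

theorem k2_moves (al : ℕ → Om → Set (S × (V → ℝ))) (Mc : ℝ) (s s' : S) (i : ℕ) (w : Om) :
    ∑ t ∈ range T.n, ind (I.k2 al Mc s s' i (t + 1) (T.gm (t + 1) w) (T.b w, T.c w) ≠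
    I.k2 al Mc s s' i t (T.gm t w) (T.b w, T.c w)) ≤ I.p0 + 3 := by
  have h1 : ∀ t, ind (I.k2 al Mc s s' i (t + 1) (T.gm (t + 1) w) (T.b w, T.c w) ≠
      I.k2 al Mc s s' i t (T.gm t w) (T.b w, T.c w)) ≤
      ind (I.G1 (t + 1) (T.gm (t + 1) w) (T.b w) (T.c w) ≠ I.G1 t (T.gm t w) (T.b w) (T.c w)) +
      (ind (I.intr s (t + 1) (T.gm (t + 1) w) (T.b w) (T.c w) ∧ ¬ I.intr s t (T.gm t w) (T.b w) (T.c w)) +
      (ind (¬ I.capc al Mc (t + 1) (T.gm (t + 1) w) (T.b w) (T.c w) ∧ ¬ ¬ I.capc al Mc t (T.gm t w) (T.b w) (T.c w)) +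
      ind ((T.hl al s' (t + 1) (T.gm (t + 1) w) (T.b w) (T.c w)).getD i 0 ≠
        (T.hl al s' t (T.gm t w) (T.b w) (T.c w)).getD i 0))) := by
    intro t
    refine le_trans (ind_mono fun h => ?_) ((ind_or_le _ _).trans (add_le_add le_rfl ((ind_or_le _ _).trans
      (add_le_add le_rfl (ind_or_le _ _)))))
    by_contra h2
    push Not at h2
    obtain ⟨h3, h4, h6, h7⟩ := h2
    apply h
    have h5 : I.intr s (t + 1) (T.gm (t + 1) w) (T.b w) (T.c w) ↔ I.intr s t (T.gm t w) (T.b w) (T.c w) :=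
      ⟨h4, I.intr_mono' s (Nat.le_succ t) w _ _⟩
    have h8 : I.capc al Mc (t + 1) (T.gm (t + 1) w) (T.b w) (T.c w) ↔ I.capc al Mc t (T.gm t w) (T.b w) (T.c w) := by
      refine ⟨I.capc_anti' al Mc w _ _, fun h9 => ?_⟩
      by_contra h10
      exact h6 h10 h9
    funext d
    unfold k2
    simp only [h3, h5, h7, h8]
  have h2 := mono_moves (fun t => I.intr s t (T.gm t w) (T.b w) (T.c w))
    (fun t => I.intr_mono' s (Nat.le_succ t) w _ _) T.n
  have h2' := mono_moves (fun t => ¬ I.capc al Mc t (T.gm t w) (T.b w) (T.c w))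
    (fun t h h' => h (I.capc_anti' al Mc w _ _ h')) T.n
  have h3 := I.mv1 w
  have h3' := T.hl_moves al s' w (T.b w) (T.c w) i T.n
  have h4 := Finset.sum_le_sum fun t (_ : t ∈ range T.n) => h1 t
  rw [Finset.sum_add_distrib, Finset.sum_add_distrib, Finset.sum_add_distrib] at h4
  have h5 := ind_le_one (I.intr s T.n (T.gm T.n w) (T.b w) (T.c w))
  have h5' := ind_le_one (¬ I.capc al Mc T.n (T.gm T.n w) (T.b w) (T.c w))
  linarith

end Inp

end inp

end

end Pool.Agent.M3.S2
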