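import Pool.Agent.M3.S2.AlphB

/-!
# M3/S2/AlphO : number of values of a label, all the nodes compatible with a public path (helper52)

`codeG nd cl B w M x` : the births which contain `x`, with their node, cell, position (no fixed path).
`lab_of_codeG` : the label is a function of `codeG`, across the paths.
`val_opt` : for any finite sets `Oc t` of pairs (node, cell) the label takes at most `(pool + 1) ^ ⌊n1⌋₊` values on all
the individuals whose nodes and cells are in `Oc`, at all the times `≤ N`, with at most `n1` births.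
`poolO, E_poolO` : the pool of a public map.
-/

set_option autoImplicit false

namespace Pool.Agent.M3.S2

open Finset Pool.Agent.PWZ Pool.Agent.M3.TS

noncomputable section

section gen

variable {Om 𝒳 Γ κ β : Type*} {n : ℕ} {nd : ℕ → Om → Γ} {cl : ℕ → 𝒳 → κ} {B : ℕ → Γ → κ → List (Finset 𝒳)}
  {lam : ℕ → Γ → 𝒳 → β} {par : ℕ → Γ → Γ}

open Classical in
/-- the births which contain `x`, with their nodes -/
def codeG (nd : ℕ → Om → Γ) (cl : ℕ → 𝒳 → κ) (B : ℕ → Γ → κ → List (Finset 𝒳)) (w : Om) (N : ℕ) (x : 𝒳) :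
    Finset (ℕ × Γ × κ × ℕ) :=
  (range N).biUnion fun t =>
    (posn (B (t + 1) (nd (t + 1) w) (cl (t + 1) x)) x).image (fun j => (t, nd (t + 1) w, cl (t + 1) x, j))

theorem mem_codeG {w : Om} {N : ℕ} {x : 𝒳} {t : ℕ} {g : Γ} {k : κ} {j : ℕ} :
    (t, g, k, j) ∈ codeG nd cl B w N x ↔ t < N ∧ g = nd (t + 1) w ∧ k = cl (t + 1) x ∧
      j ∈ posn (B (t + 1) (nd (t + 1) w) (cl (t + 1) x)) x := by
  classical
  unfold codeG
  rw [Finset.mem_biUnion]
  constructor
  · rintro ⟨t', h1, h2⟩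
    obtain ⟨j', h3, h4⟩ := Finset.mem_image.1 h2
    simp only [Prod.mk.injEq] at h4
    obtain ⟨rfl, rfl, rfl, rfl⟩ := h4
    exact ⟨Finset.mem_range.1 h1, rfl, rfl, h3⟩
  · rintro ⟨h1, rfl, rfl, h3⟩
    exact ⟨t, Finset.mem_range.2 h1, Finset.mem_image.2 ⟨j, h3, rfl⟩⟩

theorem card_codeG (w : Om) (N : ℕ) (x : 𝒳) :
    ((codeG nd cl B w N x).card : ℝ) ≤ ∑ t ∈ range N, TS.cnt (B (t + 1) (nd (t + 1) w) (cl (t + 1) x)) x := by
  classical
  have h1 : (codeG nd cl B w N x).card ≤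
      ∑ t ∈ range N, (posn (B (t + 1) (nd (t + 1) w) (cl (t + 1) x)) x).card := by
    refine Finset.card_biUnion_le.trans (Finset.sum_le_sum fun t _ => Finset.card_image_le)
  calc ((codeG nd cl B w N x).card : ℝ) ≤
      ((∑ t ∈ range N, (posn (B (t + 1) (nd (t + 1) w) (cl (t + 1) x)) x).card : ℕ) : ℝ) := by exact_mod_cast h1
    _ = _ := by
      push_cast
      exact Finset.sum_congr rfl fun t _ => card_posn _ _

/-- a birth of `x` gives an element of the code -/
theorem codeG_of_mem {w : Om} {N : ℕ} {x : 𝒳} {t : ℕ} (ht : t < N) {S : Finset 𝒳}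
    (hS : S ∈ B (t + 1) (nd (t + 1) w) (cl (t + 1) x)) (hx : x ∈ S) :
    ∃ j, (t, nd (t + 1) w, cl (t + 1) x, j) ∈ codeG nd cl B w N x := by
  obtain ⟨j, hj, hjS⟩ := List.mem_iff_getElem.1 hS
  refine ⟨j, mem_codeG.2 ⟨ht, rfl, rfl, mem_posn.2 ⟨S, ?_, hx⟩⟩⟩
  rw [List.getElem?_eq_getElem hj, hjS]

theorem nd_anc (hpar : ∀ t w, par t (nd (t + 1) w) = nd t w) {w w' : Om} {t j : ℕ} (h : j ≤ t)
    (hw : nd t w = nd t w') : nd j w = nd j w' := by
  induction t with
  | zero =>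
    have : j = 0 := by omega
    subst this
    exact hw
  | succ t ih =>
    rcases Nat.lt_or_ge t j with h1 | h1
    · have : j = t + 1 := by omega
      subst this
      exact hw
    · refine ih h1 ?_
      rw [← hpar t w, ← hpar t w', hw]

/-- the label is a function of the code, across the paths -/
theorem lab_of_codeG (hlam : LMeas n nd cl B lam) (hpar : ∀ t w, par t (nd (t + 1) w) = nd t w) {w w' : Om}
    {M M' : ℕ} (hM : M ≤ n) (hM' : M' ≤ n) {x x' : 𝒳} (h : codeG nd cl B w M x = codeG nd cl B w' M' x') :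
    lam M (nd M w) x = lam M' (nd M' w') x' := by
  classical
  by_cases he : codeG nd cl B w M x = ∅
  · have he' : codeG nd cl B w' M' x' = ∅ := by rw [← h]; exact he
    have key : ∀ {w : Om} {M : ℕ} {x : 𝒳}, M ≤ n → codeG nd cl B w M x = ∅ →
        lam M (nd M w) x = lam 0 (nd 0 w) x := by
      intro w M x hM he
      refine lab_stay hlam w (Nat.zero_le M) hM fun t _ ht S hS hx => ?_
      obtain ⟨j, hj⟩ := codeG_of_mem ht hS hx
      rw [he] at hj
      exact absurd hj (Finset.notMem_empty _)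
    rw [key hM he, key hM' he']
    exact hlam.zero _ _ _ _
  · obtain ⟨p0, hp0⟩ := Finset.nonempty_iff_ne_empty.2 he
    obtain ⟨p, hp, hmax⟩ := Finset.exists_max_image (codeG nd cl B w M x) (fun p => p.1) ⟨p0, hp0⟩
    obtain ⟨T0, g, k, j⟩ := p
    have h1 := mem_codeG.1 hp
    have hp' : (T0, g, k, j) ∈ codeG nd cl B w' M' x' := by rw [← h]; exact hp
    have h1' := mem_codeG.1 hp'
    obtain ⟨hT, hg, hk, hj⟩ := h1
    obtain ⟨hT', hg', hk', hj'⟩ := h1'
    have hnd : nd (T0 + 1) w = nd (T0 + 1) w' := by rw [← hg, ← hg']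
    have hanc : ∀ i ≤ T0 + 1, nd i w = nd i w' := fun i hi => nd_anc hpar hi hnd
    -- no births after `T0`
    have s1 : lam M (nd M w) x = lam (T0 + 1) (nd (T0 + 1) w) x := by
      refine lab_stay hlam w (by omega) hM fun t ht1 ht2 S hS hx => ?_
      obtain ⟨i, hi⟩ := codeG_of_mem ht2 hS hx
      have := hmax _ hi
      simp only at this
      omega
    have s2 : lam M' (nd M' w') x' = lam (T0 + 1) (nd (T0 + 1) w') x' := by
      refine lab_stay hlam w' (by omega) hM' fun t ht1 ht2 S hS hx => ?_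
      obtain ⟨i, hi⟩ := codeG_of_mem ht2 hS hx
      rw [← h] at hi
      have := hmax _ hi
      simp only at this
      omega
    rw [s1, s2, ← hnd]
    refine lab_of_code hlam w (by omega) ?_
    ext ⟨t, k, j⟩
    rw [mem_codeF, mem_codeF]
    constructor
    · rintro ⟨h2, h3, h4⟩
      have h5 : (t, nd (t + 1) w, k, j) ∈ codeG nd cl B w M x := mem_codeG.2 ⟨by omega, rfl, h3, h4⟩
      rw [h, mem_codeG] at h5
      obtain ⟨-, h6, h7, h8⟩ := h5
      rw [← hanc (t + 1) (by omega)] at h8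
      exact ⟨h2, h7, h8⟩
    · rintro ⟨h2, h3, h4⟩
      rw [hanc (t + 1) (by omega)] at h4
      have h5 : (t, nd (t + 1) w', k, j) ∈ codeG nd cl B w' M' x' := mem_codeG.2 ⟨by omega, rfl, h3, h4⟩
      rw [← h, mem_codeG] at h5
      obtain ⟨-, h6, h7, h8⟩ := h5
      exact ⟨h2, h7, h8⟩

/-- number of values of a label on all the individuals with nodes and cells in `Oc` and at most `n1` births -/
theorem val_opt (hlam : LMeas n nd cl B lam) (hpar : ∀ t w, par t (nd (t + 1) w) = nd t w) {N : ℕ} (hN : N ≤ n)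
    (Oc : ℕ → Finset (Γ × κ)) (n1 : ℝ) :
    ∃ s : Finset β, s.card ≤ ((∑ t ∈ range N, ∑ p ∈ Oc (t + 1), (B (t + 1) p.1 p.2).length) + 1) ^ ⌊n1⌋₊ ∧
      ∀ M ≤ N, ∀ w x, (∀ t < M, (nd (t + 1) w, cl (t + 1) x) ∈ Oc (t + 1)) →
        ∑ t ∈ range M, TS.cnt (B (t + 1) (nd (t + 1) w) (cl (t + 1) x)) x ≤ n1 →
        lam M (nd M w) x ∈ s := by
  classical
  set r := ⌊n1⌋₊ with hr
  set pool : Finset (ℕ × Γ × κ × ℕ) := (range N).biUnion fun t => (Oc (t + 1)).biUnion fun p =>
    (range (B (t + 1) p.1 p.2).length).image (fun j => (t, p.1, p.2, j)) with hpool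
  have hcard : pool.card ≤ ∑ t ∈ range N, ∑ p ∈ Oc (t + 1), (B (t + 1) p.1 p.2).length := by
    refine Finset.card_biUnion_le.trans (Finset.sum_le_sum fun t _ => ?_)
    refine Finset.card_biUnion_le.trans (Finset.sum_le_sum fun k _ => ?_)
    exact Finset.card_image_le.trans (le_of_eq (Finset.card_range _))
  let pick : Finset (ℕ × Γ × κ × ℕ) → Finset β := fun u =>
    if h : ∃ p : ℕ × Om × 𝒳, p.1 ≤ N ∧ codeG nd cl B p.2.1 p.1 p.2.2 = u then
      {lam h.choose.1 (nd h.choose.1 h.choose.2.1) h.choose.2.2} else ∅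
  have hpick : ∀ u, (pick u).card ≤ 1 := by
    intro u
    show (if h : ∃ p : ℕ × Om × 𝒳, p.1 ≤ N ∧ codeG nd cl B p.2.1 p.1 p.2.2 = u then
      ({lam h.choose.1 (nd h.choose.1 h.choose.2.1) h.choose.2.2} : Finset β) else ∅).card ≤ 1
    split_ifs with h
    · simp
    · simp
  refine ⟨(pool.powerset.filter (fun u => u.card ≤ r)).biUnion pick, ?_, ?_⟩
  · calc ((pool.powerset.filter (fun u => u.card ≤ r)).biUnion pick).card
        ≤ ∑ u ∈ pool.powerset.filter (fun u => u.card ≤ r), (pick u).card := Finset.card_biUnion_le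
      _ ≤ ∑ u ∈ pool.powerset.filter (fun u => u.card ≤ r), 1 := Finset.sum_le_sum fun u _ => hpick u
      _ = (pool.powerset.filter (fun u => u.card ≤ r)).card := by simp
      _ ≤ (pool.card + 1) ^ r := small_card pool r
      _ ≤ _ := Nat.pow_le_pow_left (Nat.add_le_add_right hcard 1) r
  · intro M hM w x hx1 hx2
    rw [Finset.mem_biUnion]
    refine ⟨codeG nd cl B w M x, ?_, ?_⟩
    · rw [Finset.mem_filter, Finset.mem_powerset]
      constructor
      · rintro ⟨t, g, k, j⟩ h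
        obtain ⟨h1, rfl, rfl, h3⟩ := mem_codeG.1 h
        rw [hpool, Finset.mem_biUnion]
        refine ⟨t, Finset.mem_range.2 (by omega), ?_⟩
        rw [Finset.mem_biUnion]
        exact ⟨_, hx1 t h1, Finset.mem_image.2 ⟨j, (Finset.mem_filter.1 h3).1, rfl⟩⟩
      · exact Nat.le_floor ((card_codeG w M x).trans hx2)
    · have hex : ∃ p : ℕ × Om × 𝒳, p.1 ≤ N ∧ codeG nd cl B p.2.1 p.1 p.2.2 =
        codeG nd cl B w M x := ⟨(M, w, x), hM, rfl⟩
      show lam M (nd M w) x ∈ (if h : ∃ p : ℕ × Om × 𝒳, p.1 ≤ N ∧ codeG nd cl B p.2.1 p.1 p.2.2 =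
        codeG nd cl B w M x then
        ({lam h.choose.1 (nd h.choose.1 h.choose.2.1) h.choose.2.2} : Finset β) else ∅)
      rw [dif_pos hex, Finset.mem_singleton]
      exact (lab_of_codeG hlam hpar (hex.choose_spec.1.trans hN) (hM.trans hN) hex.choose_spec.2).symm

end gen

/-! ### the pool of a public map -/

section pub

variable {Om Γ κ υ : Type*} [Fintype Om]

open Classical in
/-- pairs (node, cell) compatible with the public value -/
def Opt (Y : ℕ → Om → υ) (Z : ℕ → Om → Γ × κ) (t : ℕ) (w : Om) : Finset (Γ × κ) :=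
  ((univ : Finset Om).filter (fun w' => Y t w' = Y t w)).image (Z t)

theorem mem_Opt {Y : ℕ → Om → υ} {Z : ℕ → Om → Γ × κ} {t : ℕ} {w : Om} {p : Γ × κ} :
    p ∈ Opt Y Z t w ↔ ∃ w', Y t w' = Y t w ∧ Z t w' = p := by
  classical
  unfold Opt
  rw [Finset.mem_image]
  constructor
  · rintro ⟨w', h1, h2⟩
    exact ⟨w', (Finset.mem_filter.1 h1).2, h2⟩
  · rintro ⟨w', h1, h2⟩
    exact ⟨w', Finset.mem_filter.2 ⟨Finset.mem_univ _, h1⟩, h2⟩

/-- births at all the compatible nodes and cells along the public path -/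
def poolO {𝒳 : Type*} (Y : ℕ → Om → υ) (Z : ℕ → Om → Γ × κ) (B : ℕ → Γ → κ → List (Finset 𝒳)) (N : ℕ) (w : Om) :
    ℕ :=
  ∑ t ∈ range N, ∑ p ∈ Opt Y Z (t + 1) w, (B (t + 1) p.1 p.2).length

theorem E_poolO {𝒳 : Type*} (P : FP Om) (Y : ℕ → Om → υ) (Z : ℕ → Om → Γ × κ) (B : ℕ → Γ → κ → List (Finset 𝒳))
    (N : ℕ) {K : ℝ}
    (h : ∀ t < N, ∀ p, P.Pr (fun w => p ∈ Opt Y Z (t + 1) w) ≤ K * P.Pr (fun w => Z (t + 1) w = p)) :
    P.E (fun w => (poolO Y Z B N w : ℝ)) ≤
      K * ∑ t ∈ range N, P.E (fun w => ((B (t + 1) (Z (t + 1) w).1 (Z (t + 1) w).2).length : ℝ)) := by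
  unfold poolO
  simp only [Nat.cast_sum]
  rw [P.E_sum, Finset.mul_sum]
  refine Finset.sum_le_sum fun t ht => ?_
  refine count_E P (fun _ => ()) (Z (t + 1)) (Opt Y Z (t + 1)) (fun y k => ?_)
    (fun _ p => ((B (t + 1) p.1 p.2).length : ℝ)) (fun _ _ => Nat.cast_nonneg _)
  have h1 := h t (Finset.mem_range.1 ht) k
  refine le_trans (P.Pr_mono fun w _ h2 => h2.2) (h1.trans (le_of_eq ?_))
  congr 1
  exact P.Pr_congr fun w _ => ⟨fun h2 => ⟨rfl, h2⟩, fun h2 => h2.2⟩

end pub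

end

end Pool.Agent.M3.S2
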