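import Pool.Agent.M3.S2.Sys

/-!
# M3/S2/RecB : number of references recorded in stage 2 (helper21)

* `weak_max` : weak type bound by maximal cells, for an abstract notion of touched cell;
* `Tri.tch2` : cells touched in two steps (through a cell of the third vertex), `Tri.tch2_cnt` : count `K ^ 2`;
* `Inp.MB` : maximal density over the touched cells, `MB_weak`, `MB_supp`, `sum_MB`;
* `Inp.NB_mean` : `E #NB <= 2 R0 K^2 (2^-k Ms + 2 k Λ)`, `NB_tail`; `NB_mono`, `NB_congr`, `N1_NB`;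
* `Inp.xi_unif` : the threshold of `s` is uniform given `(a, b, node)`.
-/

set_option autoImplicit false
set_option linter.unusedSectionVars false

namespace Pool.Agent.M3.S2

open Finset Pool.Agent.PWZ Pool.Agent.M3.TS

noncomputable section

private theorem ind_iff {p q : Prop} (h : p ↔ q) : ind p = ind q := by
  rw [propext h]

/-- density of `E` in the cell `k` -/
def denE {B κ : Type} [Fintype B] (cb : B → κ) (E : B → Prop) (k : κ) : ℝ :=
  (∑ b' ∈ cel cb k, ind (E b')) / ((cel cb k).card : ℝ)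

theorem denE_nonneg {B κ : Type} [Fintype B] (cb : B → κ) (E : B → Prop) (k : κ) : 0 ≤ denE cb E k :=
  div_nonneg (Finset.sum_nonneg fun _ _ => ind_nonneg _) (Nat.cast_nonneg _)

theorem denE_le_one {B κ : Type} [Fintype B] (cb : B → κ) (E : B → Prop) (k : κ) : denE cb E k ≤ 1 := by
  unfold denE
  refine div_le_one_of_le₀ ?_ (Nat.cast_nonneg _)
  calc ∑ b' ∈ cel cb k, ind (E b') ≤ ∑ b' ∈ cel cb k, (1 : ℝ) :=
        Finset.sum_le_sum fun _ _ => ind_le_one _
    _ = _ := by simp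

/-- from nodes to events of nodes -/
theorem sum_node {Om Γ : Type} [Fintype Om] (P : FP Om) (X : Om → Γ) (S T : Om → Prop) (Q : Om → Prop)
    (hQ : ∀ v w, X v = X w → (Q v ↔ Q w)) {K : ℝ}
    (h : ∀ g, P.Pr (fun w => S w ∧ X w = g) ≤ K * P.Pr (fun w => T w ∧ X w = g)) :
    P.Pr (fun w => S w ∧ Q w) ≤ K * P.Pr (fun w => T w ∧ Q w) := by
  classical
  have key : ∀ U : Om → Prop, P.Pr (fun w => U w ∧ Q w) =
      ∑ g ∈ (univ.filter Q).image X, P.Pr (fun w => U w ∧ X w = g) := by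
    intro U
    unfold FP.Pr
    rw [← P.E_sum]
    refine P.E_congr fun w _ => ?_
    by_cases hq : Q w
    · rw [Finset.sum_eq_single (X w)]
      · by_cases hu : U w
        · rw [ind_of ⟨hu, hq⟩, ind_of ⟨hu, rfl⟩]
        · rw [ind_not (fun h => hu h.1), ind_not (fun h => hu h.1)]
      · intro g _ hg
        exact ind_not fun h => hg h.2.symm
      · intro h
        exact absurd (Finset.mem_image.2 ⟨w, Finset.mem_filter.2 ⟨Finset.mem_univ w, hq⟩, rfl⟩) h
    · rw [ind_not (fun h => hq h.2), Finset.sum_eq_zero]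
      intro g hg
      obtain ⟨v, hv, hvg⟩ := Finset.mem_image.1 hg
      refine ind_not fun h => hq ?_
      exact (hQ v w (hvg.trans h.2.symm)).1 (Finset.mem_filter.1 hv).2
  rw [key, key, Finset.mul_sum]
  exact Finset.sum_le_sum fun g _ => h g

/-- **weak type bound by maximal cells** : `tch t w β` = the cell `β` is touched at the time `t` -/
theorem weak_max {Om A B Γ κ : Type} [Fintype Om] [Fintype B] (P : FP Om) (a : Om → A) (b : Om → B)
    (gm : ℕ → Om → Γ) (hgm : ∀ t v w, gm (t + 1) v = gm (t + 1) w → gm t v = gm t w)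
    (cb : ℕ → B → κ) (hn : ∀ t b b', cb (t + 1) b = cb (t + 1) b' → cb t b = cb t b')
    (n : ℕ) (tch : ℕ → Om → κ → Prop)
    (hmono : ∀ t w b', tch (t + 1) w (cb (t + 1) b') → tch t w (cb t b'))
    {K : ℝ} (hK : 0 ≤ K) (a0 : A)
    (hcnt : ∀ t ≤ n, ∀ g b', P.Pr (fun w => (a w = a0 ∧ tch t w (cb t b')) ∧ gm t w = g) ≤
      K * P.Pr (fun w => (a w = a0 ∧ cb t (b w) = cb t b') ∧ gm t w = g))
    (t0 : ℕ) (g0 : Γ) (c0 : ℝ)
    (hun : ∀ b0, P.Pr (fun w => (a w = a0 ∧ gm t0 w = g0) ∧ b w = b0) = c0)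
    (E : B → Prop) {y : ℝ} (hy : 0 < y) :
    y * P.Pr (fun w => (a w = a0 ∧ gm t0 w = g0) ∧ ∃ t ≤ n, t0 ≤ t ∧ ∃ b', tch t w (cb t b') ∧
      y ≤ denE (cb t) E (cb t b')) ≤
      K * P.Pr (fun w => (a w = a0 ∧ gm t0 w = g0) ∧ E (b w)) := by
  classical
  set fb : ℕ → B → Prop := fun t b' => t0 ≤ t ∧ y ≤ denE (cb t) E (cb t b') ∧
    ∀ u, t0 ≤ u → u < t → ¬ y ≤ denE (cb u) E (cb u b') with hfb
  have hcell : ∀ t b' b'', cb t b' = cb t b'' → (fb t b' ↔ fb t b'') := by
    intro t b' b'' h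
    have h' : ∀ u, u ≤ t → cb u b' = cb u b'' := fun u hu => Pool.Agent.M3.S2.nest_le hn hu h
    simp only [hfb, h]
    refine and_congr_right fun _ => and_congr_right fun _ => ?_
    refine forall_congr' fun u => forall_congr' fun _ => forall_congr' fun hu => ?_
    rw [h' u hu.le]
  have huniq : ∀ b' t t', fb t b' → fb t' b' → t = t' := by
    intro b' t t' h h'
    rcases lt_trichotomy t t' with h1 | h1 | h1
    · exact absurd h.2.1 (h'.2.2 t h.1 h1)
    · exact h1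
    · exact absurd h'.2.1 (h.2.2 t' h'.1 h1)
  have hc0 : 0 ≤ c0 ∨ IsEmpty B := by
    rcases isEmpty_or_nonempty B with h | ⟨⟨b0⟩⟩
    · exact Or.inr h
    · exact Or.inl (by rw [← hun b0]; exact P.Pr_nonneg _)
  -- the event is covered
  have hcov : ∀ w, ind ((a w = a0 ∧ gm t0 w = g0) ∧ ∃ t ≤ n, t0 ≤ t ∧ ∃ b', tch t w (cb t b') ∧
      y ≤ denE (cb t) E (cb t b')) ≤
      ∑ t ∈ range (n + 1), ∑ b', ind (fb t b') / ((cel (cb t) (cb t b')).card : ℝ) *
        ind ((a w = a0 ∧ tch t w (cb t b')) ∧ gm t0 w = g0) := by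
    intro w
    by_cases hex : (a w = a0 ∧ gm t0 w = g0) ∧ ∃ t ≤ n, t0 ≤ t ∧ ∃ b', tch t w (cb t b') ∧
      y ≤ denE (cb t) E (cb t b')
    · rw [ind_of hex]
      obtain ⟨hag, t, htn, ht0, b', htch, hyd⟩ := hex
      have hex' : ∃ u, t0 ≤ u ∧ y ≤ denE (cb u) E (cb u b') := ⟨t, ht0, hyd⟩
      set u := Nat.find hex' with hu
      have hu1 := Nat.find_spec hex'
      have hut : u ≤ t := Nat.find_min' hex' ⟨ht0, hyd⟩
      have hfbu : fb u b' := ⟨hu1.1, hu1.2, fun v hv1 hv2 hv3 => Nat.find_min hex' hv2 ⟨hv1, hv3⟩⟩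
      have htu : tch u w (cb u b') := by
        have hm : ∀ d, d ≤ t → tch (t - d) w (cb (t - d) b') := by
          intro d
          induction d with
          | zero => intro _; simpa using htch
          | succ d ih =>
            intro hd
            have h1 := ih (by omega)
            have h2 : t - d = (t - (d + 1)) + 1 := by omega
            rw [h2] at h1
            exact hmono _ _ _ h1
        have h3 := hm (t - u) (by omega)
        have h4 : t - (t - u) = u := by omega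
        rwa [h4] at h3
      have hterm : ∀ t ∈ range (n + 1), (0 : ℝ) ≤ ∑ b', ind (fb t b') / ((cel (cb t) (cb t b')).card : ℝ) *
          ind ((a w = a0 ∧ tch t w (cb t b')) ∧ gm t0 w = g0) := fun t _ =>
        Finset.sum_nonneg fun b' _ => mul_nonneg (div_nonneg (ind_nonneg _) (Nat.cast_nonneg _))
          (ind_nonneg _)
      refine le_trans ?_ (Finset.single_le_sum hterm (Finset.mem_range.2 (show u < n + 1 by omega)))
      have hsub : ∑ b'' ∈ cel (cb u) (cb u b'), ind (fb u b'') / ((cel (cb u) (cb u b'')).card : ℝ) *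
          ind ((a w = a0 ∧ tch u w (cb u b'')) ∧ gm t0 w = g0) ≤
          ∑ b'', ind (fb u b'') / ((cel (cb u) (cb u b'')).card : ℝ) *
          ind ((a w = a0 ∧ tch u w (cb u b'')) ∧ gm t0 w = g0) :=
        Finset.sum_le_sum_of_subset_of_nonneg (Finset.subset_univ _) fun b'' _ _ =>
          mul_nonneg (div_nonneg (ind_nonneg _) (Nat.cast_nonneg _)) (ind_nonneg _)
      refine le_trans (le_of_eq ?_) hsub
      have hconst : ∀ b'' ∈ cel (cb u) (cb u b'), ind (fb u b'') / ((cel (cb u) (cb u b'')).card : ℝ) *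
          ind ((a w = a0 ∧ tch u w (cb u b'')) ∧ gm t0 w = g0) =
          1 / ((cel (cb u) (cb u b')).card : ℝ) := by
        intro b'' hb''
        have h5 : cb u b'' = cb u b' := mem_cel.1 hb''
        rw [h5, ind_of ((hcell u b'' b' h5).2 hfbu), ind_of ⟨⟨hag.1, htu⟩, hag.2⟩, mul_one]
      rw [Finset.sum_congr rfl hconst, Finset.sum_const, nsmul_eq_mul]
      have hne : ((cel (cb u) (cb u b')).card : ℝ) ≠ 0 := by
        have : 0 < (cel (cb u) (cb u b')).card := Finset.card_pos.2 ⟨b', mem_cel.2 rfl⟩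
        exact_mod_cast this.ne'
      field_simp
    · rw [ind_not hex]
      exact Finset.sum_nonneg fun t _ => Finset.sum_nonneg fun b' _ =>
        mul_nonneg (div_nonneg (ind_nonneg _) (Nat.cast_nonneg _)) (ind_nonneg _)
  -- probability of a cell
  have hpc : ∀ t b', P.Pr (fun w => (a w = a0 ∧ cb t (b w) = cb t b') ∧ gm t0 w = g0) =
      ((cel (cb t) (cb t b')).card : ℝ) * c0 := by
    intro t b'
    have h1 : P.Pr (fun w => (a w = a0 ∧ cb t (b w) = cb t b') ∧ gm t0 w = g0) =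
        ∑ b'' ∈ cel (cb t) (cb t b'), P.Pr (fun w => (a w = a0 ∧ gm t0 w = g0) ∧ b w = b'') := by
      unfold FP.Pr
      rw [← P.E_sum]
      refine P.E_congr fun w _ => ?_
      by_cases hb : cb t (b w) = cb t b'
      · rw [Finset.sum_eq_single (b w)]
        · exact ind_iff ⟨fun h => ⟨⟨h.1.1, h.2⟩, rfl⟩, fun h => ⟨⟨h.1.1, hb⟩, h.1.2⟩⟩
        · intro b'' _ hb''
          exact ind_not fun h => hb'' h.2.symm
        · intro h
          exact absurd (mem_cel.2 hb) h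
      · rw [ind_not (fun h => hb h.1.2), Finset.sum_eq_zero]
        intro b'' hb''
        refine ind_not fun h => hb ?_
        rw [h.2]; exact mem_cel.1 hb''
    rw [h1, Finset.sum_congr rfl (fun b'' _ => hun b''), Finset.sum_const, nsmul_eq_mul]
  -- the count, with the node of time t0
  have hcnt' : ∀ t ≤ n, t0 ≤ t → ∀ b', P.Pr (fun w => (a w = a0 ∧ tch t w (cb t b')) ∧ gm t0 w = g0) ≤
      K * (((cel (cb t) (cb t b')).card : ℝ) * c0) := by
    intro t ht ht0 b'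
    rw [← hpc t b']
    refine sum_node P (gm t) _ _ (fun w => gm t0 w = g0) (fun v w hvw => ?_) (fun g => hcnt t ht g b')
    have : gm t0 v = gm t0 w := by
      have hm : ∀ d, gm (t - d) v = gm (t - d) w := by
        intro d
        induction d with
        | zero => simpa using hvw
        | succ d ih =>
          rcases Nat.lt_or_ge d t with hd | hd
          · have h2 : t - d = (t - (d + 1)) + 1 := by omega
            rw [h2] at ih
            exact hgm _ _ _ ih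
          · have h2 : t - (d + 1) = t - d := by omega
            rw [h2]; exact ih
      have h3 := hm (t - t0)
      have h4 : t - (t - t0) = t0 := by omega
      rwa [h4] at h3
    rw [this]
  -- the target
  have htar : P.Pr (fun w => (a w = a0 ∧ gm t0 w = g0) ∧ E (b w)) = ∑ b', ind (E b') * c0 := by
    unfold FP.Pr
    have : ∀ w, ind ((a w = a0 ∧ gm t0 w = g0) ∧ E (b w)) =
        ∑ b', ind (E b') * ind ((a w = a0 ∧ gm t0 w = g0) ∧ b w = b') := by
      intro w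
      rw [Finset.sum_eq_single (b w)]
      · by_cases h1 : a w = a0 ∧ gm t0 w = g0
        · by_cases h2 : E (b w)
          · rw [ind_of ⟨h1, h2⟩, ind_of h2, ind_of ⟨h1, rfl⟩, mul_one]
          · rw [ind_not (fun h => h2 h.2), ind_not h2, zero_mul]
        · rw [ind_not (fun h : (a w = a0 ∧ gm t0 w = g0) ∧ E (b w) => h1 h.1),
            ind_not (fun h : (a w = a0 ∧ gm t0 w = g0) ∧ b w = b w => h1 h.1), mul_zero]
      · intro b' _ hb'
        rw [ind_not (fun h : (a w = a0 ∧ gm t0 w = g0) ∧ b w = b' => hb' h.2.symm), mul_zero]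
      · intro h; exact absurd (Finset.mem_univ _) h
    rw [P.E_congr fun w _ => this w, P.E_sum]
    refine Finset.sum_congr rfl fun b' _ => ?_
    rw [P.E_smul]
    have := hun b'
    unfold FP.Pr at this
    rw [this]
  -- conclusion
  rcases hc0 with hc0 | hemp
  swap
  · have h0 : P.Pr (fun w => (a w = a0 ∧ gm t0 w = g0) ∧ ∃ t ≤ n, t0 ≤ t ∧ ∃ b', tch t w (cb t b') ∧
      y ≤ denE (cb t) E (cb t b')) = 0 := by
      unfold FP.Pr
      exact (P.E_congr (g := fun _ => 0) fun w _ => ind_not fun h => hemp.false (b w)).trans (P.E_const 0)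
    rw [h0, mul_zero]
    exact mul_nonneg hK (P.Pr_nonneg _)
  have hbound : P.Pr (fun w => (a w = a0 ∧ gm t0 w = g0) ∧ ∃ t ≤ n, t0 ≤ t ∧ ∃ b', tch t w (cb t b') ∧
      y ≤ denE (cb t) E (cb t b')) ≤
      ∑ t ∈ range (n + 1), ∑ b', ind (fb t b') * (K * c0) := by
    unfold FP.Pr
    refine (P.E_mono fun w _ => hcov w).trans ?_
    rw [P.E_sum]
    refine Finset.sum_le_sum fun t ht => ?_
    rw [P.E_sum]
    refine Finset.sum_le_sum fun b' _ => ?_
    rw [P.E_smul]
    by_cases hf : fb t b'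
    · rw [ind_of hf]
      have h1 := hcnt' t (by have := Finset.mem_range.1 ht; omega) hf.1 b'
      unfold FP.Pr at h1
      have hpos : (0 : ℝ) < ((cel (cb t) (cb t b')).card : ℝ) := by
        have : 0 < (cel (cb t) (cb t b')).card := Finset.card_pos.2 ⟨b', mem_cel.2 rfl⟩
        exact_mod_cast this
      calc 1 / ((cel (cb t) (cb t b')).card : ℝ) *
            P.E (fun w => ind ((a w = a0 ∧ tch t w (cb t b')) ∧ gm t0 w = g0))
          ≤ 1 / ((cel (cb t) (cb t b')).card : ℝ) * (K * (((cel (cb t) (cb t b')).card : ℝ) * c0)) :=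
            mul_le_mul_of_nonneg_left h1 (by positivity)
        _ = 1 * (K * c0) := by field_simp
    · rw [ind_not hf, zero_div, zero_mul, zero_mul]
  have hsum : ∑ t ∈ range (n + 1), ∑ b', ind (fb t b') * y ≤ ∑ b', ind (E b') := by
    have h1 : ∀ t, ∑ b', ind (fb t b') * y ≤ ∑ b'', ind (E b'') * ind (fb t b'') := by
      intro t
      calc ∑ b', ind (fb t b') * y ≤ ∑ b', ind (fb t b') * denE (cb t) E (cb t b') := by
            refine Finset.sum_le_sum fun b' _ => ?_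
            by_cases hf : fb t b'
            · exact mul_le_mul_of_nonneg_left hf.2.1 (ind_nonneg _)
            · rw [ind_not hf, zero_mul, zero_mul]
        _ = ∑ b', ∑ b'', ind (cb t b'' = cb t b') * (ind (E b'') * ind (fb t b'') /
              ((cel (cb t) (cb t b'')).card : ℝ)) := by
            refine Finset.sum_congr rfl fun b' _ => ?_
            unfold denE
            rw [mul_div_assoc', Finset.mul_sum, Finset.sum_div]
            have h2 : ∑ b'' ∈ cel (cb t) (cb t b'), ind (fb t b') * ind (E b'') /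
                ((cel (cb t) (cb t b')).card : ℝ) =
                ∑ b'' ∈ cel (cb t) (cb t b'), ind (cb t b'' = cb t b') * (ind (E b'') * ind (fb t b'') /
                  ((cel (cb t) (cb t b'')).card : ℝ)) := by
              refine Finset.sum_congr rfl fun b'' hb'' => ?_
              have h3 : cb t b'' = cb t b' := mem_cel.1 hb''
              rw [ind_of h3, h3, ind_iff (hcell t b'' b' h3)]
              ring
            rw [h2]
            refine Finset.sum_subset (Finset.subset_univ _) fun b'' _ hb'' => ?_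
            rw [ind_not (fun h => hb'' (mem_cel.2 h)), zero_mul]
        _ = ∑ b'', ind (E b'') * ind (fb t b'') := by
            rw [Finset.sum_comm]
            refine Finset.sum_congr rfl fun b'' _ => ?_
            rw [← Finset.sum_mul]
            have h4 : ∑ b', ind (cb t b'' = cb t b') = ((cel (cb t) (cb t b'')).card : ℝ) := by
              unfold cel
              rw [Finset.card_filter]
              push_cast
              refine Finset.sum_congr rfl fun b' _ => ?_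
              by_cases h : cb t b' = cb t b''
              · rw [ind_of h.symm, if_pos h]
              · rw [ind_not (fun h' => h h'.symm), if_neg h]
            rw [h4]
            have hne : ((cel (cb t) (cb t b'')).card : ℝ) ≠ 0 := by
              have : 0 < (cel (cb t) (cb t b'')).card := Finset.card_pos.2 ⟨b'', mem_cel.2 rfl⟩
              exact_mod_cast this.ne'
            field_simp
    refine (Finset.sum_le_sum fun t _ => h1 t).trans ?_
    rw [Finset.sum_comm]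
    refine Finset.sum_le_sum fun b'' _ => ?_
    rw [← Finset.mul_sum]
    refine mul_le_of_le_one_right (ind_nonneg _) ?_
    by_cases hex : ∃ t ∈ range (n + 1), fb t b''
    · obtain ⟨t, ht, hf⟩ := hex
      rw [Finset.sum_eq_single t]
      · exact ind_le_one _
      · intro t' _ hne
        exact ind_not fun hf' => hne (huniq b'' t' t hf' hf)
      · intro h; exact absurd ht h
    · rw [Finset.sum_eq_zero]
      · norm_num
      · intro t ht
        exact ind_not fun hf => hex ⟨t, ht, hf⟩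
  calc y * P.Pr (fun w => (a w = a0 ∧ gm t0 w = g0) ∧ ∃ t ≤ n, t0 ≤ t ∧ ∃ b', tch t w (cb t b') ∧
      y ≤ denE (cb t) E (cb t b')) ≤ y * ∑ t ∈ range (n + 1), ∑ b', ind (fb t b') * (K * c0) :=
        mul_le_mul_of_nonneg_left hbound hy.le
    _ = (∑ t ∈ range (n + 1), ∑ b', ind (fb t b') * y) * (K * c0) := by
        rw [Finset.mul_sum, Finset.sum_mul]
        refine Finset.sum_congr rfl fun t _ => ?_
        rw [Finset.mul_sum, Finset.sum_mul]
        exact Finset.sum_congr rfl fun b' _ => by ring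
    _ ≤ (∑ b', ind (E b')) * (K * c0) := mul_le_mul_of_nonneg_right hsum (mul_nonneg hK hc0)
    _ = K * P.Pr (fun w => (a w = a0 ∧ gm t0 w = g0) ∧ E (b w)) := by
        rw [htar, Finset.mul_sum, Finset.sum_mul]
        exact Finset.sum_congr rfl fun b' _ => by ring

/-! ## application -/

/-- decomposition over the values of `a` -/
theorem Pr_sum_fib {Om A : Type} [Fintype Om] [Fintype A] (P : FP Om) (a : Om → A) (Q : Om → Prop) :
    P.Pr Q = ∑ a0, P.Pr (fun w => a w = a0 ∧ Q w) := by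
  classical
  unfold FP.Pr
  rw [← P.E_sum]
  refine P.E_congr fun w _ => ?_
  rw [Finset.sum_eq_single (a w)]
  · exact ind_iff ⟨fun h => ⟨rfl, h⟩, fun h => h.2⟩
  · intro a0 _ h
    exact ind_not fun h' => h h'.1.symm
  · intro h; exact absurd (Finset.mem_univ _) h

/-- union over a finite set of values -/
theorem Pr_mem_sum {Om ι : Type} [Fintype Om] (P : FP Om) (X : Om → ι) (s : Finset ι) (Q : Om → Prop) :
    P.Pr (fun w => X w ∈ s ∧ Q w) = ∑ x ∈ s, P.Pr (fun w => Q w ∧ X w = x) := by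
  classical
  unfold FP.Pr
  rw [← P.E_sum]
  refine P.E_congr fun w _ => ?_
  by_cases h : X w ∈ s
  · rw [Finset.sum_eq_single (X w)]
    · exact ind_iff ⟨fun h => ⟨h.2, rfl⟩, fun h' => ⟨h, h'.1⟩⟩
    · intro x _ hx
      exact ind_not fun h' => hx h'.2.symm
    · intro h'; exact absurd h h'
  · rw [ind_not (fun h' => h h'.1), Finset.sum_eq_zero]
    intro x hx
    exact ind_not fun h' => h (h'.2 ▸ hx)

section tri

variable {Om Ξ A B C V Γ κ : Type} [Fintype Om] [Fintype Ξ] [Fintype A] [Fintype B] [Fintype C] [Fintype V]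
  (T : Tri Om Ξ A B C V Γ κ)

/-- the cell `β` is touched in two steps: through a cell of the third vertex -/
def Tri.tch2 (t : ℕ) (w : Om) (β : κ) : Prop :=
  ∃ w' w'', T.ca t (T.a w') = T.ca t (T.a w) ∧ T.cb t (T.b w') = T.cb t (T.b w) ∧ T.gm t w' = T.gm t w ∧
    T.ca t (T.a w'') = T.ca t (T.a w) ∧ T.cb t (T.b w'') = β ∧ T.cc t (T.c w'') = T.cc t (T.c w') ∧
    T.gm t w'' = T.gm t w

theorem Tri.tch2_anc {t j : ℕ} (h : j ≤ t) (w : Om) (b' : B) (ht : T.tch2 t w (T.cb t b')) :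
    T.tch2 j w (T.cb j b') := by
  obtain ⟨w', w'', h1, h2, h3, h4, h5, h6, h7⟩ := ht
  exact ⟨w', w'', nest_le T.na h h1, nest_le T.nb h h2, T.gm_anc h h3, nest_le T.na h h4,
    nest_le T.nb h h5, nest_le T.nc h h6, T.gm_anc h h7⟩

theorem Tri.tch2_cnt (t : ℕ) (g : Γ) (a0 : A) (β : κ) :
    T.P.Pr (fun w => (T.a w = a0 ∧ T.tch2 t w β) ∧ T.gm t w = g) ≤
      T.K ^ 2 * T.P.Pr (fun w => (T.a w = a0 ∧ T.cb t (T.b w) = β) ∧ T.gm t w = g) := by
  classical
  have hK0 : 0 ≤ T.K := le_trans zero_le_one T.K1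
  set s : Finset κ := (univ.filter (fun w'' : Om => T.ca t (T.a w'') = T.ca t a0 ∧ T.cb t (T.b w'') = β ∧
    T.gm t w'' = g)).image (fun w'' => T.cc t (T.c w'')) with hs
  have h1 : T.P.Pr (fun w => (T.a w = a0 ∧ T.tch2 t w β) ∧ T.gm t w = g) ≤
      ∑ γ ∈ s, T.P.Pr (fun w => T.a w = a0 ∧ T.gm t w = g ∧
        ∃ w', T.ca t (T.a w') = T.ca t a0 ∧ T.cb t (T.b w') = T.cb t (T.b w) ∧ T.cc t (T.c w') = γ ∧
          T.gm t w' = g) := by
    refine le_trans (T.P.Pr_mono (t := fun w => ∃ γ ∈ s, T.a w = a0 ∧ T.gm t w = g ∧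
        ∃ w', T.ca t (T.a w') = T.ca t a0 ∧ T.cb t (T.b w') = T.cb t (T.b w) ∧ T.cc t (T.c w') = γ ∧
          T.gm t w' = g) ?_) (T.P.Pr_ex_le s _)
    rintro w _ ⟨⟨ha, w', w'', h1, h2, h3, h4, h5, h6, h7⟩, hg⟩
    refine ⟨T.cc t (T.c w''), Finset.mem_image.2 ⟨w'', Finset.mem_filter.2 ⟨Finset.mem_univ _, ?_⟩, rfl⟩,
      ha, hg, w', ?_, h2, h6.symm, h3.trans hg⟩
    · exact ⟨by rw [h4, ha], h5, h7.trans hg⟩
    · rw [h1, ha]
  have h2 : ∑ γ ∈ s, T.P.Pr (fun w => T.a w = a0 ∧ T.gm t w = g ∧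
        ∃ w', T.ca t (T.a w') = T.ca t a0 ∧ T.cb t (T.b w') = T.cb t (T.b w) ∧ T.cc t (T.c w') = γ ∧
          T.gm t w' = g) ≤
      ∑ γ ∈ s, T.K * T.P.Pr (fun w => T.a w = a0 ∧ T.gm t w = g ∧ T.cc t (T.c w) = γ) :=
    Finset.sum_le_sum fun γ _ => T.cac t g a0 γ
  have h3 : ∑ γ ∈ s, T.K * T.P.Pr (fun w => T.a w = a0 ∧ T.gm t w = g ∧ T.cc t (T.c w) = γ) =
      T.K * T.P.Pr (fun w => T.cc t (T.c w) ∈ s ∧ (T.a w = a0 ∧ T.gm t w = g)) := by
    rw [Pr_mem_sum T.P (fun w => T.cc t (T.c w)) s (fun w => T.a w = a0 ∧ T.gm t w = g), Finset.mul_sum]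
    refine Finset.sum_congr rfl fun γ _ => ?_
    congr 1
    exact T.P.Pr_congr fun w _ => ⟨fun h => ⟨⟨h.1, h.2.1⟩, h.2.2⟩, fun h => ⟨h.1.1, h.1.2, h.2⟩⟩
  have h4 : T.P.Pr (fun w => T.cc t (T.c w) ∈ s ∧ (T.a w = a0 ∧ T.gm t w = g)) ≤
      T.K * T.P.Pr (fun w => T.a w = a0 ∧ T.gm t w = g ∧ T.cb t (T.b w) = β) := by
    refine le_trans (T.P.Pr_mono fun w _ h => ?_) (T.cab t g a0 β)
    obtain ⟨hm, ha, hg⟩ := h
    obtain ⟨w'', hw'', he⟩ := Finset.mem_image.1 hm
    have hw := (Finset.mem_filter.1 hw'').2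
    exact ⟨ha, hg, w'', hw.1, hw.2.1, he, hw.2.2⟩
  calc T.P.Pr (fun w => (T.a w = a0 ∧ T.tch2 t w β) ∧ T.gm t w = g)
      ≤ T.K * T.P.Pr (fun w => T.cc t (T.c w) ∈ s ∧ (T.a w = a0 ∧ T.gm t w = g)) := by
        rw [← h3]; exact h1.trans h2
    _ ≤ T.K * (T.K * T.P.Pr (fun w => T.a w = a0 ∧ T.gm t w = g ∧ T.cb t (T.b w) = β)) :=
        mul_le_mul_of_nonneg_left h4 hK0
    _ = T.K ^ 2 * T.P.Pr (fun w => (T.a w = a0 ∧ T.cb t (T.b w) = β) ∧ T.gm t w = g) := by
        rw [← mul_assoc, ← sq]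
        congr 1
        exact T.P.Pr_congr fun w _ => ⟨fun h => ⟨⟨h.1, h.2.2⟩, h.2.1⟩, fun h => ⟨h.1.1, h.2, h.1.2⟩⟩

/-- the pair `(a, b)` and the node are independent, `b` is uniform -/
theorem Tri.pab (t : ℕ) (g : Γ) (a0 : A) (b0 : B) :
    T.P.Pr (fun w => (T.a w = a0 ∧ T.gm t w = g) ∧ T.b w = b0) =
      (Fintype.card Ξ : ℝ) * (T.P.Pr (fun w => T.gm t w = g) /
        (Fintype.card Ξ * Fintype.card A * Fintype.card B)) := by
  rw [Pr_sum_fib T.P T.xi]
  have h : ∀ x0, T.P.Pr (fun w => T.xi w = x0 ∧ ((T.a w = a0 ∧ T.gm t w = g) ∧ T.b w = b0)) =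
      T.P.Pr (fun w => T.gm t w = g) / (Fintype.card Ξ * Fintype.card A * Fintype.card B) := by
    intro x0
    rw [← T.iab t g x0 a0 b0]
    exact T.P.Pr_congr fun w _ => ⟨fun h => ⟨h.1, h.2.1.1, h.2.2, h.2.1.2⟩,
      fun h => ⟨h.1, ⟨h.2.1, h.2.2.2⟩, h.2.2.1⟩⟩
  rw [Finset.sum_congr rfl fun x0 _ => h x0, Finset.sum_const, nsmul_eq_mul]
  rfl

end tri

variable {Om A B C V Γ κ S : Type} [Fintype Om] [Fintype A] [Fintype B] [Fintype C] [Fintype V]
  [Fintype S] [DecidableEq S] {m : ℕ} {T : Tri Om (S → Fin m) A B C V Γ κ}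

namespace Inp

variable (I : Inp T S)

theorem dens_nonneg (s : S) (t : ℕ) (a0 : A) (β : κ) : 0 ≤ I.dens s t a0 β :=
  denE_nonneg (T.cb t) (I.R.mem s a0) β

theorem dens_le_one (s : S) (t : ℕ) (a0 : A) (β : κ) : I.dens s t a0 β ≤ 1 :=
  denE_le_one (T.cb t) (I.R.mem s a0) β

/-- the maximal density over the cells touched in two steps, at the time `i` -/
def Zb (s : S) (i : ℕ) (w : Om) : ℝ :=
  (univ : Finset Om).sup' ⟨w, mem_univ w⟩ fun w'' =>
    ind (I.on s i w ∧ T.tch2 i w (T.cb i (T.b w''))) * I.dens s i (T.a w) (T.cb i (T.b w''))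

/-- maximum over the times `0, .., n` -/
def MB (s : S) (w : Om) : ℝ := FP.rmax (I.Zb s) T.n w

theorem Zb_nonneg (s : S) (i : ℕ) (w : Om) : 0 ≤ I.Zb s i w := by
  unfold Zb
  exact le_trans (mul_nonneg (ind_nonneg _) (I.dens_nonneg _ _ _ _))
    (Finset.le_sup' (fun w'' => ind (I.on s i w ∧ T.tch2 i w (T.cb i (T.b w''))) *
      I.dens s i (T.a w) (T.cb i (T.b w''))) (mem_univ w))

theorem Zb_le_one (s : S) (i : ℕ) (w : Om) : I.Zb s i w ≤ 1 := by
  unfold Zb
  refine Finset.sup'_le _ _ fun w'' _ => ?_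
  exact mul_le_one₀ (ind_le_one _) (I.dens_nonneg _ _ _ _) (I.dens_le_one _ _ _ _)

theorem MB_nonneg (s : S) (w : Om) : 0 ≤ I.MB s w :=
  (I.Zb_nonneg s 0 w).trans (FP.le_rmax _ (Nat.zero_le _) w)

theorem MB_le_one (s : S) (w : Om) : I.MB s w ≤ 1 := FP.rmax_le _ fun t _ => I.Zb_le_one s t w

/-- `Zb` and `MB` are functions of `(a, b, node)` -/
theorem Zb_congr (s : S) {i t : ℕ} (hit : i ≤ t) {v w : Om} (ha : T.a v = T.a w)
    (hb : T.cb t (T.b v) = T.cb t (T.b w)) (hg : T.gm t v = T.gm t w) : I.Zb s i v = I.Zb s i w := by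
  have hb' := nest_le T.nb hit hb
  have hg' := T.gm_anc hit hg
  have hon : I.on s i v ↔ I.on s i w := by
    unfold on
    refine and_congr_right fun h => ?_
    rw [T.gm_anc h hg']
  have ht : ∀ β, T.tch2 i v β ↔ T.tch2 i w β := by
    intro β
    unfold Tri.tch2
    rw [ha, hb', hg']
  unfold Zb
  refine Finset.sup'_congr _ rfl fun w'' _ => ?_
  rw [ind_iff (and_congr hon (ht _)), ha]

theorem MB_congr (s : S) {v w : Om} (ha : T.a v = T.a w)
    (hb : T.cb T.n (T.b v) = T.cb T.n (T.b w)) (hg : T.gm T.n v = T.gm T.n w) : I.MB s v = I.MB s w := by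
  refine le_antisymm ?_ ?_
  · refine FP.rmax_le _ fun t ht => ?_
    rw [I.Zb_congr s ht ha hb hg]
    exact FP.le_rmax _ ht w
  · refine FP.rmax_le _ fun t ht => ?_
    rw [← I.Zb_congr s ht ha hb hg]
    exact FP.le_rmax _ ht v

/-- level sets -/
theorem le_MB {s : S} {w : Om} {y : ℝ} (hy : 0 < y) (h : y ≤ I.MB s w) :
    T.gm (I.R.tb s) w = I.R.gb s ∧ ∃ t ≤ T.n, I.R.tb s ≤ t ∧ ∃ b', T.tch2 t w (T.cb t b') ∧
      y ≤ I.dens s t (T.a w) (T.cb t b') := by
  unfold MB at h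
  rw [FP.le_rmax_iff] at h
  obtain ⟨t, ht, h⟩ := h
  unfold Zb at h
  rw [Finset.le_sup'_iff] at h
  obtain ⟨w'', _, h⟩ := h
  by_cases hc : I.on s t w ∧ T.tch2 t w (T.cb t (T.b w''))
  · rw [ind_of hc, one_mul] at h
    exact ⟨hc.1.2, t, ht, hc.1.1, T.b w'', hc.2, h⟩
  · rw [ind_not hc, zero_mul] at h
    exact absurd h (not_le.2 hy)

/-- weak type bound -/
theorem MB_weak (s : S) {y : ℝ} (hy : 0 < y) :
    y * T.P.Pr (fun w => y ≤ I.MB s w) ≤
      T.K ^ 2 * T.P.Pr (fun w => T.gm (I.R.tb s) w = I.R.gb s ∧ I.R.mem s (T.a w) (T.b w)) := by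
  have hK0 : 0 ≤ T.K ^ 2 := sq_nonneg _
  rw [Pr_sum_fib T.P T.a, Pr_sum_fib T.P T.a, Finset.mul_sum, Finset.mul_sum]
  refine Finset.sum_le_sum fun a0 _ => ?_
  have h1 := weak_max T.P T.a T.b T.gm (fun t v w h => T.gm_anc (Nat.le_succ t) h) T.cb T.nb T.n T.tch2
    (fun t w b' h => T.tch2_anc (Nat.le_succ t) w b' h) hK0 a0
    (fun t _ g b' => T.tch2_cnt t g a0 (T.cb t b')) (I.R.tb s) (I.R.gb s) _
    (fun b0 => T.pab (I.R.tb s) (I.R.gb s) a0 b0) (I.R.mem s a0) hy
  refine le_trans (mul_le_mul_of_nonneg_left (T.P.Pr_mono fun w _ h => ?_) hy.le) (h1.trans (le_of_eq ?_))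
  · obtain ⟨ha, h⟩ := h
    obtain ⟨hg, t, ht, hbt, b', htc, hd⟩ := I.le_MB hy h
    refine ⟨⟨ha, hg⟩, t, ht, hbt, b', htc, ?_⟩
    rw [← ha]; exact hd
  · congr 1
    refine T.P.Pr_congr fun w _ => ⟨fun h => ⟨h.1.1, h.1.2, ?_⟩, fun h => ⟨⟨h.1, h.2.1⟩, ?_⟩⟩
    · rw [h.1.1]; exact h.2
    · rw [← h.1]; exact h.2.2

/-- support -/
theorem MB_supp (s : S) :
    T.P.Pr (fun w => 0 < I.MB s w) ≤
      T.K ^ 2 * T.P.Pr (fun w => T.gm (I.R.tb s) w = I.R.gb s ∧ T.ca (I.R.tb s) (T.a w) = I.R.al s ∧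
        T.cb (I.R.tb s) (T.b w) = I.R.be s) := by
  have hK0 : 0 ≤ T.K ^ 2 := sq_nonneg _
  rw [Pr_sum_fib T.P T.a, Pr_sum_fib T.P T.a, Finset.mul_sum]
  refine Finset.sum_le_sum fun a0 _ => ?_
  have hsub : ∀ w, (T.a w = a0 ∧ 0 < I.MB s w) → T.ca (I.R.tb s) a0 = I.R.al s ∧
      ((T.a w = a0 ∧ T.tch2 (I.R.tb s) w (I.R.be s)) ∧ T.gm (I.R.tb s) w = I.R.gb s) := by
    rintro w ⟨ha, h⟩
    obtain ⟨hg, t, ht, hbt, b', htc, hd⟩ := I.le_MB h le_rfl
    have hpos : 0 < I.dens s t (T.a w) (T.cb t b') := lt_of_lt_of_le h hd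
    have hex : ∃ b'' ∈ cel (T.cb t) (T.cb t b'), I.R.mem s (T.a w) b'' := by
      by_contra hcon
      push Not at hcon
      have h0 : I.dens s t (T.a w) (T.cb t b') = 0 := by
        unfold dens
        rw [Finset.sum_eq_zero fun b'' hb'' => ind_not (hcon b'' hb''), zero_div]
      linarith
    obtain ⟨b'', hb'', hm⟩ := hex
    obtain ⟨hal, hbe⟩ := I.mal s _ _ hm
    have h1 : T.cb t b'' = T.cb t b' := mem_cel.1 hb''
    rw [← h1] at htc
    have h2 := T.tch2_anc hbt w b'' htc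
    rw [hbe] at h2
    exact ⟨by rw [← ha]; exact hal, ⟨ha, h2⟩, hg⟩
  by_cases hal : T.ca (I.R.tb s) a0 = I.R.al s
  · refine le_trans (T.P.Pr_mono fun w _ h => (hsub w h).2)
      ((T.tch2_cnt (I.R.tb s) (I.R.gb s) a0 (I.R.be s)).trans (le_of_eq ?_))
    congr 1
    refine T.P.Pr_congr fun w _ => ⟨fun h => ⟨h.1.1, h.2, ?_, h.1.2⟩, fun h => ⟨⟨h.1, h.2.2.2⟩, h.2.1⟩⟩
    rw [h.1.1]; exact hal
  · have h0 : T.P.Pr (fun w => T.a w = a0 ∧ 0 < I.MB s w) = 0 := by
      unfold FP.Pr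
      exact (T.P.E_congr (g := fun _ => 0) fun w _ => ind_not fun h => hal (hsub w h).1).trans (T.P.E_const 0)
    rw [h0]
    exact mul_nonneg hK0 (T.P.Pr_nonneg _)

/-- the sum of the mean maxima -/
theorem sum_MB (k : ℕ) : ∑ s, T.P.E (I.MB s) ≤ T.K ^ 2 * ((1 / 2) ^ k * I.Ms + 2 * k * I.Λ) := by
  have hK0 : 0 ≤ T.K ^ 2 := sq_nonneg _
  have h1 : ∀ s, T.P.E (I.MB s) ≤ T.K ^ 2 * ((1 / 2) ^ k * T.P.E (fun w => ind (T.gm (I.R.tb s) w = I.R.gb s ∧
      T.ca (I.R.tb s) (T.a w) = I.R.al s ∧ T.cb (I.R.tb s) (T.b w) = I.R.be s)) +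
      2 * k * T.P.E (fun w => ind (I.R.tb s ≤ T.n ∧ T.gm (I.R.tb s) w = I.R.gb s ∧
        I.R.mem s (T.a w) (T.b w)))) := by
    intro s
    have h2 := T.P.E_le_dyadic (I.MB s) (fun w _ => I.MB_nonneg s w) (fun w _ => I.MB_le_one s w)
      (fun y hy _ => I.MB_weak s hy) k
    have h3 := I.MB_supp s
    have h4 : T.P.Pr (fun w => T.gm (I.R.tb s) w = I.R.gb s ∧ I.R.mem s (T.a w) (T.b w)) =
        T.P.E (fun w => ind (I.R.tb s ≤ T.n ∧ T.gm (I.R.tb s) w = I.R.gb s ∧
          I.R.mem s (T.a w) (T.b w))) := by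
      unfold FP.Pr
      exact T.P.E_congr fun w _ => ind_iff ⟨fun h => ⟨I.tbn s, h⟩, fun h => h.2⟩
    rw [h4] at h2
    have h5 : (0 : ℝ) ≤ (1 / 2) ^ k := by positivity
    have h6 := mul_le_mul_of_nonneg_left h3 h5
    unfold FP.Pr at h6 h2
    nlinarith [h2, h6]
  refine (Finset.sum_le_sum fun s _ => h1 s).trans ?_
  rw [← Finset.mul_sum]
  refine mul_le_mul_of_nonneg_left ?_ hK0
  rw [Finset.sum_add_distrib, ← Finset.mul_sum, ← Finset.mul_sum, ← T.P.E_sum, ← T.P.E_sum]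
  refine add_le_add ?_ ?_
  · exact mul_le_mul_of_nonneg_left I.hMs (by positivity)
  · exact mul_le_mul_of_nonneg_left (T.P.E_le_const fun w _ => I.hΛ T.n le_rfl w) (by positivity)

/-- `NB` is contained in a threshold event -/
theorem NB_thr {R0 : ℝ} (hR : 0 ≤ R0) {w : Om} {t : ℕ} (ht : t ≤ T.n) {s : S} (h : I.NB R0 w t s) :
    (((T.xi w s : Fin m) : ℕ) : ℝ) + 1 ≤ m * (R0 * (2 * I.MB s w)) := by
  obtain ⟨j, hj, w', hx, ha, hb, hg, h⟩ := h
  unfold N1 Dm at h
  rw [hx] at h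
  refine h.trans ?_
  refine mul_le_mul_of_nonneg_left (mul_le_mul_of_nonneg_left ?_ hR) (Nat.cast_nonneg m)
  refine mul_le_mul_of_nonneg_left ?_ (by norm_num)
  refine FP.rmax_le _ fun i hi => ?_
  unfold Zd
  refine Finset.sup'_le _ _ fun w'' _ => ?_
  have hin : i ≤ T.n := hi.trans (hj.trans ht)
  by_cases hc : I.on s i w' ∧ T.ca i (T.a w'') = T.ca i (T.a w') ∧ T.cc i (T.c w'') = T.cc i (T.c w') ∧
      T.gm i w'' = T.gm i w'
  · rw [ind_of hc, one_mul]
    have hg' : T.gm i w' = T.gm i w := T.gm_anc hi hg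
    have hon : I.on s i w := ⟨hc.1.1, by rw [← T.gm_anc hc.1.1 hg']; exact hc.1.2⟩
    have ht2 : T.tch2 i w (T.cb i (T.b w'')) :=
      ⟨w', w'', by rw [ha], nest_le T.nb hi hb, hg', by rw [hc.2.1, ha], rfl, hc.2.2.1,
        hc.2.2.2.trans hg'⟩
    refine le_trans ?_ (FP.le_rmax (I.Zb s) hin w)
    unfold Zb
    refine le_trans ?_ (Finset.le_sup' (fun w'' => ind (I.on s i w ∧ T.tch2 i w (T.cb i (T.b w''))) *
      I.dens s i (T.a w) (T.cb i (T.b w''))) (mem_univ w''))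
    rw [ind_of ⟨hon, ht2⟩, one_mul, ha]
  · rw [ind_not hc, zero_mul]
    exact I.MB_nonneg s w

theorem NB_mono {R0 : ℝ} {w : Om} {t u : ℕ} (h : t ≤ u) {s : S} (hN : I.NB R0 w t s) : I.NB R0 w u s := by
  obtain ⟨j, hj, hw⟩ := hN
  exact ⟨j, hj.trans h, hw⟩

theorem N1_NB {R0 : ℝ} {w : Om} {t : ℕ} {s : S} (h : I.N1 R0 w t s) : I.NB R0 w t s :=
  ⟨t, le_rfl, w, rfl, rfl, rfl, rfl, h⟩

theorem NB_congr {R0 : ℝ} {v w : Om} {t : ℕ} (hx : T.xi v = T.xi w) (ha : T.a v = T.a w)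
    (hb : T.cb t (T.b v) = T.cb t (T.b w)) (hg : T.gm t v = T.gm t w) (s : S) :
    I.NB R0 v t s ↔ I.NB R0 w t s := by
  constructor
  · rintro ⟨j, hj, w', h1, h2, h3, h4, h5⟩
    exact ⟨j, hj, w', h1.trans hx, h2.trans ha, h3.trans (nest_le T.nb hj hb), h4.trans (T.gm_anc hj hg), h5⟩
  · rintro ⟨j, hj, w', h1, h2, h3, h4, h5⟩
    exact ⟨j, hj, w', h1.trans hx.symm, h2.trans ha.symm, h3.trans (nest_le T.nb hj hb).symm,
      h4.trans (T.gm_anc hj hg).symm, h5⟩

end Inp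

/-- a uniform family of thresholds: one coordinate is uniform -/
theorem card_coord (s : S) (j : Fin m) :
    (∑ x : S → Fin m, ind (x s = j)) * m = (Fintype.card (S → Fin m) : ℝ) := by
  have h1 : ∀ j', ∑ x : S → Fin m, ind (x s = j') = ∑ x : S → Fin m, ind (x s = j) := by
    intro j'
    let e : (S → Fin m) ≃ (S → Fin m) :=
      Equiv.piCongrRight fun r => if r = s then Equiv.swap j' j else Equiv.refl _
    refine Fintype.sum_equiv e _ _ fun x => ?_
    have he : e x s = Equiv.swap j' j (x s) := by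
      show (if s = s then Equiv.swap j' j else Equiv.refl _) (x s) = _
      rw [if_pos rfl]
    rw [he]
    refine ind_iff ⟨fun h => ?_, fun h => ?_⟩
    · rw [h, Equiv.swap_apply_left]
    · have := congrArg (Equiv.swap j' j) h
      rwa [Equiv.swap_apply_self, Equiv.swap_apply_right] at this
  have h2 : ∑ j', ∑ x : S → Fin m, ind (x s = j') = (Fintype.card (S → Fin m) : ℝ) := by
    rw [Finset.sum_comm]
    have : ∀ x : S → Fin m, ∑ j', ind (x s = j') = (1 : ℝ) := by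
      intro x
      rw [Finset.sum_eq_single (x s)]
      · exact ind_of rfl
      · intro j' _ h; exact ind_not fun h' => h h'.symm
      · intro h; exact absurd (Finset.mem_univ _) h
    rw [Finset.sum_congr rfl fun x _ => this x]
    simp
  rw [← h2, Finset.sum_congr rfl fun j' _ => h1 j', Finset.sum_const, nsmul_eq_mul]
  simp [mul_comm]

namespace Inp

variable (I : Inp T S)

/-- the threshold of `s` is uniform given `(a, b, node)` -/
theorem xi_unif (s : S) (j : Fin m) (t : ℕ) (w : Om) :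
    T.P.ce (fun w => (T.a w, T.b w, T.gm t w)) (fun v => ind (T.xi v s = j)) w = 1 / m := by
  classical
  set g := T.gm t w with hg
  set q : ℝ := T.P.Pr (fun w => T.gm t w = g) /
    (Fintype.card (S → Fin m) * Fintype.card A * Fintype.card B) with hq
  have hm : (0 : ℝ) < m := by
    have := j.pos
    exact_mod_cast this
  have hfib : ∀ x0, T.P.Pr (fun v => T.xi v = x0 ∧ (T.a v, T.b v, T.gm t v) = (T.a w, T.b w, g)) = q := by
    intro x0
    rw [hq, ← T.iab t g x0 (T.a w) (T.b w)]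
    refine T.P.Pr_congr fun v _ => ?_
    simp only [Prod.mk.injEq]
  have hM : T.P.m (fun w => (T.a w, T.b w, T.gm t w)) w = (Fintype.card (S → Fin m) : ℝ) * q := by
    have h1 : T.P.m (fun w => (T.a w, T.b w, T.gm t w)) w =
        T.P.Pr (fun v => (T.a v, T.b v, T.gm t v) = (T.a w, T.b w, g)) := rfl
    rw [h1, Pr_sum_fib T.P T.xi, Finset.sum_congr rfl fun x0 _ => hfib x0, Finset.sum_const, nsmul_eq_mul]
    rfl
  have hN : T.P.E (fun v => ind ((T.a v, T.b v, T.gm t v) = (T.a w, T.b w, g)) * ind (T.xi v s = j)) =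
      (∑ x : S → Fin m, ind (x s = j)) * q := by
    have h1 : T.P.E (fun v => ind ((T.a v, T.b v, T.gm t v) = (T.a w, T.b w, g)) * ind (T.xi v s = j)) =
        ∑ x0 : S → Fin m, ind (x0 s = j) *
          T.P.E (fun v => ind (T.xi v = x0 ∧ (T.a v, T.b v, T.gm t v) = (T.a w, T.b w, g))) := by
      have h2 : ∀ v, ind ((T.a v, T.b v, T.gm t v) = (T.a w, T.b w, g)) * ind (T.xi v s = j) =
          ∑ x0 : S → Fin m, ind (x0 s = j) *
            ind (T.xi v = x0 ∧ (T.a v, T.b v, T.gm t v) = (T.a w, T.b w, g)) := by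
        intro v
        rw [Finset.sum_eq_single (T.xi v)]
        · rw [mul_comm]
          congr 1
          exact ind_iff ⟨fun h => ⟨rfl, h⟩, fun h => h.2⟩
        · intro x0 _ h
          rw [ind_not (fun h' : T.xi v = x0 ∧ _ => h h'.1.symm), mul_zero]
        · intro h; exact absurd (Finset.mem_univ _) h
      rw [T.P.E_congr fun v _ => h2 v, T.P.E_sum]
      exact Finset.sum_congr rfl fun x0 _ => T.P.E_smul _ _
    rw [h1, Finset.sum_mul]
    refine Finset.sum_congr rfl fun x0 _ => ?_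
    have := hfib x0
    unfold FP.Pr at this
    rw [this]
  have hMpos : 0 < T.P.m (fun w => (T.a w, T.b w, T.gm t w)) w := T.P.m_pos _ (T.ppos w)
  have hce : T.P.ce (fun w => (T.a w, T.b w, T.gm t w)) (fun v => ind (T.xi v s = j)) w =
      T.P.E (fun v => ind ((T.a v, T.b v, T.gm t v) = (T.a w, T.b w, g)) * ind (T.xi v s = j)) /
        T.P.m (fun w => (T.a w, T.b w, T.gm t w)) w := rfl
  rw [hce, hN, div_eq_div_iff hMpos.ne' hm.ne', hM, ← card_coord s j]
  ring

/-- **mean number of references recorded in stage 2** -/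
theorem NB_mean {R0 : ℝ} (hR : 0 ≤ R0) {t : ℕ} (ht : t ≤ T.n) (k : ℕ) :
    T.P.E (fun w => ∑ s, ind (I.NB R0 w t s)) ≤
      2 * R0 * T.K ^ 2 * ((1 / 2) ^ k * I.Ms + 2 * k * I.Λ) := by
  have h1 := T.P.rec_le T.xi (fun _ : S => fun w => (T.a w, T.b w, T.gm T.n w))
    (fun s j w _ => xi_unif s j T.n w) (mul_nonneg zero_le_two hR) (fun s w => I.MB s w)
    (fun s v w h => I.MB_congr s (by simp only [Prod.mk.injEq] at h; exact h.1)
      (by simp only [Prod.mk.injEq] at h; rw [h.2.1])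
      (by simp only [Prod.mk.injEq] at h; exact h.2.2))
    (fun s w _ => I.MB_nonneg s w)
  refine le_trans (T.P.E_mono fun w _ => Finset.sum_le_sum fun s _ => ?_)
    (h1.trans ((mul_le_mul_of_nonneg_left (I.sum_MB k) (mul_nonneg zero_le_two hR)).trans
      (le_of_eq (by ring))))
  by_cases hN : I.NB R0 w t s
  · have h2 := I.NB_thr hR ht hN
    rw [ind_of hN, ind_of]
    calc (((T.xi w s : Fin m) : ℕ) : ℝ) + 1 ≤ m * (R0 * (2 * I.MB s w)) := h2
      _ = m * (2 * R0 * I.MB s w) := by ring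
  · rw [ind_not hN]; exact ind_nonneg _

/-- too many recorded references are rare -/
theorem NB_tail {R0 : ℝ} (hR : 0 ≤ R0) {t : ℕ} (ht : t ≤ T.n) (k : ℕ) {nN : ℝ} (hn : 0 < nN) :
    T.P.Pr (fun w => nN < ∑ s, ind (I.NB R0 w t s)) ≤
      2 * R0 * T.K ^ 2 * ((1 / 2) ^ k * I.Ms + 2 * k * I.Λ) / nN := by
  rw [le_div_iff₀ hn, mul_comm]
  refine le_trans ?_ (I.NB_mean hR ht k)
  unfold FP.Pr
  rw [← T.P.E_smul]
  refine T.P.E_mono fun w _ => ?_
  by_cases h : nN < ∑ s, ind (I.NB R0 w t s)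
  · rw [ind_of h, mul_one]; exact h.le
  · rw [ind_not h, mul_zero]; exact Finset.sum_nonneg fun _ _ => ind_nonneg _

end Inp

end

end Pool.Agent.M3.S2
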