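import Pool.Agent.M3.S2.Stage1b
import Pool.Agent.M3.S2.RecB

/-!
# M3/S2/Chg : number of changes of the labels (helper21)

* `RunHyp.changes0` : mean number of changes of a history; `Inp.chg_g` : history of the actual run of stage 1;
* `Tri.KB` : information `(xi, a, b, node)`, `RunHyp.toKB`;
* `RunHyp.changes_on` : changes of a history which is empty and has target zero unless `on`, weighted by a function
  known at the birth;
* `Inp.fL` : the label of `(a, b)`, `Inp.chg_f` : its mean number of changes is at most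
  `Λ + (4 / η2 ^ 2 + 2) Λ nN`, `Inp.chg_e` : the label of `(b, c)`.
-/

set_option autoImplicit false
set_option linter.unusedSectionVars false

namespace Pool.Agent.M3

open Finset Pool.Agent.PWZ

section hist

variable {Om : Type*} [Fintype Om] {S V : Type*} {P : FP Om} {κ : ℕ → Type*} {K : ∀ t, Om → κ t}
  {η : ℝ} {n2 : ℕ} {x : ℕ → Om → Loc S V} {ts : ℕ → Om → List (S × (V → ℝ))} {ν : ℕ → Om → S → Prop}
  {M : ℕ → Om → (V → ℝ) → ℝ} {δ : ℝ}

theorem Up_nonneg (t : ℕ) (w : Om) : 0 ≤ Up η n2 x ts ν t w :=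
  upd_nonneg (x := fun t => x t w) (ts := fun t => ts t w) (ν := fun t => ν t w) t

/-- a change of the history is an update or a restart -/
theorem Hi_ne_le (t : ℕ) (w : Om) :
    ind (Hi η n2 x ts ν (t + 1) w ≠ Hi η n2 x ts ν t w) ≤ Up η n2 x ts ν (t + 1) w + ind (x (t + 1) w).rs := by
  have h0 := Up_nonneg (η := η) (n2 := n2) (x := x) (ts := ts) (ν := ν) (t + 1) w
  by_cases hr : (x (t + 1) w).rs
  · rw [ind_of hr]
    have := ind_le_one (Hi η n2 x ts ν (t + 1) w ≠ Hi η n2 x ts ν t w)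
    linarith
  · rw [ind_not hr, add_zero]
    by_cases hne : Hi η n2 x ts ν (t + 1) w ≠ Hi η n2 x ts ν t w
    · rw [ind_of hne]
      have e3 : hpre η n2 (fun t => x t w) (fun t => ts t w) (fun t => ν t w) (t + 1) =
          hist η n2 (fun t => x t w) (fun t => ts t w) (fun t => ν t w) t := hpre_succ (x := fun t => x t w) hr
      have hs := hpre_suffix (η := η) (n2 := n2) (x := fun t => x t w) (ts := fun t => ts t w)
        (ν := fun t => ν t w) (t + 1)
      rw [e3] at hs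
      have hlt : (hist η n2 (fun t => x t w) (fun t => ts t w) (fun t => ν t w) t).length <
          (hist η n2 (fun t => x t w) (fun t => ts t w) (fun t => ν t w) (t + 1)).length := by
        rcases lt_or_eq_of_le hs.length_le with h1 | h1
        · exact h1
        · exact absurd (hs.eq_of_length h1).symm hne
      have hlt' : ((hist η n2 (fun t => x t w) (fun t => ts t w) (fun t => ν t w) t).length : ℝ) + 1 ≤
          ((hist η n2 (fun t => x t w) (fun t => ts t w) (fun t => ν t w) (t + 1)).length : ℝ) := by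
        exact_mod_cast hlt
      unfold Up upd
      rw [e3]
      linarith
    · rw [ind_not hne]; exact h0

namespace RunHyp

/-- mean number of changes of the history -/
theorem changes0 (h : RunHyp P K M δ η n2 x ts ν) (n : ℕ) :
    ∑ t ∈ range n, P.Pr (fun w => Hi η n2 x ts ν (t + 1) w ≠ Hi η n2 x ts ν t w) ≤
      2 / η ^ 2 * (1 + ∑ t ∈ range n, P.Pr (fun w => (x (t + 1) w).rs)) +
        ∑ t ∈ range n, P.Pr (fun w => (x (t + 1) w).rs) := by
  have h1 := h.updates0 n
  rw [Finset.sum_range_succ'] at h1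
  have h2 : 0 ≤ P.E (Up η n2 x ts ν 0) := P.E_nonneg fun w _ => Up_nonneg 0 w
  have h3 : ∑ t ∈ range n, P.Pr (fun w => Hi η n2 x ts ν (t + 1) w ≠ Hi η n2 x ts ν t w) ≤
      ∑ t ∈ range n, (P.E (Up η n2 x ts ν (t + 1)) + P.Pr (fun w => (x (t + 1) w).rs)) := by
    refine Finset.sum_le_sum fun t _ => ?_
    unfold FP.Pr
    rw [← P.E_add]
    exact P.E_mono fun w _ => Hi_ne_le t w
  rw [Finset.sum_add_distrib] at h3
  linarith

/-- no history as long as the run is off -/
theorem Hi_off {on : ℕ → Om → Prop} (hoff : ∀ t w, ¬ on t w → (x t w).ls = [] ∧ ts t w = [])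
    {t : ℕ} {w : Om} (h : ∀ s ≤ t, ¬ on s w) : Hi η n2 x ts ν t w = [] := by
  by_contra hne
  obtain ⟨p, hp⟩ := List.exists_mem_of_ne_nil _ hne
  have : ∀ q ∈ Hi η n2 x ts ν t w, False :=
    hist_mem t (fun s hs q hq _ => by rw [(hoff s w (h s hs)).1] at hq; simp at hq)
      fun s hs q hq _ => by rw [(hoff s w (h s hs)).2] at hq; simp at hq
  exact this p hp

/-- changes of a history which is empty, with target zero, unless `on`; `φ` is known at the time `r + 1`, and the run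
is off up to the time `r` -/
theorem changes_on (h : RunHyp P K M δ η n2 x ts ν) {r k : ℕ} {φ q : Om → ℝ} (hφ0 : ∀ w, 0 ≤ φ w)
    (hφ : Fac (K (r + 1)) φ) {on : ℕ → Om → Prop}
    (hoff : ∀ t w, ¬ on t w → (x t w).ls = [] ∧ ts t w = []) (hu0 : ∀ t w, ¬ on t w → ∀ d, (x t w).u d = 0)
    (hr : ∀ t ≤ r, ∀ w, ¬ on t w) (hrs : ∀ t w, (x (t + 1) w).rs → ¬ (on (t + 1) w ↔ on t w))
    (hq : ∀ w, ind (on (r + 1) w) + ∑ j ∈ range k, ind (¬ (on (r + 1 + j + 1) w ↔ on (r + 1 + j) w)) ≤ 2 * q w) :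
    ∑ j ∈ range (k + 1), P.E (fun w => φ w * ind (Hi η n2 x ts ν (r + j + 1) w ≠ Hi η n2 x ts ν (r + j) w)) ≤
      (4 / η ^ 2 + 2) * P.E (fun w => φ w * q w) := by
  have hη := h.eta
  set c : Om → ℝ := fun w => ind (on (r + 1) w) +
    ∑ j ∈ range k, ind (¬ (on (r + 1 + j + 1) w ↔ on (r + 1 + j) w)) with hc
  have h1 := h.updates (s := r + 1) hφ0 hφ k
  have hen0 : 0 ≤ P.E (fun w => φ w * en η n2 M x (Hi η n2 x ts ν) (r + 1 + k) w) :=
    P.E_nonneg fun w _ => mul_nonneg (hφ0 w) (h.en_nonneg _ _ _)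
  -- the energy at the birth
  have hstart : ∀ w, en η n2 M x (Hp η n2 x ts ν) (r + 1) w ≤ ind (on (r + 1) w) := by
    intro w
    have hp : Hp η n2 x ts ν (r + 1) w = [] := by
      by_cases hrr : (x (r + 1) w).rs
      · exact hpre_succ_rs (x := fun t => x t w) hrr
      · have e3 : Hp η n2 x ts ν (r + 1) w = Hi η n2 x ts ν r w := hpre_succ (x := fun t => x t w) hrr
        rw [e3]
        exact Hi_off hoff fun s hs => hr s hs w
    by_cases ho : on (r + 1) w
    · rw [ind_of ho]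
      exact h.en_nil hp
    · rw [ind_not ho]
      unfold en
      rw [hp]
      have e : (fun d => Er η n2 (x (r + 1) w).u (x (r + 1) w).v [] d ^ 2) = fun _ => (0 : ℝ) := by
        funext d
        unfold Er
        simp only [List.length_nil, Nat.zero_le, if_true, List.map_nil, List.sum_nil, mul_zero, sub_zero]
        rw [hu0 _ _ ho d]
        norm_num
      rw [e, (h.Mean (r + 1) w).zero]
  have hA : P.E (fun w => φ w * en η n2 M x (Hp η n2 x ts ν) (r + 1) w) +
      ∑ j ∈ range k, P.E (fun w => φ w * ind (x (r + 1 + j + 1) w).rs) ≤ P.E (fun w => φ w * c w) := by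
    rw [← P.E_sum, ← P.E_add]
    refine P.E_mono fun w _ => ?_
    rw [← Finset.mul_sum, ← mul_add]
    refine mul_le_mul_of_nonneg_left ?_ (hφ0 w)
    simp only [hc]
    refine add_le_add (hstart w) (Finset.sum_le_sum fun j _ => ?_)
    exact ind_mono (hrs _ w)
  have hB : ∑ j ∈ range (k + 1), P.E (fun w => φ w * ind (x (r + j + 1) w).rs) ≤ P.E (fun w => φ w * c w) := by
    rw [← P.E_sum]
    refine P.E_mono fun w _ => ?_
    rw [← Finset.mul_sum]
    refine mul_le_mul_of_nonneg_left ?_ (hφ0 w)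
    rw [Finset.sum_range_succ']
    simp only [hc]
    rw [add_comm]
    refine add_le_add ?_ (Finset.sum_le_sum fun j _ => ?_)
    · refine ind_mono fun h2 => ?_
      have h3 := hrs r w (by simpa using h2)
      have h4 := hr r le_rfl w
      by_contra h5
      exact h3 ⟨fun h6 => absurd h6 h5, fun h6 => absurd h6 h4⟩
    · have e : r + (j + 1) + 1 = r + 1 + j + 1 := by ring
      rw [e]
      exact ind_mono (hrs _ w)
  have hC : P.E (fun w => φ w * c w) ≤ 2 * P.E (fun w => φ w * q w) := by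
    rw [← P.E_smul]
    refine P.E_mono fun w _ => ?_
    have := mul_le_mul_of_nonneg_left (hq w) (hφ0 w)
    simp only [hc]
    linarith
  have hD : ∑ j ∈ range (k + 1), P.E (fun w => φ w * Up η n2 x ts ν (r + 1 + j) w) ≤
      2 / η ^ 2 * P.E (fun w => φ w * c w) := by
    have h5 : 0 < 2 / η ^ 2 := by positivity
    have h4 : η ^ 2 / 2 * ∑ j ∈ range (k + 1), P.E (fun w => φ w * Up η n2 x ts ν (r + 1 + j) w) ≤
        P.E (fun w => φ w * c w) := by linarith
    have h6 := mul_le_mul_of_nonneg_left h4 h5.le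
    have h7 : 2 / η ^ 2 * (η ^ 2 / 2 * ∑ j ∈ range (k + 1), P.E (fun w => φ w * Up η n2 x ts ν (r + 1 + j) w)) =
        ∑ j ∈ range (k + 1), P.E (fun w => φ w * Up η n2 x ts ν (r + 1 + j) w) := by field_simp
    rwa [h7] at h6
  have hE : ∑ j ∈ range (k + 1), P.E (fun w => φ w * ind (Hi η n2 x ts ν (r + j + 1) w ≠ Hi η n2 x ts ν (r + j) w)) ≤
      ∑ j ∈ range (k + 1), (P.E (fun w => φ w * Up η n2 x ts ν (r + 1 + j) w) +
        P.E (fun w => φ w * ind (x (r + j + 1) w).rs)) := by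
    refine Finset.sum_le_sum fun j _ => ?_
    rw [← P.E_add]
    refine P.E_mono fun w _ => ?_
    have e : r + 1 + j = r + j + 1 := by ring
    rw [e, ← mul_add]
    exact mul_le_mul_of_nonneg_left (Hi_ne_le (r + j) w) (hφ0 w)
  rw [Finset.sum_add_distrib] at hE
  have h2η : 0 < 2 / η ^ 2 := by positivity
  calc _ ≤ 2 / η ^ 2 * P.E (fun w => φ w * c w) + P.E (fun w => φ w * c w) := by linarith
    _ = (2 / η ^ 2 + 1) * P.E (fun w => φ w * c w) := by ring
    _ ≤ (2 / η ^ 2 + 1) * (2 * P.E (fun w => φ w * q w)) := mul_le_mul_of_nonneg_left hC (by positivity)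
    _ = (4 / η ^ 2 + 2) * P.E (fun w => φ w * q w) := by ring

/-- finer information -/
theorem refine' {κ' : ℕ → Type*} {K' : ∀ t, Om → κ' t} (h : RunHyp P K M δ η n2 x ts ν) (hK' : Filt K')
    (hKK : ∀ t, Fac (K' t) (K t))
    (mart' : ∀ t, ∀ f : Om → V → ℝ, Fac (K' t) f → P.E (fun w => M (t + 1) w (f w)) = P.E (fun w => M t w (f w))) :
    RunHyp P K' M δ η n2 x ts ν where
  eta := h.eta
  small := h.small
  filt := hK'
  xK := fun t => (hKK t).trans (h.xK t)
  tsK := fun t => (hKK t).trans (h.tsK t)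
  nuK := fun t => (hKK t).trans (h.nuK t)
  mean := h.mean
  Mean := h.Mean
  near := h.near
  u1 := h.u1
  v1 := h.v1
  ls1 := h.ls1
  ts1 := h.ts1
  ust := h.ust
  mart := mart'

end RunHyp

/-- an interval of ones has at most two changes -/
theorem convex_changes (on : ℕ → Prop) (hcv : ∀ i j l, i ≤ l → l ≤ j → on i → on j → on l) (k : ℕ) :
    ind (on 0) + ∑ j ∈ range k, ind (¬ (on (j + 1) ↔ on j)) ≤ 2 * ind (∃ j ≤ k, on j) := by
  have key : ∀ k, ind (on 0) + ∑ j ∈ range k, ind (¬ (on (j + 1) ↔ on j)) + ind (on k) ≤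
      2 * ind (∃ j ≤ k, on j) := by
    intro k
    induction k with
    | zero =>
      rw [Finset.sum_range_zero, add_zero]
      by_cases h : on 0
      · rw [ind_of h, ind_of ⟨0, le_rfl, h⟩]; norm_num
      · rw [ind_not h]
        have := ind_nonneg (∃ j ≤ 0, on j)
        linarith
    | succ k ih =>
      rw [Finset.sum_range_succ]
      by_cases h1 : on (k + 1)
      · rw [ind_of h1, ind_of (show ∃ j ≤ k + 1, on j from ⟨k + 1, le_rfl, h1⟩)]
        by_cases h2 : on k
        · rw [ind_not (not_not.2 (iff_of_true h1 h2))]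
          rw [ind_of h2] at ih
          have := ind_le_one (∃ j ≤ k, on j)
          linarith
        · rw [ind_of (fun h3 => h2 (h3.1 h1))]
          have h4 : ¬ ∃ j ≤ k, on j := by
            rintro ⟨j, hj, h5⟩
            exact h2 (hcv j (k + 1) k hj (Nat.le_succ k) h5 h1)
          rw [ind_not h4, ind_not h2] at ih
          linarith
      · rw [ind_not h1]
        have hmono : ind (∃ j ≤ k, on j) ≤ ind (∃ j ≤ k + 1, on j) :=
          ind_mono fun ⟨j, hj, h⟩ => ⟨j, hj.trans (Nat.le_succ k), h⟩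
        by_cases h2 : on k
        · rw [ind_of (fun h3 => h1 (h3.2 h2))]
          rw [ind_of h2] at ih
          linarith
        · rw [ind_not (not_not.2 (iff_of_false h1 h2))]
          rw [ind_not h2] at ih
          linarith
  have := key k
  have h0 := ind_nonneg (on k)
  linarith

end hist

end Pool.Agent.M3

namespace Pool.Agent.M3.S2

open Finset Pool.Agent.PWZ Pool.Agent.M3.TS

noncomputable section

/-! ### the information `(xi, a, b, node)` -/

section KB

variable {Om Ξ A B C V Γ κ : Type} [Fintype Om] [Fintype Ξ] [Fintype A] [Fintype B]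
    [Fintype C] [Fintype V] (T : Tri Om Ξ A B C V Γ κ)

/-- `(xi, a, b)` is uniform and independent of the nodes -/
theorem Tri.ind_xab (t : ℕ) (g : Γ) (k : Ξ × A × B) :
    T.P.Pr (fun w => (T.xi w, T.a w, T.b w) = k ∧ T.gm t w = g) =
      T.P.Pr (fun w => T.gm t w = g) / (Fintype.card Ξ * Fintype.card A * Fintype.card B) := by
  rw [← T.iab t g k.1 k.2.1 k.2.2]
  unfold FP.Pr
  refine T.P.E_congr fun w _ => ?_
  congr 1
  refine propext ⟨fun h => ?_, fun h => ?_⟩
  · rw [← h.1]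
    exact ⟨rfl, rfl, rfl, h.2⟩
  · obtain ⟨h1, h2, h3, h4⟩ := h
    exact ⟨by rw [h1, h2, h3], h4⟩

/-- the information of the pair `(x, b)` -/
def Tri.KB (t : ℕ) (w : Om) : (Ξ × A × B) × Γ := ((T.xi w, T.a w, T.b w), T.gm t w)

theorem Tri.KB_iff {t : ℕ} {v w : Om} : T.KB t v = T.KB t w ↔
    T.xi v = T.xi w ∧ T.a v = T.a w ∧ T.b v = T.b w ∧ T.gm t v = T.gm t w := by
  unfold Tri.KB
  simp only [Prod.mk.injEq]
  tauto

theorem Tri.KB_filt : Filt T.KB := fun t v w h => by
  rw [T.KB_iff] at h ⊢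
  exact ⟨h.1, h.2.1, h.2.2.1, T.gm_anc (Nat.le_succ t) h.2.2.2⟩

theorem Tri.mart_KB (t : ℕ) (f : Om → V → ℝ) (hf : Fac (T.KB t) f) :
    T.P.E (fun w => T.mean (t + 1) w (f w)) = T.P.E (fun w => T.mean t w (f w)) :=
  mart_K (P := T.P) (Kp := fun w => (T.xi w, T.a w, T.b w)) (gm := T.gm) (par := T.par) (ρ := T.ρ)
    (N := Fintype.card Ξ * Fintype.card A * Fintype.card B) T.par_gm T.ind_xab T.mart t f hf

/-- runs of stage 2 with the information of the pair `(x, b)` -/
theorem Tri.toKB {σ : Type} {κ' : ℕ → Type} {K : ∀ t, Om → κ' t} {δ η : ℝ} {n2 : ℕ} {x : ℕ → Om → Loc σ V}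
    {ts : ℕ → Om → List (σ × (V → ℝ))} {ν : ℕ → Om → σ → Prop} (h : RunHyp T.P K T.mean δ η n2 x ts ν)
    (hK : ∀ t, Fac (T.KB t) (K t)) : RunHyp T.P T.KB T.mean δ η n2 x ts ν :=
  h.refine' T.KB_filt hK T.mart_KB

end KB

variable {Om A B C V Γ κ S : Type} [Fintype Om] [Fintype A] [Fintype B] [Fintype C] [Fintype V]
  [Fintype S] [DecidableEq S] {m : ℕ} {T : Tri Om (S → Fin m) A B C V Γ κ}

namespace Inp

variable (I : Inp T S)

/-! ### the label of `(b, c)` -/

theorem chg_e : ∑ t ∈ range T.n, T.P.Pr (fun w => I.G1 (t + 1) (T.gm (t + 1) w) (T.b w) (T.c w) ≠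
    I.G1 t (T.gm t w) (T.b w) (T.c w)) ≤ I.p0 := by
  unfold FP.Pr
  rw [← T.P.E_sum]
  exact T.P.E_le_const fun w _ => I.mv1 w

/-! ### the label of `(a, c)` -/

theorem N1_fac (R0 : ℝ) (t : ℕ) : Fac (T.KK1 t) (fun w => I.N1 R0 w t) := fun v w h => by
  rw [K1_iff] at h
  funext r
  exact propext (I.N1_congr (congrFun h.1 r) h.2.1 (by rw [h.2.2.1]) h.2.2.2)

/-- mean number of changes of the history of the actual run of stage 1 -/
theorem chg_g {F : S → ℕ → C × Γ → B → V → ℝ} {Bn : S → ℕ → C × Γ → κ → List (Finset B)} {n1 η1 : ℝ} {n2 : ℕ}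
    {R0 ε2 : ℝ} {ts : ℕ → Om → List (S × (V → ℝ))} (hη : 0 < η1) (hF : ∀ s t g b d, |F s t g b d| ≤ 1)
    (hts : I.Tests1 F Bn n1 η1 n2 R0 ε2 ts) :
    ∑ t ∈ range T.n, T.P.Pr (fun w => Hi η1 n2 (I.loc1 F Bn n1) ts (fun t w => I.N1 R0 w t) (t + 1) w ≠
      Hi η1 n2 (I.loc1 F Bn n1) ts (fun t w => I.N1 R0 w t) t w) ≤ 2 / η1 ^ 2 * (1 + I.p0) + I.p0 := by
  have h := (I.runHyp1 hη hF hts (fun t => I.N1_fac R0 t)).changes0 T.n
  have hrs : ∑ t ∈ range T.n, T.P.Pr (fun w => (I.loc1 F Bn n1 (t + 1) w).rs) ≤ I.p0 := by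
    unfold FP.Pr
    rw [← T.P.E_sum]
    refine T.P.E_le_const fun w _ => ?_
    refine le_trans (le_of_eq ?_) (I.mv2 w)
    exact Finset.sum_congr rfl fun t _ => I.ind_rs t w
  have h2 : 0 < 2 / η1 ^ 2 := by positivity
  have h3 := mul_le_mul_of_nonneg_left (add_le_add (le_refl (1 : ℝ)) hrs) h2.le
  linarith

/-! ### the label of `(a, b)` -/

/-- the label of `(a, b)` : coefficients of the live references times the names of the products -/
def fL (F2 : S → S → ℕ → Om → V → ℝ) (t : ℕ) (w : Om) : S → S → V → ℝ := fun s s' d =>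
  ind (I.live s t w) * I.cf t (T.gm t w) (T.a w) (T.b w) s * F2 s s' t w d

theorem live_mono {s : S} {t u : ℕ} (h : t ≤ u) {w : Om} (hl : I.live s t w) : I.live s u w :=
  ⟨⟨hl.1.1.trans h, hl.1.2⟩, hl.2⟩

/-- changes of the label, on a path -/
theorem fL_path (F2 : S → S → ℕ → Om → V → ℝ) (w : Om) :
    ∑ t ∈ range T.n, ind (I.fL F2 (t + 1) w ≠ I.fL F2 t w) ≤
      I.Λ + ∑ t ∈ range T.n, ∑ s, ∑ s', ind (I.live s (t + 1) w ∧ F2 s s' (t + 1) w ≠ F2 s s' t w) := by
  have hone : ∀ t, ind (I.fL F2 (t + 1) w ≠ I.fL F2 t w) ≤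
      (∑ s, (ind (I.live s (t + 1) w) - ind (I.live s t w))) +
        ∑ s, ∑ s', ind (I.live s (t + 1) w ∧ F2 s s' (t + 1) w ≠ F2 s s' t w) := by
    intro t
    have hs1 : ∀ s, 0 ≤ ind (I.live s (t + 1) w) - ind (I.live s t w) := fun s => by
      have := ind_mono (I.live_mono (s := s) (w := w) (Nat.le_succ t))
      linarith
    have hs2 : ∀ s, 0 ≤ ∑ s', ind (I.live s (t + 1) w ∧ F2 s s' (t + 1) w ≠ F2 s s' t w) := fun s =>
      Finset.sum_nonneg fun _ _ => ind_nonneg _
    have h10 : 0 ≤ ∑ s, (ind (I.live s (t + 1) w) - ind (I.live s t w)) := Finset.sum_nonneg fun s _ => hs1 s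
    have h20 : 0 ≤ ∑ s, ∑ s', ind (I.live s (t + 1) w ∧ F2 s s' (t + 1) w ≠ F2 s s' t w) :=
      Finset.sum_nonneg fun s _ => hs2 s
    by_cases hne : I.fL F2 (t + 1) w ≠ I.fL F2 t w
    · rw [ind_of hne]
      by_cases hlive : ∃ s, I.live s (t + 1) w ∧ ¬ I.live s t w
      · obtain ⟨s, h1, h2⟩ := hlive
        have h3 : (1 : ℝ) = ind (I.live s (t + 1) w) - ind (I.live s t w) := by
          rw [ind_of h1, ind_not h2]; norm_num
        have h4 := Finset.single_le_sum (f := fun s => ind (I.live s (t + 1) w) - ind (I.live s t w))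
          (fun s _ => hs1 s) (mem_univ s)
        linarith
      · push Not at hlive
        have hiff : ∀ s, I.live s (t + 1) w ↔ I.live s t w := fun s =>
          ⟨hlive s, I.live_mono (Nat.le_succ t)⟩
        have hcf := I.cfs (t + 1) t w w fun s => by
          have := hiff s
          unfold live on at this
          rw [and_assoc, and_assoc] at this
          exact this
        have hex : ∃ s s', I.live s (t + 1) w ∧ F2 s s' (t + 1) w ≠ F2 s s' t w := by
          by_contra hcon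
          push Not at hcon
          refine hne ?_
          funext s s' d
          unfold fL
          by_cases hl : I.live s (t + 1) w
          · rw [ind_of hl, ind_of ((hiff s).1 hl), hcf, hcon s s' hl]
          · rw [ind_not hl, ind_not (fun h => hl ((hiff s).2 h))]
            simp only [zero_mul]
        obtain ⟨s, s', h1⟩ := hex
        have h3 : (1 : ℝ) = ind (I.live s (t + 1) w ∧ F2 s s' (t + 1) w ≠ F2 s s' t w) := (ind_of h1).symm
        have h4 := Finset.single_le_sum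
          (f := fun s' => ind (I.live s (t + 1) w ∧ F2 s s' (t + 1) w ≠ F2 s s' t w))
          (fun _ _ => ind_nonneg _) (mem_univ s')
        have h5 := Finset.single_le_sum
          (f := fun s => ∑ s', ind (I.live s (t + 1) w ∧ F2 s s' (t + 1) w ≠ F2 s s' t w))
          (fun s _ => hs2 s) (mem_univ s)
        linarith
    · rw [ind_not hne]
      linarith
  refine (Finset.sum_le_sum fun t _ => hone t).trans ?_
  rw [Finset.sum_add_distrib]
  refine add_le_add ?_ le_rfl
  rw [Finset.sum_comm]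
  refine le_trans (Finset.sum_le_sum fun s _ => ?_) (I.hΛ T.n le_rfl w)
  rw [Finset.sum_range_sub (fun t => ind (I.live s t w))]
  have h0 := ind_nonneg (I.live s 0 w)
  have h1 : ind (I.live s T.n w) ≤ ind (I.R.tb s ≤ T.n ∧ T.gm (I.R.tb s) w = I.R.gb s ∧
      I.R.mem s (T.a w) (T.b w)) := ind_mono fun h => ⟨h.1.1, h.1.2, h.2⟩
  linarith

/-- few references are ever active in stage 2 -/
theorem act2_cnt {R0 nN : ℝ} (hn : 0 ≤ nN) (n : ℕ) (w : Om) (s : S) :
    ∑ s', ind (∃ t ≤ n, I.act2 R0 nN w t s s') ≤ nN := by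
  classical
  set Pc : ℕ → Prop := fun t => ∑ r, ind (I.NB R0 w t r) ≤ nN with hPc
  by_cases h : ∃ t ≤ n, Pc t
  · obtain ⟨t1, ht1, hP1⟩ := h
    have hspec : Pc (Nat.findGreatest Pc n) := Nat.findGreatest_spec ht1 hP1
    refine le_trans (Finset.sum_le_sum fun s' _ => ?_) hspec
    refine ind_mono ?_
    rintro ⟨t, ht, h2⟩
    exact I.NB_mono (Nat.le_findGreatest ht h2.2.2) h2.2.1
  · rw [Finset.sum_eq_zero]
    · exact hn
    · intro s' _
      refine ind_not ?_
      rintro ⟨t, ht, h2⟩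
      exact h ⟨t, ht, h2.2.2⟩

/-- `act2` is an interval of times after the birth -/
theorem act2_convex {R0 nN : ℝ} {w : Om} {s s' : S} {i j l : ℕ} (hil : i ≤ l) (hlj : l ≤ j)
    (hi : I.act2 R0 nN w i s s') (hj : I.act2 R0 nN w j s s') : I.act2 R0 nN w l s s' := by
  refine ⟨⟨⟨hi.1.1.1.trans hil, hi.1.1.2⟩, hi.1.2⟩, I.NB_mono hil hi.2.1, ?_⟩
  exact le_trans (Finset.sum_le_sum fun r _ => ind_mono (I.NB_mono hlj)) hj.2.2

/-- **mean number of changes of the label of `(a, b)`** : `Hi` of the pair `(s, s')` = history of a run with the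
information `(xi, a, b, node)`, without letters and with target zero unless `act2`, restarts only when `act2` changes -/
theorem chg_f {σ : Type} {R0 nN δ η2 : ℝ} {n4 : ℕ} (hn : 0 ≤ nN) (x2 : S → S → ℕ → Om → Loc σ V)
    (ts2 : S → S → ℕ → Om → List (σ × (V → ℝ))) (ν2 : S → S → ℕ → Om → σ → Prop)
    (hR : ∀ s s', RunHyp T.P T.KB T.mean δ η2 n4 (x2 s s') (ts2 s s') (ν2 s s'))
    (hoff : ∀ s s' t w, ¬ I.act2 R0 nN w t s s' → (x2 s s' t w).ls = [] ∧ ts2 s s' t w = [])
    (hu0 : ∀ s s' t w, ¬ I.act2 R0 nN w t s s' → ∀ d, (x2 s s' t w).u d = 0)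
    (hrs : ∀ s s' t w, (x2 s s' (t + 1) w).rs → ¬ (I.act2 R0 nN w (t + 1) s s' ↔ I.act2 R0 nN w t s s'))
    (F2 : S → S → ℕ → Om → V → ℝ)
    (hF2 : ∀ s s' t w, Hi η2 n4 (x2 s s') (ts2 s s') (ν2 s s') (t + 1) w =
      Hi η2 n4 (x2 s s') (ts2 s s') (ν2 s s') t w → F2 s s' (t + 1) w = F2 s s' t w) :
    ∑ t ∈ range T.n, T.P.Pr (fun w => I.fL F2 (t + 1) w ≠ I.fL F2 t w) ≤
      I.Λ + (4 / η2 ^ 2 + 2) * (I.Λ * nN) := by
  have h1 : ∑ t ∈ range T.n, T.P.Pr (fun w => I.fL F2 (t + 1) w ≠ I.fL F2 t w) ≤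
      I.Λ + ∑ s, ∑ s', ∑ t ∈ range T.n, T.P.E (fun w => ind (I.live s (t + 1) w ∧
        F2 s s' (t + 1) w ≠ F2 s s' t w)) := by
    unfold FP.Pr
    rw [← T.P.E_sum]
    refine (T.P.E_mono fun w _ => I.fL_path F2 w).trans (le_of_eq ?_)
    rw [T.P.E_add, T.P.E_const, T.P.E_sum]
    congr 1
    rw [Finset.sum_congr rfl fun t _ => T.P.E_sum _ _]
    rw [Finset.sum_comm]
    refine Finset.sum_congr rfl fun s _ => ?_
    rw [Finset.sum_congr rfl fun t _ => T.P.E_sum _ _]
    rw [Finset.sum_comm]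
  -- one pair
  set φ : S → Om → ℝ := fun s w => ind (T.gm (I.R.tb s) w = I.R.gb s ∧ I.R.mem s (T.a w) (T.b w)) with hφd
  have hpair : ∀ s s', ∑ t ∈ range T.n, T.P.E (fun w => ind (I.live s (t + 1) w ∧
        F2 s s' (t + 1) w ≠ F2 s s' t w)) ≤
      (4 / η2 ^ 2 + 2) * T.P.E (fun w => φ s w * ind (∃ t ≤ T.n, I.act2 R0 nN w t s s')) := by
    intro s s'
    obtain ⟨r, hr⟩ : ∃ r, I.R.tb s = r + 1 := ⟨I.R.tb s - 1, by have := I.tb1 s; omega⟩
    obtain ⟨k, hk⟩ : ∃ k, T.n = r + (k + 1) := ⟨T.n - r - 1, by have := I.tbn s; omega⟩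
    have hnot : ∀ t ≤ r, ∀ w, ¬ I.act2 R0 nN w t s s' := fun t ht w h => by
      have := h.1.1.1
      omega
    have h2 := (hR s s').changes_on (r := r) (k := k) (φ := φ s)
      (q := fun w => ind (∃ t ≤ T.n, I.act2 R0 nN w t s s')) (fun w => ind_nonneg _)
      (fun v w h => by
        rw [T.KB_iff] at h
        obtain ⟨_, ha, hb, hg⟩ := h
        rw [← hr] at hg
        simp only [hφd]
        rw [ha, hb, hg])
      (on := fun t w => I.act2 R0 nN w t s s') (hoff s s') (hu0 s s') hnot (hrs s s') (fun w => by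
        have h3 := convex_changes (fun j => I.act2 R0 nN w (r + 1 + j) s s')
          (fun i j l hil hlj hi hj => I.act2_convex (by omega) (by omega) hi hj) k
        refine h3.trans ?_
        refine mul_le_mul_of_nonneg_left (ind_mono ?_) (by norm_num)
        rintro ⟨j, hj, h4⟩
        exact ⟨r + 1 + j, by omega, h4⟩)
    refine le_trans ?_ h2
    rw [hk, Finset.sum_range_add]
    have h0 : ∑ t ∈ range r, T.P.E (fun w => ind (I.live s (t + 1) w ∧
        F2 s s' (t + 1) w ≠ F2 s s' t w)) ≤ 0 := by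
      refine Finset.sum_nonpos fun t ht => ?_
      have ht' := Finset.mem_range.1 ht
      refine T.P.E_le_const fun w _ => le_of_eq (ind_not fun h => ?_)
      have := h.1.1.1
      omega
    have h5 : ∑ j ∈ range (k + 1), T.P.E (fun w => ind (I.live s (r + j + 1) w ∧
        F2 s s' (r + j + 1) w ≠ F2 s s' (r + j) w)) ≤
        ∑ j ∈ range (k + 1), T.P.E (fun w => φ s w * ind (Hi η2 n4 (x2 s s') (ts2 s s') (ν2 s s') (r + j + 1) w ≠
          Hi η2 n4 (x2 s s') (ts2 s s') (ν2 s s') (r + j) w)) := by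
      refine Finset.sum_le_sum fun j _ => T.P.E_mono fun w _ => ?_
      by_cases h6 : I.live s (r + j + 1) w ∧ F2 s s' (r + j + 1) w ≠ F2 s s' (r + j) w
      · rw [ind_of h6]
        have h7 : φ s w = 1 := ind_of ⟨h6.1.1.2, h6.1.2⟩
        rw [h7, one_mul, ind_of fun h8 => h6.2 (hF2 s s' (r + j) w h8)]
      · rw [ind_not h6]
        exact mul_nonneg (ind_nonneg _) (ind_nonneg _)
    linarith
  have h4 : 0 ≤ 4 / η2 ^ 2 + 2 := by positivity
  refine h1.trans (add_le_add le_rfl ?_)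
  refine (Finset.sum_le_sum fun s _ => Finset.sum_le_sum fun s' _ => hpair s s').trans ?_
  rw [Finset.sum_congr rfl fun s _ => (Finset.mul_sum _ _ _).symm, ← Finset.mul_sum]
  refine mul_le_mul_of_nonneg_left ?_ h4
  rw [Finset.sum_congr rfl fun s _ => (T.P.E_sum _ _).symm, ← T.P.E_sum]
  refine T.P.E_le_const fun w _ => ?_
  calc ∑ s, ∑ s', φ s w * ind (∃ t ≤ T.n, I.act2 R0 nN w t s s')
      = ∑ s, φ s w * ∑ s', ind (∃ t ≤ T.n, I.act2 R0 nN w t s s') :=
        Finset.sum_congr rfl fun s _ => (Finset.mul_sum _ _ _).symm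
    _ ≤ ∑ s, φ s w * nN := Finset.sum_le_sum fun s _ =>
        mul_le_mul_of_nonneg_left (I.act2_cnt hn T.n w s) (ind_nonneg _)
    _ = (∑ s, φ s w) * nN := (Finset.sum_mul _ _ _).symm
    _ ≤ I.Λ * nN := by
        refine mul_le_mul_of_nonneg_right ?_ hn
        refine le_trans (Finset.sum_le_sum fun s _ => ?_) (I.hΛ T.n le_rfl w)
        exact ind_mono fun h => ⟨I.tbn s, h.1, h.2⟩

end Inp

end

end Pool.Agent.M3.S2
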