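import Pool.Agent.M3.S2.Stage1b
import Pool.Agent.M3.S2.RecB

/-!
# M3/S2/Stage2 : the runs of stage 2, error process, error bound (helper44)

For a pair `(s, s')` : individuals `(xi, a)` with the public node `(cb t b, gm t)`; target `v_s v_s'` while
`act2 w t s s'` (otherwise `0`), restart when `act2` changes, letters `let2`, public tests `ts`.
`Z2 s s'` = error process; `Z2_moves` : moves `<= (2 + 6/η^2) Pr (∃ t ≤ n, act2)`; `err2` = error bound for `k2 (s, s', i)`.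
-/

set_option autoImplicit false
set_option linter.unusedSectionVars false

namespace Pool.Agent.M3.S2

open Finset Pool.Agent.PWZ Pool.Agent.M3.TS

noncomputable section

section tri

variable {Om Ξ A B C V Γ κ : Type} [Fintype Om] [Fintype Ξ] [Fintype A] [Fintype B]
    [Fintype C] [Fintype V]

/-- `(xi, a, b)` is uniform and independent of the nodes -/
theorem Tri.ind_xab_s2 (T : Tri Om Ξ A B C V Γ κ) (t : ℕ) (g : Γ) (k : Ξ × A × B) :
    T.P.Pr (fun w => (T.xi w, T.a w, T.b w) = k ∧ T.gm t w = g) =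
      T.P.Pr (fun w => T.gm t w = g) / (Fintype.card Ξ * Fintype.card A * Fintype.card B) := by
  rw [← T.iab t g k.1 k.2.1 k.2.2]
  unfold FP.Pr
  refine T.P.E_congr fun w _ => ?_
  congr 1
  refine propext ⟨fun h => ?_, fun h => ?_⟩
  · rw [← h.1]
    exact ⟨rfl, rfl, rfl, h.2⟩
  · obtain ⟨h1, h2, h3, h4⟩ := h
    exact ⟨by rw [h1, h2, h3], h4⟩

/-- `(xi, a)` is uniform given the cell of `b` and the node -/
theorem Tri.free_xb (T : Tri Om Ξ A B C V Γ κ) (t : ℕ) (g : κ × Γ) (x x' : Ξ × A) :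
    T.P.Pr (fun w => (T.xi w, T.a w) = x ∧ (T.cb t (T.b w), T.gm t w) = g) =
      T.P.Pr (fun w => (T.xi w, T.a w) = x' ∧ (T.cb t (T.b w), T.gm t w) = g) := by
  classical
  have key : ∀ x : Ξ × A, T.P.Pr (fun w => (T.xi w, T.a w) = x ∧ (T.cb t (T.b w), T.gm t w) = g) =
      ∑ b0 : B, ind (T.cb t b0 = g.1) * (T.P.Pr (fun w => T.gm t w = g.2) /
        (Fintype.card Ξ * Fintype.card A * Fintype.card B)) := by
    intro x
    have h1 : ∀ b0 : B, ind (T.cb t b0 = g.1) * (T.P.Pr (fun w => T.gm t w = g.2) /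
        (Fintype.card Ξ * Fintype.card A * Fintype.card B)) =
        T.P.E (fun w => ind (T.cb t b0 = g.1) * ind (T.xi w = x.1 ∧ T.a w = x.2 ∧ T.b w = b0 ∧ T.gm t w = g.2)) := by
      intro b0
      rw [← T.iab t g.2 x.1 x.2 b0, T.P.E_smul]
      rfl
    rw [Finset.sum_congr rfl fun b0 _ => h1 b0, ← T.P.E_sum]
    unfold FP.Pr
    refine T.P.E_congr fun w _ => ?_
    rw [Finset.sum_eq_single (T.b w)]
    · by_cases h2 : (T.xi w, T.a w) = x ∧ (T.cb t (T.b w), T.gm t w) = g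
      · obtain ⟨h3, h4⟩ := h2
        rw [ind_of (show (T.xi w, T.a w) = x ∧ (T.cb t (T.b w), T.gm t w) = g from ⟨h3, h4⟩), ← h3, ← h4,
          ind_of rfl, ind_of ⟨rfl, rfl, rfl, rfl⟩, one_mul]
      · rw [ind_not h2]
        by_cases h3 : T.cb t (T.b w) = g.1
        · rw [ind_not (fun h4 : T.xi w = x.1 ∧ T.a w = x.2 ∧ T.b w = T.b w ∧ T.gm t w = g.2 =>
            h2 ⟨Prod.ext h4.1 h4.2.1, Prod.ext h3 h4.2.2.2⟩), mul_zero]
        · rw [ind_not h3, zero_mul]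
    · intro b0 _ hb
      rw [ind_not (fun h4 : T.xi w = x.1 ∧ T.a w = x.2 ∧ T.b w = b0 ∧ T.gm t w = g.2 => hb h4.2.2.1.symm), mul_zero]
    · intro h
      exact absurd (mem_univ _) h
  rw [key x, key x']

end tri

/-- nothing happens to an individual without target and without history -/
theorem proc_nil {S V : Type} {η : ℝ} {n2 : ℕ} {x : Loc S V} {ν : S → Prop} (hη : 0 < η) (hm : IsMean x.m)
    (hu : ∀ d, x.u d = 0) (ts : List (S × (V → ℝ))) : proc η n2 x ν ts [] = [] := by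
  have hE : Er η n2 x.u x.v [] = fun _ => 0 := by
    funext d
    unfold Er
    simp [hu d]
  have hnh : ∀ p, ¬ Hit η n2 x [] p := by
    intro p
    unfold Hit
    rw [hE]
    simp only [mul_zero, zero_mul]
    rw [hm.zero]
    exact not_le.2 hη
  have happ : ∀ p, app η n2 x ν p [] = [] := by
    intro p
    rcases app_or (η := η) (n2 := n2) (x := x) (ν := ν) p [] with h | ⟨_, _, h⟩
    · exact h.1
    · exact absurd h (hnh p)
  have hst : step1 η n2 x ν [] = [] := by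
    rcases step1_or (η := η) (n2 := n2) (x := x) (ν := ν) [] with h | ⟨p, _, _, _, h⟩
    · exact h.1
    · exact absurd h (hnh p)
  have hr : r1 η n2 x ν [] = [] := by
    unfold r1
    exact Function.iterate_fixed hst _
  induction ts with
  | nil => exact hr
  | cons p ts ih =>
    show proc η n2 x ν ts (app η n2 x ν p (r1 η n2 x ν [])) = []
    rw [hr, happ]
    exact ih

/-! ### the runs -/

variable {Om A B C V Γ κ S : Type} [Fintype Om] [Fintype A] [Fintype B] [Fintype C] [Fintype V]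
  [Fintype S] [DecidableEq S] {m : ℕ} {T : Tri Om (S → Fin m) A B C V Γ κ}

namespace Inp

variable (I : Inp T S)

theorem onab_congr {s : S} {t : ℕ} {v w : Om} (ha : T.ca t (T.a v) = T.ca t (T.a w))
    (hb : T.cb t (T.b v) = T.cb t (T.b w)) (h : T.gm t v = T.gm t w) : I.onab v t s ↔ I.onab w t s := by
  unfold onab
  constructor
  · rintro ⟨h1, h2, h3⟩
    exact ⟨(I.on_congr h).1 h1, (nest_le T.na h1.1 ha).symm.trans h2, (nest_le T.nb h1.1 hb).symm.trans h3⟩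
  · rintro ⟨h1, h2, h3⟩
    exact ⟨(I.on_congr h).2 h1, (nest_le T.na h1.1 ha).trans h2, (nest_le T.nb h1.1 hb).trans h3⟩

theorem onab_mono_s2 {s : S} {t u : ℕ} (h : t ≤ u) {w : Om} (h1 : I.onab w t s) : I.onab w u s :=
  ⟨I.on_mono h h1.1, h1.2⟩

variable {R0 nN : ℝ}

theorem act2_congr {s s' : S} {t : ℕ} {v w : Om} (hx : T.xi v = T.xi w) (ha : T.a v = T.a w)
    (hb : T.cb t (T.b v) = T.cb t (T.b w)) (hg : T.gm t v = T.gm t w) :
    I.act2 R0 nN v t s s' ↔ I.act2 R0 nN w t s s' := by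
  unfold act2
  rw [I.onab_congr (by rw [ha]) hb hg, I.NB_congr hx ha hb hg s']
  have : ∀ r, ind (I.NB R0 v t r) = ind (I.NB R0 w t r) := fun r => by
    congr 1
    exact propext (I.NB_congr hx ha hb hg r)
  rw [Finset.sum_congr rfl fun r _ => this r]

theorem act2_zero {s s' : S} {w : Om} : ¬ I.act2 R0 nN w 0 s s' := fun h => by
  have h1 := h.1.1.1
  have h2 := I.tb1 s
  omega

/-! ### letters -/

variable (F : S → S → ℕ → ℕ → Γ → B × C → V → ℝ)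
  (Bn : S → S → ℕ → ℕ → Γ → κ × κ → List (Finset (B × C))) (Nw : ℕ) (n3 : ℝ)

theorem let2_congr {s s' : S} {t : ℕ} {v w : Om} (ha : T.ca t (T.a v) = T.ca t (T.a w))
    (hb : T.cb t (T.b v) = T.cb t (T.b w)) (h : T.gm t v = T.gm t w) :
    T.let2 F Bn Nw n3 s s' t v = T.let2 F Bn Nw n3 s s' t w := by
  unfold Tri.let2
  rw [ha, hb, h]

/-- all letters tested at `w`, both signs -/
def al2 (R0 nN : ℝ) (s s' : S) (t : ℕ) (w : Om) : Set (Unit × (V → ℝ)) :=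
  {p | I.act2 R0 nN w t s s' ∧ ∃ f ∈ T.let2 F Bn Nw n3 s s' t w, p.2 = f ∨ p.2 = fun d => - f d}

theorem al2_congr {s s' : S} {t : ℕ} {v w : Om} (hx : T.xi v = T.xi w) (ha : T.a v = T.a w)
    (hb : T.cb t (T.b v) = T.cb t (T.b w)) (hg : T.gm t v = T.gm t w) :
    I.al2 F Bn Nw n3 R0 nN s s' t v = I.al2 F Bn Nw n3 R0 nN s s' t w := by
  unfold al2
  ext p
  simp only [Set.mem_ofPred_eq]
  rw [I.act2_congr hx ha hb hg, let2_congr F Bn Nw n3 (by rw [ha]) hb hg]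

theorem al2_fin (R0 nN : ℝ) (s s' : S) (t : ℕ) (w : Om) : (I.al2 F Bn Nw n3 R0 nN s s' t w).Finite := by
  classical
  refine Set.Finite.subset (Set.finite_range (fun q : Fin Nw × (B × C) × Bool =>
    ((), if q.2.2 then F s s' q.1 t (T.gm t w) q.2.1 else fun d => - F s s' q.1 t (T.gm t w) q.2.1 d))) ?_
  rintro ⟨⟨⟩, h⟩ ⟨_, f, ⟨i, hi, y, _, _, _, rfl⟩, hf⟩
  rcases hf with hf | hf
  · exact ⟨(⟨i, hi⟩, y, true), by simp only [if_true] at hf ⊢; rw [← hf]⟩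
  · exact ⟨(⟨i, hi⟩, y, false), by
      simp only [Bool.false_eq_true, if_false] at hf ⊢
      rw [← hf]⟩

/-- the list of the letters -/
def ls2 (R0 nN : ℝ) (s s' : S) (t : ℕ) (w : Om) : List (Unit × (V → ℝ)) :=
  (I.al2_fin F Bn Nw n3 R0 nN s s' t w).toFinset.toList

theorem mem_ls2 {s s' : S} {t : ℕ} {w : Om} {p : Unit × (V → ℝ)} :
    p ∈ I.ls2 F Bn Nw n3 R0 nN s s' t w ↔ p ∈ I.al2 F Bn Nw n3 R0 nN s s' t w := by
  unfold ls2
  rw [Finset.mem_toList, Set.Finite.mem_toFinset]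

theorem ls2_congr {s s' : S} {t : ℕ} {v w : Om} (hx : T.xi v = T.xi w) (ha : T.a v = T.a w)
    (hb : T.cb t (T.b v) = T.cb t (T.b w)) (hg : T.gm t v = T.gm t w) :
    I.ls2 F Bn Nw n3 R0 nN s s' t v = I.ls2 F Bn Nw n3 R0 nN s s' t w := by
  unfold ls2
  congr 1
  ext p
  rw [Set.Finite.mem_toFinset, Set.Finite.mem_toFinset, I.al2_congr F Bn Nw n3 hx ha hb hg]

theorem ls2_nil {s s' : S} {t : ℕ} {w : Om} (h : ¬ I.act2 R0 nN w t s s') :
    I.ls2 F Bn Nw n3 R0 nN s s' t w = [] := by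
  refine List.eq_nil_iff_forall_not_mem.2 fun p hp => ?_
  rw [I.mem_ls2] at hp
  exact h hp.1

/-- data of an individual -/
def loc2 (R0 nN : ℝ) (s s' : S) (t : ℕ) (w : Om) : Loc Unit V where
  m := T.mean t w
  ls := I.ls2 F Bn Nw n3 R0 nN s s' t w
  u := fun d => ind (I.act2 R0 nN w t s s') * (I.R.v s (T.a w) d * I.R.v s' (T.a w) d)
  v := fun _ _ => 1
  rs := ∃ u, t = u + 1 ∧ ¬ (I.act2 R0 nN w t s s' ↔ I.act2 R0 nN w u s s')

/-- information of an individual -/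
def _root_.Pool.Agent.M3.S2.Tri.KK2 (T : Tri Om (S → Fin m) A B C V Γ κ) (t : ℕ) (w : Om) :
    ((S → Fin m) × A) × κ × Γ := ((T.xi w, T.a w), (T.cb t (T.b w), T.gm t w))

/-- public information of the cell -/
def _root_.Pool.Agent.M3.S2.Tri.QQ2 (T : Tri Om (S → Fin m) A B C V Γ κ) (t : ℕ) (w : Om) :
    (κ × Γ) × κ := ((T.cb t (T.b w), T.gm t w), T.ca t (T.a w))

theorem K2_iff {t : ℕ} {v w : Om} : T.KK2 t v = T.KK2 t w ↔
    T.xi v = T.xi w ∧ T.a v = T.a w ∧ T.cb t (T.b v) = T.cb t (T.b w) ∧ T.gm t v = T.gm t w := by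
  unfold Tri.KK2
  simp only [Prod.mk.injEq]
  tauto

theorem Q2_iff {t : ℕ} {v w : Om} : T.QQ2 t v = T.QQ2 t w ↔
    T.cb t (T.b v) = T.cb t (T.b w) ∧ T.gm t v = T.gm t w ∧ T.ca t (T.a v) = T.ca t (T.a w) := by
  unfold Tri.QQ2
  simp only [Prod.mk.injEq]
  tauto

theorem K2_filt : Filt T.KK2 := fun t v w h => by
  rw [K2_iff] at h ⊢
  exact ⟨h.1, h.2.1, T.nb t _ _ h.2.2.1, T.gm_anc (Nat.le_succ t) h.2.2.2⟩

theorem QK2 (t : ℕ) : Fac (T.KK2 t) (T.QQ2 t) := fun v w h => by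
  rw [K2_iff] at h
  rw [Q2_iff]
  exact ⟨h.2.2.1, h.2.2.2, by rw [h.2.1]⟩

theorem loc2_fac (R0 nN : ℝ) (s s' : S) (t : ℕ) : Fac (T.KK2 t) (I.loc2 F Bn Nw n3 R0 nN s s' t) :=
  fun v w h => by
  rw [K2_iff] at h
  obtain ⟨hx, ha, hb, hg⟩ := h
  have e1 : T.mean t v = T.mean t w := by
    funext f
    unfold Tri.mean
    rw [hg]
  have e2 : (∃ u, t = u + 1 ∧ ¬ (I.act2 R0 nN v t s s' ↔ I.act2 R0 nN v u s s')) =
      (∃ u, t = u + 1 ∧ ¬ (I.act2 R0 nN w t s s' ↔ I.act2 R0 nN w u s s')) := by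
    refine propext (exists_congr fun u => and_congr_right fun hu => ?_)
    rw [I.act2_congr hx ha hb hg, I.act2_congr hx ha (nest_le T.nb (by omega : u ≤ t) hb)
      (T.gm_anc (by omega : u ≤ t) hg)]
  have e3 : (I.act2 R0 nN v t s s') = (I.act2 R0 nN w t s s') := propext (I.act2_congr hx ha hb hg)
  unfold loc2
  rw [I.ls2_congr F Bn Nw n3 hx ha hb hg, ha, e1, e2, e3]

/-- all individuals are recorded -/
def nu2 (t : ℕ) (w : Om) : Unit → Prop :=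
  nuP (fun (_ : ℕ) (_ : Om) (_ : Unit) => True) (fun (_ : ℕ) (_ : Om) (_ : Unit) => True) () t w

theorem nu2_true (t : ℕ) (w : Om) (u : Unit) : nu2 (Om := Om) t w u := Or.inl trivial

/-- the public tests of stage 2 for the pair `(s, s')` -/
structure Tests2 (η2 : ℝ) (n4 : ℕ) (R0 nN ε3 : ℝ) (s s' : S) (ts : ℕ → Om → List (Unit × (V → ℝ))) : Prop where
  tsQ : ∀ t, Fac (T.QQ2 t) (ts t)
  bd : ∀ t w, ∀ p ∈ ts t w, ∀ d, |p.2 d| ≤ 1
  P2 : ∀ t w, ∀ g : V → ℝ, (∀ d, |g d| ≤ 1) →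
    T.P.ce (T.QQ2 t) (fun w => ind (Hit η2 n4 (I.loc2 F Bn Nw n3 R0 nN s s' t w)
      (Hi η2 n4 (I.loc2 F Bn Nw n3 R0 nN s s') ts nu2 t w) ((), g))) w < ε3
  cnt : ∀ t w, ε3 * cntS () (ts t w) ≤ T.P.ce (T.QQ2 t)
    (Up η2 n4 (I.loc2 F Bn Nw n3 R0 nN s s') ts nu2 t) w

theorem tests2 {η2 : ℝ} (hη : 0 < η2) (n4 : ℕ) (R0 nN : ℝ) {ε3 : ℝ} (hε : 0 < ε3) (s s' : S) :
    ∃ ts, I.Tests2 F Bn Nw n3 η2 n4 R0 nN ε3 s s' ts := by
  obtain ⟨ts, h1, h2, h3, h4⟩ := exists_tests T.P (Q := T.QQ2) (η := η2) (n2 := n4)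
    (x := I.loc2 F Bn Nw n3 R0 nN s s') (N := fun _ _ (_ : Unit) => True) (b := fun _ _ (_ : Unit) => True) hη
    (fun t w => T.isMean t w) hε (fun _ _ => {()}) (fun _ => Fac.const _ _) (fun _ _ _ _ => trivial)
  exact ⟨ts, h1, fun t w p hp => (h2 t w p hp).2,
    fun t w => h3 t w (T.ppos w) () (Finset.mem_singleton_self _), fun t w => h4 t w (T.ppos w) ()⟩

variable {F Bn Nw n3} {η2 : ℝ} {n4 : ℕ} {ε3 : ℝ} {s s' : S} {ts : ℕ → Om → List (Unit × (V → ℝ))}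

theorem bd_ls2 (hF : ∀ i t g y d, |F s s' i t g y d| ≤ 1) (t : ℕ) (w : Om) :
    Bd (I.ls2 F Bn Nw n3 R0 nN s s' t w) := by
  intro p hp d
  rw [I.mem_ls2] at hp
  obtain ⟨_, f, ⟨i, hi, y, _, _, _, rfl⟩, h⟩ := hp
  rcases h with h | h
  · rw [h]; exact hF _ _ _ _ _
  · rw [h, abs_neg]; exact hF _ _ _ _ _

/-- the runs satisfy the hypotheses of `RunE` -/
theorem runHyp2 (hη : 0 < η2) (hF : ∀ i t g y d, |F s s' i t g y d| ≤ 1)
    {ts : ℕ → Om → List (Unit × (V → ℝ))} (htK : ∀ t, Fac (T.KK2 t) (ts t))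
    (hbd : ∀ t w, ∀ p ∈ ts t w, ∀ d, |p.2 d| ≤ 1) :
    RunHyp T.P T.KK2 T.mean 0 η2 n4 (I.loc2 F Bn Nw n3 R0 nN s s') ts nu2 where
  eta := hη
  small := by rw [zero_mul]; positivity
  filt := K2_filt
  xK := I.loc2_fac F Bn Nw n3 R0 nN s s'
  tsK := htK
  nuK := fun t => Fac.const _ _
  mean := fun t w => T.isMean t w
  Mean := fun t w => T.isMean t w
  near := fun t w f c _ _ => by
    show |T.mean t w f - T.mean t w f| ≤ 0 * c
    rw [sub_self, abs_zero, zero_mul]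
  u1 := fun t w d => by
    show |ind (I.act2 R0 nN w t s s') * (I.R.v s (T.a w) d * I.R.v s' (T.a w) d)| ≤ 1
    rw [abs_mul, abs_of_nonneg (ind_nonneg _), abs_mul]
    have h1 := I.v1 s (T.a w) d
    have h2 := I.v1 s' (T.a w) d
    have h3 : |I.R.v s (T.a w) d| * |I.R.v s' (T.a w) d| ≤ 1 := mul_le_one₀ h1 (abs_nonneg _) h2
    exact mul_le_one₀ (ind_le_one _) (by positivity) h3
  v1 := fun t w s d => by
    show |(1 : ℝ)| ≤ 1
    simp
  ls1 := fun t w => I.bd_ls2 hF t w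
  ts1 := hbd
  ust := fun t w h => by
    have h1 : I.act2 R0 nN w (t + 1) s s' ↔ I.act2 R0 nN w t s s' := by
      by_contra h1
      exact h ⟨t, rfl, h1⟩
    refine ⟨?_, rfl⟩
    show (fun d => ind (I.act2 R0 nN w (t + 1) s s') * (I.R.v s (T.a w) d * I.R.v s' (T.a w) d)) =
      fun d => ind (I.act2 R0 nN w t s s') * (I.R.v s (T.a w) d * I.R.v s' (T.a w) d)
    rw [show I.act2 R0 nN w (t + 1) s s' = I.act2 R0 nN w t s s' from propext h1]
  mart := fun t f hf => by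
    have h1 : Fac (fun w => ((T.xi w, T.a w, T.b w), T.gm t w)) f := fun v w h => by
      refine hf v w ?_
      rw [K2_iff]
      simp only [Prod.mk.injEq] at h
      obtain ⟨⟨h2, h3, h4⟩, h5⟩ := h
      exact ⟨h2, h3, by rw [h4], h5⟩
    have := mart_K (P := T.P) (Kp := fun w => (T.xi w, T.a w, T.b w)) (gm := T.gm) (par := T.par) (ρ := T.ρ)
      (N := Fintype.card (S → Fin m) * Fintype.card A * Fintype.card B) T.par_gm T.ind_xab_s2 T.mart t f h1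
    exact this

/-- the history is empty when the pair is not active -/
theorem Hi2_nil (hη : 0 < η2) (ts : ℕ → Om → List (Unit × (V → ℝ))) (t : ℕ) (w : Om)
    (h : ¬ I.act2 R0 nN w t s s') :
    Hi η2 n4 (I.loc2 F Bn Nw n3 R0 nN s s') ts nu2 t w = [] := by
  have hp : Hp η2 n4 (I.loc2 F Bn Nw n3 R0 nN s s') ts nu2 t w = [] → Hi η2 n4 (I.loc2 F Bn Nw n3 R0 nN s s') ts nu2 t w = [] := by
    intro h1
    have e : Hi η2 n4 (I.loc2 F Bn Nw n3 R0 nN s s') ts nu2 t w = proc η2 n4 (I.loc2 F Bn Nw n3 R0 nN s s' t w)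
        (nu2 t w) (ts t w) (Hp η2 n4 (I.loc2 F Bn Nw n3 R0 nN s s') ts nu2 t w) := hist_eq t
    rw [e, h1]
    refine proc_nil hη (T.isMean t w) (fun d => ?_) _
    show ind (I.act2 R0 nN w t s s') * _ = 0
    rw [ind_not h, zero_mul]
  induction t with
  | zero => exact hp rfl
  | succ t ih =>
    refine hp ?_
    by_cases hr : (I.loc2 F Bn Nw n3 R0 nN s s' (t + 1) w).rs
    · exact hpre_succ_rs (x := fun t => I.loc2 F Bn Nw n3 R0 nN s s' t w) hr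
    · have h1 : I.act2 R0 nN w (t + 1) s s' ↔ I.act2 R0 nN w t s s' := by
        by_contra h1
        exact hr ⟨t, rfl, h1⟩
      have h2 : ¬ I.act2 R0 nN w t s s' := fun h3 => h (h1.2 h3)
      have e3 : Hp η2 n4 (I.loc2 F Bn Nw n3 R0 nN s s') ts nu2 (t + 1) w =
        Hi η2 n4 (I.loc2 F Bn Nw n3 R0 nN s s') ts nu2 t w :=
        hpre_succ (x := fun t => I.loc2 F Bn Nw n3 R0 nN s s' t w) hr
      rw [e3]
      refine ih h2 fun h1 => ?_
      have e : Hi η2 n4 (I.loc2 F Bn Nw n3 R0 nN s s') ts nu2 t w = proc η2 n4 (I.loc2 F Bn Nw n3 R0 nN s s' t w)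
          (nu2 t w) (ts t w) (Hp η2 n4 (I.loc2 F Bn Nw n3 R0 nN s s') ts nu2 t w) := hist_eq t
      rw [e, h1]
      refine proc_nil hη (T.isMean t w) (fun d => ?_) _
      show ind (I.act2 R0 nN w t s s') * _ = 0
      rw [ind_not h2, zero_mul]

/-- the error process of the pair `(s, s')` -/
def Z2 (F : S → S → ℕ → ℕ → Γ → B × C → V → ℝ) (Bn : S → S → ℕ → ℕ → Γ → κ × κ → List (Finset (B × C))) (Nw : ℕ)
    (n3 η2 : ℝ) (n4 : ℕ) (R0 nN : ℝ) (ts : ℕ → Om → List (Unit × (V → ℝ))) (s s' : S) (t : ℕ) (w : Om) (d : V) : ℝ :=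
  Er η2 n4 (I.loc2 F Bn Nw n3 R0 nN s s' t w).u (I.loc2 F Bn Nw n3 R0 nN s s' t w).v
    (Hi η2 n4 (I.loc2 F Bn Nw n3 R0 nN s s') ts nu2 t w) d

theorem Z2_nil (hη : 0 < η2) {t : ℕ} {w : Om} (h : ¬ I.act2 R0 nN w t s s') (d : V) :
    I.Z2 F Bn Nw n3 η2 n4 R0 nN ts s s' t w d = 0 := by
  unfold Z2
  rw [I.Hi2_nil hη ts t w h]
  unfold Er
  simp only [List.length_nil, Nat.zero_le, if_true, List.map_nil, List.sum_nil, mul_zero, sub_zero]
  show ind (I.act2 R0 nN w t s s') * _ = 0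
  rw [ind_not h, zero_mul]

theorem Z2_fac (hη : 0 < η2) (hF : ∀ i t g y d, |F s s' i t g y d| ≤ 1)
    (hts : I.Tests2 F Bn Nw n3 η2 n4 R0 nN ε3 s s' ts) (t : ℕ) :
    Fac (T.KK2 t) (I.Z2 F Bn Nw n3 η2 n4 R0 nN ts s s' t) := fun v w h => by
  have hR := I.runHyp2 (n4 := n4) (R0 := R0) (nN := nN) (Bn := Bn) (Nw := Nw) (n3 := n3) hη hF
    (fun t => (QK2 t).trans (hts.tsQ t)) hts.bd
  have h1 := Hi_fac (η := η2) (n2 := n4) hR.filt hR.xK hR.tsK hR.nuK t v w h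
  have h2 := I.loc2_fac F Bn Nw n3 R0 nN s s' t v w h
  funext d
  unfold Z2
  rw [h1, h2]

theorem Z2_bd (hη : 0 < η2) (hF : ∀ i t g y d, |F s s' i t g y d| ≤ 1)
    (hts : I.Tests2 F Bn Nw n3 η2 n4 R0 nN ε3 s s' ts) (t : ℕ) (w : Om) (d : V) :
    |I.Z2 F Bn Nw n3 η2 n4 R0 nN ts s s' t w d| ≤ 1 + n4 * η2 := by
  have hR := I.runHyp2 (n4 := n4) (R0 := R0) (nN := nN) (Bn := Bn) (Nw := Nw) (n3 := n3) hη hF
    (fun t => (QK2 t).trans (hts.tsQ t)) hts.bd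
  exact abs_Er_le (n2 := n4) hη (hR.u1 t w) (hR.v1 t w) (hR.Hi_bd t w) d

theorem hit2_iff {t : ℕ} {w : Om} (g : V → ℝ) :
    Hit η2 n4 (I.loc2 F Bn Nw n3 R0 nN s s' t w) (Hi η2 n4 (I.loc2 F Bn Nw n3 R0 nN s s') ts nu2 t w) ((), g) ↔
      η2 ≤ iw (T.ρ t (T.gm t w)) g (I.Z2 F Bn Nw n3 η2 n4 R0 nN ts s s' t w) := by
  unfold Hit Z2
  rw [← T.mean_mul]
  have e : (fun d => g d * Er η2 n4 (I.loc2 F Bn Nw n3 R0 nN s s' t w).u (I.loc2 F Bn Nw n3 R0 nN s s' t w).v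
      (Hi η2 n4 (I.loc2 F Bn Nw n3 R0 nN s s') ts nu2 t w) d * (I.loc2 F Bn Nw n3 R0 nN s s' t w).v () d) =
      fun d => g d * Er η2 n4 (I.loc2 F Bn Nw n3 R0 nN s s' t w).u (I.loc2 F Bn Nw n3 R0 nN s s' t w).v
      (Hi η2 n4 (I.loc2 F Bn Nw n3 R0 nN s s') ts nu2 t w) d := by
    funext d
    exact mul_one _
  show η2 ≤ T.mean t w _ ↔ _
  rw [e]

theorem hit2_neg_iff {t : ℕ} {w : Om} (g : V → ℝ) :
    Hit η2 n4 (I.loc2 F Bn Nw n3 R0 nN s s' t w) (Hi η2 n4 (I.loc2 F Bn Nw n3 R0 nN s s') ts nu2 t w)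
      ((), fun d => - g d) ↔
      iw (T.ρ t (T.gm t w)) g (I.Z2 F Bn Nw n3 η2 n4 R0 nN ts s s' t w) ≤ - η2 := by
  rw [I.hit2_iff]
  have e : iw (T.ρ t (T.gm t w)) (fun d => - g d) (I.Z2 F Bn Nw n3 η2 n4 R0 nN ts s s' t w) =
      - iw (T.ρ t (T.gm t w)) g (I.Z2 F Bn Nw n3 η2 n4 R0 nN ts s s' t w) := by
    unfold iw
    rw [← Finset.sum_neg_distrib]
    exact Finset.sum_congr rfl fun d _ => by ring
  rw [e]
  constructor <;> intro h <;> linarith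

/-- (P2) for the error process -/
theorem Z2_P2 (hts : I.Tests2 F Bn Nw n3 η2 n4 R0 nN ε3 s s' ts) (t : ℕ) (w : Om)
    (g : V → ℝ) (hg : ∀ d, |g d| ≤ 1) :
    T.P.ce (T.QQ2 t) (fun w => ind (η2 ≤ |iw (T.ρ t (T.gm t w)) g (I.Z2 F Bn Nw n3 η2 n4 R0 nN ts s s' t w)|)) w ≤
      2 * ε3 := by
  have h1 := (hts.P2 t w g hg).le
  have h2 := (hts.P2 t w (fun d => - g d) fun d => by rw [abs_neg]; exact hg d).le
  have hle : T.P.ce (T.QQ2 t) (fun w => ind (η2 ≤ |iw (T.ρ t (T.gm t w)) g (I.Z2 F Bn Nw n3 η2 n4 R0 nN ts s s' t w)|)) w ≤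
      T.P.ce (T.QQ2 t) (fun w => ind (Hit η2 n4 (I.loc2 F Bn Nw n3 R0 nN s s' t w)
        (Hi η2 n4 (I.loc2 F Bn Nw n3 R0 nN s s') ts nu2 t w) ((), g)) +
        ind (Hit η2 n4 (I.loc2 F Bn Nw n3 R0 nN s s' t w)
        (Hi η2 n4 (I.loc2 F Bn Nw n3 R0 nN s s') ts nu2 t w) ((), fun d => - g d))) w := by
    refine ce_mono_fib T.P fun v _ => ?_
    refine le_trans (ind_mono fun h => ?_) (ind_or_le _ _)
    rw [I.hit2_iff, I.hit2_neg_iff]
    rcases le_abs.1 h with h3 | h3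
    · exact Or.inl h3
    · exact Or.inr (by linarith)
  rw [T.P.ce_add] at hle
  linarith

/-- (P1): the name of `(b, c)` is tested -/
theorem Z2_P1 (hη : 0 < η2) {i : ℕ} (hi : i < Nw) (t : ℕ) (w : Om)
    (hl : ¬ lost T.par (fun t (y : B × C) => (T.cb t y.1, T.cc t y.2)) (Bn s s' i) n3 t (T.gm t w) (T.b w, T.c w)) :
    |iw (T.ρ t (T.gm t w)) (F s s' i t (T.gm t w) (T.b w, T.c w)) (I.Z2 F Bn Nw n3 η2 n4 R0 nN ts s s' t w)| ≤ η2 := by
  by_cases ha : I.act2 R0 nN w t s s'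
  · have hlet : F s s' i t (T.gm t w) (T.b w, T.c w) ∈ T.let2 F Bn Nw n3 s s' t w :=
      ⟨i, hi, (T.b w, T.c w), rfl, ⟨w, rfl, rfl, rfl, rfl⟩, hl, rfl⟩
    have h1 := hist_P1 (η := η2) (n2 := n4) (x := fun t => I.loc2 F Bn Nw n3 R0 nN s s' t w) (ts := fun t => ts t w)
      (ν := fun t => nu2 t w) hη (fun t => T.isMean t w) t
      (p := ((), F s s' i t (T.gm t w) (T.b w, T.c w))) ((I.mem_ls2 F Bn Nw n3).2 ⟨ha, _, hlet, Or.inl rfl⟩)
      (nu2_true t w ())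
    have h2 := hist_P1 (η := η2) (n2 := n4) (x := fun t => I.loc2 F Bn Nw n3 R0 nN s s' t w) (ts := fun t => ts t w)
      (ν := fun t => nu2 t w) hη (fun t => T.isMean t w) t
      (p := ((), fun d => - F s s' i t (T.gm t w) (T.b w, T.c w) d))
      ((I.mem_ls2 F Bn Nw n3).2 ⟨ha, _, hlet, Or.inr rfl⟩) (nu2_true t w ())
    have h3 : ¬ Hit η2 n4 (I.loc2 F Bn Nw n3 R0 nN s s' t w) (Hi η2 n4 (I.loc2 F Bn Nw n3 R0 nN s s') ts nu2 t w)
      ((), F s s' i t (T.gm t w) (T.b w, T.c w)) := h1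
    have h4 : ¬ Hit η2 n4 (I.loc2 F Bn Nw n3 R0 nN s s' t w) (Hi η2 n4 (I.loc2 F Bn Nw n3 R0 nN s s') ts nu2 t w)
      ((), fun d => - F s s' i t (T.gm t w) (T.b w, T.c w) d) := h2
    rw [I.hit2_iff] at h3
    rw [I.hit2_neg_iff] at h4
    rw [abs_le]
    constructor <;> linarith
  · have e : iw (T.ρ t (T.gm t w)) (F s s' i t (T.gm t w) (T.b w, T.c w))
        (I.Z2 F Bn Nw n3 η2 n4 R0 nN ts s s' t w) = 0 := by
      unfold iw
      refine Finset.sum_eq_zero fun d _ => ?_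
      rw [I.Z2_nil hη ha]
      ring
    rw [e, abs_zero]
    exact hη.le

/-! ### number of moves of the error process -/

theorem ind_rs2 (t : ℕ) (w : Om) : ind (I.loc2 F Bn Nw n3 R0 nN s s' (t + 1) w).rs =
    ind (¬ (I.act2 R0 nN w (t + 1) s s' ↔ I.act2 R0 nN w t s s')) := by
  congr 1
  refine propext ⟨?_, fun h => ⟨t, rfl, h⟩⟩
  rintro ⟨u, hu, h⟩
  have : u = t := by omega
  subst this
  exact h

/-- `act2` changes at most twice, and never if the pair is never active -/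
theorem rs2_le (w : Om) (n : ℕ) : ∑ t ∈ range n, ind (I.loc2 F Bn Nw n3 R0 nN s s' (t + 1) w).rs ≤
    2 * ind (∃ t ≤ n, I.act2 R0 nN w t s s') := by
  by_cases hβ : ∃ t ≤ n, I.act2 R0 nN w t s s'
  · rw [ind_of hβ]
    set p : ℕ → Prop := fun t => I.onab w t s ∧ I.NB R0 w t s' with hp
    set q : ℕ → Prop := fun t => ∑ r, ind (I.NB R0 w t r) ≤ nN with hq
    have hpm : ∀ t, p t → p (t + 1) := fun t h => ⟨I.onab_mono_s2 (Nat.le_succ t) h.1, I.NB_mono (Nat.le_succ t) h.2⟩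
    have hqm : ∀ t, q (t + 1) → q t := fun t h =>
      le_trans (Finset.sum_le_sum fun r _ => ind_mono fun h1 => I.NB_mono (Nat.le_succ t) h1) h
    have hstep : ∀ t, ind (I.loc2 F Bn Nw n3 R0 nN s s' (t + 1) w).rs ≤
        (ind (p (t + 1)) - ind (p t)) + (ind (q t) - ind (q (t + 1))) := by
      intro t
      rw [I.ind_rs2]
      have hiff : ∀ t, I.act2 R0 nN w t s s' ↔ p t ∧ q t := fun t => by
        unfold act2
        simp only [hp, hq]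
        tauto
      by_cases p0 : p t
      · have p1 := hpm t p0
        by_cases q1 : q (t + 1)
        · have q0 := hqm t q1
          rw [ind_of p0, ind_of p1, ind_of q0, ind_of q1, ind_not]
          · norm_num
          · rw [hiff, hiff]
            tauto
        · by_cases q0 : q t
          · rw [ind_of p0, ind_of p1, ind_of q0, ind_not q1]
            linarith [ind_le_one (¬ (I.act2 R0 nN w (t + 1) s s' ↔ I.act2 R0 nN w t s s'))]
          · rw [ind_of p0, ind_of p1, ind_not q0, ind_not q1, ind_not]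
            · norm_num
            · rw [hiff, hiff]
              tauto
      · by_cases p1 : p (t + 1)
        · rw [ind_not p0, ind_of p1]
          have h1 := ind_le_one (¬ (I.act2 R0 nN w (t + 1) s s' ↔ I.act2 R0 nN w t s s'))
          have h2 : ind (q (t + 1)) ≤ ind (q t) := ind_mono (hqm t)
          linarith
        · rw [ind_not p0, ind_not p1, ind_not]
          · have h2 : ind (q (t + 1)) ≤ ind (q t) := ind_mono (hqm t)
            linarith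
          · rw [hiff, hiff]
            tauto
    refine (Finset.sum_le_sum fun t _ => hstep t).trans ?_
    rw [Finset.sum_add_distrib, Finset.sum_range_sub (fun t => ind (p t)), Finset.sum_range_sub' (fun t => ind (q t))]
    linarith [ind_nonneg (p 0), ind_le_one (p n), ind_le_one (q 0), ind_nonneg (q n)]
  · rw [ind_not hβ, mul_zero]
    refine le_of_eq (Finset.sum_eq_zero fun t ht => ?_)
    rw [I.ind_rs2]
    rw [Finset.mem_range] at ht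
    refine ind_not fun h => h ⟨fun h1 => absurd ⟨t + 1, ht, h1⟩ hβ, fun h1 => absurd ⟨t, ht.le, h1⟩ hβ⟩

open Classical in
/-- the tests which matter -/
def ts2 (R0 nN : ℝ) (s s' : S) (ts : ℕ → Om → List (Unit × (V → ℝ))) (t : ℕ) (w : Om) : List (Unit × (V → ℝ)) :=
  if I.act2 R0 nN w t s s' then ts t w else []

theorem Hi_ts2 (hη : 0 < η2) (ts : ℕ → Om → List (Unit × (V → ℝ))) (t : ℕ) (w : Om) :
    Hi η2 n4 (I.loc2 F Bn Nw n3 R0 nN s s') ts nu2 t w =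
      Hi η2 n4 (I.loc2 F Bn Nw n3 R0 nN s s') (I.ts2 R0 nN s s' ts) nu2 t w := by
  induction t with
  | zero =>
    rw [I.Hi2_nil hη ts 0 w I.act2_zero, I.Hi2_nil hη _ 0 w I.act2_zero]
  | succ t ih =>
    by_cases h : I.act2 R0 nN w (t + 1) s s'
    · have e1 : Hi η2 n4 (I.loc2 F Bn Nw n3 R0 nN s s') ts nu2 (t + 1) w = proc η2 n4
          (I.loc2 F Bn Nw n3 R0 nN s s' (t + 1) w) (nu2 (t + 1) w) (ts (t + 1) w)
          (Hp η2 n4 (I.loc2 F Bn Nw n3 R0 nN s s') ts nu2 (t + 1) w) := hist_eq (t + 1)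
      have e2 : Hi η2 n4 (I.loc2 F Bn Nw n3 R0 nN s s') (I.ts2 R0 nN s s' ts) nu2 (t + 1) w = proc η2 n4
          (I.loc2 F Bn Nw n3 R0 nN s s' (t + 1) w) (nu2 (t + 1) w) (I.ts2 R0 nN s s' ts (t + 1) w)
          (Hp η2 n4 (I.loc2 F Bn Nw n3 R0 nN s s') (I.ts2 R0 nN s s' ts) nu2 (t + 1) w) := hist_eq (t + 1)
      have e3 : I.ts2 R0 nN s s' ts (t + 1) w = ts (t + 1) w := by
        unfold ts2
        rw [if_pos h]
      have e4 : Hp η2 n4 (I.loc2 F Bn Nw n3 R0 nN s s') ts nu2 (t + 1) w =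
          Hp η2 n4 (I.loc2 F Bn Nw n3 R0 nN s s') (I.ts2 R0 nN s s' ts) nu2 (t + 1) w := by
        by_cases hr : (I.loc2 F Bn Nw n3 R0 nN s s' (t + 1) w).rs
        · have a1 : Hp η2 n4 (I.loc2 F Bn Nw n3 R0 nN s s') ts nu2 (t + 1) w = [] :=
            hpre_succ_rs (x := fun t => I.loc2 F Bn Nw n3 R0 nN s s' t w) hr
          have a2 : Hp η2 n4 (I.loc2 F Bn Nw n3 R0 nN s s') (I.ts2 R0 nN s s' ts) nu2 (t + 1) w = [] :=
            hpre_succ_rs (x := fun t => I.loc2 F Bn Nw n3 R0 nN s s' t w) hr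
          rw [a1, a2]
        · have a1 : Hp η2 n4 (I.loc2 F Bn Nw n3 R0 nN s s') ts nu2 (t + 1) w =
              Hi η2 n4 (I.loc2 F Bn Nw n3 R0 nN s s') ts nu2 t w :=
            hpre_succ (x := fun t => I.loc2 F Bn Nw n3 R0 nN s s' t w) hr
          have a2 : Hp η2 n4 (I.loc2 F Bn Nw n3 R0 nN s s') (I.ts2 R0 nN s s' ts) nu2 (t + 1) w =
              Hi η2 n4 (I.loc2 F Bn Nw n3 R0 nN s s') (I.ts2 R0 nN s s' ts) nu2 t w :=
            hpre_succ (x := fun t => I.loc2 F Bn Nw n3 R0 nN s s' t w) hr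
          rw [a1, a2, ih]
      rw [e1, e2, e3, e4]
    · rw [I.Hi2_nil hη ts _ w h, I.Hi2_nil hη _ _ w h]

theorem Hp_ts2 (hη : 0 < η2) (ts : ℕ → Om → List (Unit × (V → ℝ))) (t : ℕ) (w : Om) :
    Hp η2 n4 (I.loc2 F Bn Nw n3 R0 nN s s') ts nu2 t w =
      Hp η2 n4 (I.loc2 F Bn Nw n3 R0 nN s s') (I.ts2 R0 nN s s' ts) nu2 t w := by
  cases t with
  | zero => rfl
  | succ t =>
    by_cases hr : (I.loc2 F Bn Nw n3 R0 nN s s' (t + 1) w).rs
    · have a1 : Hp η2 n4 (I.loc2 F Bn Nw n3 R0 nN s s') ts nu2 (t + 1) w = [] :=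
        hpre_succ_rs (x := fun t => I.loc2 F Bn Nw n3 R0 nN s s' t w) hr
      have a2 : Hp η2 n4 (I.loc2 F Bn Nw n3 R0 nN s s') (I.ts2 R0 nN s s' ts) nu2 (t + 1) w = [] :=
        hpre_succ_rs (x := fun t => I.loc2 F Bn Nw n3 R0 nN s s' t w) hr
      rw [a1, a2]
    · have a1 : Hp η2 n4 (I.loc2 F Bn Nw n3 R0 nN s s') ts nu2 (t + 1) w =
          Hi η2 n4 (I.loc2 F Bn Nw n3 R0 nN s s') ts nu2 t w :=
        hpre_succ (x := fun t => I.loc2 F Bn Nw n3 R0 nN s s' t w) hr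
      have a2 : Hp η2 n4 (I.loc2 F Bn Nw n3 R0 nN s s') (I.ts2 R0 nN s s' ts) nu2 (t + 1) w =
          Hi η2 n4 (I.loc2 F Bn Nw n3 R0 nN s s') (I.ts2 R0 nN s s' ts) nu2 t w :=
        hpre_succ (x := fun t => I.loc2 F Bn Nw n3 R0 nN s s' t w) hr
      rw [a1, a2, I.Hi_ts2 hη]

/-- **number of updates** -/
theorem Up2_le (hη : 0 < η2) (hF : ∀ i t g y d, |F s s' i t g y d| ≤ 1)
    (htK : ∀ t, Fac (T.KK2 t) (ts t)) (hbd : ∀ t w, ∀ p ∈ ts t w, ∀ d, |p.2 d| ≤ 1) (n : ℕ) :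
    ∑ t ∈ range (n + 1), T.P.E (Up η2 n4 (I.loc2 F Bn Nw n3 R0 nN s s') ts nu2 t) ≤
      6 / η2 ^ 2 * T.P.Pr (fun w => ∃ t ≤ n, I.act2 R0 nN w t s s') := by
  have hup : ∀ t, Up η2 n4 (I.loc2 F Bn Nw n3 R0 nN s s') ts nu2 t =
      Up η2 n4 (I.loc2 F Bn Nw n3 R0 nN s s') (I.ts2 R0 nN s s' ts) nu2 t := by
    intro t
    funext w
    show ((Hi η2 n4 (I.loc2 F Bn Nw n3 R0 nN s s') ts nu2 t w).length : ℝ) -
      ((Hp η2 n4 (I.loc2 F Bn Nw n3 R0 nN s s') ts nu2 t w).length : ℝ) =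
      ((Hi η2 n4 (I.loc2 F Bn Nw n3 R0 nN s s') (I.ts2 R0 nN s s' ts) nu2 t w).length : ℝ) -
      ((Hp η2 n4 (I.loc2 F Bn Nw n3 R0 nN s s') (I.ts2 R0 nN s s' ts) nu2 t w).length : ℝ)
    rw [I.Hi_ts2 hη, I.Hp_ts2 hη]
  have htK' : ∀ t, Fac (T.KK2 t) (I.ts2 R0 nN s s' ts t) := fun t v w h => by
    have h1 := htK t v w h
    rw [K2_iff] at h
    unfold ts2
    have e := I.act2_congr (R0 := R0) (nN := nN) (s := s) (s' := s') h.1 h.2.1 h.2.2.1 h.2.2.2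
    by_cases h2 : I.act2 R0 nN w t s s'
    · rw [if_pos h2, if_pos (e.2 h2), h1]
    · rw [if_neg h2, if_neg fun h3 => h2 (e.1 h3)]
  have hbd' : ∀ t w, ∀ p ∈ I.ts2 R0 nN s s' ts t w, ∀ d, |p.2 d| ≤ 1 := by
    intro t w p hp
    unfold ts2 at hp
    split_ifs at hp with h
    · exact hbd t w p hp
    · simp at hp
  have hR := I.runHyp2 (n4 := n4) (R0 := R0) (nN := nN) (Bn := Bn) (Nw := Nw) (n3 := n3) hη hF htK' hbd'
  set β : ℕ → Om → Prop := fun t w => ∃ j ≤ t, I.act2 R0 nN w j s s' with hβ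
  have h1 := hR.updates_born (β := β)
    (fun t v w h => by
      rw [K2_iff] at h
      refine exists_congr fun j => and_congr_right fun hj => ?_
      exact I.act2_congr h.1 h.2.1 (nest_le T.nb hj h.2.2.1) (T.gm_anc hj h.2.2.2))
    (fun t w ⟨j, hj, h⟩ => ⟨j, hj.trans (Nat.le_succ t), h⟩)
    (fun t w h => I.ls2_nil F Bn Nw n3 fun h1 => h ⟨t, le_rfl, h1⟩)
    (fun t w h => by
      unfold ts2
      rw [if_neg fun h1 => h ⟨t, le_rfl, h1⟩]) n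
  have h2 : ∑ t ∈ range n, T.P.Pr (fun w => β t w ∧ (I.loc2 F Bn Nw n3 R0 nN s s' (t + 1) w).rs) ≤
      2 * T.P.Pr (β n) := by
    unfold FP.Pr
    rw [← T.P.E_sum, ← T.P.E_smul]
    refine T.P.E_mono fun w _ => ?_
    refine (Finset.sum_le_sum fun t _ => ind_mono fun h => h.2).trans ?_
    exact I.rs2_le w n
  have h3 : 0 ≤ 2 / η2 ^ 2 := by positivity
  rw [Finset.sum_congr rfl fun t _ => by rw [hup t]]
  refine h1.trans ?_
  have h4 : 2 / η2 ^ 2 * (T.P.Pr (β n) + ∑ t ∈ range n, T.P.Pr (fun w => β t w ∧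
      (I.loc2 F Bn Nw n3 R0 nN s s' (t + 1) w).rs)) ≤ 2 / η2 ^ 2 * (T.P.Pr (β n) + 2 * T.P.Pr (β n)) :=
    mul_le_mul_of_nonneg_left (by linarith) h3
  refine h4.trans (le_of_eq ?_)
  show 2 / η2 ^ 2 * (T.P.Pr (β n) + 2 * T.P.Pr (β n)) = 6 / η2 ^ 2 * T.P.Pr (β n)
  ring

/-- one step of the error process -/
theorem Z2_step (t : ℕ) (w : Om) :
    ind (I.Z2 F Bn Nw n3 η2 n4 R0 nN ts s s' (t + 1) w ≠ I.Z2 F Bn Nw n3 η2 n4 R0 nN ts s s' t w) ≤
      ind (I.loc2 F Bn Nw n3 R0 nN s s' (t + 1) w).rs + Up η2 n4 (I.loc2 F Bn Nw n3 R0 nN s s') ts nu2 (t + 1) w := by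
  have hup : 0 ≤ Up η2 n4 (I.loc2 F Bn Nw n3 R0 nN s s') ts nu2 (t + 1) w :=
    upd_nonneg (x := fun t => I.loc2 F Bn Nw n3 R0 nN s s' t w) (ts := fun t => ts t w) (ν := fun t => nu2 t w) (t + 1)
  by_cases hr : (I.loc2 F Bn Nw n3 R0 nN s s' (t + 1) w).rs
  · rw [ind_of hr]
    linarith [ind_le_one (I.Z2 F Bn Nw n3 η2 n4 R0 nN ts s s' (t + 1) w ≠ I.Z2 F Bn Nw n3 η2 n4 R0 nN ts s s' t w)]
  · rw [ind_not hr, zero_add]
    have hpre : Hp η2 n4 (I.loc2 F Bn Nw n3 R0 nN s s') ts nu2 (t + 1) w =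
        Hi η2 n4 (I.loc2 F Bn Nw n3 R0 nN s s') ts nu2 t w :=
      hpre_succ (x := fun t => I.loc2 F Bn Nw n3 R0 nN s s' t w) hr
    have hu : (I.loc2 F Bn Nw n3 R0 nN s s' (t + 1) w).u = (I.loc2 F Bn Nw n3 R0 nN s s' t w).u := by
      have h1 : I.act2 R0 nN w (t + 1) s s' ↔ I.act2 R0 nN w t s s' := by
        by_contra h1
        exact hr ⟨t, rfl, h1⟩
      show (fun d => ind (I.act2 R0 nN w (t + 1) s s') * (I.R.v s (T.a w) d * I.R.v s' (T.a w) d)) =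
        fun d => ind (I.act2 R0 nN w t s s') * (I.R.v s (T.a w) d * I.R.v s' (T.a w) d)
      rw [show I.act2 R0 nN w (t + 1) s s' = I.act2 R0 nN w t s s' from propext h1]
    have hsuf : Hp η2 n4 (I.loc2 F Bn Nw n3 R0 nN s s') ts nu2 (t + 1) w <:+
        Hi η2 n4 (I.loc2 F Bn Nw n3 R0 nN s s') ts nu2 (t + 1) w :=
      hpre_suffix (x := fun t => I.loc2 F Bn Nw n3 R0 nN s s' t w) (t + 1)
    by_cases hlen : (Hp η2 n4 (I.loc2 F Bn Nw n3 R0 nN s s') ts nu2 (t + 1) w).length =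
        (Hi η2 n4 (I.loc2 F Bn Nw n3 R0 nN s s') ts nu2 (t + 1) w).length
    · have heq := hsuf.eq_of_length hlen
      have hZ : I.Z2 F Bn Nw n3 η2 n4 R0 nN ts s s' (t + 1) w = I.Z2 F Bn Nw n3 η2 n4 R0 nN ts s s' t w := by
        funext d
        unfold Z2
        rw [← heq, hpre, hu]
        rfl
      rw [ind_not fun h => h hZ]
      exact hup
    · have h3 := hsuf.length_le
      have h4 : (Hp η2 n4 (I.loc2 F Bn Nw n3 R0 nN s s') ts nu2 (t + 1) w).length + 1 ≤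
        (Hi η2 n4 (I.loc2 F Bn Nw n3 R0 nN s s') ts nu2 (t + 1) w).length := by omega
      have h5 : (1 : ℝ) ≤ Up η2 n4 (I.loc2 F Bn Nw n3 R0 nN s s') ts nu2 (t + 1) w := by
        show (1 : ℝ) ≤ ((Hi η2 n4 (I.loc2 F Bn Nw n3 R0 nN s s') ts nu2 (t + 1) w).length : ℝ) -
          ((Hp η2 n4 (I.loc2 F Bn Nw n3 R0 nN s s') ts nu2 (t + 1) w).length : ℝ)
        have : (((Hp η2 n4 (I.loc2 F Bn Nw n3 R0 nN s s') ts nu2 (t + 1) w).length : ℝ)) + 1 ≤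
          ((Hi η2 n4 (I.loc2 F Bn Nw n3 R0 nN s s') ts nu2 (t + 1) w).length : ℝ) := by exact_mod_cast h4
        linarith
      exact (ind_le_one _).trans h5

/-- **number of moves** -/
theorem Z2_moves (hη : 0 < η2) (hF : ∀ i t g y d, |F s s' i t g y d| ≤ 1)
    (hts : I.Tests2 F Bn Nw n3 η2 n4 R0 nN ε3 s s' ts) :
    ∑ t ∈ range T.n, T.P.Pr (fun w => I.Z2 F Bn Nw n3 η2 n4 R0 nN ts s s' (t + 1) w ≠
      I.Z2 F Bn Nw n3 η2 n4 R0 nN ts s s' t w) ≤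
      (2 + 6 / η2 ^ 2) * T.P.Pr (fun w => ∃ t ≤ T.n, I.act2 R0 nN w t s s') := by
  have h1 := I.Up2_le (n4 := n4) (R0 := R0) (nN := nN) (Bn := Bn) (Nw := Nw) (n3 := n3) hη hF
    (fun t => (QK2 t).trans (hts.tsQ t)) hts.bd T.n
  have h2 : ∑ t ∈ range T.n, T.P.E (fun w => ind (I.loc2 F Bn Nw n3 R0 nN s s' (t + 1) w).rs) ≤
      2 * T.P.Pr (fun w => ∃ t ≤ T.n, I.act2 R0 nN w t s s') := by
    unfold FP.Pr
    rw [← T.P.E_sum, ← T.P.E_smul]
    exact T.P.E_mono fun w _ => I.rs2_le w T.n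
  have h3 : ∑ t ∈ range T.n, T.P.E (Up η2 n4 (I.loc2 F Bn Nw n3 R0 nN s s') ts nu2 (t + 1)) ≤
      ∑ t ∈ range (T.n + 1), T.P.E (Up η2 n4 (I.loc2 F Bn Nw n3 R0 nN s s') ts nu2 t) := by
    rw [Finset.sum_range_succ']
    have : 0 ≤ T.P.E (Up η2 n4 (I.loc2 F Bn Nw n3 R0 nN s s') ts nu2 0) := T.P.E_nonneg fun w _ =>
      upd_nonneg (x := fun t => I.loc2 F Bn Nw n3 R0 nN s s' t w) (ts := fun t => ts t w) (ν := fun t => nu2 t w) 0
    linarith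
  have h4 : ∑ t ∈ range T.n, T.P.Pr (fun w => I.Z2 F Bn Nw n3 η2 n4 R0 nN ts s s' (t + 1) w ≠
      I.Z2 F Bn Nw n3 η2 n4 R0 nN ts s s' t w) ≤ ∑ t ∈ range T.n,
        (T.P.E (fun w => ind (I.loc2 F Bn Nw n3 R0 nN s s' (t + 1) w).rs) +
          T.P.E (Up η2 n4 (I.loc2 F Bn Nw n3 R0 nN s s') ts nu2 (t + 1))) := by
    refine Finset.sum_le_sum fun t _ => ?_
    rw [← T.P.E_add]
    exact T.P.E_mono fun w _ => I.Z2_step t w
  rw [Finset.sum_add_distrib] at h4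
  rw [add_mul]
  linarith

/-- **THE ERROR BOUND OF STAGE 2** for the system `(s, s', i)` -/
theorem err2 (hη : 0 < η2) (hts : I.Tests2 F Bn Nw n3 η2 n4 R0 nN ε3 s s' ts) {i : ℕ} (hi : i < Nw)
    {η' ε' δ : ℝ} (hη' : 0 < η') {U : ℕ → Γ → B × C → V → ℝ}
    (hN : NOut T.P (fun w => (T.b w, T.c w)) T.n T.gm (fun t (y : B × C) => (T.cb t y.1, T.cc t y.2)) T.ρ
      T.par U (F s s' i) (Bn s s' i) η' ε' n3 δ)
    (hF : ∀ i t g y d, |F s s' i t g y d| ≤ 1)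
    (hU1 : ∀ t g y d, |U t g y d| ≤ 1) (hU0 : ∀ g y d, U 0 g y d = 0) {Kc : ℝ}
    (hLM : LM T.P (fun w => (T.xi w, T.a w)) (fun w => (T.b w, T.c w)) T.n (fun t w => (T.cb t (T.b w), T.gm t w))
      (fun t w => T.gm t w) (fun t x => T.ca t x.2) (fun t y => (T.cb t y.1, T.cc t y.2))
      (fun t g => T.ρ t g.2) T.ρ T.J T.near Kc)
    {ε mm : ℝ} (hX : 2 * η2 / (1 + n4 * η2) ≤ 1 / 4) (hηη : η' ≤ 4 * η2 / (1 + n4 * η2))
    (hε : 0 < ε) (hε1 : ε ≤ 1) (h1 : 2 * ε' ≤ ε) (h2 : 2 * ε3 ≤ ε) (hnear : T.near ≤ 2 * η2 / (1 + n4 * η2) / 4)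
    (hm1 : moves T.P (fun w => (T.b w, T.c w)) T.n T.gm U * (1 + 32 / η' ^ 2) ≤ mm)
    (hm2 : (2 + 6 / η2 ^ 2) * T.P.Pr (fun w => ∃ t ≤ T.n, I.act2 R0 nN w t s s') ≤ mm) :
    T.P.Pr (fun w => ∃ t ≤ T.n, ¬ lost T.par (fun t (y : B × C) => (T.cb t y.1, T.cc t y.2)) (Bn s s' i) n3 t
      (T.gm t w) (T.b w, T.c w) ∧ 1601 * η2 + (1 + n4 * η2) * T.near <
        |iw (T.J t w) (U t (T.gm t w) (T.b w, T.c w)) (I.Z2 F Bn Nw n3 η2 n4 R0 nN ts s s' t w)|) ≤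
      10 ^ 8 * ε * mm / (2 * η2 / (1 + n4 * η2)) ^ 4 * (1 + Real.log (Kc / ε)) := by
  have hfac : ∀ t, Fac (fun w => ((T.xi w, T.a w), (T.cb t (T.b w), T.gm t w)))
      (I.Z2 F Bn Nw n3 η2 n4 R0 nN ts s s' t) := fun t => I.Z2_fac hη hF hts t
  have hX1 : (1 : ℝ) ≤ 1 + n4 * η2 := by
    have : (0 : ℝ) ≤ n4 * η2 := by positivity
    linarith
  exact gen_err (P := T.P) (X := fun w => (T.xi w, T.a w)) (Y := fun w => (T.b w, T.c w)) (n := T.n)
    (nx := fun t w => (T.cb t (T.b w), T.gm t w)) (ny := fun t w => T.gm t w) (cx := fun t x => T.ca t x.2)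
    (cy := fun t y => (T.cb t y.1, T.cc t y.2)) (ρx := fun t g => T.ρ t g.2) (ρy := T.ρ) (J := T.J)
    (near := T.near) (Kc := Kc)
    T.ppos T.free_xb hX1 hN T.par_gm hU1 hU0 hLM T.Jnear (I.Z2 F Bn Nw n3 η2 n4 R0 nN ts s s') hfac
    (I.Z2_bd hη hF hts) (fun w d => I.Z2_nil hη I.act2_zero d) hη
    (fun t _ w g hg => I.Z2_P2 hts t w g hg) (fun t _ w hl => I.Z2_P1 hη hi t w hl)
    hX hη' hηη hε hε1 h1 h2 hnear hm1 ((I.Z2_moves hη hF hts).trans hm2)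

end Inp

end

end Pool.Agent.M3.S2
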