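import Pool.Agent.M3.S2.Concl
import Pool.Agent.M3.S2.Stage2
import Pool.Agent.M3.S2.Fin2

/-!
# M3/S2/Concl2 : the conclusion of section 2, with the processes of stage 2 (helper1)

`hist_len_upd` : the length of the history is at most the number of updates; `cap1`, `cap2` : the runs are not
capped (Markov); `H2`, `concl2` : `concl` for the runs of stage 2, the events (2), (8), (9), (10) estimated.
-/

set_option autoImplicit false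

namespace Pool.Agent.M3.S2

open Finset Pool.Agent.PWZ Pool.Agent.M3.TS

/-- the length of the history is at most the number of updates -/
theorem hist_len_upd {S V : Type*} {η : ℝ} {n2 : ℕ} {x : ℕ → Loc S V} {ts : ℕ → List (S × (V → ℝ))}
    {ν : ℕ → S → Prop} (n : ℕ) :
    ((hist η n2 x ts ν n).length : ℝ) ≤ ∑ t ∈ range (n + 1), upd η n2 x ts ν t := by
  induction n with
  | zero =>
    rw [Finset.sum_range_one]
    unfold upd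
    have : (hpre η n2 x ts ν 0).length = 0 := rfl
    rw [this]
    simp
  | succ n ih =>
    rw [Finset.sum_range_succ]
    have h1 : ((hpre η n2 x ts ν (n + 1)).length : ℝ) ≤ ((hist η n2 x ts ν n).length : ℝ) := by
      by_cases h : (x (n + 1)).rs
      · rw [hpre_succ_rs h]
        simp
      · rw [hpre_succ h]
    have h2 : upd η n2 x ts ν (n + 1) = ((hist η n2 x ts ν (n + 1)).length : ℝ) -
      ((hpre η n2 x ts ν (n + 1)).length : ℝ) := rfl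
    rw [h2]
    linarith

/-- Markov: a run is not capped -/
theorem cap_markov {Om S V : Type*} [Fintype Om] (P : FP Om) {η : ℝ} {n2 : ℕ} {x : ℕ → Om → Loc S V}
    {ts : ℕ → Om → List (S × (V → ℝ))} {ν : ℕ → Om → S → Prop} (n : ℕ) {c : ℝ}
    (h : ∑ t ∈ range (n + 1), P.E (Up η n2 x ts ν t) ≤ c) :
    P.Pr (fun w => ∃ t ≤ n, n2 < (Hi η n2 x ts ν t w).length) ≤ c / (n2 + 1) := by
  have hn : (0 : ℝ) < n2 + 1 := by positivity
  rw [le_div_iff₀ hn]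
  have hup : ∀ t w, 0 ≤ Up η n2 x ts ν t w := fun t w =>
    upd_nonneg (x := fun t => x t w) (ts := fun t => ts t w) (ν := fun t => ν t w) t
  refine le_trans ?_ h
  rw [← P.E_sum]
  unfold FP.Pr
  rw [mul_comm, ← P.E_smul]
  refine P.E_mono fun w _ => ?_
  by_cases hb : ∃ t ≤ n, n2 < (Hi η n2 x ts ν t w).length
  · rw [ind_of hb, mul_one]
    obtain ⟨t, ht, hl⟩ := hb
    have h1 : ((Hi η n2 x ts ν t w).length : ℝ) ≤ ∑ j ∈ range (t + 1), Up η n2 x ts ν j w :=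
      hist_len_upd (x := fun t => x t w) (ts := fun t => ts t w) (ν := fun t => ν t w) t
    have h2 : ∑ j ∈ range (t + 1), Up η n2 x ts ν j w ≤ ∑ j ∈ range (n + 1), Up η n2 x ts ν j w :=
      Finset.sum_le_sum_of_subset_of_nonneg (Finset.range_subset_range.2 (by omega)) fun j _ _ => hup j w
    have h3 : (n2 : ℝ) + 1 ≤ ((Hi η n2 x ts ν t w).length : ℝ) := by exact_mod_cast hl
    linarith
  · rw [ind_not hb, mul_zero]
    exact Finset.sum_nonneg fun t _ => hup t w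

noncomputable section

variable {Om A B C V Γ κ S : Type} [Fintype Om] [Fintype A] [Fintype B] [Fintype C] [Fintype V]
  [Fintype S] [DecidableEq S] {m : ℕ} {T : Tri Om (S → Fin m) A B C V Γ κ}

namespace Inp

variable {I : Inp T S} {F : S → ℕ → C × Γ → B → V → ℝ} {Bn : S → ℕ → C × Γ → κ → List (Finset B)} {n1 : ℝ}
  {η1 : ℝ} {n2 : ℕ} {R0 ε2 : ℝ} {ts : ℕ → Om → List (S × (V → ℝ))}

private theorem N1_fac_cc (R0 : ℝ) (t : ℕ) : Fac (T.KK1 t) (fun w => I.N1 R0 w t) := fun v w h => by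
  rw [K1_iff] at h
  funext r
  exact propext (I.N1_congr (congrFun h.1 r) h.2.1 (by rw [h.2.2.1]) h.2.2.2)

/-- **the run of stage 1 is not capped** -/
theorem cap1 (hη : 0 < η1) (hF : ∀ s t g b d, |F s t g b d| ≤ 1) (hts : I.Tests1 F Bn n1 η1 n2 R0 ε2 ts) :
    T.P.Pr (fun w => ∃ t ≤ T.n,
      n2 < (Hi η1 n2 (I.loc1 F Bn n1) ts (fun t w => I.N1 R0 w t) t w).length) ≤
      2 / η1 ^ 2 * (1 + I.p0) / (n2 + 1) := by
  have hR := I.runHyp1 hη hF hts (ν := fun t w => I.N1 R0 w t) (fun t => N1_fac_cc R0 t)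
  refine cap_markov T.P T.n (le_trans (hR.updates0 T.n) ?_)
  refine mul_le_mul_of_nonneg_left ?_ (by positivity)
  refine add_le_add le_rfl ?_
  have h1 : ∀ w, ∑ t ∈ range T.n, ind (I.loc1 F Bn n1 (t + 1) w).rs ≤ I.p0 := by
    intro w
    refine le_trans (le_of_eq ?_) (I.mv2 w)
    exact Finset.sum_congr rfl fun t _ => I.ind_rs t w
  calc ∑ t ∈ range T.n, T.P.Pr (fun w => (I.loc1 F Bn n1 (t + 1) w).rs) =
      T.P.E (fun w => ∑ t ∈ range T.n, ind (I.loc1 F Bn n1 (t + 1) w).rs) := (T.P.E_sum _ _).symm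
    _ ≤ I.p0 := T.P.E_le_const fun w _ => h1 w

variable {F2 : S → S → ℕ → ℕ → Γ → B × C → V → ℝ} {Bn2 : S → S → ℕ → ℕ → Γ → κ × κ → List (Finset (B × C))}
  {Nw : ℕ} {n3 η2 : ℝ} {n4 : ℕ} {nN ε3 : ℝ} {ts2' : S → S → ℕ → Om → List (Unit × (V → ℝ))}

/-- **the runs of stage 2 are not capped** -/
theorem cap2 (hη : 0 < η2) (hn : 0 ≤ nN) (hF : ∀ s s' i t g y d, |F2 s s' i t g y d| ≤ 1)
    (hts : ∀ s s', I.Tests2 F2 Bn2 Nw n3 η2 n4 R0 nN ε3 s s' (ts2' s s')) :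
    T.P.Pr (fun w => ∃ s s', ∃ t ≤ T.n,
      n4 < (Hi η2 n4 (I.loc2 F2 Bn2 Nw n3 R0 nN s s') (ts2' s s') nu2 t w).length) ≤
      6 / η2 ^ 2 * (nN * I.Ms) / (n4 + 1) := by
  refine (fin2_ex T.P (fun s w => ∃ s', ∃ t ≤ T.n,
      n4 < (Hi η2 n4 (I.loc2 F2 Bn2 Nw n3 R0 nN s s') (ts2' s s') nu2 t w).length)).trans ?_
  have h1 : ∀ s, T.P.Pr (fun w => ∃ s', ∃ t ≤ T.n,
      n4 < (Hi η2 n4 (I.loc2 F2 Bn2 Nw n3 R0 nN s s') (ts2' s s') nu2 t w).length) ≤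
      ∑ s', 6 / η2 ^ 2 * T.P.Pr (I.ev2 R0 nN s s') / (n4 + 1) := by
    intro s
    refine (fin2_ex T.P (fun s' w => ∃ t ≤ T.n,
      n4 < (Hi η2 n4 (I.loc2 F2 Bn2 Nw n3 R0 nN s s') (ts2' s s') nu2 t w).length)).trans ?_
    refine Finset.sum_le_sum fun s' _ => ?_
    exact cap_markov T.P T.n (I.Up2_le hη (hF s s') (fun t => (QK2 t).trans ((hts s s').tsQ t)) (hts s s').bd T.n)
  refine (Finset.sum_le_sum fun s _ => h1 s).trans ?_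
  have h2 := I.mean_ev2 (R0 := R0) hn
  have h3 : ∑ s, ∑ s', 6 / η2 ^ 2 * T.P.Pr (I.ev2 R0 nN s s') / (n4 + 1) =
      6 / η2 ^ 2 * (∑ s, ∑ s', T.P.Pr (I.ev2 R0 nN s s')) / (n4 + 1) := by
    simp only [← Finset.sum_div, ← Finset.mul_sum]
  rw [h3]
  refine div_le_div_of_nonneg_right (mul_le_mul_of_nonneg_left h2 (by positivity)) (by positivity)

variable (I) in
/-- the history of the run of the pair `(s, s')` -/
def H2 (F2 : S → S → ℕ → ℕ → Γ → B × C → V → ℝ) (Bn2 : S → S → ℕ → ℕ → Γ → κ × κ → List (Finset (B × C)))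
    (Nw : ℕ) (n3 η2 : ℝ) (n4 : ℕ) (R0 nN : ℝ) (ts2' : S → S → ℕ → Om → List (Unit × (V → ℝ))) (s s' : S) (t : ℕ)
    (w : Om) : List (V → ℝ) :=
  (Hi η2 n4 (I.loc2 F2 Bn2 Nw n3 R0 nN s s') (ts2' s s') nu2 t w).map Prod.snd

theorem Z2_eq (s s' : S) (t : ℕ) (w : Om) (h : I.act2 R0 nN w t s s')
    (hl : (I.H2 F2 Bn2 Nw n3 η2 n4 R0 nN ts2' s s' t w).length ≤ n4) (d : V) :
    I.Z2 F2 Bn2 Nw n3 η2 n4 R0 nN (ts2' s s') s s' t w d = I.R.v s (T.a w) d * I.R.v s' (T.a w) d -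
      η2 * ((I.H2 F2 Bn2 Nw n3 η2 n4 R0 nN ts2' s s' t w).map fun h => h d).sum := by
  unfold H2 at hl ⊢
  rw [List.length_map] at hl
  unfold Z2 Er
  rw [if_pos hl, List.map_map]
  show ind (I.act2 R0 nN w t s s') * (I.R.v s (T.a w) d * I.R.v s' (T.a w) d) - _ = _
  rw [ind_of h, one_mul]
  congr 2
  congr 1
  refine List.map_congr_left fun p _ => ?_
  show p.2 d * (1 : ℝ) = p.2 d
  exact mul_one _

/-- the label `F2` of the pair `(s, s')` -/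
def F2l (I : Inp T S) (F2 : S → S → ℕ → ℕ → Γ → B × C → V → ℝ)
    (Bn2 : S → S → ℕ → ℕ → Γ → κ × κ → List (Finset (B × C)))
    (Nw : ℕ) (n3 η2 : ℝ) (n4 : ℕ) (R0 nN : ℝ) (ts2' : S → S → ℕ → Om → List (Unit × (V → ℝ))) (s s' : S) (t : ℕ)
    (w : Om) (d : V) : ℝ := η2 * ((I.H2 F2 Bn2 Nw n3 η2 n4 R0 nN ts2' s s' t w).map fun h => h d).sum

theorem F2l_bd (hη : 0 < η2) (hF : ∀ s s' i t g y d, |F2 s s' i t g y d| ≤ 1)
    (hts : ∀ s s', I.Tests2 F2 Bn2 Nw n3 η2 n4 R0 nN ε3 s s' (ts2' s s')) (s s' : S) (t : ℕ) (w : Om) (d : V) :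
    |I.F2l F2 Bn2 Nw n3 η2 n4 R0 nN ts2' s s' t w d| ≤ η2 * (n4 + 1) := by
  have hR := I.runHyp2 (n4 := n4) (R0 := R0) (nN := nN) (Bn := Bn2) (Nw := Nw) (n3 := n3) hη (hF s s')
    (fun t => (QK2 t).trans ((hts s s').tsQ t)) (hts s s').bd
  unfold F2l H2
  rw [abs_mul, abs_of_pos hη]
  refine mul_le_mul_of_nonneg_left ?_ hη.le
  have h1 : (Hi η2 n4 (I.loc2 F2 Bn2 Nw n3 R0 nN s s') (ts2' s s') nu2 t w).length ≤ n4 + 1 :=
    hist_len (x := fun t => I.loc2 F2 Bn2 Nw n3 R0 nN s s' t w) (ts := fun t => ts2' s s' t w)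
      (ν := fun t => nu2 t w) hη (fun t => T.isMean t w) t
  have h2 := list_sum_abs ((Hi η2 n4 (I.loc2 F2 Bn2 Nw n3 R0 nN s s') (ts2' s s') nu2 t w).map Prod.snd)
    (fun h => h d) (e := 1) (by
      intro h hh
      obtain ⟨p, hp, rfl⟩ := List.mem_map.1 hh
      exact hR.Hi_bd t w p hp d)
  rw [mul_one, List.length_map] at h2
  refine h2.trans ?_
  exact_mod_cast h1

/-- **CONCLUSION, with stage 2**: the events (1), (3)-(7) are hypotheses, (2), (8)-(10) are estimated -/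
theorem concl2 {Mc E1 : ℝ} (hη : 0 < η1) (hE1 : 0 ≤ E1) (hη2 : 0 < η2) (hn : 0 ≤ nN)
    (hF : ∀ s t g b d, |F s t g b d| ≤ 1) (hts : I.Tests1 F Bn n1 η1 n2 R0 ε2 ts)
    (hts2 : ∀ s s', I.Tests2 F2 Bn2 Nw n3 η2 n4 R0 nN ε3 s s' (ts2' s s'))
    {q1 q3 q4 q5 q6 q7 : ℝ}
    (h1 : T.P.Pr (fun w => ∃ t ≤ T.n, ∃ s, I.live s t w ∧ Hi η1 n2 (I.loc1 F Bn n1) ts (I.nu1 R0 s) t w ≠
      Hi η1 n2 (I.loc1 F Bn n1) ts (fun t w => I.N1 R0 w t) t w) ≤ q1)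
    (h3 : T.P.Pr (fun w => ∃ s, ∃ t ≤ T.n, I.act w t s ∧
      lost (fun t (g : C × Γ) => (g.1, T.par t g.2)) T.cb (Bn s) n1 t (T.c w, T.gm t w) (T.b w)) ≤ q3)
    (h4 : T.P.Pr (fun w => ∃ s, ∃ t ≤ T.n, I.act w t s ∧
      ¬ lost (fun t (g : C × Γ) => (g.1, T.par t g.2)) T.cb (Bn s) n1 t (T.c w, T.gm t w) (T.b w) ∧
      E1 < |iw (T.J t w) (I.k1 s t (T.c w, T.gm t w) (T.b w)) (I.Z1 F Bn n1 η1 n2 R0 ts s t w)|) ≤ q4)
    (h5 : T.P.Pr (fun w => nN < ∑ r, ind (I.NB R0 w T.n r)) ≤ q5)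
    (h6 : T.P.Pr (fun w => ¬ I.capc (I.alT F Bn n1 ts) Mc T.n (T.gm T.n w) (T.b w) (T.c w)) ≤ q6)
    (h7 : T.P.Pr (fun w => ∃ s', Nw < (T.hl (I.alT F Bn n1 ts) s' T.n (T.gm T.n w) (T.b w) (T.c w)).length) ≤ q7)
    -- stage 2
    {η' ε' δ : ℝ} (hη' : 0 < η') (hδ : 0 ≤ δ)
    (hN : ∀ s s' i, NOut T.P (fun w => (T.b w, T.c w)) T.n T.gm (fun t (y : B × C) => (T.cb t y.1, T.cc t y.2))
      T.ρ T.par (I.k2 (I.alT F Bn n1 ts) Mc s s' i) (F2 s s' i) (Bn2 s s' i) η' ε' n3 δ)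
    (hF2 : ∀ s s' i t g y d, |F2 s s' i t g y d| ≤ 1)
    (hk1 : ∀ s s' i t g y d, |I.k2 (I.alT F Bn n1 ts) Mc s s' i t g y d| ≤ 1) {Kc : ℝ}
    (hLM : LM T.P (fun w => (T.xi w, T.a w)) (fun w => (T.b w, T.c w)) T.n (fun t w => (T.cb t (T.b w), T.gm t w))
      (fun t w => T.gm t w) (fun t x => T.ca t x.2) (fun t y => (T.cb t y.1, T.cc t y.2)) (fun t g => T.ρ t g.2) T.ρ
      T.J T.near Kc)
    {ε : ℝ} (hX : 2 * η2 / (1 + n4 * η2) ≤ 1 / 4) (hηη : η' ≤ 4 * η2 / (1 + n4 * η2))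
    (hε : 0 < ε) (hε1 : ε ≤ 1) (hKc : 1 ≤ Kc) (h1ε : 2 * ε' ≤ ε) (h2ε : 2 * ε3 ≤ ε)
    (hnear : T.near ≤ 2 * η2 / (1 + n4 * η2) / 4) :
    T.P.Pr (fun w => ∃ t ≤ T.n, I.Λ * (E1 + η1 * n2 * (1601 * η2 + (1 + n4 * η2) * T.near)) < |I.TT t w - I.XX η1
      (I.F2l F2 Bn2 Nw n3 η2 n4 R0 nN ts2')
      (Hi η1 n2 (I.loc1 F Bn n1) ts (fun t w => I.N1 R0 w t)) t w|) ≤
      q1 + 2 / η1 ^ 2 * (1 + I.p0) / (n2 + 1) + q3 + q4 + q5 + q6 + q7 + δ * (Nw * Mc ^ 2) +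
      10 ^ 8 * ε / (2 * η2 / (1 + n4 * η2)) ^ 4 * (1 + Real.log (Kc / ε)) *
        (Nw * ((I.p0 + 2) * Mc ^ 2 * (1 + 32 / η' ^ 2) + (2 + 6 / η2 ^ 2) * (nN * I.Ms))) +
      6 / η2 ^ 2 * (nN * I.Ms) / (n4 + 1) := by
  have hnear0 := T.near0
  have hE2 : 0 ≤ 1601 * η2 + (1 + n4 * η2) * T.near := by positivity
  have hlog : 0 ≤ Real.log (Kc / ε) := Real.log_nonneg (by rw [le_div_iff₀ hε]; linarith)
  refine concl (I := I) (H2 := I.H2 F2 Bn2 Nw n3 η2 n4 R0 nN ts2')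
    (Z2 := fun s s' => I.Z2 F2 Bn2 Nw n3 η2 n4 R0 nN (ts2' s s') s s')
    (L2 := fun s s' i t w => lost T.par (fun t (y : B × C) => (T.cb t y.1, T.cc t y.2))
      (Bn2 s s' i) n3 t (T.gm t w) (T.b w, T.c w)) hη hE1 hE2 hts (fun s s' t w h hl d => Z2_eq s s' t w h hl d)
    h1 (cap1 hη hF hts) h3 h4 h5 h6 h7 ?_ ?_ ?_
  · refine le_trans (T.P.Pr_mono ?_) (I.lost2 hN hδ Nw)
    rintro w _ ⟨s, s', i, hi, t, ht, _, hl⟩
    exact ⟨s, s', i, hi, t, ht, hl⟩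
  · have hD : 0 ≤ 10 ^ 8 * ε / (2 * η2 / (1 + n4 * η2)) ^ 4 * (1 + Real.log (Kc / ε)) := by positivity
    have hC2 : (0 : ℝ) ≤ 2 + 6 / η2 ^ 2 := by positivity
    refine I.fin2 (al := I.alT F Bn n1 ts) (Mc := Mc) (η' := η') (R0 := R0) hn hD hC2 Nw _ ?_
    intro s s' i hi mm hm1 hm2
    refine le_trans (T.P.Pr_mono ?_) (le_trans (I.err2 hη2 (hts2 s s') hi hη' (hN s s' i) (hF2 s s') (hk1 s s' i)
      ?_ hLM hX hηη hε hε1 h1ε h2ε hnear hm1 hm2) (le_of_eq ?_))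
    · rintro w _ ⟨t, ht, _, hl, hb⟩
      exact ⟨t, ht, hl, hb⟩
    · intro g y d
      exact I.k2_zero _ _ _ _ _ _ _ _
    · ring
  · refine le_trans (T.P.Pr_mono ?_) (cap2 (I := I) hη2 hn hF2 hts2)
    rintro w _ ⟨s, s', t, ht, _, _, hl⟩
    refine ⟨s, s', t, ht, ?_⟩
    unfold H2 at hl
    rwa [List.length_map] at hl

end Inp

end

end Pool.Agent.M3.S2
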