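import Pool.Agent.M3.S2.Chg
import Pool.Agent.M3.S2.Two
import Pool.Agent.M3.S2.Concl2

/-!
# M3/S2/Chg2 : changes of the label of `(a, b)` and the capping event for the fine runs of stage 2 (helper21)

`T1` = coarse geometry (stage 1, activity), `T2` = fine geometry (names, public tests, runs of stage 2).
* `RunHyp.ups_on`, `RunHyp.cap_on2` : number of updates and the event that the run is capped, weighted by a function
  known at the birth;
* `Inp.H2g` : history of the run of the pair `(s, s')` in the fine geometry;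
* `Inp.chg_f2` : the label of `(a, b)` changes at most `Λ + (4 / η2 ^ 2 + 2) Λ nN` times in the mean;
* `Inp.cap_f2` : event (10) for live references, `<= 4 / η2 ^ 2 * (Λ nN) / (n4 + 1)`.
-/

set_option autoImplicit false
set_option linter.unusedSectionVars false

namespace Pool.Agent.M3

open Finset Pool.Agent.PWZ

section hist

variable {Om : Type*} [Fintype Om] {S V : Type*} {P : FP Om} {κ : ℕ → Type*} {K : ∀ t, Om → κ t}
  {η : ℝ} {n2 : ℕ} {x : ℕ → Om → Loc S V} {ts : ℕ → Om → List (S × (V → ℝ))} {ν : ℕ → Om → S → Prop}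
  {M : ℕ → Om → (V → ℝ) → ℝ} {δ : ℝ}

namespace RunHyp

/-- updates of a history which is empty, with target zero, unless `on`; `φ` is known at the time `r + 1`, and the run
is off up to the time `r` -/
theorem ups_on (h : RunHyp P K M δ η n2 x ts ν) {r k : ℕ} {φ q : Om → ℝ} (hφ0 : ∀ w, 0 ≤ φ w)
    (hφ : Fac (K (r + 1)) φ) {on : ℕ → Om → Prop}
    (hoff : ∀ t w, ¬ on t w → (x t w).ls = [] ∧ ts t w = []) (hu0 : ∀ t w, ¬ on t w → ∀ d, (x t w).u d = 0)
    (hr : ∀ t ≤ r, ∀ w, ¬ on t w) (hrs : ∀ t w, (x (t + 1) w).rs → ¬ (on (t + 1) w ↔ on t w))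
    (hq : ∀ w, ind (on (r + 1) w) + ∑ j ∈ range k, ind (¬ (on (r + 1 + j + 1) w ↔ on (r + 1 + j) w)) ≤ 2 * q w) :
    ∑ j ∈ range (k + 1), P.E (fun w => φ w * Up η n2 x ts ν (r + 1 + j) w) ≤
      4 / η ^ 2 * P.E (fun w => φ w * q w) := by
  have hη := h.eta
  set c : Om → ℝ := fun w => ind (on (r + 1) w) +
    ∑ j ∈ range k, ind (¬ (on (r + 1 + j + 1) w ↔ on (r + 1 + j) w)) with hc
  have h1 := h.updates (s := r + 1) hφ0 hφ k
  have hen0 : 0 ≤ P.E (fun w => φ w * en η n2 M x (Hi η n2 x ts ν) (r + 1 + k) w) :=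
    P.E_nonneg fun w _ => mul_nonneg (hφ0 w) (h.en_nonneg _ _ _)
  have hstart : ∀ w, en η n2 M x (Hp η n2 x ts ν) (r + 1) w ≤ ind (on (r + 1) w) := by
    intro w
    have hp : Hp η n2 x ts ν (r + 1) w = [] := by
      by_cases hrr : (x (r + 1) w).rs
      · exact hpre_succ_rs (x := fun t => x t w) hrr
      · have e3 : Hp η n2 x ts ν (r + 1) w = Hi η n2 x ts ν r w := hpre_succ (x := fun t => x t w) hrr
        rw [e3]
        exact Hi_off hoff fun s hs => hr s hs w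
    by_cases ho : on (r + 1) w
    · rw [ind_of ho]
      exact h.en_nil hp
    · rw [ind_not ho]
      unfold en
      rw [hp]
      have e : (fun d => Er η n2 (x (r + 1) w).u (x (r + 1) w).v [] d ^ 2) = fun _ => (0 : ℝ) := by
        funext d
        unfold Er
        simp only [List.length_nil, Nat.zero_le, if_true, List.map_nil, List.sum_nil, mul_zero, sub_zero]
        rw [hu0 _ _ ho d]
        norm_num
      rw [e, (h.Mean (r + 1) w).zero]
  have hA : P.E (fun w => φ w * en η n2 M x (Hp η n2 x ts ν) (r + 1) w) +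
      ∑ j ∈ range k, P.E (fun w => φ w * ind (x (r + 1 + j + 1) w).rs) ≤ P.E (fun w => φ w * c w) := by
    rw [← P.E_sum, ← P.E_add]
    refine P.E_mono fun w _ => ?_
    rw [← Finset.mul_sum, ← mul_add]
    refine mul_le_mul_of_nonneg_left ?_ (hφ0 w)
    simp only [hc]
    refine add_le_add (hstart w) (Finset.sum_le_sum fun j _ => ?_)
    exact ind_mono (hrs _ w)
  have hC : P.E (fun w => φ w * c w) ≤ 2 * P.E (fun w => φ w * q w) := by
    rw [← P.E_smul]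
    refine P.E_mono fun w _ => ?_
    have := mul_le_mul_of_nonneg_left (hq w) (hφ0 w)
    simp only [hc]
    linarith
  have h5 : 0 < 2 / η ^ 2 := by positivity
  have h4 : η ^ 2 / 2 * ∑ j ∈ range (k + 1), P.E (fun w => φ w * Up η n2 x ts ν (r + 1 + j) w) ≤
      2 * P.E (fun w => φ w * q w) := by linarith
  have h6 := mul_le_mul_of_nonneg_left h4 h5.le
  have h7 : 2 / η ^ 2 * (η ^ 2 / 2 * ∑ j ∈ range (k + 1), P.E (fun w => φ w * Up η n2 x ts ν (r + 1 + j) w)) =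
      ∑ j ∈ range (k + 1), P.E (fun w => φ w * Up η n2 x ts ν (r + 1 + j) w) := by field_simp
  rw [h7] at h6
  refine h6.trans (le_of_eq ?_)
  ring

/-- Markov: the run is capped with small probability, weighted by `φ` -/
theorem cap_on2 (h : RunHyp P K M δ η n2 x ts ν) {r k : ℕ} {φ q : Om → ℝ} (hφ0 : ∀ w, 0 ≤ φ w)
    (hφ : Fac (K (r + 1)) φ) {on : ℕ → Om → Prop}
    (hoff : ∀ t w, ¬ on t w → (x t w).ls = [] ∧ ts t w = []) (hu0 : ∀ t w, ¬ on t w → ∀ d, (x t w).u d = 0)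
    (hr : ∀ t ≤ r, ∀ w, ¬ on t w) (hrs : ∀ t w, (x (t + 1) w).rs → ¬ (on (t + 1) w ↔ on t w))
    (hq : ∀ w, ind (on (r + 1) w) + ∑ j ∈ range k, ind (¬ (on (r + 1 + j + 1) w ↔ on (r + 1 + j) w)) ≤ 2 * q w) :
    P.E (fun w => φ w * ind (∃ t ≤ r + (k + 1), n2 < (Hi η n2 x ts ν t w).length)) ≤
      4 / η ^ 2 * P.E (fun w => φ w * q w) / (n2 + 1) := by
  have hn : (0 : ℝ) < n2 + 1 := by positivity
  rw [le_div_iff₀ hn, mul_comm, ← P.E_smul]
  refine le_trans ?_ (h.ups_on hφ0 hφ hoff hu0 hr hrs hq)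
  rw [← P.E_sum]
  refine P.E_mono fun w _ => ?_
  rw [← Finset.mul_sum]
  have hS0 : 0 ≤ ∑ j ∈ range (k + 1), Up η n2 x ts ν (r + 1 + j) w :=
    Finset.sum_nonneg fun j _ => Up_nonneg (r + 1 + j) w
  by_cases hb : ∃ t ≤ r + (k + 1), n2 < (Hi η n2 x ts ν t w).length
  · rw [ind_of hb, mul_one]
    obtain ⟨t, ht, hl⟩ := hb
    have h1 : ((Hi η n2 x ts ν t w).length : ℝ) ≤ ∑ j ∈ range (t + 1), Up η n2 x ts ν j w :=
      S2.hist_len_upd (x := fun t => x t w) (ts := fun t => ts t w) (ν := fun t => ν t w) t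
    have h2 : ∑ j ∈ range (t + 1), Up η n2 x ts ν j w ≤ ∑ j ∈ range (r + 1 + (k + 1)), Up η n2 x ts ν j w :=
      Finset.sum_le_sum_of_subset_of_nonneg (Finset.range_subset_range.2 (by omega)) fun j _ _ => Up_nonneg j w
    have h0 : ∑ j ∈ range (r + 1), Up η n2 x ts ν j w ≤ 0 := by
      refine Finset.sum_nonpos fun j hj => ?_
      have hj' := Finset.mem_range.1 hj
      have e : Hi η n2 x ts ν j w = [] := Hi_off hoff fun s hs => hr s (by omega) w
      have e1 : Up η n2 x ts ν j w = ((Hi η n2 x ts ν j w).length : ℝ) -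
        ((Hp η n2 x ts ν j w).length : ℝ) := rfl
      rw [e1, e]
      have : (0 : ℝ) ≤ ((Hp η n2 x ts ν j w).length : ℝ) := Nat.cast_nonneg _
      simp only [List.length_nil, Nat.cast_zero]
      linarith
    have e2 : ∑ j ∈ range (r + 1 + (k + 1)), Up η n2 x ts ν j w = ∑ j ∈ range (r + 1), Up η n2 x ts ν j w +
        ∑ j ∈ range (k + 1), Up η n2 x ts ν (r + 1 + j) w := Finset.sum_range_add _ _ _
    rw [e2] at h2
    have h3 : (n2 : ℝ) + 1 ≤ ((Hi η n2 x ts ν t w).length : ℝ) := by exact_mod_cast hl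
    have h4 : (n2 : ℝ) + 1 ≤ ∑ j ∈ range (k + 1), Up η n2 x ts ν (r + 1 + j) w := by linarith
    rw [mul_comm]
    exact mul_le_mul_of_nonneg_left h4 (hφ0 w)
  · rw [ind_not hb, mul_zero, mul_zero]
    exact mul_nonneg (hφ0 w) hS0

end RunHyp

end hist

end Pool.Agent.M3

namespace Pool.Agent.M3.S2

open Finset Pool.Agent.PWZ Pool.Agent.M3.TS
open Inp (nu2)

noncomputable section

section tests

variable {Om Ξ A B C V Γ κ : Type} [Fintype Om] [Fintype Ξ] [Fintype A] [Fintype B]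
    [Fintype C] [Fintype V] {T : Tri Om Ξ A B C V Γ κ} {ac : ℕ → Om → Prop}

theorem Tri.tsg_fac (hA : T.Act ac) {ts : ℕ → Om → List (Unit × (V → ℝ))} (htK : ∀ t, Fac (T.Kg t) (ts t)) (t : ℕ) :
    Fac (T.Kg t) (Tri.tsg ac ts t) := fun v w h => by
  have h1 := htK t v w h
  rw [Tri.Kg_iff] at h
  unfold Tri.tsg
  have e := hA.cong t v w h.1 h.2.1 h.2.2.1 h.2.2.2
  by_cases h2 : ac t w
  · rw [if_pos h2, if_pos (e.2 h2), h1]
  · rw [if_neg h2, if_neg fun h3 => h2 (e.1 h3)]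

theorem Tri.tsg_bd {ts : ℕ → Om → List (Unit × (V → ℝ))} (hbd : ∀ t w, ∀ p ∈ ts t w, ∀ d, |p.2 d| ≤ 1) (t : ℕ)
    (w : Om) : ∀ p ∈ Tri.tsg ac ts t w, ∀ d, |p.2 d| ≤ 1 := by
  intro p hp
  unfold Tri.tsg at hp
  split_ifs at hp with h
  · exact hbd t w p hp
  · simp at hp

theorem Tri.KB_Kg (T : Tri Om Ξ A B C V Γ κ) (t : ℕ) : Fac (T.KB t) (T.Kg t) := fun v w h => by
  rw [T.KB_iff] at h
  rw [Tri.Kg_iff]
  exact ⟨h.1, h.2.1, by rw [h.2.2.1], h.2.2.2⟩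

end tests

variable {Om A B C V Γ κ Γ2 κ2 S : Type} [Fintype Om] [Fintype A] [Fintype B] [Fintype C] [Fintype V]
  [Fintype S] [DecidableEq S] {m : ℕ} {T1 : Tri Om (S → Fin m) A B C V Γ κ} {T2 : Tri Om (S → Fin m) A B C V Γ2 κ2}

namespace Inp

variable (I : Inp T1 S)

/-- history of the run of the pair `(s, s')` in the fine geometry `T2` -/
def H2g (T2 : Tri Om (S → Fin m) A B C V Γ2 κ2) (F : S → S → ℕ → ℕ → Γ2 → B × C → V → ℝ)
    (Bn : S → S → ℕ → ℕ → Γ2 → κ2 × κ2 → List (Finset (B × C))) (Nw : ℕ) (n3 η2 : ℝ) (n4 : ℕ) (R0 nN : ℝ)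
    (ts : S → S → ℕ → Om → List (Unit × (V → ℝ))) (s s' : S) (t : ℕ) (w : Om) : List (V → ℝ) :=
  (Hi η2 n4 (T2.locg (F s s') (Bn s s') Nw n3 (fun t w => I.act2 R0 nN w t s s') (I.tg2 s s')) (ts s s') nu2 t
    w).map Prod.snd

/-- all pairs together: what is needed for one pair -/
theorem pair_sum {R0 nN : ℝ} (hn : 0 ≤ nN) {c : ℝ} (hc : 0 ≤ c) (f : S → S → ℝ)
    (hf : ∀ s s', f s s' ≤ c * T1.P.E (fun w => ind (T1.gm (I.R.tb s) w = I.R.gb s ∧ I.R.mem s (T1.a w) (T1.b w)) *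
      ind (∃ t ≤ T1.n, I.act2 R0 nN w t s s'))) : ∑ s, ∑ s', f s s' ≤ c * (I.Λ * nN) := by
  set φ : S → Om → ℝ := fun s w => ind (T1.gm (I.R.tb s) w = I.R.gb s ∧ I.R.mem s (T1.a w) (T1.b w)) with hφd
  refine (Finset.sum_le_sum fun s _ => Finset.sum_le_sum fun s' _ => hf s s').trans ?_
  rw [Finset.sum_congr rfl fun s _ => (Finset.mul_sum _ _ _).symm, ← Finset.mul_sum]
  refine mul_le_mul_of_nonneg_left ?_ hc
  rw [Finset.sum_congr rfl fun s _ => (T1.P.E_sum _ _).symm, ← T1.P.E_sum]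
  refine T1.P.E_le_const fun w _ => ?_
  calc ∑ s, ∑ s', φ s w * ind (∃ t ≤ T1.n, I.act2 R0 nN w t s s')
      = ∑ s, φ s w * ∑ s', ind (∃ t ≤ T1.n, I.act2 R0 nN w t s s') :=
        Finset.sum_congr rfl fun s _ => (Finset.mul_sum _ _ _).symm
    _ ≤ ∑ s, φ s w * nN := Finset.sum_le_sum fun s _ =>
        mul_le_mul_of_nonneg_left (I.act2_cnt hn T1.n w s) (ind_nonneg _)
    _ = (∑ s, φ s w) * nN := (Finset.sum_mul _ _ _).symm
    _ ≤ I.Λ * nN := by
        refine mul_le_mul_of_nonneg_right ?_ hn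
        refine le_trans (Finset.sum_le_sum fun s _ => ?_) (I.hΛ T1.n le_rfl w)
        exact ind_mono fun h => ⟨I.tbn s, h.1, h.2⟩

variable (fi : Fine T1 T2)

variable {F : S → S → ℕ → ℕ → Γ2 → B × C → V → ℝ}
  {Bn : S → S → ℕ → ℕ → Γ2 → κ2 × κ2 → List (Finset (B × C))} {Nw : ℕ} {n3 η2 : ℝ} {n4 : ℕ} {R0 nN : ℝ}
  {ts : S → S → ℕ → Om → List (Unit × (V → ℝ))}

include fi in
/-- the run of one pair with the information `(xi, a, b, node)` of the fine geometry -/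
theorem run_fine (hη : 0 < η2) (hF : ∀ s s' i t g y d, |F s s' i t g y d| ≤ 1)
    (htK : ∀ s s' t, Fac (T2.Kg t) (ts s s' t)) (hbd : ∀ s s' t w, ∀ p ∈ ts s s' t w, ∀ d, |p.2 d| ≤ 1) (s s' : S) :
    RunHyp T2.P T2.KB T2.mean 0 η2 n4
      (T2.locg (F s s') (Bn s s') Nw n3 (fun t w => I.act2 R0 nN w t s s') (I.tg2 s s'))
      (Tri.tsg (fun t w => I.act2 R0 nN w t s s') (ts s s')) nu2 := by
  have hA := I.act_fine fi R0 nN s s'
  exact T2.toKB (Tri.runHypg hA (I.tg2_bd s s') hη (hF s s') (fun t => Tri.tsg_fac hA (htK s s') t)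
    (fun t w => Tri.tsg_bd (hbd s s') t w)) T2.KB_Kg

/-- data of one pair for `changes_on`, `cap_on` -/
private theorem off_fine (s s' : S) (t : ℕ) (w : Om) (h : ¬ I.act2 R0 nN w t s s') :
    (T2.locg (F s s') (Bn s s') Nw n3 (fun t w => I.act2 R0 nN w t s s') (I.tg2 s s') t w).ls = [] ∧
      Tri.tsg (fun t w => I.act2 R0 nN w t s s') (ts s s') t w = [] := by
  refine ⟨T2.lsg_nil _ _ _ _ (ac := fun t w => I.act2 R0 nN w t s s') h, ?_⟩
  unfold Tri.tsg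
  exact if_neg h

private theorem u_fine (s s' : S) (t : ℕ) (w : Om) (h : ¬ I.act2 R0 nN w t s s') (d : V) :
    (T2.locg (F s s') (Bn s s') Nw n3 (fun t w => I.act2 R0 nN w t s s') (I.tg2 s s') t w).u d = 0 := by
  show ind (I.act2 R0 nN w t s s') * _ = 0
  rw [ind_not h, zero_mul]

private theorem rs_fine (s s' : S) (t : ℕ) (w : Om)
    (h : (T2.locg (F s s') (Bn s s') Nw n3 (fun t w => I.act2 R0 nN w t s s') (I.tg2 s s') (t + 1) w).rs) :
    ¬ (I.act2 R0 nN w (t + 1) s s' ↔ I.act2 R0 nN w t s s') := by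
  obtain ⟨u, hu, h1⟩ := h
  have : u = t := by omega
  subst this
  exact h1

include fi in
private theorem phi_fine (s : S) {r : ℕ} (hr : I.R.tb s = r + 1) :
    Fac (T2.KB (r + 1)) (fun w => ind (T1.gm (I.R.tb s) w = I.R.gb s ∧ I.R.mem s (T1.a w) (T1.b w))) :=
  fun v w h => by
    rw [T2.KB_iff] at h
    obtain ⟨_, ha, hb, hg⟩ := h
    rw [fi.ha] at ha
    rw [fi.hb] at hb
    have hg' := fi.gm_eq hg
    rw [← hr] at hg'
    simp only
    rw [ha, hb, hg']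

private theorem q_fine (s s' : S) {r k : ℕ} (hk : T1.n = r + (k + 1)) (w : Om) :
    ind (I.act2 R0 nN w (r + 1) s s') + ∑ j ∈ range k, ind (¬ (I.act2 R0 nN w (r + 1 + j + 1) s s' ↔
      I.act2 R0 nN w (r + 1 + j) s s')) ≤ 2 * ind (∃ t ≤ T1.n, I.act2 R0 nN w t s s') := by
  have h3 := convex_changes (fun j => I.act2 R0 nN w (r + 1 + j) s s')
    (fun i j l hil hlj hi hj => I.act2_convex (by omega) (by omega) hi hj) k
  refine h3.trans ?_
  refine mul_le_mul_of_nonneg_left (ind_mono ?_) (by norm_num)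
  rintro ⟨j, hj, h4⟩
  exact ⟨r + 1 + j, by omega, h4⟩

include fi in
/-- **mean number of changes of the label of `(a, b)`**, runs of stage 2 in the fine geometry -/
theorem chg_f2 (hn : 0 ≤ nN) (hη : 0 < η2) (hF : ∀ s s' i t g y d, |F s s' i t g y d| ≤ 1)
    (htK : ∀ s s' t, Fac (T2.Kg t) (ts s s' t)) (hbd : ∀ s s' t w, ∀ p ∈ ts s s' t w, ∀ d, |p.2 d| ≤ 1)
    (F2 : S → S → ℕ → Om → V → ℝ)
    (hF2 : ∀ s s' t w, I.H2g T2 F Bn Nw n3 η2 n4 R0 nN ts s s' (t + 1) w =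
      I.H2g T2 F Bn Nw n3 η2 n4 R0 nN ts s s' t w → F2 s s' (t + 1) w = F2 s s' t w) :
    ∑ t ∈ range T1.n, T1.P.Pr (fun w => I.fL F2 (t + 1) w ≠ I.fL F2 t w) ≤
      I.Λ + (4 / η2 ^ 2 + 2) * (I.Λ * nN) := by
  have h1 : ∑ t ∈ range T1.n, T1.P.Pr (fun w => I.fL F2 (t + 1) w ≠ I.fL F2 t w) ≤
      I.Λ + ∑ s, ∑ s', ∑ t ∈ range T1.n, T1.P.E (fun w => ind (I.live s (t + 1) w ∧
        F2 s s' (t + 1) w ≠ F2 s s' t w)) := by
    unfold FP.Pr
    rw [← T1.P.E_sum]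
    refine (T1.P.E_mono fun w _ => I.fL_path F2 w).trans (le_of_eq ?_)
    rw [T1.P.E_add, T1.P.E_const, T1.P.E_sum]
    congr 1
    rw [Finset.sum_congr rfl fun t _ => T1.P.E_sum _ _]
    rw [Finset.sum_comm]
    refine Finset.sum_congr rfl fun s _ => ?_
    rw [Finset.sum_congr rfl fun t _ => T1.P.E_sum _ _]
    rw [Finset.sum_comm]
  refine h1.trans (add_le_add le_rfl (I.pair_sum (R0 := R0) hn (by positivity) _ fun s s' => ?_))
  obtain ⟨r, hr⟩ : ∃ r, I.R.tb s = r + 1 := ⟨I.R.tb s - 1, by have := I.tb1 s; omega⟩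
  obtain ⟨k, hk⟩ : ∃ k, T1.n = r + (k + 1) := ⟨T1.n - r - 1, by have := I.tbn s; omega⟩
  have hnot : ∀ t ≤ r, ∀ w, ¬ I.act2 R0 nN w t s s' := fun t ht w h => by
    have := h.1.1.1
    omega
  have hR := I.run_fine (n4 := n4) (Bn := Bn) (Nw := Nw) (n3 := n3) (R0 := R0) (nN := nN) fi hη hF htK hbd s s'
  have h2 := hR.changes_on (r := r) (k := k)
    (φ := fun w => ind (T1.gm (I.R.tb s) w = I.R.gb s ∧ I.R.mem s (T1.a w) (T1.b w)))
    (q := fun w => ind (∃ t ≤ T1.n, I.act2 R0 nN w t s s')) (fun w => ind_nonneg _) (I.phi_fine fi s hr)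
    (on := fun t w => I.act2 R0 nN w t s s') (fun t w h => I.off_fine s s' t w h)
    (fun t w h d => I.u_fine s s' t w h d) hnot (fun t w h => I.rs_fine s s' t w h) (fun w => I.q_fine s s' hk w)
  rw [fi.hP] at h2
  refine le_trans ?_ h2
  rw [hk, Finset.sum_range_add]
  have h0 : ∑ t ∈ range r, T1.P.E (fun w => ind (I.live s (t + 1) w ∧
      F2 s s' (t + 1) w ≠ F2 s s' t w)) ≤ 0 := by
    refine Finset.sum_nonpos fun t ht => ?_
    have ht' := Finset.mem_range.1 ht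
    refine T1.P.E_le_const fun w _ => le_of_eq (ind_not fun h => ?_)
    have := h.1.1.1
    omega
  have hA := I.act_fine fi R0 nN s s'
  have h5 : ∑ j ∈ range (k + 1), T1.P.E (fun w => ind (I.live s (r + j + 1) w ∧
      F2 s s' (r + j + 1) w ≠ F2 s s' (r + j) w)) ≤
      ∑ j ∈ range (k + 1), T1.P.E (fun w => ind (T1.gm (I.R.tb s) w = I.R.gb s ∧ I.R.mem s (T1.a w) (T1.b w)) *
        ind (Hi η2 n4 (T2.locg (F s s') (Bn s s') Nw n3 (fun t w => I.act2 R0 nN w t s s') (I.tg2 s s'))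
          (Tri.tsg (fun t w => I.act2 R0 nN w t s s') (ts s s')) nu2 (r + j + 1) w ≠
          Hi η2 n4 (T2.locg (F s s') (Bn s s') Nw n3 (fun t w => I.act2 R0 nN w t s s') (I.tg2 s s'))
          (Tri.tsg (fun t w => I.act2 R0 nN w t s s') (ts s s')) nu2 (r + j) w)) := by
    refine Finset.sum_le_sum fun j _ => T1.P.E_mono fun w _ => ?_
    by_cases h6 : I.live s (r + j + 1) w ∧ F2 s s' (r + j + 1) w ≠ F2 s s' (r + j) w
    · rw [ind_of h6]
      have h7 : ind (T1.gm (I.R.tb s) w = I.R.gb s ∧ I.R.mem s (T1.a w) (T1.b w)) = 1 :=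
        ind_of ⟨h6.1.1.2, h6.1.2⟩
      rw [h7, one_mul, ind_of fun h8 => h6.2 (hF2 s s' (r + j) w ?_)]
      unfold H2g
      rw [Tri.Hig_ts hA hη (ts s s'), Tri.Hig_ts hA hη (ts s s'), h8]
    · rw [ind_not h6]
      exact mul_nonneg (ind_nonneg _) (ind_nonneg _)
  linarith

include fi in
/-- **event (10)**: for live references the runs of stage 2 (in the fine geometry) are not capped -/
theorem cap_f2 (hn : 0 ≤ nN) (hη : 0 < η2) (hF : ∀ s s' i t g y d, |F s s' i t g y d| ≤ 1)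
    (htK : ∀ s s' t, Fac (T2.Kg t) (ts s s' t)) (hbd : ∀ s s' t w, ∀ p ∈ ts s s' t w, ∀ d, |p.2 d| ≤ 1) :
    T1.P.Pr (fun w => ∃ s s', ∃ t ≤ T1.n, I.live s t w ∧ I.act2 R0 nN w t s s' ∧
      n4 < (I.H2g T2 F Bn Nw n3 η2 n4 R0 nN ts s s' t w).length) ≤ 4 / η2 ^ 2 / (n4 + 1) * (I.Λ * nN) := by
  refine le_trans (Eq.trans_le ?_ (fin2_ex T1.P (fun s w => ∃ s', ∃ t ≤ T1.n, I.live s t w ∧
      I.act2 R0 nN w t s s' ∧ n4 < (I.H2g T2 F Bn Nw n3 η2 n4 R0 nN ts s s' t w).length))) ?_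
  · rfl
  refine le_trans (Finset.sum_le_sum fun s _ => fin2_ex T1.P (fun s' w => ∃ t ≤ T1.n, I.live s t w ∧
      I.act2 R0 nN w t s s' ∧ n4 < (I.H2g T2 F Bn Nw n3 η2 n4 R0 nN ts s s' t w).length)) ?_
  refine I.pair_sum (R0 := R0) hn (by positivity) _ fun s s' => ?_
  obtain ⟨r, hr⟩ : ∃ r, I.R.tb s = r + 1 := ⟨I.R.tb s - 1, by have := I.tb1 s; omega⟩
  obtain ⟨k, hk⟩ : ∃ k, T1.n = r + (k + 1) := ⟨T1.n - r - 1, by have := I.tbn s; omega⟩
  have hnot : ∀ t ≤ r, ∀ w, ¬ I.act2 R0 nN w t s s' := fun t ht w h => by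
    have := h.1.1.1
    omega
  have hR := I.run_fine (n4 := n4) (Bn := Bn) (Nw := Nw) (n3 := n3) (R0 := R0) (nN := nN) fi hη hF htK hbd s s'
  have h2 := hR.cap_on2 (r := r) (k := k)
    (φ := fun w => ind (T1.gm (I.R.tb s) w = I.R.gb s ∧ I.R.mem s (T1.a w) (T1.b w)))
    (q := fun w => ind (∃ t ≤ T1.n, I.act2 R0 nN w t s s')) (fun w => ind_nonneg _) (I.phi_fine fi s hr)
    (on := fun t w => I.act2 R0 nN w t s s') (fun t w h => I.off_fine s s' t w h)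
    (fun t w h d => I.u_fine s s' t w h d) hnot (fun t w h => I.rs_fine s s' t w h) (fun w => I.q_fine s s' hk w)
  rw [fi.hP] at h2
  have hA := I.act_fine fi R0 nN s s'
  refine le_trans ?_ (h2.trans (le_of_eq (by ring)))
  unfold FP.Pr
  refine T1.P.E_mono fun w _ => ?_
  by_cases h3 : ∃ t ≤ T1.n, I.live s t w ∧ I.act2 R0 nN w t s s' ∧
      n4 < (I.H2g T2 F Bn Nw n3 η2 n4 R0 nN ts s s' t w).length
  · obtain ⟨t, ht, hl, _, h4⟩ := h3
    have h5 : ind (T1.gm (I.R.tb s) w = I.R.gb s ∧ I.R.mem s (T1.a w) (T1.b w)) = 1 := ind_of ⟨hl.1.2, hl.2⟩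
    rw [h5, one_mul]
    refine ind_mono fun _ => ⟨t, by omega, ?_⟩
    unfold H2g at h4
    rw [List.length_map, Tri.Hig_ts hA hη (ts s s')] at h4
    exact h4
  · rw [ind_not h3]
    exact mul_nonneg (ind_nonneg _) (ind_nonneg _)

variable {ε3 : ℝ}

include fi in
/-- the same with the public tests of `fine_exist` -/
theorem cap_fine (hn : 0 ≤ nN) (hη : 0 < η2) (hF : ∀ s s' i t g y d, |F s s' i t g y d| ≤ 1)
    (hts : ∀ s s', T2.Testsg (F s s') (Bn s s') Nw n3 (fun t w => I.act2 R0 nN w t s s') (I.tg2 s s') η2 n4 ε3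
      (ts s s')) :
    T1.P.Pr (fun w => ∃ s s', ∃ t ≤ T1.n, I.live s t w ∧ I.act2 R0 nN w t s s' ∧
      n4 < (I.H2g T2 F Bn Nw n3 η2 n4 R0 nN ts s s' t w).length) ≤ 4 / η2 ^ 2 / (n4 + 1) * (I.Λ * nN) :=
  I.cap_f2 fi hn hη hF (fun s s' t => (Tri.QKg t).trans ((hts s s').tsQ t)) fun s s' => (hts s s').bd

include fi in
/-- the label `sum of the recorded letters` -/
theorem chg_fine (hn : 0 ≤ nN) (hη : 0 < η2) (hF : ∀ s s' i t g y d, |F s s' i t g y d| ≤ 1)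
    (hts : ∀ s s', T2.Testsg (F s s') (Bn s s') Nw n3 (fun t w => I.act2 R0 nN w t s s') (I.tg2 s s') η2 n4 ε3
      (ts s s')) :
    ∑ t ∈ range T1.n, T1.P.Pr (fun w =>
      I.fL (fun s s' t w d => η2 * ((I.H2g T2 F Bn Nw n3 η2 n4 R0 nN ts s s' t w).map fun h => h d).sum) (t + 1) w ≠
      I.fL (fun s s' t w d => η2 * ((I.H2g T2 F Bn Nw n3 η2 n4 R0 nN ts s s' t w).map fun h => h d).sum) t w) ≤
      I.Λ + (4 / η2 ^ 2 + 2) * (I.Λ * nN) :=
  I.chg_f2 fi (Bn := Bn) (Nw := Nw) (n3 := n3) (R0 := R0) (n4 := n4) (ts := ts) hn hη hF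
    (fun s s' t => (Tri.QKg t).trans ((hts s s').tsQ t)) (fun s s' => (hts s s').bd) _
    fun s s' t w h => by
      funext d
      simp only [h]

/-- the error process of `Stage2g` in terms of `H2g`, hypothesis `hZ2` of `half1` -/
theorem Zg_H2g (s s' : S) (t : ℕ) (w : Om) (h : I.act2 R0 nN w t s s')
    (hl : (I.H2g T2 F Bn Nw n3 η2 n4 R0 nN ts s s' t w).length ≤ n4) (d : V) :
    T2.Zg (F s s') (Bn s s') Nw n3 (fun t w => I.act2 R0 nN w t s s') (I.tg2 s s') η2 n4 (ts s s') t w d =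
      I.R.v s (T2.a w) d * I.R.v s' (T2.a w) d -
        η2 * ((I.H2g T2 F Bn Nw n3 η2 n4 R0 nN ts s s' t w).map fun h => h d).sum := by
  unfold H2g at hl ⊢
  rw [List.length_map] at hl
  exact Tri.Zg_eq (ac := fun t w => I.act2 R0 nN w t s s') h hl d

end Inp

end

end Pool.Agent.M3.S2
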