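import Pool.Agent.M3.S2.Stage1b
import Pool.Agent.M3.S2.AlphH
import Pool.Agent.M3.S2.Cnt

/-!
# M3/S2/Concl : the conclusion of section 2 (helper1)

`Phi`, `fl`, `XX` = the output (formula, label of `(a,b)`, process); `alT` = letters and public tests;
`Hi_alT` = the entries of the actual run are recorded letters or public tests;
`concl_det` = the deterministic inequality `|TT - XX| ≤ Λ (E1 + η1 n2 E2)`;
`concl` = union of the bad events; `Phi_bd` = the bound of the formula.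
-/

set_option autoImplicit false

namespace Pool.Agent.M3.S2

open Finset Pool.Agent.PWZ Pool.Agent.M3.TS

/-! ### sums over lists -/

theorem list_sum_swap {α ι : Type*} [Fintype ι] (L : List α) (φ : α → ι → ℝ) :
    (L.map fun p => ∑ d, φ p d).sum = ∑ d, (L.map fun p => φ p d).sum := by
  induction L with
  | nil => simp
  | cons p L ih => simp only [List.map_cons, List.sum_cons, ih, Finset.sum_add_distrib]

theorem list_sum_mul {α : Type*} (L : List α) (c : ℝ) (φ : α → ℝ) :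
    (L.map fun p => c * φ p).sum = c * (L.map φ).sum := by
  induction L with
  | nil => simp
  | cons p L ih => simp only [List.map_cons, List.sum_cons, ih, mul_add]

theorem list_sum_add {α : Type*} (L : List α) (φ ψ : α → ℝ) :
    (L.map fun p => φ p + ψ p).sum = (L.map φ).sum + (L.map ψ).sum := by
  induction L with
  | nil => simp
  | cons p L ih =>
    simp only [List.map_cons, List.sum_cons, ih]
    ring

theorem list_sum_abs {α : Type*} (L : List α) (φ : α → ℝ) {e : ℝ} (h : ∀ p ∈ L, |φ p| ≤ e) :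
    |(L.map φ).sum| ≤ L.length * e := by
  induction L with
  | nil => simp
  | cons p L ih =>
    rw [List.map_cons, List.sum_cons, List.length_cons]
    have h1 := ih fun q hq => h q (List.mem_cons_of_mem _ hq)
    have h2 := h p List.mem_cons_self
    push_cast
    calc _ ≤ |φ p| + |(L.map φ).sum| := abs_add_le _ _
      _ ≤ _ := by linarith

noncomputable section

variable {Om A B C V Γ κ S : Type} [Fintype Om] [Fintype A] [Fintype B] [Fintype C] [Fintype V]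
  [Fintype S] [DecidableEq S] {m : ℕ} {T : Tri Om (S → Fin m) A B C V Γ κ}

namespace Inp

variable (I : Inp T S)

/-! ### the output -/

/-- the formula -/
def Phi (η1 : ℝ) (b0 : B) (e : V → ℝ) (f : S → S → V → ℝ) (g : List (S × (V → ℝ))) (d : V) : ℝ :=
  η1 * ∑ s, (g.map fun p => e d * I.R.u s b0 d * p.2 d * f s p.1 d).sum

/-- the label of `(a, b)` -/
def fl (F2 : S → S → ℕ → Om → V → ℝ) (t : ℕ) (w : Om) (s s' : S) (d : V) : ℝ :=
  ind (I.live s t w) * I.cf t (T.gm t w) (T.a w) (T.b w) s * F2 s s' t w d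

/-- the output process -/
def XX (η1 : ℝ) (F2 : S → S → ℕ → Om → V → ℝ) (g : ℕ → Om → List (S × (V → ℝ))) (t : ℕ) (w : Om) : ℝ :=
  iw (T.J t w) (fun _ => 1) (I.Phi η1 (T.b w) (I.G1 t (T.gm t w) (T.b w) (T.c w)) (I.fl F2 t w) (g t w))

variable {I}

/-! ### live references -/

theorem live_onab {s : S} {t : ℕ} {w : Om} (h : I.live s t w) : I.onab w t s :=
  ⟨h.1, I.mal s _ _ h.2⟩

theorem live_act {s : S} {t : ℕ} {w : Om} (h : I.live s t w) : I.act w t s := by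
  have h1 := I.mal s _ _ h.2
  exact ⟨h.1, h1.1, w, h1.1, h1.2, rfl, h.1.2⟩

theorem live_intr {s : S} {t : ℕ} {w : Om} (h : I.live s t w) : I.intr s t (T.gm t w) (T.b w) (T.c w) := by
  have h1 := I.mal s _ _ h.2
  exact (I.intr_iff s w).2 ⟨h.1.1, h.1.2, h1.2, w, h1.1, h1.2, rfl, h.1.2⟩

theorem sum_live {t : ℕ} (ht : t ≤ T.n) (w : Om) : ∑ s, ind (I.live s t w) ≤ I.Λ := by
  refine le_trans (le_of_eq ?_) (I.hΛ t ht w)
  refine Finset.sum_congr rfl fun s _ => ?_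
  congr 1
  exact propext ⟨fun h => ⟨h.1.1, h.1.2, h.2⟩, fun h => ⟨⟨h.1, h.2.1⟩, h.2.2⟩⟩

private theorem N1_NB_c {R0 : ℝ} {w : Om} {j t : ℕ} (hj : j ≤ t) {s : S} (h : I.N1 R0 w j s) : I.NB R0 w t s :=
  ⟨j, hj, w, rfl, rfl, rfl, rfl, h⟩

private theorem NB_mono_c {R0 : ℝ} {w : Om} {t u : ℕ} (htu : t ≤ u) {s : S} (h : I.NB R0 w t s) : I.NB R0 w u s := by
  obtain ⟨j, hj, h1⟩ := h
  exact ⟨j, hj.trans htu, h1⟩

/-! ### the deterministic inequality -/

theorem concl_det {η1 E1 E2 : ℝ} (hη : 0 ≤ η1) (hE1 : 0 ≤ E1) (hE2 : 0 ≤ E2) {n2 : ℕ}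
    {F2 : S → S → ℕ → Om → V → ℝ} {g : ℕ → Om → List (S × (V → ℝ))} {t : ℕ} {w : Om} (ht : t ≤ T.n)
    (hlen : (g t w).length ≤ n2)
    (h1 : ∀ s, I.live s t w → |iw (T.J t w) (I.k1 s t (T.c w, T.gm t w) (T.b w))
      (fun d => Er η1 n2 (I.G2 t (T.gm t w) (T.a w) (T.c w)) (fun r => I.R.v r (T.a w)) (g t w) d *
        I.R.v s (T.a w) d)| ≤ E1)
    (h2 : ∀ s, I.live s t w → ∀ p ∈ g t w, |iw (T.J t w)
      (fun d => I.G1 t (T.gm t w) (T.b w) (T.c w) d * I.R.u s (T.b w) d * p.2 d)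
      (fun d => I.R.v s (T.a w) d * I.R.v p.1 (T.a w) d - F2 s p.1 t w d)| ≤ E2) :
    |I.TT t w - I.XX η1 F2 g t w| ≤ I.Λ * (E1 + η1 * n2 * E2) := by
  set G1 : V → ℝ := I.G1 t (T.gm t w) (T.b w) (T.c w) with hG1
  set G2 : V → ℝ := I.G2 t (T.gm t w) (T.a w) (T.c w) with hG2
  set L := g t w with hL
  set E : V → ℝ := Er η1 n2 G2 (fun r => I.R.v r (T.a w)) L with hE
  set D : S → ℝ := fun s => iw (T.J t w) (I.k1 s t (T.c w, T.gm t w) (T.b w)) (fun d => E d * I.R.v s (T.a w) d) +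
    η1 * (L.map fun p => iw (T.J t w) (fun d => G1 d * I.R.u s (T.b w) d * p.2 d)
      (fun d => I.R.v s (T.a w) d * I.R.v p.1 (T.a w) d - F2 s p.1 t w d)).sum with hD
  have hEd : ∀ d, G2 d = E d + η1 * (L.map fun p => p.2 d * I.R.v p.1 (T.a w) d).sum := by
    intro d
    rw [hE]
    unfold Er
    rw [if_pos hlen]
    ring
  -- the difference
  have key : I.TT t w - I.XX η1 F2 g t w =
      ∑ s, ind (I.live s t w) * I.cf t (T.gm t w) (T.a w) (T.b w) s * D s := by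
    have e1 : I.TT t w = ∑ s, ∑ d, ind (I.live s t w) * I.cf t (T.gm t w) (T.a w) (T.b w) s *
        (T.J t w d * (G1 d * G2 d) * I.R.v s (T.a w) d * I.R.u s (T.b w) d) := by
      unfold TT iw G3
      rw [Finset.sum_comm]
      refine Finset.sum_congr rfl fun d _ => ?_
      rw [Finset.mul_sum]
      refine Finset.sum_congr rfl fun s _ => ?_
      ring
    have e2 : I.XX η1 F2 g t w = ∑ s, ∑ d, ind (I.live s t w) * I.cf t (T.gm t w) (T.a w) (T.b w) s *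
        (η1 * (T.J t w d * (L.map fun p => G1 d * I.R.u s (T.b w) d * p.2 d * F2 s p.1 t w d).sum)) := by
      unfold XX iw Phi fl
      rw [Finset.sum_comm]
      refine Finset.sum_congr rfl fun d _ => ?_
      rw [Finset.mul_sum, Finset.mul_sum]
      refine Finset.sum_congr rfl fun s _ => ?_
      have e3 : ((g t w).map fun p => I.G1 t (T.gm t w) (T.b w) (T.c w) d * I.R.u s (T.b w) d * p.2 d *
          (ind (I.live s t w) * I.cf t (T.gm t w) (T.a w) (T.b w) s * F2 s p.1 t w d)).sum =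
          ind (I.live s t w) * I.cf t (T.gm t w) (T.a w) (T.b w) s *
          (L.map fun p => G1 d * I.R.u s (T.b w) d * p.2 d * F2 s p.1 t w d).sum := by
        rw [← list_sum_mul]
        congr 1
        refine List.map_congr_left fun p _ => ?_
        ring
      rw [e3]
      ring
    rw [e1, e2, ← Finset.sum_sub_distrib]
    refine Finset.sum_congr rfl fun s _ => ?_
    rw [← Finset.sum_sub_distrib]
    by_cases hs : I.live s t w
    · rw [ind_of hs, hD]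
      have hk : ∀ d, I.k1 s t (T.c w, T.gm t w) (T.b w) d = G1 d * I.R.u s (T.b w) d := by
        intro d
        unfold k1
        rw [ind_of (live_intr hs), one_mul]
      have e4 : (L.map fun p => iw (T.J t w) (fun d => G1 d * I.R.u s (T.b w) d * p.2 d)
          (fun d => I.R.v s (T.a w) d * I.R.v p.1 (T.a w) d - F2 s p.1 t w d)).sum =
          ∑ d, (L.map fun p => T.J t w d * (G1 d * I.R.u s (T.b w) d * p.2 d) *
            (I.R.v s (T.a w) d * I.R.v p.1 (T.a w) d - F2 s p.1 t w d)).sum := by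
        unfold iw
        exact list_sum_swap _ _
      simp only
      rw [e4]
      unfold iw
      rw [Finset.mul_sum, ← Finset.sum_add_distrib, Finset.mul_sum]
      refine Finset.sum_congr rfl fun d _ => ?_
      rw [hk d]
      have e5 : (L.map fun p => T.J t w d * (G1 d * I.R.u s (T.b w) d * p.2 d) *
            (I.R.v s (T.a w) d * I.R.v p.1 (T.a w) d - F2 s p.1 t w d)).sum =
          T.J t w d * G1 d * I.R.u s (T.b w) d * I.R.v s (T.a w) d *
            (L.map fun p => p.2 d * I.R.v p.1 (T.a w) d).sum -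
          T.J t w d * (L.map fun p => G1 d * I.R.u s (T.b w) d * p.2 d * F2 s p.1 t w d).sum := by
        rw [← list_sum_mul, ← list_sum_mul, eq_sub_iff_add_eq, ← list_sum_add]
        congr 1
        refine List.map_congr_left fun p _ => ?_
        ring
      rw [e5]
      have e6 := hEd d
      have e7 : T.J t w d * (G1 d * G2 d) * I.R.v s (T.a w) d * I.R.u s (T.b w) d =
          T.J t w d * (G1 d * I.R.u s (T.b w) d) * (E d * I.R.v s (T.a w) d) +
          η1 * (T.J t w d * G1 d * I.R.u s (T.b w) d * I.R.v s (T.a w) d *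
            (L.map fun p => p.2 d * I.R.v p.1 (T.a w) d).sum) := by
        rw [e6]
        ring
      rw [e7]
      ring
    · rw [ind_not hs]
      simp
  -- the bound
  have hDb : ∀ s, I.live s t w → |D s| ≤ E1 + η1 * n2 * E2 := by
    intro s hs
    have h3 := h1 s hs
    have h4 : |(L.map fun p => iw (T.J t w) (fun d => G1 d * I.R.u s (T.b w) d * p.2 d)
      (fun d => I.R.v s (T.a w) d * I.R.v p.1 (T.a w) d - F2 s p.1 t w d)).sum| ≤ L.length * E2 :=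
      list_sum_abs _ _ fun p hp => h2 s hs p hp
    have h5 : (L.length : ℝ) ≤ n2 := by exact_mod_cast hlen
    have h6 : (L.length : ℝ) * E2 ≤ n2 * E2 := mul_le_mul_of_nonneg_right h5 hE2
    rw [hD]
    refine (abs_add_le _ _).trans ?_
    rw [abs_mul, abs_of_nonneg hη]
    have h7 := mul_le_mul_of_nonneg_left (h4.trans h6) hη
    linarith
  rw [key]
  have hpos : 0 ≤ E1 + η1 * n2 * E2 := by positivity
  calc |∑ s, ind (I.live s t w) * I.cf t (T.gm t w) (T.a w) (T.b w) s * D s| ≤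
      ∑ s, |ind (I.live s t w) * I.cf t (T.gm t w) (T.a w) (T.b w) s * D s| := Finset.abs_sum_le_sum_abs _ _
    _ ≤ ∑ s, ind (I.live s t w) * (E1 + η1 * n2 * E2) := by
        refine Finset.sum_le_sum fun s _ => ?_
        by_cases hs : I.live s t w
        · rw [ind_of hs, one_mul, one_mul, abs_mul]
          calc _ ≤ 1 * (E1 + η1 * n2 * E2) :=
                mul_le_mul (I.cfb _ _ _ _ _) (hDb s hs) (abs_nonneg _) zero_le_one
            _ = _ := one_mul _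
        · rw [ind_not hs]
          simp
    _ = (∑ s, ind (I.live s t w)) * (E1 + η1 * n2 * E2) := by rw [Finset.sum_mul]
    _ ≤ I.Λ * (E1 + η1 * n2 * E2) := mul_le_mul_of_nonneg_right (sum_live ht w) hpos

/-! ### the bound of the formula -/

theorem Phi_bd {η1 cF : ℝ} (hη : 0 ≤ η1) (hc : 0 ≤ cF) {n2 : ℕ} {F2 : S → S → ℕ → Om → V → ℝ}
    (hF2 : ∀ s s' t w d, |F2 s s' t w d| ≤ cF) {g : List (S × (V → ℝ))} (hlen : g.length ≤ n2 + 1)
    (hg : ∀ p ∈ g, ∀ d, |p.2 d| ≤ 1) {e : V → ℝ} (he : ∀ d, |e d| ≤ 1) {t : ℕ} (ht : t ≤ T.n) (w : Om) (b0 : B) (d : V) :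
    |I.Phi η1 b0 e (I.fl F2 t w) g d| ≤ η1 * (I.Λ * ((n2 + 1) * cF)) := by
  unfold Phi
  rw [abs_mul, abs_of_nonneg hη]
  refine mul_le_mul_of_nonneg_left ?_ hη
  calc |∑ s, (g.map fun p => e d * I.R.u s b0 d * p.2 d * I.fl F2 t w s p.1 d).sum| ≤
      ∑ s, |(g.map fun p => e d * I.R.u s b0 d * p.2 d * I.fl F2 t w s p.1 d).sum| :=
        Finset.abs_sum_le_sum_abs _ _
    _ ≤ ∑ s, ind (I.live s t w) * ((n2 + 1) * cF) := by
        refine Finset.sum_le_sum fun s _ => ?_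
        have h1 : |(g.map fun p => e d * I.R.u s b0 d * p.2 d * I.fl F2 t w s p.1 d).sum| ≤
            g.length * (ind (I.live s t w) * cF) := by
          refine list_sum_abs _ _ fun p hp => ?_
          unfold fl
          have h2 := he d
          have h3 := I.u1 s b0 d
          have h4 := hg p hp d
          have h5 := I.cfb t (T.gm t w) (T.a w) (T.b w) s
          have h6 := hF2 s p.1 t w d
          have h7 := ind_nonneg (I.live s t w)
          rw [abs_mul, abs_mul, abs_mul, abs_mul, abs_mul, abs_of_nonneg h7]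
          have h8 : |e d| * |I.R.u s b0 d| * |p.2 d| ≤ 1 :=
            mul_le_one₀ (mul_le_one₀ h2 (abs_nonneg _) h3) (abs_nonneg _) h4
          have h9 : ind (I.live s t w) * |I.cf t (T.gm t w) (T.a w) (T.b w) s| * |F2 s p.1 t w d| ≤
              ind (I.live s t w) * cF := by
            rw [mul_assoc]
            refine mul_le_mul_of_nonneg_left ?_ h7
            calc _ ≤ 1 * cF := mul_le_mul h5 h6 (abs_nonneg _) zero_le_one
              _ = cF := one_mul _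
          calc _ ≤ 1 * (ind (I.live s t w) * cF) := mul_le_mul h8 h9 (by positivity) zero_le_one
            _ = _ := one_mul _
        have h10 : (g.length : ℝ) ≤ n2 + 1 := by exact_mod_cast hlen
        have h11 : 0 ≤ ind (I.live s t w) * cF := mul_nonneg (ind_nonneg _) hc
        calc _ ≤ g.length * (ind (I.live s t w) * cF) := h1
          _ ≤ (n2 + 1) * (ind (I.live s t w) * cF) := mul_le_mul_of_nonneg_right h10 h11
          _ = _ := by ring
    _ = (∑ s, ind (I.live s t w)) * ((n2 + 1) * cF) := by rw [Finset.sum_mul]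
    _ ≤ I.Λ * ((n2 + 1) * cF) := mul_le_mul_of_nonneg_right (sum_live ht w) (by positivity)

/-! ### letters and public tests -/

variable (I)

/-- letters and public tests of stage 1 -/
def alT (F : S → ℕ → C × Γ → B → V → ℝ) (Bn : S → ℕ → C × Γ → κ → List (Finset B)) (n1 : ℝ)
    (ts : ℕ → Om → List (S × (V → ℝ))) (t : ℕ) (w : Om) : Set (S × (V → ℝ)) :=
  {p | p ∈ I.al1 F Bn n1 t w ∨ p ∈ ts t w}

variable {I} {F : S → ℕ → C × Γ → B → V → ℝ} {Bn : S → ℕ → C × Γ → κ → List (Finset B)} {n1 : ℝ}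
  {η1 : ℝ} {n2 : ℕ} {R0 ε2 : ℝ} {ts : ℕ → Om → List (S × (V → ℝ))}

theorem alT_act (hts : I.Tests1 F Bn n1 η1 n2 R0 ε2 ts) (t : ℕ) (w : Om) (s' : S) (h : V → ℝ)
    (hh : (s', h) ∈ I.alT F Bn n1 ts t w) : I.act w t s' := by
  rcases hh with h1 | h1
  · exact h1.1
  · exact hts.act t w _ h1

theorem alT_fin (t : ℕ) (w : Om) (s' : S) : {h | (s', h) ∈ I.alT F Bn n1 ts t w}.Finite := by
  classical
  have h1 : (I.alT F Bn n1 ts t w).Finite := by
    refine ((I.al1_fin F Bn n1 t w).union (ts t w).toFinset.finite_toSet).subset ?_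
    rintro p (hp | hp)
    · exact Or.inl hp
    · exact Or.inr (by rw [Finset.mem_coe, List.mem_toFinset]; exact hp)
  have h2 : ((I.alT F Bn n1 ts t w).image Prod.snd).Finite := h1.image _
  refine h2.subset fun h hh => ⟨(s', h), hh, rfl⟩

/-- the entries of the run are recorded letters or public tests -/
theorem Hi_alT (hts : I.Tests1 F Bn n1 η1 n2 R0 ε2 ts) (ν : ℕ → Om → S → Prop) (t : ℕ) (w : Om) :
    ∀ p ∈ Hi η1 n2 (I.loc1 F Bn n1) ts ν t w, ∃ j, 1 ≤ j ∧ j ≤ t ∧ ν j w p.1 ∧ p ∈ I.alT F Bn n1 ts j w := by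
  have key : ∀ j ≤ t, ∀ p, ν j w p.1 → p ∈ I.alT F Bn n1 ts j w →
      ∃ j, 1 ≤ j ∧ j ≤ t ∧ ν j w p.1 ∧ p ∈ I.alT F Bn n1 ts j w := by
    intro j hj p hν hp
    refine ⟨j, ?_, hj, hν, hp⟩
    by_contra h0
    have h1 : j = 0 := by omega
    subst h1
    exact I.not_act (by have := I.tb1 p.1; omega) (alT_act hts 0 w p.1 p.2 hp)
  refine hist_mem (η := η1) (n2 := n2) (x := fun t => I.loc1 F Bn n1 t w) (ts := fun t => ts t w)
    (ν := fun t => ν t w) (T := fun p => ∃ j, 1 ≤ j ∧ j ≤ t ∧ ν j w p.1 ∧ p ∈ I.alT F Bn n1 ts j w) t ?_ ?_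
  · intro j hj p hp hν
    exact key j hj p hν (Or.inl ((I.mem_ls1 F Bn n1).1 hp))
  · intro j hj p hp hν
    exact key j hj p hν (Or.inr hp)

/-! ### the union of the bad events -/

/-- everything is good at `w` -/
structure Good (I : Inp T S) (F : S → ℕ → C × Γ → B → V → ℝ) (Bn : S → ℕ → C × Γ → κ → List (Finset B)) (n1 η1 : ℝ)
    (n2 : ℕ) (R0 : ℝ) (ts : ℕ → Om → List (S × (V → ℝ))) (Mc nN : ℝ) (Nw n4 : ℕ) (E1 E2 : ℝ)
    (L2 : S → S → ℕ → ℕ → Om → Prop) (H2 : S → S → ℕ → Om → List (V → ℝ))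
    (Z2 : S → S → ℕ → Om → V → ℝ) (w : Om) : Prop where
  /-- Lemma K -/
  key : ∀ t ≤ T.n, ∀ s, I.live s t w →
    Hi η1 n2 (I.loc1 F Bn n1) ts (I.nu1 R0 s) t w = Hi η1 n2 (I.loc1 F Bn n1) ts (fun t w => I.N1 R0 w t) t w
  /-- the run is not capped -/
  cap : ∀ t ≤ T.n, (Hi η1 n2 (I.loc1 F Bn n1) ts (fun t w => I.N1 R0 w t) t w).length ≤ n2
  /-- `b` is not lost in stage 1 -/
  nl1 : ∀ t ≤ T.n, ∀ s, I.act w t s →
    ¬ lost (fun t (g : C × Γ) => (g.1, T.par t g.2)) T.cb (Bn s) n1 t (T.c w, T.gm t w) (T.b w)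
  /-- the errors of stage 1 -/
  e1 : ∀ t ≤ T.n, ∀ s, I.act w t s →
    ¬ lost (fun t (g : C × Γ) => (g.1, T.par t g.2)) T.cb (Bn s) n1 t (T.c w, T.gm t w) (T.b w) →
    |iw (T.J t w) (I.k1 s t (T.c w, T.gm t w) (T.b w)) (I.Z1 F Bn n1 η1 n2 R0 ts s t w)| ≤ E1
  /-- few recorded references -/
  nb : ∑ r, ind (I.NB R0 w T.n r) ≤ nN
  /-- few references at `(b, c)` -/
  capc : I.capc (I.alT F Bn n1 ts) Mc T.n (T.gm T.n w) (T.b w) (T.c w)
  /-- few letters -/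
  nw : ∀ s', (T.hl (I.alT F Bn n1 ts) s' T.n (T.gm T.n w) (T.b w) (T.c w)).length ≤ Nw
  /-- `(b, c)` is not lost in stage 2 -/
  nl2 : ∀ t ≤ T.n, ∀ s s', ∀ i < Nw, I.act2 R0 nN w t s s' → ¬ L2 s s' i t w
  /-- the errors of stage 2 -/
  e2 : ∀ t ≤ T.n, ∀ s s', ∀ i < Nw, I.act2 R0 nN w t s s' → ¬ L2 s s' i t w →
    |iw (T.J t w) (I.k2 (I.alT F Bn n1 ts) Mc s s' i t (T.gm t w) (T.b w, T.c w)) (Z2 s s' t w)| ≤ E2
  /-- the runs of stage 2 are not capped -/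
  cap2 : ∀ t ≤ T.n, ∀ s s', I.live s t w → I.act2 R0 nN w t s s' → (H2 s s' t w).length ≤ n4

theorem Good.err {Mc nN : ℝ} {Nw n4 : ℕ} {E1 E2 η2 : ℝ} {L2 : S → S → ℕ → ℕ → Om → Prop}
    {H2 : S → S → ℕ → Om → List (V → ℝ)} {Z2 : S → S → ℕ → Om → V → ℝ} {w : Om} (hη : 0 < η1) (hE1 : 0 ≤ E1)
    (hE2 : 0 ≤ E2) (hts : I.Tests1 F Bn n1 η1 n2 R0 ε2 ts)
    (hZ2 : ∀ s s' t w, I.act2 R0 nN w t s s' → (H2 s s' t w).length ≤ n4 → ∀ d, Z2 s s' t w d =
      I.R.v s (T.a w) d * I.R.v s' (T.a w) d - η2 * ((H2 s s' t w).map fun h => h d).sum)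
    (G : Good I F Bn n1 η1 n2 R0 ts Mc nN Nw n4 E1 E2 L2 H2 Z2 w) {t : ℕ} (ht : t ≤ T.n) :
    |I.TT t w - I.XX η1 (fun s s' t w d => η2 * ((H2 s s' t w).map fun h => h d).sum)
      (Hi η1 n2 (I.loc1 F Bn n1) ts (fun t w => I.N1 R0 w t)) t w| ≤ I.Λ * (E1 + η1 * n2 * E2) := by
  refine concl_det (I := I) hη.le hE1 hE2 ht (G.cap t ht) ?_ ?_
  · intro s hs
    have h1 := G.e1 t ht s (live_act hs) (G.nl1 t ht s (live_act hs))
    have h2 : I.Z1 F Bn n1 η1 n2 R0 ts s t w = fun d => Er η1 n2 (I.G2 t (T.gm t w) (T.a w) (T.c w))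
        (fun r => I.R.v r (T.a w)) (Hi η1 n2 (I.loc1 F Bn n1) ts (fun t w => I.N1 R0 w t) t w) d *
        I.R.v s (T.a w) d := by
      funext d
      unfold Z1
      rw [ind_of (live_act hs), one_mul, G.key t ht s hs]
      rfl
    rwa [h2] at h1
  · intro s hs p hp
    obtain ⟨j, hj1, hjt, hrec, hal⟩ := Hi_alT hts (fun t w => I.N1 R0 w t) t w p hp
    obtain ⟨i, hi, hget⟩ := T.hl_index (I.alT F Bn n1 ts) p.1 hj1 (w := w) (h := p.2)
      (fun w => alT_fin j w p.1) hal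
    have hiN : i < Nw := by
      refine lt_of_lt_of_le ?_ (G.nw p.1)
      have h1 := (T.hl_prefix (I.alT F Bn n1 ts) p.1 (hjt.trans ht) (T.gm T.n w) (T.b w) (T.c w)).length_le
      rw [T.anc_gm (hjt.trans ht)] at h1
      exact lt_of_lt_of_le hi h1
    have ha2 : I.act2 R0 nN w t s p.1 := by
      refine ⟨live_onab hs, N1_NB_c hjt hrec, le_trans (Finset.sum_le_sum fun r _ => ?_) G.nb⟩
      exact ind_mono fun h => NB_mono_c ht h
    have h1 := G.e2 t ht s p.1 i hiN ha2 (G.nl2 t ht s p.1 i hiN ha2)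
    have h2 : I.k2 (I.alT F Bn n1 ts) Mc s p.1 i t (T.gm t w) (T.b w, T.c w) =
        fun d => I.G1 t (T.gm t w) (T.b w) (T.c w) d * I.R.u s (T.b w) d * p.2 d := by
      funext d
      unfold k2
      rw [ind_of ⟨live_intr hs, I.capc_anti ht G.capc⟩, one_mul, hget t hjt]
    have h3 : Z2 s p.1 t w = fun d => I.R.v s (T.a w) d * I.R.v p.1 (T.a w) d -
        η2 * ((H2 s p.1 t w).map fun h => h d).sum := by
      funext d
      exact hZ2 s p.1 t w ha2 (G.cap2 t ht s p.1 hs ha2) d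
    rwa [h2, h3] at h1

/-- probability of a union -/
theorem _root_.Pool.Agent.M3.S2.pr_or {Om : Type} [Fintype Om] (P : FP Om) {E1 E2 : Om → Prop} {q1 q2 : ℝ}
    (h1 : P.Pr E1 ≤ q1) (h2 : P.Pr E2 ≤ q2) : P.Pr (fun w => E1 w ∨ E2 w) ≤ q1 + q2 := by
  have h3 : P.Pr (fun w => E1 w ∨ E2 w) ≤ P.Pr E1 + P.Pr E2 := by
    unfold FP.Pr
    rw [← P.E_add]
    exact P.E_mono fun w _ => ind_or_le _ _
  linarith

/-- **CONCLUSION OF SECTION 2** : the union of the bad events -/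
theorem concl {Mc nN : ℝ} {Nw n4 : ℕ} {E1 E2 η2 : ℝ} {L2 : S → S → ℕ → ℕ → Om → Prop}
    {H2 : S → S → ℕ → Om → List (V → ℝ)} {Z2 : S → S → ℕ → Om → V → ℝ} (hη : 0 < η1) (hE1 : 0 ≤ E1)
    (hE2 : 0 ≤ E2) (hts : I.Tests1 F Bn n1 η1 n2 R0 ε2 ts)
    (hZ2 : ∀ s s' t w, I.act2 R0 nN w t s s' → (H2 s s' t w).length ≤ n4 → ∀ d, Z2 s s' t w d =
      I.R.v s (T.a w) d * I.R.v s' (T.a w) d - η2 * ((H2 s s' t w).map fun h => h d).sum)
    {q1 q2 q3 q4 q5 q6 q7 q8 q9 q10 : ℝ}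
    (h1 : T.P.Pr (fun w => ∃ t ≤ T.n, ∃ s, I.live s t w ∧ Hi η1 n2 (I.loc1 F Bn n1) ts (I.nu1 R0 s) t w ≠
      Hi η1 n2 (I.loc1 F Bn n1) ts (fun t w => I.N1 R0 w t) t w) ≤ q1)
    (h2 : T.P.Pr (fun w => ∃ t ≤ T.n,
      n2 < (Hi η1 n2 (I.loc1 F Bn n1) ts (fun t w => I.N1 R0 w t) t w).length) ≤ q2)
    (h3 : T.P.Pr (fun w => ∃ s, ∃ t ≤ T.n, I.act w t s ∧
      lost (fun t (g : C × Γ) => (g.1, T.par t g.2)) T.cb (Bn s) n1 t (T.c w, T.gm t w) (T.b w)) ≤ q3)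
    (h4 : T.P.Pr (fun w => ∃ s, ∃ t ≤ T.n, I.act w t s ∧
      ¬ lost (fun t (g : C × Γ) => (g.1, T.par t g.2)) T.cb (Bn s) n1 t (T.c w, T.gm t w) (T.b w) ∧
      E1 < |iw (T.J t w) (I.k1 s t (T.c w, T.gm t w) (T.b w)) (I.Z1 F Bn n1 η1 n2 R0 ts s t w)|) ≤ q4)
    (h5 : T.P.Pr (fun w => nN < ∑ r, ind (I.NB R0 w T.n r)) ≤ q5)
    (h6 : T.P.Pr (fun w => ¬ I.capc (I.alT F Bn n1 ts) Mc T.n (T.gm T.n w) (T.b w) (T.c w)) ≤ q6)
    (h7 : T.P.Pr (fun w => ∃ s', Nw < (T.hl (I.alT F Bn n1 ts) s' T.n (T.gm T.n w) (T.b w) (T.c w)).length) ≤ q7)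
    (h8 : T.P.Pr (fun w => ∃ s s', ∃ i < Nw, ∃ t ≤ T.n, I.act2 R0 nN w t s s' ∧ L2 s s' i t w) ≤ q8)
    (h9 : T.P.Pr (fun w => ∃ s s', ∃ i < Nw, ∃ t ≤ T.n, I.act2 R0 nN w t s s' ∧ ¬ L2 s s' i t w ∧
      E2 < |iw (T.J t w) (I.k2 (I.alT F Bn n1 ts) Mc s s' i t (T.gm t w) (T.b w, T.c w)) (Z2 s s' t w)|) ≤ q9)
    (h10 : T.P.Pr (fun w => ∃ s s', ∃ t ≤ T.n, I.live s t w ∧ I.act2 R0 nN w t s s' ∧
      n4 < (H2 s s' t w).length) ≤ q10) :
    T.P.Pr (fun w => ∃ t ≤ T.n, I.Λ * (E1 + η1 * n2 * E2) < |I.TT t w - I.XX η1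
      (fun s s' t w d => η2 * ((H2 s s' t w).map fun h => h d).sum)
      (Hi η1 n2 (I.loc1 F Bn n1) ts (fun t w => I.N1 R0 w t)) t w|) ≤
      q1 + q2 + q3 + q4 + q5 + q6 + q7 + q8 + q9 + q10 := by
  have hu := pr_or T.P (pr_or T.P (pr_or T.P (pr_or T.P (pr_or T.P (pr_or T.P (pr_or T.P (pr_or T.P (pr_or T.P
    h1 h2) h3) h4) h5) h6) h7) h8) h9) h10
  refine le_trans (T.P.Pr_mono fun w _ hbad => ?_) hu
  obtain ⟨t, ht, hbig⟩ := hbad
  by_contra hno
  push Not at hno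
  obtain ⟨⟨⟨⟨⟨⟨⟨⟨⟨g1, g2⟩, g3⟩, g4⟩, g5⟩, g6⟩, g7⟩, g8⟩, g9⟩, g10⟩ := hno
  have G : Good I F Bn n1 η1 n2 R0 ts Mc nN Nw n4 E1 E2 L2 H2 Z2 w :=
    { key := fun t ht s hs => g1 t ht s hs
      cap := fun t ht => g2 t ht
      nl1 := fun t ht s ha => g3 s t ht ha
      e1 := fun t ht s ha hl => g4 s t ht ha hl
      nb := g5
      capc := g6
      nw := fun s' => g7 s'
      nl2 := fun t ht s s' i hi ha => g8 s s' i hi t ht ha
      e2 := fun t ht s s' i hi ha hl => g9 s s' i hi t ht ha hl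
      cap2 := fun t ht s s' hs ha => g10 s s' t ht hs ha }
  exact absurd (G.err hη hE1 hE2 hts hZ2 ht) (not_le.2 hbig)

end Inp

end

end Pool.Agent.M3.S2
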