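import Pool.Agent.M3.S2.Sys
import Pool.Agent.M3.TSNames
import Pool.Agent.M3.S1Tail

/-!
# M3/S2/NamT (helper65): names with tails in the form `NOut` (Lemma N)

Base: `names_rec` of `TSNames` (births and names at all nodes, with the energy inequality at every node and every
vertex).  `names_tail`: if `U` moves at most `p1` times along every path then, with `n1 = (j + 1) 96 (p1 + 1) / η²`,
more than `n1` births have probability at most `2^-j` times the probability that `U` is ever nonzero.
-/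

set_option autoImplicit false
set_option linter.unusedSectionVars false

namespace Pool.Agent.M3.S2

open Finset Pool.Agent.PWZ Pool.Agent.M3.TS

noncomputable section

/-! ### tails with a factor -/

section tail

variable {Om : Type} [Fintype Om] (P : FP Om) {κ : ℕ → Type} {X : ∀ t, Om → κ t}

/-- one step of the exponential tail: `P (c + (j + 2K) ≤ Z) ≤ P (c ≤ Z) / 2` for `c ≥ 0` -/
theorem tail_step (hX : Filt X) {Z : ℕ → Om → ℝ} (hZ : ∀ t, Fac (X t) (Z t))
    (hmono : ∀ n w, Z n w ≤ Z (n + 1) w) {j K : ℝ} (h0 : ∀ w, Z 0 w ≤ j)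
    (hj : ∀ n w, Z (n + 1) w - Z n w ≤ j) (hK : 0 < K) (Nm : ℕ)
    (hfut : ∀ n ≤ Nm, ∀ f : Om → ℝ, Fac (X n) f → (∀ w, 0 ≤ f w) →
      P.E (fun w => f w * (Z Nm w - Z n w)) ≤ K * P.E f) {c : ℝ} (hc : 0 ≤ c) :
    2 * P.Pr (fun w => c + (j + 2 * K) ≤ Z Nm w) ≤ P.Pr (fun w => c ≤ Z Nm w) := by
  have hmono' : ∀ m n w, m ≤ n → Z m w ≤ Z n w := by
    intro m n w hmn
    induction n, hmn using Nat.le_induction with
    | base => exact le_rfl
    | succ n _ ih => exact ih.trans (hmono n w)
  have hj0 : ∀ w, 0 ≤ j := fun w => by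
    have h6 := hj Nm w
    have h7 := hmono Nm w
    linarith
  have hpt : ∀ w, 2 * K * ind (c + (j + 2 * K) ≤ Z Nm w) ≤
      ∑ n ∈ range (Nm + 1), ind (FP.fst Z c n w) * (Z Nm w - Z n w) := by
    intro w
    by_cases h : c + (j + 2 * K) ≤ Z Nm w
    · rw [ind_of h, mul_one]
      have hreach : c ≤ Z Nm w := by
        have := hj0 w
        linarith
      have hex : ∃ n, c ≤ Z n w := ⟨Nm, hreach⟩
      classical
      set n0 := Nat.find hex with hn0
      have h1 : c ≤ Z n0 w := Nat.find_spec hex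
      have h2 : ∀ m < n0, Z m w < c := fun m hm => not_le.1 (Nat.find_min hex hm)
      have h3 : n0 ≤ Nm := Nat.find_min' hex hreach
      have hf : FP.fst Z c n0 w := ⟨h1, h2⟩
      have h4 : Z n0 w ≤ c + j := by
        rcases Nat.eq_zero_or_pos n0 with hz | hz
        · rw [hz] at h1 ⊢
          have h5 := h0 w
          linarith
        · have h5 := h2 (n0 - 1) (by omega)
          have h6 := hj (n0 - 1) w
          have h7 : n0 - 1 + 1 = n0 := by omega
          rw [h7] at h6
          linarith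
      have h8 : ind (FP.fst Z c n0 w) * (Z Nm w - Z n0 w) ≤
          ∑ n ∈ range (Nm + 1), ind (FP.fst Z c n w) * (Z Nm w - Z n w) := by
        refine Finset.single_le_sum (f := fun n => ind (FP.fst Z c n w) * (Z Nm w - Z n w)) (fun n hn => ?_)
          (Finset.mem_range.2 (by omega))
        refine mul_nonneg (ind_nonneg _) ?_
        have := hmono' n Nm w (by have := Finset.mem_range.1 hn; omega)
        linarith
      rw [ind_of hf, one_mul] at h8
      linarith
    · rw [ind_not h, mul_zero]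
      refine Finset.sum_nonneg (fun n hn => mul_nonneg (ind_nonneg _) ?_)
      have := hmono' n Nm w (by have := Finset.mem_range.1 hn; omega)
      linarith
  have h1 : 2 * K * P.Pr (fun w => c + (j + 2 * K) ≤ Z Nm w) ≤
      ∑ n ∈ range (Nm + 1), P.E (fun w => ind (FP.fst Z c n w) * (Z Nm w - Z n w)) := by
    unfold FP.Pr
    rw [← P.E_smul, ← P.E_sum]
    exact P.E_mono (fun w _ => hpt w)
  have h2 : ∑ n ∈ range (Nm + 1), P.E (fun w => ind (FP.fst Z c n w) * (Z Nm w - Z n w)) ≤
      ∑ n ∈ range (Nm + 1), K * P.E (fun w => ind (FP.fst Z c n w)) :=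
    Finset.sum_le_sum (fun n hn => hfut n (by have := Finset.mem_range.1 hn; omega) _
      (FP.fst_fac hX hZ c n) (fun w => ind_nonneg _))
  have h3 : ∑ n ∈ range (Nm + 1), K * P.E (fun w => ind (FP.fst Z c n w)) =
      K * P.Pr (fun w => c ≤ Z Nm w) := by
    rw [← Finset.mul_sum, ← P.E_sum]
    congr 1
    unfold FP.Pr
    exact P.E_congr (fun w _ => FP.ind_fst_sum hmono c Nm w)
  have h5 : K * (2 * P.Pr (fun w => c + (j + 2 * K) ≤ Z Nm w)) ≤ K * P.Pr (fun w => c ≤ Z Nm w) := by
    linarith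
  exact le_of_mul_le_mul_left h5 hK

/-- exponential tail with the factor `P (0 < Z)` -/
theorem tail_factor (hX : Filt X) {Z : ℕ → Om → ℝ} (hZ : ∀ t, Fac (X t) (Z t))
    (hmono : ∀ n w, Z n w ≤ Z (n + 1) w) {j K : ℝ} (h0 : ∀ w, Z 0 w ≤ j)
    (hj : ∀ n w, Z (n + 1) w - Z n w ≤ j) (hj0 : 0 ≤ j) (hK : 0 < K) (Nm : ℕ)
    (hfut : ∀ n ≤ Nm, ∀ f : Om → ℝ, Fac (X n) f → (∀ w, 0 ≤ f w) →
      P.E (fun w => f w * (Z Nm w - Z n w)) ≤ K * P.E f) (k : ℕ) :
    P.Pr (fun w => ((k : ℝ) + 1) * (j + 2 * K) ≤ Z Nm w) ≤ (1 / 2) ^ k * P.Pr (fun w => 0 < Z Nm w) := by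
  induction k with
  | zero =>
    rw [pow_zero, one_mul]
    refine P.Pr_mono fun w _ h => ?_
    have : 0 < ((0 : ℕ) + 1 : ℝ) * (j + 2 * K) := by
      rw [Nat.cast_zero, zero_add, one_mul]
      linarith
    exact lt_of_lt_of_le this h
  | succ k ih =>
    have h1 := tail_step P hX hZ hmono h0 hj hK Nm hfut (c := ((k : ℝ) + 1) * (j + 2 * K))
      (by positivity)
    have h2 : (((k + 1 : ℕ) : ℝ) + 1) * (j + 2 * K) = ((k : ℝ) + 1) * (j + 2 * K) + (j + 2 * K) := by
      push_cast
      ring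
    rw [h2, pow_succ]
    linarith

end tail

/-! ### ancestors and cumulative births -/

section names

variable {Om 𝒳 V Γ κ : Type} [Fintype Om] [Fintype 𝒳] [Fintype V] {P : FP Om} {X : Om → 𝒳} {n : ℕ}
  {nd : ℕ → Om → Γ} {cl : ℕ → 𝒳 → κ} {ρ : ℕ → Γ → V → ℝ} {par : ℕ → Γ → Γ}

theorem anc_nd (hp : ∀ t w, par t (nd (t + 1) w) = nd t w) {t j : ℕ} (h : j ≤ t) (w : Om) :
    anc par t (nd t w) j = nd j w := by
  induction t with
  | zero =>
    have : j = 0 := by omega
    subst this
    rfl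
  | succ t ih =>
    rcases Nat.lt_or_ge t j with h1 | h1
    · have : j = t + 1 := by omega
      subst this
      exact anc_self _ _ _
    · rw [anc_succ _ h1, hp]
      exact ih h1

theorem filt_nd (hp : ∀ t w, par t (nd (t + 1) w) = nd t w) :
    Filt (fun t => fun w : Om => (X w, nd t w)) := by
  intro t v w h
  have h1 : X v = X w := congrArg Prod.fst h
  have h2 : nd (t + 1) v = nd (t + 1) w := congrArg Prod.snd h
  show (X v, nd t v) = (X w, nd t w)
  rw [← hp t v, ← hp t w, h1, h2]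

theorem cumB_nd (hp : ∀ t w, par t (nd (t + 1) w) = nd t w) (B : ℕ → Γ → κ → List (Finset 𝒳)) (t : ℕ) (w : Om)
    (x : 𝒳) : cumB par cl B t (nd t w) x = ∑ j ∈ range (t + 1), cnt (B j (nd j w) (cl j x)) x := by
  unfold cumB
  refine Finset.sum_congr rfl fun j hj => ?_
  rw [anc_nd hp (by have := Finset.mem_range.1 hj; omega) w]

private theorem cumB_ge0 (B : ℕ → Γ → κ → List (Finset 𝒳)) (t : ℕ) (g : Γ) (x : 𝒳) : 0 ≤ cumB par cl B t g x :=
  Finset.sum_nonneg fun _ _ => cnt_nonneg _ _

theorem not_mem_of_cnt (L : List (Finset 𝒳)) (x : 𝒳) (h : cnt L x = 0) : ∀ S ∈ L, x ∉ S := by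
  induction L with
  | nil => intro S hS; exact absurd hS List.not_mem_nil
  | cons S0 L ih =>
    rw [cnt_cons] at h
    have h1 := ind_nonneg (x ∈ S0)
    have h2 := cnt_nonneg L x
    intro S hS
    rcases List.mem_cons.1 hS with h3 | h3
    · rw [h3]
      intro h4
      rw [ind_of h4] at h
      linarith
    · exact ih (by linarith) S h3

/-- the energy of the error at a node -/
def ener (ρ : ℕ → Γ → V → ℝ) (U F : ℕ → Γ → 𝒳 → V → ℝ) (t : ℕ) (g : Γ) (x : 𝒳) : ℝ :=
  iw (ρ t g) (fun c => U t g x c - F t g x c) (fun c => U t g x c - F t g x c)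

theorem ener_nonneg (hρ : ∀ t g, Wt (ρ t g)) (U F : ℕ → Γ → 𝒳 → V → ℝ) (t : ℕ) (g : Γ) (x : 𝒳) :
    0 ≤ ener ρ U F t g x := iw_self_nonneg (hρ t g) _

theorem iw_le_four {r : V → ℝ} (hr : Wt r) {f g : V → ℝ} (hf : ∀ c, |f c| ≤ 1) (hg : ∀ c, |g c| ≤ 1) :
    iw r (fun c => f c - g c) (fun c => f c - g c) ≤ 4 := by
  have hb : ∀ c, |f c - g c| ≤ 2 := fun c => by
    have h2 := hf c
    have h3 := hg c
    rw [abs_le] at h2 h3 ⊢
    constructor <;> linarith [h2.1, h2.2, h3.1, h3.2]
  have h1 := abs_iw_le hr (fun c => f c - g c) (fun c => f c - g c) (by norm_num : (0 : ℝ) ≤ 2)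
    (by norm_num : (0 : ℝ) ≤ 2) hb hb
  have h2 := (le_abs_self _).trans h1
  linarith

/-- **Lemma N**: names with tails -/
theorem names_tail (hS : Side P X n nd cl ρ par) (U : ℕ → Γ → 𝒳 → V → ℝ) (hU : ∀ t g x c, |U t g x c| ≤ 1)
    (hU0 : ∀ g x c, U 0 g x c = 0) (p1 : ℝ)
    (hp1 : ∀ w, ∑ t ∈ range n, ind (U (t + 1) (nd (t + 1) w) (X w) ≠ U t (nd t w) (X w)) ≤ p1)
    {η ε : ℝ} (hη : 0 < η) (hε : 0 < ε) (j : ℕ) (n1 : ℝ) (hn1 : ((j : ℝ) + 1) * (96 * (p1 + 1) / η ^ 2) ≤ n1) :
    ∃ (F : ℕ → Γ → 𝒳 → V → ℝ) (Bn : ℕ → Γ → κ → List (Finset 𝒳)),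
      NOut P X n nd cl ρ par U F Bn η ε n1 ((1 / 2) ^ j) := by
  obtain ⟨F, B, hF0, hB0, hF1, hR⟩ := names_rec hS.wt cl par U hU hη hε
  have hp := hS.par_nd
  have hη2 : (0 : ℝ) < η ^ 2 := by positivity
  -- the energy inequality along a path
  have hen : ∀ t w, ener ρ U F (t + 1) (nd (t + 1) w) (X w) +
      η ^ 2 / 8 * cnt (B (t + 1) (nd (t + 1) w) (cl (t + 1) (X w))) (X w) ≤
      iw (ρ (t + 1) (nd (t + 1) w)) (fun c => U (t + 1) (nd (t + 1) w) (X w) c - F t (nd t w) (X w) c)
        (fun c => U (t + 1) (nd (t + 1) w) (X w) c - F t (nd t w) (X w) c) := by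
    intro t w
    have := (hR t (nd (t + 1) w) (cl (t + 1) (X w))).2.2.2.2.2 (X w) rfl
    rw [hp] at this
    exact this
  have hstay : ∀ t w, (∀ S ∈ B (t + 1) (nd (t + 1) w) (cl (t + 1) (X w)), X w ∉ S) →
      F (t + 1) (nd (t + 1) w) (X w) = F t (nd t w) (X w) := by
    intro t w hx
    have := (hR t (nd (t + 1) w) (cl (t + 1) (X w))).1 (X w) rfl hx
    rw [this, hp]
  -- the counter
  set Z : ℕ → Om → ℝ := fun t w => ∑ s ∈ range t, cnt (B (s + 1) (nd (s + 1) w) (cl (s + 1) (X w))) (X w) with hZ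
  have hcum : ∀ t w, cumB par cl B t (nd t w) (X w) = Z t w := by
    intro t w
    rw [cumB_nd hp, Finset.sum_range_succ', hB0]
    show _ + cnt [] (X w) = _
    rw [cnt_nil, add_zero]
  have hcap : ∀ t w, cnt (B (t + 1) (nd (t + 1) w) (cl (t + 1) (X w))) (X w) ≤ 32 / η ^ 2 := by
    intro t w
    have h1 := hen t w
    have h2 := ener_nonneg hS.wt U F (t + 1) (nd (t + 1) w) (X w)
    have h3 := iw_le_four (hS.wt (t + 1) (nd (t + 1) w)) (hU (t + 1) (nd (t + 1) w) (X w)) (hF1 t (nd t w) (X w))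
    rw [le_div_iff₀ hη2]
    linarith
  have hmono : ∀ t w, Z t w ≤ Z (t + 1) w := by
    intro t w
    rw [hZ]
    simp only
    rw [Finset.sum_range_succ]
    have := cnt_nonneg (B (t + 1) (nd (t + 1) w) (cl (t + 1) (X w))) (X w)
    linarith
  have hjump : ∀ t w, Z (t + 1) w - Z t w ≤ 32 / η ^ 2 := by
    intro t w
    rw [hZ]
    simp only
    rw [Finset.sum_range_succ]
    have := hcap t w
    linarith
  have hZ0 : ∀ w, Z 0 w ≤ 32 / η ^ 2 := by
    intro w
    rw [hZ]
    simp only [Finset.sum_range_zero]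
    positivity
  have hfac : ∀ t, Fac (fun w => (X w, nd t w)) (Z t) := by
    intro t v w h
    have h1 : X v = X w := congrArg Prod.fst h
    have h2 : nd t v = nd t w := congrArg Prod.snd h
    rw [← hcum, ← hcum, h1, h2]
  have hp0 : 0 ≤ p1 := by
    have hne : ∃ w, P.p w ≠ 0 := by
      by_contra h
      push Not at h
      have := P.tot
      rw [Finset.sum_congr rfl (fun w _ => h w), Finset.sum_const_zero] at this
      exact absurd this (by norm_num)
    obtain ⟨w, _⟩ := hne
    exact (Finset.sum_nonneg fun t _ => ind_nonneg _).trans (hp1 w)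
  -- one step of the weighted energy
  have hone : ∀ s, ∀ f : Om → ℝ, Fac (fun w => (X w, nd s w)) f → (∀ w, 0 ≤ f w) → ∀ t, s ≤ t → t < n →
      P.E (fun w => f w * ener ρ U F (t + 1) (nd (t + 1) w) (X w)) + η ^ 2 / 8 *
        P.E (fun w => f w * cnt (B (t + 1) (nd (t + 1) w) (cl (t + 1) (X w))) (X w)) ≤
      P.E (fun w => f w * ener ρ U F t (nd t w) (X w)) +
        4 * P.E (fun w => f w * ind (U (t + 1) (nd (t + 1) w) (X w) ≠ U t (nd t w) (X w))) := by
    intro s f hf hf0 t hst ht
    have e2 : P.E (fun w => f w * ener ρ U F (t + 1) (nd (t + 1) w) (X w)) + η ^ 2 / 8 *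
        P.E (fun w => f w * cnt (B (t + 1) (nd (t + 1) w) (cl (t + 1) (X w))) (X w)) ≤
        P.E (fun w => ∑ c, ρ (t + 1) (nd (t + 1) w) c *
          (f w * (U t (nd t w) (X w) c - F t (nd t w) (X w) c) ^ 2)) +
        4 * P.E (fun w => f w * ind (U (t + 1) (nd (t + 1) w) (X w) ≠ U t (nd t w) (X w))) := by
      rw [← P.E_smul, ← P.E_smul, ← P.E_add, ← P.E_add]
      refine P.E_mono fun w _ => ?_
      have h0 := mul_le_mul_of_nonneg_left (hen t w) (hf0 w)
      have h1 : iw (ρ (t + 1) (nd (t + 1) w)) (fun c => U (t + 1) (nd (t + 1) w) (X w) c - F t (nd t w) (X w) c)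
          (fun c => U (t + 1) (nd (t + 1) w) (X w) c - F t (nd t w) (X w) c) ≤
          ∑ c, ρ (t + 1) (nd (t + 1) w) c * (U t (nd t w) (X w) c - F t (nd t w) (X w) c) ^ 2 +
            4 * ind (U (t + 1) (nd (t + 1) w) (X w) ≠ U t (nd t w) (X w)) := by
        by_cases h : U (t + 1) (nd (t + 1) w) (X w) ≠ U t (nd t w) (X w)
        · rw [ind_of h]
          have h4 := iw_le_four (hS.wt (t + 1) (nd (t + 1) w)) (hU (t + 1) (nd (t + 1) w) (X w))
            (hF1 t (nd t w) (X w))
          have h5 : 0 ≤ ∑ c, ρ (t + 1) (nd (t + 1) w) c * (U t (nd t w) (X w) c - F t (nd t w) (X w) c) ^ 2 :=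
            Finset.sum_nonneg fun c _ => mul_nonneg ((hS.wt _ _).nn c) (sq_nonneg _)
          linarith
        · rw [ind_not h]
          rw [not_not] at h
          rw [h, mul_zero, add_zero]
          unfold iw
          refine le_of_eq (Finset.sum_congr rfl fun c _ => ?_)
          ring
      have h2 := mul_le_mul_of_nonneg_left h1 (hf0 w)
      have h3 : ∑ c, ρ (t + 1) (nd (t + 1) w) c *
          (f w * (U t (nd t w) (X w) c - F t (nd t w) (X w) c) ^ 2) =
          f w * ∑ c, ρ (t + 1) (nd (t + 1) w) c * (U t (nd t w) (X w) c - F t (nd t w) (X w) c) ^ 2 := by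
        rw [Finset.mul_sum]
        exact Finset.sum_congr rfl fun c _ => by ring
      rw [h3]
      nlinarith [h0, h2]
    have e3 := E_mart hS ht (fun w c => f w * (U t (nd t w) (X w) c - F t (nd t w) (X w) c) ^ 2)
      (fun c v w h => by
        have h1 : X v = X w := congrArg Prod.fst h
        have h2 : nd t v = nd t w := congrArg Prod.snd h
        have h3 : f v = f w := (filt_nd (X := X) hp).le hst |>.trans hf v w h
        show f v * (U t (nd t v) (X v) c - F t (nd t v) (X v) c) ^ 2 = _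
        rw [h1, h2, h3])
    have e4 : P.E (fun w => ∑ c, ρ t (nd t w) c *
        (f w * (U t (nd t w) (X w) c - F t (nd t w) (X w) c) ^ 2)) =
        P.E (fun w => f w * ener ρ U F t (nd t w) (X w)) := by
      refine P.E_congr fun w _ => ?_
      unfold ener iw
      rw [Finset.mul_sum]
      exact Finset.sum_congr rfl fun c _ => by ring
    rw [e4] at e3
    linarith
  -- conditional budget
  have hbud : ∀ s, ∀ f : Om → ℝ, Fac (fun w => (X w, nd s w)) f → (∀ w, 0 ≤ f w) → ∀ k, s + k ≤ n →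
      P.E (fun w => f w * ener ρ U F (s + k) (nd (s + k) w) (X w)) + η ^ 2 / 8 *
        P.E (fun w => f w * (Z (s + k) w - Z s w)) ≤
      P.E (fun w => f w * ener ρ U F s (nd s w) (X w)) +
        4 * P.E (fun w => f w * ∑ t ∈ Finset.Ico s (s + k),
          ind (U (t + 1) (nd (t + 1) w) (X w) ≠ U t (nd t w) (X w))) := by
    intro s f hf hf0 k
    induction k with
    | zero =>
      intro _
      have h0 : P.E (fun _ : Om => (0 : ℝ)) = 0 := P.E_const 0
      simp [h0]
    | succ k ih =>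
      intro hk
      have h1 := ih (by omega)
      have h2 := hone s f hf hf0 (s + k) (by omega) (by omega)
      have h3 : P.E (fun w => f w * (Z (s + (k + 1)) w - Z s w)) = P.E (fun w => f w * (Z (s + k) w - Z s w)) +
          P.E (fun w => f w * cnt (B (s + k + 1) (nd (s + k + 1) w) (cl (s + k + 1) (X w))) (X w)) := by
        rw [← P.E_add]
        refine P.E_congr fun w _ => ?_
        have : Z (s + (k + 1)) w = Z (s + k) w +
            cnt (B (s + k + 1) (nd (s + k + 1) w) (cl (s + k + 1) (X w))) (X w) := by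
          rw [hZ]
          simp only
          rw [show s + (k + 1) = s + k + 1 by ring, Finset.sum_range_succ]
        rw [this]
        ring
      have h4 : P.E (fun w => f w * ∑ t ∈ Finset.Ico s (s + (k + 1)),
          ind (U (t + 1) (nd (t + 1) w) (X w) ≠ U t (nd t w) (X w))) =
          P.E (fun w => f w * ∑ t ∈ Finset.Ico s (s + k),
            ind (U (t + 1) (nd (t + 1) w) (X w) ≠ U t (nd t w) (X w))) +
          P.E (fun w => f w * ind (U (s + k + 1) (nd (s + k + 1) w) (X w) ≠ U (s + k) (nd (s + k) w) (X w))) := by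
        rw [← P.E_add]
        refine P.E_congr fun w _ => ?_
        rw [show s + (k + 1) = s + k + 1 by ring, Finset.sum_Ico_succ_top (by omega)]
        ring
      rw [h3, h4, show s + (k + 1) = s + k + 1 by ring]
      linarith
  have hfut : ∀ s ≤ n, ∀ f : Om → ℝ, Fac (fun w => (X w, nd s w)) f → (∀ w, 0 ≤ f w) →
      P.E (fun w => f w * (Z n w - Z s w)) ≤ (32 * (p1 + 1) / η ^ 2) * P.E f := by
    intro s hs f hf hf0
    have h1 := hbud s f hf hf0 (n - s) (by omega)
    rw [show s + (n - s) = n by omega] at h1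
    have h2 : 0 ≤ P.E (fun w => f w * ener ρ U F n (nd n w) (X w)) :=
      P.E_nonneg fun w _ => mul_nonneg (hf0 w) (ener_nonneg hS.wt _ _ _ _ _)
    have h3 : P.E (fun w => f w * ener ρ U F s (nd s w) (X w)) ≤ 4 * P.E f := by
      rw [← P.E_smul]
      refine P.E_mono fun w _ => ?_
      have := mul_le_mul_of_nonneg_left (iw_le_four (hS.wt s (nd s w)) (hU s (nd s w) (X w)) (hF1 s (nd s w) (X w)))
        (hf0 w)
      unfold ener
      linarith
    have h4 : P.E (fun w => f w * ∑ t ∈ Finset.Ico s n,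
        ind (U (t + 1) (nd (t + 1) w) (X w) ≠ U t (nd t w) (X w))) ≤ p1 * P.E f := by
      rw [← P.E_smul]
      refine P.E_mono fun w _ => ?_
      have h5 : ∑ t ∈ Finset.Ico s n, ind (U (t + 1) (nd (t + 1) w) (X w) ≠ U t (nd t w) (X w)) ≤ p1 := by
        refine le_trans ?_ (hp1 w)
        rw [Finset.range_eq_Ico]
        exact Finset.sum_le_sum_of_subset_of_nonneg (Finset.Ico_subset_Ico_left (Nat.zero_le s))
          (fun t _ _ => ind_nonneg _)
      have := mul_le_mul_of_nonneg_left h5 (hf0 w)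
      linarith
    rw [div_mul_eq_mul_div, le_div_iff₀ hη2]
    linarith
  -- nothing happens before `U` is introduced
  have hbefore : ∀ w t, (∀ s ≤ t, U s (nd s w) (X w) = 0) → Z t w = 0 ∧ F t (nd t w) (X w) = 0 := by
    intro w t
    induction t with
    | zero =>
      intro _
      refine ⟨?_, ?_⟩
      · rw [hZ]; simp
      · funext c
        exact hF0 _ _ c
    | succ t ih =>
      intro hs
      obtain ⟨h1, h2⟩ := ih (fun s hs' => hs s (by omega))
      have h3 := hen t w
      have h4 : iw (ρ (t + 1) (nd (t + 1) w))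
          (fun c => U (t + 1) (nd (t + 1) w) (X w) c - F t (nd t w) (X w) c)
          (fun c => U (t + 1) (nd (t + 1) w) (X w) c - F t (nd t w) (X w) c) = 0 := by
        unfold iw
        refine Finset.sum_eq_zero fun c _ => ?_
        rw [hs (t + 1) le_rfl, h2]
        simp
      have h5 := ener_nonneg hS.wt U F (t + 1) (nd (t + 1) w) (X w)
      have h6 := cnt_nonneg (B (t + 1) (nd (t + 1) w) (cl (t + 1) (X w))) (X w)
      have h7 : cnt (B (t + 1) (nd (t + 1) w) (cl (t + 1) (X w))) (X w) = 0 := by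
        refine le_antisymm ?_ h6
        by_contra hc
        push Not at hc
        have : 0 < η ^ 2 / 8 * cnt (B (t + 1) (nd (t + 1) w) (cl (t + 1) (X w))) (X w) := by positivity
        linarith
      refine ⟨?_, ?_⟩
      · have : Z (t + 1) w = Z t w + cnt (B (t + 1) (nd (t + 1) w) (cl (t + 1) (X w))) (X w) := by
          rw [hZ]
          simp only
          rw [Finset.sum_range_succ]
        rw [this, h1, h7, add_zero]
      · rw [hstay t w (not_mem_of_cnt _ _ h7), h2]
  have hintro : ∀ w, 0 < Z n w → ∃ t ≤ n, U t (nd t w) (X w) ≠ 0 := by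
    intro w h
    by_contra hc
    push Not at hc
    rw [(hbefore w n hc).1] at h
    exact absurd h (lt_irrefl _)
  refine ⟨F, B, ⟨hF0, hB0, hF1, ⟨?_, ?_, ?_⟩, ?_, ?_, ?_, ?_, ?_, ?_⟩⟩
  · intro w w' x x'
    funext c
    rw [hF0, hF0]
  · intro t _ w x hx
    have := (hR t (nd (t + 1) w) (cl (t + 1) x)).1 x rfl hx
    rw [this, hp]
  · intro t _ w x x' hk h h'
    have := (hR t (nd (t + 1) w) (cl (t + 1) x)).2.1 x x' rfl hk.symm
    rw [hp] at this
    exact this h h'
  · intro t _ w k
    cases t with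
    | zero =>
      intro w' _
      have : ∀ x ∈ cel (cl 0) k, ind (η < |iw (ρ 0 (nd 0 w)) (fun c => U 0 (nd 0 w) x c - F 0 (nd 0 w) x c) w'|) =
          0 := by
        intro x _
        refine ind_not ?_
        have h : iw (ρ 0 (nd 0 w)) (fun c => U 0 (nd 0 w) x c - F 0 (nd 0 w) x c) w' = 0 := by
          unfold iw
          refine Finset.sum_eq_zero fun c _ => ?_
          simp only [hU0, hF0]
          ring
        rw [h, abs_zero]
        exact not_lt.2 hη.le
      rw [Finset.sum_congr rfl this, Finset.sum_const_zero]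
      positivity
    | succ t => exact (hR t (nd (t + 1) w) k).2.2.1
  · intro t g k
    cases t with
    | zero =>
      intro S hS'
      rw [hB0] at hS'
      exact absurd hS' List.not_mem_nil
    | succ t => exact fun S h => (hR t g k).2.2.2.1 S h
  · intro t g k
    cases t with
    | zero =>
      intro S hS'
      rw [hB0] at hS'
      exact absurd hS' List.not_mem_nil
    | succ t => exact fun S h => (hR t g k).2.2.2.2.1 S h
  · -- mean
    have h1 := hbud 0 (fun _ => 1) (fun _ _ _ => rfl) (fun _ => zero_le_one) n (by omega)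
    rw [zero_add] at h1
    simp only [one_mul] at h1
    have h2 : 0 ≤ P.E (fun w => ener ρ U F n (nd n w) (X w)) :=
      P.E_nonneg fun w _ => ener_nonneg hS.wt _ _ _ _ _
    have h3 : P.E (fun w => ener ρ U F 0 (nd 0 w) (X w)) = 0 := by
      rw [show (fun w => ener ρ U F 0 (nd 0 w) (X w)) = fun _ => (0 : ℝ) from by
        funext w
        unfold ener iw
        refine Finset.sum_eq_zero fun c _ => ?_
        simp only [hU0, hF0]
        ring]
      exact P.E_const 0
    have h4 : P.E (fun w => Z n w - Z 0 w) = births P X n nd cl B := by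
      unfold births
      rw [← P.E_sum]
      refine P.E_congr fun w _ => ?_
      rw [hZ]
      simp
    have h5 : P.E (fun w => ∑ t ∈ Finset.Ico 0 n,
        ind (U (t + 1) (nd (t + 1) w) (X w) ≠ U t (nd t w) (X w))) = moves P X n nd U := by
      unfold moves FP.Pr
      rw [← P.E_sum]
      refine P.E_congr fun w _ => ?_
      rw [Finset.range_eq_Ico]
    rw [h3, h4, h5] at h1
    have h6 : (0 : ℝ) < η ^ 2 / 8 := by positivity
    rw [show (32 : ℝ) / η ^ 2 = 4 / (η ^ 2 / 8) by field_simp; norm_num, div_mul_eq_mul_div, le_div_iff₀ h6]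
    linarith
  · -- tail
    have h1 := tail_factor P (filt_nd (X := X) hp) hfac hmono hZ0 hjump (by positivity)
      (K := 32 * (p1 + 1) / η ^ 2) (by positivity) n hfut j
    have h2 : P.Pr (fun w => lost par cl B n1 n (nd n w) (X w)) ≤
        P.Pr (fun w => ((j : ℝ) + 1) * (32 / η ^ 2 + 2 * (32 * (p1 + 1) / η ^ 2)) ≤ Z n w) := by
      refine P.Pr_mono fun w _ h => ?_
      unfold lost at h
      rw [hcum] at h
      have h3 : 32 / η ^ 2 + 2 * (32 * (p1 + 1) / η ^ 2) ≤ 96 * (p1 + 1) / η ^ 2 := by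
        rw [← mul_div_assoc, ← add_div]
        refine div_le_div_of_nonneg_right ?_ hη2.le
        linarith
      have h4 := mul_le_mul_of_nonneg_left h3 (by positivity : (0 : ℝ) ≤ (j : ℝ) + 1)
      linarith
    have h3 : P.Pr (fun w => 0 < Z n w) ≤ P.Pr (fun w => ∃ t ≤ n, U t (nd t w) (X w) ≠ 0) :=
      P.Pr_mono fun w _ h => hintro w h
    have h4 := mul_le_mul_of_nonneg_left h3 (by positivity : (0 : ℝ) ≤ (1 / 2) ^ j)
    linarith
  · -- zero
    intro t
    induction t with
    | zero =>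
      intro _ w _ d
      exact hF0 _ _ d
    | succ t ih =>
      intro ht w h d
      rw [hcum] at h
      have h1 : Z (t + 1) w = Z t w + cnt (B (t + 1) (nd (t + 1) w) (cl (t + 1) (X w))) (X w) := by
        rw [hZ]
        simp only
        rw [Finset.sum_range_succ]
      have h2 := cnt_nonneg (B (t + 1) (nd (t + 1) w) (cl (t + 1) (X w))) (X w)
      have h3 : 0 ≤ Z t w := by
        rw [← hcum]
        exact cumB_ge0 _ _ _ _
      have h4 : Z t w = 0 := by linarith
      have h5 : cnt (B (t + 1) (nd (t + 1) w) (cl (t + 1) (X w))) (X w) = 0 := by linarith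
      rw [hstay t w (not_mem_of_cnt _ _ h5)]
      exact ih (by omega) w (by rw [hcum]; exact h4) d

end names

end

end Pool.Agent.M3.S2
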