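import Pool.Agent.M3.S2.Sys
import Pool.Agent.M3.S2.NamT

/-!
# M3/S2/Par2 (helper65): names with tails for the families `k1` and `k2` of the label system of one view

* `Tri.side1`, `Tri.side2` : the populations `b` (nodes `(c, gm)`) and `(b, c)` (nodes `gm`) satisfy `Side`;
* `Inp.k1_mv`, `Inp.k2_mv` : at most `p0 + 1` resp. `p0 + 2` moves on a path, and none if the family is never nonzero;
* `Inp.k1_movesE`, `Inp.k1_act`, `Inp.k2_movesE`, `Inp.sum_k2_moves`, `Inp.sum_k2_act` : budgets;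
* `Inp.names1`, `Inp.names2` : `NOut` for all `k1 s` resp. all `k2 (s, s', i)`.
-/

set_option autoImplicit false
set_option linter.unusedSectionVars false

namespace Pool.Agent.M3.S2

open Finset Pool.Agent.PWZ Pool.Agent.M3.TS

noncomputable section

/-! ### counting -/

private theorem ind_eq_sub {p q : Prop} (h : q → p) : ind (p ∧ ¬ q) = ind p - ind q := by
  by_cases hq : q
  · rw [ind_not fun h' => h'.2 hq, ind_of (h hq), ind_of hq, sub_self]
  · by_cases hp : p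
    · rw [ind_of ⟨hp, hq⟩, ind_of hp, ind_not hq, sub_zero]
    · rw [ind_not fun h' => hp h'.1, ind_not hp, ind_not hq, sub_zero]

/-- a nondecreasing event is switched on at most once -/
theorem on_once {p : ℕ → Prop} (h : ∀ t, p t → p (t + 1)) (n : ℕ) :
    ∑ t ∈ range n, ind (p (t + 1) ∧ ¬ p t) ≤ ind (p n) := by
  have h1 : ∑ t ∈ range n, ind (p (t + 1) ∧ ¬ p t) = ind (p n) - ind (p 0) := by
    rw [← Finset.sum_range_sub (fun t => ind (p t)) n]
    exact Finset.sum_congr rfl fun t _ => ind_eq_sub (h t)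
  have h2 := ind_nonneg (p 0)
  linarith

/-- a nonincreasing event is switched off at most once -/
theorem off_once {p : ℕ → Prop} (h : ∀ t, p (t + 1) → p t) (n : ℕ) :
    ∑ t ∈ range n, ind (p t ∧ ¬ p (t + 1)) ≤ 1 := by
  have h1 : ∑ t ∈ range n, ind (p t ∧ ¬ p (t + 1)) = ind (p 0) - ind (p n) := by
    rw [← Finset.sum_range_sub' (fun t => ind (p t)) n]
    exact Finset.sum_congr rfl fun t _ => ind_eq_sub (h t)
  have h2 := ind_nonneg (p n)
  have h3 := ind_le_one (p 0)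
  linarith

/-! ### the two sides -/

section tri

variable {Om Ξ A B C V Γ κ : Type} [Fintype Om] [Fintype Ξ] [Fintype A] [Fintype B] [Fintype C] [Fintype V]
  (T : Tri Om Ξ A B C V Γ κ)

/-- a variable independent of the nodes: the windows are a martingale given the variable -/
theorem Tri.mart_indep {𝒳 : Type} (X : Om → 𝒳) (q : 𝒳 → ℝ)
    (hq : ∀ t g x, T.P.Pr (fun w => X w = x ∧ T.gm t w = g) = q x * T.P.Pr (fun w => T.gm t w = g))
    (t : ℕ) (g : Γ) (x : 𝒳) (v : V) :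
    T.P.E (fun w => ind (X w = x ∧ T.gm t w = g) * T.ρ (t + 1) (T.gm (t + 1) w) v) =
      T.P.Pr (fun w => X w = x ∧ T.gm t w = g) * T.ρ t g v := by
  classical
  have key : ∀ Q : Om → Prop, T.P.E (fun w => ind (Q w ∧ T.gm t w = g) * T.ρ (t + 1) (T.gm (t + 1) w) v) =
      ∑ g' ∈ univ.image (T.gm (t + 1)), (ind (T.par t g' = g) * T.ρ (t + 1) g' v) *
        T.P.Pr (fun w => Q w ∧ T.gm (t + 1) w = g') := by
    intro Q
    have e : ∀ w, ind (Q w ∧ T.gm t w = g) * T.ρ (t + 1) (T.gm (t + 1) w) v =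
        ∑ g' ∈ univ.image (T.gm (t + 1)), (ind (T.par t g' = g) * T.ρ (t + 1) g' v) *
          ind (Q w ∧ T.gm (t + 1) w = g') := by
      intro w
      rw [Finset.sum_eq_single (T.gm (t + 1) w)]
      · rw [T.par_gm]
        by_cases h1 : Q w
        · by_cases h2 : T.gm t w = g
          · rw [ind_of ⟨h1, h2⟩, ind_of h2, ind_of ⟨h1, rfl⟩, mul_one]
          · rw [ind_not (p := Q w ∧ T.gm t w = g) fun h => h2 h.2, ind_not h2]
            ring
        · rw [ind_not (p := Q w ∧ T.gm t w = g) fun h => h1 h.1,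
            ind_not (p := Q w ∧ T.gm (t + 1) w = T.gm (t + 1) w) fun h => h1 h.1, zero_mul, mul_zero]
      · intro g' _ hg'
        rw [ind_not (p := Q w ∧ T.gm (t + 1) w = g') fun h => hg' h.2.symm, mul_zero]
      · intro h
        exact absurd (Finset.mem_image_of_mem _ (Finset.mem_univ w)) h
    rw [T.P.E_congr fun w _ => e w, T.P.E_sum]
    refine Finset.sum_congr rfl fun g' _ => ?_
    rw [T.P.E_smul]
    rfl
  rw [key (fun w => X w = x), hq t g x]
  have h1 := key (fun _ => True)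
  have h2 : T.P.E (fun w => ind (True ∧ T.gm t w = g) * T.ρ (t + 1) (T.gm (t + 1) w) v) =
      T.P.Pr (fun w => T.gm t w = g) * T.ρ t g v := by
    rw [← T.mart t g v]
    refine T.P.E_congr fun w _ => ?_
    rw [true_and]
  rw [h2] at h1
  rw [mul_assoc, h1, Finset.mul_sum]
  refine Finset.sum_congr rfl fun g' _ => ?_
  rw [hq (t + 1) g' x]
  have h3 : T.P.Pr (fun w => True ∧ T.gm (t + 1) w = g') = T.P.Pr (fun w => T.gm (t + 1) w = g') :=
    T.P.Pr_congr fun w _ => ⟨fun h => h.2, fun h => ⟨trivial, h⟩⟩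
  rw [h3]
  ring

private theorem Pr_fib {Ξ' : Type} [Fintype Ξ'] (P : FP Om) (x : Om → Ξ') (Q : Om → Prop) :
    P.Pr Q = ∑ x0, P.Pr (fun w => x w = x0 ∧ Q w) := by
  classical
  unfold FP.Pr
  rw [← P.E_sum]
  refine P.E_congr fun w _ => ?_
  rw [Finset.sum_eq_single (x w)]
  · congr 1
    exact propext ⟨fun h => ⟨rfl, h⟩, fun h => h.2⟩
  · intro x0 _ h
    exact ind_not fun h' => h h'.1.symm
  · intro h; exact absurd (Finset.mem_univ _) h

/-- the pair `(b, c)` is uniform and independent of the node -/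
theorem Tri.pbc (t : ℕ) (g : Γ) (y : B × C) :
    T.P.Pr (fun w => (T.b w, T.c w) = y ∧ T.gm t w = g) =
      ((Fintype.card Ξ : ℝ) / (Fintype.card Ξ * Fintype.card B * Fintype.card C)) *
        T.P.Pr (fun w => T.gm t w = g) := by
  rw [Pr_fib T.P T.xi]
  have h : ∀ x0, T.P.Pr (fun w => T.xi w = x0 ∧ ((T.b w, T.c w) = y ∧ T.gm t w = g)) =
      T.P.Pr (fun w => T.gm t w = g) / (Fintype.card Ξ * Fintype.card B * Fintype.card C) := by
    intro x0
    rw [← T.ibc t g x0 y.1 y.2]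
    exact T.P.Pr_congr fun w _ => ⟨fun h => ⟨h.1, congrArg Prod.fst h.2.1, congrArg Prod.snd h.2.1, h.2.2⟩,
      fun h => ⟨h.1, Prod.ext h.2.1 h.2.2.1, h.2.2.2⟩⟩
  rw [Finset.sum_congr rfl fun x0 _ => h x0, Finset.sum_const, nsmul_eq_mul]
  show (Fintype.card Ξ : ℝ) * _ = _
  ring

/-- the pair `(b, c)`, nodes `gm` -/
theorem Tri.side2 : Side T.P (fun w => (T.b w, T.c w)) T.n T.gm (fun t (y : B × C) => (T.cb t y.1, T.cc t y.2))
    T.ρ T.par where
  par_nd := T.par_gm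
  wt := T.wt
  free := fun t g x x' => by rw [T.pbc, T.pbc]
  mart := fun t _ g x v => T.mart_indep (fun w => (T.b w, T.c w)) _ (fun t g y => T.pbc t g y) t g x v

/-- the vertex `b`, nodes `(c, gm)` -/
theorem Tri.side1 : Side T.P T.b T.n (fun t w => (T.c w, T.gm t w)) T.cb (fun t (g : C × Γ) => T.ρ t g.2)
    (fun t (g : C × Γ) => (g.1, T.par t g.2)) where
  par_nd := fun t w => by
    show (T.c w, T.par t (T.gm (t + 1) w)) = _
    rw [T.par_gm]
  wt := fun t g => T.wt t g.2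
  free := fun t g x x' => by
    have h : ∀ x, T.P.Pr (fun w => T.b w = x ∧ (T.c w, T.gm t w) = g) =
        T.P.Pr (fun w => (T.b w, T.c w) = (x, g.1) ∧ T.gm t w = g.2) := fun x =>
      T.P.Pr_congr fun w _ => ⟨fun h => ⟨Prod.ext h.1 (congrArg Prod.fst h.2), congrArg Prod.snd h.2⟩,
        fun h => ⟨congrArg Prod.fst h.1, Prod.ext (congrArg Prod.snd h.1) h.2⟩⟩
    rw [h, h, T.pbc, T.pbc]
  mart := fun t _ g x v => by
    have h : ∀ w, (T.b w = x ∧ (T.c w, T.gm t w) = g) ↔ ((T.b w, T.c w) = (x, g.1) ∧ T.gm t w = g.2) := fun w =>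
      ⟨fun h => ⟨Prod.ext h.1 (congrArg Prod.fst h.2), congrArg Prod.snd h.2⟩,
        fun h => ⟨congrArg Prod.fst h.1, Prod.ext (congrArg Prod.snd h.1) h.2⟩⟩
    have h1 := T.mart_indep (fun w => (T.b w, T.c w)) _ (fun t g y => T.pbc t g y) t g.2 (x, g.1) v
    rw [T.P.Pr_congr fun w _ => h w, ← h1]
    refine T.P.E_congr fun w _ => ?_
    rw [propext (h w)]

end tri

/-! ### the families -/

variable {Om A B C V Γ κ S : Type} [Fintype Om] [Fintype A] [Fintype B] [Fintype C] [Fintype V]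
  [Fintype S] [DecidableEq S] {m : ℕ} {T : Tri Om (S → Fin m) A B C V Γ κ}

namespace Inp

variable (I : Inp T S)

private theorem intr_gm (s : S) (t : ℕ) (w : Om) (b0 : B) (c0 : C) : I.intr s t (T.gm t w) b0 c0 ↔
    I.on s t w ∧ T.cb (I.R.tb s) b0 = I.R.be s ∧
      T.Rz (I.R.tb s) (I.R.al s) (I.R.be s) (T.cc (I.R.tb s) c0) (I.R.gb s) := by
  unfold intr on
  refine and_congr_left fun _ => and_congr_right fun h => ?_
  rw [T.anc_gm h]

private theorem intr_mono {s : S} {t : ℕ} {w : Om} {b0 : B} {c0 : C} (h : I.intr s t (T.gm t w) b0 c0) :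
    I.intr s (t + 1) (T.gm (t + 1) w) b0 c0 := by
  rw [intr_gm] at h ⊢
  exact ⟨⟨by have := h.1.1; omega, h.1.2⟩, h.2⟩

private theorem intr_mono_le {s : S} {t t' : ℕ} (htt : t ≤ t') {w : Om} {b0 : B} {c0 : C}
    (h : I.intr s t (T.gm t w) b0 c0) : I.intr s t' (T.gm t' w) b0 c0 := by
  rw [intr_gm] at h ⊢
  exact ⟨⟨h.1.1.trans htt, h.1.2⟩, h.2⟩

private theorem not_intr_zero (s : S) (g : Γ) (b0 : B) (c0 : C) : ¬ I.intr s 0 g b0 c0 := by
  intro h
  have h1 := h.1.1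
  have h2 := I.tb1 s
  omega

/-- probability that `s` is introduced -/
theorem intr_le (s : S) (t : ℕ) :
    T.P.Pr (fun w => I.intr s t (T.gm t w) (T.b w) (T.c w)) ≤ T.K * T.P.Pr (fun w => I.onab w t s) := by
  rcases Nat.lt_or_ge t (I.R.tb s) with ht | ht
  · have h0 : T.P.Pr (fun w => I.intr s t (T.gm t w) (T.b w) (T.c w)) = 0 := by
      unfold FP.Pr
      refine (T.P.E_congr (g := fun _ => 0) fun w _ => ind_not fun h => ?_).trans (T.P.E_const 0)
      have := h.1.1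
      omega
    rw [h0]
    exact mul_nonneg (le_trans zero_le_one T.K1) (T.P.Pr_nonneg _)
  · rw [Pr_fib T.P T.b, Pr_fib T.P T.b, Finset.mul_sum]
    refine Finset.sum_le_sum fun b0 _ => ?_
    by_cases hb : T.cb (I.R.tb s) b0 = I.R.be s
    · refine le_trans (T.P.Pr_mono fun w _ h => ?_)
        ((T.cba (I.R.tb s) (I.R.gb s) b0 (I.R.al s)).trans
          (mul_le_mul_of_nonneg_left (T.P.Pr_mono fun w _ h => ?_) (le_trans zero_le_one T.K1)))
      · obtain ⟨h1, h2⟩ := h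
        rw [intr_gm] at h2
        obtain ⟨⟨_, h3⟩, h4, w', h5, h6, h7, h8⟩ := h2
        exact ⟨h1, h3, w', h5, h6.trans hb.symm, h7, h8⟩
      · obtain ⟨h1, h2, h3⟩ := h
        exact ⟨h1, ⟨ht, h2⟩, h3, by rw [h1]; exact hb⟩
    · have h0 : T.P.Pr (fun w => T.b w = b0 ∧ I.intr s t (T.gm t w) (T.b w) (T.c w)) = 0 := by
        unfold FP.Pr
        refine (T.P.E_congr (g := fun _ => 0) fun w _ => ind_not fun h => hb ?_).trans (T.P.E_const 0)
        rw [intr_gm] at h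
        rw [← h.1]
        exact h.2.2.1
      rw [h0]
      exact mul_nonneg (le_trans zero_le_one T.K1) (T.P.Pr_nonneg _)

/-! #### the family `k1` -/

private theorem k1_b (s : S) (t : ℕ) (g : C × Γ) (b0 : B) (d : V) : |I.k1 s t g b0 d| ≤ 1 := by
  unfold k1
  rw [abs_mul, abs_mul, abs_of_nonneg (ind_nonneg _)]
  have h1 := ind_le_one (I.intr s t g.2 b0 g.1)
  have h2 := ind_nonneg (I.intr s t g.2 b0 g.1)
  have h3 := I.G1b t g.2 b0 g.1 d
  have h4 := I.u1 s b0 d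
  exact mul_le_one₀ (mul_le_one₀ h1 (abs_nonneg _) h3) (abs_nonneg _) h4

private theorem k1_of_not {s : S} {t : ℕ} {g : C × Γ} {b0 : B} (h : ¬ I.intr s t g.2 b0 g.1) : I.k1 s t g b0 = 0 := by
  funext d
  unfold k1
  rw [ind_not h, zero_mul, zero_mul]
  rfl

theorem k1_ne {s : S} {t : ℕ} {g : C × Γ} {b0 : B} (h : I.k1 s t g b0 ≠ 0) : I.intr s t g.2 b0 g.1 := by
  by_contra h'
  exact h (I.k1_of_not h')

private theorem k1_zero (s : S) (g : C × Γ) (b0 : B) (d : V) : I.k1 s 0 g b0 d = 0 :=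
  congrFun (I.k1_of_not (I.not_intr_zero s g.2 b0 g.1)) d

/-- moves of `k1 s` on a path -/
theorem k1_mv (s : S) (w : Om) :
    ∑ t ∈ range T.n, ind (I.k1 s (t + 1) (T.c w, T.gm (t + 1) w) (T.b w) ≠ I.k1 s t (T.c w, T.gm t w) (T.b w)) ≤
      (I.p0 + 1) * ind (I.intr s T.n (T.gm T.n w) (T.b w) (T.c w)) := by
  by_cases h : I.intr s T.n (T.gm T.n w) (T.b w) (T.c w)
  · rw [ind_of h, mul_one]
    have h1 := I.mv1 w
    have h2 := on_once (p := fun t => I.intr s t (T.gm t w) (T.b w) (T.c w)) (fun t => I.intr_mono) T.n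
    have h3 := ind_le_one (I.intr s T.n (T.gm T.n w) (T.b w) (T.c w))
    refine le_trans (Finset.sum_le_sum fun t _ => ?_) ((Finset.sum_add_distrib (f := fun t =>
      ind (I.G1 (t + 1) (T.gm (t + 1) w) (T.b w) (T.c w) ≠ I.G1 t (T.gm t w) (T.b w) (T.c w)))
      (g := fun t => ind (I.intr s (t + 1) (T.gm (t + 1) w) (T.b w) (T.c w) ∧
        ¬ I.intr s t (T.gm t w) (T.b w) (T.c w)))).le.trans (by linarith))
    by_cases h4 : I.G1 (t + 1) (T.gm (t + 1) w) (T.b w) (T.c w) ≠ I.G1 t (T.gm t w) (T.b w) (T.c w)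
    · rw [ind_of h4]
      have h5 := ind_nonneg (I.intr s (t + 1) (T.gm (t + 1) w) (T.b w) (T.c w) ∧
        ¬ I.intr s t (T.gm t w) (T.b w) (T.c w))
      have h6 := ind_le_one (I.k1 s (t + 1) (T.c w, T.gm (t + 1) w) (T.b w) ≠ I.k1 s t (T.c w, T.gm t w) (T.b w))
      linarith
    · rw [ind_not h4, zero_add]
      rw [not_not] at h4
      refine ind_mono fun h5 => ?_
      by_contra h6
      refine h5 ?_
      by_cases h7 : I.intr s t (T.gm t w) (T.b w) (T.c w)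
      · have h8 := I.intr_mono h7
        funext d
        unfold k1
        show ind (I.intr s (t + 1) (T.gm (t + 1) w) (T.b w) (T.c w)) * I.G1 (t + 1) (T.gm (t + 1) w) (T.b w) (T.c w) d *
          I.R.u s (T.b w) d = ind (I.intr s t (T.gm t w) (T.b w) (T.c w)) * I.G1 t (T.gm t w) (T.b w) (T.c w) d *
          I.R.u s (T.b w) d
        rw [ind_of h7, ind_of h8, h4]
      · have h8 : ¬ I.intr s (t + 1) (T.gm (t + 1) w) (T.b w) (T.c w) := fun h8 => h6 ⟨h8, h7⟩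
        rw [I.k1_of_not (g := (T.c w, T.gm (t + 1) w)) h8, I.k1_of_not (g := (T.c w, T.gm t w)) h7]
  · rw [ind_not h, mul_zero]
    refine le_of_eq (Finset.sum_eq_zero fun t ht => ind_not fun h1 => h1 ?_)
    have ht' := Finset.mem_range.1 ht
    have h2 : ¬ I.intr s (t + 1) (T.gm (t + 1) w) (T.b w) (T.c w) := fun h2 => h (I.intr_mono_le (by omega) h2)
    have h3 : ¬ I.intr s t (T.gm t w) (T.b w) (T.c w) := fun h3 => h (I.intr_mono_le (by omega) h3)
    rw [I.k1_of_not (g := (T.c w, T.gm (t + 1) w)) h2, I.k1_of_not (g := (T.c w, T.gm t w)) h3]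

theorem k1_movesE (s : S) : moves T.P T.b T.n (fun t w => (T.c w, T.gm t w)) (I.k1 s) ≤
    (I.p0 + 1) * (T.K * T.P.Pr (fun w => I.onab w T.n s)) := by
  have hp : 0 ≤ I.p0 + 1 := by have := I.p01; linarith
  refine le_trans ?_ (mul_le_mul_of_nonneg_left (I.intr_le s T.n) hp)
  unfold moves FP.Pr
  rw [← T.P.E_sum, ← T.P.E_smul]
  exact T.P.E_mono fun w _ => I.k1_mv s w

theorem k1_act (s : S) : T.P.Pr (fun w => ∃ t ≤ T.n, I.k1 s t (T.c w, T.gm t w) (T.b w) ≠ 0) ≤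
    T.K * T.P.Pr (fun w => I.onab w T.n s) := by
  refine le_trans (T.P.Pr_mono fun w _ => ?_) (I.intr_le s T.n)
  rintro ⟨t, ht, h⟩
  exact I.intr_mono_le ht (I.k1_ne h)

/-- **names with tails for all the families `k1 s`** -/
theorem names1 {η ε : ℝ} (hη : 0 < η) (hε : 0 < ε) (j : ℕ) (n1 : ℝ)
    (hn1 : ((j : ℝ) + 1) * (96 * (I.p0 + 2) / η ^ 2) ≤ n1) :
    ∃ (F : S → ℕ → C × Γ → B → V → ℝ) (Bn : S → ℕ → C × Γ → κ → List (Finset B)), ∀ s,
      NOut T.P T.b T.n (fun t w => (T.c w, T.gm t w)) T.cb (fun t (g : C × Γ) => T.ρ t g.2)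
        (fun t (g : C × Γ) => (g.1, T.par t g.2)) (I.k1 s) (F s) (Bn s) η ε n1 ((1 / 2) ^ j) := by
  have h : ∀ s, ∃ (F : ℕ → C × Γ → B → V → ℝ) (Bn : ℕ → C × Γ → κ → List (Finset B)),
      NOut T.P T.b T.n (fun t w => (T.c w, T.gm t w)) T.cb (fun t (g : C × Γ) => T.ρ t g.2)
        (fun t (g : C × Γ) => (g.1, T.par t g.2)) (I.k1 s) F Bn η ε n1 ((1 / 2) ^ j) := fun s =>
    names_tail T.side1 (I.k1 s) (I.k1_b s) (I.k1_zero s) (I.p0 + 1)
      (fun w => (I.k1_mv s w).trans (by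
        have h1 := ind_le_one (I.intr s T.n (T.gm T.n w) (T.b w) (T.c w))
        have h2 := I.p01
        nlinarith)) hη hε j n1 (by
        rw [show I.p0 + 1 + 1 = I.p0 + 2 by ring]
        exact hn1)
  choose F Bn h using h
  exact ⟨F, Bn, h⟩

/-! #### the family `k2` -/

section k2

variable (al : ℕ → Om → Set (S × (V → ℝ))) (Mc : ℝ)

private theorem hl_b (hal : ∀ t w s' h, (s', h) ∈ al t w → ∀ d, |h d| ≤ 1) (s' : S) (t : ℕ) (g : Γ) (b0 : B) (c0 : C) :
    ∀ h ∈ T.hl al s' t g b0 c0, ∀ d, |h d| ≤ 1 := by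
  classical
  induction t generalizing g with
  | zero => intro h hh; exact absurd hh List.not_mem_nil
  | succ t ih =>
    intro h hh
    unfold Tri.hl at hh
    rcases List.mem_append.1 hh with h1 | h1
    · exact ih _ h h1
    · split_ifs at h1 with h2
      · rw [Finset.mem_toList, Finset.mem_sdiff] at h1
        obtain ⟨w, _, _, _, h3⟩ := (h2.mem_toFinset.1 h1.1)
        exact hal _ _ _ _ h3
      · exact absurd h1 List.not_mem_nil

private theorem hl_succ (s' : S) (t : ℕ) (g : Γ) (b0 : B) (c0 : C) : ∃ L, T.hl al s' (t + 1) g b0 c0 =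
    T.hl al s' t (T.par t g) b0 c0 ++ L := ⟨_, rfl⟩

/-- one step of the cumulative list -/
private theorem hl_step (s' : S) (t : ℕ) (w : Om) (b0 : B) (c0 : C) : ∃ L, T.hl al s' (t + 1) (T.gm (t + 1) w) b0 c0 =
    T.hl al s' t (T.gm t w) b0 c0 ++ L := by
  have h := hl_succ (T := T) al s' t (T.gm (t + 1) w) b0 c0
  rwa [T.par_gm] at h

private theorem hl_len (s' : S) {t t' : ℕ} (htt : t ≤ t') (w : Om) (b0 : B) (c0 : C) :
    (T.hl al s' t (T.gm t w) b0 c0).length ≤ (T.hl al s' t' (T.gm t' w) b0 c0).length := by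
  induction t', htt using Nat.le_induction with
  | base => exact le_rfl
  | succ t' _ ih =>
    obtain ⟨L, hL⟩ := hl_step (T := T) al s' t' w b0 c0
    rw [hL, List.length_append]
    omega

private theorem hl_ne (s' : S) {t t' : ℕ} (htt : t ≤ t') (w : Om) (b0 : B) (c0 : C)
    (h : T.hl al s' t (T.gm t w) b0 c0 ≠ []) : T.hl al s' t' (T.gm t' w) b0 c0 ≠ [] := by
  have h1 := hl_len (T := T) al s' htt w b0 c0
  have h2 := List.length_pos_of_ne_nil h
  intro h3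
  rw [h3] at h1
  simp at h1
  exact h h1

private theorem hl_getD (s' : S) (t : ℕ) (w : Om) (b0 : B) (c0 : C) {i : ℕ}
    (hi : i < (T.hl al s' t (T.gm t w) b0 c0).length) :
    (T.hl al s' (t + 1) (T.gm (t + 1) w) b0 c0).getD i 0 = (T.hl al s' t (T.gm t w) b0 c0).getD i 0 := by
  obtain ⟨L, hL⟩ := hl_step (T := T) al s' t w b0 c0
  rw [hL, List.getD_append _ _ _ _ hi]

private theorem capc_anti {t t' : ℕ} (htt : t ≤ t') {w : Om} {b0 : B} {c0 : C}
    (h : I.capc al Mc t' (T.gm t' w) b0 c0) : I.capc al Mc t (T.gm t w) b0 c0 :=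
  ⟨(Finset.sum_le_sum fun _ _ => ind_mono fun h' => I.intr_mono_le htt h').trans h.1,
    (Finset.sum_le_sum fun s' _ => ind_mono fun h' => hl_ne (T := T) al s' htt w b0 c0 h').trans h.2⟩

/-- the family `k2 (s, s', i)` can be nonzero -/
def a2 (s s' : S) (i : ℕ) (t : ℕ) (w : Om) : Prop :=
  I.intr s t (T.gm t w) (T.b w) (T.c w) ∧ i < (T.hl al s' t (T.gm t w) (T.b w) (T.c w)).length

private theorem a2_mono {s s' : S} {i t t' : ℕ} (htt : t ≤ t') {w : Om} (h : I.a2 al s s' i t w) : I.a2 al s s' i t' w :=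
  ⟨I.intr_mono_le htt h.1, h.2.trans_le (hl_len (T := T) al s' htt w _ _)⟩

private theorem k2_b (hal : ∀ t w s' h, (s', h) ∈ al t w → ∀ d, |h d| ≤ 1) (s s' : S) (i t : ℕ) (g : Γ) (y : B × C) (d : V) :
    |I.k2 al Mc s s' i t g y d| ≤ 1 := by
  have h0 : |(T.hl al s' t g y.1 y.2).getD i 0 d| ≤ 1 := by
    rcases Nat.lt_or_ge i (T.hl al s' t g y.1 y.2).length with h | h
    · rw [List.getD_eq_getElem _ _ h]
      exact hl_b (T := T) al hal s' t g y.1 y.2 _ (List.getElem_mem h) d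
    · rw [List.getD_eq_default _ _ h]
      simp
  unfold k2
  rw [abs_mul, abs_mul, abs_mul, abs_of_nonneg (ind_nonneg _)]
  have h1 := ind_le_one (I.intr s t g y.1 y.2 ∧ I.capc al Mc t g y.1 y.2)
  have h3 := I.G1b t g y.1 y.2 d
  have h4 := I.u1 s y.1 d
  exact mul_le_one₀ (mul_le_one₀ (mul_le_one₀ h1 (abs_nonneg _) h3) (abs_nonneg _) h4) (abs_nonneg _) h0

private theorem k2_of_not {s s' : S} {i t : ℕ} {g : Γ} {y : B × C} (h : ¬ (I.intr s t g y.1 y.2 ∧ I.capc al Mc t g y.1 y.2)) :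
    I.k2 al Mc s s' i t g y = 0 := by
  funext d
  unfold k2
  rw [ind_not h, zero_mul, zero_mul, zero_mul]
  rfl

private theorem k2_of_len {s s' : S} {i t : ℕ} {g : Γ} {y : B × C} (h : (T.hl al s' t g y.1 y.2).length ≤ i) :
    I.k2 al Mc s s' i t g y = 0 := by
  funext d
  unfold k2
  rw [List.getD_eq_default _ _ h]
  simp

theorem k2_ne {s s' : S} {i t : ℕ} {w : Om} (h : I.k2 al Mc s s' i t (T.gm t w) (T.b w, T.c w) ≠ 0) :
    I.a2 al s s' i t w ∧ I.capc al Mc t (T.gm t w) (T.b w) (T.c w) := by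
  by_contra h'
  by_cases h1 : I.intr s t (T.gm t w) (T.b w) (T.c w) ∧ I.capc al Mc t (T.gm t w) (T.b w) (T.c w)
  · by_cases h2 : i < (T.hl al s' t (T.gm t w) (T.b w) (T.c w)).length
    · exact h' ⟨⟨h1.1, h2⟩, h1.2⟩
    · exact h (I.k2_of_len al Mc (y := (T.b w, T.c w)) (not_lt.1 h2))
  · exact h (I.k2_of_not al Mc (y := (T.b w, T.c w)) h1)

private theorem k2_zero (s s' : S) (i : ℕ) (g : Γ) (y : B × C) (d : V) : I.k2 al Mc s s' i 0 g y d = 0 :=
  congrFun (I.k2_of_not al Mc fun h => I.not_intr_zero s g y.1 y.2 h.1) d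

/-- the family `k2 (s, s', i)` is nonzero at some time only if this event occurs -/
def e2 (s s' : S) (w : Om) : Prop := ∃ t ≤ T.n, I.intr s t (T.gm t w) (T.b w) (T.c w) ∧
  I.capc al Mc t (T.gm t w) (T.b w) (T.c w) ∧ T.hl al s' t (T.gm t w) (T.b w) (T.c w) ≠ []

theorem e2_of_ne {s s' : S} {i t : ℕ} (ht : t ≤ T.n) {w : Om}
    (h : I.k2 al Mc s s' i t (T.gm t w) (T.b w, T.c w) ≠ 0) : I.e2 al Mc s s' w := by
  obtain ⟨h1, h2⟩ := I.k2_ne al Mc h
  refine ⟨t, ht, h1.1, h2, ?_⟩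
  intro h3
  have h4 := h1.2
  rw [h3] at h4
  simp at h4

/-- moves of `k2 (s, s', i)` on a path -/
theorem k2_mv (s s' : S) (i : ℕ) (w : Om) :
    ∑ t ∈ range T.n, ind (I.k2 al Mc s s' i (t + 1) (T.gm (t + 1) w) (T.b w, T.c w) ≠
      I.k2 al Mc s s' i t (T.gm t w) (T.b w, T.c w)) ≤ (I.p0 + 2) * ind (I.e2 al Mc s s' w) := by
  by_cases h : I.e2 al Mc s s' w
  · rw [ind_of h, mul_one]
    have h1 := I.mv1 w
    have h2 := on_once (p := fun t => I.a2 al s s' i t w) (fun t => I.a2_mono al (Nat.le_succ t)) T.n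
    have h2' := ind_le_one (I.a2 al s s' i T.n w)
    have h3 := off_once (p := fun t => I.capc al Mc t (T.gm t w) (T.b w) (T.c w))
      (fun t => I.capc_anti al Mc (Nat.le_succ t)) T.n
    have h4 : ∑ t ∈ range T.n, (ind (I.G1 (t + 1) (T.gm (t + 1) w) (T.b w) (T.c w) ≠
        I.G1 t (T.gm t w) (T.b w) (T.c w)) + ind (I.a2 al s s' i (t + 1) w ∧ ¬ I.a2 al s s' i t w) +
        ind (I.capc al Mc t (T.gm t w) (T.b w) (T.c w) ∧
          ¬ I.capc al Mc (t + 1) (T.gm (t + 1) w) (T.b w) (T.c w))) ≤ I.p0 + 2 := by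
      rw [Finset.sum_add_distrib, Finset.sum_add_distrib]
      linarith
    refine le_trans (Finset.sum_le_sum fun t _ => ?_) h4
    have i1 := ind_nonneg (I.G1 (t + 1) (T.gm (t + 1) w) (T.b w) (T.c w) ≠ I.G1 t (T.gm t w) (T.b w) (T.c w))
    have i2 := ind_nonneg (I.a2 al s s' i (t + 1) w ∧ ¬ I.a2 al s s' i t w)
    have i3 := ind_nonneg (I.capc al Mc t (T.gm t w) (T.b w) (T.c w) ∧
      ¬ I.capc al Mc (t + 1) (T.gm (t + 1) w) (T.b w) (T.c w))
    have i4 := ind_le_one (I.k2 al Mc s s' i (t + 1) (T.gm (t + 1) w) (T.b w, T.c w) ≠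
      I.k2 al Mc s s' i t (T.gm t w) (T.b w, T.c w))
    by_cases j1 : I.G1 (t + 1) (T.gm (t + 1) w) (T.b w) (T.c w) ≠ I.G1 t (T.gm t w) (T.b w) (T.c w)
    · rw [ind_of j1]
      linarith
    by_cases j2 : I.a2 al s s' i (t + 1) w ∧ ¬ I.a2 al s s' i t w
    · rw [ind_of j2]
      linarith
    by_cases j3 : I.capc al Mc t (T.gm t w) (T.b w) (T.c w) ∧
      ¬ I.capc al Mc (t + 1) (T.gm (t + 1) w) (T.b w) (T.c w)
    · rw [ind_of j3]
      linarith
    have j4 : I.k2 al Mc s s' i (t + 1) (T.gm (t + 1) w) (T.b w, T.c w) =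
        I.k2 al Mc s s' i t (T.gm t w) (T.b w, T.c w) := by
      by_cases j5 : I.a2 al s s' i t w ∧ I.capc al Mc t (T.gm t w) (T.b w) (T.c w)
      · have j6 : I.a2 al s s' i (t + 1) w := I.a2_mono al (Nat.le_succ t) j5.1
        have j7 : I.capc al Mc (t + 1) (T.gm (t + 1) w) (T.b w) (T.c w) := by
          by_contra j7
          exact j3 ⟨j5.2, j7⟩
        rw [not_not] at j1
        funext d
        unfold k2
        show ind (I.intr s (t + 1) (T.gm (t + 1) w) (T.b w) (T.c w) ∧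
            I.capc al Mc (t + 1) (T.gm (t + 1) w) (T.b w) (T.c w)) *
            I.G1 (t + 1) (T.gm (t + 1) w) (T.b w) (T.c w) d * I.R.u s (T.b w) d *
            (T.hl al s' (t + 1) (T.gm (t + 1) w) (T.b w) (T.c w)).getD i 0 d =
          ind (I.intr s t (T.gm t w) (T.b w) (T.c w) ∧ I.capc al Mc t (T.gm t w) (T.b w) (T.c w)) *
            I.G1 t (T.gm t w) (T.b w) (T.c w) d * I.R.u s (T.b w) d *
            (T.hl al s' t (T.gm t w) (T.b w) (T.c w)).getD i 0 d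
        rw [ind_of ⟨j6.1, j7⟩, ind_of ⟨j5.1.1, j5.2⟩, j1, hl_getD (T := T) al s' t w _ _ j5.1.2]
      · have j6 : ¬ (I.a2 al s s' i (t + 1) w ∧ I.capc al Mc (t + 1) (T.gm (t + 1) w) (T.b w) (T.c w)) := by
          rintro ⟨j6, j7⟩
          refine j5 ⟨?_, I.capc_anti al Mc (Nat.le_succ t) j7⟩
          by_contra j8
          exact j2 ⟨j6, j8⟩
        have j7 : I.k2 al Mc s s' i (t + 1) (T.gm (t + 1) w) (T.b w, T.c w) = 0 := by
          by_contra j8
          exact j6 (I.k2_ne al Mc j8)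
        have j8 : I.k2 al Mc s s' i t (T.gm t w) (T.b w, T.c w) = 0 := by
          by_contra j9
          exact j5 (I.k2_ne al Mc j9)
        rw [j7, j8]
    rw [ind_not fun h' => h' j4]
    linarith
  · rw [ind_not h, mul_zero]
    refine le_of_eq (Finset.sum_eq_zero fun t ht => ind_not fun h1 => h1 ?_)
    have ht' := Finset.mem_range.1 ht
    have j7 : I.k2 al Mc s s' i (t + 1) (T.gm (t + 1) w) (T.b w, T.c w) = 0 := by
      by_contra j8
      exact h (I.e2_of_ne al Mc (by omega) j8)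
    have j8 : I.k2 al Mc s s' i t (T.gm t w) (T.b w, T.c w) = 0 := by
      by_contra j9
      exact h (I.e2_of_ne al Mc (by omega) j9)
    rw [j7, j8]

theorem k2_movesE (s s' : S) (i : ℕ) : moves T.P (fun w => (T.b w, T.c w)) T.n T.gm (I.k2 al Mc s s' i) ≤
    (I.p0 + 2) * T.P.Pr (I.e2 al Mc s s') := by
  unfold moves FP.Pr
  rw [← T.P.E_sum, ← T.P.E_smul]
  exact T.P.E_mono fun w _ => I.k2_mv al Mc s s' i w

theorem k2_act (s s' : S) (i : ℕ) :
    T.P.Pr (fun w => ∃ t ≤ T.n, I.k2 al Mc s s' i t (T.gm t w) (T.b w, T.c w) ≠ 0) ≤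
      T.P.Pr (I.e2 al Mc s s') := by
  refine T.P.Pr_mono fun w _ => ?_
  rintro ⟨t, ht, h⟩
  exact I.e2_of_ne al Mc ht h

/-- number of pairs `(s, s')` on a path -/
theorem sum_e2 (w : Om) : ∑ s, ∑ s', ind (I.e2 al Mc s s' w) ≤ Mc ^ 2 := by
  classical
  by_cases h : ∃ t ≤ T.n, I.capc al Mc t (T.gm t w) (T.b w) (T.c w)
  · -- the last good time
    set t0 := Nat.findGreatest (fun t => I.capc al Mc t (T.gm t w) (T.b w) (T.c w)) T.n with ht0
    obtain ⟨t1, ht1, hc1⟩ := h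
    have h1 : I.capc al Mc t0 (T.gm t0 w) (T.b w) (T.c w) :=
      Nat.findGreatest_spec (P := fun t => I.capc al Mc t (T.gm t w) (T.b w) (T.c w)) ht1 hc1
    have h2 : ∀ t ≤ T.n, I.capc al Mc t (T.gm t w) (T.b w) (T.c w) → t ≤ t0 := fun t ht hc =>
      Nat.le_findGreatest (P := fun t => I.capc al Mc t (T.gm t w) (T.b w) (T.c w)) ht hc
    have h3 : ∀ s s', ind (I.e2 al Mc s s' w) ≤ ind (I.intr s t0 (T.gm t0 w) (T.b w) (T.c w)) *
        ind (T.hl al s' t0 (T.gm t0 w) (T.b w) (T.c w) ≠ []) := by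
      intro s s'
      by_cases he : I.e2 al Mc s s' w
      · obtain ⟨t, ht, h4, h5, h6⟩ := he
        have h7 := h2 t ht h5
        rw [ind_of (I.intr_mono_le h7 h4), ind_of (hl_ne (T := T) al s' h7 w _ _ h6), mul_one]
        exact ind_le_one _
      · rw [ind_not he]
        exact mul_nonneg (ind_nonneg _) (ind_nonneg _)
    refine le_trans (Finset.sum_le_sum fun s _ => Finset.sum_le_sum fun s' _ => h3 s s') ?_
    rw [← Finset.sum_mul_sum, sq]
    have n1 : 0 ≤ ∑ s', ind (T.hl al s' t0 (T.gm t0 w) (T.b w) (T.c w) ≠ []) :=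
      Finset.sum_nonneg fun _ _ => ind_nonneg _
    have n2 : 0 ≤ ∑ s, ind (I.intr s t0 (T.gm t0 w) (T.b w) (T.c w)) :=
      Finset.sum_nonneg fun _ _ => ind_nonneg _
    exact mul_le_mul h1.1 h1.2 n1 (n2.trans h1.1)
  · have h3 : ∀ s s', ind (I.e2 al Mc s s' w) = 0 := by
      intro s s'
      refine ind_not ?_
      rintro ⟨t, ht, _, h5, _⟩
      exact h ⟨t, ht, h5⟩
    rw [Finset.sum_eq_zero fun s _ => Finset.sum_eq_zero fun s' _ => h3 s s']
    positivity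

theorem sum_Pr_e2 : ∑ s, ∑ s', T.P.Pr (I.e2 al Mc s s') ≤ Mc ^ 2 := by
  unfold FP.Pr
  have h : ∑ s, ∑ s', T.P.E (fun w => ind (I.e2 al Mc s s' w)) =
      T.P.E (fun w => ∑ s, ∑ s', ind (I.e2 al Mc s s' w)) := by
    rw [T.P.E_sum]
    exact Finset.sum_congr rfl fun s _ => (T.P.E_sum _ _).symm
  rw [h]
  refine (T.P.E_mono fun w _ => I.sum_e2 al Mc w).trans (le_of_eq (T.P.E_const _))

/-- total budget of the families `k2` -/
theorem sum_k2_moves (Nw : ℕ) :
    ∑ s, ∑ s', ∑ i ∈ range Nw, moves T.P (fun w => (T.b w, T.c w)) T.n T.gm (I.k2 al Mc s s' i) ≤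
      Nw * ((I.p0 + 2) * Mc ^ 2) := by
  have hp : 0 ≤ I.p0 + 2 := by have := I.p01; linarith
  calc ∑ s, ∑ s', ∑ i ∈ range Nw, moves T.P (fun w => (T.b w, T.c w)) T.n T.gm (I.k2 al Mc s s' i)
      ≤ ∑ s, ∑ s', ∑ i ∈ range Nw, (I.p0 + 2) * T.P.Pr (I.e2 al Mc s s') :=
        Finset.sum_le_sum fun s _ => Finset.sum_le_sum fun s' _ => Finset.sum_le_sum fun i _ =>
          I.k2_movesE al Mc s s' i
    _ = Nw * ((I.p0 + 2) * ∑ s, ∑ s', T.P.Pr (I.e2 al Mc s s')) := by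
        simp only [Finset.sum_const, Finset.card_range, nsmul_eq_mul, Finset.mul_sum]
    _ ≤ Nw * ((I.p0 + 2) * Mc ^ 2) :=
        mul_le_mul_of_nonneg_left (mul_le_mul_of_nonneg_left (I.sum_Pr_e2 al Mc) hp) (Nat.cast_nonneg _)

/-- total probability of activity of the families `k2` -/
theorem sum_k2_act (Nw : ℕ) :
    ∑ s, ∑ s', ∑ i ∈ range Nw,
      T.P.Pr (fun w => ∃ t ≤ T.n, I.k2 al Mc s s' i t (T.gm t w) (T.b w, T.c w) ≠ 0) ≤ Nw * Mc ^ 2 := by
  calc ∑ s, ∑ s', ∑ i ∈ range Nw,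
        T.P.Pr (fun w => ∃ t ≤ T.n, I.k2 al Mc s s' i t (T.gm t w) (T.b w, T.c w) ≠ 0)
      ≤ ∑ s, ∑ s', ∑ i ∈ range Nw, T.P.Pr (I.e2 al Mc s s') :=
        Finset.sum_le_sum fun s _ => Finset.sum_le_sum fun s' _ => Finset.sum_le_sum fun i _ =>
          I.k2_act al Mc s s' i
    _ = Nw * ∑ s, ∑ s', T.P.Pr (I.e2 al Mc s s') := by
        simp only [Finset.sum_const, Finset.card_range, nsmul_eq_mul, Finset.mul_sum]
    _ ≤ Nw * Mc ^ 2 := mul_le_mul_of_nonneg_left (I.sum_Pr_e2 al Mc) (Nat.cast_nonneg _)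

/-- **names with tails for all the families `k2 (s, s', i)`** -/
theorem names2 (hal : ∀ t w s' h, (s', h) ∈ al t w → ∀ d, |h d| ≤ 1) {η ε : ℝ} (hη : 0 < η) (hε : 0 < ε) (j : ℕ)
    (n3 : ℝ) (hn3 : ((j : ℝ) + 1) * (96 * (I.p0 + 3) / η ^ 2) ≤ n3) :
    ∃ (F : S → S → ℕ → ℕ → Γ → B × C → V → ℝ) (Bn : S → S → ℕ → ℕ → Γ → κ × κ → List (Finset (B × C))),
      ∀ s s' i, NOut T.P (fun w => (T.b w, T.c w)) T.n T.gm (fun t (y : B × C) => (T.cb t y.1, T.cc t y.2)) T.ρ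
        T.par (I.k2 al Mc s s' i) (F s s' i) (Bn s s' i) η ε n3 ((1 / 2) ^ j) := by
  have h : ∀ s s' i, ∃ (F : ℕ → Γ → B × C → V → ℝ) (Bn : ℕ → Γ → κ × κ → List (Finset (B × C))),
      NOut T.P (fun w => (T.b w, T.c w)) T.n T.gm (fun t (y : B × C) => (T.cb t y.1, T.cc t y.2)) T.ρ
        T.par (I.k2 al Mc s s' i) F Bn η ε n3 ((1 / 2) ^ j) := fun s s' i =>
    names_tail T.side2 (I.k2 al Mc s s' i) (I.k2_b al Mc hal s s' i) (I.k2_zero al Mc s s' i) (I.p0 + 2)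
      (fun w => (I.k2_mv al Mc s s' i w).trans (by
        have h1 := ind_le_one (I.e2 al Mc s s' w)
        have h2 := I.p01
        nlinarith)) hη hε j n3 (by
        rw [show I.p0 + 2 + 1 = I.p0 + 3 by ring]
        exact hn3)
  choose F Bn h using h
  exact ⟨F, Bn, h⟩

end k2

end Inp

end

end Pool.Agent.M3.S2
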