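import Pool.Agent.M3.S2.Stage1b
import Pool.Agent.M3.S2.Cnt
import Pool.Agent.M3.S2.Par2

/-!
# M3/S2/Fin1 (helper65): stage 1, all references together

* `lost1_le`, `fin1_lost` : `b` lost in some system `(c; s)` : probability at most `δ K Ms` (`h3` of `concl`);
* `fin1` : all error bounds `err1` together, in the form `h4` of `concl` with `E1 = 1601 η1 + (1 + n2 η1) near`;
* `stage1` : existence of names, births and public tests with all these properties.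
-/

set_option autoImplicit false
set_option linter.unusedSectionVars false

namespace Pool.Agent.M3.S2

open Finset Pool.Agent.PWZ Pool.Agent.M3.TS

noncomputable section

/-- union over a finite type -/
theorem Pr_ex_univ {Om α : Type} [Fintype Om] [Fintype α] (P : FP Om) (s : α → Om → Prop) :
    P.Pr (fun w => ∃ i, s i w) ≤ ∑ i, P.Pr (s i) := by
  have h := P.Pr_ex_le (univ : Finset α) s
  refine le_trans (P.Pr_mono fun w _ => ?_) h
  rintro ⟨i, hi⟩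
  exact ⟨i, mem_univ i, hi⟩

/-- lost is increasing along the path -/
theorem lost_path {Om 𝒳 Γ κ : Type} {par : ℕ → Γ → Γ} {cl : ℕ → 𝒳 → κ} {Bn : ℕ → Γ → κ → List (Finset 𝒳)} {n1 : ℝ}
    {nd : ℕ → Om → Γ} (hp : ∀ t w, par t (nd (t + 1) w) = nd t w) {t t' : ℕ} (h : t ≤ t') {w : Om} {x : 𝒳}
    (hl : lost par cl Bn n1 t (nd t w) x) : lost par cl Bn n1 t' (nd t' w) x := by
  induction t', h using Nat.le_induction with
  | base => exact hl
  | succ t' _ ih =>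
    refine lost_mono ?_
    rw [hp]
    exact ih

variable {Om A B C V Γ κ S : Type} [Fintype Om] [Fintype A] [Fintype B] [Fintype C] [Fintype V]
  [Fintype S] [DecidableEq S] {m : ℕ} {T : Tri Om (S → Fin m) A B C V Γ κ}

namespace Inp

variable (I : Inp T S) {F : S → ℕ → C × Γ → B → V → ℝ} {Bn : S → ℕ → C × Γ → κ → List (Finset B)} {n1 : ℝ}

/-- `b` is lost in some system `(c; s)` -/
theorem lost1_le {η' ε' δ : ℝ} (hδ : 0 ≤ δ)
    (hN : ∀ s, NOut T.P T.b T.n (fun t w => (T.c w, T.gm t w)) T.cb (fun t g => T.ρ t g.2)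
      (fun t (g : C × Γ) => (g.1, T.par t g.2)) (I.k1 s) (F s) (Bn s) η' ε' n1 δ) :
    T.P.Pr (fun w => ∃ s, ∃ t ≤ T.n, lost (fun t (g : C × Γ) => (g.1, T.par t g.2)) T.cb (Bn s) n1 t (T.c w, T.gm t w)
      (T.b w)) ≤ δ * (T.K * I.Ms) := by
  have hK0 : 0 ≤ T.K := le_trans zero_le_one T.K1
  refine (Pr_ex_univ T.P _).trans ?_
  calc ∑ s, T.P.Pr (fun w => ∃ t ≤ T.n, lost (fun t (g : C × Γ) => (g.1, T.par t g.2)) T.cb (Bn s) n1 t
        (T.c w, T.gm t w) (T.b w))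
      ≤ ∑ s, δ * (T.K * T.P.Pr (fun w => I.onab w T.n s)) := by
        refine Finset.sum_le_sum fun s _ => ?_
        refine le_trans (T.P.Pr_mono fun w _ => ?_) ((hN s).tail.trans (mul_le_mul_of_nonneg_left (I.k1_act s) hδ))
        rintro ⟨t, ht, h⟩
        exact lost_path (nd := fun t w => (T.c w, T.gm t w)) (fun t w => by
          show (T.c w, T.par t (T.gm (t + 1) w)) = (T.c w, T.gm t w)
          rw [T.par_gm]) ht h
    _ = δ * (T.K * ∑ s, T.P.Pr (fun w => I.onab w T.n s)) := by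
        rw [Finset.mul_sum, Finset.mul_sum]
    _ ≤ δ * (T.K * I.Ms) :=
        mul_le_mul_of_nonneg_left (mul_le_mul_of_nonneg_left I.sum_onab hK0) hδ

variable {η1 : ℝ} {n2 : ℕ} {R0 ε2 : ℝ} {ts : ℕ → Om → List (S × (V → ℝ))}

/-- `b` is lost in some system `(c; s)`, in the form used by `concl` -/
theorem fin1_lost {η' ε' δ : ℝ} (hδ : 0 ≤ δ)
    (hN : ∀ s, NOut T.P T.b T.n (fun t w => (T.c w, T.gm t w)) T.cb (fun t g => T.ρ t g.2)
      (fun t (g : C × Γ) => (g.1, T.par t g.2)) (I.k1 s) (F s) (Bn s) η' ε' n1 δ) :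
    T.P.Pr (fun w => ∃ s, ∃ t ≤ T.n, I.act w t s ∧ lost (fun t (g : C × Γ) => (g.1, T.par t g.2)) T.cb (Bn s) n1 t
      (T.c w, T.gm t w) (T.b w)) ≤ δ * (T.K * I.Ms) := by
  refine le_trans (T.P.Pr_mono fun w _ => ?_) (I.lost1_le hδ hN)
  rintro ⟨s, t, ht, _, h⟩
  exact ⟨s, t, ht, h⟩

/-- number of moves of both processes of stage 1, per reference -/
def mm1 (I : Inp T S) (η1 : ℝ) (n2 : ℕ) (η' : ℝ) : ℝ :=
  (I.p0 + 1) * (1 + 32 / η' ^ 2) + (1 + I.p0 + 2 / η1 ^ 2 * ((1 + n2 * η1) ^ 2 + I.p0))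

/-- error probability of stage 1 -/
def q1 (I : Inp T S) (η1 : ℝ) (n2 : ℕ) (η' ε Kc : ℝ) : ℝ :=
  10 ^ 8 * ε * (I.mm1 η1 n2 η' * (T.K * I.Ms)) / (2 * η1 / (1 + n2 * η1)) ^ 4 * (1 + Real.log (Kc / ε))

/-- **STAGE 1, ALL REFERENCES TOGETHER** -/
theorem fin1 (hη : 0 < η1) (hε2 : 0 < ε2) (hts : I.Tests1 F Bn n1 η1 n2 R0 ε2 ts)
    {η' ε' δ : ℝ} (hη' : 0 < η')
    (hN : ∀ s, NOut T.P T.b T.n (fun t w => (T.c w, T.gm t w)) T.cb (fun t g => T.ρ t g.2)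
      (fun t (g : C × Γ) => (g.1, T.par t g.2)) (I.k1 s) (F s) (Bn s) η' ε' n1 δ) {Kc : ℝ}
    (hLM : LM T.P (fun w => (T.xi w, T.a w)) T.b T.n (fun t w => (T.c w, T.gm t w)) (fun t w => (T.c w, T.gm t w))
      (fun t x => T.ca t x.2) T.cb (fun t g => T.ρ t g.2) (fun t g => T.ρ t g.2) T.J T.near Kc)
    {ε : ℝ} (hX : 2 * η1 / (1 + n2 * η1) ≤ 1 / 4) (hηη : η' ≤ 4 * η1 / (1 + n2 * η1))
    (hε : 0 < ε) (hε1 : ε ≤ 1) (h1 : 2 * ε' ≤ ε) (h2 : 2 * ε2 ≤ ε) (hnear : T.near ≤ 2 * η1 / (1 + n2 * η1) / 4)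
    (hKc : 1 ≤ Kc) :
    T.P.Pr (fun w => ∃ s, ∃ t ≤ T.n, I.act w t s ∧
      ¬ lost (fun t (g : C × Γ) => (g.1, T.par t g.2)) T.cb (Bn s) n1 t (T.c w, T.gm t w) (T.b w) ∧
      1601 * η1 + (1 + n2 * η1) * T.near <
        |iw (T.J t w) (I.k1 s t (T.c w, T.gm t w) (T.b w)) (I.Z1 F Bn n1 η1 n2 R0 ts s t w)|) ≤
      I.q1 η1 n2 η' ε Kc := by
  have hK0 : 0 ≤ T.K := le_trans zero_le_one T.K1
  have hp := I.p01
  have hF : ∀ s t g b d, |F s t g b d| ≤ 1 := fun s => (hN s).F1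
  have hk1 : ∀ s t g b d, |I.k1 s t g b d| ≤ 1 := fun s t g b d => by
    unfold k1
    rw [abs_mul, abs_mul, abs_of_nonneg (ind_nonneg _)]
    exact mul_le_one₀ (mul_le_one₀ (ind_le_one _) (abs_nonneg _) (I.G1b t g.2 b g.1 d)) (abs_nonneg _) (I.u1 s b d)
  have hk0 : ∀ s g b d, I.k1 s 0 g b d = 0 := fun s g b d => by
    unfold k1
    rw [ind_not, zero_mul, zero_mul]
    intro h
    have h3 := h.1.1
    have h4 := I.tb1 s
    omega
  set c1 : ℝ := (I.p0 + 1) * (1 + 32 / η' ^ 2) with hc1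
  set c2 : ℝ := 1 + I.p0 + 2 / η1 ^ 2 * ((1 + n2 * η1) ^ 2 + I.p0) with hc2
  have hc10 : 0 ≤ c1 := by positivity
  have hc20 : 0 ≤ c2 := by positivity
  have hlog : 0 ≤ 1 + Real.log (Kc / ε) := by
    have h3 : 0 ≤ Real.log (Kc / ε) := by
      refine Real.log_nonneg ?_
      rw [le_div_iff₀ hε, one_mul]
      exact hε1.trans hKc
    linarith
  set G : ℝ := 10 ^ 8 * ε / (2 * η1 / (1 + n2 * η1)) ^ 4 * (1 + Real.log (Kc / ε)) with hG
  have hG0 : 0 ≤ G := by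
    have h3 : (0 : ℝ) ≤ 1 + n2 * η1 := by positivity
    rw [hG]
    positivity
  -- one reference
  have hone : ∀ s, T.P.Pr (fun w => ∃ t ≤ T.n, I.act w t s ∧
      ¬ lost (fun t (g : C × Γ) => (g.1, T.par t g.2)) T.cb (Bn s) n1 t
      (T.c w, T.gm t w) (T.b w) ∧ 1601 * η1 + (1 + n2 * η1) * T.near <
        |iw (T.J t w) (I.k1 s t (T.c w, T.gm t w) (T.b w)) (I.Z1 F Bn n1 η1 n2 R0 ts s t w)|) ≤
      G * ((c1 + c2) * (T.K * T.P.Pr (fun w => I.onab w T.n s))) := by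
    intro s
    have hpo : 0 ≤ T.K * T.P.Pr (fun w => I.onab w T.n s) := mul_nonneg hK0 (T.P.Pr_nonneg _)
    have hm1 : moves T.P T.b T.n (fun t w => (T.c w, T.gm t w)) (I.k1 s) * (1 + 32 / η' ^ 2) ≤
        (c1 + c2) * (T.K * T.P.Pr (fun w => I.onab w T.n s)) := by
      have h3 := mul_le_mul_of_nonneg_right (I.k1_movesE s) (by positivity : (0 : ℝ) ≤ 1 + 32 / η' ^ 2)
      have h4 : (I.p0 + 1) * (T.K * T.P.Pr (fun w => I.onab w T.n s)) * (1 + 32 / η' ^ 2) =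
          c1 * (T.K * T.P.Pr (fun w => I.onab w T.n s)) := by rw [hc1]; ring
      rw [h4] at h3
      rw [add_mul]
      have := mul_nonneg hc20 hpo
      linarith
    have hm2 : c2 * T.P.Pr (fun w => I.act w T.n s) ≤ (c1 + c2) * (T.K * T.P.Pr (fun w => I.onab w T.n s)) := by
      have h3 := mul_le_mul_of_nonneg_left (I.pr_act s) hc20
      rw [add_mul]
      have := mul_nonneg hc10 hpo
      linarith
    have h5 := I.err1 hη hε2 hts s hη' (hN s) hF (hk1 s) (hk0 s) hLM hX hηη hε hε1 h1 h2 hnear hm1 hm2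
    refine le_trans (T.P.Pr_mono fun w _ => ?_) (h5.trans (le_of_eq ?_))
    · rintro ⟨t, ht, _, h6⟩
      exact ⟨t, ht, h6⟩
    · rw [hG]
      ring
  refine (Pr_ex_univ T.P _).trans ?_
  calc _ ≤ ∑ s, G * ((c1 + c2) * (T.K * T.P.Pr (fun w => I.onab w T.n s))) := Finset.sum_le_sum fun s _ => hone s
    _ = G * ((c1 + c2) * (T.K * ∑ s, T.P.Pr (fun w => I.onab w T.n s))) := by
        simp only [Finset.mul_sum]
    _ ≤ G * ((c1 + c2) * (T.K * I.Ms)) := mul_le_mul_of_nonneg_left (mul_le_mul_of_nonneg_left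
        (mul_le_mul_of_nonneg_left I.sum_onab hK0) (add_nonneg hc10 hc20)) hG0
    _ = I.q1 η1 n2 η' ε Kc := by
        unfold q1 mm1
        rw [← hc1, ← hc2, hG]
        ring

/-- **STAGE 1**: names, births, public tests, with the error bounds in the form used by `concl` (`h3`, `h4`) -/
theorem stage1 (hη : 0 < η1) (n2 : ℕ) (R0 : ℝ) (hε2 : 0 < ε2) {η' ε' : ℝ} (hη' : 0 < η') (hε' : 0 < ε') (j : ℕ)
    (hn1 : ((j : ℝ) + 1) * (96 * (I.p0 + 2) / η' ^ 2) ≤ n1) {Kc : ℝ}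
    (hLM : LM T.P (fun w => (T.xi w, T.a w)) T.b T.n (fun t w => (T.c w, T.gm t w)) (fun t w => (T.c w, T.gm t w))
      (fun t x => T.ca t x.2) T.cb (fun t g => T.ρ t g.2) (fun t g => T.ρ t g.2) T.J T.near Kc)
    {ε : ℝ} (hX : 2 * η1 / (1 + n2 * η1) ≤ 1 / 4) (hηη : η' ≤ 4 * η1 / (1 + n2 * η1))
    (hε : 0 < ε) (hε1 : ε ≤ 1) (h1 : 2 * ε' ≤ ε) (h2 : 2 * ε2 ≤ ε) (hnear : T.near ≤ 2 * η1 / (1 + n2 * η1) / 4)
    (hKc : 1 ≤ Kc) :
    ∃ (F : S → ℕ → C × Γ → B → V → ℝ) (Bn : S → ℕ → C × Γ → κ → List (Finset B)) (ts : ℕ → Om → List (S × (V → ℝ))),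
      (∀ s, NOut T.P T.b T.n (fun t w => (T.c w, T.gm t w)) T.cb (fun t g => T.ρ t g.2)
        (fun t (g : C × Γ) => (g.1, T.par t g.2)) (I.k1 s) (F s) (Bn s) η' ε' n1 ((1 / 2) ^ j)) ∧
      I.Tests1 F Bn n1 η1 n2 R0 ε2 ts ∧
      T.P.Pr (fun w => ∃ s, ∃ t ≤ T.n, I.act w t s ∧
        lost (fun t (g : C × Γ) => (g.1, T.par t g.2)) T.cb (Bn s) n1 t (T.c w, T.gm t w) (T.b w)) ≤
        (1 / 2) ^ j * (T.K * I.Ms) ∧
      T.P.Pr (fun w => ∃ s, ∃ t ≤ T.n, I.act w t s ∧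
        ¬ lost (fun t (g : C × Γ) => (g.1, T.par t g.2)) T.cb (Bn s) n1 t (T.c w, T.gm t w) (T.b w) ∧
        1601 * η1 + (1 + n2 * η1) * T.near <
          |iw (T.J t w) (I.k1 s t (T.c w, T.gm t w) (T.b w)) (I.Z1 F Bn n1 η1 n2 R0 ts s t w)|) ≤
        I.q1 η1 n2 η' ε Kc := by
  obtain ⟨F, Bn, hN⟩ := I.names1 hη' hε' j n1 hn1
  obtain ⟨ts, hts⟩ := I.tests1 F Bn n1 hη n2 R0 hε2
  exact ⟨F, Bn, ts, hN, hts, I.fin1_lost (by positivity) hN,
    I.fin1 hη hε2 hts hη' hN hLM hX hηη hε hε1 h1 h2 hnear hKc⟩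

end Inp

end

end Pool.Agent.M3.S2
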