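import Pool.Agent.M3.S2.Stage2

/-!
# M3/S2/KeyI : Lemma K for the runs of section 2 (helper44)

`key_s2` : outside an event of probability `(2/η1^2 (1 + p0) + |S|/m)/R0` the actual run (record `N1`) agrees with the run
`+s` (record `nu1 s`) at all times `t ≤ n`, for every `s` in the list of the true pair `(a, b)`.
-/

set_option autoImplicit false
set_option linter.unusedSectionVars false

namespace Pool.Agent.M3.S2

open Finset Pool.Agent.PWZ Pool.Agent.M3.TS

noncomputable section

variable {Om A B C V Γ κ S : Type} [Fintype Om] [Fintype A] [Fintype B] [Fintype C] [Fintype V]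
  [Fintype S] [DecidableEq S] {m : ℕ} {T : Tri Om (S → Fin m) A B C V Γ κ}

theorem upd_iff {s : S} {j0 : Fin m} {x y : S → Fin m} :
    Function.update x s j0 = Function.update y s j0 ↔ ∀ r, r ≠ s → x r = y r := by
  constructor
  · intro h r hr
    have := congrFun h r
    rwa [Function.update_of_ne hr, Function.update_of_ne hr] at this
  · intro h
    funext r
    by_cases hr : r = s
    · subst hr
      rw [Function.update_self, Function.update_self]
    · rw [Function.update_of_ne hr, Function.update_of_ne hr, h r hr]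

/-- sum over the value of the threshold of `s` -/
theorem E_fib_xi (s : S) (j0 : Fin m) (w : Om) {β : Type} (Y : Om → β) (f : Om → ℝ) :
    T.P.E (fun v => ind ((Function.update (T.xi v) s j0, Y v) = (Function.update (T.xi w) s j0, Y w)) * f v) =
      ∑ j : Fin m, T.P.E (fun v => ind (T.xi v = Function.update (T.xi w) s j ∧ Y v = Y w) * f v) := by
  classical
  rw [← T.P.E_sum]
  refine T.P.E_congr fun v _ => ?_
  rw [← Finset.sum_mul]
  congr 1
  by_cases h : (Function.update (T.xi v) s j0, Y v) = (Function.update (T.xi w) s j0, Y w)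
  · rw [ind_of h]
    simp only [Prod.mk.injEq] at h
    have hx : T.xi v = Function.update (T.xi w) s (T.xi v s) := by
      funext r
      by_cases hr : r = s
      · subst hr
        rw [Function.update_self]
      · rw [Function.update_of_ne hr]
        exact upd_iff.1 h.1 r hr
    rw [Finset.sum_eq_single (T.xi v s)]
    · rw [ind_of ⟨hx, h.2⟩]
    · intro j _ hj
      refine ind_not fun h1 => hj ?_
      have := congrFun h1.1 s
      rw [Function.update_self] at this
      exact this.symm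
    · intro h1
      exact absurd (mem_univ _) h1
  · rw [ind_not h]
    symm
    refine Finset.sum_eq_zero fun j _ => ind_not fun h1 => h ?_
    rw [h1.1, h1.2]
    simp only [Prod.mk.injEq, and_true]
    rw [upd_iff]
    intro r hr
    rw [Function.update_of_ne hr]

namespace Inp

variable (I : Inp T S) (F : S → ℕ → C × Γ → B → V → ℝ) (Bn : S → ℕ → C × Γ → κ → List (Finset B)) (n1 : ℝ)

theorem loc1_congr {t : ℕ} {v w : Om} (ha : T.a v = T.a w) (hc : T.c v = T.c w) (hg : T.gm t v = T.gm t w) :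
    I.loc1 F Bn n1 t v = I.loc1 F Bn n1 t w := by
  unfold loc1
  rw [I.ls1_congr F Bn n1 (by rw [ha]) hc hg, ha, hc, hg]
  have e1 : T.mean t v = T.mean t w := by
    funext f
    unfold Tri.mean
    rw [hg]
  have e2 : (∃ u, t = u + 1 ∧ I.G2 t (T.gm t w) (T.a w) (T.c w) ≠ I.G2 u (T.gm u v) (T.a w) (T.c w)) =
      (∃ u, t = u + 1 ∧ I.G2 t (T.gm t w) (T.a w) (T.c w) ≠ I.G2 u (T.gm u w) (T.a w) (T.c w)) := by
    refine propext (exists_congr fun u => ?_)
    constructor
    · rintro ⟨h1, h2⟩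
      exact ⟨h1, by rw [← T.gm_anc (by omega : u ≤ t) hg]; exact h2⟩
    · rintro ⟨h1, h2⟩
      exact ⟨h1, by rw [T.gm_anc (by omega : u ≤ t) hg]; exact h2⟩
  rw [e1, e2]

variable {F Bn n1} {R0 : ℝ}

theorem dens_nng (s : S) (t : ℕ) (a0 : A) (β : κ) : 0 ≤ I.dens s t a0 β := by
  unfold dens
  exact div_nonneg (Finset.sum_nonneg fun _ _ => ind_nonneg _) (Nat.cast_nonneg _)

theorem Zd_nng (s : S) (j : ℕ) (w : Om) : 0 ≤ I.Zd s j w := by
  unfold Zd
  refine le_trans ?_ (Finset.le_sup' _ (mem_univ w))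
  exact mul_nonneg (ind_nonneg _) (I.dens_nng _ _ _ _)

/-- a recorded reference is active -/
theorem N1_act {w : Om} {t : ℕ} {s : S} (hR : 0 ≤ R0) (h : I.N1 R0 w t s) : I.act w t s := by
  classical
  have hm : (0 : ℝ) ≤ m := Nat.cast_nonneg m
  have hpos : 0 < I.Dm s t w := by
    by_contra h1
    have h2 : I.Dm s t w ≤ 0 := not_lt.1 h1
    unfold N1 at h
    have h3 : (m : ℝ) * (R0 * I.Dm s t w) ≤ 0 :=
      mul_nonpos_of_nonneg_of_nonpos hm (mul_nonpos_of_nonneg_of_nonpos hR h2)
    have h4 : (0 : ℝ) ≤ (((T.xi w s : Fin m) : ℕ) : ℝ) := Nat.cast_nonneg _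
    linarith
  have h1 : ∃ j ≤ t, 0 < I.Zd s j w := by
    unfold Dm at hpos
    have h2 : 0 < FP.rmax (I.Zd s) t w := by linarith
    exact (FP.lt_rmax_iff (I.Zd s) t w 0).1 h2
  obtain ⟨j, hj, hZ⟩ := h1
  have h2 : ∃ w', 0 < ind (I.on s j w ∧ T.ca j (T.a w') = T.ca j (T.a w) ∧ T.cc j (T.c w') = T.cc j (T.c w) ∧
      T.gm j w' = T.gm j w) * I.dens s j (T.a w) (T.cb j (T.b w')) := by
    by_contra h3
    simp only [not_exists, not_lt] at h3
    have : I.Zd s j w ≤ 0 := by
      unfold Zd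
      exact Finset.sup'_le _ _ fun w' _ => h3 w'
    linarith
  obtain ⟨w', hw'⟩ := h2
  by_cases hc : I.on s j w ∧ T.ca j (T.a w') = T.ca j (T.a w) ∧ T.cc j (T.c w') = T.cc j (T.c w) ∧
      T.gm j w' = T.gm j w
  · rw [ind_of hc, one_mul] at hw'
    obtain ⟨ho, h4, h5, h6⟩ := hc
    have h7 : ∃ b' ∈ cel (T.cb j) (T.cb j (T.b w')), I.R.mem s (T.a w) b' := by
      by_contra h8
      simp only [not_exists, not_and] at h8
      have : I.dens s j (T.a w) (T.cb j (T.b w')) = 0 := by
        unfold dens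
        rw [Finset.sum_eq_zero, zero_div]
        exact fun b' hb' => ind_not (h8 b' hb')
      linarith
    obtain ⟨b', hb', hmem⟩ := h7
    have hm2 := I.mal s (T.a w) b' hmem
    have htb : I.R.tb s ≤ j := ho.1
    refine ⟨I.on_mono hj ho, hm2.1, w', ?_, ?_, ?_, ?_⟩
    · rw [nest_le T.na htb h4]
      exact hm2.1
    · rw [← nest_le T.nb htb (mem_cel.1 hb')]
      exact hm2.2
    · exact nest_le T.nc htb h5
    · rw [T.gm_anc htb h6]
      exact ho.2
  · rw [ind_not hc, zero_mul] at hw'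
    exact absurd hw' (lt_irrefl 0)

/-- distinct used references -/
theorem sum_used_le {η : ℝ} {n2 : ℕ} {x : ℕ → Loc S V} {ts : ℕ → List (S × (V → ℝ))} {ν : ℕ → S → Prop} (t : ℕ) :
    ∑ s, ind (UsedAt η n2 x ts ν t s) ≤ upd η n2 x ts ν t := by
  classical
  obtain ⟨L, hL⟩ := hpre_suffix (η := η) (n2 := n2) (x := x) (ts := ts) (ν := ν) t
  have h1 : upd η n2 x ts ν t = L.length := by
    unfold upd
    rw [← hL, List.length_append]
    push_cast
    ring
  rw [h1]
  have h2 : ∀ s, ind (UsedAt η n2 x ts ν t s) ≤ ind (s ∈ (L.map Prod.fst).toFinset) := by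
    intro s
    refine ind_mono ?_
    rintro ⟨L', hL', p, hp, hps⟩
    have : L = L' := List.append_cancel_right (hL.trans hL')
    rw [List.mem_toFinset, List.mem_map]
    exact ⟨p, this ▸ hp, hps⟩
  refine (Finset.sum_le_sum fun s _ => h2 s).trans ?_
  have h3 : ∑ s, ind (s ∈ (L.map Prod.fst).toFinset) = ((L.map Prod.fst).toFinset.card : ℝ) := by
    rw [Finset.card_eq_sum_ones]
    push_cast
    rw [← Finset.sum_filter_add_sum_filter_not univ (fun s => s ∈ (L.map Prod.fst).toFinset)]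
    rw [Finset.sum_congr rfl (g := fun _ => (1 : ℝ)) fun s hs => ind_of (Finset.mem_filter.1 hs).2]
    rw [Finset.sum_eq_zero (s := univ.filter fun s => ¬ s ∈ (L.map Prod.fst).toFinset) fun s hs =>
      ind_not (Finset.mem_filter.1 hs).2, add_zero]
    refine Finset.sum_congr ?_ fun _ _ => rfl
    ext s
    simp
  rw [h3]
  have h4 := List.toFinset_card_le (L.map Prod.fst)
  rw [List.length_map] at h4
  exact_mod_cast h4

variable {η1 : ℝ} {n2 : ℕ} {ε2 : ℝ} {ts : ℕ → Om → List (S × (V → ℝ))}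

theorem N1_fac_k (R0 : ℝ) (t : ℕ) : Fac (T.KK1 t) (fun w => I.N1 R0 w t) := fun v w h => by
  rw [K1_iff] at h
  funext r
  exact propext (I.N1_congr (congrFun h.1 r) h.2.1 (by rw [h.2.2.1]) h.2.2.2)

/-- **LEMMA K for section 2** -/
theorem key_s2 (hm : 0 < m) (hη : 0 < η1) (hF : ∀ s t g b d, |F s t g b d| ≤ 1)
    (hts : I.Tests1 F Bn n1 η1 n2 R0 ε2 ts) (hR : 0 < R0) :
    T.P.Pr (fun w => ∃ s, I.live s T.n w ∧ ∃ t ≤ T.n, Hi η1 n2 (I.loc1 F Bn n1) ts (fun t w => I.N1 R0 w t) t w ≠
      Hi η1 n2 (I.loc1 F Bn n1) ts (I.nu1 R0 s) t w) ≤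
      (2 / η1 ^ 2 * (1 + I.p0) + Fintype.card S / m) / R0 := by
  classical
  set n := T.n with hn
  -- the data
  set j0 : Fin m := ⟨0, hm⟩ with hj0
  set W : S → Om → (S → Fin m) × A × B × C × Γ := fun s w =>
    (Function.update (T.xi w) s j0, (T.a w, T.b w, T.c w, T.gm n w)) with hW
  set K : S → ℕ → Om → (S → Fin m) × A × C × Γ := fun s t w =>
    (Function.update (T.xi w) s j0, (T.a w, T.c w, T.gm (min t n) w)) with hK
  set hist' : Om → (ℕ → S → Prop) → ℕ → List (S × (V → ℝ)) := fun w ν t =>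
    hist η1 n2 (fun t => I.loc1 F Bn n1 t w) (fun t => ts t w) ν (min t n) with hhist
  set use' : Om → (ℕ → S → Prop) → ℕ → S → Prop := fun w ν t s =>
    t ≤ n ∧ UsedAt η1 n2 (fun t => I.loc1 F Bn n1 t w) (fun t => ts t w) ν t s with huse
  set b' : Om → ℕ → S → Prop := fun w t s => I.act w (min t n) s with hb
  set N' : Om → ℕ → S → Prop := fun w t s => I.N1 R0 w (min t n) s with hN
  have hxi : ∀ s j w, T.P.p w ≠ 0 → T.P.ce (W s) (fun v => ind (T.xi v s = j)) w = 1 / m := by
    intro s j w hw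
    have hm' : (0 : ℝ) < m := by exact_mod_cast hm
    set q : ℝ := T.P.Pr (fun v => T.a v = T.a w ∧ T.b v = T.b w ∧ T.c v = T.c w ∧ T.gm n v = T.gm n w) /
      Fintype.card (S → Fin m) with hq
    have hfib : ∀ j', T.P.E (fun v => ind (T.xi v = Function.update (T.xi w) s j' ∧
        (T.a v, T.b v, T.c v, T.gm n v) = (T.a w, T.b w, T.c w, T.gm n w)) * 1) = q := by
      intro j'
      rw [hq, ← T.ixi n (T.gm n w) (Function.update (T.xi w) s j') (T.a w) (T.b w) (T.c w)]
      unfold FP.Pr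
      refine T.P.E_congr fun v _ => ?_
      rw [mul_one]
      congr 1
      simp only [Prod.mk.injEq]
    have hM : T.P.m (W s) w = m * q := by
      have h1 : T.P.m (W s) w = T.P.E (fun v => ind (W s v = W s w) * 1) := by
        unfold FP.m
        exact T.P.E_congr fun v _ => (mul_one _).symm
      rw [h1]
      show T.P.E (fun v => ind ((Function.update (T.xi v) s j0, (T.a v, T.b v, T.c v, T.gm n v)) =
        (Function.update (T.xi w) s j0, (T.a w, T.b w, T.c w, T.gm n w))) * 1) = m * q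
      rw [E_fib_xi s j0 w (fun v => (T.a v, T.b v, T.c v, T.gm n v)) (fun _ => 1), Finset.sum_congr rfl fun j' _ => hfib j',
        Finset.sum_const, nsmul_eq_mul]
      simp
    have hNu : T.P.E (fun v => ind (W s v = W s w) * ind (T.xi v s = j)) = q := by
      show T.P.E (fun v => ind ((Function.update (T.xi v) s j0, (T.a v, T.b v, T.c v, T.gm n v)) =
        (Function.update (T.xi w) s j0, (T.a w, T.b w, T.c w, T.gm n w))) * ind (T.xi v s = j)) = q
      rw [E_fib_xi s j0 w (fun v => (T.a v, T.b v, T.c v, T.gm n v)) (fun v => ind (T.xi v s = j)),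
        Finset.sum_eq_single j]
      · rw [← hfib j]
        refine T.P.E_congr fun v _ => ?_
        by_cases h : T.xi v = Function.update (T.xi w) s j ∧
          (T.a v, T.b v, T.c v, T.gm n v) = (T.a w, T.b w, T.c w, T.gm n w)
        · rw [ind_of h, ind_of (show T.xi v s = j by rw [h.1, Function.update_self])]
        · rw [ind_not h, zero_mul, zero_mul]
      · intro j' _ hj'
        have : (fun v => ind (T.xi v = Function.update (T.xi w) s j' ∧
            (T.a v, T.b v, T.c v, T.gm n v) = (T.a w, T.b w, T.c w, T.gm n w)) * ind (T.xi v s = j)) =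
            fun _ => (0 : ℝ) := by
          funext v
          by_cases h : T.xi v = Function.update (T.xi w) s j' ∧
            (T.a v, T.b v, T.c v, T.gm n v) = (T.a w, T.b w, T.c w, T.gm n w)
          · rw [ind_not (show ¬ T.xi v s = j from fun h1 => hj' (by
              rw [h.1, Function.update_self] at h1; exact h1)), mul_zero]
          · rw [ind_not h, zero_mul]
        rw [this, T.P.E_const]
      · intro h
        exact absurd (mem_univ _) h
    have hMp : 0 < T.P.m (W s) w := T.P.m_pos _ hw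
    have hqp : q ≠ 0 := fun h => by
      rw [hM, h, mul_zero] at hMp
      exact lt_irrefl _ hMp
    show T.P.E (fun v => ind (W s v = W s w) * ind (T.xi v s = j)) / T.P.m (W s) w = 1 / m
    rw [hNu, hM]
    field_simp
  have hWK : ∀ s t, Fac (W s) (K s t) := by
    intro s t v w h
    simp only [hW, hK, Prod.mk.injEq] at h ⊢
    exact ⟨h.1, h.2.1, h.2.2.2.1, T.gm_anc (min_le_right t n) h.2.2.2.2⟩
  have hWm : ∀ s, Fac (W s) (fun w => ind (I.live s n w)) := by
    intro s
    refine Fac.ind fun v w h => ?_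
    simp only [hW, Prod.mk.injEq] at h
    unfold live
    rw [I.on_congr h.2.2.2.2, h.2.1, h.2.2.1]
  have hKD : ∀ s t {v w : Om}, K s t v = K s t w → (∀ r, r ≠ s → T.xi v r = T.xi w r) ∧ T.a v = T.a w ∧
      T.c v = T.c w ∧ T.gm (min t n) v = T.gm (min t n) w := by
    intro s t v w h
    simp only [hK, Prod.mk.injEq] at h
    exact ⟨upd_iff.1 h.1, h.2.1, h.2.2.1, h.2.2.2⟩
  have hD : ∀ s t, Fac (K s t) (fun w => I.Dm s (min t n) w) := by
    intro s t v w h
    obtain ⟨_, h2, h3, h4⟩ := hKD s t h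
    exact I.Dm_congr h2 (by rw [h3]) h4
  have hDm : ∀ s t u w, t ≤ u → I.Dm s (min t n) w ≤ I.Dm s (min u n) w := by
    intro s t u w h
    unfold Dm
    have := FP.rmax_mono (I.Zd s) (min_le_min_right n h) w
    linarith
  have hC : ∀ w, T.P.p w ≠ 0 → Cons (hist' w) (use' w) := by
    intro w _
    have C := run_cons η1 n2 (fun t => I.loc1 F Bn n1 t w) (fun t => ts t w)
    refine ⟨fun ν t s h => C.sub ν t s h.2, fun nu nu' T0 hs hu t ht => ?_⟩
    have h := C.k0 nu nu' (min T0 n) (fun t ht s => hs t (ht.trans (min_le_left _ _)) s)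
      (fun t ht s h1 => hu t (ht.trans (min_le_left _ _)) s ⟨ht.trans (min_le_right _ _), h1⟩)
    refine ⟨(h (min t n) (min_le_min_right n ht)).1, fun s => and_congr_right fun htn => ?_⟩
    exact (h t (le_min ht htn)).2 s
  -- the run `+s` up to a time `≤ n` is a function of `K s t`
  have hplus : ∀ s t, t ≤ n → ∀ v w, K s t v = K s t w → ∀ u ≤ t,
      plus (b' v) (N' v) s u = plus (b' w) (N' w) s u := by
    intro s t ht v w h u hu
    obtain ⟨h1, h2, h3, h4⟩ := hKD s t h
    rw [min_eq_left ht] at h4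
    have h5 : T.gm u v = T.gm u w := T.gm_anc hu h4
    funext r
    refine propext ?_
    show (I.N1 R0 v (min u n) r ∨ (r = s ∧ I.act v (min u n) s)) ↔ (I.N1 R0 w (min u n) r ∨ (r = s ∧ I.act w (min u n) s))
    rw [min_eq_left (hu.trans ht)]
    have ha : I.act v u s ↔ I.act w u s := I.act_congr (by rw [h2]) h3 h5
    by_cases hr : r = s
    · subst hr
      constructor
      · rintro (h6 | h6)
        · exact Or.inr ⟨rfl, ha.1 (I.N1_act hR.le h6)⟩
        · exact Or.inr ⟨rfl, ha.1 h6.2⟩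
      · rintro (h6 | h6)
        · exact Or.inr ⟨rfl, ha.2 (I.N1_act hR.le h6)⟩
        · exact Or.inr ⟨rfl, ha.2 h6.2⟩
    · rw [I.N1_congr (h1 r hr) h2 (by rw [h3]) h5]
      constructor
      · rintro (h6 | h6)
        · exact Or.inl h6
        · exact absurd h6.1 hr
      · rintro (h6 | h6)
        · exact Or.inl h6
        · exact absurd h6.1 hr
  have hhs : ∀ s t, t ≤ n → ∀ v w, K s t v = K s t w → ∀ u ≤ t,
      hist η1 n2 (fun t => I.loc1 F Bn n1 t v) (fun t => ts t v) (plus (b' v) (N' v) s) u =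
        hist η1 n2 (fun t => I.loc1 F Bn n1 t w) (fun t => ts t w) (plus (b' w) (N' w) s) u ∧
      hpre η1 n2 (fun t => I.loc1 F Bn n1 t v) (fun t => ts t v) (plus (b' v) (N' v) s) u =
        hpre η1 n2 (fun t => I.loc1 F Bn n1 t w) (fun t => ts t w) (plus (b' w) (N' w) s) u := by
    intro s t ht v w h u hu
    obtain ⟨h1, h2, h3, h4⟩ := hKD s t h
    rw [min_eq_left ht] at h4
    have hx : ∀ r ≤ u, I.loc1 F Bn n1 r v = I.loc1 F Bn n1 r w := fun r hr =>
      I.loc1_congr F Bn n1 h2 h3 (T.gm_anc (hr.trans hu) h4)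
    have ht' : ∀ r ≤ u, ts r v = ts r w := fun r hr => hts.tsQ r v w (by
      rw [Q1_iff]
      exact ⟨h3, T.gm_anc (hr.trans hu) h4, by rw [h2]⟩)
    have hν : ∀ r ≤ u, plus (b' v) (N' v) s r = plus (b' w) (N' w) s r := fun r hr =>
      hplus s t ht v w h r (hr.trans hu)
    exact ⟨hist_congr u hx ht' hν, hpre_congr' u hx (fun r hr => ht' r hr.le) fun r hr => hν r hr.le⟩
  have huc : ∀ s t, t ≤ n → ∀ v w, K s t v = K s t w → ∀ u ≤ t, ∀ r,
      (use' v (plus (b' v) (N' v) s) u r ↔ use' w (plus (b' w) (N' w) s) u r) := by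
    intro s t ht v w h u hu r
    obtain ⟨h1, h2⟩ := hhs s t ht v w h u hu
    show (u ≤ n ∧ UsedAt η1 n2 _ _ _ u r) ↔ (u ≤ n ∧ UsedAt η1 n2 _ _ _ u r)
    unfold UsedAt
    rw [h1, h2]
  have hL : ∀ s t, Fac (K s t) (fun w => ind (firstUse (use' w) (plus (b' w) (N' w) s) s t)) := by
    intro s t
    by_cases ht : t ≤ n
    · refine Fac.ind fun v w h => ?_
      unfold firstUse
      rw [huc s t ht v w h t le_rfl s]
      refine and_congr_right fun _ => forall_congr' fun u => ?_
      constructor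
      · intro h1 hu h2
        exact h1 hu ((huc s t ht v w h u hu.le s).2 h2)
      · intro h1 hu h2
        exact h1 hu ((huc s t ht v w h u hu.le s).1 h2)
    · have : (fun w => ind (firstUse (use' w) (plus (b' w) (N' w) s) s t)) = fun _ => (0 : ℝ) := by
        funext w
        exact ind_not fun h => ht h.1.1
      rw [this]
      exact Fac.const _ _
  have hden : ∀ s t w, T.P.p w ≠ 0 → firstUse (use' w) (plus (b' w) (N' w) s) s t →
      T.P.ce (K s t) (fun v => ind (I.live s n v)) w ≤ I.Dm s (min t n) w := by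
    intro s t w hw hf
    have htn : t ≤ n := hf.1.1
    have hact : I.act w t s := by
      have h1 : plus (b' w) (N' w) s t s := (hC w hw).sub _ t s hf.1
      have h2 : I.N1 R0 w (min t n) s ∨ (s = s ∧ I.act w (min t n) s) := h1
      rw [min_eq_left htn] at h2
      rcases h2 with h3 | h3
      · exact I.N1_act hR.le h3
      · exact h3.2
    rw [min_eq_left htn]
    have hZ0 := I.Zd_nng s t w
    have hZD : 2 * I.Zd s t w ≤ I.Dm s t w := by
      unfold Dm
      have := FP.le_rmax (I.Zd s) le_rfl w (t := t) (n := t)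
      linarith
    refine le_trans ?_ hZD
    have hMp : 0 < T.P.m (K s t) w := T.P.m_pos _ hw
    show T.P.E (fun v => ind (K s t v = K s t w) * ind (I.live s n v)) / T.P.m (K s t) w ≤ 2 * I.Zd s t w
    rw [div_le_iff₀ hMp]
    have hM1 : T.P.m (K s t) w = ∑ j : Fin m, T.P.E (fun v => ind (T.xi v = Function.update (T.xi w) s j ∧
        (T.a v, T.c v, T.gm (min t n) v) = (T.a w, T.c w, T.gm (min t n) w)) * 1) := by
      rw [← E_fib_xi s j0 w (fun v => (T.a v, T.c v, T.gm (min t n) v)) (fun _ => 1)]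
      unfold FP.m
      exact T.P.E_congr fun v _ => (mul_one _).symm
    have hE1 : T.P.E (fun v => ind (K s t v = K s t w) * ind (I.live s n v)) =
        ∑ j : Fin m, T.P.E (fun v => ind (T.xi v = Function.update (T.xi w) s j ∧
        (T.a v, T.c v, T.gm (min t n) v) = (T.a w, T.c w, T.gm (min t n) w)) * ind (I.live s n v)) :=
      E_fib_xi s j0 w (fun v => (T.a v, T.c v, T.gm (min t n) v)) (fun v => ind (I.live s n v))
    rw [hM1, hE1, Finset.mul_sum]
    refine Finset.sum_le_sum fun j _ => ?_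
    have hedge := T.edgeB t (T.gm t w) (Function.update (T.xi w) s j) (T.a w) (T.c w) (fun b0 => I.R.mem s (T.a w) b0)
      (I.Zd s t w) hZ0 (fun β hβ => by
        obtain ⟨w', h1, h2, h3, h4⟩ := hβ
        have h5 : I.dens s t (T.a w) β ≤ I.Zd s t w := by
          unfold Zd
          refine le_trans (le_of_eq ?_) (Finset.le_sup' (fun w' => ind (I.on s t w ∧ T.ca t (T.a w') = T.ca t (T.a w) ∧
            T.cc t (T.c w') = T.cc t (T.c w) ∧ T.gm t w' = T.gm t w) * I.dens s t (T.a w) (T.cb t (T.b w')))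
            (mem_univ w'))
          rw [ind_of ⟨hact.1, h1, h3, h4⟩, one_mul, h2]
        by_cases hc : (0 : ℝ) < ((cel (T.cb t) β).card : ℝ)
        · unfold dens at h5
          rw [div_le_iff₀ hc] at h5
          exact h5
        · have h6 : ((cel (T.cb t) β).card : ℝ) = 0 := le_antisymm (not_lt.1 hc) (Nat.cast_nonneg _)
          have h7 : cel (T.cb t) β = ∅ := by
            have : (cel (T.cb t) β).card = 0 := by exact_mod_cast h6
            exact Finset.card_eq_zero.1 this
          rw [h7]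
          simp)
    have e1 : T.P.E (fun v => ind (T.xi v = Function.update (T.xi w) s j ∧
        (T.a v, T.c v, T.gm (min t n) v) = (T.a w, T.c w, T.gm (min t n) w)) * 1) =
        T.P.Pr (fun v => T.xi v = Function.update (T.xi w) s j ∧ T.a v = T.a w ∧ T.c v = T.c w ∧
          T.gm t v = T.gm t w) := by
      unfold FP.Pr
      refine T.P.E_congr fun v _ => ?_
      rw [mul_one]
      congr 1
      simp only [Prod.mk.injEq, min_eq_left htn]
    have e2 : T.P.E (fun v => ind (T.xi v = Function.update (T.xi w) s j ∧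
        (T.a v, T.c v, T.gm (min t n) v) = (T.a w, T.c w, T.gm (min t n) w)) * ind (I.live s n v)) ≤
        T.P.Pr (fun v => T.xi v = Function.update (T.xi w) s j ∧ T.a v = T.a w ∧ T.c v = T.c w ∧
          T.gm t v = T.gm t w ∧ I.R.mem s (T.a w) (T.b v)) := by
      unfold FP.Pr
      refine T.P.E_mono fun v _ => ?_
      by_cases h1 : T.xi v = Function.update (T.xi w) s j ∧
        (T.a v, T.c v, T.gm (min t n) v) = (T.a w, T.c w, T.gm (min t n) w)
      · by_cases h2 : I.live s n v
        · have h3 := h1.2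
          simp only [Prod.mk.injEq, min_eq_left htn] at h3
          have h4 : T.xi v = Function.update (T.xi w) s j ∧ T.a v = T.a w ∧ T.c v = T.c w ∧
            T.gm t v = T.gm t w ∧ I.R.mem s (T.a w) (T.b v) :=
            ⟨h1.1, h3.1, h3.2.1, h3.2.2, by rw [← h3.1]; exact h2.2⟩
          rw [ind_of h1, ind_of h2, ind_of h4, one_mul]
        · rw [ind_not h2, mul_zero]
          exact ind_nonneg _
      · rw [ind_not h1, zero_mul]
        exact ind_nonneg _
    rw [e1]
    exact e2.trans hedge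
  have hfin := T.P.key_agree hm T.xi W hxi K hWK (fun s w => I.live s n w) hWm hR
    (fun s t w => I.Dm s (min t n) w) hD hDm b' N' (fun w t s => Iff.rfl) hist' use' hC hL hden n
  refine le_trans (T.P.Pr_mono fun w _ => ?_) (hfin.trans ?_)
  · rintro ⟨s, hs, t, ht, hne⟩
    refine ⟨s, hs, t, ht, fun h => hne ?_⟩
    have h1 : hist η1 n2 (fun t => I.loc1 F Bn n1 t w) (fun t => ts t w) (N' w) t =
        hist η1 n2 (fun t => I.loc1 F Bn n1 t w) (fun t => ts t w) (plus (b' w) (N' w) s) t := by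
      have h2 : hist' w (N' w) t = hist' w (plus (b' w) (N' w) s) t := h
      simp only [hhist, min_eq_left ht] at h2
      exact h2
    show hist η1 n2 (fun t => I.loc1 F Bn n1 t w) (fun t => ts t w) (fun t => I.N1 R0 w t) t =
      hist η1 n2 (fun t => I.loc1 F Bn n1 t w) (fun t => ts t w) (fun t => I.nu1 R0 s t w) t
    have e1 : hist η1 n2 (fun t => I.loc1 F Bn n1 t w) (fun t => ts t w) (fun t => I.N1 R0 w t) t =
        hist η1 n2 (fun t => I.loc1 F Bn n1 t w) (fun t => ts t w) (N' w) t :=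
      hist_congr t (fun _ _ => rfl) (fun _ _ => rfl) fun u hu => by
        show I.N1 R0 w u = I.N1 R0 w (min u n)
        rw [min_eq_left (hu.trans ht)]
    have e2 : hist η1 n2 (fun t => I.loc1 F Bn n1 t w) (fun t => ts t w) (fun t => I.nu1 R0 s t w) t =
        hist η1 n2 (fun t => I.loc1 F Bn n1 t w) (fun t => ts t w) (plus (b' w) (N' w) s) t :=
      hist_congr t (fun _ _ => rfl) (fun _ _ => rfl) fun u hu => by
        funext r
        show (I.N1 R0 w u r ∨ (r = s ∧ I.act w u s)) = (I.N1 R0 w (min u n) r ∨ (r = s ∧ I.act w (min u n) s))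
        rw [min_eq_left (hu.trans ht)]
    rw [e1, e2, h1]
  · -- number of used references
    refine div_le_div_of_nonneg_right (add_le_add ?_ le_rfl) hR.le
    have hR1 := I.runHyp1 hη hF hts (ν := fun t w => I.N1 R0 w t) (fun t => I.N1_fac_k R0 t)
    have h1 := hR1.updates0 n
    have h2 : ∑ t ∈ range n, T.P.Pr (fun w => (I.loc1 F Bn n1 (t + 1) w).rs) ≤ I.p0 := by
      unfold FP.Pr
      rw [← T.P.E_sum]
      refine T.P.E_le_const fun w _ => ?_
      refine le_trans (le_of_eq ?_) (I.mv2 w)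
      exact Finset.sum_congr rfl fun t _ => I.ind_rs t w
    have h3 : (0 : ℝ) ≤ 2 / η1 ^ 2 := by positivity
    refine le_trans ?_ (h1.trans (mul_le_mul_of_nonneg_left (by linarith) h3))
    rw [← T.P.E_sum]
    refine T.P.E_mono fun w _ => ?_
    have h4 : ∀ s, ind (∃ t ≤ n, use' w (N' w) t s) ≤ ∑ t ∈ range (n + 1), ind (UsedAt η1 n2
        (fun t => I.loc1 F Bn n1 t w) (fun t => ts t w) (N' w) t s) := by
      intro s
      by_cases h5 : ∃ t ≤ n, use' w (N' w) t s
      · obtain ⟨t, ht, h6⟩ := h5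
        rw [ind_of ⟨t, ht, h6⟩, ← ind_of h6.2]
        exact Finset.single_le_sum (f := fun t => ind (UsedAt η1 n2
          (fun t => I.loc1 F Bn n1 t w) (fun t => ts t w) (N' w) t s)) (fun _ _ => ind_nonneg _)
          (Finset.mem_range.2 (by omega))
      · rw [ind_not h5]
        exact Finset.sum_nonneg fun _ _ => ind_nonneg _
    refine (Finset.sum_le_sum fun s _ => h4 s).trans ?_
    rw [Finset.sum_comm]
    refine Finset.sum_le_sum fun t ht => ?_
    refine (sum_used_le t).trans (le_of_eq ?_)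
    have htn : t ≤ n := by
      have := Finset.mem_range.1 ht
      omega
    show ((hist η1 n2 _ _ (N' w) t).length : ℝ) - ((hpre η1 n2 _ _ (N' w) t).length : ℝ) =
      ((hist η1 n2 _ _ (fun t => I.N1 R0 w t) t).length : ℝ) - ((hpre η1 n2 _ _ (fun t => I.N1 R0 w t) t).length : ℝ)
    have e0 : ∀ u ≤ t, N' w u = (fun t => I.N1 R0 w t) u := fun u hu => by
      show I.N1 R0 w (min u n) = I.N1 R0 w u
      rw [min_eq_left (hu.trans htn)]
    rw [hist_congr (ν := N' w) (ν' := fun t => I.N1 R0 w t) t (fun _ _ => rfl) (fun _ _ => rfl) e0,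
      hpre_congr' (ν := N' w) (ν' := fun t => I.N1 R0 w t) t (fun _ _ => rfl) (fun _ _ => rfl)
        fun u hu => e0 u hu.le]

/-- the updates of the actual run: histories have length at most `n2` outside a rare event -/
theorem hist_long (hη : 0 < η1) (hF : ∀ s t g b d, |F s t g b d| ≤ 1)
    (hts : I.Tests1 F Bn n1 η1 n2 R0 ε2 ts) :
    T.P.Pr (fun w => ∃ t ≤ T.n, (n2 : ℝ) < ((Hi η1 n2 (I.loc1 F Bn n1) ts (fun t w => I.N1 R0 w t) t w).length : ℝ)) ≤
      2 / η1 ^ 2 * (1 + I.p0) / (n2 + 1) := by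
  have hR1 := I.runHyp1 hη hF hts (ν := fun t w => I.N1 R0 w t) (fun t => I.N1_fac_k R0 t)
  have h1 := hR1.updates0 T.n
  have h2 : ∑ t ∈ range T.n, T.P.Pr (fun w => (I.loc1 F Bn n1 (t + 1) w).rs) ≤ I.p0 := by
    unfold FP.Pr
    rw [← T.P.E_sum]
    refine T.P.E_le_const fun w _ => ?_
    refine le_trans (le_of_eq ?_) (I.mv2 w)
    exact Finset.sum_congr rfl fun t _ => I.ind_rs t w
  have h3 : (0 : ℝ) ≤ 2 / η1 ^ 2 := by positivity
  have h4 : T.P.E (fun w => ∑ t ∈ range (T.n + 1), Up η1 n2 (I.loc1 F Bn n1) ts (fun t w => I.N1 R0 w t) t w) ≤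
      2 / η1 ^ 2 * (1 + I.p0) := by
    rw [T.P.E_sum]
    exact h1.trans (mul_le_mul_of_nonneg_left (by linarith) h3)
  have hup : ∀ t w, 0 ≤ Up η1 n2 (I.loc1 F Bn n1) ts (fun t w => I.N1 R0 w t) t w := fun t w =>
    upd_nonneg (x := fun t => I.loc1 F Bn n1 t w) (ts := fun t => ts t w) (ν := fun t => I.N1 R0 w t) t
  have hlen : ∀ t w, ((Hi η1 n2 (I.loc1 F Bn n1) ts (fun t w => I.N1 R0 w t) t w).length : ℝ) ≤
      ∑ u ∈ range (t + 1), Up η1 n2 (I.loc1 F Bn n1) ts (fun t w => I.N1 R0 w t) u w := by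
    intro t w
    induction t with
    | zero =>
      rw [Finset.sum_range_one]
      show _ ≤ ((Hi η1 n2 (I.loc1 F Bn n1) ts (fun t w => I.N1 R0 w t) 0 w).length : ℝ) -
        ((Hp η1 n2 (I.loc1 F Bn n1) ts (fun t w => I.N1 R0 w t) 0 w).length : ℝ)
      have : Hp η1 n2 (I.loc1 F Bn n1) ts (fun t w => I.N1 R0 w t) 0 w = [] := rfl
      rw [this]
      simp
    | succ t ih =>
      rw [Finset.sum_range_succ]
      have e : Up η1 n2 (I.loc1 F Bn n1) ts (fun t w => I.N1 R0 w t) (t + 1) w =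
          ((Hi η1 n2 (I.loc1 F Bn n1) ts (fun t w => I.N1 R0 w t) (t + 1) w).length : ℝ) -
          ((Hp η1 n2 (I.loc1 F Bn n1) ts (fun t w => I.N1 R0 w t) (t + 1) w).length : ℝ) := rfl
      have h5 : ((Hp η1 n2 (I.loc1 F Bn n1) ts (fun t w => I.N1 R0 w t) (t + 1) w).length : ℝ) ≤
          ((Hi η1 n2 (I.loc1 F Bn n1) ts (fun t w => I.N1 R0 w t) t w).length : ℝ) := by
        by_cases hr : (I.loc1 F Bn n1 (t + 1) w).rs
        · have a1 : Hp η1 n2 (I.loc1 F Bn n1) ts (fun t w => I.N1 R0 w t) (t + 1) w = [] :=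
            hpre_succ_rs (x := fun t => I.loc1 F Bn n1 t w) hr
          rw [a1]
          simp
        · have a1 : Hp η1 n2 (I.loc1 F Bn n1) ts (fun t w => I.N1 R0 w t) (t + 1) w =
              Hi η1 n2 (I.loc1 F Bn n1) ts (fun t w => I.N1 R0 w t) t w :=
            hpre_succ (x := fun t => I.loc1 F Bn n1 t w) hr
          rw [a1]
      rw [e]
      linarith
  have hn2 : (0 : ℝ) < n2 + 1 := by positivity
  rw [le_div_iff₀ hn2]
  refine le_trans ?_ h4
  unfold FP.Pr
  rw [← T.P.E_mul_const]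
  refine T.P.E_mono fun w _ => ?_
  by_cases hb : ∃ t ≤ T.n, (n2 : ℝ) < ((Hi η1 n2 (I.loc1 F Bn n1) ts (fun t w => I.N1 R0 w t) t w).length : ℝ)
  · rw [ind_of hb, one_mul]
    obtain ⟨t, ht, h5⟩ := hb
    have h6 : (n2 : ℝ) + 1 ≤ ((Hi η1 n2 (I.loc1 F Bn n1) ts (fun t w => I.N1 R0 w t) t w).length : ℝ) := by
      have : n2 < (Hi η1 n2 (I.loc1 F Bn n1) ts (fun t w => I.N1 R0 w t) t w).length := by exact_mod_cast h5
      exact_mod_cast this
    refine h6.trans ((hlen t w).trans ?_)
    exact Finset.sum_le_sum_of_subset_of_nonneg (Finset.range_mono (by omega)) fun u _ _ => hup u w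
  · rw [ind_not hb, zero_mul]
    exact Finset.sum_nonneg fun u _ => hup u w

end Inp

end

end Pool.Agent.M3.S2
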