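import Pool.Agent.M3.S2.Concl
import Pool.Agent.M3.S2.Alph
import Pool.Agent.M3.S2.Par2

/-!
# M3/S2/NumL : the number of letters and public tests of stage 1 at `(b, c)` (helper1)

`E_tests1` : expected number of public tests with the index `s`, in the cell of `a`;
`hl_len_le` : length of `hl` in terms of the pools; `num_letters` = event (7) of `Concl`.
-/

set_option autoImplicit false
set_option linter.unusedSectionVars false

namespace Pool.Agent.M3.S2

open Finset Pool.Agent.PWZ Pool.Agent.M3.TS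

noncomputable section

variable {Om A B C V Γ κ S : Type} [Fintype Om] [Fintype A] [Fintype B] [Fintype C] [Fintype V]
  [Fintype S] [DecidableEq S] {m : ℕ} {T : Tri Om (S → Fin m) A B C V Γ κ}

namespace Inp

variable {I : Inp T S} {F : S → ℕ → C × Γ → B → V → ℝ} {Bn : S → ℕ → C × Γ → κ → List (Finset B)} {n1 : ℝ}
  {η1 : ℝ} {n2 : ℕ} {R0 ε2 : ℝ} {ts : ℕ → Om → List (S × (V → ℝ))}

/-- the updates of the virtual run while `s` is active -/
theorem E_upd_act (hη : 0 < η1) (hF : ∀ s t g b d, |F s t g b d| ≤ 1) (hts : I.Tests1 F Bn n1 η1 n2 R0 ε2 ts) (s : S) :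
    ∑ t ∈ range T.n, T.P.E (fun w => ind (I.act w (t + 1) s) *
      Up η1 n2 (I.loc1 F Bn n1) ts (I.nu1 R0 s) (t + 1) w) ≤
      2 / η1 ^ 2 * ((1 + n2 * η1) ^ 2 + I.p0) * T.P.Pr (fun w => I.act w T.n s) := by
  have hR := I.runHyp1 hη hF hts (I.nu1_fac R0 s)
  set U : ℕ → Om → ℝ := Up η1 n2 (I.loc1 F Bn n1) ts (I.nu1 R0 s) with hU
  have hup : ∀ t w, 0 ≤ U t w := fun t w =>
    upd_nonneg (x := fun t => I.loc1 F Bn n1 t w) (ts := fun t => ts t w) (ν := fun t => I.nu1 R0 s t w) t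
  have hrs : ∀ w, ∑ t ∈ range T.n, ind (I.loc1 F Bn n1 (t + 1) w).rs ≤ I.p0 := by
    intro w
    refine le_trans (le_of_eq ?_) (I.mv2 w)
    exact Finset.sum_congr rfl fun t _ => I.ind_rs t w
  set b := I.R.tb s with hb
  have hb1 : 1 ≤ b := I.tb1 s
  have hbn' : b ≤ T.n := I.tbn s
  set φ : Om → ℝ := fun w => ind (I.act w b s) with hφ
  have hφf : Fac (T.KK1 b) φ := Fac.ind fun v w h => by
    rw [K1_iff] at h
    exact I.act_congr (by rw [h.2.1]) h.2.2.1 h.2.2.2
  have hφ0 : ∀ w, 0 ≤ φ w := fun w => ind_nonneg _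
  have hφn : ∀ w, φ w = ind (I.act w T.n s) := fun w => by
    show ind (I.act w b s) = ind (I.act w T.n s)
    congr 1
    exact propext (I.act_stat hbn').symm
  have hupd := hR.updates (s := b) (φ := φ) hφ0 hφf (T.n - b)
  have e1 : ∑ t ∈ range T.n, T.P.E (fun w => ind (I.act w (t + 1) s) * U (t + 1) w) =
      ∑ j ∈ range (T.n - b + 1), T.P.E (fun w => φ w * U (b + j) w) := by
    have e2 : ∑ t ∈ range T.n, T.P.E (fun w => ind (I.act w (t + 1) s) * U (t + 1) w) =
        ∑ t ∈ Finset.Ico 1 (T.n + 1), T.P.E (fun w => ind (I.act w t s) * U t w) := by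
      rw [Finset.sum_Ico_eq_sum_range]
      refine Finset.sum_congr (by simp) fun t _ => ?_
      rw [Nat.add_comm 1 t]
    have e3 : ∑ j ∈ range (T.n - b + 1), T.P.E (fun w => φ w * U (b + j) w) =
        ∑ t ∈ Finset.Ico b (T.n + 1), T.P.E (fun w => φ w * U t w) := by
      rw [Finset.sum_Ico_eq_sum_range]
      refine Finset.sum_congr ?_ fun t _ => rfl
      congr 1
      omega
    have e4 : ∑ t ∈ Finset.Ico b (T.n + 1), T.P.E (fun w => φ w * U t w) =
        ∑ t ∈ Finset.Ico b (T.n + 1), T.P.E (fun w => ind (I.act w t s) * U t w) := by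
      refine Finset.sum_congr rfl fun t ht => ?_
      rw [Finset.mem_Ico] at ht
      refine T.P.E_congr fun w _ => ?_
      congr 1
      show ind (I.act w b s) = ind (I.act w t s)
      congr 1
      exact propext (I.act_stat ht.1).symm
    rw [e2, e3, e4]
    symm
    refine Finset.sum_subset (Finset.Ico_subset_Ico_left hb1) fun t ht hnt => ?_
    have hlt : t < b := by
      by_contra h4
      rw [Finset.mem_Ico] at ht hnt
      exact hnt ⟨not_lt.1 h4, ht.2⟩
    have : (fun w => ind (I.act w t s) * U t w) = fun _ => (0 : ℝ) := by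
      funext w
      rw [ind_not (I.not_act hlt), zero_mul]
    rw [this]
    exact T.P.E_const 0
  have h4 : 0 ≤ T.P.E (fun w => φ w * RunHyp.en η1 n2 T.mean (I.loc1 F Bn n1)
      (Hi η1 n2 (I.loc1 F Bn n1) ts (I.nu1 R0 s)) (b + (T.n - b)) w) :=
    T.P.E_nonneg fun w _ => mul_nonneg (hφ0 w) (hR.en_nonneg _ _ _)
  have h5 : T.P.E (fun w => φ w * RunHyp.en η1 n2 T.mean (I.loc1 F Bn n1)
      (Hp η1 n2 (I.loc1 F Bn n1) ts (I.nu1 R0 s)) b w) ≤
      (1 + n2 * η1) ^ 2 * T.P.Pr (fun w => I.act w T.n s) := by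
    unfold FP.Pr
    rw [← T.P.E_smul]
    refine T.P.E_mono fun w _ => ?_
    rw [hφn w, mul_comm]
    exact mul_le_mul_of_nonneg_right (hR.en_le b w) (ind_nonneg _)
  have h6 : ∑ j ∈ range (T.n - b), T.P.E (fun w => φ w * ind (I.loc1 F Bn n1 (b + j + 1) w).rs) ≤
      I.p0 * T.P.Pr (fun w => I.act w T.n s) := by
    rw [← T.P.E_sum]
    unfold FP.Pr
    rw [← T.P.E_smul]
    refine T.P.E_mono fun w _ => ?_
    rw [← Finset.mul_sum, hφn w, mul_comm]
    refine mul_le_mul_of_nonneg_right ?_ (ind_nonneg _)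
    refine le_trans ?_ (hrs w)
    have e4 : ∑ j ∈ range (T.n - b), ind (I.loc1 F Bn n1 (b + j + 1) w).rs =
        ∑ t ∈ Finset.Ico b T.n, ind (I.loc1 F Bn n1 (t + 1) w).rs := by
      rw [Finset.sum_Ico_eq_sum_range]
    rw [e4, Finset.range_eq_Ico]
    exact Finset.sum_le_sum_of_subset_of_nonneg (Finset.Ico_subset_Ico_left (Nat.zero_le b))
      fun _ _ _ => ind_nonneg _
  have h7 : (0 : ℝ) < η1 ^ 2 / 2 := by positivity
  have h8 : η1 ^ 2 / 2 * ∑ j ∈ range (T.n - b + 1), T.P.E (fun w => φ w * U (b + j) w) ≤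
      ((1 + n2 * η1) ^ 2 + I.p0) * T.P.Pr (fun w => I.act w T.n s) := by
    rw [add_mul]
    linarith
  have h9 := mul_le_mul_of_nonneg_left h8 (by positivity : (0 : ℝ) ≤ 2 / η1 ^ 2)
  have h10 : 2 / η1 ^ 2 * (η1 ^ 2 / 2 * ∑ j ∈ range (T.n - b + 1), T.P.E (fun w => φ w * U (b + j) w)) =
      ∑ j ∈ range (T.n - b + 1), T.P.E (fun w => φ w * U (b + j) w) := by field_simp
  rw [h10, ← mul_assoc] at h9
  rw [e1]
  exact h9

/-- **expected number of the public tests** with the index `s` -/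
theorem E_tests1 (hη : 0 < η1) (hε2 : 0 < ε2) (hF : ∀ s t g b d, |F s t g b d| ≤ 1)
    (hts : I.Tests1 F Bn n1 η1 n2 R0 ε2 ts) (s : S) :
    ∑ t ∈ range T.n, T.P.E (fun w => cntS s (ts (t + 1) w)) ≤
      2 / η1 ^ 2 * ((1 + n2 * η1) ^ 2 + I.p0) / ε2 * T.P.Pr (fun w => I.act w T.n s) := by
  have h0 := E_upd_act hη hF hts s
  have h1 : ε2 * ∑ t ∈ range T.n, T.P.E (fun w => cntS s (ts (t + 1) w)) ≤
      ∑ t ∈ range T.n, T.P.E (fun w => ind (I.act w (t + 1) s) *
      Up η1 n2 (I.loc1 F Bn n1) ts (I.nu1 R0 s) (t + 1) w) := by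
    rw [Finset.mul_sum]
    refine Finset.sum_le_sum fun t _ => ?_
    have hfac : Fac (T.QQ1 (t + 1)) (fun w => ind (I.act w (t + 1) s)) := Fac.ind fun v w h => by
      rw [Q1_iff] at h
      exact I.act_congr h.2.2 h.1 h.2.1
    have hcomm : T.P.E (fun w => ind (I.act w (t + 1) s) * Up η1 n2 (I.loc1 F Bn n1) ts (I.nu1 R0 s) (t + 1) w) =
        T.P.E (fun w => T.P.ce (T.QQ1 (t + 1)) (Up η1 n2 (I.loc1 F Bn n1) ts (I.nu1 R0 s) (t + 1)) w *
          ind (I.act w (t + 1) s)) := by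
      rw [T.P.E_ce_mul hfac]
      exact T.P.E_congr fun w _ => mul_comm _ _
    rw [← T.P.E_smul, hcomm]
    refine T.P.E_mono fun w _ => ?_
    by_cases ha : I.act w (t + 1) s
    · rw [ind_of ha, mul_one]
      exact hts.cnt (t + 1) w s
    · rw [ind_not ha, mul_zero]
      have : cntS s (ts (t + 1) w) = 0 := by
        unfold cntS
        refine List.sum_eq_zero fun x hx => ?_
        obtain ⟨p, hp, rfl⟩ := List.mem_map.1 hx
        exact ind_not fun h => ha (by rw [← h]; exact hts.act (t + 1) w p hp)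
      rw [this, mul_zero]
  have h2 := h1.trans h0
  rw [div_mul_eq_mul_div, le_div_iff₀ hε2, mul_comm]
  exact h2

/-! ### the tests as lists at the nodes -/

variable (ts) in
/-- the tests with the index `s` at the node `(c, g)` and the cell `α` -/
def tsL (T : Tri Om (S → Fin m) A B C V Γ κ) (s : S) (t : ℕ) (y : C × Γ) (α : κ) : List (S × (V → ℝ)) :=
  (lft [] (T.QQ1 t) (ts t) (y, α)).filter (fun p => decide (p.1 = s))

theorem tsL_eq (hts : I.Tests1 F Bn n1 η1 n2 R0 ε2 ts) (s : S) (t : ℕ) (w : Om) :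
    tsL ts T s t (T.c w, T.gm t w) (T.ca t (T.a w)) = (ts t w).filter (fun p => decide (p.1 = s)) := by
  unfold tsL
  congr 1
  exact lft_eq (hts.tsQ t) w

theorem len_filter_cntS (s : S) (L : List (S × (V → ℝ))) :
    ((L.filter (fun p => decide (p.1 = s))).length : ℝ) = cntS s L := by
  induction L with
  | nil => simp [cntS]
  | cons p L ih =>
    unfold cntS at ih ⊢
    rw [List.map_cons, List.sum_cons]
    by_cases h : p.1 = s
    · rw [List.filter_cons_of_pos (by simpa using h), List.length_cons, ind_of h]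
      push_cast
      rw [ih]
      ring
    · rw [List.filter_cons_of_neg (by simpa using h), ind_not h, ih]
      ring

/-- mean of the pool of tests -/
theorem E_poolT (hη : 0 < η1) (hε2 : 0 < ε2) (hF : ∀ s t g b d, |F s t g b d| ≤ 1)
    (hts : I.Tests1 F Bn n1 η1 n2 R0 ε2 ts) (s : S) :
    T.P.E (fun w => (T.poolA (tsL ts T s) w : ℝ)) ≤
      T.K * (2 / η1 ^ 2 * ((1 + n2 * η1) ^ 2 + I.p0) / ε2 * T.P.Pr (fun w => I.act w T.n s)) := by
  have hK0 : 0 ≤ T.K := zero_le_one.trans T.K1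
  refine (T.E_poolA (tsL ts T s)).trans (mul_le_mul_of_nonneg_left ?_ hK0)
  refine le_trans (le_of_eq ?_) (E_tests1 hη hε2 hF hts s)
  refine Finset.sum_congr rfl fun t _ => T.P.E_congr fun w _ => ?_
  rw [tsL_eq hts s (t + 1) w]
  exact len_filter_cntS s _

open Classical in
/-- **length of the list of letters** in terms of the pools -/
theorem hl_len_le (hl : ∀ s, LMeas T.n (fun t w => (T.c w, T.gm t w)) T.cb (Bn s) (F s))
    (hts : I.Tests1 F Bn n1 η1 n2 R0 ε2 ts) (s : S) (w : Om) :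
    (T.hl (I.alT F Bn n1 ts) s T.n (T.gm T.n w) (T.b w) (T.c w)).length ≤
      2 * (T.pool12 (Bn s) w + 1) ^ ⌊n1⌋₊ + T.poolA (tsL ts T s) w := by
  obtain ⟨f, hf1, hf2⟩ := let1_cum2 (T := T) (F := F) (Bn := Bn) s (hl s) n1 w
  set f' : Finset (V → ℝ) := f ∪ f.image (fun h d => - h d) with hf'
  set g : Finset (V → ℝ) := (range T.n).biUnion fun t => (T.CA (t + 1) w).biUnion fun α =>
    ((tsL ts T s (t + 1) (T.c w, T.gm (t + 1) w) α).map Prod.snd).toFinset with hg
  have hcf : f'.card ≤ 2 * (T.pool12 (Bn s) w + 1) ^ ⌊n1⌋₊ := by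
    have h1 : f'.card ≤ f.card + (f.image (fun h d => - h d)).card := Finset.card_union_le _ _
    have h2 : (f.image (fun h d => - h d)).card ≤ f.card := Finset.card_image_le
    omega
  have hcg : g.card ≤ T.poolA (tsL ts T s) w := by
    unfold Tri.poolA
    refine Finset.card_biUnion_le.trans (Finset.sum_le_sum fun t _ => ?_)
    refine Finset.card_biUnion_le.trans (Finset.sum_le_sum fun α _ => ?_)
    refine (List.toFinset_card_le _).trans ?_
    rw [List.length_map]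
  refine le_trans (T.hl_len_real (I.alT F Bn n1 ts) s (f := f' ∪ g) ?_) ?_
  · intro j hj1 hjn w' hb hc hgm h hh
    rcases hh with h1 | h1
    · obtain ⟨_, f0, hf0, h2⟩ := h1
      have h3 := hf2 j hjn w' hb hc hgm f0 hf0
      rcases h2 with h2 | h2
      · have h4 : h = f0 := h2
        rw [h4]
        exact Finset.mem_union_left _ (Finset.mem_union_left _ h3)
      · have h4 : h = fun d => - f0 d := h2
        rw [h4]
        exact Finset.mem_union_left _ (Finset.mem_union_right _ (Finset.mem_image_of_mem _ h3))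
    · refine Finset.mem_union_right _ ?_
      rw [hg, Finset.mem_biUnion]
      refine ⟨j - 1, Finset.mem_range.2 (by omega), ?_⟩
      have hj : j - 1 + 1 = j := by omega
      rw [hj, Finset.mem_biUnion]
      refine ⟨T.ca j (T.a w'), T.mem_CA'.2 ⟨w', rfl, hb, by rw [hc], hgm⟩, ?_⟩
      rw [List.mem_toFinset, List.mem_map]
      refine ⟨(s, h), ?_, rfl⟩
      have h2 := tsL_eq hts s j w'
      rw [hc, hgm] at h2
      rw [h2, List.mem_filter]
      exact ⟨h1, by simp⟩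
  · refine (Finset.card_union_le _ _).trans ?_
    omega

/-- **EVENT (7)** : the number of letters -/
theorem num_letters (hη : 0 < η1) (hε2 : 0 < ε2) {η' ε' δ : ℝ} (hε' : 0 < ε')
    (hN : ∀ s, NOut T.P T.b T.n (fun t w => (T.c w, T.gm t w)) T.cb (fun t g => T.ρ t g.2)
      (fun t (g : C × Γ) => (g.1, T.par t g.2)) (I.k1 s) (F s) (Bn s) η' ε' n1 δ)
    (hts : I.Tests1 F Bn n1 η1 n2 R0 ε2 ts) {M Nw : ℕ}
    (hNw : 2 * (M + 1) ^ ⌊n1⌋₊ + M ≤ Nw) :
    T.P.Pr (fun w => ∃ s', Nw < (T.hl (I.alT F Bn n1 ts) s' T.n (T.gm T.n w) (T.b w) (T.c w)).length) ≤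
      (T.K ^ 3 * (32 / η' ^ 2 * (I.p0 + 1) / ε') +
        T.K ^ 2 * (2 / η1 ^ 2 * ((1 + n2 * η1) ^ 2 + I.p0) / ε2)) * I.Ms / (M + 1) := by
  classical
  have hK0 : 0 ≤ T.K := zero_le_one.trans T.K1
  have hp0 : 0 ≤ I.p0 := zero_le_one.trans I.p01
  have hF : ∀ s t g b d, |F s t g b d| ≤ 1 := fun s t g b d => (hN s).F1 t g b d
  have hM : (0 : ℝ) < M + 1 := by positivity
  rw [le_div_iff₀ hM]
  set c1 : ℝ := 32 / η' ^ 2 * (I.p0 + 1) / ε' with hc1
  set c2 : ℝ := 2 / η1 ^ 2 * ((1 + n2 * η1) ^ 2 + I.p0) / ε2 with hc2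
  have hc10 : 0 ≤ c1 := by positivity
  have hc20 : 0 ≤ c2 := by positivity
  -- the pools
  have hE1 : ∀ s, T.P.E (fun w => (T.pool12 (Bn s) w : ℝ)) ≤ T.K ^ 3 * c1 * T.P.Pr (fun w => I.onab w T.n s) := by
    intro s
    have h1 := T.E_pool12 (Bn s)
    have h2 := births'_le T.side1 (Bn s) hε' (fun t g k S hS => ⟨(hN s).sub t g k S hS, (hN s).thick t g k S hS⟩)
    have h3 := (hN s).mean
    have h4 := I.k1_movesE s
    have h5 : births T.P T.b T.n (fun t w => (T.c w, T.gm t w)) T.cb (Bn s) / ε' ≤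
        32 / η' ^ 2 * ((I.p0 + 1) * (T.K * T.P.Pr (fun w => I.onab w T.n s))) / ε' := by
      refine div_le_div_of_nonneg_right (h3.trans ?_) hε'.le
      exact mul_le_mul_of_nonneg_left h4 (by positivity)
    refine h1.trans ((mul_le_mul_of_nonneg_left (h2.trans h5) (by positivity)).trans (le_of_eq ?_))
    rw [hc1]
    ring
  have hE2 : ∀ s, T.P.E (fun w => (T.poolA (tsL ts T s) w : ℝ)) ≤
      T.K ^ 2 * c2 * T.P.Pr (fun w => I.onab w T.n s) := by
    intro s
    have h1 := E_poolT hη hε2 hF hts s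
    have h2 := I.pr_act s
    refine h1.trans ?_
    have h3 : T.K * (c2 * T.P.Pr (fun w => I.act w T.n s)) ≤
        T.K * (c2 * (T.K * T.P.Pr (fun w => I.onab w T.n s))) :=
      mul_le_mul_of_nonneg_left (mul_le_mul_of_nonneg_left h2 hc20) hK0
    refine h3.trans (le_of_eq ?_)
    ring
  -- Markov for the sum over `s`
  have hmain : T.P.Pr (fun w => ∃ s', Nw < (T.hl (I.alT F Bn n1 ts) s' T.n (T.gm T.n w) (T.b w) (T.c w)).length) *
      (M + 1) ≤ T.P.E (fun w => ∑ s, ((T.pool12 (Bn s) w : ℝ) + (T.poolA (tsL ts T s) w : ℝ))) := by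
    unfold FP.Pr
    rw [mul_comm, ← T.P.E_smul]
    refine T.P.E_mono fun w _ => ?_
    have hnn : ∀ s, 0 ≤ (T.pool12 (Bn s) w : ℝ) + (T.poolA (tsL ts T s) w : ℝ) := fun s => by positivity
    by_cases hb : ∃ s', Nw < (T.hl (I.alT F Bn n1 ts) s' T.n (T.gm T.n w) (T.b w) (T.c w)).length
    · rw [ind_of hb, mul_one]
      obtain ⟨s, hs⟩ := hb
      have h1 := hl_len_le (fun s => (hN s).lm) hts s w
      have h2 : M + 1 ≤ T.pool12 (Bn s) w + T.poolA (tsL ts T s) w := by
        by_contra h3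
        push Not at h3
        have h4 : T.pool12 (Bn s) w ≤ M := by omega
        have h5 : T.poolA (tsL ts T s) w ≤ M := by omega
        have h6 : (T.pool12 (Bn s) w + 1) ^ ⌊n1⌋₊ ≤ (M + 1) ^ ⌊n1⌋₊ := Nat.pow_le_pow_left (by omega) _
        omega
      have h3 : (M : ℝ) + 1 ≤ (T.pool12 (Bn s) w : ℝ) + (T.poolA (tsL ts T s) w : ℝ) := by exact_mod_cast h2
      exact h3.trans (Finset.single_le_sum (f := fun s => (T.pool12 (Bn s) w : ℝ) + (T.poolA (tsL ts T s) w : ℝ))
        (fun s _ => hnn s) (Finset.mem_univ s))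
    · rw [ind_not hb, mul_zero]
      exact Finset.sum_nonneg fun s _ => hnn s
  refine hmain.trans ?_
  rw [T.P.E_sum]
  have h1 : ∀ s, T.P.E (fun w => (T.pool12 (Bn s) w : ℝ) + (T.poolA (tsL ts T s) w : ℝ)) ≤
      (T.K ^ 3 * c1 + T.K ^ 2 * c2) * T.P.Pr (fun w => I.onab w T.n s) := by
    intro s
    rw [T.P.E_add, add_mul]
    exact add_le_add (hE1 s) (hE2 s)
  refine (Finset.sum_le_sum fun s _ => h1 s).trans ?_
  rw [← Finset.mul_sum]
  exact mul_le_mul_of_nonneg_left I.sum_onab (by positivity)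

end Inp

end

end Pool.Agent.M3.S2
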