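import Pool.Agent.M3.S2.Concl
import Pool.Agent.M3.S2.NumL
import Pool.Agent.M3.S2.KeyI
import Pool.Agent.M3.S2.Fin1
import Pool.Agent.M3.S2.RecB

/-!
# M3/S2/Half1 : everything of stage 1 together (helper1)

`q1sum` = the sum of the bounds of the events (1)-(7); `half1` : names, births, public tests of stage 1 exist, and for
EVERY stage 2 (abstract `L2, H2, Z2`) the conclusion holds outside `q1sum + q8 + q9 + q10`.
-/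

set_option autoImplicit false
set_option linter.unusedSectionVars false

namespace Pool.Agent.M3.S2

open Finset Pool.Agent.PWZ Pool.Agent.M3.TS

noncomputable section

variable {Om A B C V Γ κ S : Type} [Fintype Om] [Fintype A] [Fintype B] [Fintype C] [Fintype V]
  [Fintype S] [DecidableEq S] {m : ℕ} {T : Tri Om (S → Fin m) A B C V Γ κ}

namespace Inp

variable (I : Inp T S)

/-- the bounds of the events (1)-(7) -/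
def q1sum (η1 : ℝ) (n2 : ℕ) (R0 ε2 η' ε' ε Kc : ℝ) (j k M : ℕ) (nN Mc : ℝ) : ℝ :=
  (2 / η1 ^ 2 * (1 + I.p0) + Fintype.card S / m) / R0 +
  2 / η1 ^ 2 * (1 + I.p0) / (n2 + 1) +
  (1 / 2) ^ j * (T.K * I.Ms) +
  I.q1 η1 n2 η' ε Kc +
  2 * R0 * T.K ^ 2 * ((1 / 2) ^ k * I.Ms + 2 * k * I.Λ) / nN +
  2 * T.K ^ 2 * I.Ms / Mc +
  (T.K ^ 3 * (32 / η' ^ 2 * (I.p0 + 1) / ε') +
    T.K ^ 2 * (2 / η1 ^ 2 * ((1 + n2 * η1) ^ 2 + I.p0) / ε2)) * I.Ms / (M + 1)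

private theorem live_mono_h {s : S} {t u : ℕ} (h : t ≤ u) {w : Om} (h1 : I.live s t w) : I.live s u w :=
  ⟨I.on_mono h h1.1, h1.2⟩

/-- **STAGE 1 AND THE CONCLUSION** -/
theorem half1 (hm : 0 < m) {η1 : ℝ} (hη : 0 < η1) (n2 : ℕ) {R0 ε2 : ℝ} (hR : 0 < R0) (hε2 : 0 < ε2) {η' ε' : ℝ}
    (hη' : 0 < η') (hε' : 0 < ε') (j : ℕ) {n1 : ℝ}
    (hn1 : ((j : ℝ) + 1) * (96 * (I.p0 + 2) / η' ^ 2) ≤ n1) {Kc : ℝ}
    (hLM : LM T.P (fun w => (T.xi w, T.a w)) T.b T.n (fun t w => (T.c w, T.gm t w)) (fun t w => (T.c w, T.gm t w))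
      (fun t x => T.ca t x.2) T.cb (fun t g => T.ρ t g.2) (fun t g => T.ρ t g.2) T.J T.near Kc)
    {ε : ℝ} (hX : 2 * η1 / (1 + n2 * η1) ≤ 1 / 4) (hηη : η' ≤ 4 * η1 / (1 + n2 * η1))
    (hε : 0 < ε) (hε1 : ε ≤ 1) (h1ε : 2 * ε' ≤ ε) (h2ε : 2 * ε2 ≤ ε)
    (hnear : T.near ≤ 2 * η1 / (1 + n2 * η1) / 4) (hKc : 1 ≤ Kc)
    (k : ℕ) {nN Mc : ℝ} (hnN : 0 < nN) (hMc : 0 < Mc) {M Nw : ℕ} (hNw : 2 * (M + 1) ^ ⌊n1⌋₊ + M ≤ Nw) :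
    ∃ (F : S → ℕ → C × Γ → B → V → ℝ) (Bn : S → ℕ → C × Γ → κ → List (Finset B)) (ts : ℕ → Om → List (S × (V → ℝ))),
      (∀ s, NOut T.P T.b T.n (fun t w => (T.c w, T.gm t w)) T.cb (fun t g => T.ρ t g.2)
        (fun t (g : C × Γ) => (g.1, T.par t g.2)) (I.k1 s) (F s) (Bn s) η' ε' n1 ((1 / 2) ^ j)) ∧
      I.Tests1 F Bn n1 η1 n2 R0 ε2 ts ∧
      ∀ (n4 : ℕ) (E2 η2 : ℝ) (L2 : S → S → ℕ → ℕ → Om → Prop) (H2 : S → S → ℕ → Om → List (V → ℝ))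
        (Z2 : S → S → ℕ → Om → V → ℝ) (q8 q9 q10 : ℝ), 0 ≤ E2 →
        (∀ s s' t w, I.act2 R0 nN w t s s' → (H2 s s' t w).length ≤ n4 → ∀ d, Z2 s s' t w d =
          I.R.v s (T.a w) d * I.R.v s' (T.a w) d - η2 * ((H2 s s' t w).map fun h => h d).sum) →
        T.P.Pr (fun w => ∃ s s', ∃ i < Nw, ∃ t ≤ T.n, I.act2 R0 nN w t s s' ∧ L2 s s' i t w) ≤ q8 →
        T.P.Pr (fun w => ∃ s s', ∃ i < Nw, ∃ t ≤ T.n, I.act2 R0 nN w t s s' ∧ ¬ L2 s s' i t w ∧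
          E2 < |iw (T.J t w) (I.k2 (I.alT F Bn n1 ts) Mc s s' i t (T.gm t w) (T.b w, T.c w)) (Z2 s s' t w)|) ≤ q9 →
        T.P.Pr (fun w => ∃ s s', ∃ t ≤ T.n, I.live s t w ∧ I.act2 R0 nN w t s s' ∧
          n4 < (H2 s s' t w).length) ≤ q10 →
        T.P.Pr (fun w => ∃ t ≤ T.n, I.Λ * (1601 * η1 + (1 + n2 * η1) * T.near + η1 * n2 * E2) <
          |I.TT t w - I.XX η1 (fun s s' t w d => η2 * ((H2 s s' t w).map fun h => h d).sum)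
            (Hi η1 n2 (I.loc1 F Bn n1) ts (fun t w => I.N1 R0 w t)) t w|) ≤
          I.q1sum η1 n2 R0 ε2 η' ε' ε Kc j k M nN Mc + q8 + q9 + q10 := by
  obtain ⟨F, Bn, ts, hN, hts, h3, h4⟩ := I.stage1 (n1 := n1) hη n2 R0 hε2 hη' hε' j hn1 hLM hX hηη hε hε1 h1ε h2ε
    hnear hKc
  refine ⟨F, Bn, ts, hN, hts, ?_⟩
  intro n4 E2 η2 L2 H2 Z2 q8 q9 q10 hE2 hZ2 h8 h9 h10
  have hF : ∀ s t g b d, |F s t g b d| ≤ 1 := fun s t g b d => (hN s).F1 t g b d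
  have hE1 : 0 ≤ 1601 * η1 + (1 + n2 * η1) * T.near := by
    have := T.near0
    positivity
  have h1 : T.P.Pr (fun w => ∃ t ≤ T.n, ∃ s, I.live s t w ∧ Hi η1 n2 (I.loc1 F Bn n1) ts (I.nu1 R0 s) t w ≠
      Hi η1 n2 (I.loc1 F Bn n1) ts (fun t w => I.N1 R0 w t) t w) ≤
      (2 / η1 ^ 2 * (1 + I.p0) + Fintype.card S / m) / R0 := by
    refine le_trans (T.P.Pr_mono ?_) (I.key_s2 hm hη hF hts hR)
    rintro w _ ⟨t, ht, s, hs, hne⟩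
    exact ⟨s, I.live_mono_h ht hs, t, ht, fun h => hne h.symm⟩
  have h2 : T.P.Pr (fun w => ∃ t ≤ T.n,
      n2 < (Hi η1 n2 (I.loc1 F Bn n1) ts (fun t w => I.N1 R0 w t) t w).length) ≤
      2 / η1 ^ 2 * (1 + I.p0) / (n2 + 1) := by
    refine le_trans (T.P.Pr_mono ?_) (I.hist_long hη hF hts)
    rintro w _ ⟨t, ht, h⟩
    exact ⟨t, ht, by exact_mod_cast h⟩
  have h5 := I.NB_tail hR.le (le_refl T.n) k hnN
  have h6 := I.pr_capc (al := I.alT F Bn n1 ts) (fun t w s' h hh => alT_act hts t w s' h hh) hMc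
  have h7 := num_letters (I := I) hη hε2 hε' hN hts hNw
  have := concl (I := I) (η2 := η2) (H2 := H2) (Z2 := Z2) (L2 := L2) (n4 := n4) hη hE1 hE2 hts hZ2
    h1 h2 h3 h4 h5 h6 h7 h8 h9 h10
  refine this.trans (le_of_eq ?_)
  unfold q1sum
  ring

end Inp

end

end Pool.Agent.M3.S2
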