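import Pool.Agent.M3.S2.Two
import Pool.Agent.M3.S2.Half1
import Pool.Agent.M3.S2.Chg

/-!
# M3/S2/Concl3 : the conclusion of section 2 with the two roundings (helper1)

`RunHyp.updates_on` : updates of a history which is off, with target zero, unless `on`, weighted by a function known at
the birth; `Inp.H3`, `Inp.F3l` : history and label of the pair `(s, s')` in the fine geometry, `F3l_bd`;
`cap3` : the runs of stage 2 of live references are not capped; `concl3` : names, births, public tests of both stages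
exist and the output is close to the target.
-/

set_option autoImplicit false
set_option linter.unusedSectionVars false

namespace Pool.Agent.M3

open Finset Pool.Agent.PWZ

section hist

variable {Om : Type*} [Fintype Om] {S V : Type*} {P : FP Om} {κ : ℕ → Type*} {K : ∀ t, Om → κ t}
  {η : ℝ} {n2 : ℕ} {x : ℕ → Om → Loc S V} {ts : ℕ → Om → List (S × (V → ℝ))} {ν : ℕ → Om → S → Prop}
  {M : ℕ → Om → (V → ℝ) → ℝ} {δ : ℝ}

/-- no update as long as the run is off -/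
theorem Up_off {on : ℕ → Om → Prop} (hoff : ∀ t w, ¬ on t w → (x t w).ls = [] ∧ ts t w = [])
    {t : ℕ} {w : Om} (h : ∀ s ≤ t, ¬ on s w) : Up η n2 x ts ν t w = 0 := by
  have h1 : hist η n2 (fun t => x t w) (fun t => ts t w) (fun t => ν t w) t = [] :=
    RunHyp.Hi_off hoff h
  have h2 : hpre η n2 (fun t => x t w) (fun t => ts t w) (fun t => ν t w) t = [] := by
    have hs := hpre_suffix (η := η) (n2 := n2) (x := fun t => x t w) (ts := fun t => ts t w)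
      (ν := fun t => ν t w) t
    rw [h1] at hs
    exact List.suffix_nil.1 hs
  unfold Up upd
  rw [h1, h2]
  simp

/-- the length of the history is at most the number of updates -/
private theorem len_upd_c3 (n : ℕ) (w : Om) :
    ((Hi η n2 x ts ν n w).length : ℝ) ≤ ∑ t ∈ range (n + 1), Up η n2 x ts ν t w := by
  induction n with
  | zero =>
    rw [Finset.sum_range_one]
    unfold Up upd
    have : (hpre η n2 (fun t => x t w) (fun t => ts t w) (fun t => ν t w) 0).length = 0 := rfl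
    rw [this]
    simp only [Nat.cast_zero, sub_zero]
    exact le_rfl
  | succ n ih =>
    rw [Finset.sum_range_succ]
    have h1 : ((hpre η n2 (fun t => x t w) (fun t => ts t w) (fun t => ν t w) (n + 1)).length : ℝ) ≤
        ((Hi η n2 x ts ν n w).length : ℝ) := by
      by_cases h : (x (n + 1) w).rs
      · rw [hpre_succ_rs (x := fun t => x t w) h]
        simp
      · rw [hpre_succ (x := fun t => x t w) h]
        exact le_rfl
    have h2 : Up η n2 x ts ν (n + 1) w = ((Hi η n2 x ts ν (n + 1) w).length : ℝ) -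
      ((hpre η n2 (fun t => x t w) (fun t => ts t w) (fun t => ν t w) (n + 1)).length : ℝ) := rfl
    rw [h2]
    linarith

namespace RunHyp

/-- a run is long only after updates, weighted by a function -/
theorem cap_on (_h : RunHyp P K M δ η n2 x ts ν) {n : ℕ} {φ : Om → ℝ} (hφ0 : ∀ w, 0 ≤ φ w) {E : Om → Prop}
    (hE : ∀ w, E w → φ w = 1 ∧ ∃ t ≤ n, n2 < (Hi η n2 x ts ν t w).length) :
    P.Pr E * (n2 + 1) ≤ ∑ t ∈ range (n + 1), P.E (fun w => φ w * Up η n2 x ts ν t w) := by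
  rw [← P.E_sum]
  unfold FP.Pr
  rw [mul_comm, ← P.E_smul]
  refine P.E_mono fun w _ => ?_
  rw [← Finset.mul_sum]
  have hup : ∀ t, 0 ≤ Up η n2 x ts ν t w := fun t => Up_nonneg t w
  by_cases hb : E w
  · rw [ind_of hb, mul_one]
    obtain ⟨h1, t, ht, hlen⟩ := hE w hb
    rw [h1, one_mul]
    have h5 := len_upd_c3 (η := η) (n2 := n2) (x := x) (ts := ts) (ν := ν) t w
    have h6 := Finset.sum_le_sum_of_subset_of_nonneg (Finset.range_subset_range.2 (by omega : t + 1 ≤ n + 1))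
      fun j _ _ => hup j
    have h7 : (n2 : ℝ) + 1 ≤ ((Hi η n2 x ts ν t w).length : ℝ) := by exact_mod_cast hlen
    linarith
  · rw [ind_not hb, mul_zero]
    exact mul_nonneg (hφ0 w) (Finset.sum_nonneg fun t _ => hup t)

/-- updates of a history which is empty, with target zero, unless `on`; `φ` is known at the time `r + 1`, and the run
is off up to the time `r` -/
theorem updates_on (h : RunHyp P K M δ η n2 x ts ν) {r k : ℕ} {φ q : Om → ℝ} (hφ0 : ∀ w, 0 ≤ φ w)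
    (hφ : Fac (K (r + 1)) φ) {on : ℕ → Om → Prop}
    (hoff : ∀ t w, ¬ on t w → (x t w).ls = [] ∧ ts t w = []) (hu0 : ∀ t w, ¬ on t w → ∀ d, (x t w).u d = 0)
    (hr : ∀ t ≤ r, ∀ w, ¬ on t w) (hrs : ∀ t w, (x (t + 1) w).rs → ¬ (on (t + 1) w ↔ on t w))
    (hq : ∀ w, ind (on (r + 1) w) + ∑ j ∈ range k, ind (¬ (on (r + 1 + j + 1) w ↔ on (r + 1 + j) w)) ≤ 2 * q w) :
    ∑ t ∈ range (r + (k + 1) + 1), P.E (fun w => φ w * Up η n2 x ts ν t w) ≤ 4 / η ^ 2 * P.E (fun w => φ w * q w) := by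
  have hη := h.eta
  set c : Om → ℝ := fun w => ind (on (r + 1) w) +
    ∑ j ∈ range k, ind (¬ (on (r + 1 + j + 1) w ↔ on (r + 1 + j) w)) with hc
  have h1 := h.updates (s := r + 1) hφ0 hφ k
  have hen0 : 0 ≤ P.E (fun w => φ w * en η n2 M x (Hi η n2 x ts ν) (r + 1 + k) w) :=
    P.E_nonneg fun w _ => mul_nonneg (hφ0 w) (h.en_nonneg _ _ _)
  -- the energy at the birth
  have hstart : ∀ w, en η n2 M x (Hp η n2 x ts ν) (r + 1) w ≤ ind (on (r + 1) w) := by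
    intro w
    have hp : Hp η n2 x ts ν (r + 1) w = [] := by
      by_cases hrr : (x (r + 1) w).rs
      · exact hpre_succ_rs (x := fun t => x t w) hrr
      · have e3 : Hp η n2 x ts ν (r + 1) w = Hi η n2 x ts ν r w := hpre_succ (x := fun t => x t w) hrr
        rw [e3]
        exact Hi_off hoff fun s hs => hr s hs w
    by_cases ho : on (r + 1) w
    · rw [ind_of ho]
      exact h.en_nil hp
    · rw [ind_not ho]
      unfold en
      rw [hp]
      have e : (fun d => Er η n2 (x (r + 1) w).u (x (r + 1) w).v [] d ^ 2) = fun _ => (0 : ℝ) := by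
        funext d
        unfold Er
        simp only [List.length_nil, Nat.zero_le, if_true, List.map_nil, List.sum_nil, mul_zero, sub_zero]
        rw [hu0 _ _ ho d]
        norm_num
      rw [e, (h.Mean (r + 1) w).zero]
  have hA : P.E (fun w => φ w * en η n2 M x (Hp η n2 x ts ν) (r + 1) w) +
      ∑ j ∈ range k, P.E (fun w => φ w * ind (x (r + 1 + j + 1) w).rs) ≤ P.E (fun w => φ w * c w) := by
    rw [← P.E_sum, ← P.E_add]
    refine P.E_mono fun w _ => ?_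
    rw [← Finset.mul_sum, ← mul_add]
    refine mul_le_mul_of_nonneg_left ?_ (hφ0 w)
    simp only [hc]
    refine add_le_add (hstart w) (Finset.sum_le_sum fun j _ => ?_)
    exact ind_mono (hrs _ w)
  have hC : P.E (fun w => φ w * c w) ≤ 2 * P.E (fun w => φ w * q w) := by
    rw [← P.E_smul]
    refine P.E_mono fun w _ => ?_
    have := mul_le_mul_of_nonneg_left (hq w) (hφ0 w)
    simp only [hc]
    linarith
  have hD : ∑ j ∈ range (k + 1), P.E (fun w => φ w * Up η n2 x ts ν (r + 1 + j) w) ≤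
      2 / η ^ 2 * P.E (fun w => φ w * c w) := by
    have h5 : 0 < 2 / η ^ 2 := by positivity
    have h4 : η ^ 2 / 2 * ∑ j ∈ range (k + 1), P.E (fun w => φ w * Up η n2 x ts ν (r + 1 + j) w) ≤
        P.E (fun w => φ w * c w) := by linarith
    have h6 := mul_le_mul_of_nonneg_left h4 h5.le
    have h7 : 2 / η ^ 2 * (η ^ 2 / 2 * ∑ j ∈ range (k + 1), P.E (fun w => φ w * Up η n2 x ts ν (r + 1 + j) w)) =
        ∑ j ∈ range (k + 1), P.E (fun w => φ w * Up η n2 x ts ν (r + 1 + j) w) := by field_simp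
    rwa [h7] at h6
  have hE : ∑ t ∈ range (r + 1), P.E (fun w => φ w * Up η n2 x ts ν t w) = 0 := by
    refine Finset.sum_eq_zero fun t ht => ?_
    have ht' := Finset.mem_range.1 ht
    rw [← P.E_const 0]
    refine P.E_congr fun w _ => ?_
    rw [Up_off hoff (fun s hs => hr s (by omega) w), mul_zero]
  rw [show r + (k + 1) + 1 = (r + 1) + (k + 1) by ring, Finset.sum_range_add, hE, zero_add]
  have h2η : 0 < 2 / η ^ 2 := by positivity
  calc _ ≤ 2 / η ^ 2 * P.E (fun w => φ w * c w) := hD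
    _ ≤ 2 / η ^ 2 * (2 * P.E (fun w => φ w * q w)) := mul_le_mul_of_nonneg_left hC h2η.le
    _ = _ := by ring

end RunHyp

end hist

end Pool.Agent.M3

namespace Pool.Agent.M3.S2

open Finset Pool.Agent.PWZ Pool.Agent.M3.TS

noncomputable section

variable {Om A B C V Γ κ Γ2 κ2 S : Type} [Fintype Om] [Fintype A] [Fintype B] [Fintype C] [Fintype V]
  [Fintype S] [DecidableEq S] {m : ℕ} {T1 : Tri Om (S → Fin m) A B C V Γ κ} {T2 : Tri Om (S → Fin m) A B C V Γ2 κ2}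

namespace Inp

/-- the information of the pair in the coarse geometry is known in the fine one -/
theorem KB_fine (fi : Fine T1 T2) (t : ℕ) : Fac (T2.KB t) (T1.KB t) := fun v w h => by
  rw [T2.KB_iff] at h
  rw [T1.KB_iff, ← fi.hxi, ← fi.ha, ← fi.hb]
  exact ⟨h.1, h.2.1, h.2.2.1, fi.gm_eq h.2.2.2⟩

variable (I : Inp T1 S)

/-- the history of the run of the pair `(s, s')`, fine geometry -/
def H3 (T2 : Tri Om (S → Fin m) A B C V Γ2 κ2) (F2 : S → S → ℕ → ℕ → Γ2 → B × C → V → ℝ)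
    (Bn2 : S → S → ℕ → ℕ → Γ2 → κ2 × κ2 → List (Finset (B × C)))
    (Nw : ℕ) (n3 η2 : ℝ) (n4 : ℕ) (R0 nN : ℝ) (ts2 : S → S → ℕ → Om → List (Unit × (V → ℝ))) (s s' : S) (t : ℕ)
    (w : Om) : List (V → ℝ) :=
  (Hi η2 n4 (T2.locg (F2 s s') (Bn2 s s') Nw n3 (fun t w => I.act2 R0 nN w t s s') (I.tg2 s s')) (ts2 s s') nu2 t
    w).map Prod.snd

/-- the label of the pair `(s, s')`, fine geometry -/
def F3l (T2 : Tri Om (S → Fin m) A B C V Γ2 κ2) (F2 : S → S → ℕ → ℕ → Γ2 → B × C → V → ℝ)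
    (Bn2 : S → S → ℕ → ℕ → Γ2 → κ2 × κ2 → List (Finset (B × C)))
    (Nw : ℕ) (n3 η2 : ℝ) (n4 : ℕ) (R0 nN : ℝ) (ts2 : S → S → ℕ → Om → List (Unit × (V → ℝ))) (s s' : S) (t : ℕ)
    (w : Om) (d : V) : ℝ := η2 * ((I.H3 T2 F2 Bn2 Nw n3 η2 n4 R0 nN ts2 s s' t w).map fun h => h d).sum

variable {I} {F2 : S → S → ℕ → ℕ → Γ2 → B × C → V → ℝ}
  {Bn2 : S → S → ℕ → ℕ → Γ2 → κ2 × κ2 → List (Finset (B × C))}
  {Nw : ℕ} {n3 η2 : ℝ} {n4 : ℕ} {R0 nN ε3 : ℝ} {ts2 : S → S → ℕ → Om → List (Unit × (V → ℝ))}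

theorem H3_len (hη : 0 < η2) (s s' : S) (t : ℕ) (w : Om) :
    (I.H3 T2 F2 Bn2 Nw n3 η2 n4 R0 nN ts2 s s' t w).length ≤ n4 + 1 := by
  unfold H3
  rw [List.length_map]
  exact Tri.Hig_len hη t w

theorem F3l_bd (fi : Fine T1 T2) (hη : 0 < η2) (hF : ∀ s s' i t g y d, |F2 s s' i t g y d| ≤ 1)
    (hts : ∀ s s', T2.Testsg (F2 s s') (Bn2 s s') Nw n3 (fun t w => I.act2 R0 nN w t s s') (I.tg2 s s') η2 n4 ε3
      (ts2 s s')) (s s' : S) (t : ℕ) (w : Om) (d : V) :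
    |I.F3l T2 F2 Bn2 Nw n3 η2 n4 R0 nN ts2 s s' t w d| ≤ η2 * (n4 + 1) := by
  unfold F3l
  rw [abs_mul, abs_of_pos hη]
  refine mul_le_mul_of_nonneg_left ?_ hη.le
  have h1 := H3_len (T2 := T2) (I := I) (F2 := F2) (Bn2 := Bn2) (Nw := Nw) (n3 := n3) (n4 := n4) (R0 := R0)
    (nN := nN) (ts2 := ts2) hη s s' t w
  have h2 := list_sum_abs (I.H3 T2 F2 Bn2 Nw n3 η2 n4 R0 nN ts2 s s' t w) (fun h => h d) (e := 1) (by
    intro h hh
    unfold H3 at hh
    obtain ⟨p, hp, rfl⟩ := List.mem_map.1 hh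
    exact Tri.Hig_bd (I.act_fine fi R0 nN s s') (I.tg2_bd s s') hη (hF s s') (hts s s') t w p hp d)
  rw [mul_one] at h2
  refine h2.trans ?_
  exact_mod_cast h1

/-- the runs with the tests of the active times, information of the pair `(x, b)` -/
theorem runHyp3 (fi : Fine T1 T2) (hη : 0 < η2) (hF : ∀ s s' i t g y d, |F2 s s' i t g y d| ≤ 1)
    (hts : ∀ s s', T2.Testsg (F2 s s') (Bn2 s s') Nw n3 (fun t w => I.act2 R0 nN w t s s') (I.tg2 s s') η2 n4 ε3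
      (ts2 s s')) (s s' : S) :
    RunHyp T2.P T2.KB T2.mean 0 η2 n4
      (T2.locg (F2 s s') (Bn2 s s') Nw n3 (fun t w => I.act2 R0 nN w t s s') (I.tg2 s s'))
      (Tri.tsg (fun t w => I.act2 R0 nN w t s s') (ts2 s s')) nu2 := by
  have hA := I.act_fine fi R0 nN s s'
  refine T2.toKB (Tri.runHypg (n4 := n4) (Bn := Bn2 s s') (Nw := Nw) (n3 := n3) hA (I.tg2_bd s s') hη (hF s s')
    (fun t v w h => ?_) (fun t w p hp => ?_)) (fun t v w h => ?_)
  · have h1 := (Tri.QKg t).trans ((hts s s').tsQ t) v w h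
    rw [Tri.Kg_iff] at h
    unfold Tri.tsg
    have e := hA.cong t v w h.1 h.2.1 h.2.2.1 h.2.2.2
    by_cases h2 : I.act2 R0 nN w t s s'
    · rw [if_pos h2, if_pos (e.2 h2), h1]
    · rw [if_neg h2, if_neg fun h3 => h2 (e.1 h3)]
  · unfold Tri.tsg at hp
    split_ifs at hp with h
    · exact (hts s s').bd t w p hp
    · simp at hp
  · rw [T2.KB_iff] at h
    rw [Tri.Kg_iff]
    exact ⟨h.1, h.2.1, by rw [h.2.2.1], h.2.2.2⟩

/-- `(x, b, reference)` at the birth -/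
def phB (I : Inp T1 S) (s : S) (w : Om) : ℝ :=
  ind (T1.gm (I.R.tb s) w = I.R.gb s ∧ I.R.mem s (T1.a w) (T1.b w))

theorem phB_nn (s : S) (w : Om) : 0 ≤ I.phB s w := ind_nonneg _

theorem phB_fac (fi : Fine T1 T2) {s : S} {r : ℕ} (hr : I.R.tb s = r + 1) : Fac (T2.KB (r + 1)) (I.phB s) :=
  fun v w h => by
    have h1 := KB_fine fi _ v w h
    rw [T1.KB_iff] at h1
    obtain ⟨_, ha, hb, hg⟩ := h1
    rw [← hr] at hg
    unfold phB
    rw [ha, hb, hg]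

theorem phB_live {s : S} {t : ℕ} {w : Om} (h : I.live s t w) : I.phB s w = 1 := ind_of ⟨h.1.2, h.2⟩

theorem phB_sum (hn : 0 ≤ nN) : ∑ s, ∑ s', T1.P.E (fun w => I.phB s w * ind (∃ t ≤ T1.n, I.act2 R0 nN w t s s')) ≤
    I.Λ * nN := by
  rw [Finset.sum_congr rfl fun s _ => (T1.P.E_sum _ _).symm, ← T1.P.E_sum]
  refine T1.P.E_le_const fun w _ => ?_
  calc ∑ s, ∑ s', I.phB s w * ind (∃ t ≤ T1.n, I.act2 R0 nN w t s s')
      = ∑ s, I.phB s w * ∑ s', ind (∃ t ≤ T1.n, I.act2 R0 nN w t s s') :=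
        Finset.sum_congr rfl fun s _ => (Finset.mul_sum _ _ _).symm
    _ ≤ ∑ s, I.phB s w * nN := Finset.sum_le_sum fun s _ =>
        mul_le_mul_of_nonneg_left (I.act2_cnt hn T1.n w s) (ind_nonneg _)
    _ = (∑ s, I.phB s w) * nN := (Finset.sum_mul _ _ _).symm
    _ ≤ I.Λ * nN := by
        refine mul_le_mul_of_nonneg_right ?_ hn
        refine le_trans (Finset.sum_le_sum fun s _ => ?_) (I.hΛ T1.n le_rfl w)
        exact ind_mono fun h => ⟨I.tbn s, h.1, h.2⟩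

/-- the hypotheses of `updates_on` and `changes_on` -/
theorem on3 {s : S} {r k : ℕ} (hr : I.R.tb s = r + 1) (hk : T1.n = r + (k + 1)) (s' : S) :
    (∀ t ≤ r, ∀ w, ¬ I.act2 R0 nN w t s s') ∧ ∀ w, ind (I.act2 R0 nN w (r + 1) s s') +
      ∑ j ∈ range k, ind (¬ (I.act2 R0 nN w (r + 1 + j + 1) s s' ↔ I.act2 R0 nN w (r + 1 + j) s s')) ≤
      2 * ind (∃ t ≤ T1.n, I.act2 R0 nN w t s s') := by
  constructor
  · intro t ht w h
    have := h.1.1.1
    omega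
  · intro w
    have h3 := convex_changes (fun j => I.act2 R0 nN w (r + 1 + j) s s')
      (fun i j l hil hlj hi hj => I.act2_convex (by omega) (by omega) hi hj) k
    refine h3.trans ?_
    refine mul_le_mul_of_nonneg_left (ind_mono ?_) (by norm_num)
    rintro ⟨j, hj, h4⟩
    exact ⟨r + 1 + j, by omega, h4⟩

/-- **event (10)** : the runs of stage 2 of live references are not capped -/
theorem cap3 (fi : Fine T1 T2) (hη : 0 < η2) (hn : 0 ≤ nN) (hF : ∀ s s' i t g y d, |F2 s s' i t g y d| ≤ 1)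
    (hts : ∀ s s', T2.Testsg (F2 s s') (Bn2 s s') Nw n3 (fun t w => I.act2 R0 nN w t s s') (I.tg2 s s') η2 n4 ε3
      (ts2 s s')) :
    T1.P.Pr (fun w => ∃ s s', ∃ t ≤ T1.n, I.live s t w ∧ I.act2 R0 nN w t s s' ∧
      n4 < (I.H3 T2 F2 Bn2 Nw n3 η2 n4 R0 nN ts2 s s' t w).length) ≤ 4 / η2 ^ 2 * (I.Λ * nN) / (n4 + 1) := by
  have hn4 : (0 : ℝ) < n4 + 1 := by positivity
  have h4 : 0 ≤ 4 / η2 ^ 2 := by positivity
  -- one pair
  have hpair : ∀ s s', T1.P.Pr (fun w => ∃ t ≤ T1.n, I.live s t w ∧ I.act2 R0 nN w t s s' ∧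
      n4 < (I.H3 T2 F2 Bn2 Nw n3 η2 n4 R0 nN ts2 s s' t w).length) ≤
      4 / η2 ^ 2 * T1.P.E (fun w => I.phB s w * ind (∃ t ≤ T1.n, I.act2 R0 nN w t s s')) / (n4 + 1) := by
    intro s s'
    obtain ⟨r, hr⟩ : ∃ r, I.R.tb s = r + 1 := ⟨I.R.tb s - 1, by have := I.tb1 s; omega⟩
    obtain ⟨k, hk⟩ : ∃ k, T1.n = r + (k + 1) := ⟨T1.n - r - 1, by have := I.tbn s; omega⟩
    obtain ⟨hnot, hq⟩ := I.on3 (R0 := R0) (nN := nN) hr hk s'
    have hR := I.runHyp3 (R0 := R0) (nN := nN) fi hη hF hts s s'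
    have hA := I.act_fine fi R0 nN s s'
    have h2 := hR.updates_on (r := r) (k := k) (φ := I.phB s)
      (q := fun w => ind (∃ t ≤ T1.n, I.act2 R0 nN w t s s')) (phB_nn s) (phB_fac fi hr)
      (on := fun t w => I.act2 R0 nN w t s s')
      (fun t w h => ⟨T2.lsg_nil _ _ _ _ _ h, by unfold Tri.tsg; rw [if_neg h]⟩)
      (fun t w h d => by
        show ind (I.act2 R0 nN w t s s') * _ = 0
        rw [ind_not h, zero_mul])
      hnot
      (fun t w h => by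
        obtain ⟨u, hu, h1⟩ := h
        have : u = t := by omega
        subst this
        exact h1)
      hq
    rw [fi.hP] at h2
    rw [le_div_iff₀ hn4]
    rw [← hk] at h2
    refine le_trans ?_ h2
    have h3 := hR.cap_on (n := T1.n) (phB_nn s) (E := fun w => ∃ t ≤ T1.n, I.live s t w ∧ I.act2 R0 nN w t s s' ∧
        n4 < (I.H3 T2 F2 Bn2 Nw n3 η2 n4 R0 nN ts2 s s' t w).length) (fun w ⟨t, ht, hl, _, hlen⟩ => by
      refine ⟨phB_live hl, t, ht, ?_⟩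
      unfold H3 at hlen
      rw [List.length_map, Tri.Hig_ts hA hη] at hlen
      exact hlen)
    rw [fi.hP] at h3
    exact h3
  refine (fin2_ex T1.P (fun s w => ∃ s', ∃ t ≤ T1.n, I.live s t w ∧ I.act2 R0 nN w t s s' ∧
      n4 < (I.H3 T2 F2 Bn2 Nw n3 η2 n4 R0 nN ts2 s s' t w).length)).trans ?_
  refine (Finset.sum_le_sum fun s _ => (fin2_ex T1.P (fun s' w => ∃ t ≤ T1.n, I.live s t w ∧
      I.act2 R0 nN w t s s' ∧ n4 < (I.H3 T2 F2 Bn2 Nw n3 η2 n4 R0 nN ts2 s s' t w).length)).trans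
      (Finset.sum_le_sum fun s' _ => hpair s s')).trans ?_
  have h8 : ∑ s, ∑ s', 4 / η2 ^ 2 * T1.P.E (fun w => I.phB s w * ind (∃ t ≤ T1.n, I.act2 R0 nN w t s s')) /
      (n4 + 1) = 4 / η2 ^ 2 * (∑ s, ∑ s', T1.P.E (fun w => I.phB s w *
        ind (∃ t ≤ T1.n, I.act2 R0 nN w t s s'))) / (n4 + 1) := by
    simp only [← Finset.sum_div, ← Finset.mul_sum]
  rw [h8]
  exact div_le_div_of_nonneg_right (mul_le_mul_of_nonneg_left (phB_sum hn) h4) hn4.le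

/-- **mean number of changes of the label of `(a, b)`** (fine runs of stage 2) -/
theorem chg_f3 (fi : Fine T1 T2) (hη : 0 < η2) (hn : 0 ≤ nN) (hF : ∀ s s' i t g y d, |F2 s s' i t g y d| ≤ 1)
    (hts : ∀ s s', T2.Testsg (F2 s s') (Bn2 s s') Nw n3 (fun t w => I.act2 R0 nN w t s s') (I.tg2 s s') η2 n4 ε3
      (ts2 s s')) :
    ∑ t ∈ range T1.n, T1.P.Pr (fun w => I.fl (I.F3l T2 F2 Bn2 Nw n3 η2 n4 R0 nN ts2) (t + 1) w ≠
      I.fl (I.F3l T2 F2 Bn2 Nw n3 η2 n4 R0 nN ts2) t w) ≤ I.Λ + (4 / η2 ^ 2 + 2) * (I.Λ * nN) := by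
  have e0 : ∀ t w, I.fl (I.F3l T2 F2 Bn2 Nw n3 η2 n4 R0 nN ts2) t w =
      I.fL (I.F3l T2 F2 Bn2 Nw n3 η2 n4 R0 nN ts2) t w := fun t w => rfl
  simp only [e0]
  set F3 := I.F3l T2 F2 Bn2 Nw n3 η2 n4 R0 nN ts2 with hF3
  have h1 : ∑ t ∈ range T1.n, T1.P.Pr (fun w => I.fL F3 (t + 1) w ≠ I.fL F3 t w) ≤
      I.Λ + ∑ s, ∑ s', ∑ t ∈ range T1.n, T1.P.E (fun w => ind (I.live s (t + 1) w ∧
        F3 s s' (t + 1) w ≠ F3 s s' t w)) := by
    unfold FP.Pr
    rw [← T1.P.E_sum]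
    refine (T1.P.E_mono fun w _ => I.fL_path F3 w).trans (le_of_eq ?_)
    rw [T1.P.E_add, T1.P.E_const, T1.P.E_sum]
    congr 1
    rw [Finset.sum_congr rfl fun t _ => T1.P.E_sum _ _]
    rw [Finset.sum_comm]
    refine Finset.sum_congr rfl fun s _ => ?_
    rw [Finset.sum_congr rfl fun t _ => T1.P.E_sum _ _]
    rw [Finset.sum_comm]
  -- one pair
  have hpair : ∀ s s', ∑ t ∈ range T1.n, T1.P.E (fun w => ind (I.live s (t + 1) w ∧
        F3 s s' (t + 1) w ≠ F3 s s' t w)) ≤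
      (4 / η2 ^ 2 + 2) * T1.P.E (fun w => I.phB s w * ind (∃ t ≤ T1.n, I.act2 R0 nN w t s s')) := by
    intro s s'
    obtain ⟨r, hr⟩ : ∃ r, I.R.tb s = r + 1 := ⟨I.R.tb s - 1, by have := I.tb1 s; omega⟩
    obtain ⟨k, hk⟩ : ∃ k, T1.n = r + (k + 1) := ⟨T1.n - r - 1, by have := I.tbn s; omega⟩
    obtain ⟨hnot, hq⟩ := I.on3 (R0 := R0) (nN := nN) hr hk s'
    have hR := I.runHyp3 (R0 := R0) (nN := nN) fi hη hF hts s s'
    have hA := I.act_fine fi R0 nN s s'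
    have h2 := hR.changes_on (r := r) (k := k) (φ := I.phB s)
      (q := fun w => ind (∃ t ≤ T1.n, I.act2 R0 nN w t s s')) (phB_nn s) (phB_fac fi hr)
      (on := fun t w => I.act2 R0 nN w t s s')
      (fun t w h => ⟨T2.lsg_nil _ _ _ _ _ h, by unfold Tri.tsg; rw [if_neg h]⟩)
      (fun t w h d => by
        show ind (I.act2 R0 nN w t s s') * _ = 0
        rw [ind_not h, zero_mul])
      hnot
      (fun t w h => by
        obtain ⟨u, hu, h1⟩ := h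
        have : u = t := by omega
        subst this
        exact h1)
      hq
    rw [fi.hP] at h2
    refine le_trans ?_ h2
    rw [hk, Finset.sum_range_add]
    have h0 : ∑ t ∈ range r, T1.P.E (fun w => ind (I.live s (t + 1) w ∧
        F3 s s' (t + 1) w ≠ F3 s s' t w)) ≤ 0 := by
      refine Finset.sum_nonpos fun t ht => ?_
      have ht' := Finset.mem_range.1 ht
      refine T1.P.E_le_const fun w _ => le_of_eq (ind_not fun h => ?_)
      have := h.1.1.1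
      omega
    have h5 : ∑ j ∈ range (k + 1), T1.P.E (fun w => ind (I.live s (r + j + 1) w ∧
        F3 s s' (r + j + 1) w ≠ F3 s s' (r + j) w)) ≤
        ∑ j ∈ range (k + 1), T1.P.E (fun w => I.phB s w * ind (Hi η2 n4 (T2.locg (F2 s s') (Bn2 s s') Nw n3
          (fun t w => I.act2 R0 nN w t s s') (I.tg2 s s'))
          (Tri.tsg (fun t w => I.act2 R0 nN w t s s') (ts2 s s')) nu2 (r + j + 1) w ≠
          Hi η2 n4 (T2.locg (F2 s s') (Bn2 s s') Nw n3 (fun t w => I.act2 R0 nN w t s s') (I.tg2 s s'))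
          (Tri.tsg (fun t w => I.act2 R0 nN w t s s') (ts2 s s')) nu2 (r + j) w)) := by
      refine Finset.sum_le_sum fun j _ => T1.P.E_mono fun w _ => ?_
      by_cases h6 : I.live s (r + j + 1) w ∧ F3 s s' (r + j + 1) w ≠ F3 s s' (r + j) w
      · rw [ind_of h6, phB_live h6.1, one_mul, ind_of fun h8 => h6.2 ?_]
        rw [hF3]
        funext d
        unfold F3l H3
        rw [Tri.Hig_ts hA hη (ts2 s s') (r + j + 1) w, h8, ← Tri.Hig_ts hA hη (ts2 s s') (r + j) w]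
      · rw [ind_not h6]
        exact mul_nonneg (phB_nn s w) (ind_nonneg _)
    linarith
  have h4 : 0 ≤ 4 / η2 ^ 2 + 2 := by positivity
  refine h1.trans (add_le_add le_rfl ?_)
  refine (Finset.sum_le_sum fun s _ => Finset.sum_le_sum fun s' _ => hpair s s').trans ?_
  rw [Finset.sum_congr rfl fun s _ => (Finset.mul_sum _ _ _).symm, ← Finset.mul_sum]
  exact mul_le_mul_of_nonneg_left (phB_sum hn) h4

/-- **THE CONCLUSION OF SECTION 2** (both stages, two roundings) -/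
theorem concl3 (I : Inp T1 S) (fi : Fine T1 T2) (hm : 0 < m) {η1 : ℝ} (hη : 0 < η1) (n2 : ℕ) {R0 ε2 : ℝ} (hR : 0 < R0)
    (hε2 : 0 < ε2) {η' ε' : ℝ}
    (hη' : 0 < η') (hε' : 0 < ε') (j : ℕ) {n1 : ℝ}
    (hn1 : ((j : ℝ) + 1) * (96 * (I.p0 + 2) / η' ^ 2) ≤ n1) {Kc : ℝ}
    (hLM : LM T1.P (fun w => (T1.xi w, T1.a w)) T1.b T1.n (fun t w => (T1.c w, T1.gm t w))
      (fun t w => (T1.c w, T1.gm t w)) (fun t x => T1.ca t x.2) T1.cb (fun t g => T1.ρ t g.2)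
      (fun t g => T1.ρ t g.2) T1.J T1.near Kc)
    {ε : ℝ} (hX : 2 * η1 / (1 + n2 * η1) ≤ 1 / 4) (hηη : η' ≤ 4 * η1 / (1 + n2 * η1))
    (hε : 0 < ε) (hε1 : ε ≤ 1) (h1ε : 2 * ε' ≤ ε) (h2ε : 2 * ε2 ≤ ε)
    (hnear : T1.near ≤ 2 * η1 / (1 + n2 * η1) / 4) (hKc : 1 ≤ Kc)
    (k : ℕ) {nN Mc : ℝ} (hnN : 0 < nN) (hMc : 0 < Mc) {M Nw : ℕ} (hNw : 2 * (M + 1) ^ ⌊n1⌋₊ + M ≤ Nw)
    -- stage 2
    {η2 : ℝ} (hη2 : 0 < η2) (n4 : ℕ) {ε3 : ℝ} (hε3 : 0 < ε3) {η3 ε4 : ℝ} (hη3 : 0 < η3) (hε4 : 0 < ε4) (j2 : ℕ)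
    {n3 : ℝ} (hn3 : ((j2 : ℝ) + 1) * (96 * (I.p0 + 3) / η3 ^ 2) ≤ n3) {Kc2 : ℝ} (hKc2 : 1 ≤ Kc2)
    (hLM2 : LM T2.P (fun w => (T2.xi w, T2.a w)) (fun w => (T2.b w, T2.c w)) T2.n
      (fun t w => (T2.cb t (T2.b w), T2.gm t w)) (fun t w => T2.gm t w) (fun t x => T2.ca t x.2)
      (fun t y => (T2.cb t y.1, T2.cc t y.2)) (fun t g => T2.ρ t g.2) T2.ρ T2.J T2.near Kc2)
    {ε5 : ℝ} (hX2 : 2 * η2 / (1 + n4 * η2) ≤ 1 / 4) (hηη2 : η3 ≤ 4 * η2 / (1 + n4 * η2))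
    (hε5 : 0 < ε5) (hε51 : ε5 ≤ 1) (h15 : 2 * ε4 ≤ ε5) (h25 : 2 * ε3 ≤ ε5)
    (hnear2 : T2.near ≤ 2 * η2 / (1 + n4 * η2) / 4) :
    ∃ (F : S → ℕ → C × Γ → B → V → ℝ) (Bn : S → ℕ → C × Γ → κ → List (Finset B)) (ts : ℕ → Om → List (S × (V → ℝ)))
      (F2 : S → S → ℕ → ℕ → Γ2 → B × C → V → ℝ) (Bn2 : S → S → ℕ → ℕ → Γ2 → κ2 × κ2 → List (Finset (B × C)))
      (ts2 : S → S → ℕ → Om → List (Unit × (V → ℝ))),
      (∀ s, NOut T1.P T1.b T1.n (fun t w => (T1.c w, T1.gm t w)) T1.cb (fun t g => T1.ρ t g.2)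
        (fun t (g : C × Γ) => (g.1, T1.par t g.2)) (I.k1 s) (F s) (Bn s) η' ε' n1 ((1 / 2) ^ j)) ∧
      I.Tests1 F Bn n1 η1 n2 R0 ε2 ts ∧
      (∀ s s' i, NOut T2.P (fun w => (T2.b w, T2.c w)) T2.n T2.gm (fun t (y : B × C) => (T2.cb t y.1, T2.cc t y.2))
        T2.ρ T2.par (I.U2 fi.crs (I.alT F Bn n1 ts) Mc s s' i) (F2 s s' i) (Bn2 s s' i) η3 ε4 n3 ((1 / 2) ^ j2)) ∧
      (∀ s s', T2.Testsg (F2 s s') (Bn2 s s') Nw n3 (fun t w => I.act2 R0 nN w t s s') (I.tg2 s s') η2 n4 ε3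
        (ts2 s s')) ∧
      T1.P.Pr (fun w => ∃ t ≤ T1.n, I.Λ * (1601 * η1 + (1 + n2 * η1) * T1.near +
          η1 * n2 * (1601 * η2 + (1 + n4 * η2) * T2.near)) <
        |I.TT t w - I.XX η1 (I.F3l T2 F2 Bn2 Nw n3 η2 n4 R0 nN ts2)
          (Hi η1 n2 (I.loc1 F Bn n1) ts (fun t w => I.N1 R0 w t)) t w|) ≤
        I.q1sum η1 n2 R0 ε2 η' ε' ε Kc j k M nN Mc + (1 / 2) ^ j2 * (Nw * Mc ^ 2) +
        10 ^ 8 * ε5 / (2 * η2 / (1 + n4 * η2)) ^ 4 * (1 + Real.log (Kc2 / ε5)) *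
          (Nw * ((I.p0 + 2) * Mc ^ 2 * (1 + 32 / η3 ^ 2) + (2 + 6 / η2 ^ 2) * (nN * I.Ms))) +
        6 / η2 ^ 2 * (I.Λ * nN) / (n4 + 1) := by
  obtain ⟨F, Bn, ts, hN, hts, hc⟩ := I.half1 (n1 := n1) (Kc := Kc) (ε := ε) hm hη n2 hR hε2 hη' hε' j hn1 hLM hX hηη
    hε hε1 h1ε h2ε hnear hKc k hnN hMc hNw
  have hal : ∀ t w s' h, (s', h) ∈ I.alT F Bn n1 ts t w → ∀ d, |h d| ≤ 1 := by
    rintro t w s' h (h1 | h1) d
    · obtain ⟨_, f, hf, h2⟩ := h1
      obtain ⟨b', _, _, rfl⟩ := hf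
      have h2' : h = F s' t (T1.c w, T1.gm t w) b' ∨ h = fun d => - F s' t (T1.c w, T1.gm t w) b' d := h2
      rcases h2' with h2 | h2
      · rw [h2]; exact (hN s').F1 _ _ _ _
      · rw [h2, abs_neg]; exact (hN s').F1 _ _ _ _
    · exact hts.bd t w _ h1 d
  obtain ⟨F2, Bn2, ts2, hN2, hts2⟩ := I.fine_exist fi (I.alT F Bn n1 ts) Mc hal hη2 n4 R0 nN hε3 Nw hη3 hε4 j2 n3 hn3
  refine ⟨F, Bn, ts, F2, Bn2, ts2, hN, hts, hN2, hts2, ?_⟩
  have hF2 : ∀ s s' i t g y d, |F2 s s' i t g y d| ≤ 1 := fun s s' i t g y d => (hN2 s s' i).F1 t g y d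
  have hE2 : 0 ≤ 1601 * η2 + (1 + n4 * η2) * T2.near := by
    have := T2.near0
    positivity
  have hδ : (0 : ℝ) ≤ (1 / 2) ^ j2 := by positivity
  have h9 := I.fine_err fi (al := I.alT F Bn n1 ts) (Mc := Mc) hη2 hnN.le hts2 hη3 hδ hal hN2 hKc2 hLM2 hX2 hηη2
    hε5 hε51 h15 h25 hnear2
  have h10 := cap3 (I := I) fi hη2 hnN.le hF2 hts2
  have h := hc n4 (1601 * η2 + (1 + n4 * η2) * T2.near) η2 (fun _ _ _ _ _ => False)
    (I.H3 T2 F2 Bn2 Nw n3 η2 n4 R0 nN ts2)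
    (fun s s' => T2.Zg (F2 s s') (Bn2 s s') Nw n3 (fun t w => I.act2 R0 nN w t s s') (I.tg2 s s') η2 n4 (ts2 s s'))
    0 _ _ hE2 (fun s s' t w ha hl d => by
      unfold H3 at hl
      rw [List.length_map] at hl
      have := Tri.Zg_eq (T := T2) (tg := I.tg2 s s') ha hl d
      rw [fi.ha] at this
      exact this)
    (by
      refine le_of_eq ?_
      have : (fun w : Om => ∃ s s', ∃ i < Nw, ∃ t ≤ T1.n, I.act2 R0 nN w t s s' ∧ False) = fun _ => False := by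
        funext w
        simp
      rw [this]
      unfold FP.Pr
      rw [← T1.P.E_const 0]
      exact T1.P.E_congr fun w _ => ind_not id)
    (le_trans (T1.P.Pr_mono (by
      rintro w _ ⟨s, s', i, hi, t, ht, _, _, hl⟩
      exact ⟨s, s', i, hi, t, ht, hl⟩)) h9) h10
  refine h.trans ?_
  have h11 : 4 / η2 ^ 2 * (I.Λ * nN) / ((n4 : ℝ) + 1) ≤ 6 / η2 ^ 2 * (I.Λ * nN) / (n4 + 1) := by
    have hΛ : 0 ≤ I.Λ := zero_le_one.trans I.Λ1
    have : 4 / η2 ^ 2 ≤ 6 / η2 ^ 2 := by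
      refine div_le_div_of_nonneg_right (by norm_num) (by positivity)
    refine div_le_div_of_nonneg_right (mul_le_mul_of_nonneg_right this ?_) (by positivity)
    positivity
  linarith

end Inp

end

end Pool.Agent.M3.S2
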