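import Pool.Agent.M3.S2.Def
import Pool.Agent.M3.S1Clip

/-!
# M3/S2/InpA (helper27): the input `Inp` of section 2 from two systems of cumulative lists (abstract form)

`LSys T β cap cap2` = lists `fl t g a b : List β` of the pair `(a,b)` at the node `g` (frozen: length `<= cap`, at most
`cap2` public births in the cells of the pair on a path), birth times `tm`, sign functions `sa`, `sb`.
`RefD` = data of a reference `(y, g, al, be, l, J)`: system, node and cells of the birth, the list, a set of positions.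
`SS L` = the realised references; `Rep L S` = a type `S` which represents them (the private randomness of section 2 is
indexed by `S`, so `S` must not depend on it).  `mkInp` : the instance, with sizes `2 (cap+1) 2^cap`, `2 (cap2+1)^cap 2^cap`;
`mkInp_G3` : the structured face is the signed sum of the two structured functions.
-/

set_option autoImplicit false
set_option linter.unusedSectionVars false

namespace Pool.Agent.M3.S2

open Finset Pool.Agent.PWZ Pool.Agent.M3.TS

noncomputable section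

/-! ### birth time of a list -/

/-- birth time of the last element of the list, at least one -/
def tbL {β : Type} (tm : β → ℕ) (l : List β) : ℕ := (l.map tm).foldr max 1

theorem one_le_tbL {β : Type} (tm : β → ℕ) (l : List β) : 1 ≤ tbL tm l := by
  unfold tbL
  induction l with
  | nil => exact le_rfl
  | cons x l ih =>
    rw [List.map_cons, List.foldr_cons]
    exact ih.trans (le_max_right _ _)

theorem le_tbL {β : Type} (tm : β → ℕ) (l : List β) {x : β} (hx : x ∈ l) : tm x ≤ tbL tm l := by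
  unfold tbL
  induction l with
  | nil => exact absurd hx List.not_mem_nil
  | cons y l ih =>
    rw [List.map_cons, List.foldr_cons]
    rcases List.mem_cons.1 hx with h | h
    · rw [h]; exact le_max_left _ _
    · exact (ih h).trans (le_max_right _ _)

theorem tbL_le {β : Type} (tm : β → ℕ) (l : List β) {t : ℕ} (ht : 1 ≤ t) (h : ∀ x ∈ l, tm x ≤ t) :
    tbL tm l ≤ t := by
  unfold tbL
  induction l with
  | nil => exact ht
  | cons y l ih =>
    rw [List.map_cons, List.foldr_cons]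
    exact max_le (h y List.mem_cons_self) (ih fun x hx => h x (List.mem_cons_of_mem _ hx))

/-- counting by an injection -/
theorem sum_ind_le_card {S α : Type} [Fintype S] (p : S → Prop) (f : S → α) (T : Finset α)
    (hf : ∀ s, p s → f s ∈ T) (hinj : ∀ s s', p s → p s' → f s = f s' → s = s') :
    ∑ s, ind (p s) ≤ (T.card : ℝ) := by
  classical
  have h1 : ∑ s, ind (p s) = (((univ : Finset S).filter p).card : ℝ) := by
    rw [Finset.card_filter]
    push_cast
    refine Finset.sum_congr rfl fun s _ => ?_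
    by_cases h : p s
    · rw [ind_of h, if_pos h]
    · rw [ind_not h, if_neg h]
  rw [h1]
  have h2 : ((univ : Finset S).filter p).card ≤ T.card := by
    refine Finset.card_le_card_of_injOn f ?_ ?_
    · intro s hs
      exact hf s (Finset.mem_filter.1 hs).2
    · intro s hs s' hs' h
      exact hinj s s' (Finset.mem_filter.1 hs).2 (Finset.mem_filter.1 hs').2 h
  exact_mod_cast h2

/-- a position in a set of positions -/
def inPos {β : Type} (l : List β) (J : Finset (Fin l.length)) (j : ℕ) : Prop :=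
  ∃ h : j < l.length, (⟨j, h⟩ : Fin l.length) ∈ J

open Classical in
/-- a set of positions as a subset of `Fin cap` -/
def posC {β : Type} (cap : ℕ) (l : List β) (J : Finset (Fin l.length)) : Finset (Fin cap) :=
  univ.filter fun j : Fin cap => inPos l J j

theorem mem_posC {β : Type} {cap : ℕ} {l : List β} {J : Finset (Fin l.length)} {j : Fin cap} :
    j ∈ posC cap l J ↔ inPos l J j := by
  classical
  unfold posC
  rw [Finset.mem_filter]
  exact ⟨fun h => h.2, fun h => ⟨Finset.mem_univ _, h⟩⟩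

theorem posC_inj {β : Type} {cap : ℕ} {l : List β} (hl : l.length ≤ cap) {J J' : Finset (Fin l.length)}
    (h : posC cap l J = posC cap l J') : J = J' := by
  ext ⟨j, hj⟩
  have h1 : ∀ J : Finset (Fin l.length), ((⟨j, hj.trans_le hl⟩ : Fin cap) ∈ posC cap l J ↔ (⟨j, hj⟩ : Fin l.length) ∈ J) := by
    intro J
    rw [mem_posC]
    constructor
    · rintro ⟨_, h3⟩
      exact h3
    · intro h3
      exact ⟨hj, h3⟩
  rw [← h1 J, ← h1 J', h]

theorem list_ext_cap {β : Type} {cap : ℕ} {l l' : List β} (hl : l.length ≤ cap) (hl' : l'.length ≤ cap)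
    (h : (fun j : Fin cap => l[(j : ℕ)]?) = fun j : Fin cap => l'[(j : ℕ)]?) : l = l' := by
  refine List.ext_getElem? fun i => ?_
  rcases Nat.lt_or_ge i cap with hi | hi
  · exact congrFun h ⟨i, hi⟩
  · rw [List.getElem?_eq_none (hl.trans hi), List.getElem?_eq_none (hl'.trans hi)]

theorem suffix_eq {β : Type} {l l' m : List β} (h : l <:+ m) (h' : l' <:+ m) (hl : l.length = l'.length) :
    l = l' := (List.suffix_of_suffix_length_le h h' hl.le).eq_of_length hl

theorem suffix_antisymm {β : Type} {l l' : List β} (h : l <:+ l') (h' : l' <:+ l) : l = l' :=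
  h.eq_of_length (le_antisymm h.length_le h'.length_le)

/-! ### list systems -/

variable {Om Ξ A B C V Γ κ : Type} [Fintype Om] [Fintype Ξ] [Fintype A] [Fintype B]
    [Fintype C] [Fintype V]

/-- a system of cumulative lists of births of the pair `(a,b)` -/
structure LSys (T : Tri Om Ξ A B C V Γ κ) (β : Type) (cap cap2 : ℕ) where
  fl : ℕ → Γ → A → B → List β
  tm : β → ℕ
  sa : β → A → V → ℝ
  sb : β → B → V → ℝ
  sa1 : ∀ x a d, sa x a d = 1 ∨ sa x a d = -1
  sb1 : ∀ x b d, sb x b d = 1 ∨ sb x b d = -1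
  suf : ∀ t w, fl t (T.gm t w) (T.a w) (T.b w) <:+ fl (t + 1) (T.gm (t + 1) w) (T.a w) (T.b w)
  len : ∀ t g a b, (fl t g a b).length ≤ cap
  tml : ∀ t w, ∀ x ∈ fl t (T.gm t w) (T.a w) (T.b w), tm x ≤ t ∧ tm x ≤ T.n
  new : ∀ t w, fl (t + 1) (T.gm (t + 1) w) (T.a w) (T.b w) ≠ fl t (T.gm t w) (T.a w) (T.b w) →
    ∃ x ∈ fl (t + 1) (T.gm (t + 1) w) (T.a w) (T.b w), tm x = t + 1
  pub : ∀ w, ∃ BS : Finset β, BS.card ≤ cap2 ∧ ∀ t ≤ T.n, ∀ w', T.gm t w' = T.gm t w →
    T.ca t (T.a w') = T.ca t (T.a w) → T.cb t (T.b w') = T.cb t (T.b w) →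
    ∀ x ∈ fl t (T.gm t w') (T.a w') (T.b w'), x ∈ BS

namespace LSys

variable {T : Tri Om Ξ A B C V Γ κ} {β : Type} {cap cap2 : ℕ} (L : LSys T β cap cap2)

/-- the list at a sample point -/
def cl (t : ℕ) (w : Om) : List β := L.fl t (T.gm t w) (T.a w) (T.b w)

theorem cl_suf {t t' : ℕ} (h : t ≤ t') (w : Om) : L.cl t w <:+ L.cl t' w := by
  induction t', h using Nat.le_induction with
  | base => exact List.suffix_rfl
  | succ n _ ih => exact ih.trans (L.suf n w)

theorem cl_eq {t0 t : ℕ} (h : t0 ≤ t) (w : Om) (hx : ∀ x ∈ L.cl t w, L.tm x ≤ t0) : L.cl t0 w = L.cl t w := by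
  induction t, h using Nat.le_induction with
  | base => rfl
  | succ n hn ih =>
    have h1 : L.cl (n + 1) w = L.cl n w := by
      by_contra hne
      obtain ⟨x, hx1, hx2⟩ := L.new n w hne
      have := hx x hx1
      omega
    rw [h1] at hx ⊢
    exact ih hx

theorem tb_le {t : ℕ} (ht : 1 ≤ t) (w : Om) : tbL L.tm (L.cl t w) ≤ t :=
  tbL_le _ _ ht fun x hx => (L.tml t w x hx).1

theorem tb_le_n (hn : 1 ≤ T.n) (t : ℕ) (w : Om) : tbL L.tm (L.cl t w) ≤ T.n :=
  tbL_le _ _ hn fun x hx => (L.tml t w x hx).2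

/-- the list at its own birth time -/
theorem cl_tb {t : ℕ} (ht : 1 ≤ t) (w : Om) : L.cl (tbL L.tm (L.cl t w)) w = L.cl t w :=
  L.cl_eq (L.tb_le ht w) w fun _ hx => le_tbL _ _ hx

/-- number of changes of the list on a path -/
theorem cl_moves (m : ℕ) (w : Om) : ∑ t ∈ range m, ind (L.cl (t + 1) w ≠ L.cl t w) ≤ (cap : ℝ) := by
  have h1 : ∑ t ∈ range m, ind (L.cl (t + 1) w ≠ L.cl t w) ≤ ((L.cl m w).length : ℝ) := by
    induction m with
    | zero => simp
    | succ m ih =>
      rw [Finset.sum_range_succ]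
      by_cases h : L.cl (m + 1) w ≠ L.cl m w
      · rw [ind_of h]
        have h2 : (L.cl m w).length < (L.cl (m + 1) w).length := by
          rcases Nat.lt_or_ge (L.cl m w).length (L.cl (m + 1) w).length with h3 | h3
          · exact h3
          · exact absurd ((L.suf m w).eq_of_length (le_antisymm (L.suf m w).length_le h3)).symm h
        have h3 : ((L.cl m w).length : ℝ) + 1 ≤ (L.cl (m + 1) w).length := by exact_mod_cast h2
        linarith
      · rw [ind_not h, add_zero]
        have h2 : ((L.cl m w).length : ℝ) ≤ (L.cl (m + 1) w).length := by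
          exact_mod_cast (L.suf m w).length_le
        linarith
  exact h1.trans (by exact_mod_cast L.len m _ _ _)

end LSys

/-- data of a reference -/
structure RefD (β Γ κ : Type) where
  y : Bool
  g : Γ
  al : κ
  be : κ
  l : List β
  J : Finset (Fin l.length)

section inst

variable {T : Tri Om Ξ A B C V Γ κ} {β : Type} {cap cap2 : ℕ} (L : Bool → LSys T β cap cap2)

/-- birth time of a reference -/
def tbR (s : RefD β Γ κ) : ℕ := tbL (L s.y).tm s.l

/-- members of a reference -/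
def memR (s : RefD β Γ κ) (a : A) (b : B) : Prop :=
  T.ca (tbR L s) a = s.al ∧ T.cb (tbR L s) b = s.be ∧ (L s.y).fl (tbR L s) s.g a b = s.l

/-- realised references -/
def Rlz (s : RefD β Γ κ) : Prop := tbR L s ≤ T.n ∧ ∃ w, T.gm (tbR L s) w = s.g ∧ memR L s (T.a w) (T.b w)

/-- the type of the references -/
def SS : Type := {s : RefD β Γ κ // Rlz L s}

instance : Finite (SS L) := by
  classical
  let X : Type := Σ p : Bool × Om × Fin (T.n + 1), Finset (Fin ((L p.1).cl p.2.2 p.2.1).length)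
  let f : X → RefD β Γ κ := fun q =>
    ⟨q.1.1, T.gm q.1.2.2 q.1.2.1, T.ca q.1.2.2 (T.a q.1.2.1), T.cb q.1.2.2 (T.b q.1.2.1),
      (L q.1.1).cl q.1.2.2 q.1.2.1, q.2⟩
  have hfin : (Set.range f).Finite := Set.finite_range f
  refine Set.Finite.subset (s := Set.range f) hfin ?_ |>.to_subtype
  rintro ⟨y, g, al, be, l, J⟩ ⟨h1, w, h2, h3, h4, h5⟩
  unfold tbR at h1 h2 h3 h4 h5
  simp only at h1 h2 h3 h4 h5
  have h6 : (L y).cl (tbL (L y).tm l) w = l := by
    unfold LSys.cl
    rw [h2]
    exact h5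
  generalize hn : tbL (L y).tm l = n at h1 h2 h3 h4 h5 h6
  clear h5 hn
  subst h2 h3 h4 h6
  exact ⟨⟨(y, w, ⟨n, Nat.lt_succ_of_le h1⟩), J⟩, rfl⟩

instance : Fintype (SS L) := Fintype.ofFinite _

/-- `S` represents the realised references -/
structure Rep (S : Type) where
  v : S → RefD β Γ κ
  inj : Function.Injective v
  re : ∀ s, Rlz L (v s)
  all : ∀ r, Rlz L r → ∃ s, v s = r

/-- the type of the realised references represents them -/
def repSS : Rep L (SS L) where
  v s := s.1
  inj := Subtype.val_injective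
  re s := s.2
  all r hr := ⟨⟨r, hr⟩, rfl⟩

variable {L} {S : Type} (E : Rep L S)

/-- the data of the reference of a sample point, a time and a set of positions -/
def rd (L : Bool → LSys T β cap cap2) (w : Om) (t : ℕ) (y : Bool) (J : Finset (Fin ((L y).cl t w).length)) :
    RefD β Γ κ :=
  ⟨y, T.gm (tbL (L y).tm ((L y).cl t w)) w, T.ca (tbL (L y).tm ((L y).cl t w)) (T.a w),
    T.cb (tbL (L y).tm ((L y).cl t w)) (T.b w), (L y).cl t w, J⟩

theorem rd_rlz (hn : 1 ≤ T.n) (w : Om) {t : ℕ} (ht : 1 ≤ t) (y : Bool)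
    (J : Finset (Fin ((L y).cl t w).length)) : Rlz L (rd L w t y J) :=
  ⟨(L y).tb_le_n hn t w, w, rfl, rfl, rfl, (L y).cl_tb ht w⟩

/-- the reference of a sample point, a time and a set of positions -/
def rf (hn : 1 ≤ T.n) (w : Om) {t : ℕ} (ht : 1 ≤ t) (y : Bool) (J : Finset (Fin ((L y).cl t w).length)) : S :=
  Classical.choose (E.all _ (rd_rlz hn w ht y J))

theorem rf_v (hn : 1 ≤ T.n) (w : Om) {t : ℕ} (ht : 1 ≤ t) (y : Bool) (J : Finset (Fin ((L y).cl t w).length)) :
    E.v (rf E hn w ht y J) = rd L w t y J :=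
  Classical.choose_spec (E.all _ (rd_rlz hn w ht y J))

/-- `s` is live at the time `t` (as in `Inp.live`) -/
def liv (s : S) (t : ℕ) (w : Om) : Prop :=
  (tbR L (E.v s) ≤ t ∧ T.gm (tbR L (E.v s)) w = (E.v s).g) ∧ memR L (E.v s) (T.a w) (T.b w)

theorem liv_cl {s : S} {t : ℕ} {w : Om} (h : liv E s t w) : (L (E.v s).y).cl (tbR L (E.v s)) w = (E.v s).l := by
  have h1 := h.2.2.2
  unfold LSys.cl
  rw [h.1.2]
  exact h1

theorem liv_suf {s : S} {t : ℕ} {w : Om} (h : liv E s t w) : (E.v s).l <:+ (L (E.v s).y).cl t w := by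
  rw [← liv_cl E h]
  exact (L (E.v s).y).cl_suf h.1.1 w

theorem rf_liv (hn : 1 ≤ T.n) (w : Om) {t : ℕ} (ht : 1 ≤ t) (y : Bool) (J : Finset (Fin ((L y).cl t w).length)) :
    liv E (rf E hn w ht y J) t w := by
  unfold liv
  rw [rf_v]
  exact ⟨⟨(L y).tb_le ht w, rfl⟩, rfl, rfl, (L y).cl_tb ht w⟩

/-- the live sets determine the lists -/
theorem cl_of_liv {t t' : ℕ} (ht : 1 ≤ t) (ht' : 1 ≤ t') (hn : 1 ≤ T.n) {w w' : Om}
    (h : ∀ s : S, liv E s t w ↔ liv E s t' w') (y : Bool) : (L y).cl t w = (L y).cl t' w' := by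
  refine suffix_antisymm ?_ ?_
  · have h1 := liv_suf E ((h (rf E hn w ht y ∅)).1 (rf_liv E hn w ht y ∅))
    rw [rf_v] at h1
    exact h1
  · have h1 := liv_suf E ((h (rf E hn w' ht' y ∅)).2 (rf_liv E hn w' ht' y ∅))
    rw [rf_v] at h1
    exact h1

theorem RefD_ext {s s' : RefD β Γ κ} (h1 : s.y = s'.y) (h2 : s.l = s'.l) (hcap : s.l.length ≤ cap)
    (h3 : posC cap s.l s.J = posC cap s'.l s'.J)
    (hg : s.g = s'.g) (ha : s.al = s'.al) (hb : s.be = s'.be) : s = s' := by
  obtain ⟨y, g, al, be, l, J⟩ := s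
  obtain ⟨y', g', al', be', l', J'⟩ := s'
  simp only at h1 h2 h3 hg ha hb hcap
  subst h1 h2 hg ha hb
  have := posC_inj hcap h3
  subst this
  rfl

theorem SS_len (s : S) : (E.v s).l.length ≤ cap := by
  obtain ⟨-, w, -, -, -, h⟩ := E.re s
  rw [← h]
  exact (L (E.v s).y).len _ _ _ _

variable [Fintype S]

/-- number of live references -/
theorem count_live (t : ℕ) (w : Om) : ∑ s : S, ind (liv E s t w) ≤ 2 * ((cap : ℝ) + 1) * 2 ^ cap := by
  classical
  have h1 := sum_ind_le_card (fun s : S => liv E s t w)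
    (fun s => ((E.v s).y, (E.v s).l.length, posC cap (E.v s).l (E.v s).J))
    ((univ : Finset Bool) ×ˢ range (cap + 1) ×ˢ (univ : Finset (Finset (Fin cap))))
    (fun s _ => by
      simp only [Finset.mem_product, Finset.mem_univ, Finset.mem_range, true_and, and_true]
      exact Nat.lt_succ_of_le (SS_len E s))
    (fun s s' hs hs' h => by
      simp only [Prod.mk.injEq] at h
      obtain ⟨hy, hl, hJ⟩ := h
      have e1 : (E.v s).l = (E.v s').l := by
        have h2 := liv_suf E hs
        have h3 := liv_suf E hs'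
        rw [← hy] at h3
        exact suffix_eq h2 h3 hl
      have e2 : tbR L (E.v s) = tbR L (E.v s') := by
        unfold tbR
        rw [hy, e1]
      refine E.inj <| RefD_ext hy e1 (SS_len E s) hJ ?_ ?_ ?_
      · rw [← hs.1.2, ← hs'.1.2, e2]
      · rw [← hs.2.1, ← hs'.2.1, e2]
      · rw [← hs.2.2.1, ← hs'.2.2.1, e2])
  refine h1.trans (le_of_eq ?_)
  rw [Finset.card_product, Finset.card_product, Finset.card_range, Finset.card_univ, Finset.card_univ,
    Fintype.card_bool, Fintype.card_finset, Fintype.card_fin]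
  push_cast
  ring

/-- number of references on a path, in the cells of the pair -/
theorem count_path (w : Om) : ∑ s : S, ind (T.gm (tbR L (E.v s)) w = (E.v s).g ∧ T.ca (tbR L (E.v s)) (T.a w) = (E.v s).al ∧
    T.cb (tbR L (E.v s)) (T.b w) = (E.v s).be) ≤ 2 * ((cap2 : ℝ) + 1) ^ cap * 2 ^ cap := by
  classical
  choose BS hB1 hB2 using fun y => (L y).pub w
  have h0 : ∀ y : Bool, ∑ s : S, ind ((T.gm (tbR L (E.v s)) w = (E.v s).g ∧ T.ca (tbR L (E.v s)) (T.a w) = (E.v s).al ∧
      T.cb (tbR L (E.v s)) (T.b w) = (E.v s).be) ∧ (E.v s).y = y) ≤ ((cap2 : ℝ) + 1) ^ cap * 2 ^ cap := by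
    intro y
    have h1 := sum_ind_le_card (fun s : S => (T.gm (tbR L (E.v s)) w = (E.v s).g ∧
        T.ca (tbR L (E.v s)) (T.a w) = (E.v s).al ∧ T.cb (tbR L (E.v s)) (T.b w) = (E.v s).be) ∧ (E.v s).y = y)
      (fun s => ((fun j : Fin cap => (E.v s).l[(j : ℕ)]?), posC cap (E.v s).l (E.v s).J))
      ((Fintype.piFinset fun _ : Fin cap => Finset.insertNone (BS y)) ×ˢ (univ : Finset (Finset (Fin cap))))
      (fun s hs => by
        simp only [Finset.mem_product, Finset.mem_univ, and_true, Fintype.mem_piFinset]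
        intro j
        rw [Finset.mem_insertNone]
        intro x hx
        have hx' : x ∈ (E.v s).l := List.mem_of_getElem? hx
        obtain ⟨hn, w', hg, ha, hb, hfl⟩ := E.re s
        obtain ⟨⟨g1, g2, g3⟩, g4⟩ := hs
        rw [← g4]
        refine hB2 (E.v s).y (tbR L (E.v s)) hn w' (hg.trans g1.symm) (ha.trans g2.symm) (hb.trans g3.symm) x ?_
        rw [hg, hfl]
        exact hx')
      (fun s s' hs hs' h => by
        simp only [Prod.mk.injEq] at h
        obtain ⟨hl, hJ⟩ := h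
        obtain ⟨⟨g1, g2, g3⟩, g4⟩ := hs
        obtain ⟨⟨g1', g2', g3'⟩, g4'⟩ := hs'
        have hy : (E.v s).y = (E.v s').y := g4.trans g4'.symm
        have e1 : (E.v s).l = (E.v s').l := list_ext_cap (SS_len E s) (SS_len E s') hl
        have e2 : tbR L (E.v s) = tbR L (E.v s') := by
          unfold tbR
          rw [hy, e1]
        refine E.inj <| RefD_ext hy e1 (SS_len E s) hJ ?_ ?_ ?_
        · rw [← g1, ← g1', e2]
        · rw [← g2, ← g2', e2]
        · rw [← g3, ← g3', e2])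
    refine h1.trans ?_
    rw [Finset.card_product, Fintype.card_piFinset, Finset.card_univ, Fintype.card_finset, Fintype.card_fin,
      Finset.prod_const, Finset.card_univ, Fintype.card_fin, Finset.card_insertNone]
    push_cast
    refine mul_le_mul_of_nonneg_right ?_ (by positivity)
    refine pow_le_pow_left₀ (by positivity) ?_ cap
    have : ((BS y).card : ℝ) ≤ cap2 := by exact_mod_cast hB1 y
    linarith
  have h2 : ∑ s : S, ind (T.gm (tbR L (E.v s)) w = (E.v s).g ∧ T.ca (tbR L (E.v s)) (T.a w) = (E.v s).al ∧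
      T.cb (tbR L (E.v s)) (T.b w) = (E.v s).be) =
      ∑ y : Bool, ∑ s : S, ind ((T.gm (tbR L (E.v s)) w = (E.v s).g ∧ T.ca (tbR L (E.v s)) (T.a w) = (E.v s).al ∧
      T.cb (tbR L (E.v s)) (T.b w) = (E.v s).be) ∧ (E.v s).y = y) := by
    rw [Finset.sum_comm]
    refine Finset.sum_congr rfl fun s _ => ?_
    rw [Fintype.sum_bool]
    by_cases h : (T.gm (tbR L (E.v s)) w = (E.v s).g ∧ T.ca (tbR L (E.v s)) (T.a w) = (E.v s).al ∧
      T.cb (tbR L (E.v s)) (T.b w) = (E.v s).be)
    · rw [ind_of h]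
      rcases Bool.eq_false_or_eq_true (E.v s).y with hy | hy
      · rw [ind_of ⟨h, hy⟩, ind_not (by rintro ⟨_, h3⟩; rw [hy] at h3; exact Bool.noConfusion h3)]
        ring
      · rw [ind_not (by rintro ⟨_, h3⟩; rw [hy] at h3; exact Bool.noConfusion h3), ind_of ⟨h, hy⟩]
        ring
    · rw [ind_not h, ind_not (fun h3 => h h3.1), ind_not (fun h3 => h h3.1)]
      ring
  rw [h2, Fintype.sum_bool]
  have h3 := h0 true
  have h4 := h0 false
  linarith

theorem abs_prod_sgn {α : Type} (J : Finset α) (f : α → ℝ) (hf : ∀ j, f j = 1 ∨ f j = -1) : |∏ j ∈ J, f j| ≤ 1 := by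
  rw [Finset.abs_prod]
  refine Finset.prod_le_one (fun j _ => abs_nonneg _) fun j _ => ?_
  rcases hf j with h | h <;> rw [h] <;> norm_num

open Classical in
/-- the coefficients: from the current lists -/
def cfR (σ ep : Bool → ℝ) (t : ℕ) (g : Γ) (a : A) (b : B) (s : S) : ℝ :=
  if t = 0 then 0 else if (L (E.v s).y).fl t g a b = (E.v s).l then σ (E.v s).y * psiC (ep (E.v s).y) (E.v s).l.length (E.v s).J else 0

theorem abs_cfR {σ ep : Bool → ℝ} (hσ : ∀ y, |σ y| ≤ 1) (t : ℕ) (g : Γ) (a : A) (b : B) (s : S) :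
    |cfR E σ ep t g a b s| ≤ 1 := by
  unfold cfR
  split_ifs
  · simp
  · rw [abs_mul]
    have h1 := hσ (E.v s).y
    have h2 := abs_psiC (ep (E.v s).y) (E.v s).l.length (E.v s).J
    have h3 := abs_nonneg (σ (E.v s).y)
    have h4 := abs_nonneg (psiC (ep (E.v s).y) (E.v s).l.length (E.v s).J)
    nlinarith
  · simp

theorem cfR_congr {σ ep : Bool → ℝ} {t t' : ℕ} (ht : 1 ≤ t) (ht' : 1 ≤ t') {w w' : Om}
    (h : ∀ y, (L y).cl t w = (L y).cl t' w') :
    cfR E σ ep t (T.gm t w) (T.a w) (T.b w) = cfR E σ ep t' (T.gm t' w') (T.a w') (T.b w') := by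
  funext s
  have h1 := h (E.v s).y
  unfold LSys.cl at h1
  unfold cfR
  rw [if_neg (show ¬ t = 0 by omega), if_neg (show ¬ t' = 0 by omega), h1]

/-- THE INPUT OF SECTION 2 -/
def mkInp (σ ep : Bool → ℝ) (hσ : ∀ y, |σ y| ≤ 1)
    (G1 : ℕ → Γ → B → C → V → ℝ) (G1b : ∀ t g b c d, |G1 t g b c d| ≤ 1)
    (G2 : ℕ → Γ → A → C → V → ℝ) (G2b : ∀ t g a c d, |G2 t g a c d| ≤ 1)
    (p0 : ℝ) (hp0 : 2 * (cap : ℝ) + 1 ≤ p0)
    (mv1 : ∀ w, ∑ t ∈ range T.n, ind (G1 (t + 1) (T.gm (t + 1) w) (T.b w) (T.c w) ≠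
      G1 t (T.gm t w) (T.b w) (T.c w)) ≤ p0)
    (mv2 : ∀ w, ∑ t ∈ range T.n, ind (G2 (t + 1) (T.gm (t + 1) w) (T.a w) (T.c w) ≠
      G2 t (T.gm t w) (T.a w) (T.c w)) ≤ p0) : Inp T S where
  R :=
    { tb := fun s => tbR L (E.v s)
      gb := fun s => (E.v s).g
      al := fun s => (E.v s).al
      be := fun s => (E.v s).be
      mem := fun s a b => memR L (E.v s) a b
      v := fun s a d => ∏ j ∈ (E.v s).J, (L (E.v s).y).sa ((E.v s).l.get j) a d
      u := fun s b d => ∏ j ∈ (E.v s).J, (L (E.v s).y).sb ((E.v s).l.get j) b d }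
  tb1 s := one_le_tbL _ _
  tbn s := (E.re s).1
  mal s a b h := ⟨h.1, h.2.1⟩
  v1 s a d := abs_prod_sgn _ _ fun j => (L (E.v s).y).sa1 _ _ _
  u1 s b d := abs_prod_sgn _ _ fun j => (L (E.v s).y).sb1 _ _ _
  G1 := G1
  G1b := G1b
  G2 := G2
  G2b := G2b
  cf := cfR E σ ep
  cfb t g a b s := abs_cfR E hσ t g a b s
  cfs := by
    intro t t' w w' h
    have h' : ∀ s : S, liv E s t w ↔ liv E s t' w' := by
      intro s
      have := h s
      unfold liv
      rw [and_assoc, and_assoc]
      exact this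
    rcases Nat.eq_zero_or_pos T.n with hn | hn
    · funext s
      have h1 := (E.re s).1
      have h2 := one_le_tbL (L (E.v s).y).tm (E.v s).l
      unfold tbR at h1
      omega
    · have key : ∀ (t t' : ℕ) (w w' : Om), t = 0 → (∀ s : S, liv E s t w ↔ liv E s t' w') → t' = 0 := by
        intro t t' w w' ht hh
        by_contra hne
        have h1 := (hh (rf E hn w' (Nat.one_le_iff_ne_zero.2 hne) false ∅)).2
          (rf_liv E hn w' (Nat.one_le_iff_ne_zero.2 hne) false ∅)
        have h2 := h1.1.1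
        have h3 := one_le_tbL (L (E.v (rf E hn w' (Nat.one_le_iff_ne_zero.2 hne) false ∅)).y).tm
          (E.v (rf E hn w' (Nat.one_le_iff_ne_zero.2 hne) false ∅)).l
        unfold tbR at h2
        omega
      rcases Nat.eq_zero_or_pos t with ht | ht
      · have ht' := key t t' w w' ht h'
        funext s
        unfold cfR
        rw [if_pos ht, if_pos ht']
      · have ht' : 1 ≤ t' := by
          rcases Nat.eq_zero_or_pos t' with h1 | h1
          · have := key t' t w' w h1 (fun s => (h' s).symm)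
            omega
          · exact h1
        exact cfR_congr E ht ht' (cl_of_liv E ht ht' hn h')
  Λ := 2 * ((cap : ℝ) + 1) * 2 ^ cap
  p0 := p0
  Ms := 2 * ((cap2 : ℝ) + 1) ^ cap * 2 ^ cap
  Λ1 := by
    have h1 : (1 : ℝ) ≤ 2 ^ cap := one_le_pow₀ (by norm_num)
    have h2 : (0 : ℝ) ≤ cap := Nat.cast_nonneg _
    nlinarith
  p01 := by
    have h2 : (0 : ℝ) ≤ cap := Nat.cast_nonneg _
    linarith
  Ms1 := by
    have h1 : (1 : ℝ) ≤ 2 ^ cap := one_le_pow₀ (by norm_num)
    have h2 : (1 : ℝ) ≤ ((cap2 : ℝ) + 1) ^ cap := one_le_pow₀ (by linarith [Nat.cast_nonneg (α := ℝ) cap2])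
    nlinarith
  hΛ := by
    intro t _ w
    refine le_trans (le_of_eq ?_) (count_live E t w)
    refine Finset.sum_congr rfl fun s _ => ?_
    unfold liv
    rw [and_assoc]
  hMs := by
    refine FP.E_le_const _ fun w _ => ?_
    exact count_path E w
  mv1 := mv1
  mv2 := mv2
  mv3 := by
    intro w
    have h1 : ∀ t, ind (cfR E σ ep (t + 1) (T.gm (t + 1) w) (T.a w) (T.b w) ≠
        cfR E σ ep t (T.gm t w) (T.a w) (T.b w)) ≤
        ind (t = 0) + ind ((L false).cl (t + 1) w ≠ (L false).cl t w) +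
          ind ((L true).cl (t + 1) w ≠ (L true).cl t w) := by
      intro t
      by_cases h0 : t = 0
      · rw [ind_of h0]
        have h2 := ind_le_one (cfR E σ ep (t + 1) (T.gm (t + 1) w) (T.a w) (T.b w) ≠
          cfR E σ ep t (T.gm t w) (T.a w) (T.b w))
        have h3 := ind_nonneg ((L false).cl (t + 1) w ≠ (L false).cl t w)
        have h4 := ind_nonneg ((L true).cl (t + 1) w ≠ (L true).cl t w)
        linarith
      · rw [ind_not h0]
        by_cases hf : (L false).cl (t + 1) w ≠ (L false).cl t w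
        · rw [ind_of hf]
          have h2 := ind_le_one (cfR E σ ep (t + 1) (T.gm (t + 1) w) (T.a w) (T.b w) ≠
            cfR E σ ep t (T.gm t w) (T.a w) (T.b w))
          have h4 := ind_nonneg ((L true).cl (t + 1) w ≠ (L true).cl t w)
          linarith
        · by_cases htr : (L true).cl (t + 1) w ≠ (L true).cl t w
          · rw [ind_of htr]
            have h2 := ind_le_one (cfR E σ ep (t + 1) (T.gm (t + 1) w) (T.a w) (T.b w) ≠
              cfR E σ ep t (T.gm t w) (T.a w) (T.b w))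
            have h4 := ind_nonneg ((L false).cl (t + 1) w ≠ (L false).cl t w)
            linarith
          · rw [ind_not (p := cfR E σ ep (t + 1) (T.gm (t + 1) w) (T.a w) (T.b w) ≠
              cfR E σ ep t (T.gm t w) (T.a w) (T.b w))]
            · have h3 := ind_nonneg ((L false).cl (t + 1) w ≠ (L false).cl t w)
              have h4 := ind_nonneg ((L true).cl (t + 1) w ≠ (L true).cl t w)
              linarith
            · rw [not_not] at hf htr ⊢
              refine cfR_congr E (by omega) (by omega) fun y => ?_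
              cases y
              · exact hf
              · exact htr
    have h2 : ∑ t ∈ range T.n, ind (t = 0) ≤ 1 := by
      rcases Nat.eq_zero_or_pos T.n with h | h
      · rw [h]; simp
      · rw [Finset.sum_eq_single_of_mem 0 (Finset.mem_range.2 h)]
        · exact ind_le_one _
        · intro t _ ht
          exact ind_not ht
    refine (Finset.sum_le_sum fun t _ => h1 t).trans ?_
    rw [Finset.sum_add_distrib, Finset.sum_add_distrib]
    have h3 := (L false).cl_moves T.n w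
    have h4 := (L true).cl_moves T.n w
    linarith

/-- the Walsh form of a list, by sets of positions -/
theorem psi_map {α : Type} (ep : ℝ) (l : List α) (f : α → ℝ) (hf : ∀ x, f x = 1 ∨ f x = -1) :
    psi ep (l.map f) = ∑ J : Finset (Fin l.length), psiC ep l.length J * ∏ j ∈ J, f (l.get j) := by
  have h1 := psi_eq_walsh ep l.length (fun j => f (l.get j)) (fun j => hf _)
  have h2 : List.ofFn (fun j => f (l.get j)) = l.map f := by
    have h3 : l.map f = (List.ofFn l.get).map f := by rw [List.ofFn_get]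
    rw [h3, List.map_ofFn]
    rfl
  rw [h2] at h1
  exact h1

/-- the contribution of a reference to the structured face -/
def tmR (L : Bool → LSys T β cap cap2) (σ ep : Bool → ℝ) (t : ℕ) (w : Om) (d : V) (r : RefD β Γ κ) : ℝ :=
  ind ((tbR L r ≤ t ∧ T.gm (tbR L r) w = r.g) ∧ memR L r (T.a w) (T.b w)) *
    (open Classical in if t = 0 then 0 else if (L r.y).fl t (T.gm t w) (T.a w) (T.b w) = r.l then
      σ r.y * psiC (ep r.y) r.l.length r.J else 0) *
    (∏ j ∈ r.J, (L r.y).sa (r.l.get j) (T.a w) d) * (∏ j ∈ r.J, (L r.y).sb (r.l.get j) (T.b w) d)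

theorem tmR_rd (L : Bool → LSys T β cap cap2) (σ ep : Bool → ℝ) {t : ℕ} (ht : 1 ≤ t) (w : Om) (d : V) (y : Bool)
    (J : Finset (Fin ((L y).cl t w).length)) :
    tmR L σ ep t w d (rd L w t y J) = σ y * (psiC (ep y) ((L y).cl t w).length J *
        ∏ j ∈ J, ((L y).sa (((L y).cl t w).get j) (T.a w) d * (L y).sb (((L y).cl t w).get j) (T.b w) d)) := by
  unfold tmR
  rw [ind_of, if_neg (show ¬ t = 0 by omega), if_pos (show (L (rd L w t y J).y).fl t (T.gm t w) (T.a w) (T.b w) =
    (rd L w t y J).l from rfl)]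
  · show 1 * (σ y * psiC (ep y) ((L y).cl t w).length J) * (∏ j ∈ J, (L y).sa (((L y).cl t w).get j) (T.a w) d) *
      (∏ j ∈ J, (L y).sb (((L y).cl t w).get j) (T.b w) d) = _
    rw [Finset.prod_mul_distrib]
    ring
  · exact ⟨⟨(L y).tb_le ht w, rfl⟩, rfl, rfl, (L y).cl_tb ht w⟩

/-- only the references of the current lists contribute -/
theorem tmR_ne (L : Bool → LSys T β cap cap2) (σ ep : Bool → ℝ) {t : ℕ} (ht : 1 ≤ t) (w : Om) (d : V)
    (r : RefD β Γ κ) (hr : ∀ y J, rd L w t y J ≠ r) : tmR L σ ep t w d r = 0 := by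
  unfold tmR
  by_cases hl : (tbR L r ≤ t ∧ T.gm (tbR L r) w = r.g) ∧ memR L r (T.a w) (T.b w)
  · have h2 : (L r.y).fl t (T.gm t w) (T.a w) (T.b w) ≠ r.l := by
      intro h3
      obtain ⟨y, g, al, be, l, J⟩ := r
      have h3' : (L y).cl t w = l := h3
      subst h3'
      have e1 : T.gm (tbL (L y).tm ((L y).cl t w)) w = g := hl.1.2
      have e2 : T.ca (tbL (L y).tm ((L y).cl t w)) (T.a w) = al := hl.2.1
      have e3 : T.cb (tbL (L y).tm ((L y).cl t w)) (T.b w) = be := hl.2.2.1
      subst e1 e2 e3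
      exact hr y J rfl
    rw [if_neg (show ¬ t = 0 by omega), if_neg h2]
    ring
  · rw [ind_not hl]
    ring

/-- THE STRUCTURED FACE of the instance -/
theorem G3_eq (σ ep : Bool → ℝ) (hn : 1 ≤ T.n) {t : ℕ} (ht : 1 ≤ t) (w : Om) (d : V) :
    ∑ s : S, tmR L σ ep t w d (E.v s) =
    ∑ y : Bool, σ y * psi (ep y) (((L y).cl t w).map fun x => (L y).sa x (T.a w) d * (L y).sb x (T.b w) d) := by
  have h1 : ∀ y : Bool, σ y * psi (ep y) (((L y).cl t w).map fun x => (L y).sa x (T.a w) d * (L y).sb x (T.b w) d) =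
      ∑ J : Finset (Fin ((L y).cl t w).length), σ y * (psiC (ep y) ((L y).cl t w).length J *
        ∏ j ∈ J, ((L y).sa (((L y).cl t w).get j) (T.a w) d * (L y).sb (((L y).cl t w).get j) (T.b w) d)) := by
    intro y
    rw [psi_map, Finset.mul_sum]
    intro x
    rcases (L y).sa1 x (T.a w) d with h | h <;> rcases (L y).sb1 x (T.b w) d with h' | h' <;> rw [h, h'] <;> simp
  rw [Finset.sum_congr rfl fun y _ => h1 y]
  rw [← Fintype.sum_sigma' (fun (y : Bool) (J : Finset (Fin ((L y).cl t w).length)) =>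
    σ y * (psiC (ep y) ((L y).cl t w).length J *
        ∏ j ∈ J, ((L y).sa (((L y).cl t w).get j) (T.a w) d * (L y).sb (((L y).cl t w).get j) (T.b w) d)))]
  symm
  refine Fintype.sum_of_injective (fun q : Σ y : Bool, Finset (Fin ((L y).cl t w).length) =>
    rf E hn w ht q.1 q.2) ?_ _ _ ?_ ?_
  · rintro ⟨y, J⟩ ⟨y', J'⟩ h
    have h2 := congrArg E.v h
    simp only [rf_v, rd, RefD.mk.injEq] at h2
    obtain ⟨h3, _, _, _, _, h8⟩ := h2
    subst h3
    rw [eq_of_heq h8]
  · intro s hs
    refine tmR_ne L σ ep ht w d (E.v s) fun y J h => hs ⟨⟨y, J⟩, E.inj ?_⟩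
    rw [rf_v, h]
  · rintro ⟨y, J⟩
    rw [rf_v, tmR_rd L σ ep ht w d y J]

section out

variable {σ ep : Bool → ℝ} {hσ : ∀ y, |σ y| ≤ 1}
    {G1 : ℕ → Γ → B → C → V → ℝ} {G1b : ∀ t g b c d, |G1 t g b c d| ≤ 1}
    {G2 : ℕ → Γ → A → C → V → ℝ} {G2b : ∀ t g a c d, |G2 t g a c d| ≤ 1}
    {p0 : ℝ} {hp0 : 2 * (cap : ℝ) + 1 ≤ p0}
    {mv1 : ∀ w, ∑ t ∈ range T.n, ind (G1 (t + 1) (T.gm (t + 1) w) (T.b w) (T.c w) ≠
      G1 t (T.gm t w) (T.b w) (T.c w)) ≤ p0}
    {mv2 : ∀ w, ∑ t ∈ range T.n, ind (G2 (t + 1) (T.gm (t + 1) w) (T.a w) (T.c w) ≠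
      G2 t (T.gm t w) (T.a w) (T.c w)) ≤ p0}

theorem mkInp_G3 (hn : 1 ≤ T.n) {t : ℕ} (ht : 1 ≤ t) (w : Om) (d : V) :
    (mkInp E σ ep hσ G1 G1b G2 G2b p0 hp0 mv1 mv2).G3 t w d =
      ∑ y : Bool, σ y * psi (ep y) (((L y).cl t w).map fun x => (L y).sa x (T.a w) d * (L y).sb x (T.b w) d) := by
  rw [← G3_eq E σ ep hn ht w d]
  rfl

/-- at the time zero nothing is live -/
theorem mkInp_G3_zero (w : Om) (d : V) :
    (mkInp E σ ep hσ G1 G1b G2 G2b p0 hp0 mv1 mv2).G3 0 w d = 0 := by
  unfold Inp.G3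
  refine Finset.sum_eq_zero fun s _ => ?_
  have h1 : ¬ (mkInp E σ ep hσ G1 G1b G2 G2b p0 hp0 mv1 mv2).live s 0 w := by
    intro h
    have h2 : tbR L (E.v s) ≤ 0 := h.1.1
    have h3 := one_le_tbL (L (E.v s).y).tm (E.v s).l
    unfold tbR at h2
    omega
  rw [ind_not h1]
  ring

end out

end inst

end

end Pool.Agent.M3.S2
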