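import Pool.Agent.M3.S1Births
import Pool.Agent.M3.S1Lay

/-!
# M3/S2/InpB (helper27): the frozen lists of births of a face of the model

Time `t` = exponent `N - t`, rounding `h`.  `cumZ` = number of public births on the path of a node, in the cells of the
pair; `okZ` : length `<= cap` and `cumZ <= cap2`; `FLZ` = the list at the last time at which `okZ` holds; `BSZ` = the set
of the public births on the path.  `gt h N t z w` = the node of the path `(z,w)` at the time `t`.

* `FLZ_suf` (cumulative), `FLZ_len`, `FLZ_time`, `FLZ_new` (a change brings a birth of that time), `FLZ_pub` (all the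
  births are in a set of at most `cap2` elements, for all the pairs in the same cells), `FLZ_eq` (nothing is frozen as
  long as `okZ` holds), `okZ_anti`.
-/

set_option autoImplicit false
set_option linter.unusedSectionVars false

namespace Pool.Agent.M3

open Finset Pool.Agent.PWZ

theorem nbs_time {P V T : Type*} [Fintype V] [Nonempty T] {ep thr : ℝ} {val : T → P → V → ℝ} {F : P → V → ℝ}
    {Q : FP V} {C : Finset P} (t : ℕ) (L : P → List (Birth T)) (K : ℕ) {b : Birth T}
    (hb : b ∈ nbs ep thr val F Q C t L K) : b.t = t := by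
  classical
  unfold nbs at hb
  obtain ⟨j, _, rfl⟩ := Finset.mem_image.1 hb
  rfl

end Pool.Agent.M3

namespace Pool.Agent.M3.Mod

open Finset Pool.Agent.PWZ Pool.Agent.M3.Bin

noncomputable section

variable {k N : ℕ} {P : Type} [Fintype P] [Nonempty P] {h : ℕ} {ep th : ℝ} {F : P × V k → P × V k → V k → ℝ}

theorem Bf_time {e : ℕ} {g : V k × ℕ} {b c : P × V k} {s : Birth (TI k P → Bool)}
    (hs : s ∈ Bf h N ep th F e g b c) : s.t = N - e := nbs_time _ _ _ hs

theorem Lf_time {e : ℕ} {g : V k × ℕ} {b c : P × V k} {s : Birth (TI k P → Bool)}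
    (hs : s ∈ Lf h N ep th F e g b c) : s.t ≤ N - e :=
  (lst_nodup (faceNodes (pairC k P) k h N) (pairTests (P × V k) (P × V k) (V k)) (N - e) g (b, c)).2 s hs

/-- the number of public births at the node of a pair depends on the small cells only -/
theorem Pf_congr {e : ℕ} (he : e ≤ N) (g : V k × ℕ) {b c b' c' : P × V k}
    (hb : flr (e - (h + 3)) b.2 = flr (e - (h + 3)) b'.2) (hc : flr (e - (h + 3)) c.2 = flr (e - (h + 3)) c'.2) :
    Pf h N ep th F e g b c = Pf h N ep th F e g b' c' := by
  have h1 : (faceNodes (pairC k P) k h N).cell (N - e) (b, c) =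
      (faceNodes (pairC k P) k h N).cell (N - e) (b', c') := by
    have h2 : N - (N - e) = e := by omega
    show cel (P := P) (N - (N - e) - (h + 3)) b.2 ×ˢ cel (P := P) (N - (N - e) - (h + 3)) c.2 =
      cel (P := P) (N - (N - e) - (h + 3)) b'.2 ×ˢ cel (P := P) (N - (N - e) - (h + 3)) c'.2
    rw [h2]
    unfold cel
    rw [hb, hc]
  unfold Pf PB pubs
  rw [h1]

/-- a new element of a list is born at the node -/
theorem Lf_new {e : ℕ} (he : e < N) {g : V k × ℕ} {b c : P × V k}
    (hne : Lf h N ep th F e g b c ≠ Lf h N ep th F (e + 1) (par h e g) b c) :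
    ∃ s ∈ Lf h N ep th F e g b c, s.t = N - e := by
  obtain ⟨m, hm⟩ := Lf_mono (h := h) (ep := ep) (th := th) (F := F) he g b c
  cases m with
  | nil =>
    exfalso
    rw [List.nil_append] at hm
    exact hne hm.symm
  | cons s m =>
    have h1 : s ∈ Lf h N ep th F e g b c := by
      rw [← hm]
      exact List.mem_append_left _ List.mem_cons_self
    refine ⟨s, h1, ?_⟩
    rcases mem_Lf he h1 with h2 | h2
    · exfalso
      have h3 := Lf_nodup (h := h) (N := N) (ep := ep) (th := th) (F := F) e g b c
      rw [← hm, List.cons_append, List.nodup_cons] at h3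
      exact h3.1 (List.mem_append_right _ h2)
    · exact Bf_time h2

/-! ### the frozen lists -/

/-- number of public births on the path of a node -/
def cumZ (h N : ℕ) (ep th : ℝ) (F : P × V k → P × V k → V k → ℝ) : ℕ → V k × ℕ → P × V k → P × V k → ℕ
  | 0, g, b, c => Pf h N ep th F N g b c
  | t + 1, g, b, c => if t < N then Pf h N ep th F (N - (t + 1)) g b c + cumZ h N ep th F t (par h (N - (t + 1)) g) b c
      else cumZ h N ep th F t g b c

/-- the list is short and there are few public births -/
def okZ (h N : ℕ) (ep th : ℝ) (F : P × V k → P × V k → V k → ℝ) (cap cap2 : ℕ) (t : ℕ) (g : V k × ℕ) (b c : P × V k) : Prop :=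
  (Lf h N ep th F (N - t) g b c).length ≤ cap ∧ cumZ h N ep th F t g b c ≤ cap2

open Classical in
/-- the frozen lists -/
def FLZ (h N : ℕ) (ep th : ℝ) (F : P × V k → P × V k → V k → ℝ) (cap cap2 : ℕ) : ℕ → V k × ℕ → P × V k → P × V k → List (Birth (TI k P → Bool))
  | 0, g, b, c => if okZ h N ep th F cap cap2 0 g b c then Lf h N ep th F N g b c else []
  | t + 1, g, b, c => if t < N then (if okZ h N ep th F cap cap2 (t + 1) g b c then
      Lf h N ep th F (N - (t + 1)) g b c else FLZ h N ep th F cap cap2 t (par h (N - (t + 1)) g) b c)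
      else FLZ h N ep th F cap cap2 t g b c

open Classical in
/-- the public births on the path of a node -/
def BSZ (h N : ℕ) (ep th : ℝ) (F : P × V k → P × V k → V k → ℝ) : ℕ → V k × ℕ → P × V k → P × V k → Finset (Birth (TI k P → Bool))
  | 0, g, b, c => Bf h N ep th F N g b c
  | t + 1, g, b, c => if t < N then Bf h N ep th F (N - (t + 1)) g b c ∪ BSZ h N ep th F t (par h (N - (t + 1)) g) b c
      else BSZ h N ep th F t g b c

theorem card_BSZ (t : ℕ) : ∀ (g : V k × ℕ) (b c : P × V k),
    (BSZ h N ep th F t g b c).card ≤ cumZ h N ep th F t g b c := by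
  classical
  induction t with
  | zero => exact fun g b c => card_Bf N g b c
  | succ t ih =>
    intro g b c
    unfold BSZ cumZ
    by_cases ht : t < N
    · rw [if_pos ht, if_pos ht]
      exact (Finset.card_union_le _ _).trans (add_le_add (card_Bf _ _ _ _) (ih _ _ _))
    · rw [if_neg ht, if_neg ht]
      exact ih _ _ _

theorem FLZ_len (cap cap2 : ℕ) (t : ℕ) : ∀ (g : V k × ℕ) (b c : P × V k),
    (FLZ h N ep th F cap cap2 t g b c).length ≤ cap := by
  classical
  induction t with
  | zero =>
    intro g b c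
    unfold FLZ
    split_ifs with h1
    · have := h1.1
      rwa [Nat.sub_zero] at this
    · simp
  | succ t ih =>
    intro g b c
    unfold FLZ
    split_ifs with h1 h2
    · exact h2.1
    · exact ih _ _ _
    · exact ih _ _ _

/-- cells of a pair at the time `t` -/
def sameC (h N t : ℕ) (b c b' c' : P × V k) : Prop :=
  flr (N - t - (h + 3)) b.2 = flr (N - t - (h + 3)) b'.2 ∧ flr (N - t - (h + 3)) c.2 = flr (N - t - (h + 3)) c'.2

theorem sameC.mono {h N t u : ℕ} (hu : u ≤ t) {b c b' c' : P × V k} (hs : sameC h N t b c b' c') :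
    sameC h N u b c b' c' :=
  ⟨flr_mono_eq (by omega) hs.1, flr_mono_eq (by omega) hs.2⟩

theorem cumZ_congr (t : ℕ) : ∀ (g : V k × ℕ) {b c b' c' : P × V k}, sameC h N t b c b' c' →
    cumZ h N ep th F t g b c = cumZ h N ep th F t g b' c' := by
  induction t with
  | zero =>
    intro g b c b' c' hs
    unfold cumZ
    have h1 := hs.1
    have h2 := hs.2
    rw [Nat.sub_zero] at h1 h2
    exact Pf_congr le_rfl g h1 h2
  | succ t ih =>
    intro g b c b' c' hs
    unfold cumZ
    split_ifs with h1
    · rw [Pf_congr (Nat.sub_le _ _) g hs.1 hs.2, ih _ (hs.mono (Nat.le_succ t))]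
    · exact ih _ (hs.mono (Nat.le_succ t))

theorem BSZ_congr (t : ℕ) : ∀ (g : V k × ℕ) {b c b' c' : P × V k}, sameC h N t b c b' c' →
    BSZ h N ep th F t g b c = BSZ h N ep th F t g b' c' := by
  classical
  induction t with
  | zero =>
    intro g b c b' c' hs
    unfold BSZ
    have h1 := hs.1
    have h2 := hs.2
    rw [Nat.sub_zero] at h1 h2
    exact Bf_congr le_rfl g h1 h2
  | succ t ih =>
    intro g b c b' c' hs
    unfold BSZ
    split_ifs with h1
    · rw [Bf_congr (Nat.sub_le _ _) g hs.1 hs.2, ih _ (hs.mono (Nat.le_succ t))]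
    · exact ih _ (hs.mono (Nat.le_succ t))

/-! ### along a path -/

/-- the node of the path `(z,w)` at the time `t` -/
def gt (h N t : ℕ) (z : V k) (w : ℕ) : V k × ℕ := G h (N - t) z w

theorem par_gt {t : ℕ} (ht : t < N) (z : V k) (w : ℕ) : par h (N - (t + 1)) (gt h N (t + 1) z w) = gt h N t z w := by
  unfold gt
  rw [par_G]
  congr 1
  omega

theorem gt_top {t : ℕ} (ht : ¬ t < N) (z : V k) (w : ℕ) : gt h N (t + 1) z w = gt h N t z w := by
  unfold gt
  congr 1
  omega

variable (z : V k) (w : ℕ) (b c : P × V k)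

theorem cumZ_mono (t : ℕ) :
    cumZ h N ep th F t (gt h N t z w) b c ≤ cumZ h N ep th F (t + 1) (gt h N (t + 1) z w) b c := by
  conv_rhs => unfold cumZ
  split_ifs with ht
  · rw [par_gt ht]
    exact Nat.le_add_left _ _
  · rw [gt_top ht]

theorem cumZ_le {u t : ℕ} (hu : u ≤ t) :
    cumZ h N ep th F u (gt h N u z w) b c ≤ cumZ h N ep th F t (gt h N t z w) b c := by
  induction t, hu using Nat.le_induction with
  | base => exact le_rfl
  | succ t _ ih => exact ih.trans (cumZ_mono z w b c t)

theorem Lf_suf (t : ℕ) :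
    Lf h N ep th F (N - t) (gt h N t z w) b c <:+ Lf h N ep th F (N - (t + 1)) (gt h N (t + 1) z w) b c := by
  by_cases ht : t < N
  · have h1 := Lf_mono (h := h) (ep := ep) (th := th) (F := F) (N := N) (e := N - (t + 1)) (by omega)
      (gt h N (t + 1) z w) b c
    rw [par_gt ht] at h1
    have h2 : N - (t + 1) + 1 = N - t := by omega
    rw [h2] at h1
    exact h1
  · rw [gt_top ht, show N - (t + 1) = N - t by omega]

theorem okZ_anti {cap cap2 t : ℕ} (hok : okZ h N ep th F cap cap2 (t + 1) (gt h N (t + 1) z w) b c) :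
    okZ h N ep th F cap cap2 t (gt h N t z w) b c :=
  ⟨(Lf_suf z w b c t).length_le.trans hok.1, (cumZ_mono z w b c t).trans hok.2⟩

theorem okZ_le {cap cap2 u t : ℕ} (hu : u ≤ t) (hok : okZ h N ep th F cap cap2 t (gt h N t z w) b c) :
    okZ h N ep th F cap cap2 u (gt h N u z w) b c := by
  induction t, hu using Nat.le_induction with
  | base => exact hok
  | succ t _ ih => exact ih (okZ_anti z w b c hok)

/-- nothing is frozen as long as `okZ` holds -/
theorem FLZ_eq {cap cap2 t : ℕ} (hok : okZ h N ep th F cap cap2 t (gt h N t z w) b c) :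
    FLZ h N ep th F cap cap2 t (gt h N t z w) b c = Lf h N ep th F (N - t) (gt h N t z w) b c := by
  classical
  induction t with
  | zero =>
    unfold FLZ
    rw [if_pos hok, Nat.sub_zero]
  | succ t ih =>
    unfold FLZ
    by_cases ht : t < N
    · rw [if_pos ht, if_pos hok]
    · rw [if_neg ht]
      have h1 := ih (okZ_anti z w b c hok)
      rw [gt_top ht, h1, show N - (t + 1) = N - t by omega]

/-- the step of the frozen lists -/
theorem FLZ_step (cap cap2 t : ℕ) :
    (t < N ∧ okZ h N ep th F cap cap2 (t + 1) (gt h N (t + 1) z w) b c ∧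
      FLZ h N ep th F cap cap2 (t + 1) (gt h N (t + 1) z w) b c =
        Lf h N ep th F (N - (t + 1)) (gt h N (t + 1) z w) b c ∧
      FLZ h N ep th F cap cap2 t (gt h N t z w) b c = Lf h N ep th F (N - t) (gt h N t z w) b c) ∨
    FLZ h N ep th F cap cap2 (t + 1) (gt h N (t + 1) z w) b c = FLZ h N ep th F cap cap2 t (gt h N t z w) b c := by
  classical
  by_cases ht : t < N
  · by_cases hok : okZ h N ep th F cap cap2 (t + 1) (gt h N (t + 1) z w) b c
    · exact Or.inl ⟨ht, hok, FLZ_eq z w b c hok, FLZ_eq z w b c (okZ_anti z w b c hok)⟩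
    · right
      conv_lhs => unfold FLZ
      rw [if_pos ht, if_neg hok, par_gt ht]
  · right
    conv_lhs => unfold FLZ
    rw [if_neg ht, gt_top ht]

theorem FLZ_suf (cap cap2 t : ℕ) :
    FLZ h N ep th F cap cap2 t (gt h N t z w) b c <:+
      FLZ h N ep th F cap cap2 (t + 1) (gt h N (t + 1) z w) b c := by
  rcases FLZ_step (h := h) (N := N) (ep := ep) (th := th) (F := F) z w b c cap cap2 t with ⟨_, _, h1, h2⟩ | h1
  · rw [h1, h2]
    exact Lf_suf z w b c t
  · rw [h1]

theorem FLZ_new {cap cap2 t : ℕ} (hne : FLZ h N ep th F cap cap2 (t + 1) (gt h N (t + 1) z w) b c ≠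
    FLZ h N ep th F cap cap2 t (gt h N t z w) b c) :
    ∃ s ∈ FLZ h N ep th F cap cap2 (t + 1) (gt h N (t + 1) z w) b c, s.t = t + 1 := by
  rcases FLZ_step (h := h) (N := N) (ep := ep) (th := th) (F := F) z w b c cap cap2 t with ⟨ht, _, h1, h2⟩ | h1
  · rw [h1, h2] at hne
    have e1 : N - (t + 1) + 1 = N - t := by omega
    obtain ⟨s, h3, h4⟩ := Lf_new (h := h) (N := N) (ep := ep) (th := th) (F := F) (e := N - (t + 1)) (by omega)
      (g := gt h N (t + 1) z w) (b := b) (c := c) (by
        rw [par_gt ht, e1]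
        exact hne)
    rw [h1]
    exact ⟨s, h3, by omega⟩
  · exact absurd h1 hne

theorem FLZ_time (cap cap2 t : ℕ) : ∀ s ∈ FLZ h N ep th F cap cap2 t (gt h N t z w) b c, s.t ≤ t ∧ s.t ≤ N := by
  classical
  induction t with
  | zero =>
    intro s hs
    unfold FLZ at hs
    split_ifs at hs
    · have h1 := Lf_time hs
      omega
    · exact absurd hs List.not_mem_nil
  | succ t ih =>
    intro s hs
    rcases FLZ_step (h := h) (N := N) (ep := ep) (th := th) (F := F) z w b c cap cap2 t with ⟨ht, _, h1, _⟩ | h1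
    · rw [h1] at hs
      have h3 := Lf_time hs
      omega
    · rw [h1] at hs
      have h3 := ih s hs
      omega

/-- the births of a list are public births of the path -/
theorem Lf_sub_BSZ {t : ℕ} (htN : t ≤ N) : ∀ s ∈ Lf h N ep th F (N - t) (gt h N t z w) b c,
    s ∈ BSZ h N ep th F t (gt h N t z w) b c := by
  classical
  induction t with
  | zero =>
    intro s hs
    unfold BSZ
    rw [Nat.sub_zero] at hs
    exact mem_Lf_top hs
  | succ t ih =>
    intro s hs
    have ht : t < N := by omega
    unfold BSZ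
    rw [if_pos ht, par_gt ht, Finset.mem_union]
    rcases mem_Lf (by omega : N - (t + 1) < N) hs with h1 | h1
    · rw [par_gt ht, show N - (t + 1) + 1 = N - t by omega] at h1
      exact Or.inr (ih (by omega) s h1)
    · exact Or.inl h1

theorem BSZ_mono (t : ℕ) :
    BSZ h N ep th F t (gt h N t z w) b c ⊆ BSZ h N ep th F (t + 1) (gt h N (t + 1) z w) b c := by
  classical
  conv_rhs => unfold BSZ
  split_ifs with ht
  · rw [par_gt ht]
    exact Finset.subset_union_right
  · rw [gt_top ht]

theorem BSZ_le {u t : ℕ} (hu : u ≤ t) :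
    BSZ h N ep th F u (gt h N u z w) b c ⊆ BSZ h N ep th F t (gt h N t z w) b c := by
  induction t, hu using Nat.le_induction with
  | base => exact Finset.Subset.refl _
  | succ t _ ih => exact ih.trans (BSZ_mono z w b c t)

/-- the births of a frozen list are public births of a time with few public births -/
theorem FLZ_sub (cap cap2 t : ℕ) : ∀ s ∈ FLZ h N ep th F cap cap2 t (gt h N t z w) b c,
    ∃ u ≤ t, u ≤ N ∧ cumZ h N ep th F u (gt h N u z w) b c ≤ cap2 ∧ s ∈ BSZ h N ep th F u (gt h N u z w) b c := by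
  classical
  induction t with
  | zero =>
    intro s hs
    unfold FLZ at hs
    split_ifs at hs with hok
    · refine ⟨0, le_rfl, Nat.zero_le _, hok.2, ?_⟩
      refine Lf_sub_BSZ z w b c (Nat.zero_le _) s ?_
      rwa [Nat.sub_zero]
    · exact absurd hs List.not_mem_nil
  | succ t ih =>
    intro s hs
    rcases FLZ_step (h := h) (N := N) (ep := ep) (th := th) (F := F) z w b c cap cap2 t with ⟨ht, hok, h1, _⟩ | h1
    · rw [h1] at hs
      exact ⟨t + 1, le_rfl, ht, hok.2, Lf_sub_BSZ z w b c ht s hs⟩
    · rw [h1] at hs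
      obtain ⟨u, h2, h3⟩ := ih s hs
      exact ⟨u, h2.trans (Nat.le_succ t), h3⟩

/-- ONE SET of at most `cap2` births contains the births of all the frozen lists of the pairs in the same cells -/
theorem FLZ_pub (cap cap2 : ℕ) : ∃ BS : Finset (Birth (TI k P → Bool)), BS.card ≤ cap2 ∧
    ∀ (t : ℕ) (z' : V k) (w' : ℕ) (b' c' : P × V k), (∀ u ≤ t, gt h N u z' w' = gt h N u z w) →
      sameC h N t b' c' b c → ∀ s ∈ FLZ h N ep th F cap cap2 t (gt h N t z' w') b' c', s ∈ BS := by
  classical
  by_cases h0 : cumZ h N ep th F 0 (gt h N 0 z w) b c ≤ cap2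
  · set us := Nat.findGreatest (fun u => cumZ h N ep th F u (gt h N u z w) b c ≤ cap2) N with hus
    have h1 : cumZ h N ep th F us (gt h N us z w) b c ≤ cap2 :=
      Nat.findGreatest_spec (P := fun u => cumZ h N ep th F u (gt h N u z w) b c ≤ cap2) (Nat.zero_le N) h0
    refine ⟨BSZ h N ep th F us (gt h N us z w) b c, (card_BSZ _ _ _ _).trans h1, ?_⟩
    intro t z' w' b' c' hg hs s hsm
    obtain ⟨u, hu, huN, hc, hm⟩ := FLZ_sub z' w' b' c' cap cap2 t s hsm
    rw [hg u hu, cumZ_congr u _ (hs.mono hu)] at hc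
    rw [hg u hu, BSZ_congr u _ (hs.mono hu)] at hm
    exact BSZ_le z w b c (Nat.le_findGreatest huN hc) hm
  · refine ⟨∅, by simp, ?_⟩
    intro t z' w' b' c' hg hs s hsm
    exfalso
    obtain ⟨u, hu, _, hc, _⟩ := FLZ_sub z' w' b' c' cap cap2 t s hsm
    rw [hg u hu, cumZ_congr u _ (hs.mono hu)] at hc
    exact h0 ((cumZ_le z w b c (Nat.zero_le u)).trans hc)

/-- number of the changes of the frozen list -/
theorem FLZ_moves (cap cap2 : ℕ) (m : ℕ) : ∑ t ∈ range m,
    ind (FLZ h N ep th F cap cap2 (t + 1) (gt h N (t + 1) z w) b c ≠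
      FLZ h N ep th F cap cap2 t (gt h N t z w) b c) ≤ (cap : ℝ) := by
  have h1 : ∑ t ∈ range m, ind (FLZ h N ep th F cap cap2 (t + 1) (gt h N (t + 1) z w) b c ≠
      FLZ h N ep th F cap cap2 t (gt h N t z w) b c) ≤
      ((FLZ h N ep th F cap cap2 m (gt h N m z w) b c).length : ℝ) := by
    induction m with
    | zero => simp
    | succ m ih =>
      rw [Finset.sum_range_succ]
      have hsuf := FLZ_suf (h := h) (N := N) (ep := ep) (th := th) (F := F) z w b c cap cap2 m
      by_cases hne : FLZ h N ep th F cap cap2 (m + 1) (gt h N (m + 1) z w) b c ≠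
          FLZ h N ep th F cap cap2 m (gt h N m z w) b c
      · rw [ind_of hne]
        have h2 : (FLZ h N ep th F cap cap2 m (gt h N m z w) b c).length <
            (FLZ h N ep th F cap cap2 (m + 1) (gt h N (m + 1) z w) b c).length := by
          rcases Nat.lt_or_ge (FLZ h N ep th F cap cap2 m (gt h N m z w) b c).length
            (FLZ h N ep th F cap cap2 (m + 1) (gt h N (m + 1) z w) b c).length with h3 | h3
          · exact h3
          · exact absurd (hsuf.eq_of_length (le_antisymm hsuf.length_le h3)).symm hne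
        have h3 : ((FLZ h N ep th F cap cap2 m (gt h N m z w) b c).length : ℝ) + 1 ≤
            (FLZ h N ep th F cap cap2 (m + 1) (gt h N (m + 1) z w) b c).length := by exact_mod_cast h2
        linarith
      · rw [ind_not hne, add_zero]
        have h2 : ((FLZ h N ep th F cap cap2 m (gt h N m z w) b c).length : ℝ) ≤
            (FLZ h N ep th F cap cap2 (m + 1) (gt h N (m + 1) z w) b c).length := by
          exact_mod_cast hsuf.length_le
        linarith
  exact h1.trans (by exact_mod_cast FLZ_len cap cap2 m _ _ _)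

/-- the total number of public births of the path -/
theorem cumZ_sum (t : ℕ) (ht : t ≤ N) : (cumZ h N ep th F t (gt h N t z w) b c : ℝ) =
    ∑ u ∈ range (t + 1), (Pf h N ep th F (N - u) (gt h N u z w) b c : ℝ) := by
  induction t with
  | zero =>
    rw [zero_add, Finset.sum_range_one, Nat.sub_zero]
    rfl
  | succ t ih =>
    rw [Finset.sum_range_succ, ← ih (by omega)]
    have h1 : cumZ h N ep th F (t + 1) (gt h N (t + 1) z w) b c =
        Pf h N ep th F (N - (t + 1)) (gt h N (t + 1) z w) b c + cumZ h N ep th F t (gt h N t z w) b c := by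
      conv_lhs => unfold cumZ
      rw [if_pos (show t < N by omega), par_gt (by omega)]
    rw [h1]
    push_cast
    ring

end

end Pool.Agent.M3.Mod
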