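import Pool.Agent.M3.S2.InpA
import Pool.Agent.M3.S2.InpB
import Pool.Agent.M3.S2.Geo
import Pool.Agent.M3.NV

/-!
# M3/S2/InpC (helper27): THE INPUT OF SECTION 2 FOR THE PIECES OF A LAYER

Hidden vertex `i`, known vertices `j`, `l`; structured face `(i,j)` = face number `l` (difference of the layers `n`,
`n+1`), face `(i,l)` = face number `j` (residual of the layer `n` or `n+1`), face `(j,l)` = face number `i` (arbitrary,
bounded by 2).  `inp_exists` : the instance over `tri Unit Ξ Unit`, the type `S` of the references does not depend on `Ξ`;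
`BadL` : some list is too long or there are too many public births; `Pr_BadL`.
-/

set_option autoImplicit false
set_option linter.unusedSectionVars false

namespace Pool.Agent.M3.Mod

open Finset Pool.Agent.PWZ Pool.Agent.M3.Bin

noncomputable section

variable {k N : ℕ}

/-- the two vertices of the face `f` in the order `f+1, f+2`; `x` belongs to the vertex `p` -/
def sw {α : Type} (f p : Fin 3) (x y : α) : α × α := if f + 1 = p then (x, y) else (y, x)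

theorem sw_eq {α : Type} {p q f : Fin 3} (hpf : p ≠ f) (hqf : q ≠ f) (hqp : q ≠ p) (v : Fin 3 → α) :
    sw f p (v p) (v q) = (v (f + 1), v (f + 2)) := by
  have h1 : (f + 1 = p ∧ f + 2 = q) ∨ (f + 1 = q ∧ f + 2 = p ∧ f + 1 ≠ p) := by
    revert p q f; decide
  unfold sw
  rcases h1 with ⟨h1, h2⟩ | ⟨h1, h2, h3⟩
  · rw [if_pos h1, h1, h2]
  · rw [if_neg h3, h1, h2]

theorem sw_cell {α β : Type} (f p : Fin 3) (φ : α → β) {x y x' y' : α} (hx : φ x = φ x') (hy : φ y = φ y') :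
    φ (sw f p x y).1 = φ (sw f p x' y').1 ∧ φ (sw f p x y).2 = φ (sw f p x' y').2 := by
  unfold sw
  split_ifs
  · exact ⟨hx, hy⟩
  · exact ⟨hy, hx⟩

/-! ### the frozen structured function -/

section SZ

variable {P : Type} [Fintype P] [Nonempty P]

/-- the frozen structured function -/
def SZ (h N : ℕ) (ep th : ℝ) (F : P × V k → P × V k → V k → ℝ) (cap cap2 t : ℕ) (g : V k × ℕ) (b c : P × V k)
    (d : V k) : ℝ :=
  psi ep ((FLZ h N ep th F cap cap2 t g b c).map (fun s => sgn s.τ ⟨false, b, d⟩ * sgn s.τ ⟨true, c, d⟩))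

variable {h : ℕ} {ep th : ℝ} {F : P × V k → P × V k → V k → ℝ} {cap cap2 : ℕ}

theorem abs_SZ (t : ℕ) (g : V k × ℕ) (b c : P × V k) (d : V k) : |SZ h N ep th F cap cap2 t g b c d| ≤ 1 :=
  abs_psi _ _

theorem SZ_eq {t : ℕ} {z : V k} {w : ℕ} {b c : P × V k} (hok : okZ h N ep th F cap cap2 t (gt h N t z w) b c)
    (d : V k) : SZ h N ep th F cap cap2 t (gt h N t z w) b c d = Sf h N ep th F (N - t) (gt h N t z w) b c d := by
  have h2 : (fun s : Birth (TI k P → Bool) => (pairTests (P × V k) (P × V k) (V k)).val s.τ (b, c) d) =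
      (fun s => sgn s.τ ⟨false, b, d⟩ * sgn s.τ ⟨true, c, d⟩) := by
    funext s
    exact pairTests_val s.τ b c d
  have h3 : Sf h N ep th F (N - t) (gt h N t z w) b c d =
      psi ep ((Lf h N ep th F (N - t) (gt h N t z w) b c).map
        (fun s : Birth (TI k P → Bool) => (pairTests (P × V k) (P × V k) (V k)).val s.τ (b, c) d)) := rfl
  rw [h3, h2, ← FLZ_eq z w b c hok]
  rfl

end SZ

/-! ### the list systems -/

theorem coar_gq {Θ Ξ Q : Type} [Fintype Θ] [Nonempty Θ] [Fintype Ξ] [Nonempty Ξ] [Fintype Q] [Nonempty Q]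
    {h0 h : ℕ} (hh : h0 ≤ h) (t : ℕ) (ω : Sp k N 3 Θ (Ξ × Q)) :
    coar h0 (ex N t) (gq h (ex N t) ω).2 = gt h0 N t (ctr ω) (nz ω) := coar_G hh (ex N t) (ctr ω) (nz ω)

section sys

variable (Ξ : Type) [Fintype Ξ] [Nonempty Ξ] {i j l : Fin 3} (hij : j ≠ i) (hli : l ≠ i) (hlj : l ≠ j) (hN : N ≤ k)
  (h : ℕ)

theorem sgn_if {β : Type} (p : Prop) [Decidable p] (a b : β) (τ : β → Bool) :
    (if p then sgn τ a else sgn τ b) = 1 ∨ (if p then sgn τ a else sgn τ b) = -1 := by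
  split_ifs <;> exact sgn_or _ _

/-- the lists of the structured face as a list system -/
def lsZ {h0 : ℕ} (hh : h0 ≤ h) (ep th : ℝ) (F : Unit × V k → Unit × V k → V k → ℝ) (cap cap2 : ℕ) :
    S2.LSys (tri Unit Ξ Unit hij hli hlj hN h) (Birth (TI k Unit → Bool)) cap cap2 where
  fl t g a b := FLZ h0 N ep th F cap cap2 t (coar h0 (ex N t) g.2) (sw l i a b).1 (sw l i a b).2
  tm s := s.t
  sa s a d := if l + 1 = i then sgn s.τ ⟨false, a, d⟩ else sgn s.τ ⟨true, a, d⟩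
  sb s b d := if l + 1 = i then sgn s.τ ⟨true, b, d⟩ else sgn s.τ ⟨false, b, d⟩
  sa1 s a d := sgn_if _ _ _ _
  sb1 s b d := sgn_if _ _ _ _
  suf t ω := by
    show FLZ h0 N ep th F cap cap2 t (coar h0 (ex N t) (gq h (ex N t) ω).2) _ _ <:+
      FLZ h0 N ep th F cap cap2 (t + 1) (coar h0 (ex N (t + 1)) (gq h (ex N (t + 1)) ω).2) _ _
    rw [coar_gq hh, coar_gq hh]
    exact FLZ_suf _ _ _ _ cap cap2 t
  len t g a b := FLZ_len cap cap2 t _ _ _
  tml t ω s hs := by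
    have hs' : s ∈ FLZ h0 N ep th F cap cap2 t (coar h0 (ex N t) (gq h (ex N t) ω).2)
      (sw l i (vq i ω) (vq j ω)).1 (sw l i (vq i ω) (vq j ω)).2 := hs
    rw [coar_gq hh] at hs'
    exact FLZ_time _ _ _ _ cap cap2 t s hs'
  new t ω hne := by
    have hne' : FLZ h0 N ep th F cap cap2 (t + 1) (coar h0 (ex N (t + 1)) (gq h (ex N (t + 1)) ω).2)
      (sw l i (vq i ω) (vq j ω)).1 (sw l i (vq i ω) (vq j ω)).2 ≠
      FLZ h0 N ep th F cap cap2 t (coar h0 (ex N t) (gq h (ex N t) ω).2)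
      (sw l i (vq i ω) (vq j ω)).1 (sw l i (vq i ω) (vq j ω)).2 := hne
    rw [coar_gq hh, coar_gq hh] at hne'
    obtain ⟨s, h1, h2⟩ := FLZ_new _ _ _ _ hne'
    refine ⟨s, ?_, h2⟩
    show s ∈ FLZ h0 N ep th F cap cap2 (t + 1) (coar h0 (ex N (t + 1)) (gq h (ex N (t + 1)) ω).2)
      (sw l i (vq i ω) (vq j ω)).1 (sw l i (vq i ω) (vq j ω)).2
    rw [coar_gq hh]
    exact h1
  pub ω := by
    obtain ⟨BS, h1, h2⟩ := FLZ_pub (h := h0) (N := N) (ep := ep) (th := th) (F := F) (ctr ω) (nz ω)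
      (sw l i (vq i ω) (vq j ω)).1 (sw l i (vq i ω) (vq j ω)).2 cap cap2
    refine ⟨BS, h1, ?_⟩
    intro t ht ω' hg ha hb s hs
    have hs' : s ∈ FLZ h0 N ep th F cap cap2 t (coar h0 (ex N t) (gq h (ex N t) ω').2)
      (sw l i (vq i ω') (vq j ω')).1 (sw l i (vq i ω') (vq j ω')).2 := hs
    rw [coar_gq hh] at hs'
    refine h2 t (ctr ω') (nz ω') _ _ ?_ ?_ s hs'
    · intro u hu
      have h3 := (tri Unit Ξ Unit hij hli hlj hN h).gm_anc hu hg
      have h4 : gq h (ex N u) ω' = gq h (ex N u) ω := h3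
      rw [← coar_gq hh u ω', ← coar_gq hh u ω, h4]
    · have ha' : flr (ex N t - (h + 3)) (vq i ω').2 = flr (ex N t - (h + 3)) (vq i ω).2 := ha
      have hb' : flr (ex N t - (h + 3)) (vq j ω').2 = flr (ex N t - (h + 3)) (vq j ω).2 := hb
      have hle : N - t - (h + 3) ≤ N - t - (h0 + 3) := by omega
      exact sw_cell l i (fun x : Unit × V k => flr (N - t - (h0 + 3)) x.2) (flr_mono_eq hle ha') (flr_mono_eq hle hb')

/-- the product of the signs -/
theorem lsZ_sgn {h0 : ℕ} (hh : h0 ≤ h) (ep th : ℝ) (F : Unit × V k → Unit × V k → V k → ℝ) (cap cap2 : ℕ)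
    (s : Birth (TI k Unit → Bool)) (a b : Unit × V k) (d : V k) :
    (lsZ Ξ hij hli hlj hN h hh ep th F cap cap2).sa s a d * (lsZ Ξ hij hli hlj hN h hh ep th F cap cap2).sb s b d =
      sgn s.τ ⟨false, (sw l i a b).1, d⟩ * sgn s.τ ⟨true, (sw l i a b).2, d⟩ := by
  show (if l + 1 = i then sgn s.τ ⟨false, a, d⟩ else sgn s.τ ⟨true, a, d⟩) *
    (if l + 1 = i then sgn s.τ ⟨true, b, d⟩ else sgn s.τ ⟨false, b, d⟩) = _
  unfold sw
  split_ifs
  · rfl
  · exact mul_comm _ _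

end sys

/-! ### the bad event -/

section bad

variable {Θ P : Type} [Fintype Θ] [Nonempty Θ] [Fintype P] [Nonempty P] {h : ℕ} {ep th : ℝ}
  {F : P × V k → P × V k → V k → ℝ} {cap cap2 : ℕ}

/-- the list of the face `f` is too long, or there are too many public births -/
def BadF (h : ℕ) (ep th : ℝ) (F : P × V k → P × V k → V k → ℝ) (cap cap2 : ℕ) (f : Fin 3) (ω : Sp k N 3 Θ P) :
    Prop :=
  ¬ okZ h N ep th F cap cap2 N (gt h N N (ctr ω) (nz ω)) (vx (f + 1) ω) (vx (f + 2) ω)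

theorem okZ_of_not_bad {f : Fin 3} {ω : Sp k N 3 Θ P} (hb : ¬ BadF h ep th F cap cap2 f ω) {t : ℕ} (ht : t ≤ N) :
    okZ h N ep th F cap cap2 t (gt h N t (ctr ω) (nz ω)) (vx (f + 1) ω) (vx (f + 2) ω) := by
  unfold BadF at hb
  rw [not_not] at hb
  exact okZ_le _ _ _ _ ht hb

theorem Pr_BadF (f : Fin 3) (hF : ∀ b c d, |F b c d| ≤ 1) (hep : 0 < ep) (hth : 0 < th)
    (hrd : 32 * ((2 : ℝ) ^ h)⁻¹ ≤ ep ^ 2) {J : ℕ} (hcap : (J : ℝ) * (64 / (3 * ep ^ 2)) ≤ cap) (hcap2 : 0 < cap2) :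
    (Pm : FP (Sp k N 3 Θ P)).Pr (BadF h ep th F cap cap2 f) ≤ (1 / 2) ^ J + 32 / (ep ^ 3 * th) / cap2 := by
  have h1 := Lf_tail (k := k) (N := N) (Θ := Θ) (P := P) (h := h) (ep := ep) (th := th) (F := F) f hF hep hrd J
  have h2 := Pf_mean (k := k) (N := N) (Θ := Θ) (P := P) (h := h) (ep := ep) (th := th) (F := F) f hF hep hth hrd
  set X : Sp k N 3 Θ P → ℝ := fun ω => ∑ e ∈ range (N + 1),
      (Pf h N ep th F e (Gm h e ω) (vx (f + 1) ω) (vx (f + 2) ω) : ℝ) with hX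
  have hc : (0 : ℝ) < cap2 := by exact_mod_cast hcap2
  have hsum : ∀ ω : Sp k N 3 Θ P, (cumZ h N ep th F N (gt h N N (ctr ω) (nz ω)) (vx (f + 1) ω) (vx (f + 2) ω) : ℝ) =
      X ω := by
    intro ω
    rw [cumZ_sum _ _ _ _ N le_rfl, hX]
    simp only
    rw [← Finset.sum_range_reflect]
    refine Finset.sum_congr rfl fun u hu => ?_
    have hu' := Finset.mem_range.1 hu
    have e1 : N + 1 - 1 - u = N - u := by omega
    have e2 : N - (N - u) = u := by omega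
    rw [e1]
    unfold gt Gm
    rw [e2]
  have h3 : (Pm : FP (Sp k N 3 Θ P)).Pr (fun ω => (cap2 : ℝ) ≤ X ω) ≤ 32 / (ep ^ 3 * th) / cap2 := by
    rw [le_div_iff₀ hc, mul_comm]
    refine (FP.markov _ (fun ω _ => ?_) _).trans h2
    exact Finset.sum_nonneg fun _ _ => Nat.cast_nonneg _
  refine le_trans (FP.Pr_mono _ (t := fun ω => ((J : ℝ) * (64 / (3 * ep ^ 2)) ≤ Llen h f ep th F 0 ω) ∨
    ((cap2 : ℝ) ≤ X ω)) fun ω _ hb => ?_) ((FP.Pr_or_le _ _ _).trans (add_le_add h1 h3))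
  unfold BadF okZ at hb
  rw [not_and_or] at hb
  rcases hb with hb | hb
  · left
    refine hcap.trans ?_
    rw [not_le] at hb
    have h4 : (Lf h N ep th F (N - N) (gt h N N (ctr ω) (nz ω)) (vx (f + 1) ω) (vx (f + 2) ω)).length =
        (Lf h N ep th F 0 (Gm h 0 ω) (vx (f + 1) ω) (vx (f + 2) ω)).length := by
      unfold gt Gm
      rw [Nat.sub_self]
    rw [h4] at hb
    unfold Llen
    exact_mod_cast hb.le
  · right
    rw [not_le] at hb
    rw [← hsum ω]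
    exact_mod_cast hb.le

end bad

/-! ### the instance -/

theorem prod3 {i j l : Fin 3} (hij : j ≠ i) (hli : l ≠ i) (hlj : l ≠ j) (φ : Fin 3 → ℝ) :
    ∏ x, φ x = φ i * φ j * φ l := by
  have h1 : (univ : Finset (Fin 3)) = {i, j, l} := by
    revert i j l; decide
  rw [h1, Finset.prod_insert (by simp [hij.symm, hli.symm]), Finset.prod_insert (by simp [hlj.symm]),
    Finset.prod_singleton]
  ring

section main

variable (L : Lay) (n : ℕ) (F : Fin 3 → Unit × V k → Unit × V k → V k → ℝ)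

/-- the layers `n`, `n+1` -/
def ly (n : ℕ) (y : Bool) : ℕ := if y then n + 1 else n

theorem lh_ly (y : Bool) : L.lh (ly n y) ≤ L.lh (n + 1) := by
  cases y
  · exact L.lh_mono n
  · exact le_rfl

variable {L n}

section T

variable {i j l : Fin 3} (hij : j ≠ i) (hli : l ≠ i) (hlj : l ≠ j) (hN : N ≤ k) {h : ℕ} (hh : L.lh (n + 1) ≤ h)
  (cap cap2 : ℕ)

/-- the two list systems -/
def sysZ (Ξ : Type) [Fintype Ξ] [Nonempty Ξ] (y : Bool) :
    S2.LSys (tri Unit Ξ Unit hij hli hlj hN h) (Birth (TI k Unit → Bool)) cap cap2 :=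
  lsZ Ξ hij hli hlj hN h ((lh_ly L n y).trans hh) (L.lep (ly n y)) (L.lth (ly n y)) (F l) cap cap2

/-- change the private randomness -/
def chgX {Ξ Ξ' : Type} (x0 : Ξ') (ω : Sp k N 3 Unit (Ξ × Unit)) : Sp k N 3 Unit (Ξ' × Unit) :=
  ((), (fun a => ((x0, ()), (vx a ω).2)), ω.2.2)

theorem rlz_of (Ξ Ξ' : Type) [Fintype Ξ] [Nonempty Ξ] [Fintype Ξ'] [Nonempty Ξ']
    (r : S2.RefD (Birth (TI k Unit → Bool)) (Unit × (V k × ℕ)) (V k))
    (hr : S2.Rlz (sysZ F hij hli hlj hN hh cap cap2 Ξ) r) : S2.Rlz (sysZ F hij hli hlj hN hh cap cap2 Ξ') r := by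
  obtain ⟨x0⟩ := ‹Nonempty Ξ'›
  obtain ⟨h1, ω, h2, h3⟩ := hr
  exact ⟨h1, chgX x0 ω, h2, h3⟩

/-- the references do not depend on the private randomness -/
def repZ (Ξ : Type) [Fintype Ξ] [Nonempty Ξ] : S2.Rep (sysZ F hij hli hlj hN hh cap cap2 Ξ)
    (S2.SS (sysZ F hij hli hlj hN hh cap cap2 Unit)) where
  v s := s.1
  inj := Subtype.val_injective
  re s := rlz_of F hij hli hlj hN hh cap cap2 Unit Ξ s.1 s.2
  all r hr := ⟨⟨r, rlz_of F hij hli hlj hN hh cap cap2 Ξ Unit r hr⟩, rfl⟩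

/-- the known face -/
def G1Z (i j : Fin 3) (h1 N : ℕ) (R : Fam2 k Unit) (t : ℕ) (g : Unit × (V k × ℕ)) (b c : Unit × V k) (d : V k) : ℝ :=
  if t = 0 then 0 else R (ex N t) (coar h1 (ex N t) g.2) (sw i j b c).1 (sw i j b c).2 d / 2

theorem abs_G1Z (i j : Fin 3) (h1 : ℕ) {R : Fam2 k Unit} (hR : ∀ e g x y d, |R e g x y d| ≤ 2) (t : ℕ)
    (g : Unit × (V k × ℕ)) (b c : Unit × V k) (d : V k) : |G1Z i j h1 N R t g b c d| ≤ 1 := by
  unfold G1Z
  split_ifs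
  · simp
  · rw [abs_div, abs_of_pos (by norm_num : (0 : ℝ) < 2), div_le_one (by norm_num)]
    exact hR _ _ _ _ _

theorem G1Z_eq {Ξ : Type} [Fintype Ξ] [Nonempty Ξ] (hij : j ≠ i) (hli : l ≠ i) (hlj : l ≠ j) {h1 : ℕ} (hh1 : h1 ≤ h)
    (R : Fam2 k Unit) (t : ℕ) (ω : Sp k N 3 Unit (Ξ × Unit)) :
    G1Z i j h1 N R t (gq h (ex N t) ω) (vq j ω) (vq l ω) = fun d => fz h1 i R t (prU ω) d / 2 := by
  funext d
  unfold G1Z fz
  split_ifs with ht
  · simp
  · rw [coar_gq hh1]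
    have h2 : sw i j (vq j ω) (vq l ω) = (vx (i + 1) (prU ω), vx (i + 2) (prU ω)) :=
      sw_eq hij hli hlj (fun a => vq a ω)
    rw [h2]
    rfl

/-- the residual of the third face, with the frozen list -/
def G2Z (i j : Fin 3) (h0 N : ℕ) (ep th : ℝ) (F : Unit × V k → Unit × V k → V k → ℝ) (cap cap2 : ℕ) (t : ℕ)
    (g : Unit × (V k × ℕ)) (a c : Unit × V k) (d : V k) : ℝ :=
  (F (sw j i a c).1 (sw j i a c).2 d -
    SZ h0 N ep th F cap cap2 t (coar h0 (ex N t) g.2) (sw j i a c).1 (sw j i a c).2 d) / 2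

theorem abs_G2Z (i j : Fin 3) (h0 : ℕ) (ep th : ℝ) {F : Unit × V k → Unit × V k → V k → ℝ}
    (hF : ∀ b c d, |F b c d| ≤ 1) (cap cap2 t : ℕ)
    (g : Unit × (V k × ℕ)) (b c : Unit × V k) (d : V k) : |G2Z i j h0 N ep th F cap cap2 t g b c d| ≤ 1 := by
  unfold G2Z
  rw [abs_div, abs_of_pos (by norm_num : (0 : ℝ) < 2), div_le_one (by norm_num)]
  have h1 := abs_sub (F (sw j i b c).1 (sw j i b c).2 d)
    (SZ h0 N ep th F cap cap2 t (coar h0 (ex N t) g.2) (sw j i b c).1 (sw j i b c).2 d)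
  have h2 := hF (sw j i b c).1 (sw j i b c).2 d
  have h3 := abs_SZ (h := h0) (N := N) (ep := ep) (th := th) (F := F) (cap := cap) (cap2 := cap2) t
    (coar h0 (ex N t) g.2) (sw j i b c).1 (sw j i b c).2 d
  linarith

/-- the structured value at a sample point, as long as nothing is frozen -/
theorem SZ_sample {h0 : ℕ} {ep th : ℝ} {Ff : Unit × V k → Unit × V k → V k → ℝ} {f : Fin 3}
    {ω : Sp k N 3 Unit Unit} (hb : ¬ BadF h0 ep th Ff cap cap2 f ω) {t : ℕ} (ht : t ≤ N) (d : V k) :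
    SZ h0 N ep th Ff cap cap2 t (gt h0 N t (ctr ω) (nz ω)) (vx (f + 1) ω) (vx (f + 2) ω) d =
      fv h0 f (Sf h0 N ep th Ff) (ex N t) ω d :=
  SZ_eq (okZ_of_not_bad hb ht) d

theorem G2Z_eq {Ξ : Type} [Fintype Ξ] [Nonempty Ξ] (hij : j ≠ i) (hli : l ≠ i) (hlj : l ≠ j) {h0 : ℕ} (hh0 : h0 ≤ h)
    {ep th : ℝ} {Ff : Unit × V k → Unit × V k → V k → ℝ} (ω : Sp k N 3 Unit (Ξ × Unit))
    (hb : ¬ BadF h0 ep th Ff cap cap2 j (prU ω)) {t : ℕ} (ht : t ≤ N) (d : V k) :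
    G2Z i j h0 N ep th Ff cap cap2 t (gq h (ex N t) ω) (vq i ω) (vq l ω) d =
      fv h0 j (Rf h0 N ep th Ff) (ex N t) (prU ω) d / 2 := by
  unfold G2Z
  rw [coar_gq hh0]
  have h2 : sw j i (vq i ω) (vq l ω) = (vx (j + 1) (prU ω), vx (j + 2) (prU ω)) :=
    sw_eq hij.symm hlj hli (fun a => vq a ω)
  rw [h2]
  have h3 := SZ_sample cap cap2 hb ht d
  have h4 : SZ h0 N ep th Ff cap cap2 t (gt h0 N t (ctr ω) (nz ω)) (vx (j + 1) (prU ω)) (vx (j + 2) (prU ω)) d =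
    fv h0 j (Sf h0 N ep th Ff) (ex N t) (prU ω) d := h3
  rw [h4]
  rfl

theorem G2Z_moves {Ξ : Type} [Fintype Ξ] [Nonempty Ξ] {h0 : ℕ} (hh0 : h0 ≤ h)
    {ep th : ℝ} {Ff : Unit × V k → Unit × V k → V k → ℝ} (ω : Sp k N 3 Unit (Ξ × Unit)) (m : ℕ) :
    ∑ t ∈ range m, ind (G2Z i j h0 N ep th Ff cap cap2 (t + 1) (gq h (ex N (t + 1)) ω) (vq i ω) (vq l ω) ≠
      G2Z i j h0 N ep th Ff cap cap2 t (gq h (ex N t) ω) (vq i ω) (vq l ω)) ≤ (cap : ℝ) := by
  refine le_trans (Finset.sum_le_sum fun t _ => ?_)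
    (FLZ_moves (h := h0) (N := N) (ep := ep) (th := th) (F := Ff) (ctr ω) (nz ω)
      (sw j i (vq i ω) (vq l ω)).1 (sw j i (vq i ω) (vq l ω)).2 cap cap2 m)
  by_cases hne : FLZ h0 N ep th Ff cap cap2 (t + 1) (gt h0 N (t + 1) (ctr ω) (nz ω))
      (sw j i (vq i ω) (vq l ω)).1 (sw j i (vq i ω) (vq l ω)).2 ≠
      FLZ h0 N ep th Ff cap cap2 t (gt h0 N t (ctr ω) (nz ω))
      (sw j i (vq i ω) (vq l ω)).1 (sw j i (vq i ω) (vq l ω)).2
  · rw [ind_of hne]
    exact ind_le_one _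
  · rw [ind_not hne, ind_not]
    rw [not_not] at hne ⊢
    funext d
    unfold G2Z SZ
    rw [coar_gq hh0, coar_gq hh0, hne]

/-- the sign of the layer -/
def sgY (y : Bool) : ℝ := if y then 1 else -1

theorem abs_sgY (y : Bool) : |sgY y| ≤ 1 := by
  cases y <;> simp [sgY]

/-- THE BAD EVENT: one of the three lists is frozen before the end (`y` = layer of the third face) -/
def BadL (L : Lay) (n : ℕ) (F : Fin 3 → Unit × V k → Unit × V k → V k → ℝ) (cap cap2 : ℕ) (j l : Fin 3) (y : Bool)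
    (ω : Sp k N 3 Unit Unit) : Prop :=
  BadF (L.lh (n + 1)) (L.lep (n + 1)) (L.lth (n + 1)) (F l) cap cap2 l ω ∨
    BadF (L.lh n) (L.lep n) (L.lth n) (F l) cap cap2 l ω ∨
    BadF (L.lh (ly n y)) (L.lep (ly n y)) (L.lth (ly n y)) (F j) cap cap2 j ω

/-- probability of the bad event -/
theorem Pr_BadL (L : Lay) (n : ℕ) {F : Fin 3 → Unit × V k → Unit × V k → V k → ℝ}
    (hF : ∀ i b c d, |F i b c d| ≤ 1) {J : ℕ}
    (hcap : (J : ℝ) * (64 / (3 * L.lep (n + 1) ^ 2)) ≤ cap) (hcap2 : 0 < cap2) (j l : Fin 3) (y : Bool) :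
    (Pm : FP (Sp k N 3 Unit Unit)).Pr (BadL L n F cap cap2 j l y) ≤
      3 * ((1 / 2) ^ J + 32 / (L.lep (n + 1) ^ 3 * L.lth (n + 1)) / cap2) := by
  have hc : (0 : ℝ) < cap2 := by exact_mod_cast hcap2
  have key : ∀ (y : Bool) (f : Fin 3) (Ff : Unit × V k → Unit × V k → V k → ℝ), (∀ b c d, |Ff b c d| ≤ 1) →
      (Pm : FP (Sp k N 3 Unit Unit)).Pr (BadF (L.lh (ly n y)) (L.lep (ly n y)) (L.lth (ly n y)) Ff cap cap2 f) ≤
        (1 / 2) ^ J + 32 / (L.lep (n + 1) ^ 3 * L.lth (n + 1)) / cap2 := by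
    intro y f Ff hFf
    have he1 : L.lep (n + 1) ≤ L.lep (ly n y) := by
      cases y
      · exact L.lep_succ_le n
      · exact le_rfl
    have ht1 : L.lth (n + 1) ≤ L.lth (ly n y) := by
      cases y
      · exact L.lth_succ_le n
      · exact le_rfl
    have hp := L.lep_pos (n + 1)
    have hp' := L.lep_pos (ly n y)
    have hq := L.lth_pos (n + 1)
    have h1 := Pr_BadF (k := k) (N := N) (Θ := Unit) (P := Unit) (h := L.lh (ly n y)) (ep := L.lep (ly n y))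
      (th := L.lth (ly n y)) (F := Ff) (cap := cap) (cap2 := cap2) f hFf (L.lep_pos _) (L.lth_pos _)
      (by
        have := L.rd (ly n y)
        have h2 : (0 : ℝ) ≤ ((2 : ℝ) ^ L.lh (ly n y))⁻¹ := by positivity
        linarith) (J := J) (by
        refine le_trans ?_ hcap
        refine mul_le_mul_of_nonneg_left ?_ (Nat.cast_nonneg _)
        refine div_le_div_of_nonneg_left (by norm_num) (by positivity) ?_
        have := pow_le_pow_left₀ hp.le he1 2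
        linarith) hcap2
    refine h1.trans ?_
    refine add_le_add le_rfl ?_
    refine div_le_div_of_nonneg_right ?_ hc.le
    refine div_le_div_of_nonneg_left (by norm_num) (by positivity) ?_
    exact mul_le_mul (pow_le_pow_left₀ hp.le he1 3) ht1 hq.le (by positivity)
  have h1 := key true l (F l) (hF l)
  have h2 := key false l (F l) (hF l)
  have h3 := key y j (F j) (hF j)
  unfold BadL
  refine (FP.Pr_or_le _ _ _).trans ?_
  have h4 := FP.Pr_or_le (Pm : FP (Sp k N 3 Unit Unit))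
    (fun ω => BadF (L.lh n) (L.lep n) (L.lth n) (F l) cap cap2 l ω)
    (fun ω => BadF (L.lh (ly n y)) (L.lep (ly n y)) (L.lth (ly n y)) (F j) cap cap2 j ω)
  have h1' : (Pm : FP (Sp k N 3 Unit Unit)).Pr (fun ω => BadF (L.lh (n + 1)) (L.lep (n + 1)) (L.lth (n + 1))
      (F l) cap cap2 l ω) ≤ (1 / 2) ^ J + 32 / (L.lep (n + 1) ^ 3 * L.lth (n + 1)) / cap2 := h1
  have h2' : (Pm : FP (Sp k N 3 Unit Unit)).Pr (fun ω => BadF (L.lh n) (L.lep n) (L.lth n)
      (F l) cap cap2 l ω) ≤ (1 / 2) ^ J + 32 / (L.lep (n + 1) ^ 3 * L.lth (n + 1)) / cap2 := h2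
  linarith

/-- the structured face at a sample point -/
theorem sys_psi (Ξ : Type) [Fintype Ξ] [Nonempty Ξ] (ω : Sp k N 3 Unit (Ξ × Unit)) {y' : Bool}
    (hb : ¬ BadL L n F cap cap2 j l y' (prU ω)) {t : ℕ} (ht : t ≤ N) (d : V k) :
    ∑ y : Bool, sgY y * psi (L.lep (ly n y)) ((((sysZ F hij hli hlj hN hh cap cap2 Ξ) y).cl t ω).map fun x =>
      ((sysZ F hij hli hlj hN hh cap cap2 Ξ) y).sa x ((tri Unit Ξ Unit hij hli hlj hN h).a ω) d *
      ((sysZ F hij hli hlj hN hh cap cap2 Ξ) y).sb x ((tri Unit Ξ Unit hij hli hlj hN h).b ω) d) =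
      fv (L.lh (n + 1)) l (Dl N L F n l) (ex N t) (prU ω) d := by
  unfold BadL at hb
  rw [not_or, not_or] at hb
  obtain ⟨hb1, hb2, -⟩ := hb
  have hsw : sw l i (vq i ω) (vq j ω) = (vx (l + 1) (prU ω), vx (l + 2) (prU ω)) :=
    sw_eq hli.symm hlj.symm hij (fun a => vq a ω)
  have key : ∀ y : Bool, ¬ BadF (L.lh (ly n y)) (L.lep (ly n y)) (L.lth (ly n y)) (F l) cap cap2 l (prU ω) →
      psi (L.lep (ly n y)) ((((sysZ F hij hli hlj hN hh cap cap2 Ξ) y).cl t ω).map fun x =>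
      ((sysZ F hij hli hlj hN hh cap cap2 Ξ) y).sa x ((tri Unit Ξ Unit hij hli hlj hN h).a ω) d *
      ((sysZ F hij hli hlj hN hh cap cap2 Ξ) y).sb x ((tri Unit Ξ Unit hij hli hlj hN h).b ω) d) =
      fv (L.lh (ly n y)) l (Sl N L F (ly n y) l) (ex N t) (prU ω) d := by
    intro y hby
    have h1 : (fun x => ((sysZ F hij hli hlj hN hh cap cap2 Ξ) y).sa x ((tri Unit Ξ Unit hij hli hlj hN h).a ω) d *
      ((sysZ F hij hli hlj hN hh cap cap2 Ξ) y).sb x ((tri Unit Ξ Unit hij hli hlj hN h).b ω) d) =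
        fun x => sgn x.τ ⟨false, vx (l + 1) (prU ω), d⟩ * sgn x.τ ⟨true, vx (l + 2) (prU ω), d⟩ := by
      funext x
      have h2 := lsZ_sgn Ξ hij hli hlj hN h ((lh_ly L n y).trans hh) (L.lep (ly n y)) (L.lth (ly n y)) (F l) cap cap2
        x (vq i ω) (vq j ω) d
      rw [hsw] at h2
      exact h2
    rw [h1]
    have h3 : ((sysZ F hij hli hlj hN hh cap cap2 Ξ) y).cl t ω =
        FLZ (L.lh (ly n y)) N (L.lep (ly n y)) (L.lth (ly n y)) (F l) cap cap2 t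
          (gt (L.lh (ly n y)) N t (ctr ω) (nz ω)) (vx (l + 1) (prU ω)) (vx (l + 2) (prU ω)) := by
      show FLZ (L.lh (ly n y)) N (L.lep (ly n y)) (L.lth (ly n y)) (F l) cap cap2 t
          (coar (L.lh (ly n y)) (ex N t) (gq h (ex N t) ω).2) (sw l i (vq i ω) (vq j ω)).1
          (sw l i (vq i ω) (vq j ω)).2 = _
      rw [coar_gq ((lh_ly L n y).trans hh), hsw]
    rw [h3]
    exact SZ_sample cap cap2 hby ht d
  rw [Fintype.sum_bool, key true hb1, key false hb2]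
  have h5 : fv (L.lh (n + 1)) l (Dl N L F n l) (ex N t) (prU ω) d =
      fv (L.lh (n + 1)) l (Sl N L F (n + 1) l) (ex N t) (prU ω) d -
      fv (L.lh (n + 1)) l (fine (L.lh n) (Sl N L F n l)) (ex N t) (prU ω) d :=
    Dl_eq L n l (ex N t) (Gm (L.lh (n + 1)) (ex N t) (prU ω)) (vx (l + 1) (prU ω)) (vx (l + 2) (prU ω)) d
  rw [h5, fine_v]
  show 1 * fv (L.lh (n + 1)) l (Sl N L F (n + 1) l) (ex N t) (prU ω) d +
    -1 * fv (L.lh n) l (Sl N L F n l) (ex N t) (prU ω) d = _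
  ring

/-- the third face -/
def R3 (L : Lay) (n N : ℕ) (F : Fin 3 → Unit × V k → Unit × V k → V k → ℝ) (j : Fin 3) (y : Bool) : Fam2 k Unit :=
  if y then Rl N L F (n + 1) j else fine (L.lh n) (Rl N L F n j)

theorem R3_of {L : Lay} {n : ℕ} {F : Fin 3 → Unit × V k → Unit × V k → V k → ℝ} {j : Fin 3} {R : Fam2 k Unit}
    (h : R = fine (L.lh n) (Rl N L F n j) ∨ R = Rl N L F (n + 1) j) : ∃ y, R = R3 L n N F j y := by
  rcases h with h | h
  · exact ⟨false, h⟩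
  · exact ⟨true, h⟩

theorem fv_R3 (L : Lay) (n : ℕ) (F : Fin 3 → Unit × V k → Unit × V k → V k → ℝ) (j : Fin 3) (y : Bool) (e : ℕ)
    (ω : Sp k N 3 Unit Unit) :
    fv (L.lh (n + 1)) j (R3 L n N F j y) e ω = fv (L.lh (ly n y)) j (Rl N L F (ly n y) j) e ω := by
  cases y
  · show fv (L.lh (n + 1)) j (fine (L.lh n) (Rl N L F n j)) e ω = _
    rw [fine_v]
    rfl
  · rfl

/-- **THE INPUT OF SECTION 2 FOR THE PIECES OF A LAYER**: the type `S` of the references does not depend on the private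
randomness `Ξ`; off the bad event the process is `4 I.TT` -/
theorem inp_exists (L : Lay) (n : ℕ) {F : Fin 3 → Unit × V k → Unit × V k → V k → ℝ}
    (hF : ∀ i b c d, |F i b c d| ≤ 1) {i j l : Fin 3} (hij : j ≠ i) (hli : l ≠ i) (hlj : l ≠ j) (hN : N ≤ k) {h : ℕ}
    (hh : L.lh (n + 1) ≤ h) (R : Fin 3 → Fam2 k Unit) (hRl : R l = Dl N L F n l) (y : Bool)
    (hRj : R j = R3 L n N F j y) (hRi : ∀ e g x y d, |R i e g x y d| ≤ 2) (cap cap2 : ℕ) {p0 : ℝ}
    (hp0 : 2 * (cap : ℝ) + 1 ≤ p0)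
    (hp : ∀ ω : Sp k N 3 Unit Unit, ∑ t ∈ range N, ind (chE (L.lh (n + 1)) i (R i) t ω) ≤ p0) :
    ∃ (S : Type) (_ : Fintype S), ∀ (Ξ : Type) [Fintype Ξ] [Nonempty Ξ],
      ∃ I : S2.Inp (tri Unit Ξ Unit hij hli hlj hN h) S,
        I.Λ = 2 * ((cap : ℝ) + 1) * 2 ^ cap ∧ I.p0 = p0 ∧ I.Ms = 2 * ((cap2 : ℝ) + 1) ^ cap * 2 ^ cap ∧
        (∀ t (ω : Sp k N 3 Unit (Ξ × Unit)), I.G1 t (gq h (ex N t) ω) (vq j ω) (vq l ω) =
           fun d => fz (L.lh (n + 1)) i (R i) t (prU ω) d / 2) ∧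
        (∀ ω : Sp k N 3 Unit (Ξ × Unit), ¬ BadL L n F cap cap2 j l y (prU ω) → ∀ t ≤ N,
          TZ (L.lh (n + 1)) R t (prU ω) = 4 * I.TT t ω) := by
  classical
  refine ⟨S2.SS (sysZ F hij hli hlj hN hh cap cap2 Unit), inferInstance, ?_⟩
  intro Ξ _ _
  have hfine : L.lh (ly n y) ≤ h := (lh_ly L n y).trans hh
  have hmv1 : ∀ ω : Sp k N 3 Unit (Ξ × Unit), ∑ t ∈ range N,
      ind (G1Z i j (L.lh (n + 1)) N (R i) (t + 1) (gq h (ex N (t + 1)) ω) (vq j ω) (vq l ω) ≠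
        G1Z i j (L.lh (n + 1)) N (R i) t (gq h (ex N t) ω) (vq j ω) (vq l ω)) ≤ p0 := by
    intro ω
    refine (Finset.sum_le_sum fun t _ => ?_).trans (hp (prU ω))
    rw [G1Z_eq hij hli hlj hh, G1Z_eq hij hli hlj hh]
    by_cases hc : chE (L.lh (n + 1)) i (R i) t (prU ω)
    · rw [ind_of hc]
      exact ind_le_one _
    · rw [ind_not hc, ind_not]
      unfold chE at hc
      rw [not_not] at hc ⊢
      rw [hc]
  have hmv2 : ∀ ω : Sp k N 3 Unit (Ξ × Unit), ∑ t ∈ range N,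
      ind (G2Z i j (L.lh (ly n y)) N (L.lep (ly n y)) (L.lth (ly n y)) (F j) cap cap2 (t + 1)
        (gq h (ex N (t + 1)) ω) (vq i ω) (vq l ω) ≠
        G2Z i j (L.lh (ly n y)) N (L.lep (ly n y)) (L.lth (ly n y)) (F j) cap cap2 t
        (gq h (ex N t) ω) (vq i ω) (vq l ω)) ≤ p0 := by
    intro ω
    refine (G2Z_moves cap cap2 hfine ω N).trans ?_
    have : (0 : ℝ) ≤ cap := Nat.cast_nonneg _
    linarith
  refine ⟨S2.mkInp (repZ F hij hli hlj hN hh cap cap2 Ξ) sgY (fun y => L.lep (ly n y)) abs_sgY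
    (G1Z i j (L.lh (n + 1)) N (R i)) (abs_G1Z i j (L.lh (n + 1)) hRi)
    (G2Z i j (L.lh (ly n y)) N (L.lep (ly n y)) (L.lth (ly n y)) (F j) cap cap2)
    (abs_G2Z i j _ _ _ (hF j) cap cap2) p0 hp0 hmv1 hmv2, rfl, rfl, rfl, ?_, ?_⟩
  · intro t ω
    exact G1Z_eq hij hli hlj hh (R i) t ω
  · intro ω hb t ht
    rcases Nat.eq_zero_or_pos t with h0 | h0
    · subst h0
      unfold TZ S2.Inp.TT
      rw [if_pos rfl]
      unfold TS.iw
      rw [Finset.sum_eq_zero]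
      · ring
      · intro d _
        rw [S2.mkInp_G3_zero]
        ring
    · have hn : 1 ≤ N := h0.trans_le ht
      have hb3 : ¬ BadF (L.lh (ly n y)) (L.lep (ly n y)) (L.lth (ly n y)) (F j) cap cap2 j (prU ω) := by
        unfold BadL at hb
        rw [not_or, not_or] at hb
        exact hb.2.2
      unfold TZ
      rw [if_neg (show ¬ t = 0 by omega)]
      have h1 : S2.Inp.TT (S2.mkInp (repZ F hij hli hlj hN hh cap cap2 Ξ) sgY (fun y => L.lep (ly n y)) abs_sgY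
          (G1Z i j (L.lh (n + 1)) N (R i)) (abs_G1Z i j (L.lh (n + 1)) hRi)
          (G2Z i j (L.lh (ly n y)) N (L.lep (ly n y)) (L.lth (ly n y)) (F j) cap cap2)
          (abs_G2Z i j _ _ _ (hF j) cap cap2) p0 hp0 hmv1 hmv2) t ω =
          ip (ex N t) (Yn (ex N t) ω).1 (fun d => fz (L.lh (n + 1)) i (R i) t (prU ω) d / 2 *
            (fv (L.lh (n + 1)) j (R j) (ex N t) (prU ω) d / 2)) (fv (L.lh (n + 1)) l (R l) (ex N t) (prU ω)) := by
        rw [← iw_Wd]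
        unfold S2.Inp.TT
        have e1 : (fun d => (S2.mkInp (repZ F hij hli hlj hN hh cap cap2 Ξ) sgY (fun y => L.lep (ly n y)) abs_sgY
          (G1Z i j (L.lh (n + 1)) N (R i)) (abs_G1Z i j (L.lh (n + 1)) hRi)
          (G2Z i j (L.lh (ly n y)) N (L.lep (ly n y)) (L.lth (ly n y)) (F j) cap cap2)
          (abs_G2Z i j _ _ _ (hF j) cap cap2) p0 hp0 hmv1 hmv2).G1 t ((tri Unit Ξ Unit hij hli hlj hN h).gm t ω)
            ((tri Unit Ξ Unit hij hli hlj hN h).b ω) ((tri Unit Ξ Unit hij hli hlj hN h).c ω) d *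
          (S2.mkInp (repZ F hij hli hlj hN hh cap cap2 Ξ) sgY (fun y => L.lep (ly n y)) abs_sgY
          (G1Z i j (L.lh (n + 1)) N (R i)) (abs_G1Z i j (L.lh (n + 1)) hRi)
          (G2Z i j (L.lh (ly n y)) N (L.lep (ly n y)) (L.lth (ly n y)) (F j) cap cap2)
          (abs_G2Z i j _ _ _ (hF j) cap cap2) p0 hp0 hmv1 hmv2).G2 t ((tri Unit Ξ Unit hij hli hlj hN h).gm t ω)
            ((tri Unit Ξ Unit hij hli hlj hN h).a ω) ((tri Unit Ξ Unit hij hli hlj hN h).c ω) d) =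
            fun d => fz (L.lh (n + 1)) i (R i) t (prU ω) d / 2 *
            (fv (L.lh (n + 1)) j (R j) (ex N t) (prU ω) d / 2) := by
          funext d
          have e2 : G1Z i j (L.lh (n + 1)) N (R i) t (gq h (ex N t) ω) (vq j ω) (vq l ω) d =
            fz (L.lh (n + 1)) i (R i) t (prU ω) d / 2 := congrFun (G1Z_eq hij hli hlj hh (R i) t ω) d
          have e3 : G2Z i j (L.lh (ly n y)) N (L.lep (ly n y)) (L.lth (ly n y)) (F j) cap cap2 t
            (gq h (ex N t) ω) (vq i ω) (vq l ω) d = fv (L.lh (n + 1)) j (R j) (ex N t) (prU ω) d / 2 := by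
            rw [G2Z_eq cap cap2 hij hli hlj hfine ω hb3 ht d, hRj, fv_R3]
            rfl
          rw [← e2, ← e3]
          rfl
        have e4 : (S2.mkInp (repZ F hij hli hlj hN hh cap cap2 Ξ) sgY (fun y => L.lep (ly n y)) abs_sgY
          (G1Z i j (L.lh (n + 1)) N (R i)) (abs_G1Z i j (L.lh (n + 1)) hRi)
          (G2Z i j (L.lh (ly n y)) N (L.lep (ly n y)) (L.lth (ly n y)) (F j) cap cap2)
          (abs_G2Z i j _ _ _ (hF j) cap cap2) p0 hp0 hmv1 hmv2).G3 t ω =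
            fv (L.lh (n + 1)) l (R l) (ex N t) (prU ω) := by
          funext d
          rw [S2.mkInp_G3 (repZ F hij hli hlj hN hh cap cap2 Ξ) hn h0 ω d, hRl]
          exact sys_psi F hij hli hlj hN hh cap cap2 Ξ ω hb ht d
        rw [e1, e4]
        rfl
      rw [h1]
      unfold TT3 av Bin.ip
      rw [← mul_assoc, mul_comm (4 : ℝ), mul_assoc, Finset.mul_sum (a := (4 : ℝ))]
      congr 1
      refine Finset.sum_congr rfl fun m _ => ?_
      have h2 : fz (L.lh (n + 1)) i (R i) t (prU ω) = fv (L.lh (n + 1)) i (R i) (ex N t) (prU ω) := by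
        unfold fz
        rw [if_neg (show ¬ t = 0 by omega)]
      rw [h2]
      have h3 : (Yn (ex N t) (prU ω)).1 = (Yn (ex N t) ω).1 := rfl
      rw [h3]
      generalize (Yn (ex N t) ω).1 - (m : V k) = v
      show ∏ i, fv (L.lh (n + 1)) i (R i) (ex N t) (prU ω) v =
        4 * (fv (L.lh (n + 1)) i (R i) (ex N t) (prU ω) v / 2 * (fv (L.lh (n + 1)) j (R j) (ex N t) (prU ω) v / 2) *
          fv (L.lh (n + 1)) l (R l) (ex N t) (prU ω) v)
      rw [prod3 hij hli hlj]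
      ring

end T

end main

end

end Pool.Agent.M3.Mod
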