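import Pool.Agent.M3.S2.Gen
import Pool.Agent.M3.Bin.Tower

/-!
# M3/S2/LMap (helper11): the Prop `LM` (Lemma M') for the binary model, and its transport

`LM_bin`: two vertices.  `LM_map`: transport along a measure preserving map of the sample spaces.
-/

set_option autoImplicit false
set_option linter.unusedSectionVars false

namespace Pool.Agent.M3.S2

open Finset Pool.Agent.PWZ Pool.Agent.M3 Pool.Agent.M3.TS

/-- Lemma M' for two vertices -/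
theorem LM_bin {k N : ℕ} {P Q : Type} [Fintype P] [Fintype Q] [Nonempty P] [Nonempty Q] (A : Bin.Par k P)
    (B : Bin.Par k Q) (hN : N ≤ k) (h : ℕ) :
    LM (FP.unif (Bin.Om2 k N P Q)) (fun o => o.1) (fun o => o.2.1) N (Bin.nX A B h) (Bin.nY A B h)
      (Bin.cX A N h) (Bin.cX B N h) (Bin.rX N h) (Bin.rX N h) (Bin.Jt A B) (8 * ((2 : ℝ) ^ h)⁻¹)
      (2 ^ (h + 4)) := by
  intro u v hu1 hv1 hu0 hv0 η ε m hη hη1 hε hε1 hnear hu hv hmu hmv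
  exact TS.lemmaM' (Bin.tower_bin (N := N) A B hN h) u v hu1 hv1 hu0 hv0 hη hη1 hε hε1
    (one_le_pow₀ (by norm_num)) (by positivity) hnear hu hv hmu hmv

variable {Om Om' 𝒳 𝒳' 𝒴 𝒴' V Γx Γx' Γy Γy' κx κx' κy κy' : Type} [Fintype Om] [Fintype Om'] [Fintype 𝒳]
  [Fintype 𝒳'] [Fintype 𝒴] [Fintype 𝒴'] [Fintype V]

/-- correspondence of the cells of two populations at a node of each model -/
structure CellMap (P : FP Om) (P' : FP Om') (f : 𝒳' → 𝒳) (n : ℕ) (nd : ℕ → Om → Γx) (nd' : ℕ → Om' → Γx')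
    (cl : ℕ → 𝒳 → κx) (cl' : ℕ → 𝒳' → κx') (ρ : ℕ → Γx → V → ℝ) (ρ' : ℕ → Γx' → V → ℝ)
    (γ : ℕ → Γx' → 𝒳' → Γx) : Prop where
  cells : ∀ t ≤ n, ∀ (w' : Om') (x0 : 𝒳'), ∃ (w : Om) (k : κx), ρ t (nd t w) = ρ' t (nd' t w') ∧
    (∀ x, cl' t x = cl' t x0 → γ t (nd' t w') x = nd t w) ∧
    (∀ x, cl' t x = cl' t x0 → cl t (f x) = k) ∧
    (∀ y, cl t y = k → ∃ x, cl' t x = cl' t x0 ∧ f x = y) ∧
    (∀ x x', cl' t x = cl' t x0 → cl' t x' = cl' t x0 → f x = f x' → x = x')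

theorem CellMap.hf {P : FP Om} {P' : FP Om'} {f : 𝒳' → 𝒳} {n : ℕ} {nd : ℕ → Om → Γx} {nd' : ℕ → Om' → Γx'}
    {cl : ℕ → 𝒳 → κx} {cl' : ℕ → 𝒳' → κx'} {ρ : ℕ → Γx → V → ℝ} {ρ' : ℕ → Γx' → V → ℝ}
    {γ : ℕ → Γx' → 𝒳' → Γx} (H : CellMap P P' f n nd nd' cl cl' ρ ρ' γ) {u : ℕ → Γx → 𝒳 → V → ℝ}
    {η ε : ℝ} (hu : HF n nd cl ρ u η ε) :
    HF n nd' cl' ρ' (fun t g x => u t (γ t g x) (f x)) η ε := by
  classical
  intro t ht w' k' w1 hw1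
  by_cases hk : (cel (cl' t) k').Nonempty
  swap
  · rw [Finset.not_nonempty_iff_eq_empty] at hk
    rw [hk]
    simp
  obtain ⟨x0, hx0⟩ := hk
  rw [mem_cel] at hx0
  obtain ⟨w, k, h1, h2, h3, h4, h5⟩ := H.cells t ht w' x0
  have himg : (cel (cl' t) k').image f = cel (cl t) k := by
    ext y
    rw [Finset.mem_image, mem_cel]
    constructor
    · rintro ⟨x, hx, rfl⟩
      rw [mem_cel] at hx
      exact h3 x (by rw [hx, hx0])
    · intro hy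
      obtain ⟨x, hx, rfl⟩ := h4 y hy
      exact ⟨x, mem_cel.2 (by rw [hx, hx0]), rfl⟩
  have hinj : Set.InjOn f (cel (cl' t) k' : Finset 𝒳') := by
    intro x hx x' hx' he
    rw [Finset.mem_coe, mem_cel] at hx hx'
    exact h5 x x' (by rw [hx, hx0]) (by rw [hx', hx0]) he
  have h6 := hu t ht w k w1 hw1
  rw [← himg, Finset.sum_image hinj, Finset.card_image_of_injOn hinj] at h6
  refine le_trans (le_of_eq ?_) h6
  refine Finset.sum_congr rfl fun x hx => ?_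
  rw [mem_cel] at hx
  beta_reduce
  rw [h1, h2 x (by rw [hx, hx0])]

/-- TRANSPORT of Lemma M' -/
theorem LM_map {P : FP Om} {P' : FP Om'} (φ : Om → Om') (hφ : ∀ f : Om' → ℝ, P.E (fun w => f (φ w)) = P'.E f)
    {X : Om → 𝒳} {Y : Om → 𝒴} {n : ℕ} {nx : ℕ → Om → Γx} {ny : ℕ → Om → Γy}
    {cx : ℕ → 𝒳 → κx} {cy : ℕ → 𝒴 → κy} {ρx : ℕ → Γx → V → ℝ} {ρy : ℕ → Γy → V → ℝ}
    {J : ℕ → Om → V → ℝ} {near Kc : ℝ}
    {X' : Om' → 𝒳'} {Y' : Om' → 𝒴'} {nx' : ℕ → Om' → Γx'} {ny' : ℕ → Om' → Γy'}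
    {cx' : ℕ → 𝒳' → κx'} {cy' : ℕ → 𝒴' → κy'} {ρx' : ℕ → Γx' → V → ℝ} {ρy' : ℕ → Γy' → V → ℝ}
    {J' : ℕ → Om' → V → ℝ} {near' Kc' : ℝ}
    (hLM : LM P' X' Y' n nx' ny' cx' cy' ρx' ρy' J' near' Kc') (hnear : near' ≤ near) (hK0 : 0 < Kc')
    (hK : Kc' ≤ Kc) (fx : 𝒳' → 𝒳) (fy : 𝒴' → 𝒴) (γx : ℕ → Γx' → 𝒳' → Γx) (γy : ℕ → Γy' → 𝒴' → Γy)
    (hX : ∀ w, fx (X' (φ w)) = X w) (hY : ∀ w, fy (Y' (φ w)) = Y w)
    (hnx : ∀ t w, γx t (nx' t (φ w)) (X' (φ w)) = nx t w)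
    (hny : ∀ t w, γy t (ny' t (φ w)) (Y' (φ w)) = ny t w)
    (hJ : ∀ t w, J' t (φ w) = J t w)
    (hcx : CellMap P P' fx n nx nx' cx cx' ρx ρx' γx) (hcy : CellMap P P' fy n ny ny' cy cy' ρy ρy' γy) :
    LM P X Y n nx ny cx cy ρx ρy J near Kc := by
  intro u v hu1 hv1 hu0 hv0 η ε m hη hη1 hε hε1 hn hu hv hmu hmv
  have hPr : ∀ s : Om' → Prop, P'.Pr s = P.Pr (fun w => s (φ w)) := fun s => (hφ (fun w => ind (s w))).symm
  have hmu' : moves P' Y' n ny' (fun t g y => u t (γy t g y) (fy y)) ≤ m := by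
    refine le_trans (le_of_eq ?_) hmu
    unfold moves
    refine Finset.sum_congr rfl fun t _ => ?_
    rw [hPr]
    simp only [hny, hY]
  have hmv' : moves P' X' n nx' (fun t g x => v t (γx t g x) (fx x)) ≤ m := by
    refine le_trans (le_of_eq ?_) hmv
    unfold moves
    refine Finset.sum_congr rfl fun t _ => ?_
    rw [hPr]
    simp only [hnx, hX]
  have h1 := hLM (fun t g y => u t (γy t g y) (fy y)) (fun t g x => v t (γx t g x) (fx x))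
    (fun t g y c => hu1 _ _ _ _) (fun t g x c => hv1 _ _ _ _) (fun g y c => hu0 _ _ _) (fun g x c => hv0 _ _ _)
    η ε m hη hη1 hε hε1 (hnear.trans hn) (hcy.hf hu) (hcx.hf hv) hmu' hmv'
  rw [hPr] at h1
  have h2 : (fun w => ∃ t ≤ n, 400 * η < |TT X' Y' nx' ny' J' (fun t g y => u t (γy t g y) (fy y))
      (fun t g x => v t (γx t g x) (fx x)) t (φ w)|) =
      fun w => ∃ t ≤ n, 400 * η < |TT X Y nx ny J u v t w| := by
    funext w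
    unfold TT
    simp only [hnx, hny, hX, hY, hJ]
  rw [h2] at h1
  refine h1.trans ?_
  have hm0 : 0 ≤ m := (Finset.sum_nonneg fun t _ => FP.Pr_nonneg _ _).trans hmu
  have h3 : Real.log (Kc' / ε) ≤ Real.log (Kc / ε) :=
    Real.log_le_log (by positivity) (by gcongr)
  have h4 : 0 ≤ 10 ^ 8 * ε * m / η ^ 4 := by positivity
  exact mul_le_mul_of_nonneg_left (by linarith) h4

end Pool.Agent.M3.S2
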