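import Pool.Agent.M3.S2.LMPar
import Pool.Agent.M3.S2.Geo

/-!
# M3/S2/LMi (helper11): the two instances of Lemma M' used in section 2, for the geometry `Mod.tri`

`LM1` : populations `(xi, a)` and `b`, the third vertex `c` is in the nodes (known exactly).
`LM2` : populations `(xi, a)` and `(b, c)`; the node of `(xi, a)` contains the small cell of `b`.
-/

set_option autoImplicit false
set_option linter.unusedSectionVars false

namespace Pool.Agent.M3.Mod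

open Finset Pool.Agent.PWZ Pool.Agent.M3.Bin Pool.Agent.M3.S2

variable {k N : ℕ} {Θ Ξ Q : Type} [Fintype Θ] [Nonempty Θ] [Fintype Ξ] [Nonempty Ξ] [Fintype Q] [Nonempty Q]

noncomputable section

/-- public randomness and a vertex -/
abbrev RR (k : ℕ) (Θ Q : Type) := Θ × (Q × V k)

/-- the shift of the vertex in `RR` -/
def sR (r : RR k Θ Q) : V k := r.2.2

/-- projection to the model with two vertices `i`, `j`; the vertex `l` is a parameter of `j` -/
def prj (i j l : Fin 3) (ω : Sp k N 3 Θ (Ξ × Q)) : Om2 k N (Ξ × Q) (RR k Θ Q × Q) :=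
  (vx i ω, (((th ω, vq l ω), (vx j ω).1.2), (vx j ω).2), ω.2.2)

/-- a sample point over a point of the model with two vertices -/
def glue (i j : Fin 3) (x1 x2 : Ξ) (o : Om2 k N (Ξ × Q) (RR k Θ Q × Q)) : Sp k N 3 Θ (Ξ × Q) :=
  (o.2.1.1.1.1, (fun m => if m = i then o.1 else if m = j then ((x1, o.2.1.1.2), o.2.1.2) else
    ((x2, o.2.1.1.1.2.1), o.2.1.1.1.2.2)), o.2.2)

theorem prj_glue {i j l : Fin 3} (hij : j ≠ i) (hli : l ≠ i) (hlj : l ≠ j) (x1 x2 : Ξ)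
    (o : Om2 k N (Ξ × Q) (RR k Θ Q × Q)) : prj i j l (glue i j x1 x2 o) = o := by
  unfold prj glue vq vx th
  simp only [if_pos, if_neg hij, if_neg hli, if_neg hlj]

/-- the equivalence -/
def prjE {i j l : Fin 3} (hij : j ≠ i) (hli : l ≠ i) (hlj : l ≠ j) :
    Sp k N 3 Θ (Ξ × Q) ≃ Om2 k N (Ξ × Q) (RR k Θ Q × Q) × (Ξ × Ξ) where
  toFun ω := (prj i j l ω, (xq j ω, xq l ω))
  invFun p := glue i j p.2.1 p.2.2 p.1
  left_inv ω := by
    refine Prod.ext rfl (Prod.ext ?_ rfl)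
    funext m
    unfold glue prj vq xq vx
    simp only
    rcases fin3_cover3 hij hli hlj m with rfl | rfl | rfl
    · rw [if_pos rfl]
    · rw [if_neg hij, if_pos rfl]
    · rw [if_neg hli, if_neg hlj]
  right_inv p := by
    refine Prod.ext (prj_glue hij hli hlj _ _ _) (Prod.ext ?_ ?_)
    · unfold glue xq vx
      simp only [if_neg hij, if_pos]
    · unfold glue xq vx
      simp only [if_neg hli, if_neg hlj]

theorem E_prj {i j l : Fin 3} (hij : j ≠ i) (hli : l ≠ i) (hlj : l ≠ j)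
    (f : Om2 k N (Ξ × Q) (RR k Θ Q × Q) → ℝ) :
    (PQ k N Θ Ξ Q).E (fun ω => f (prj i j l ω)) = (FP.unif (Om2 k N (Ξ × Q) (RR k Θ Q × Q))).E f := by
  unfold PQ Pm
  rw [FP.unif_E, FP.unif_E]
  have h1 : ∑ ω : Sp k N 3 Θ (Ξ × Q), f (prj i j l ω) =
      ∑ p : Om2 k N (Ξ × Q) (RR k Θ Q × Q) × (Ξ × Ξ), f p.1 :=
    Equiv.sum_comp (prjE hij hli hlj) (fun p => f p.1)
  rw [h1, Fintype.sum_prod_type, Fintype.card_congr (prjE (k := k) (N := N) (Θ := Θ) (Ξ := Ξ) (Q := Q) hij hli hlj),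
    Fintype.card_prod (Om2 k N (Ξ × Q) (RR k Θ Q × Q)) (Ξ × Ξ)]
  have h2 : ∀ x : Om2 k N (Ξ × Q) (RR k Θ Q × Q), ∑ _y : Ξ × Ξ, f x = (Fintype.card (Ξ × Ξ) : ℝ) * f x := by
    intro x
    rw [Finset.sum_const, Finset.card_univ, nsmul_eq_mul]
  simp only [h2]
  rw [← Finset.mul_sum]
  have h3 : (Fintype.card (Ξ × Ξ) : ℝ) ≠ 0 := Nat.cast_ne_zero.mpr Fintype.card_ne_zero
  have h4 : (Fintype.card (Om2 k N (Ξ × Q) (RR k Θ Q × Q)) : ℝ) ≠ 0 := Nat.cast_ne_zero.mpr Fintype.card_ne_zero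
  push_cast
  field_simp

theorem ctr_prj {i j l : Fin 3} (hij : j ≠ i) (hli : l ≠ i) (hlj : l ≠ j) (B : Par k (RR k Θ Q × Q))
    (hB : ∀ q, B.tau q = q.1.2.2) (ω : Sp k N 3 Θ (Ξ × Q)) :
    Bin.ctr (parT k (Ξ × Q)) B (prj i j l ω) = ctr ω := by
  rw [ctr3 hij hli hlj]
  unfold Bin.ctr Par.sh
  rw [hB]
  show (0 + (vx i ω).2) + ((vq l ω).2 + (vx j ω).2) = (vx i ω).2 + (vx j ω).2 + (vq l ω).2
  abel

/-- the rounded node of the model with two vertices -/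
theorem nX_prj {i j l : Fin 3} (hij : j ≠ i) (hli : l ≠ i) (hlj : l ≠ j) (B : Par k (RR k Θ Q × Q))
    (hB : ∀ q, B.tau q = q.1.2.2) (h t : ℕ) (ω : Sp k N 3 Θ (Ξ × Q)) :
    (nX (parT k (Ξ × Q)) B h t (prj i j l ω)).1 = Gm h (ex N t) ω := by
  unfold nX
  rw [ctr_prj hij hli hlj B hB]
  rfl

theorem nY_prj {i j l : Fin 3} (hij : j ≠ i) (hli : l ≠ i) (hlj : l ≠ j) (B : Par k (RR k Θ Q × Q))
    (hB : ∀ q, B.tau q = q.1.2.2) (h t : ℕ) (ω : Sp k N 3 Θ (Ξ × Q)) :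
    (nY (parT k (Ξ × Q)) B h t (prj i j l ω)).1 = Gm h (ex N t) ω := by
  unfold nY
  rw [ctr_prj hij hli hlj B hB]
  rfl

theorem J_prj {i j l : Fin 3} (hij : j ≠ i) (hli : l ≠ i) (hlj : l ≠ j) (B : Par k (RR k Θ Q × Q))
    (hB : ∀ q, B.tau q = q.1.2.2) (t : ℕ) (ω : Sp k N 3 Θ (Ξ × Q)) :
    Jt (parT k (Ξ × Q)) B t (prj i j l ω) = Wd (ex N t) (Yn (ex N t) ω).1 := by
  unfold Jt
  rw [ctr_prj hij hli hlj B hB]
  rfl

/-- a sample point with a given second vertex (and parameter) and a given node -/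
theorem exists_node {i j l : Fin 3} (hij : j ≠ i) (hli : l ≠ i) (hlj : l ≠ j) (B : Par k (RR k Θ Q × Q))
    (hB : ∀ q, B.tau q = q.1.2.2) (h t : ℕ) (o : Om2 k N (Ξ × Q) (RR k Θ Q × Q)) (y : (RR k Θ Q × Q) × V k) :
    ∃ ω : Sp k N 3 Θ (Ξ × Q), th ω = y.1.1.1 ∧ vq l ω = y.1.1.2 ∧ vq j ω = (y.1.2, y.2) ∧
      Gm h (ex N t) ω = (nY (parT k (Ξ × Q)) B h t o).1 := by
  set o' : Om2 k N (Ξ × Q) (RR k Θ Q × Q) := ((o.1.1, Bin.ctr (parT k (Ξ × Q)) B o - B.sh y), y, o.2.2) with ho'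
  have x0 : Ξ := Classical.arbitrary Ξ
  have h0 := prj_glue hij hli hlj x0 x0 o'
  have h1 : Bin.ctr (parT k (Ξ × Q)) B o' = Bin.ctr (parT k (Ξ × Q)) B o := by
    show (0 + (Bin.ctr (parT k (Ξ × Q)) B o - B.sh y)) + B.sh y = _
    abel
  refine ⟨glue i j x0 x0 o', rfl, ?_, ?_, ?_⟩
  · have := congrArg (fun p => p.2.1.1.1.2) h0
    exact this
  · have h2 := congrArg (fun p => (p.2.1.1.2, p.2.1.2)) h0
    exact h2
  · rw [← nY_prj hij hli hlj B hB, h0]
    unfold nY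
    rw [h1]

/-- **LM1** : the third vertex is known exactly -/
theorem LM1 {i j l : Fin 3} (hij : j ≠ i) (hli : l ≠ i) (hlj : l ≠ j) (hN : N ≤ k) (h : ℕ)
    (T : Tri (Sp k N 3 Θ (Ξ × Q)) Ξ (Q × V k) (Q × V k) (Q × V k) (V k) (Θ × (V k × ℕ)) (V k))
    (hT : T = tri Θ Ξ Q hij hli hlj hN h) :
    LM T.P (fun w => (T.xi w, T.a w)) T.b T.n (fun t w => (T.c w, T.gm t w)) (fun t w => (T.c w, T.gm t w))
      (fun t x => T.ca t x.2) T.cb (fun t g => T.ρ t g.2) (fun t g => T.ρ t g.2) T.J T.near T.K := by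
  subst hT
  have r0 : RR k Θ Q := Classical.arbitrary _
  set B := parE k (RR k Θ Q) Q sR with hBd
  have hB : ∀ q, B.tau q = q.1.2.2 := fun q => rfl
  refine LM_map (prj i j l) (E_prj hij hli hlj) (LM_bin (N := N) (parT k (Ξ × Q)) B hN h) le_rfl (by positivity)
    (pow_le_pow_right₀ (by norm_num) (by omega))
    (fun x => (x.1.1, (x.1.2, x.2))) (fun y => (y.1.2, y.2))
    (fun _ g _ => ((dec (RR k Θ Q) r0 g.2).2, ((dec (RR k Θ Q) r0 g.2).1, g.1)))
    (fun _ g y => (y.1.1.2, (y.1.1.1, g.1)))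
    (fun _ => rfl) (fun _ => rfl) ?_ ?_ (fun t ω => J_prj hij hli hlj B hB t ω) ?_ ?_
  · intro t ω
    have h1 : (nX (parT k (Ξ × Q)) B h t (prj i j l ω)).2 = code (RR k Θ Q) (th ω, vq l ω) := rfl
    rw [h1, dec_code, nX_prj hij hli hlj B hB]
    rfl
  · intro t ω
    show ((vq l ω), (th ω, (nY (parT k (Ξ × Q)) B h t (prj i j l ω)).1)) = _
    rw [nY_prj hij hli hlj B hB]
    rfl
  · refine ⟨fun t ht o x0 => ?_⟩
    have hx : Ξ := Classical.arbitrary Ξ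
    have h0 := prj_glue hij hli hlj hx hx o
    refine ⟨glue i j hx hx o, flr (ex N t - (h + 3)) x0.2, ?_, ?_, ?_, ?_, ?_⟩
    · funext v
      show rho h (ex N t) (Gm h (ex N t) (glue i j hx hx o)).1 v = rho h (N - t) (nX (parT k (Ξ × Q)) B h t o).1.1 v
      rw [← nX_prj hij hli hlj B hB, h0]
      rfl
    · intro x _
      have h1 : (nX (parT k (Ξ × Q)) B h t (prj i j l (glue i j hx hx o))).2 =
          code (RR k Θ Q) (th (glue i j hx hx o), vq l (glue i j hx hx o)) := rfl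
      have h2 := nX_prj hij hli hlj B hB h t (glue i j hx hx o)
      rw [h0] at h1 h2
      show ((dec (RR k Θ Q) r0 (nX (parT k (Ξ × Q)) B h t o).2).2, ((dec (RR k Θ Q) r0
        (nX (parT k (Ξ × Q)) B h t o).2).1, (nX (parT k (Ξ × Q)) B h t o).1)) = _
      rw [h1, dec_code, h2]
      rfl
    · intro x hx'
      exact (Prod.ext_iff.mp hx').2
    · intro y hy
      exact ⟨((y.1, y.2.1), y.2.2), Prod.ext rfl hy, rfl⟩
    · intro x x' _ _ he
      have h1 := (Prod.ext_iff.mp he).1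
      have h2 := (Prod.ext_iff.mp he).2
      have h3 := (Prod.ext_iff.mp h2).1
      have h4 := (Prod.ext_iff.mp h2).2
      exact Prod.ext (Prod.ext h1 h3) h4
  · refine ⟨fun t ht o y0 => ?_⟩
    obtain ⟨ω, w1, w2, w3, w4⟩ := exists_node hij hli hlj B hB h t o y0
    refine ⟨ω, flr (ex N t - (h + 3)) y0.2, ?_, ?_, ?_, ?_, ?_⟩
    · funext v
      show rho h (ex N t) (Gm h (ex N t) ω).1 v = rho h (N - t) (nY (parT k (Ξ × Q)) B h t o).1.1 v
      rw [w4]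
      rfl
    · intro y hy
      have h1 : y.1.1 = y0.1.1 := code_inj (Prod.ext_iff.mp hy).1
      show (y.1.1.2, (y.1.1.1, (nY (parT k (Ξ × Q)) B h t o).1)) = (vq l ω, (th ω, Gm h (ex N t) ω))
      rw [h1, w1, w2, w4]
    · intro y hy
      exact (Prod.ext_iff.mp hy).2
    · intro y hy
      exact ⟨((y0.1.1, y.1), y.2), Prod.ext rfl hy, rfl⟩
    · intro y y' hy hy' he
      have h1 : y.1.1 = y0.1.1 := code_inj (Prod.ext_iff.mp hy).1
      have h1' : y'.1.1 = y0.1.1 := code_inj (Prod.ext_iff.mp hy').1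
      have h3 := (Prod.ext_iff.mp he).1
      have h4 := (Prod.ext_iff.mp he).2
      exact Prod.ext (Prod.ext (h1.trans h1'.symm) h3) h4

/-- **LM2** : populations `(xi, a)` and `(b, c)` -/
theorem LM2 {i j l : Fin 3} (hij : j ≠ i) (hli : l ≠ i) (hlj : l ≠ j) (hN : N ≤ k) (h : ℕ)
    (T : Tri (Sp k N 3 Θ (Ξ × Q)) Ξ (Q × V k) (Q × V k) (Q × V k) (V k) (Θ × (V k × ℕ)) (V k))
    (hT : T = tri Θ Ξ Q hij hli hlj hN h) :
    LM T.P (fun w => (T.xi w, T.a w)) (fun w => (T.b w, T.c w)) T.n (fun t w => (T.cb t (T.b w), T.gm t w))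
      (fun t w => T.gm t w) (fun t x => T.ca t x.2) (fun t y => (T.cb t y.1, T.cc t y.2))
      (fun t g => T.ρ t g.2) T.ρ T.J T.near T.K := by
  subst hT
  have r0 : Θ × V k := Classical.arbitrary _
  set B := parC k Θ Q Q with hBd
  have hB : ∀ q, B.tau q = q.1.2.2 := fun q => rfl
  have hil : l ≠ i := hli
  have hjl : j ≠ l := fun h => hlj h.symm
  refine LM_map (prj i l j) (E_prj hli hij hjl) (LM_bin (N := N) (parT k (Ξ × Q)) B hN h) le_rfl (by positivity)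
    (pow_le_pow_right₀ (by norm_num) (by omega))
    (fun x => (x.1.1, (x.1.2, x.2))) (fun y => (y.1.1.2, (y.1.2, y.2)))
    (fun _ g _ => ((dec (Θ × V k) r0 g.2).2, ((dec (Θ × V k) r0 g.2).1, g.1)))
    (fun _ g y => (y.1.1.1, g.1))
    (fun _ => rfl) (fun _ => rfl) ?_ ?_ (fun t ω => J_prj hli hij hjl B hB t ω) ?_ ?_
  · intro t ω
    have h1 : (nX (parT k (Ξ × Q)) B h t (prj i l j ω)).2 =
        code (Θ × V k) (th ω, flr (ex N t - (h + 3)) (vq j ω).2) := rfl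
    rw [h1, dec_code, nX_prj hli hij hjl B hB]
    rfl
  · intro t ω
    show (th ω, (nY (parT k (Ξ × Q)) B h t (prj i l j ω)).1) = _
    rw [nY_prj hli hij hjl B hB]
    rfl
  · refine ⟨fun t ht o x0 => ?_⟩
    have hx : Ξ := Classical.arbitrary Ξ
    have h0 := prj_glue hli hij hjl hx hx o
    refine ⟨glue i l hx hx o, flr (ex N t - (h + 3)) x0.2, ?_, ?_, ?_, ?_, ?_⟩
    · funext v
      show rho h (ex N t) (Gm h (ex N t) (glue i l hx hx o)).1 v = rho h (N - t) (nX (parT k (Ξ × Q)) B h t o).1.1 v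
      rw [← nX_prj hli hij hjl B hB, h0]
      rfl
    · intro x _
      have h1 : (nX (parT k (Ξ × Q)) B h t (prj i l j (glue i l hx hx o))).2 =
          code (Θ × V k) (th (glue i l hx hx o), flr (ex N t - (h + 3)) (vq j (glue i l hx hx o)).2) := rfl
      have h2 := nX_prj hli hij hjl B hB h t (glue i l hx hx o)
      rw [h0] at h1 h2
      show ((dec (Θ × V k) r0 (nX (parT k (Ξ × Q)) B h t o).2).2, ((dec (Θ × V k) r0
        (nX (parT k (Ξ × Q)) B h t o).2).1, (nX (parT k (Ξ × Q)) B h t o).1)) = _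
      rw [h1, dec_code, h2]
      rfl
    · intro x hx'
      exact (Prod.ext_iff.mp hx').2
    · intro y hy
      exact ⟨((y.1, y.2.1), y.2.2), Prod.ext rfl hy, rfl⟩
    · intro x x' _ _ he
      have h1 := (Prod.ext_iff.mp he).1
      have h2 := (Prod.ext_iff.mp he).2
      have h3 := (Prod.ext_iff.mp h2).1
      have h4 := (Prod.ext_iff.mp h2).2
      exact Prod.ext (Prod.ext h1 h3) h4
  · refine ⟨fun t ht o y0 => ?_⟩
    obtain ⟨ω, w1, w2, w3, w4⟩ := exists_node hli hij hjl B hB h t o y0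
    have hcode : ∀ y : (RR k Θ Q × Q) × V k, cX B N h t y = cX B N h t y0 →
        y.1.1.1 = y0.1.1.1 ∧ flr (ex N t - (h + 3)) y.1.1.2.2 = flr (ex N t - (h + 3)) y0.1.1.2.2 ∧
        flr (ex N t - (h + 3)) y.2 = flr (ex N t - (h + 3)) y0.2 := by
      intro y hy
      have h1 := (Prod.ext_iff.mp hy).1
      have h2 := (Prod.ext_iff.mp hy).2
      have h3 := Prod.mk.inj (code_inj (R := Θ × V k) h1)
      exact ⟨h3.1, h3.2, h2⟩
    refine ⟨ω, (flr (ex N t - (h + 3)) y0.1.1.2.2, flr (ex N t - (h + 3)) y0.2), ?_, ?_, ?_, ?_, ?_⟩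
    · funext v
      show rho h (ex N t) (Gm h (ex N t) ω).1 v = rho h (N - t) (nY (parT k (Ξ × Q)) B h t o).1.1 v
      rw [w4]
      rfl
    · intro y hy
      obtain ⟨h1, -, -⟩ := hcode y hy
      show (y.1.1.1, (nY (parT k (Ξ × Q)) B h t o).1) = (th ω, Gm h (ex N t) ω)
      rw [h1, w1, w4]
    · intro y hy
      obtain ⟨-, h2, h3⟩ := hcode y hy
      exact Prod.ext h2 h3
    · intro y hy
      have h1 := (Prod.ext_iff.mp hy).1
      have h2 := (Prod.ext_iff.mp hy).2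
      refine ⟨(((y0.1.1.1, y.1), y.2.1), y.2.2), Prod.ext ?_ h2, rfl⟩
      show code (Θ × V k) (y0.1.1.1, flr (ex N t - (h + 3)) y.1.2) =
        code (Θ × V k) (y0.1.1.1, flr (ex N t - (h + 3)) y0.1.1.2.2)
      exact congrArg (fun v => code (Θ × V k) (y0.1.1.1, v)) h1
    · intro y y' hy hy' he
      obtain ⟨h1, -, -⟩ := hcode y hy
      obtain ⟨h1', -, -⟩ := hcode y' hy'
      have h2 := (Prod.ext_iff.mp he).1
      have h3 := (Prod.ext_iff.mp (Prod.ext_iff.mp he).2).1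
      have h4 := (Prod.ext_iff.mp (Prod.ext_iff.mp he).2).2
      exact Prod.ext (Prod.ext (Prod.ext (h1.trans h1'.symm) h2) h3) h4

end

end Pool.Agent.M3.Mod
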