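import Pool.Agent.M3.S2.Opt
import Pool.Agent.M3.S2.Gen
import Pool.Agent.M3.RdNum
import Pool.Agent.M3.RdO

/-!
# M3/S2/Lab : from a label of section 2 to the extended labels of section 2B (helper52)

`lb t` a label, `K` the known coordinates (`(xi, a, b)` or `(xi, a, c)`), `lb t` a function of `(K, gm t)`.
* `nodeL` = the label as a function of the node and of `K`; `xlab t w i` = value at the option `i` (stable order) and the
  flip bit; `plab` = the label and the flip bit; `xix` = number of the true option;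
* `xlab_fac`, `plab_eq`, `plab_stay`, `xix_fac`; `xlab_count_ab`, `xlab_count_ac` : number of changes;
* **`xlab_len_ab`, `xlab_len_ac`** : number of values along the public path (`rlst`), from a finset which contains the label
  at the points `clb Q t w0`, `clc Q t w0`.
-/

set_option autoImplicit false
set_option linter.unusedSectionVars false

namespace Pool.Agent.M3.S2

open Finset Pool.Agent.PWZ Pool.Agent.M3.TS

noncomputable section

variable {Om Ξ A B C V Γ κ : Type} [Fintype Om] [Fintype Ξ] [Fintype A] [Fintype B]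
    [Fintype C] [Fintype V] {υ : ℕ → Type}

/-- a label as a function of the node and of the known coordinates -/
def nodeL (T : Tri Om Ξ A B C V Γ κ) {𝒦 L : Type} (K : Om → 𝒦) (lb : ℕ → Om → L) (d : L) (t : ℕ) (g : Γ) (y : 𝒦) :
    L := lft d (fun w => (K w, T.gm t w)) (lb t) (y, g)

/-- value at the option `i` (stable order), flip bit -/
def xlab (T : Tri Om Ξ A B C V Γ κ) (Q : ∀ t, Om → υ t) (dg : Γ) {𝒦 L : Type} (K : Om → 𝒦) (lb : ℕ → Om → L) (d : L)
    (t : ℕ) (w : Om) (i : Bool) : L × Bool :=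
  (cpt i (ext T.par (opA Q T.gm dg) (opB Q T.gm dg) (nodeL T K lb d) K t w),
    fb T.par (opA Q T.gm dg) (opB Q T.gm dg) (nodeL T K lb d) K t w)

/-- the label, flip bit -/
def plab (T : Tri Om Ξ A B C V Γ κ) (Q : ∀ t, Om → υ t) (dg : Γ) {𝒦 L : Type} (K : Om → 𝒦) (lb : ℕ → Om → L) (d : L)
    (t : ℕ) (w : Om) : L × Bool :=
  (lb t w, fb T.par (opA Q T.gm dg) (opB Q T.gm dg) (nodeL T K lb d) K t w)

/-- number of the true option -/
def xix (T : Tri Om Ξ A B C V Γ κ) (Q : ∀ t, Om → υ t) (dg : Γ) (t : ℕ) (w : Om) : Bool :=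
  ix T.par T.gm (opA Q T.gm dg) (opB Q T.gm dg) t w

variable {T : Tri Om Ξ A B C V Γ κ} {Q : ∀ t, Om → υ t} {dg : Γ} {𝒦 L : Type} {K : Om → 𝒦} {lb : ℕ → Om → L} {d : L}

theorem nodeL_eq {t : ℕ} (h : Fac (fun w => (K w, T.gm t w)) (lb t)) (w : Om) :
    nodeL T K lb d t (T.gm t w) (K w) = lb t w := by
  unfold nodeL
  exact lft_eq h w

theorem OPT_eq (t : ℕ) (w : Om) : M3.OPT Q T.gm t w = T.OPT Q t w := by
  ext g
  rw [M3.mem_OPT, Tri.mem_OPT]

section H

variable (hP : Pubn T Q)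
include hP

theorem Pubn.opts : Opts Q T.par T.gm (opA Q T.gm dg) (opB Q T.gm dg) :=
  opts_of_card hP.filt T.par_gm (fun t w => by rw [OPT_eq]; exact hP.two t w) dg

theorem xlab_fac (t : ℕ) : Fac (fun w => (K w, Q t w)) (xlab T Q dg K lb d t) := by
  intro v w hv
  have h1 := ext_fac (hP.opts (dg := dg)) (x := nodeL T K lb d) (K := K) t v w hv
  funext i
  unfold xlab
  rw [h1]
  exact Prod.ext rfl (congrArg (fun v => v.2.2) h1)

theorem fb_fac (t : ℕ) : Fac (fun w => (K w, Q t w))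
    (fb T.par (opA Q T.gm dg) (opB Q T.gm dg) (nodeL T K lb d) K t) := by
  intro v w hv
  exact congrArg (fun v => v.2.2) (ext_fac (hP.opts (dg := dg)) (x := nodeL T K lb d) (K := K) t v w hv)

theorem xix_fac {ι : Type*} {Y : Om → ι} {t : ℕ} (h1 : Fac Y (Q t)) (h2 : Fac Y (T.gm t)) :
    Fac Y (xix T Q dg t) := ix_fac (hP.opts (dg := dg)) h1 h2

/-- the plain label is the component of the true option -/
theorem plab_eq (hlb : ∀ t, Fac (fun w => (K w, T.gm t w)) (lb t)) (t : ℕ) (w : Om) :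
    plab T Q dg K lb d t w = xlab T Q dg K lb d t w (xix T Q dg t w) := by
  unfold plab xlab xix
  refine Prod.ext ?_ rfl
  have h := plain_eq (hP.opts (dg := dg)) (x := nodeL T K lb d) (K := K) t w
  show lb t w = _
  rw [← h]
  unfold pln
  rw [nodeL_eq (hlb t)]

theorem xlab_ext {t : ℕ} {w : Om} (h : xlab T Q dg K lb d (t + 1) w = xlab T Q dg K lb d t w) :
    ext T.par (opA Q T.gm dg) (opB Q T.gm dg) (nodeL T K lb d) K (t + 1) w =
      ext T.par (opA Q T.gm dg) (opB Q T.gm dg) (nodeL T K lb d) K t w := by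
  have h1 := congrFun h true
  have h2 := congrFun h false
  unfold xlab at h1 h2
  rw [Prod.ext_iff] at h1 h2
  obtain ⟨a1, a2⟩ := h1
  obtain ⟨b1, -⟩ := h2
  exact Prod.ext a1 (Prod.ext b1 a2)

/-- the plain label changes only if the extended label changes -/
theorem plab_stay (hlb : ∀ t, Fac (fun w => (K w, T.gm t w)) (lb t)) {t : ℕ} {w : Om}
    (h : xlab T Q dg K lb d (t + 1) w = xlab T Q dg K lb d t w) :
    plab T Q dg K lb d (t + 1) w = plab T Q dg K lb d t w := by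
  have h1 := xlab_ext hP h
  have h2 := cmp (hP.opts (dg := dg)) h1
  unfold pln at h2
  rw [nodeL_eq (hlb (t + 1)), nodeL_eq (hlb t)] at h2
  exact Prod.ext h2 (congrArg (fun v => v.2.2) h1)

/-- number of changes, from the option count -/
theorem xlab_count (hlb : ∀ t, Fac (fun w => (K w, T.gm t w)) (lb t)) (n : ℕ)
    (hcount : ∀ t < n, T.P.E (fun w => ∑ g ∈ T.OPT Q (t + 1) w,
        ind (nodeL T K lb d (t + 1) g (K w) ≠ nodeL T K lb d t (T.par t g) (K w))) ≤
      2 * T.P.E (fun w => ind (nodeL T K lb d (t + 1) (T.gm (t + 1) w) (K w) ≠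
        nodeL T K lb d t (T.par t (T.gm (t + 1) w)) (K w)))) :
    ∑ t ∈ range n, T.P.Pr (fun w => xlab T Q dg K lb d (t + 1) w ≠ xlab T Q dg K lb d t w) ≤
      4 * ∑ t ∈ range n, T.P.Pr (fun w => lb (t + 1) w ≠ lb t w) + 1 := by
  have h1 := E_ext_count (x := nodeL T K lb d) (K := K) T.P hP.filt T.par_gm
    (fun t w => by rw [OPT_eq]; exact hP.two t w) dg n (fun t ht => by
      have h2 := hcount t ht
      simp only [OPT_eq]
      exact h2)
  refine le_trans (Finset.sum_le_sum fun t _ => T.P.Pr_mono fun w _ h => ?_) (h1.trans (le_of_eq ?_))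
  · intro h2
    refine h (funext fun i => ?_)
    unfold xlab
    rw [h2]
    exact Prod.ext rfl (congrArg (fun v => v.2.2) h2)
  · congr 2
    refine Finset.sum_congr rfl fun t _ => T.P.Pr_congr fun w _ => ?_
    unfold pln
    rw [nodeL_eq (hlb (t + 1)), nodeL_eq (hlb t)]

end H

/-! ### the pairs `(a, b)` and `(a, c)` -/

theorem xlab_count_ab (hP : Pubn T Q) {lb : ℕ → Om → L}
    (hlb : ∀ t, Fac (fun w => ((T.xi w, T.a w, T.b w), T.gm t w)) (lb t)) (n : ℕ) :
    ∑ t ∈ range n, T.P.Pr (fun w => xlab T Q dg (fun w => (T.xi w, T.a w, T.b w)) lb d (t + 1) w ≠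
        xlab T Q dg (fun w => (T.xi w, T.a w, T.b w)) lb d t w) ≤
      4 * ∑ t ∈ range n, T.P.Pr (fun w => lb (t + 1) w ≠ lb t w) + 1 := by
  refine xlab_count hP hlb n fun t _ => ?_
  exact hP.E_opt_ab (t + 1) (fun x a b g => ind (nodeL T (fun w => (T.xi w, T.a w, T.b w)) lb d (t + 1) g (x, a, b) ≠
    nodeL T (fun w => (T.xi w, T.a w, T.b w)) lb d t (T.par t g) (x, a, b))) (fun _ _ _ _ => ind_nonneg _)

theorem xlab_count_ac (hP : Pubn T Q) {lb : ℕ → Om → L}
    (hlb : ∀ t, Fac (fun w => ((T.xi w, T.a w, T.c w), T.gm t w)) (lb t)) (n : ℕ) :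
    ∑ t ∈ range n, T.P.Pr (fun w => xlab T Q dg (fun w => (T.xi w, T.a w, T.c w)) lb d (t + 1) w ≠
        xlab T Q dg (fun w => (T.xi w, T.a w, T.c w)) lb d t w) ≤
      4 * ∑ t ∈ range n, T.P.Pr (fun w => lb (t + 1) w ≠ lb t w) + 1 := by
  refine xlab_count hP hlb n fun t _ => ?_
  exact hP.E_opt_ac (t + 1) (fun x a b g => ind (nodeL T (fun w => (T.xi w, T.a w, T.c w)) lb d (t + 1) g (x, a, b) ≠
    nodeL T (fun w => (T.xi w, T.a w, T.c w)) lb d t (T.par t g) (x, a, b))) (fun _ _ _ _ => ind_nonneg _)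

/-- a realised node has positive probability -/
theorem node_pos (t : ℕ) (v : Om) : 0 < T.P.Pr (fun w => T.gm t w = T.gm t v) := by
  classical
  unfold FP.Pr
  refine lt_of_lt_of_le (lt_of_le_of_ne (T.P.nn v) (Ne.symm (T.ppos v))) ?_
  unfold FP.E
  refine le_trans (le_of_eq ?_) (Finset.single_le_sum (f := fun w => T.P.p w * ind (T.gm t w = T.gm t v))
    (fun w _ => mul_nonneg (T.P.nn w) (ind_nonneg _)) (Finset.mem_univ v))
  show T.P.p v = T.P.p v * ind (T.gm t v = T.gm t v)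
  rw [ind_of rfl, mul_one]

private theorem ex_of_pos {p : Om → Prop} (h : 0 < T.P.Pr p) : ∃ w, p w := by
  by_contra hno
  push Not at hno
  have h1 : T.P.Pr p ≤ T.P.E (fun _ => 0) := T.P.E_mono fun w _ => by rw [ind_not (hno w)]
  rw [T.P.E_const] at h1
  linarith

/-- every pair `(a, b)` is realised at every realised node -/
theorem real_ab (t : ℕ) (u v : Om) (b0 : Om) :
    ∃ w, T.xi w = T.xi u ∧ T.a w = T.a u ∧ T.b w = T.b b0 ∧ T.gm t w = T.gm t v := by
  refine ex_of_pos (T := T) ?_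
  rw [T.iab]
  have h1 : 0 < Fintype.card Ξ := Fintype.card_pos_iff.2 ⟨T.xi u⟩
  have h2 : 0 < Fintype.card A := Fintype.card_pos_iff.2 ⟨T.a u⟩
  have h3 : 0 < Fintype.card B := Fintype.card_pos_iff.2 ⟨T.b u⟩
  have h4 := node_pos (T := T) t v
  positivity

/-- every pair `(a, c)` is realised at every realised node -/
theorem real_ac (t : ℕ) (u v : Om) (c0 : Om) :
    ∃ w, T.xi w = T.xi u ∧ T.a w = T.a u ∧ T.c w = T.c c0 ∧ T.gm t w = T.gm t v := by
  refine ex_of_pos (T := T) ?_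
  rw [T.iac]
  have h1 : 0 < Fintype.card Ξ := Fintype.card_pos_iff.2 ⟨T.xi u⟩
  have h2 : 0 < Fintype.card A := Fintype.card_pos_iff.2 ⟨T.a u⟩
  have h3 : 0 < Fintype.card C := Fintype.card_pos_iff.2 ⟨T.c u⟩
  have h4 := node_pos (T := T) t v
  positivity

/-- the component is the value at a realised option -/
theorem xlab_opt (hP : Pubn T Q) (t : ℕ) (w : Om) (i : Bool) :
    ∃ g ∈ T.OPT Q t w, (xlab T Q dg K lb d t w i).1 = nodeL T K lb d t g (K w) := by
  have hs : ∀ g, g ∈ M3.OPT Q T.gm t w ↔ g = opA Q T.gm dg t w ∨ g = opB Q T.gm dg t w := fun g =>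
    en_spec ⟨_, gm_OPT t w⟩ (by rw [OPT_eq]; exact hP.two t w) dg g
  have hA : opA Q T.gm dg t w ∈ T.OPT Q t w := by rw [← OPT_eq]; exact (hs _).2 (Or.inl rfl)
  have hB : opB Q T.gm dg t w ∈ T.OPT Q t w := by rw [← OPT_eq]; exact (hs _).2 (Or.inr rfl)
  have hst : (st T.par (opA Q T.gm dg) (opB Q T.gm dg) t w).1 ∈ T.OPT Q t w ∧
      (st T.par (opA Q T.gm dg) (opB Q T.gm dg) t w).2 ∈ T.OPT Q t w := by
    rcases st_or (par := T.par) (o0 := opA Q T.gm dg) (o1 := opB Q T.gm dg) t w with h | h <;> rw [h]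
    · exact ⟨hA, hB⟩
    · exact ⟨hB, hA⟩
  cases i with
  | true => exact ⟨_, hst.1, rfl⟩
  | false => exact ⟨_, hst.2, rfl⟩

/-- **number of values of the extended label of `(a, b)`** along the public path -/
theorem xlab_len_ab (hP : Pubn T Q) {lb : ℕ → Om → L}
    (hlb : ∀ t, Fac (fun w => ((T.xi w, T.a w, T.b w), T.gm t w)) (lb t)) {ι : ℕ → Type*} {Y : ∀ t, Om → ι t}
    (hY : ∀ t v w, Y t v = Y t w → T.b v = T.b w ∧ Q t v = Q t w) {n : ℕ} {w0 : Om} {f : Finset L}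
    (hf : ∀ t ≤ n, ∀ w, T.clb Q t w0 w → lb t w ∈ f) :
    (rlst (tw Y) (cp (xlab T Q dg (fun w => (T.xi w, T.a w, T.b w)) lb d)) n (w0, false)).length ≤ 2 * f.card := by
  classical
  have h1 : (f ×ˢ (univ : Finset Bool)).card = 2 * f.card := by
    rw [Finset.card_product, Finset.card_univ, Fintype.card_bool, mul_comm]
  rw [← h1]
  refine rlst_length_le fun t ht p hp => ?_
  obtain ⟨w', i⟩ := p
  obtain ⟨hb, hQ⟩ := hY t w' w0 hp
  refine Finset.mem_product.2 ⟨?_, Finset.mem_univ _⟩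
  obtain ⟨g, hg, hv⟩ := xlab_opt (dg := dg) (K := fun w => (T.xi w, T.a w, T.b w)) (lb := lb) (d := d) hP t w' i
  show (xlab T Q dg (fun w => (T.xi w, T.a w, T.b w)) lb d t w' i).1 ∈ f
  rw [hv]
  obtain ⟨v, hv1, hv2⟩ := Tri.mem_OPT.1 hg
  obtain ⟨w, e1, e2, e3, e4⟩ := real_ab (T := T) t w' v w'
  have h2 : ((T.xi w', T.a w', T.b w') : Ξ × A × B) = (T.xi w, T.a w, T.b w) := by rw [e1, e2, e3]
  have h3 : g = T.gm t w := by rw [e4, hv2]
  show nodeL T (fun w => (T.xi w, T.a w, T.b w)) lb d t g (T.xi w', T.a w', T.b w') ∈ f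
  rw [h2, h3, nodeL_eq (K := fun w => (T.xi w, T.a w, T.b w)) (hlb t)]
  refine hf t ht w ⟨by rw [e3, hb], ?_, w', hQ, e1.symm, e2.symm⟩
  rw [e4]
  exact Tri.mem_OPT.2 ⟨v, hv1.trans hQ, rfl⟩

/-- **number of values of the extended label of `(a, c)`** along the public path -/
theorem xlab_len_ac (hP : Pubn T Q) {lb : ℕ → Om → L}
    (hlb : ∀ t, Fac (fun w => ((T.xi w, T.a w, T.c w), T.gm t w)) (lb t)) {ι : ℕ → Type*} {Y : ∀ t, Om → ι t}
    (hY : ∀ t v w, Y t v = Y t w → T.c v = T.c w ∧ Q t v = Q t w) {n : ℕ} {w0 : Om} {f : Finset L}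
    (hf : ∀ t ≤ n, ∀ w, T.clc Q t w0 w → lb t w ∈ f) :
    (rlst (tw Y) (cp (xlab T Q dg (fun w => (T.xi w, T.a w, T.c w)) lb d)) n (w0, false)).length ≤ 2 * f.card := by
  classical
  have h1 : (f ×ˢ (univ : Finset Bool)).card = 2 * f.card := by
    rw [Finset.card_product, Finset.card_univ, Fintype.card_bool, mul_comm]
  rw [← h1]
  refine rlst_length_le fun t ht p hp => ?_
  obtain ⟨w', i⟩ := p
  obtain ⟨hb, hQ⟩ := hY t w' w0 hp
  refine Finset.mem_product.2 ⟨?_, Finset.mem_univ _⟩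
  obtain ⟨g, hg, hv⟩ := xlab_opt (dg := dg) (K := fun w => (T.xi w, T.a w, T.c w)) (lb := lb) (d := d) hP t w' i
  show (xlab T Q dg (fun w => (T.xi w, T.a w, T.c w)) lb d t w' i).1 ∈ f
  rw [hv]
  obtain ⟨v, hv1, hv2⟩ := Tri.mem_OPT.1 hg
  obtain ⟨w, e1, e2, e3, e4⟩ := real_ac (T := T) t w' v w'
  have h2 : ((T.xi w', T.a w', T.c w') : Ξ × A × C) = (T.xi w, T.a w, T.c w) := by rw [e1, e2, e3]
  have h3 : g = T.gm t w := by rw [e4, hv2]
  show nodeL T (fun w => (T.xi w, T.a w, T.c w)) lb d t g (T.xi w', T.a w', T.c w') ∈ f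
  rw [h2, h3, nodeL_eq (K := fun w => (T.xi w, T.a w, T.c w)) (hlb t)]
  refine hf t ht w ⟨by rw [e3, hb], ?_, w', hQ, e1.symm, e2.symm⟩
  rw [e4]
  exact Tri.mem_OPT.2 ⟨v, hv1.trans hQ, rfl⟩

/-- no overflow -/
theorem xlab_ovf {ι : ℕ → Type*} {Y : ∀ t, Om → ι t} {x : ℕ → Om → Bool → L × Bool} {n M c : ℕ} {w0 : Om}
    (h : (rlst (tw Y) (cp x) n (w0, false)).length ≤ c) (hM : c ≤ M) : ¬ ovf (tw Y) (cp x) M n (w0, false) :=
  not_lt.2 (h.trans hM)

end

end Pool.Agent.M3.S2
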