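import Pool.Agent.M3.S2.Half1

/-!
# M3/S2/Num : the choice of the constants of section 2 (helper44)

Sizes: `Λ, p0 ≤ 2^z`, `Ms ≤ 2^(2^z)`, error and failure probability `2^-z`.  Polynomial sizes are powers `2^(a z + b)`:
`η1 = 2^-(2z+13)`, `n2 = 2^(6z+33)`, rounding `h1 = 6z+38` (`near1 = 8/2^h1`, `K1 = 2^(h1+5)`), `R0 = 2^(6z+34)`,
`nN = 2^(21z+128)`, `η2 = 2^-(6z+33)`, `n4 = 2^(35z+202)`, rounding `h2 = 35z+207` (`near2 = 8/2^h2`, `K2 = 2^(h2+5)`).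
Large sizes: `Mc = 2^mu`, `ε = 2^-..`, `M = 2^..`, `Nw ≤ 2^W`.
-/

set_option autoImplicit false
set_option linter.unusedSectionVars false

namespace Pool.Agent.M3.S2

open Finset Pool.Agent.PWZ Pool.Agent.M3.TS

namespace Num

/-! ### calculus of powers of two -/

theorem pow_pos2 (n : ℕ) : (0 : ℝ) < 2 ^ n := by positivity

theorem le2 {m n : ℕ} (h : m ≤ n) : (2 : ℝ) ^ m ≤ 2 ^ n := pow_le_pow_right₀ (by norm_num) h

theorem mul2 {A B : ℝ} {m n : ℕ} (hB0 : 0 ≤ B) (hA : A ≤ 2 ^ m) (hB : B ≤ 2 ^ n) : A * B ≤ 2 ^ (m + n) := by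
  rw [pow_add]
  exact mul_le_mul hA hB hB0 (by positivity)

theorem mul2' {A B : ℝ} {m n l : ℕ} (hB0 : 0 ≤ B) (hA : A ≤ 2 ^ m) (hB : B ≤ 2 ^ n) (h : m + n ≤ l) :
    A * B ≤ 2 ^ l := (mul2 hB0 hA hB).trans (le2 h)

theorem add2 {A B : ℝ} {m n l : ℕ} (hA : A ≤ 2 ^ m) (hB : B ≤ 2 ^ n) (hm : m + 1 ≤ l) (hn : n + 1 ≤ l) :
    A + B ≤ 2 ^ l := by
  have h1 := le2 hm
  have h2 := le2 hn
  rw [pow_succ] at h1 h2
  linarith

theorem div2 {A B : ℝ} {m n c : ℕ} (hA : A ≤ 2 ^ m) (hB : 2 ^ n ≤ B) (h : m + c ≤ n) : A / B ≤ (1 / 2) ^ c := by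
  have hB0 : 0 < B := lt_of_lt_of_le (by positivity) hB
  rw [div_le_iff₀ hB0]
  have h1 : (1 / 2 : ℝ) ^ c * 2 ^ n ≤ (1 / 2) ^ c * B := mul_le_mul_of_nonneg_left hB (by positivity)
  refine le_trans ?_ h1
  have h2 : (1 / 2 : ℝ) ^ c * 2 ^ n = 2 ^ (n - c) := by
    have h3 : (2 : ℝ) ^ n = 2 ^ (n - c) * 2 ^ c := by rw [← pow_add]; congr 1; omega
    rw [h3, one_div, inv_pow]
    field_simp
  rw [h2]
  exact hA.trans (le2 (by omega))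

theorem inv2 (n : ℕ) : ((1 / 2 : ℝ) ^ n)⁻¹ = 2 ^ n := by
  rw [one_div, inv_pow, inv_inv]

theorem half_pow_le {m n : ℕ} (h : m ≤ n) : (1 / 2 : ℝ) ^ n ≤ (1 / 2) ^ m :=
  pow_le_pow_of_le_one (by norm_num) (by norm_num) h

theorem half_two (m n : ℕ) : (1 / 2 : ℝ) ^ (m + n) * 2 ^ m = (1 / 2) ^ n := by
  rw [pow_add, one_div, inv_pow, inv_pow]
  field_simp

/-- `ε (1 + log (K/ε)) ≤ 2 √(ε K)` for powers of two -/
theorem eps_log (E c : ℕ) :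
    (1 / 2 : ℝ) ^ (2 * E + c) * (1 + Real.log (2 ^ c / (1 / 2) ^ (2 * E + c))) ≤ 2 * (1 / 2) ^ E := by
  have h1 : (2 : ℝ) ^ c / (1 / 2) ^ (2 * E + c) = 2 ^ (2 * E + 2 * c) := by
    rw [div_eq_mul_inv, inv2, ← pow_add]
    congr 1
    omega
  rw [h1, Real.log_pow]
  have h2 : Real.log 2 ≤ 1 := by
    have := Real.log_two_lt_d9
    linarith
  have h3 : (((2 * E + 2 * c : ℕ) : ℝ)) * Real.log 2 ≤ ((2 * E + 2 * c : ℕ) : ℝ) * 1 :=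
    mul_le_mul_of_nonneg_left h2 (Nat.cast_nonneg _)
  have h4 : (1 : ℝ) + ((2 * E + 2 * c : ℕ) : ℝ) ≤ 2 * 2 ^ (E + c) := by
    have h5 : ∀ n : ℕ, (n : ℝ) + 1 ≤ 2 ^ n := fun n => by
      have := Nat.lt_two_pow_self (n := n)
      exact_mod_cast this
    have h6 := h5 (E + c)
    push_cast at h6 ⊢
    linarith
  have h7 : (1 / 2 : ℝ) ^ (2 * E + c) * (2 * 2 ^ (E + c)) = 2 * (1 / 2) ^ E := by
    have h8 : 2 * E + c = (E + c) + E := by omega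
    rw [h8]
    have h9 := half_two (E + c) E
    calc (1 / 2 : ℝ) ^ (E + c + E) * (2 * 2 ^ (E + c)) = 2 * ((1 / 2 : ℝ) ^ (E + c + E) * 2 ^ (E + c)) := by ring
      _ = _ := by rw [h9]
  rw [← h7]
  refine mul_le_mul_of_nonneg_left ?_ (by positivity)
  linarith

/-! ### the constants -/

/-- accuracy of stage 1 -/
noncomputable def eta1 (z : ℕ) : ℝ := (1 / 2) ^ (2 * z + 13)
/-- cap of the histories -/
def n2 (z : ℕ) : ℕ := 2 ^ (6 * z + 33)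
/-- rounding of stage 1 -/
def h1 (z : ℕ) : ℕ := 6 * z + 38
/-- accuracy of the names of stage 1 -/
noncomputable def etap (z : ℕ) : ℝ := (1 / 2) ^ (6 * z + 32)
noncomputable def R0 (z : ℕ) : ℝ := 2 ^ (6 * z + 34)
def j1 (z : ℕ) : ℕ := 2 ^ z + 7 * z + 48
noncomputable def nN (z : ℕ) : ℝ := 2 ^ (21 * z + 128)
def mu (z : ℕ) : ℕ := 2 ^ z + 13 * z + 92
noncomputable def Mc (z : ℕ) : ℝ := 2 ^ mu z
/-- exponent of the thickness of stage 1 -/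
def E1 (z : ℕ) : ℕ := 2 ^ z + 44 * z + 281
noncomputable def eps (z : ℕ) : ℝ := (1 / 2) ^ (2 * E1 z + (6 * z + 43))
noncomputable def epsp (z : ℕ) : ℝ := (1 / 2) ^ (2 * E1 z + (6 * z + 43) + 1)
/-- cap of the births of stage 1 -/
def n1 (z : ℕ) : ℕ := (j1 z + 1) * 2 ^ (13 * z + 73)
def mexp (z : ℕ) : ℕ := 2 * E1 z + 2 ^ z + 38 * z + 249
def M (z : ℕ) : ℕ := 2 ^ mexp z
def Nw (z : ℕ) : ℕ := 2 * (M z + 1) ^ n1 z + M z
def W (z : ℕ) : ℕ := (mexp z + 1) * n1 z + 2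

theorem eta1_pos (z : ℕ) : 0 < eta1 z := by unfold eta1; positivity
theorem etap_pos (z : ℕ) : 0 < etap z := by unfold etap; positivity
theorem R0_pos (z : ℕ) : 0 < R0 z := by unfold R0; positivity
theorem eps_pos (z : ℕ) : 0 < eps z := by unfold eps; positivity
theorem epsp_pos (z : ℕ) : 0 < epsp z := by unfold epsp; positivity
theorem nN_pos (z : ℕ) : 0 < nN z := by unfold nN; positivity
theorem Mc_pos (z : ℕ) : 0 < Mc z := by unfold Mc; positivity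

theorem two_div_sq (n : ℕ) : 2 / ((1 / 2 : ℝ) ^ n) ^ 2 = 2 ^ (2 * n + 1) := by
  rw [div_eq_mul_inv, ← inv_pow, inv2, ← pow_mul, pow_succ, mul_comm n 2]
  ring

theorem one_div_sq (n : ℕ) : 1 / ((1 / 2 : ℝ) ^ n) ^ 2 = 2 ^ (2 * n) := by
  rw [one_div, ← inv_pow, inv2, ← pow_mul, mul_comm n 2]

theorem n2_eta (z : ℕ) : (n2 z : ℝ) * eta1 z = 2 ^ (4 * z + 20) := by
  unfold n2 eta1
  push_cast
  have h : 6 * z + 33 = (2 * z + 13) + (4 * z + 20) := by omega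
  rw [h, pow_add, one_div, inv_pow]
  field_simp

/-- `X` -/
theorem X_le (z : ℕ) : 1 + (n2 z : ℝ) * eta1 z ≤ 2 ^ (4 * z + 21) := by
  rw [n2_eta]
  have h1 : (1 : ℝ) ≤ 2 ^ 0 := by norm_num
  exact add2 h1 le_rfl (by omega) (by omega)

theorem X_ge (z : ℕ) : 1 ≤ 1 + (n2 z : ℝ) * eta1 z := by
  rw [n2_eta]
  have := pow_pos2 (4 * z + 20)
  linarith

/-- lower bound of `c η / X` -/
theorem etaX {e x c l : ℕ} {X : ℝ} (hX0 : 0 < X) (hX : X ≤ 2 ^ x) (h : e + x ≤ l + c) :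
    (1 / 2 : ℝ) ^ l ≤ 2 ^ c * (1 / 2) ^ e / X := by
  rw [le_div_iff₀ hX0]
  have h1 : (1 / 2 : ℝ) ^ l * X ≤ (1 / 2) ^ l * 2 ^ x := mul_le_mul_of_nonneg_left hX (by positivity)
  refine h1.trans ?_
  have h2 : (1 / 2 : ℝ) ^ l * 2 ^ x * 2 ^ e ≤ 2 ^ c * (1 / 2) ^ e * 2 ^ e := by
    have h3 : (2 : ℝ) ^ c * (1 / 2) ^ e * 2 ^ e = 2 ^ c := by
      rw [one_div, inv_pow]
      field_simp
    rw [h3, mul_assoc, ← pow_add]
    have h4 : (2 : ℝ) ^ (x + e) ≤ 2 ^ (l + c) := le2 (by omega)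
    calc (1 / 2 : ℝ) ^ l * 2 ^ (x + e) ≤ (1 / 2) ^ l * 2 ^ (l + c) := mul_le_mul_of_nonneg_left h4 (by positivity)
      _ = 2 ^ c := by
        rw [pow_add, one_div, inv_pow]
        field_simp
  exact le_of_mul_le_mul_right h2 (by positivity)

theorem n2_cast (z : ℕ) : (n2 z : ℝ) = 2 ^ (6 * z + 33) := by
  unfold n2
  push_cast
  rfl

theorem M_cast (z : ℕ) : (M z : ℝ) = 2 ^ mexp z := by
  unfold M
  push_cast
  rfl

theorem E1_eq (z : ℕ) : E1 z = 2 ^ z + 44 * z + 281 := rfl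
theorem mexp_eq (z : ℕ) : mexp z = 2 * E1 z + 2 ^ z + 38 * z + 249 := rfl
theorem j1_eq (z : ℕ) : j1 z = 2 ^ z + 7 * z + 48 := rfl
theorem mu_eq (z : ℕ) : mu z = 2 ^ z + 13 * z + 92 := rfl
theorem n1_eq (z : ℕ) : n1 z = (j1 z + 1) * 2 ^ (13 * z + 73) := rfl
theorem W_eq (z : ℕ) : W z = (mexp z + 1) * n1 z + 2 := rfl
theorem Nw_eq (z : ℕ) : Nw z = 2 * (M z + 1) ^ n1 z + M z := rfl
theorem eta1_eq (z : ℕ) : eta1 z = (1 / 2) ^ (2 * z + 13) := rfl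
theorem etap_eq (z : ℕ) : etap z = (1 / 2) ^ (6 * z + 32) := rfl
theorem eps_eq (z : ℕ) : eps z = (1 / 2) ^ (2 * E1 z + (6 * z + 43)) := rfl
theorem epsp_eq (z : ℕ) : epsp z = (1 / 2) ^ (2 * E1 z + (6 * z + 43) + 1) := rfl
theorem R0_eq (z : ℕ) : R0 z = 2 ^ (6 * z + 34) := rfl
theorem nN_eq (z : ℕ) : nN z = 2 ^ (21 * z + 128) := rfl
theorem Mc_eq (z : ℕ) : Mc z = 2 ^ mu z := rfl

attribute [irreducible] n2 M E1 mexp j1 mu n1 W Nw eta1 etap eps epsp R0 nN Mc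

end Num

noncomputable section

variable {Om A B C V Γ κ S : Type} [Fintype Om] [Fintype A] [Fintype B] [Fintype C] [Fintype V]
  [Fintype S] [DecidableEq S] {m : ℕ} {T : Tri Om (S → Fin m) A B C V Γ κ}

namespace Inp

open Pool.Agent.M3.S2.Num

variable (I : Inp T S)

/-- the sizes of the input -/
structure Small (z : ℕ) : Prop where
  lam : I.Λ ≤ 2 ^ z
  p : I.p0 ≤ 2 ^ z
  ms : I.Ms ≤ 2 ^ (2 ^ z)

variable {I} {z : ℕ}

theorem p1_le (h : I.Small z) : 1 + I.p0 ≤ 2 ^ (z + 1) := by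
  have h1 : (1 : ℝ) ≤ 2 ^ 0 := by norm_num
  exact add2 h1 h.p (by omega) (by omega)

theorem p2_le (h : I.Small z) : I.p0 + 2 ≤ 2 ^ (z + 2) := by
  have h1 : (2 : ℝ) ≤ 2 ^ 1 := by norm_num
  exact add2 h.p h1 (by omega) (by omega)

theorem p3_le (h : I.Small z) : I.p0 + 3 ≤ 2 ^ (z + 2) := by
  have h1 := h.p
  have h2 : (1 : ℝ) ≤ 2 ^ z := one_le_pow₀ (by norm_num)
  rw [pow_add]
  norm_num
  linarith

theorem upd_le (h : I.Small z) : 2 / eta1 z ^ 2 * (1 + I.p0) ≤ 2 ^ (5 * z + 28) := by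
  rw [eta1_eq, two_div_sq]
  have hp := I.p01
  exact mul2' (by linarith) (le_refl ((2 : ℝ) ^ (2 * (2 * z + 13) + 1))) (p1_le h) (by omega)

/-- (1) -/
theorem b1 (h : I.Small z) (hm : 0 < m) (hS : Fintype.card S ≤ m) :
    (2 / eta1 z ^ 2 * (1 + I.p0) + Fintype.card S / m) / R0 z ≤ (1 / 2) ^ (z + 5) := by
  have h1 : (Fintype.card S : ℝ) / m ≤ 2 ^ 0 := by
    have hm' : (0 : ℝ) < m := by exact_mod_cast hm
    rw [pow_zero, div_le_one hm']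
    exact_mod_cast hS
  rw [R0_eq]
  exact div2 (add2 (upd_le h) h1 (l := 5 * z + 29) (by omega) (by omega)) (le_refl ((2 : ℝ) ^ (6 * z + 34)))
    (by omega)

/-- (2) -/
theorem b2 (h : I.Small z) : 2 / eta1 z ^ 2 * (1 + I.p0) / (n2 z + 1) ≤ (1 / 2) ^ (z + 5) := by
  refine div2 (upd_le h) (n := 6 * z + 33) ?_ (by omega)
  rw [n2_cast]
  linarith [pow_pos2 (6 * z + 33)]

/-- (3) -/
theorem b3 (h : I.Small z) (hK : T.K = 2 ^ (6 * z + 43)) : (1 / 2) ^ j1 z * (T.K * I.Ms) ≤ (1 / 2) ^ (z + 5) := by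
  have h1 : T.K * I.Ms ≤ 2 ^ (6 * z + 43 + 2 ^ z) := by
    rw [hK]
    have hms := I.Ms1
    exact mul2 (by linarith) (le_refl ((2 : ℝ) ^ (6 * z + 43))) h.ms
  have h2 : (1 / 2 : ℝ) ^ j1 z * (T.K * I.Ms) ≤ (1 / 2) ^ j1 z * 2 ^ (6 * z + 43 + 2 ^ z) :=
    mul_le_mul_of_nonneg_left h1 (by positivity)
  refine h2.trans (le_of_eq ?_)
  have h3 : j1 z = (6 * z + 43 + 2 ^ z) + (z + 5) := by
    rw [j1_eq]
    omega
  rw [h3, half_two]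

theorem sqX_le (h : I.Small z) : 2 / eta1 z ^ 2 * ((1 + n2 z * eta1 z) ^ 2 + I.p0) ≤ 2 ^ (12 * z + 70) := by
  have hp := I.p01
  have h0 : (0 : ℝ) ≤ 1 + (n2 z : ℝ) * eta1 z := by linarith [X_ge z]
  have h1 : (1 + (n2 z : ℝ) * eta1 z) ^ 2 ≤ 2 ^ (8 * z + 42) := by
    have h2 := pow_le_pow_left₀ h0 (X_le z) 2
    rw [← pow_mul] at h2
    exact h2.trans (le2 (by omega))
  have h2 : (1 + (n2 z : ℝ) * eta1 z) ^ 2 + I.p0 ≤ 2 ^ (8 * z + 43) := add2 h1 h.p (by omega) (by omega)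
  have h3 : 2 / eta1 z ^ 2 = 2 ^ (2 * (2 * z + 13) + 1) := by
    rw [eta1_eq]
    exact two_div_sq _
  rw [h3]
  exact mul2' (add_nonneg (sq_nonneg _) (by linarith)) (le_refl ((2 : ℝ) ^ (2 * (2 * z + 13) + 1))) h2 (by omega)

theorem mm1_le (h : I.Small z) : I.mm1 (eta1 z) (n2 z) (etap z) ≤ 2 ^ (13 * z + 73) := by
  unfold mm1
  have hp := I.p01
  have h1 : 32 / etap z ^ 2 = 2 ^ (2 * (6 * z + 32) + 5) := by
    rw [etap_eq]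
    rw [show (32 : ℝ) / ((1 / 2) ^ (6 * z + 32)) ^ 2 = 32 * (1 / ((1 / 2) ^ (6 * z + 32)) ^ 2) by ring, one_div_sq,
      pow_add]
    ring
  have h0 : (1 : ℝ) ≤ 2 ^ 0 := by norm_num
  have h2 : 1 + 32 / etap z ^ 2 ≤ 2 ^ (12 * z + 70) := by
    rw [h1]
    exact add2 h0 (le_refl ((2 : ℝ) ^ (2 * (6 * z + 32) + 5))) (by omega) (by omega)
  have h20 : 0 ≤ 1 + 32 / etap z ^ 2 := by
    rw [h1]
    linarith [pow_pos2 (2 * (6 * z + 32) + 5)]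
  have h3 : (I.p0 + 1) * (1 + 32 / etap z ^ 2) ≤ 2 ^ (13 * z + 71) := by
    rw [add_comm I.p0 1]
    exact mul2' h20 (p1_le h) h2 (by omega)
  have h4 := sqX_le h
  have h5 := p1_le h
  have h6 : 1 + I.p0 + 2 / eta1 z ^ 2 * ((1 + n2 z * eta1 z) ^ 2 + I.p0) ≤ 2 ^ (12 * z + 71) :=
    add2 h5 h4 (by omega) (by omega)
  exact add2 h3 h6 (by omega) (by omega)

/-- (4) -/
theorem b4 (h : I.Small z) (hK : T.K = 2 ^ (6 * z + 43)) :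
    I.q1 (eta1 z) (n2 z) (etap z) (eps z) T.K ≤ (1 / 2) ^ (z + 5) := by
  unfold q1
  have hX0 : 0 < 1 + (n2 z : ℝ) * eta1 z := lt_of_lt_of_le one_pos (X_ge z)
  have hp := I.p01
  have hms := I.Ms1
  have hK0 : 0 ≤ T.K := zero_le_one.trans T.K1
  have hmm0 : 0 ≤ I.mm1 (eta1 z) (n2 z) (etap z) := by
    unfold mm1
    have h1 : 0 ≤ 32 / etap z ^ 2 := div_nonneg (by norm_num) (sq_nonneg _)
    have h2 : 0 ≤ 2 / eta1 z ^ 2 := div_nonneg (by norm_num) (sq_nonneg _)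
    have h3 : 0 ≤ (1 + (n2 z : ℝ) * eta1 z) ^ 2 + I.p0 := add_nonneg (sq_nonneg _) (by linarith)
    have h4 := mul_nonneg h2 h3
    have h5 : 0 ≤ (I.p0 + 1) * (1 + 32 / etap z ^ 2) := mul_nonneg (by linarith) (by linarith)
    linarith
  have hmk0 : 0 ≤ T.K * I.Ms := mul_nonneg hK0 (by linarith)
  -- the denominator
  have hd : (1 / 2 : ℝ) ^ (6 * z + 33) ≤ 2 * eta1 z / (1 + n2 z * eta1 z) := by
    have h1 := etaX (e := 2 * z + 13) (c := 1) (l := 6 * z + 33) hX0 (X_le z) (by omega)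
    rw [pow_one, ← eta1_eq] at h1
    exact h1
  have hd4 : (1 / 2 : ℝ) ^ (24 * z + 132) ≤ (2 * eta1 z / (1 + n2 z * eta1 z)) ^ 4 := by
    rw [show 24 * z + 132 = (6 * z + 33) * 4 by omega, pow_mul]
    exact pow_le_pow_left₀ (by positivity) hd 4
  set dn : ℝ := (2 * eta1 z / (1 + n2 z * eta1 z)) ^ 4 with hdn
  set mm : ℝ := I.mm1 (eta1 z) (n2 z) (etap z) with hmm
  have hpos : 0 < dn := lt_of_lt_of_le (by positivity) hd4
  have hD : 10 ^ 8 * (mm * (T.K * I.Ms)) / dn ≤ 2 ^ (43 * z + 275 + 2 ^ z) := by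
    have h1 : T.K * I.Ms ≤ 2 ^ (6 * z + 43 + 2 ^ z) := by
      rw [hK]
      exact mul2 (by linarith) (le_refl ((2 : ℝ) ^ (6 * z + 43))) h.ms
    have h2 : mm * (T.K * I.Ms) ≤ 2 ^ (19 * z + 116 + 2 ^ z) := mul2' hmk0 (mm1_le h) h1 (by omega)
    have h3 : (10 : ℝ) ^ 8 ≤ 2 ^ 27 := by norm_num
    have h4 : 10 ^ 8 * (mm * (T.K * I.Ms)) ≤ 2 ^ (27 + (19 * z + 116 + 2 ^ z)) :=
      mul2 (mul_nonneg hmm0 hmk0) h3 h2
    rw [div_le_iff₀ hpos]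
    refine h4.trans ?_
    have h5 : (2 : ℝ) ^ (43 * z + 275 + 2 ^ z) * (1 / 2) ^ (24 * z + 132) ≤ 2 ^ (43 * z + 275 + 2 ^ z) * dn :=
      mul_le_mul_of_nonneg_left hd4 (pow_pos2 _).le
    refine le_trans (le_of_eq ?_) h5
    have h6 := half_two (24 * z + 132) 0
    have h7 : 43 * z + 275 + 2 ^ z = (24 * z + 132) + (27 + (19 * z + 116 + 2 ^ z)) := by omega
    rw [h7, pow_add 2 (24 * z + 132)]
    rw [add_zero, pow_zero] at h6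
    calc (2 : ℝ) ^ (27 + (19 * z + 116 + 2 ^ z)) = ((1 / 2) ^ (24 * z + 132) * 2 ^ (24 * z + 132)) *
          2 ^ (27 + (19 * z + 116 + 2 ^ z)) := by rw [h6, one_mul]
      _ = _ := by ring
  have hE := eps_log (E1 z) (6 * z + 43)
  rw [← eps_eq] at hE
  have hfin : 10 ^ 8 * eps z * (mm * (T.K * I.Ms)) / dn * (1 + Real.log (T.K / eps z)) =
      10 ^ 8 * (mm * (T.K * I.Ms)) / dn * (eps z * (1 + Real.log (T.K / eps z))) := by ring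
  rw [hfin]
  have h6 : eps z * (1 + Real.log (T.K / eps z)) ≤ 2 * (1 / 2) ^ E1 z := by
    rw [hK]
    exact hE
  have h60 : 0 ≤ eps z * (1 + Real.log (T.K / eps z)) := by
    refine mul_nonneg (eps_pos z).le ?_
    have h7 : (1 : ℝ) ≤ T.K / eps z := by
      rw [le_div_iff₀ (eps_pos z), one_mul]
      refine le_trans ?_ T.K1
      rw [eps_eq]
      exact pow_le_one₀ (by norm_num) (by norm_num)
    have := Real.log_nonneg h7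
    linarith
  have h7 := mul_le_mul hD h6 h60 (pow_pos2 _).le
  refine h7.trans (le_of_eq ?_)
  have h8 : E1 z = (43 * z + 275 + 2 ^ z + 1) + (z + 5) := by
    rw [E1_eq]
    omega
  have h9 := half_two (43 * z + 275 + 2 ^ z + 1) (z + 5)
  rw [pow_succ 2 (43 * z + 275 + 2 ^ z)] at h9
  rw [h8, ← h9]
  ring

/-- (5) -/
theorem b5 (h : I.Small z) (hK : T.K = 2 ^ (6 * z + 43)) :
    2 * R0 z * T.K ^ 2 * ((1 / 2) ^ (2 ^ z) * I.Ms + 2 * ((2 ^ z : ℕ) : ℝ) * I.Λ) / nN z ≤ (1 / 2) ^ (z + 5) := by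
  have hms := I.Ms1
  have hL := I.Λ1
  have h1 : (1 / 2 : ℝ) ^ (2 ^ z) * I.Ms ≤ 2 ^ 0 := by
    have h2 : (1 / 2 : ℝ) ^ (2 ^ z) * I.Ms ≤ (1 / 2) ^ (2 ^ z) * 2 ^ (2 ^ z) :=
      mul_le_mul_of_nonneg_left h.ms (pow_nonneg (by norm_num) _)
    refine h2.trans (le_of_eq ?_)
    have h3 := half_two (2 ^ z) 0
    rw [add_zero, pow_zero] at h3
    rw [pow_zero]
    exact h3
  have h2 : 2 * ((2 ^ z : ℕ) : ℝ) * I.Λ ≤ 2 ^ (2 * z + 1) := by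
    have h3 : 2 * ((2 ^ z : ℕ) : ℝ) ≤ 2 ^ (z + 1) := by
      push_cast
      rw [pow_succ]
      linarith
    exact mul2' (by linarith) h3 h.lam (by omega)
  have h3 : (1 / 2 : ℝ) ^ (2 ^ z) * I.Ms + 2 * ((2 ^ z : ℕ) : ℝ) * I.Λ ≤ 2 ^ (2 * z + 2) :=
    add2 h1 h2 (by omega) (by omega)
  have h4 : T.K ^ 2 ≤ 2 ^ (12 * z + 86) := by
    rw [hK, ← pow_mul]
    exact le2 (by omega)
  have h5 : 2 * R0 z ≤ 2 ^ (6 * z + 35) := by
    rw [R0_eq, pow_succ 2 (6 * z + 34)]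
    linarith
  have h6 : 2 * R0 z * T.K ^ 2 ≤ 2 ^ (18 * z + 121) := mul2' (sq_nonneg _) h5 h4 (by omega)
  have h70 : 0 ≤ (1 / 2 : ℝ) ^ (2 ^ z) * I.Ms + 2 * ((2 ^ z : ℕ) : ℝ) * I.Λ := by
    have h8 : 0 ≤ (1 / 2 : ℝ) ^ (2 ^ z) * I.Ms := mul_nonneg (pow_nonneg (by norm_num) _) (by linarith)
    have h9 : 0 ≤ 2 * ((2 ^ z : ℕ) : ℝ) * I.Λ := mul_nonneg (mul_nonneg (by norm_num) (Nat.cast_nonneg _)) (by linarith)
    linarith
  have h7 : 2 * R0 z * T.K ^ 2 * ((1 / 2) ^ (2 ^ z) * I.Ms + 2 * ((2 ^ z : ℕ) : ℝ) * I.Λ) ≤ 2 ^ (20 * z + 123) :=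
    mul2' h70 h6 h3 (by omega)
  rw [nN_eq]
  exact div2 h7 (le_refl ((2 : ℝ) ^ (21 * z + 128))) (by omega)

/-- (6) -/
theorem b6 (h : I.Small z) (hK : T.K = 2 ^ (6 * z + 43)) : 2 * T.K ^ 2 * I.Ms / Mc z ≤ (1 / 2) ^ (z + 5) := by
  have hms := I.Ms1
  have h4 : 2 * T.K ^ 2 ≤ 2 ^ (12 * z + 87) := by
    rw [hK, ← pow_mul, show 12 * z + 87 = (6 * z + 43) * 2 + 1 by omega, pow_succ]
    linarith
  have h5 : 2 * T.K ^ 2 * I.Ms ≤ 2 ^ (12 * z + 87 + 2 ^ z) := mul2 (by linarith) h4 h.ms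
  rw [Mc_eq]
  refine div2 h5 (le_refl ((2 : ℝ) ^ mu z)) ?_
  rw [mu_eq]
  omega

theorem inv_epsp (z : ℕ) (x : ℝ) : x / epsp z = x * 2 ^ (2 * E1 z + (6 * z + 43) + 1) := by
  rw [epsp_eq, div_eq_mul_inv, inv2]

/-- (7) -/
theorem b7 (h : I.Small z) (hK : T.K = 2 ^ (6 * z + 43)) :
    (T.K ^ 3 * (32 / etap z ^ 2 * (I.p0 + 1) / epsp z) +
      T.K ^ 2 * (2 / eta1 z ^ 2 * ((1 + n2 z * eta1 z) ^ 2 + I.p0) / epsp z)) * I.Ms / (M z + 1) ≤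
      (1 / 2) ^ (z + 5) := by
  have hms := I.Ms1
  have hp := I.p01
  have hK3 : T.K ^ 3 ≤ 2 ^ (18 * z + 129) := by
    rw [hK, ← pow_mul]
    exact le2 (by omega)
  have hK2 : T.K ^ 2 ≤ 2 ^ (12 * z + 86) := by
    rw [hK, ← pow_mul]
    exact le2 (by omega)
  have h1 : 32 / etap z ^ 2 ≤ 2 ^ (12 * z + 69) := by
    rw [etap_eq]
    rw [show (32 : ℝ) / ((1 / 2) ^ (6 * z + 32)) ^ 2 = 32 * (1 / ((1 / 2) ^ (6 * z + 32)) ^ 2) by ring, one_div_sq,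
      show 12 * z + 69 = 5 + 2 * (6 * z + 32) by omega, pow_add]
    norm_num
  have h2 : 32 / etap z ^ 2 * (I.p0 + 1) ≤ 2 ^ (13 * z + 70) := by
    rw [add_comm I.p0 1]
    exact mul2' (by linarith) h1 (p1_le h) (by omega)
  have h3 : 32 / etap z ^ 2 * (I.p0 + 1) / epsp z ≤ 2 ^ (2 * E1 z + 19 * z + 114) := by
    rw [inv_epsp]
    exact mul2' (pow_pos2 _).le h2 (le_refl ((2 : ℝ) ^ (2 * E1 z + (6 * z + 43) + 1))) (by omega)
  have hp1 := epsp_pos z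
  have h10 : 0 ≤ 32 / etap z ^ 2 := div_nonneg (by norm_num) (sq_nonneg _)
  have h11 : 0 ≤ 2 / eta1 z ^ 2 := div_nonneg (by norm_num) (sq_nonneg _)
  have h4 : T.K ^ 3 * (32 / etap z ^ 2 * (I.p0 + 1) / epsp z) ≤ 2 ^ (2 * E1 z + 37 * z + 243) := by
    exact mul2' (div_nonneg (mul_nonneg h10 (by linarith)) hp1.le) hK3 h3 (by omega)
  have h5 : 2 / eta1 z ^ 2 * ((1 + n2 z * eta1 z) ^ 2 + I.p0) / epsp z ≤ 2 ^ (2 * E1 z + 18 * z + 114) := by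
    rw [inv_epsp]
    exact mul2' (pow_pos2 _).le (sqX_le h) (le_refl ((2 : ℝ) ^ (2 * E1 z + (6 * z + 43) + 1))) (by omega)
  have h6 : T.K ^ 2 * (2 / eta1 z ^ 2 * ((1 + n2 z * eta1 z) ^ 2 + I.p0) / epsp z) ≤
      2 ^ (2 * E1 z + 30 * z + 200) := by
    exact mul2' (div_nonneg (mul_nonneg h11 (add_nonneg (sq_nonneg _) (by linarith))) hp1.le) hK2 h5 (by omega)
  have h7 : (T.K ^ 3 * (32 / etap z ^ 2 * (I.p0 + 1) / epsp z) +
      T.K ^ 2 * (2 / eta1 z ^ 2 * ((1 + n2 z * eta1 z) ^ 2 + I.p0) / epsp z)) ≤ 2 ^ (2 * E1 z + 37 * z + 244) :=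
    add2 h4 h6 (by omega) (by omega)
  have h8 := mul2 (m := 2 * E1 z + 37 * z + 244) (n := 2 ^ z) (B := I.Ms) (by linarith) h7 h.ms
  refine div2 h8 (n := mexp z) ?_ ?_
  · rw [M_cast]
    linarith
  · rw [mexp_eq]
    omega

/-- **sum of the bounds of stage 1** -/
theorem q1sum_le (h : I.Small z) (hm : 0 < m) (hS : Fintype.card S ≤ m) (hK : T.K = 2 ^ (6 * z + 43)) :
    I.q1sum (eta1 z) (n2 z) (R0 z) (epsp z) (etap z) (epsp z) (eps z) T.K (j1 z) (2 ^ z) (M z) (nN z) (Mc z) ≤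
      7 * (1 / 2) ^ (z + 5) := by
  unfold q1sum
  have a1 := b1 h hm hS
  have a2 := b2 h
  have a3 := b3 h hK
  have a4 := b4 h hK
  have a5 := b5 h hK
  have a6 := b6 h hK
  have a7 := b7 h hK
  linarith

end Inp

end

end Pool.Agent.M3.S2
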