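import Pool.Agent.M3.S2.AlphO
import Pool.Agent.M3.S2.Alph
import Pool.Agent.M3.S2.Cnt

/-!
# M3/S2/Opt : the public node of the view of the hidden vertex, options, counts (helper52)

`T.OPT Q t w` = the nodes `gm t w'` realised in the class of the public node `Q t w`.  `Pubn T Q` = the properties of the
public node.  `E_opt` : a sum over the options costs a factor `2`.
`clc, clb` : the realised points which matter for the labels of `(a, c)` resp. `(a, b)` along the public path of `w0`.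
`CBg, CAg, CCg ..` : cells compatible with cells and a node.
-/

set_option autoImplicit false
set_option linter.unusedSectionVars false

namespace Pool.Agent.M3.S2

open Finset Pool.Agent.PWZ Pool.Agent.M3.TS

noncomputable section

theorem sum_biN {ι κ : Type*} [DecidableEq κ] (s : Finset ι) (f : ι → Finset κ) (φ : κ → ℕ) :
    ∑ k ∈ s.biUnion f, φ k ≤ ∑ i ∈ s, ∑ k ∈ f i, φ k := by
  classical
  induction s using Finset.induction_on with
  | empty => simp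
  | insert a s ha ih =>
    rw [Finset.biUnion_insert, Finset.sum_insert ha]
    have h1 := Finset.sum_union_inter (s₁ := f a) (s₂ := s.biUnion f) (f := φ)
    omega

section opt

variable {Om Ξ A B C V Γ κ : Type} [Fintype Om] [Fintype Ξ] [Fintype A] [Fintype B]
    [Fintype C] [Fintype V] {υ : ℕ → Type}

open Classical in
/-- the nodes realised in the class of the public node -/
def Tri.OPT (T : Tri Om Ξ A B C V Γ κ) (Q : ∀ t, Om → υ t) (t : ℕ) (w : Om) : Finset Γ :=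
  ((univ : Finset Om).filter (fun w' => Q t w' = Q t w)).image (T.gm t)

theorem Tri.mem_OPT {T : Tri Om Ξ A B C V Γ κ} {Q : ∀ t, Om → υ t} {t : ℕ} {w : Om} {g : Γ} :
    g ∈ T.OPT Q t w ↔ ∃ w', Q t w' = Q t w ∧ T.gm t w' = g := by
  classical
  unfold Tri.OPT
  rw [Finset.mem_image]
  constructor
  · rintro ⟨w', h1, h2⟩
    exact ⟨w', (Finset.mem_filter.1 h1).2, h2⟩
  · rintro ⟨w', h1, h2⟩
    exact ⟨w', Finset.mem_filter.2 ⟨Finset.mem_univ _, h1⟩, h2⟩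

/-- the public node of the view of `a` -/
structure Pubn (T : Tri Om Ξ A B C V Γ κ) (Q : ∀ t, Om → υ t) : Prop where
  filt : Filt Q
  /-- the cells of the known vertices are public -/
  qb : ∀ t, Fac (Q t) (fun w => T.cb t (T.b w))
  qc : ∀ t, Fac (Q t) (fun w => T.cc t (T.c w))
  /-- the hidden vertex and the option can be combined -/
  comb : ∀ t w w', Q t w' = Q t w → ∃ v, Q t v = Q t w ∧ T.xi v = T.xi w' ∧ T.a v = T.a w' ∧ T.gm t v = T.gm t w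
  /-- at most two options -/
  two : ∀ t w, (T.OPT Q t w).card ≤ 2
  /-- the option counts -/
  obc : ∀ t g b0 c0, T.P.Pr (fun w => T.b w = b0 ∧ T.c w = c0 ∧ g ∈ T.OPT Q t w) ≤
    2 * T.P.Pr (fun w => T.b w = b0 ∧ T.c w = c0 ∧ T.gm t w = g)
  oac : ∀ t g x0 a0 c0, T.P.Pr (fun w => T.xi w = x0 ∧ T.a w = a0 ∧ T.c w = c0 ∧ g ∈ T.OPT Q t w) ≤
    2 * T.P.Pr (fun w => T.xi w = x0 ∧ T.a w = a0 ∧ T.c w = c0 ∧ T.gm t w = g)
  oab : ∀ t g x0 a0 b0, T.P.Pr (fun w => T.xi w = x0 ∧ T.a w = a0 ∧ T.b w = b0 ∧ g ∈ T.OPT Q t w) ≤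
    2 * T.P.Pr (fun w => T.xi w = x0 ∧ T.a w = a0 ∧ T.b w = b0 ∧ T.gm t w = g)

namespace Pubn

variable {T : Tri Om Ξ A B C V Γ κ} {Q : ∀ t, Om → υ t}

theorem opt_fac {t : ℕ} {v w : Om} (h : Q t v = Q t w) : T.OPT Q t v = T.OPT Q t w := by
  ext g
  rw [Tri.mem_OPT, Tri.mem_OPT, h]

theorem gm_mem (t : ℕ) (w : Om) : T.gm t w ∈ T.OPT Q t w := Tri.mem_OPT.2 ⟨w, rfl, rfl⟩

theorem filt_le (hQ : Filt Q) {j t : ℕ} (h : j ≤ t) {v w : Om} (hvw : Q t v = Q t w) : Q j v = Q j w := by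
  induction t with
  | zero =>
    have : j = 0 := by omega
    subst this
    exact hvw
  | succ t ih =>
    rcases Nat.lt_or_ge t j with h1 | h1
    · have : j = t + 1 := by omega
      subst this
      exact hvw
    · exact ih h1 (hQ t v w hvw)

theorem opt_anc (hQ : Filt Q) {j t : ℕ} (h : j ≤ t) {w : Om} {g : Γ} (hg : g ∈ T.OPT Q t w) :
    anc T.par t g j ∈ T.OPT Q j w := by
  obtain ⟨w', h1, h2⟩ := Tri.mem_OPT.1 hg
  refine Tri.mem_OPT.2 ⟨w', filt_le hQ h h1, ?_⟩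
  rw [← h2, T.anc_gm h]

/-- a sum over the options, for the known vertices -/
theorem E_opt (hP : Pubn T Q) (t : ℕ) (φ : B → C → Γ → ℝ) (hφ : ∀ b c g, 0 ≤ φ b c g) :
    T.P.E (fun w => ∑ g ∈ T.OPT Q t w, φ (T.b w) (T.c w) g) ≤
      2 * T.P.E (fun w => φ (T.b w) (T.c w) (T.gm t w)) := by
  refine count_E T.P (fun w => (T.b w, T.c w)) (T.gm t) (T.OPT Q t) (fun y g => ?_) (fun y g => φ y.1 y.2 g)
    (fun y g => hφ _ _ _)
  have h1 := hP.obc t g y.1 y.2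
  refine le_trans (le_of_eq (T.P.Pr_congr fun w _ => ?_)) (h1.trans (le_of_eq ?_))
  · rw [Prod.ext_iff]
    exact and_assoc
  · congr 1
    refine T.P.Pr_congr fun w _ => ?_
    rw [Prod.ext_iff]
    exact and_assoc.symm

/-- a sum over the options, for `(xi, a, c)` -/
theorem E_opt_ac (hP : Pubn T Q) (t : ℕ) (φ : Ξ → A → C → Γ → ℝ) (hφ : ∀ x a c g, 0 ≤ φ x a c g) :
    T.P.E (fun w => ∑ g ∈ T.OPT Q t w, φ (T.xi w) (T.a w) (T.c w) g) ≤
      2 * T.P.E (fun w => φ (T.xi w) (T.a w) (T.c w) (T.gm t w)) := by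
  refine count_E T.P (fun w => (T.xi w, T.a w, T.c w)) (T.gm t) (T.OPT Q t) (fun y g => ?_)
    (fun y g => φ y.1 y.2.1 y.2.2 g) (fun y g => hφ _ _ _ _)
  have h1 := hP.oac t g y.1 y.2.1 y.2.2
  refine le_trans (le_of_eq (T.P.Pr_congr fun w _ => ?_)) (h1.trans (le_of_eq ?_))
  · rw [Prod.ext_iff, Prod.ext_iff]
    simp only [and_assoc]
  · congr 1
    refine T.P.Pr_congr fun w _ => ?_
    rw [Prod.ext_iff, Prod.ext_iff]
    simp only [and_assoc]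

/-- a sum over the options, for `(xi, a, b)` -/
theorem E_opt_ab (hP : Pubn T Q) (t : ℕ) (φ : Ξ → A → B → Γ → ℝ) (hφ : ∀ x a b g, 0 ≤ φ x a b g) :
    T.P.E (fun w => ∑ g ∈ T.OPT Q t w, φ (T.xi w) (T.a w) (T.b w) g) ≤
      2 * T.P.E (fun w => φ (T.xi w) (T.a w) (T.b w) (T.gm t w)) := by
  refine count_E T.P (fun w => (T.xi w, T.a w, T.b w)) (T.gm t) (T.OPT Q t) (fun y g => ?_)
    (fun y g => φ y.1 y.2.1 y.2.2 g) (fun y g => hφ _ _ _ _)
  have h1 := hP.oab t g y.1 y.2.1 y.2.2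
  refine le_trans (le_of_eq (T.P.Pr_congr fun w _ => ?_)) (h1.trans (le_of_eq ?_))
  · rw [Prod.ext_iff, Prod.ext_iff]
    simp only [and_assoc]
  · congr 1
    refine T.P.Pr_congr fun w _ => ?_
    rw [Prod.ext_iff, Prod.ext_iff]
    simp only [and_assoc]

end Pubn

/-! ### the points which matter along the public path -/

/-- the points with the vertex `c` of `w0`, an optional node and a possible hidden vertex -/
def Tri.clc (T : Tri Om Ξ A B C V Γ κ) (Q : ∀ t, Om → υ t) (t : ℕ) (w0 w : Om) : Prop :=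
  T.c w = T.c w0 ∧ T.gm t w ∈ T.OPT Q t w0 ∧ ∃ w', Q t w' = Q t w0 ∧ T.xi w' = T.xi w ∧ T.a w' = T.a w

/-- the points with the vertex `b` of `w0`, an optional node and a possible hidden vertex -/
def Tri.clb (T : Tri Om Ξ A B C V Γ κ) (Q : ∀ t, Om → υ t) (t : ℕ) (w0 w : Om) : Prop :=
  T.b w = T.b w0 ∧ T.gm t w ∈ T.OPT Q t w0 ∧ ∃ w', Q t w' = Q t w0 ∧ T.xi w' = T.xi w ∧ T.a w' = T.a w

section cls

variable {T : Tri Om Ξ A B C V Γ κ} {Q : ∀ t, Om → υ t}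

theorem clc_anc (hQ : Filt Q) {j t : ℕ} (h : j ≤ t) {w0 w : Om} (hw : T.clc Q t w0 w) : T.clc Q j w0 w := by
  obtain ⟨h1, h2, w', h3, h4⟩ := hw
  refine ⟨h1, ?_, w', Pubn.filt_le hQ h h3, h4⟩
  have := Pubn.opt_anc (T := T) hQ h h2
  rwa [T.anc_gm h] at this

theorem clb_anc (hQ : Filt Q) {j t : ℕ} (h : j ≤ t) {w0 w : Om} (hw : T.clb Q t w0 w) : T.clb Q j w0 w := by
  obtain ⟨h1, h2, w', h3, h4⟩ := hw
  refine ⟨h1, ?_, w', Pubn.filt_le hQ h h3, h4⟩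
  have := Pubn.opt_anc (T := T) hQ h h2
  rwa [T.anc_gm h] at this

theorem rz_of_opt (hP : Pubn T Q) {t : ℕ} {w0 w w' : Om} (h2 : T.gm t w ∈ T.OPT Q t w0) (h3 : Q t w' = Q t w0)
    (h4 : T.a w' = T.a w) : T.Rz t (T.ca t (T.a w)) (T.cb t (T.b w0)) (T.cc t (T.c w0)) (T.gm t w) := by
  obtain ⟨w1, h5, h6⟩ := Tri.mem_OPT.1 h2
  obtain ⟨v, h7, -, h8, h9⟩ := hP.comb t w1 w' (h3.trans h5.symm)
  refine ⟨v, ?_, ?_, ?_, ?_⟩
  · rw [h8, h4]
  · exact hP.qb t v w0 (h7.trans h5)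
  · exact hP.qc t v w0 (h7.trans h5)
  · rw [h9, h6]

theorem clc_rz (hP : Pubn T Q) {t : ℕ} {w0 w : Om} (hw : T.clc Q t w0 w) :
    T.Rz t (T.ca t (T.a w)) (T.cb t (T.b w0)) (T.cc t (T.c w0)) (T.gm t w) := by
  obtain ⟨-, h2, w', h3, -, h4⟩ := hw
  exact rz_of_opt hP h2 h3 h4

theorem clb_rz (hP : Pubn T Q) {t : ℕ} {w0 w : Om} (hw : T.clb Q t w0 w) :
    T.Rz t (T.ca t (T.a w)) (T.cb t (T.b w0)) (T.cc t (T.c w0)) (T.gm t w) := by
  obtain ⟨-, h2, w', h3, -, h4⟩ := hw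
  exact rz_of_opt hP h2 h3 h4

end cls

/-! ### cells compatible with a node -/

section cells

variable (T : Tri Om Ξ A B C V Γ κ)

open Classical in
/-- cells of `b` which satisfy `p` -/
def Tri.fB (t : ℕ) (p : κ → Prop) : Finset κ := ((univ : Finset Om).image (fun w => T.cb t (T.b w))).filter p

open Classical in
/-- cells of `a` which satisfy `p` -/
def Tri.fA (t : ℕ) (p : κ → Prop) : Finset κ := ((univ : Finset Om).image (fun w => T.ca t (T.a w))).filter p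

open Classical in
/-- cells of `c` which satisfy `p` -/
def Tri.fC (t : ℕ) (p : κ → Prop) : Finset κ := ((univ : Finset Om).image (fun w => T.cc t (T.c w))).filter p

theorem Tri.mem_fB {t : ℕ} {p : κ → Prop} {β : κ} (h : ∃ α γ g, T.Rz t α β γ g) : β ∈ T.fB t p ↔ p β := by
  classical
  obtain ⟨α, γ, g, w, -, h1, -, -⟩ := h
  unfold Tri.fB
  rw [Finset.mem_filter]
  exact ⟨fun h => h.2, fun h => ⟨Finset.mem_image.2 ⟨w, Finset.mem_univ _, h1⟩, h⟩⟩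

theorem Tri.mem_fA {t : ℕ} {p : κ → Prop} {α : κ} (h : ∃ β γ g, T.Rz t α β γ g) : α ∈ T.fA t p ↔ p α := by
  classical
  obtain ⟨α, γ, g, w, h1, -, -, -⟩ := h
  unfold Tri.fA
  rw [Finset.mem_filter]
  exact ⟨fun h => h.2, fun h => ⟨Finset.mem_image.2 ⟨w, Finset.mem_univ _, h1⟩, h⟩⟩

theorem Tri.mem_fC {t : ℕ} {p : κ → Prop} {γ : κ} (h : ∃ α β g, T.Rz t α β γ g) : γ ∈ T.fC t p ↔ p γ := by
  classical
  obtain ⟨α, β, g, w, -, -, h1, -⟩ := h
  unfold Tri.fC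
  rw [Finset.mem_filter]
  exact ⟨fun h => h.2, fun h => ⟨Finset.mem_image.2 ⟨w, Finset.mem_univ _, h1⟩, h⟩⟩

theorem Tri.of_fB {t : ℕ} {p : κ → Prop} {β : κ} (h : β ∈ T.fB t p) : p β := by
  classical
  unfold Tri.fB at h
  exact (Finset.mem_filter.1 h).2

theorem Tri.of_fA {t : ℕ} {p : κ → Prop} {β : κ} (h : β ∈ T.fA t p) : p β := by
  classical
  unfold Tri.fA at h
  exact (Finset.mem_filter.1 h).2

theorem Tri.of_fC {t : ℕ} {p : κ → Prop} {β : κ} (h : β ∈ T.fC t p) : p β := by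
  classical
  unfold Tri.fC at h
  exact (Finset.mem_filter.1 h).2

/-- cells of `a` compatible with `(β, γ, g)` -/
def Tri.CAg (t : ℕ) (β γ : κ) (g : Γ) : Finset κ := T.fA t (fun α => T.Rz t α β γ g)

/-- cells of `b` compatible with a cell of `a` compatible with `(β, γ, g)` -/
def Tri.CB2g (t : ℕ) (β γ : κ) (g : Γ) : Finset κ := T.fB t (fun β' => ∃ α, T.Rz t α β γ g ∧ T.Rz t α β' γ g)

/-- cells of `c` compatible with a cell of `a` compatible with `(β, γ, g)` -/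
def Tri.CC2g (t : ℕ) (β γ : κ) (g : Γ) : Finset κ := T.fC t (fun γ' => ∃ α, T.Rz t α β γ g ∧ T.Rz t α β γ' g)

theorem Tri.mem_CAg {t : ℕ} {β γ α : κ} {g : Γ} : α ∈ T.CAg t β γ g ↔ T.Rz t α β γ g :=
  ⟨fun h => T.of_fA h, fun h => (T.mem_fA ⟨_, _, _, h⟩).2 h⟩

theorem Tri.mem_CB2g {t : ℕ} {β γ β' : κ} {g : Γ} :
    β' ∈ T.CB2g t β γ g ↔ ∃ α, T.Rz t α β γ g ∧ T.Rz t α β' γ g :=
  ⟨fun h => T.of_fB h, fun h => by
    obtain ⟨α, h1, h2⟩ := h
    exact (T.mem_fB ⟨_, _, _, h2⟩).2 ⟨α, h1, h2⟩⟩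

theorem Tri.mem_CC2g {t : ℕ} {β γ γ' : κ} {g : Γ} :
    γ' ∈ T.CC2g t β γ g ↔ ∃ α, T.Rz t α β γ g ∧ T.Rz t α β γ' g :=
  ⟨fun h => T.of_fC h, fun h => by
    obtain ⟨α, h1, h2⟩ := h
    exact (T.mem_fC ⟨_, _, _, h2⟩).2 ⟨α, h1, h2⟩⟩

theorem Tri.CAg_eq (t : ℕ) (w : Om) : T.CAg t (T.cb t (T.b w)) (T.cc t (T.c w)) (T.gm t w) = T.CA t w := by
  ext α
  rw [T.mem_CAg, T.mem_CA]

theorem Tri.CB2g_eq (t : ℕ) (w : Om) : T.CB2g t (T.cb t (T.b w)) (T.cc t (T.c w)) (T.gm t w) = T.CB2 t w := by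
  ext α
  rw [T.mem_CB2g, T.mem_CB2]

theorem Tri.CC2g_eq (t : ℕ) (w : Om) : T.CC2g t (T.cb t (T.b w)) (T.cc t (T.c w)) (T.gm t w) = T.CC2 t w := by
  ext α
  rw [T.mem_CC2g, T.mem_CC2]

end cells

/-! ### pools at the options -/

section pools

variable (T : Tri Om Ξ A B C V Γ κ) (Q : ∀ t, Om → υ t)

/-- births of the system of `c` at the options -/
def Tri.pO1 (Bn : ℕ → C × Γ → κ → List (Finset B)) (w : Om) : ℕ :=
  ∑ t ∈ range T.n, ∑ g ∈ T.OPT Q (t + 1) w, ∑ k ∈ T.CB2g (t + 1) (T.cb (t + 1) (T.b w)) (T.cc (t + 1) (T.c w)) g,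
    (Bn (t + 1) (T.c w, g) k).length

/-- births of the system of `(b, c)` at the options, for the known vertex `b` -/
def Tri.pO2 (Bn : ℕ → Γ → κ × κ → List (Finset (B × C))) (w : Om) : ℕ :=
  ∑ t ∈ range T.n, ∑ g ∈ T.OPT Q (t + 1) w, ∑ k ∈ T.CC2g (t + 1) (T.cb (t + 1) (T.b w)) (T.cc (t + 1) (T.c w)) g,
    (Bn (t + 1) g (T.cb (t + 1) (T.b w), k)).length

variable {T Q}

theorem E_pO1 (hP : Pubn T Q) (Bn : ℕ → C × Γ → κ → List (Finset B)) :
    T.P.E (fun w => (T.pO1 Q Bn w : ℝ)) ≤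
      2 * (T.K ^ 2 * births' T.P T.b T.n (fun t w => (T.c w, T.gm t w)) T.cb Bn) := by
  unfold Tri.pO1 births'
  simp only [Nat.cast_sum]
  rw [T.P.E_sum, Finset.mul_sum, Finset.mul_sum]
  refine Finset.sum_le_sum fun t _ => ?_
  have h1 := hP.E_opt (t + 1) (fun b c g => ∑ k ∈ T.CB2g (t + 1) (T.cb (t + 1) b) (T.cc (t + 1) c) g,
    ((Bn (t + 1) (c, g) k).length : ℝ)) (fun _ _ _ => Finset.sum_nonneg fun _ _ => Nat.cast_nonneg _)
  simp only [T.CB2g_eq] at h1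
  have h2 := T.E_CB2_c (t + 1) (fun y k => ((Bn (t + 1) y k).length : ℝ)) (fun _ _ => Nat.cast_nonneg _)
  exact h1.trans (mul_le_mul_of_nonneg_left h2 (by norm_num))

theorem E_pO2 (hP : Pubn T Q) (Bn : ℕ → Γ → κ × κ → List (Finset (B × C))) :
    T.P.E (fun w => (T.pO2 Q Bn w : ℝ)) ≤
      2 * (T.K ^ 2 * births' T.P (fun w => (T.b w, T.c w)) T.n T.gm (fun t y => (T.cb t y.1, T.cc t y.2)) Bn) := by
  unfold Tri.pO2 births'
  simp only [Nat.cast_sum]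
  rw [T.P.E_sum, Finset.mul_sum, Finset.mul_sum]
  refine Finset.sum_le_sum fun t _ => ?_
  have h1 := hP.E_opt (t + 1) (fun b c g => ∑ k ∈ T.CC2g (t + 1) (T.cb (t + 1) b) (T.cc (t + 1) c) g,
    ((Bn (t + 1) g (T.cb (t + 1) b, k)).length : ℝ)) (fun _ _ _ => Finset.sum_nonneg fun _ _ => Nat.cast_nonneg _)
  simp only [T.CC2g_eq] at h1
  have h2 := T.E_CC2_b (t + 1) (fun y k => ((Bn (t + 1) y.2 (T.cb (t + 1) y.1, k)).length : ℝ))
    (fun _ _ => Nat.cast_nonneg _)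
  exact h1.trans (mul_le_mul_of_nonneg_left h2 (by norm_num))

end pools

end opt

end

end Pool.Agent.M3.S2
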