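import Pool.Agent.M3.S2.InpL
import Pool.Agent.M3.S2.NumV
import Pool.Agent.M3.S2.MainM
import Pool.Agent.M3.RdOutR

/-!
# M3.S2.OutM : THE OUTPUT OF SECTION 2 for a layer, with all sizes (helper27)

`outM` : `inpL` (input), `outN0` and `numV` (section 2) together, in the form of the hypotheses of `rawR_of_out`: rounding
`h2 z`, families `fine (lh (n+1)) (R a)`, sizes `eps = q = 2^-z`, `Lam = J = 2^(931 z + 931)`,
`M = 2^(2^(931 z + 931))`, constant `c = 4`.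
-/

set_option autoImplicit false
set_option linter.unusedSectionVars false

namespace Pool.Agent.M3.Mod

open Finset Pool.Agent.PWZ Pool.Agent.M3.Bin

noncomputable section

private theorem fin3_cs : ∀ (i j l a : Fin 3), j ≠ i → l ≠ i → l ≠ j → a = i ∨ a = j ∨ a = l := by decide

/-- **THE OUTPUT OF SECTION 2 WITH ALL SIZES** -/
theorem outM (L : Lay) (C0 Cp : ℕ) : ∃ C n0 : ℕ, ∀ n ≥ n0, ∃ z : ℕ,
    2 * n ^ C0 + 3 ≤ z ∧ (n : ℝ) ^ Cp ≤ 2 ^ z ∧ L.lh (n + 1) ≤ z ∧ n ≤ z ∧ z ≤ n ^ C ∧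
    ∀ (k N : ℕ) (hN : N ≤ k) (F : Fin 3 → Unit × V k → Unit × V k → V k → ℝ), (∀ i b c d, |F i b c d| ≤ 1) →
    ∀ (i j l : Fin 3) (hij : j ≠ i) (hli : l ≠ i) (hlj : l ≠ j) (R : Fin 3 → Fam2 k Unit), R l = Dl N L F n l →
      (R j = fine (L.lh n) (Rl N L F n j) ∨ R j = Rl N L F (n + 1) j) →
      (∀ e g x y d, |R i e g x y d| ≤ 2) →
      (∀ ω : Sp k N 3 Unit Unit, ∑ t ∈ range N, ind (chE (L.lh (n + 1)) i (R i) t ω) ≤ (n : ℝ) ^ Cp) →
    ∃ (Ξ : Type) (_ : Fintype Ξ) (_ : Nonempty Ξ) (TT : ℕ → Sp k N 3 Unit (Ξ × Unit) → ℝ)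
      (E : ℕ → Unit × (V k × ℕ) → Unit × V k → Unit × V k → V k → ℝ),
      Nonempty (S2.Out (tri Unit Ξ Unit hij hli hlj hN (S2.Num.h2 z)) (fun t => Qn i (S2.Num.h2 z) (ex N t)) TT E
        ((1 / 2) ^ z) ((1 / 2) ^ z) (2 ^ (931 * z + 931)) (2 ^ (931 * z + 931)) (2 ^ (2 ^ (931 * z + 931)))) ∧
      (∀ t g b c d, |E t g b c d| ≤ 1) ∧
      (∀ t ≤ N, ∀ (w : Sp k N 3 Unit (Ξ × Unit)) d,
        fz (S2.Num.h2 z) i (liftF (fine (L.lh (n + 1)) (R i))) t w d =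
          2 * E t (gq (S2.Num.h2 z) (ex N t) w) (vq j w) (vq l w) d) ∧
      (∀ t (w : Sp k N 3 Unit (Ξ × Unit)),
        |TZ (S2.Num.h2 z) (fun a => liftF (fine (L.lh (n + 1)) (R a))) t w| ≤ 8) ∧
      Pm.Pr (fun w : Sp k N 3 Unit (Ξ × Unit) => ∃ t ≤ N,
        TZ (S2.Num.h2 z) (fun a => liftF (fine (L.lh (n + 1)) (R a))) t w ≠ 4 * TT t w) ≤
          (1 / 2) ^ (2 * n ^ C0 + 3) ∧
      (∀ w : Sp k N 3 Unit (Ξ × Unit), ∑ t ∈ range N,
        ind (chE (S2.Num.h2 z) i (liftF (fine (L.lh (n + 1)) (R i))) t w) ≤ (n : ℝ) ^ Cp) := by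
  obtain ⟨C, n0, H⟩ := inpL L C0 Cp
  refine ⟨C, n0, fun n hn => ?_⟩
  obtain ⟨z, z1, z2, z3, z4, z5, H⟩ := H n hn
  refine ⟨z, z1, z2, z3, z4, z5, ?_⟩
  intro k N hN F hF i j l hij hli hlj R hRl hRj hRi hp
  obtain ⟨S, iS, dS, H⟩ := H k N hN F hF i j l hij hli hlj R hRl hRj hRi hp
  obtain ⟨I, hsm, hG1, hbad⟩ := H (Fintype.card S + 1)
  have hh : L.lh (n + 1) ≤ S2.Num.h2 z := by
    have : z ≤ S2.Num.h2 z := by unfold S2.Num.h2; omega
    exact z3.trans this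
  have hV := S2.Inp.numV (T1 := tri Unit (S → Fin (Fintype.card S + 1)) Unit hij hli hlj hN (S2.Num.h1 z))
    (T2 := tri Unit (S → Fin (Fintype.card S + 1)) Unit hij hli hlj hN (S2.Num.h2 z)) hsm
    (tri_K1 hij hli hlj hN z) (tri_K2 hij hli hlj hN z)
  obtain ⟨v1, v2, v3, v4, v5, v6, v7⟩ := hV
  have hle : ((1 : ℝ) / 2) ^ (z + 2) ≤ (1 / 2) ^ z :=
    pow_le_pow_of_le_one (by norm_num) (by norm_num) (by omega)
  have hO := I.outN0 (fineTri Unit (S → Fin (Fintype.card S + 1)) Unit hij hli hlj hN (h1_le_h2 z))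
    (pubM hij hli hlj hN (S2.Num.h2 z)) hsm (Nat.succ_pos _) (Nat.le_succ _)
    (tri_K1 hij hli hlj hN z) (tri_K2 hij hli hlj hN z) (tri_near hij hli hlj hN (S2.Num.h1 z))
    (tri_near hij hli hlj hN (S2.Num.h2 z)) (tri_LM1 hij hli hlj hN (S2.Num.h1 z))
    (tri_LM2 hij hli hlj hN (S2.Num.h2 z)) v5 v6 v7 v3 v4 (v1.trans hle) (v2.trans hle)
  refine ⟨S → Fin (Fintype.card S + 1), inferInstance, inferInstance, I.TT,
    I.E2n (fineTri Unit (S → Fin (Fintype.card S + 1)) Unit hij hli hlj hN (h1_le_h2 z)), hO, ?_, ?_, ?_, ?_, ?_⟩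
  · intro t g b c d
    exact I.G1b _ _ _ _ _
  · intro t _ w d
    have h1 : I.E2n (fineTri Unit (S → Fin (Fintype.card S + 1)) Unit hij hli hlj hN (h1_le_h2 z)) t
        (gq (S2.Num.h2 z) (ex N t) w) (vq j w) (vq l w) =
        I.G1 t (gq (S2.Num.h1 z) (ex N t) w) (vq j w) (vq l w) := by
      show I.G1 t ((fineTri Unit (S → Fin (Fintype.card S + 1)) Unit hij hli hlj hN (h1_le_h2 z)).crs t
        ((tri Unit (S → Fin (Fintype.card S + 1)) Unit hij hli hlj hN (S2.Num.h2 z)).gm t w)) (vq j w) (vq l w) = _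
      rw [(fineTri Unit (S → Fin (Fintype.card S + 1)) Unit hij hli hlj hN (h1_le_h2 z)).crs_gm t w]
      rfl
    rw [h1, hG1, fz_lift, fz_fine hh]
    ring
  · intro t w
    refine abs_TZ_le _ (fun a e g x y d => ?_) t w
    show |R a e _ _ _ d| ≤ 2
    rcases fin3_cs i j l a hij hli hlj with h3 | h3 | h3
    · rw [h3]; exact hRi _ _ _ _ _
    · rw [h3]
      rcases hRj with h4 | h4
      · rw [h4]; exact abs_Rl L hF n j _ _ _ _ _
      · rw [h4]; exact abs_Rl L hF (n + 1) j _ _ _ _ _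
    · rw [h3, hRl]
      exact abs_Dl L (F := F) (N := N) n l _ _ _ _ _
  · refine le_trans (le_of_eq ?_) hbad
    refine FP.Pr_congr _ fun w _ => ?_
    have e : ∀ t, TZ (S2.Num.h2 z) (fun a => liftF (fine (L.lh (n + 1)) (R a))) t w =
        TZ (L.lh (n + 1)) R t (prU w) := fun t => by
      rw [TZ_lift, TZ_fine hh]
    simp only [e]
  · intro w
    refine le_trans (le_of_eq (Finset.sum_congr rfl fun t _ => ?_)) (hp (prU w))
    rw [chE_lift, chE_fine hh]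

end

end Pool.Agent.M3.Mod
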