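import Pool.Agent.M3.S2.Gen

/-!
# M3/S2/Stage1 : the runs of `(xi, a; c)` and the error bound of stage 1 (helper44)

`Tri.mean` = mean over the averaged window.  `mart_K` = the martingale property for a map which is uniform and
independent of the nodes.  `loc1`, `K1`, `Q1` = data of the runs, `Z1 s` = the error process of the run `+s` times
`v_s`.  `err1` = P (some time: `s` active, `b` not lost, `1601 η1 + X near < |⟨k1 s, Z1 s⟩_J|`) is small.
-/

set_option autoImplicit false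

namespace Pool.Agent.M3.S2

open Finset Pool.Agent.PWZ Pool.Agent.M3.TS

/-! ### the martingale property -/

section mart

variable {Om α V Γ : Type} [Fintype Om] [Fintype V] {P : FP Om} {Kp : Om → α} {gm : ℕ → Om → Γ}
  {par : ℕ → Γ → Γ} {ρ : ℕ → Γ → V → ℝ} {N : ℝ}

theorem E_split_gm {Γ' : Type} (X : Om → Γ') (F : Om → ℝ) [DecidableEq Γ'] :
    P.E F = ∑ g ∈ (univ : Finset Om).image X, P.E (fun w => ind (X w = g) * F w) := by
  rw [← P.E_sum]
  refine P.E_congr fun w _ => ?_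
  rw [Finset.sum_eq_single (X w)]
  · rw [ind_of rfl, one_mul]
  · intro g _ hg
    rw [ind_not fun h => hg h.symm, zero_mul]
  · intro h
    exact absurd (Finset.mem_image_of_mem X (mem_univ w)) h

theorem mart_fib (hpar : ∀ t w, par t (gm (t + 1) w) = gm t w)
    (hind : ∀ t g k, P.Pr (fun w => Kp w = k ∧ gm t w = g) = P.Pr (fun w => gm t w = g) / N)
    (hm : ∀ t g v, P.E (fun w => ind (gm t w = g) * ρ (t + 1) (gm (t + 1) w) v) =
      P.Pr (fun w => gm t w = g) * ρ t g v) (t : ℕ) (g : Γ) (k : α) (v : V) :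
    P.E (fun w => ind (Kp w = k ∧ gm t w = g) * ρ (t + 1) (gm (t + 1) w) v) =
      P.Pr (fun w => Kp w = k ∧ gm t w = g) * ρ t g v := by
  classical
  have h1 : P.E (fun w => ind (Kp w = k ∧ gm t w = g) * ρ (t + 1) (gm (t + 1) w) v) =
      P.E (fun w => ind (gm t w = g) * ρ (t + 1) (gm (t + 1) w) v) / N := by
    rw [E_split_gm (P := P) (gm (t + 1)), E_split_gm (P := P) (gm (t + 1)) (fun w => ind (gm t w = g) *
      ρ (t + 1) (gm (t + 1) w) v), Finset.sum_div]
    refine Finset.sum_congr rfl fun g' _ => ?_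
    by_cases hg : par t g' = g
    · have e1 : P.E (fun w => ind (gm (t + 1) w = g') * (ind (Kp w = k ∧ gm t w = g) * ρ (t + 1) (gm (t + 1) w) v)) =
          P.Pr (fun w => Kp w = k ∧ gm (t + 1) w = g') * ρ (t + 1) g' v := by
        unfold FP.Pr
        rw [← P.E_mul_const]
        refine P.E_congr fun w _ => ?_
        by_cases h : gm (t + 1) w = g'
        · rw [ind_of h, one_mul, h]
          congr 1
          congr 1
          refine propext ⟨fun h2 => ⟨h2.1, h⟩, fun h2 => ⟨h2.1, ?_⟩⟩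
          rw [← hpar t w, h, hg]
        · rw [ind_not h, zero_mul, ind_not (fun h2 => h h2.2), zero_mul]
      have e2 : P.E (fun w => ind (gm (t + 1) w = g') * (ind (gm t w = g) * ρ (t + 1) (gm (t + 1) w) v)) =
          P.Pr (fun w => gm (t + 1) w = g') * ρ (t + 1) g' v := by
        unfold FP.Pr
        rw [← P.E_mul_const]
        refine P.E_congr fun w _ => ?_
        by_cases h : gm (t + 1) w = g'
        · rw [ind_of h, one_mul, h, ind_of (show gm t w = g by rw [← hpar t w, h, hg]), one_mul]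
        · rw [ind_not h, zero_mul, zero_mul]
      rw [e1, e2, hind]
      ring
    · have e1 : P.E (fun w => ind (gm (t + 1) w = g') * (ind (Kp w = k ∧ gm t w = g) * ρ (t + 1) (gm (t + 1) w) v)) =
          P.E (fun _ => 0) := by
        refine P.E_congr fun w _ => ?_
        by_cases h : gm (t + 1) w = g'
        · rw [ind_not (fun h2 : Kp w = k ∧ gm t w = g => hg (by rw [← h, hpar]; exact h2.2)), zero_mul, mul_zero]
        · rw [ind_not h, zero_mul]
      have e2 : P.E (fun w => ind (gm (t + 1) w = g') * (ind (gm t w = g) * ρ (t + 1) (gm (t + 1) w) v)) =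
          P.E (fun _ => 0) := by
        refine P.E_congr fun w _ => ?_
        by_cases h : gm (t + 1) w = g'
        · rw [ind_not (fun h2 : gm t w = g => hg (by rw [← h, hpar]; exact h2)), zero_mul, mul_zero]
        · rw [ind_not h, zero_mul]
      rw [e1, e2, P.E_const, zero_div]
  rw [h1, hm, hind]
  ring

theorem mart_K (hpar : ∀ t w, par t (gm (t + 1) w) = gm t w)
    (hind : ∀ t g k, P.Pr (fun w => Kp w = k ∧ gm t w = g) = P.Pr (fun w => gm t w = g) / N)
    (hm : ∀ t g v, P.E (fun w => ind (gm t w = g) * ρ (t + 1) (gm (t + 1) w) v) =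
      P.Pr (fun w => gm t w = g) * ρ t g v) (t : ℕ) (f : Om → V → ℝ) (hf : Fac (fun w => (Kp w, gm t w)) f) :
    P.E (fun w => ∑ d, ρ (t + 1) (gm (t + 1) w) d * f w d) = P.E (fun w => ∑ d, ρ t (gm t w) d * f w d) := by
  rw [P.E_sum, P.E_sum]
  refine Finset.sum_congr rfl fun d _ => ?_
  have hfd : Fac (fun w => (Kp w, gm t w)) (fun w => f w d) := fun v w h => by
    show f v d = f w d
    rw [hf v w h]
  have hce : ∀ w, P.p w ≠ 0 → P.ce (fun w => (Kp w, gm t w)) (fun v => ρ (t + 1) (gm (t + 1) v) d) w =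
      ρ t (gm t w) d := by
    intro w hw
    have h0 := P.m_pos (fun w => (Kp w, gm t w)) hw
    have h1 := mart_fib (P := P) hpar hind hm t (gm t w) (Kp w) d
    have e : ∀ v, ((Kp v, gm t v) = (Kp w, gm t w)) = (Kp v = Kp w ∧ gm t v = gm t w) := fun v =>
      propext Prod.mk_inj
    unfold FP.ce FP.m at *
    simp only [e] at h0 ⊢
    rw [h1]
    unfold FP.Pr
    field_simp
  rw [← P.E_ce_mul hfd (fun v => ρ (t + 1) (gm (t + 1) v) d)]
  exact P.E_congr fun w hw => by rw [hce w hw]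

end mart

/-! ### means -/

noncomputable section

variable {Om Ξ A B C V Γ κ : Type} [Fintype Om] [Fintype Ξ] [Fintype A] [Fintype B]
    [Fintype C] [Fintype V]

/-- mean over the averaged window -/
def Tri.mean (T : Tri Om Ξ A B C V Γ κ) (t : ℕ) (w : Om) (f : V → ℝ) : ℝ := ∑ d, T.ρ t (T.gm t w) d * f d

theorem Tri.isMean (T : Tri Om Ξ A B C V Γ κ) (t : ℕ) (w : Om) : IsMean (T.mean t w) where
  add f g := by
    unfold Tri.mean
    rw [← Finset.sum_add_distrib]
    exact Finset.sum_congr rfl fun d _ => by ring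
  smul c f := by
    unfold Tri.mean
    rw [Finset.mul_sum]
    exact Finset.sum_congr rfl fun d _ => by ring
  mono f g h := Finset.sum_le_sum fun d _ => mul_le_mul_of_nonneg_left (h d) ((T.wt _ _).nn d)
  one := by
    unfold Tri.mean
    simp only [mul_one]
    exact T.one t w

theorem Tri.mean_mul (T : Tri Om Ξ A B C V Γ κ) (t : ℕ) (w : Om) (f h : V → ℝ) :
    T.mean t w (fun d => f d * h d) = iw (T.ρ t (T.gm t w)) f h := by
  unfold Tri.mean iw
  exact Finset.sum_congr rfl fun d _ => by ring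

/-- `(xi, a, c)` is uniform and independent of the nodes -/
theorem Tri.ind_xac (T : Tri Om Ξ A B C V Γ κ) (t : ℕ) (g : Γ) (k : Ξ × A × C) :
    T.P.Pr (fun w => (T.xi w, T.a w, T.c w) = k ∧ T.gm t w = g) =
      T.P.Pr (fun w => T.gm t w = g) / (Fintype.card Ξ * Fintype.card A * Fintype.card C) := by
  rw [← T.iac t g k.1 k.2.1 k.2.2]
  unfold FP.Pr
  refine T.P.E_congr fun w _ => ?_
  congr 1
  refine propext ⟨fun h => ?_, fun h => ?_⟩
  · rw [← h.1]
    exact ⟨rfl, rfl, rfl, h.2⟩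
  · obtain ⟨h1, h2, h3, h4⟩ := h
    exact ⟨by rw [h1, h2, h3], h4⟩

/-- `(xi, a)` is uniform given `(c, gm t)` -/
theorem Tri.free_xa (T : Tri Om Ξ A B C V Γ κ) (t : ℕ) (g : C × Γ) (x x' : Ξ × A) :
    T.P.Pr (fun w => (T.xi w, T.a w) = x ∧ (T.c w, T.gm t w) = g) =
      T.P.Pr (fun w => (T.xi w, T.a w) = x' ∧ (T.c w, T.gm t w) = g) := by
  have key : ∀ x : Ξ × A, T.P.Pr (fun w => (T.xi w, T.a w) = x ∧ (T.c w, T.gm t w) = g) =
      T.P.Pr (fun w => T.gm t w = g.2) / (Fintype.card Ξ * Fintype.card A * Fintype.card C) := by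
    intro x
    rw [← T.iac t g.2 x.1 x.2 g.1]
    unfold FP.Pr
    refine T.P.E_congr fun w _ => ?_
    congr 1
    refine propext ⟨fun h => ?_, fun h => ?_⟩
    · rw [← h.1, ← h.2]
      exact ⟨rfl, rfl, rfl, rfl⟩
    · obtain ⟨h1, h2, h3, h4⟩ := h
      exact ⟨by rw [h1, h2], by rw [h3, h4]⟩
  rw [key x, key x']

end

/-! ### the runs -/

noncomputable section runs

variable {Om A B C V Γ κ S : Type} [Fintype Om] [Fintype A] [Fintype B] [Fintype C] [Fintype V]
  [Fintype S] [DecidableEq S] {m : ℕ} {T : Tri Om (S → Fin m) A B C V Γ κ}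

namespace Inp

variable (I : Inp T S)

theorem on_congr {s : S} {t : ℕ} {v w : Om} (h : T.gm t v = T.gm t w) : I.on s t v ↔ I.on s t w := by
  unfold on
  constructor
  · rintro ⟨h1, h2⟩
    exact ⟨h1, by rw [← h2]; exact (T.gm_anc h1 h).symm⟩
  · rintro ⟨h1, h2⟩
    exact ⟨h1, by rw [← h2]; exact T.gm_anc h1 h⟩

theorem on_mono {s : S} {t u : ℕ} (h : t ≤ u) {w : Om} (h1 : I.on s t w) : I.on s u w := ⟨h1.1.trans h, h1.2⟩

/-- `act` depends only on the cell of `a`, on `c` and on the node -/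
theorem act_congr {s : S} {t : ℕ} {v w : Om} (ha : T.ca t (T.a v) = T.ca t (T.a w)) (hc : T.c v = T.c w)
    (h : T.gm t v = T.gm t w) : I.act v t s ↔ I.act w t s := by
  unfold act
  constructor
  · rintro ⟨h1, h2, h3⟩
    refine ⟨(I.on_congr h).1 h1, ?_, by rw [← hc]; exact h3⟩
    rw [← h2]
    exact (nest_le T.na h1.1 ha).symm
  · rintro ⟨h1, h2, h3⟩
    refine ⟨(I.on_congr h).2 h1, ?_, by rw [hc]; exact h3⟩
    rw [← h2]
    exact nest_le T.na h1.1 ha

theorem act_mono {s : S} {t u : ℕ} (h : t ≤ u) {w : Om} (h1 : I.act w t s) : I.act w u s :=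
  ⟨I.on_mono h h1.1, h1.2⟩

/-- after the birth time `act` does not change -/
theorem act_stat {s : S} {t : ℕ} (h : I.R.tb s ≤ t) {w : Om} : I.act w t s ↔ I.act w (I.R.tb s) s := by
  unfold act on
  constructor
  · rintro ⟨h1, h2⟩
    exact ⟨⟨le_rfl, h1.2⟩, h2⟩
  · rintro ⟨h1, h2⟩
    exact ⟨⟨h, h1.2⟩, h2⟩

theorem not_act {s : S} {t : ℕ} (h : t < I.R.tb s) {w : Om} : ¬ I.act w t s := fun h1 => by
  have := h1.1.1
  omega

/-- the record of the runs depends only on `(xi s, a, cell of c, node)` -/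
theorem Zd_congr {s : S} {j : ℕ} {v w : Om} (ha : T.a v = T.a w) (hc : T.cc j (T.c v) = T.cc j (T.c w))
    (h : T.gm j v = T.gm j w) : I.Zd s j v = I.Zd s j w := by
  unfold Zd
  refine Finset.sup'_congr _ rfl fun w' _ => ?_
  rw [ha, hc, h]
  congr 2
  exact propext (and_congr_left' (I.on_congr h))

theorem Dm_congr {s : S} {t : ℕ} {v w : Om} (ha : T.a v = T.a w) (hc : T.cc t (T.c v) = T.cc t (T.c w))
    (h : T.gm t v = T.gm t w) : I.Dm s t v = I.Dm s t w := by
  unfold Dm FP.rmax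
  congr 1
  refine Finset.sup'_congr _ rfl fun j hj => ?_
  have hj' : j ≤ t := by
    have := Finset.mem_range.1 hj
    omega
  exact I.Zd_congr ha (nest_le T.nc hj' hc) (T.gm_anc hj' h)

theorem N1_congr {R0 : ℝ} {s : S} {t : ℕ} {v w : Om} (hx : T.xi v s = T.xi w s) (ha : T.a v = T.a w)
    (hc : T.cc t (T.c v) = T.cc t (T.c w)) (h : T.gm t v = T.gm t w) : I.N1 R0 v t s ↔ I.N1 R0 w t s := by
  unfold N1
  rw [hx, I.Dm_congr ha hc h]

/-! ### letters -/

variable (F : S → ℕ → C × Γ → B → V → ℝ) (Bn : S → ℕ → C × Γ → κ → List (Finset B)) (n1 : ℝ)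

/-- all letters tested at `w`, both signs -/
def al1 (t : ℕ) (w : Om) : Set (S × (V → ℝ)) :=
  {p | I.act w t p.1 ∧ ∃ f ∈ T.let1 F Bn n1 p.1 t w, p.2 = f ∨ p.2 = fun d => - f d}

theorem let1_congr {s : S} {t : ℕ} {v w : Om} (ha : T.ca t (T.a v) = T.ca t (T.a w)) (hc : T.c v = T.c w)
    (h : T.gm t v = T.gm t w) : T.let1 F Bn n1 s t v = T.let1 F Bn n1 s t w := by
  unfold Tri.let1
  rw [ha, hc, h]

theorem al1_congr {t : ℕ} {v w : Om} (ha : T.ca t (T.a v) = T.ca t (T.a w)) (hc : T.c v = T.c w)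
    (h : T.gm t v = T.gm t w) : I.al1 F Bn n1 t v = I.al1 F Bn n1 t w := by
  unfold al1
  ext p
  simp only [Set.mem_ofPred_eq]
  rw [I.act_congr ha hc h, let1_congr F Bn n1 ha hc h]

theorem al1_fin (t : ℕ) (w : Om) : (I.al1 F Bn n1 t w).Finite := by
  classical
  refine Set.Finite.subset (Set.finite_range (fun q : S × B × Bool =>
    (q.1, if q.2.2 then F q.1 t (T.c w, T.gm t w) q.2.1 else fun d => - F q.1 t (T.c w, T.gm t w) q.2.1 d))) ?_
  rintro ⟨s, h⟩ ⟨_, f, ⟨b', _, _, rfl⟩, hf⟩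
  rcases hf with hf | hf
  · exact ⟨(s, b', true), by simp only [if_true] at hf ⊢; rw [← hf]⟩
  · exact ⟨(s, b', false), by
      simp only [Bool.false_eq_true, if_false] at hf ⊢
      rw [← hf]⟩

/-- the list of the letters -/
def ls1 (t : ℕ) (w : Om) : List (S × (V → ℝ)) := (I.al1_fin F Bn n1 t w).toFinset.toList

theorem mem_ls1 {t : ℕ} {w : Om} {p : S × (V → ℝ)} : p ∈ I.ls1 F Bn n1 t w ↔ p ∈ I.al1 F Bn n1 t w := by
  unfold ls1
  rw [Finset.mem_toList, Set.Finite.mem_toFinset]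

theorem ls1_congr {t : ℕ} {v w : Om} (ha : T.ca t (T.a v) = T.ca t (T.a w)) (hc : T.c v = T.c w)
    (h : T.gm t v = T.gm t w) : I.ls1 F Bn n1 t v = I.ls1 F Bn n1 t w := by
  unfold ls1
  congr 1
  ext p
  rw [Set.Finite.mem_toFinset, Set.Finite.mem_toFinset, I.al1_congr F Bn n1 ha hc h]

/-- data of an individual -/
def loc1 (t : ℕ) (w : Om) : Loc S V where
  m := T.mean t w
  ls := I.ls1 F Bn n1 t w
  u := I.G2 t (T.gm t w) (T.a w) (T.c w)
  v := fun s => I.R.v s (T.a w)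
  rs := ∃ u, t = u + 1 ∧ I.G2 t (T.gm t w) (T.a w) (T.c w) ≠ I.G2 u (T.gm u w) (T.a w) (T.c w)

/-- information of an individual -/
def _root_.Pool.Agent.M3.S2.Tri.KK1 (T : Tri Om (S → Fin m) A B C V Γ κ) (t : ℕ) (w : Om) :
    ((S → Fin m) × A × C) × Γ := ((T.xi w, T.a w, T.c w), T.gm t w)

/-- public information of the cell -/
def _root_.Pool.Agent.M3.S2.Tri.QQ1 (T : Tri Om (S → Fin m) A B C V Γ κ) (t : ℕ) (w : Om) :
    (C × Γ) × κ := ((T.c w, T.gm t w), T.ca t (T.a w))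

theorem K1_iff {t : ℕ} {v w : Om} : T.KK1 t v = T.KK1 t w ↔
    T.xi v = T.xi w ∧ T.a v = T.a w ∧ T.c v = T.c w ∧ T.gm t v = T.gm t w := by
  unfold Tri.KK1
  simp only [Prod.mk.injEq]
  tauto

theorem Q1_iff {t : ℕ} {v w : Om} : T.QQ1 t v = T.QQ1 t w ↔
    T.c v = T.c w ∧ T.gm t v = T.gm t w ∧ T.ca t (T.a v) = T.ca t (T.a w) := by
  unfold Tri.QQ1
  simp only [Prod.mk.injEq]
  tauto

theorem K1_filt : Filt T.KK1 := fun t v w h => by
  rw [K1_iff] at h ⊢
  exact ⟨h.1, h.2.1, h.2.2.1, T.gm_anc (Nat.le_succ t) h.2.2.2⟩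

theorem loc1_fac (t : ℕ) : Fac (T.KK1 t) (I.loc1 F Bn n1 t) := fun v w h => by
  rw [K1_iff] at h
  obtain ⟨_, ha, hc, hg⟩ := h
  unfold loc1
  rw [I.ls1_congr F Bn n1 (by rw [ha]) hc hg, ha, hc, hg]
  have e1 : T.mean t v = T.mean t w := by
    funext f
    unfold Tri.mean
    rw [hg]
  have e2 : (∃ u, t = u + 1 ∧ I.G2 t (T.gm t w) (T.a w) (T.c w) ≠ I.G2 u (T.gm u v) (T.a w) (T.c w)) =
      (∃ u, t = u + 1 ∧ I.G2 t (T.gm t w) (T.a w) (T.c w) ≠ I.G2 u (T.gm u w) (T.a w) (T.c w)) := by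
    refine propext (exists_congr fun u => ?_)
    constructor
    · rintro ⟨h1, h2⟩
      exact ⟨h1, by rw [← T.gm_anc (by omega : u ≤ t) hg]; exact h2⟩
    · rintro ⟨h1, h2⟩
      exact ⟨h1, by rw [T.gm_anc (by omega : u ≤ t) hg]; exact h2⟩
  rw [e1, e2]

/-- the active references, as a finite set -/
def A1 (t : ℕ) (w : Om) : Finset S := @Finset.filter S (fun s => I.act w t s) (fun _ => Classical.propDecidable _) univ

theorem mem_A1 {t : ℕ} {w : Om} {s : S} : s ∈ I.A1 t w ↔ I.act w t s := by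
  unfold A1
  simp

theorem A1_fac (t : ℕ) : Fac (T.QQ1 t) (I.A1 t) := fun v w h => by
  rw [Q1_iff] at h
  ext s
  rw [mem_A1, mem_A1]
  exact I.act_congr h.2.2 h.1 h.2.1

end Inp

end runs


end Pool.Agent.M3.S2
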