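import Pool.Agent.M3.S2.Stage1

/-!
# M3/S2/Stage1b : runs of stage 1, error process, error bound (helper44)
-/

set_option autoImplicit false

namespace Pool.Agent.M3.S2

open Finset Pool.Agent.PWZ Pool.Agent.M3.TS

theorem ce_mono_fib {Om α : Type} [Fintype Om] (P : FP Om) {X : Om → α} {f g : Om → ℝ} {w : Om}
    (h : ∀ v, X v = X w → f v ≤ g v) : P.ce X f w ≤ P.ce X g w := by
  unfold FP.ce
  refine div_le_div_of_nonneg_right (P.E_mono fun v _ => ?_) (P.m_nonneg X w)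
  by_cases hv : X v = X w
  · rw [ind_of hv, one_mul, one_mul]
    exact h v hv
  · rw [ind_not hv, zero_mul, zero_mul]

noncomputable section

variable {Om A B C V Γ κ S : Type} [Fintype Om] [Fintype A] [Fintype B] [Fintype C] [Fintype V]
  [Fintype S] [DecidableEq S] {m : ℕ} {T : Tri Om (S → Fin m) A B C V Γ κ}

namespace Inp

variable (I : Inp T S) (F : S → ℕ → C × Γ → B → V → ℝ) (Bn : S → ℕ → C × Γ → κ → List (Finset B)) (n1 : ℝ)

/-- the public tests of stage 1 -/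
structure Tests1 (η1 : ℝ) (n2 : ℕ) (R0 ε2 : ℝ) (ts : ℕ → Om → List (S × (V → ℝ))) : Prop where
  tsQ : ∀ t, Fac (T.QQ1 t) (ts t)
  act : ∀ t w, ∀ p ∈ ts t w, I.act w t p.1
  bd : ∀ t w, ∀ p ∈ ts t w, ∀ d, |p.2 d| ≤ 1
  P2 : ∀ t w s, I.act w t s → ∀ g : V → ℝ, (∀ d, |g d| ≤ 1) →
    T.P.ce (T.QQ1 t) (fun w => ind (Hit η1 n2 (I.loc1 F Bn n1 t w)
      (Hi η1 n2 (I.loc1 F Bn n1) ts (nuP (fun t w => I.act w t) (fun t w => I.N1 R0 w t) s) t w) (s, g))) w < ε2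
  cnt : ∀ t w s, ε2 * cntS s (ts t w) ≤ T.P.ce (T.QQ1 t)
    (Up η1 n2 (I.loc1 F Bn n1) ts (nuP (fun t w => I.act w t) (fun t w => I.N1 R0 w t) s) t) w

theorem tests1 {η1 : ℝ} (hη : 0 < η1) (n2 : ℕ) (R0 : ℝ) {ε2 : ℝ} (hε : 0 < ε2) :
    ∃ ts, I.Tests1 F Bn n1 η1 n2 R0 ε2 ts := by
  obtain ⟨ts, h1, h2, h3, h4⟩ := exists_tests T.P (Q := T.QQ1) (η := η1) (n2 := n2) (x := I.loc1 F Bn n1)
    (N := fun t w => I.N1 R0 w t) (b := fun t w => I.act w t) hη (fun t w => T.isMean t w) hε I.A1 I.A1_fac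
    (fun t w s h => I.mem_A1.1 h)
  exact ⟨ts, h1, fun t w p hp => I.mem_A1.1 (h2 t w p hp).1, fun t w p hp => (h2 t w p hp).2,
    fun t w s hs => h3 t w (T.ppos w) s (I.mem_A1.2 hs), fun t w s => h4 t w (T.ppos w) s⟩

variable {F Bn n1} {η1 : ℝ} {n2 : ℕ} {R0 ε2 : ℝ} {ts : ℕ → Om → List (S × (V → ℝ))}

/-- the virtual record -/
abbrev nu1 (R0 : ℝ) (s : S) : ℕ → Om → S → Prop := nuP (fun t w => I.act w t) (fun t w => I.N1 R0 w t) s

theorem nu1_fac (R0 : ℝ) (s : S) (t : ℕ) : Fac (T.KK1 t) (I.nu1 R0 s t) := fun v w h => by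
  rw [K1_iff] at h
  funext r
  refine propext ?_
  show (I.N1 R0 v t r ∨ (r = s ∧ I.act v t s)) ↔ (I.N1 R0 w t r ∨ (r = s ∧ I.act w t s))
  rw [I.N1_congr (congrFun h.1 r) h.2.1 (by rw [h.2.2.1]) h.2.2.2, I.act_congr (by rw [h.2.1]) h.2.2.1 h.2.2.2]

theorem QK (t : ℕ) : Fac (T.KK1 t) (T.QQ1 t) := fun v w h => by
  rw [K1_iff] at h
  rw [Q1_iff]
  exact ⟨h.2.2.1, h.2.2.2, by rw [h.2.1]⟩

theorem bd_ls1 (hF : ∀ s t g b d, |F s t g b d| ≤ 1) (t : ℕ) (w : Om) : Bd (I.ls1 F Bn n1 t w) := by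
  intro p hp d
  rw [I.mem_ls1] at hp
  obtain ⟨_, f, ⟨b', _, _, rfl⟩, h⟩ := hp
  rcases h with h | h
  · rw [h]; exact hF _ _ _ _ _
  · rw [h, abs_neg]; exact hF _ _ _ _ _

/-- the runs satisfy the hypotheses of `RunE`, for any record which is a function of the information -/
theorem runHyp1 (hη : 0 < η1) (hF : ∀ s t g b d, |F s t g b d| ≤ 1) (hts : I.Tests1 F Bn n1 η1 n2 R0 ε2 ts)
    {ν : ℕ → Om → S → Prop} (hν : ∀ t, Fac (T.KK1 t) (ν t)) :
    RunHyp T.P T.KK1 T.mean 0 η1 n2 (I.loc1 F Bn n1) ts ν where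
  eta := hη
  small := by rw [zero_mul]; positivity
  filt := K1_filt
  xK := I.loc1_fac F Bn n1
  tsK := fun t => (QK t).trans (hts.tsQ t)
  nuK := hν
  mean := fun t w => T.isMean t w
  Mean := fun t w => T.isMean t w
  near := fun t w f c _ _ => by
    show |T.mean t w f - T.mean t w f| ≤ 0 * c
    rw [sub_self, abs_zero, zero_mul]
  u1 := fun t w d => I.G2b _ _ _ _ _
  v1 := fun t w s d => I.v1 _ _ _
  ls1 := fun t w => I.bd_ls1 hF t w
  ts1 := hts.bd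
  ust := fun t w h => by
    refine ⟨?_, rfl⟩
    by_contra h1
    exact h ⟨t, rfl, h1⟩
  mart := fun t f hf => by
    have := mart_K (P := T.P) (Kp := fun w => (T.xi w, T.a w, T.c w)) (gm := T.gm) (par := T.par) (ρ := T.ρ)
      (N := Fintype.card (S → Fin m) * Fintype.card A * Fintype.card C) T.par_gm T.ind_xac T.mart t f hf
    exact this

/-- the error process of the run `+s`, times `v_s` -/
def Z1 (F : S → ℕ → C × Γ → B → V → ℝ) (Bn : S → ℕ → C × Γ → κ → List (Finset B)) (n1 η1 : ℝ) (n2 : ℕ) (R0 : ℝ)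
    (ts : ℕ → Om → List (S × (V → ℝ))) (s : S) (t : ℕ) (w : Om) (d : V) : ℝ :=
  ind (I.act w t s) * (Er η1 n2 (I.loc1 F Bn n1 t w).u (I.loc1 F Bn n1 t w).v
    (Hi η1 n2 (I.loc1 F Bn n1) ts (I.nu1 R0 s) t w) d * I.R.v s (T.a w) d)

theorem Z1_fac (hη : 0 < η1) (hF : ∀ s t g b d, |F s t g b d| ≤ 1) (hts : I.Tests1 F Bn n1 η1 n2 R0 ε2 ts) (s : S)
    (t : ℕ) : Fac (T.KK1 t) (I.Z1 F Bn n1 η1 n2 R0 ts s t) := fun v w h => by
  have hR := I.runHyp1 hη hF hts (I.nu1_fac R0 s)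
  have h1 := Hi_fac (η := η1) (n2 := n2) hR.filt hR.xK hR.tsK hR.nuK t v w h
  have h2 := I.loc1_fac F Bn n1 t v w h
  rw [K1_iff] at h
  have h3 := I.act_congr (s := s) (t := t) (by rw [h.2.1]) h.2.2.1 h.2.2.2
  funext d
  unfold Z1
  rw [h1, h2, h.2.1]
  congr 1
  by_cases h4 : I.act w t s
  · rw [ind_of h4, ind_of (h3.2 h4)]
  · rw [ind_not h4, ind_not fun h5 => h4 (h3.1 h5)]

theorem Z1_bd (hη : 0 < η1) (hF : ∀ s t g b d, |F s t g b d| ≤ 1) (hts : I.Tests1 F Bn n1 η1 n2 R0 ε2 ts) (s : S)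
    (t : ℕ) (w : Om) (d : V) : |I.Z1 F Bn n1 η1 n2 R0 ts s t w d| ≤ 1 + n2 * η1 := by
  have hR := I.runHyp1 hη hF hts (I.nu1_fac R0 s)
  have h1 := abs_Er_le (n2 := n2) hη (hR.u1 t w) (hR.v1 t w) (hR.Hi_bd t w) d
  have h2 := I.v1 s (T.a w) d
  unfold Z1
  rw [abs_mul, abs_of_nonneg (ind_nonneg _), abs_mul]
  have h3 := ind_le_one (I.act w t s)
  have h4 := ind_nonneg (I.act w t s)
  have h5 : (0 : ℝ) ≤ 1 + n2 * η1 := by positivity
  calc _ ≤ 1 * ((1 + n2 * η1) * 1) := by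
        refine mul_le_mul h3 ?_ (by positivity) (by norm_num)
        exact mul_le_mul h1 h2 (abs_nonneg _) h5
    _ = 1 + n2 * η1 := by ring

theorem Z1_zero (s : S) (w : Om) (d : V) : I.Z1 F Bn n1 η1 n2 R0 ts s 0 w d = 0 := by
  unfold Z1
  rw [ind_not (I.not_act (by have := I.tb1 s; omega)), zero_mul]

theorem hit_iff {t : ℕ} {w : Om} {s : S} (ha : I.act w t s) (g : V → ℝ) :
    Hit η1 n2 (I.loc1 F Bn n1 t w) (Hi η1 n2 (I.loc1 F Bn n1) ts (I.nu1 R0 s) t w) (s, g) ↔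
      η1 ≤ iw (T.ρ t (T.gm t w)) g (I.Z1 F Bn n1 η1 n2 R0 ts s t w) := by
  unfold Hit Z1
  rw [← T.mean_mul]
  have e : (fun d => g d * Er η1 n2 (I.loc1 F Bn n1 t w).u (I.loc1 F Bn n1 t w).v
      (Hi η1 n2 (I.loc1 F Bn n1) ts (I.nu1 R0 s) t w) d * (I.loc1 F Bn n1 t w).v s d) = fun d => g d *
      (ind (I.act w t s) * (Er η1 n2 (I.loc1 F Bn n1 t w).u (I.loc1 F Bn n1 t w).v
        (Hi η1 n2 (I.loc1 F Bn n1) ts (I.nu1 R0 s) t w) d * I.R.v s (T.a w) d)) := by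
    funext d
    rw [ind_of ha, one_mul]
    show g d * _ * I.R.v s (T.a w) d = _
    ring
  show η1 ≤ T.mean t w _ ↔ _
  rw [e]

theorem hit_neg_iff {t : ℕ} {w : Om} {s : S} (ha : I.act w t s) (g : V → ℝ) :
    Hit η1 n2 (I.loc1 F Bn n1 t w) (Hi η1 n2 (I.loc1 F Bn n1) ts (I.nu1 R0 s) t w) (s, fun d => - g d) ↔
      iw (T.ρ t (T.gm t w)) g (I.Z1 F Bn n1 η1 n2 R0 ts s t w) ≤ - η1 := by
  rw [I.hit_iff ha]
  have e : iw (T.ρ t (T.gm t w)) (fun d => - g d) (I.Z1 F Bn n1 η1 n2 R0 ts s t w) =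
      - iw (T.ρ t (T.gm t w)) g (I.Z1 F Bn n1 η1 n2 R0 ts s t w) := by
    unfold iw
    rw [← Finset.sum_neg_distrib]
    exact Finset.sum_congr rfl fun d _ => by ring
  rw [e]
  constructor <;> intro h <;> linarith

/-- (P2) for the error process -/
theorem Z1_P2 (hη : 0 < η1) (hε : 0 < ε2) (hts : I.Tests1 F Bn n1 η1 n2 R0 ε2 ts) (s : S) (t : ℕ) (w : Om)
    (g : V → ℝ) (hg : ∀ d, |g d| ≤ 1) :
    T.P.ce (T.QQ1 t) (fun w => ind (η1 ≤ |iw (T.ρ t (T.gm t w)) g (I.Z1 F Bn n1 η1 n2 R0 ts s t w)|)) w ≤ 2 * ε2 := by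
  by_cases ha : I.act w t s
  · have h1 := (hts.P2 t w s ha g hg).le
    have h2 := (hts.P2 t w s ha (fun d => - g d) fun d => by rw [abs_neg]; exact hg d).le
    have hle : T.P.ce (T.QQ1 t) (fun w => ind (η1 ≤ |iw (T.ρ t (T.gm t w)) g (I.Z1 F Bn n1 η1 n2 R0 ts s t w)|)) w ≤
        T.P.ce (T.QQ1 t) (fun w => ind (Hit η1 n2 (I.loc1 F Bn n1 t w)
          (Hi η1 n2 (I.loc1 F Bn n1) ts (I.nu1 R0 s) t w) (s, g)) + ind (Hit η1 n2 (I.loc1 F Bn n1 t w)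
          (Hi η1 n2 (I.loc1 F Bn n1) ts (I.nu1 R0 s) t w) (s, fun d => - g d))) w := by
      refine ce_mono_fib T.P fun v hv => ?_
      have hv' : I.act v t s := (I.act_congr (Q1_iff.1 hv).2.2 (Q1_iff.1 hv).1 (Q1_iff.1 hv).2.1).2 ha
      refine le_trans (ind_mono fun h => ?_) (ind_or_le _ _)
      rw [I.hit_iff hv', I.hit_neg_iff hv']
      rcases le_abs.1 h with h3 | h3
      · exact Or.inl h3
      · exact Or.inr (by linarith)
    rw [T.P.ce_add] at hle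
    linarith
  · have hle : T.P.ce (T.QQ1 t) (fun w => ind (η1 ≤ |iw (T.ρ t (T.gm t w)) g (I.Z1 F Bn n1 η1 n2 R0 ts s t w)|)) w ≤
        T.P.ce (T.QQ1 t) (fun _ => 0) w := by
      refine ce_mono_fib T.P fun v hv => ?_
      have hv' : ¬ I.act v t s := fun h =>
        ha ((I.act_congr (Q1_iff.1 hv).2.2 (Q1_iff.1 hv).1 (Q1_iff.1 hv).2.1).1 h)
      have e : iw (T.ρ t (T.gm t v)) g (I.Z1 F Bn n1 η1 n2 R0 ts s t v) = 0 := by
        unfold iw Z1
        refine Finset.sum_eq_zero fun d _ => ?_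
        rw [ind_not hv']
        ring
      rw [e, abs_zero, ind_not (not_le.2 hη)]
    rw [T.P.ce_const _ _ (T.ppos w)] at hle
    linarith

/-- (P1): the name of `b` is tested -/
theorem Z1_P1 (hη : 0 < η1) (s : S) (t : ℕ) (w : Om)
    (hl : ¬ lost (fun t (g : C × Γ) => (g.1, T.par t g.2)) T.cb (Bn s) n1 t (T.c w, T.gm t w) (T.b w)) :
    |iw (T.ρ t (T.gm t w)) (F s t (T.c w, T.gm t w) (T.b w)) (I.Z1 F Bn n1 η1 n2 R0 ts s t w)| ≤ η1 := by
  by_cases ha : I.act w t s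
  · have hlet : F s t (T.c w, T.gm t w) (T.b w) ∈ T.let1 F Bn n1 s t w :=
      ⟨T.b w, ⟨w, rfl, rfl, rfl, rfl⟩, hl, rfl⟩
    have hν : I.nu1 R0 s t w s := Or.inr ⟨rfl, ha⟩
    have h1 := hist_P1 (η := η1) (n2 := n2) (x := fun t => I.loc1 F Bn n1 t w) (ts := fun t => ts t w)
      (ν := fun t => I.nu1 R0 s t w) hη (fun t => T.isMean t w) t
      (p := (s, F s t (T.c w, T.gm t w) (T.b w))) ((I.mem_ls1 F Bn n1).2 ⟨ha, _, hlet, Or.inl rfl⟩) hν
    have h2 := hist_P1 (η := η1) (n2 := n2) (x := fun t => I.loc1 F Bn n1 t w) (ts := fun t => ts t w)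
      (ν := fun t => I.nu1 R0 s t w) hη (fun t => T.isMean t w) t
      (p := (s, fun d => - F s t (T.c w, T.gm t w) (T.b w) d)) ((I.mem_ls1 F Bn n1).2 ⟨ha, _, hlet, Or.inr rfl⟩) hν
    have h3 : ¬ Hit η1 n2 (I.loc1 F Bn n1 t w) (Hi η1 n2 (I.loc1 F Bn n1) ts (I.nu1 R0 s) t w)
      (s, F s t (T.c w, T.gm t w) (T.b w)) := h1
    have h4 : ¬ Hit η1 n2 (I.loc1 F Bn n1 t w) (Hi η1 n2 (I.loc1 F Bn n1) ts (I.nu1 R0 s) t w)
      (s, fun d => - F s t (T.c w, T.gm t w) (T.b w) d) := h2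
    rw [I.hit_iff ha] at h3
    rw [I.hit_neg_iff ha] at h4
    rw [abs_le]
    constructor <;> linarith
  · have e : iw (T.ρ t (T.gm t w)) (F s t (T.c w, T.gm t w) (T.b w)) (I.Z1 F Bn n1 η1 n2 R0 ts s t w) = 0 := by
      unfold iw Z1
      refine Finset.sum_eq_zero fun d _ => ?_
      rw [ind_not ha]
      ring
    rw [e, abs_zero]
    exact hη.le

/-! ### number of moves of the error process -/

theorem act_iff_tb {s : S} {t : ℕ} {w : Om} : I.act w t s ↔ I.R.tb s ≤ t ∧ I.act w (I.R.tb s) s := by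
  constructor
  · intro h
    exact ⟨h.1.1, (I.act_stat h.1.1).1 h⟩
  · rintro ⟨h1, h2⟩
    exact (I.act_stat h1).2 h2

theorem ind_rs (t : ℕ) (w : Om) : ind (I.loc1 F Bn n1 (t + 1) w).rs =
    ind (I.G2 (t + 1) (T.gm (t + 1) w) (T.a w) (T.c w) ≠ I.G2 t (T.gm t w) (T.a w) (T.c w)) := by
  congr 1
  refine propext ⟨?_, fun h => ⟨t, rfl, h⟩⟩
  rintro ⟨u, hu, h⟩
  have : u = t := by omega
  subst this
  exact h

/-- one step of the error process -/
theorem Z1_step (s : S) (t : ℕ) (w : Om) :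
    ind (I.Z1 F Bn n1 η1 n2 R0 ts s (t + 1) w ≠ I.Z1 F Bn n1 η1 n2 R0 ts s t w) ≤
      (ind (I.act w (t + 1) s) - ind (I.act w t s)) + (ind (I.act w t s) * ind (I.loc1 F Bn n1 (t + 1) w).rs +
        ind (I.act w t s) * Up η1 n2 (I.loc1 F Bn n1) ts (I.nu1 R0 s) (t + 1) w) := by
  have hup : 0 ≤ Up η1 n2 (I.loc1 F Bn n1) ts (I.nu1 R0 s) (t + 1) w :=
    upd_nonneg (x := fun t => I.loc1 F Bn n1 t w) (ts := fun t => ts t w) (ν := fun t => I.nu1 R0 s t w) (t + 1)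
  by_cases h0 : I.act w t s
  · have h1 : I.act w (t + 1) s := I.act_mono (Nat.le_succ t) h0
    rw [ind_of h0, ind_of h1, one_mul, one_mul, sub_self, zero_add]
    by_cases hr : (I.loc1 F Bn n1 (t + 1) w).rs
    · rw [ind_of hr]
      linarith [ind_le_one (I.Z1 F Bn n1 η1 n2 R0 ts s (t + 1) w ≠ I.Z1 F Bn n1 η1 n2 R0 ts s t w)]
    · rw [ind_not hr, zero_add]
      have hpre : Hp η1 n2 (I.loc1 F Bn n1) ts (I.nu1 R0 s) (t + 1) w =
          Hi η1 n2 (I.loc1 F Bn n1) ts (I.nu1 R0 s) t w :=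
        hpre_succ (x := fun t => I.loc1 F Bn n1 t w) hr
      have hu : (I.loc1 F Bn n1 (t + 1) w).u = (I.loc1 F Bn n1 t w).u := by
        by_contra h2
        exact hr ⟨t, rfl, h2⟩
      have hsuf : Hp η1 n2 (I.loc1 F Bn n1) ts (I.nu1 R0 s) (t + 1) w <:+
          Hi η1 n2 (I.loc1 F Bn n1) ts (I.nu1 R0 s) (t + 1) w :=
        hpre_suffix (x := fun t => I.loc1 F Bn n1 t w) (t + 1)
      by_cases hlen : (Hp η1 n2 (I.loc1 F Bn n1) ts (I.nu1 R0 s) (t + 1) w).length =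
          (Hi η1 n2 (I.loc1 F Bn n1) ts (I.nu1 R0 s) (t + 1) w).length
      · have heq := hsuf.eq_of_length hlen
        have hZ : I.Z1 F Bn n1 η1 n2 R0 ts s (t + 1) w = I.Z1 F Bn n1 η1 n2 R0 ts s t w := by
          funext d
          unfold Z1
          rw [← heq, hpre, hu, ind_of h0, ind_of h1]
          rfl
        rw [ind_not fun h => h hZ]
        exact hup
      · have h3 := hsuf.length_le
        have h4 : (Hp η1 n2 (I.loc1 F Bn n1) ts (I.nu1 R0 s) (t + 1) w).length + 1 ≤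
          (Hi η1 n2 (I.loc1 F Bn n1) ts (I.nu1 R0 s) (t + 1) w).length := by omega
        have h5 : (1 : ℝ) ≤ Up η1 n2 (I.loc1 F Bn n1) ts (I.nu1 R0 s) (t + 1) w := by
          show (1 : ℝ) ≤ ((Hi η1 n2 (I.loc1 F Bn n1) ts (I.nu1 R0 s) (t + 1) w).length : ℝ) -
            ((Hp η1 n2 (I.loc1 F Bn n1) ts (I.nu1 R0 s) (t + 1) w).length : ℝ)
          have : (((Hp η1 n2 (I.loc1 F Bn n1) ts (I.nu1 R0 s) (t + 1) w).length : ℝ)) + 1 ≤
            ((Hi η1 n2 (I.loc1 F Bn n1) ts (I.nu1 R0 s) (t + 1) w).length : ℝ) := by exact_mod_cast h4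
          linarith
        exact (ind_le_one _).trans h5
  · rw [ind_not h0, zero_mul, zero_mul, add_zero, sub_zero, add_zero]
    by_cases h1 : I.act w (t + 1) s
    · rw [ind_of h1]
      exact ind_le_one _
    · have hZ : I.Z1 F Bn n1 η1 n2 R0 ts s (t + 1) w = I.Z1 F Bn n1 η1 n2 R0 ts s t w := by
        funext d
        unfold Z1
        rw [ind_not h0, ind_not h1, zero_mul, zero_mul]
      rw [ind_not fun h => h hZ]
      exact ind_nonneg _

/-- **number of moves** -/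
theorem Z1_moves (hη : 0 < η1) (hF : ∀ s t g b d, |F s t g b d| ≤ 1) (hts : I.Tests1 F Bn n1 η1 n2 R0 ε2 ts) (s : S) :
    ∑ t ∈ range T.n, T.P.Pr (fun w => I.Z1 F Bn n1 η1 n2 R0 ts s (t + 1) w ≠ I.Z1 F Bn n1 η1 n2 R0 ts s t w) ≤
      (1 + I.p0 + 2 / η1 ^ 2 * ((1 + n2 * η1) ^ 2 + I.p0)) * T.P.Pr (fun w => I.act w T.n s) := by
  have hR := I.runHyp1 hη hF hts (I.nu1_fac R0 s)
  set U : ℕ → Om → ℝ := Up η1 n2 (I.loc1 F Bn n1) ts (I.nu1 R0 s) with hU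
  have hup : ∀ t w, 0 ≤ U t w := fun t w =>
    upd_nonneg (x := fun t => I.loc1 F Bn n1 t w) (ts := fun t => ts t w) (ν := fun t => I.nu1 R0 s t w) t
  have hbn : ∀ {t : ℕ}, t ≤ T.n → ∀ w, ind (I.act w t s) ≤ ind (I.act w T.n s) := fun h w =>
    ind_mono (I.act_mono h)
  -- restarts
  have hrs : ∀ w, ∑ t ∈ range T.n, ind (I.loc1 F Bn n1 (t + 1) w).rs ≤ I.p0 := by
    intro w
    refine le_trans (le_of_eq ?_) (I.mv2 w)
    exact Finset.sum_congr rfl fun t _ => I.ind_rs t w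
  -- first part
  have h1 : ∑ t ∈ range T.n, T.P.E (fun w => ind (I.act w (t + 1) s) - ind (I.act w t s)) ≤
      T.P.Pr (fun w => I.act w T.n s) := by
    rw [← T.P.E_sum]
    unfold FP.Pr
    refine T.P.E_mono fun w _ => ?_
    rw [Finset.sum_range_sub (fun t => ind (I.act w t s))]
    linarith [ind_nonneg (I.act w 0 s)]
  have h2 : ∑ t ∈ range T.n, T.P.E (fun w => ind (I.act w t s) * ind (I.loc1 F Bn n1 (t + 1) w).rs) ≤
      I.p0 * T.P.Pr (fun w => I.act w T.n s) := by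
    rw [← T.P.E_sum]
    unfold FP.Pr
    rw [← T.P.E_smul]
    refine T.P.E_mono fun w _ => ?_
    calc ∑ t ∈ range T.n, ind (I.act w t s) * ind (I.loc1 F Bn n1 (t + 1) w).rs ≤
        ∑ t ∈ range T.n, ind (I.act w T.n s) * ind (I.loc1 F Bn n1 (t + 1) w).rs := by
          refine Finset.sum_le_sum fun t ht => mul_le_mul_of_nonneg_right (hbn ?_ w) (ind_nonneg _)
          rw [Finset.mem_range] at ht
          exact ht.le
      _ = ind (I.act w T.n s) * ∑ t ∈ range T.n, ind (I.loc1 F Bn n1 (t + 1) w).rs := by rw [Finset.mul_sum]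
      _ ≤ ind (I.act w T.n s) * I.p0 := mul_le_mul_of_nonneg_left (hrs w) (ind_nonneg _)
      _ = I.p0 * ind (I.act w T.n s) := mul_comm _ _
  -- updates
  have h3 : ∑ t ∈ range T.n, T.P.E (fun w => ind (I.act w t s) * U (t + 1) w) ≤
      2 / η1 ^ 2 * ((1 + n2 * η1) ^ 2 + I.p0) * T.P.Pr (fun w => I.act w T.n s) := by
    set b := I.R.tb s with hb
    have hbn' : b ≤ T.n := I.tbn s
    set φ : Om → ℝ := fun w => ind (I.act w b s) with hφ
    have hφf : Fac (T.KK1 b) φ := Fac.ind fun v w h => by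
      rw [K1_iff] at h
      exact I.act_congr (by rw [h.2.1]) h.2.2.1 h.2.2.2
    have hφ0 : ∀ w, 0 ≤ φ w := fun w => ind_nonneg _
    have hφn : ∀ w, φ w = ind (I.act w T.n s) := fun w => by
      show ind (I.act w b s) = ind (I.act w T.n s)
      congr 1
      exact propext (I.act_stat hbn').symm
    have hupd := hR.updates (s := b) (φ := φ) hφ0 hφf (T.n - b)
    have e1 : ∑ t ∈ range T.n, T.P.E (fun w => ind (I.act w t s) * U (t + 1) w) ≤
        ∑ j ∈ range (T.n - b + 1), T.P.E (fun w => φ w * U (b + j) w) := by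
      have e2 : ∑ t ∈ range T.n, T.P.E (fun w => ind (I.act w t s) * U (t + 1) w) =
          ∑ t ∈ Finset.Ico b T.n, T.P.E (fun w => φ w * U (t + 1) w) := by
        have : ∑ t ∈ Finset.Ico b T.n, T.P.E (fun w => φ w * U (t + 1) w) =
            ∑ t ∈ Finset.Ico b T.n, T.P.E (fun w => ind (I.act w t s) * U (t + 1) w) := by
          refine Finset.sum_congr rfl fun t ht => ?_
          rw [Finset.mem_Ico] at ht
          refine T.P.E_congr fun w _ => ?_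
          congr 1
          show ind (I.act w b s) = ind (I.act w t s)
          congr 1
          exact propext (I.act_stat ht.1).symm
        rw [this, Finset.range_eq_Ico]
        symm
        refine Finset.sum_subset (Finset.Ico_subset_Ico_left (Nat.zero_le b)) fun t ht hnt => ?_
        have hlt : t < b := by
          by_contra h4
          rw [Finset.mem_Ico] at ht hnt
          exact hnt ⟨not_lt.1 h4, ht.2⟩
        have : (fun w => ind (I.act w t s) * U (t + 1) w) = fun _ => (0 : ℝ) := by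
          funext w
          rw [ind_not (I.not_act hlt), zero_mul]
        rw [this]
        exact T.P.E_const 0
      rw [e2, Finset.sum_Ico_eq_sum_range, Finset.sum_range_succ']
      have e3 : ∀ j ∈ range (T.n - b), T.P.E (fun w => φ w * U (b + j + 1) w) =
          T.P.E (fun w => φ w * U (b + (j + 1)) w) := fun j _ => by rw [Nat.add_assoc]
      rw [Finset.sum_congr rfl e3]
      have : 0 ≤ T.P.E (fun w => φ w * U (b + 0) w) := T.P.E_nonneg fun w _ => mul_nonneg (hφ0 w) (hup _ _)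
      linarith
    have h4 : 0 ≤ T.P.E (fun w => φ w * RunHyp.en η1 n2 T.mean (I.loc1 F Bn n1)
        (Hi η1 n2 (I.loc1 F Bn n1) ts (I.nu1 R0 s)) (b + (T.n - b)) w) :=
      T.P.E_nonneg fun w _ => mul_nonneg (hφ0 w) (hR.en_nonneg _ _ _)
    have h5 : T.P.E (fun w => φ w * RunHyp.en η1 n2 T.mean (I.loc1 F Bn n1)
        (Hp η1 n2 (I.loc1 F Bn n1) ts (I.nu1 R0 s)) b w) ≤
        (1 + n2 * η1) ^ 2 * T.P.Pr (fun w => I.act w T.n s) := by
      unfold FP.Pr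
      rw [← T.P.E_smul]
      refine T.P.E_mono fun w _ => ?_
      rw [hφn w, mul_comm]
      exact mul_le_mul_of_nonneg_right (hR.en_le b w) (ind_nonneg _)
    have h6 : ∑ j ∈ range (T.n - b), T.P.E (fun w => φ w * ind (I.loc1 F Bn n1 (b + j + 1) w).rs) ≤
        I.p0 * T.P.Pr (fun w => I.act w T.n s) := by
      rw [← T.P.E_sum]
      unfold FP.Pr
      rw [← T.P.E_smul]
      refine T.P.E_mono fun w _ => ?_
      rw [← Finset.mul_sum, hφn w, mul_comm]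
      refine mul_le_mul_of_nonneg_right ?_ (ind_nonneg _)
      refine le_trans ?_ (hrs w)
      have e4 : ∑ j ∈ range (T.n - b), ind (I.loc1 F Bn n1 (b + j + 1) w).rs =
          ∑ t ∈ Finset.Ico b T.n, ind (I.loc1 F Bn n1 (t + 1) w).rs := by
        rw [Finset.sum_Ico_eq_sum_range]
      rw [e4, Finset.range_eq_Ico]
      exact Finset.sum_le_sum_of_subset_of_nonneg (Finset.Ico_subset_Ico_left (Nat.zero_le b))
        fun _ _ _ => ind_nonneg _
    have h7 : (0 : ℝ) < η1 ^ 2 / 2 := by positivity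
    have h8 : η1 ^ 2 / 2 * ∑ j ∈ range (T.n - b + 1), T.P.E (fun w => φ w * U (b + j) w) ≤
        ((1 + n2 * η1) ^ 2 + I.p0) * T.P.Pr (fun w => I.act w T.n s) := by
      rw [add_mul]
      linarith
    have h9 := mul_le_mul_of_nonneg_left h8 (by positivity : (0 : ℝ) ≤ 2 / η1 ^ 2)
    have h10 : 2 / η1 ^ 2 * (η1 ^ 2 / 2 * ∑ j ∈ range (T.n - b + 1), T.P.E (fun w => φ w * U (b + j) w)) =
        ∑ j ∈ range (T.n - b + 1), T.P.E (fun w => φ w * U (b + j) w) := by field_simp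
    rw [h10, ← mul_assoc] at h9
    exact e1.trans h9
  have h4 : ∑ t ∈ range T.n, T.P.Pr (fun w => I.Z1 F Bn n1 η1 n2 R0 ts s (t + 1) w ≠
      I.Z1 F Bn n1 η1 n2 R0 ts s t w) ≤ ∑ t ∈ range T.n, (T.P.E (fun w => ind (I.act w (t + 1) s) - ind (I.act w t s)) +
        (T.P.E (fun w => ind (I.act w t s) * ind (I.loc1 F Bn n1 (t + 1) w).rs) +
          T.P.E (fun w => ind (I.act w t s) * U (t + 1) w))) := by
    refine Finset.sum_le_sum fun t _ => ?_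
    rw [← T.P.E_add, ← T.P.E_add]
    exact T.P.E_mono fun w _ => I.Z1_step s t w
  rw [Finset.sum_add_distrib, Finset.sum_add_distrib] at h4
  refine h4.trans ?_
  have e : (1 + I.p0 + 2 / η1 ^ 2 * ((1 + n2 * η1) ^ 2 + I.p0)) * T.P.Pr (fun w => I.act w T.n s) =
      T.P.Pr (fun w => I.act w T.n s) + (I.p0 * T.P.Pr (fun w => I.act w T.n s) +
        2 / η1 ^ 2 * ((1 + n2 * η1) ^ 2 + I.p0) * T.P.Pr (fun w => I.act w T.n s)) := by ring
  rw [e]
  linarith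

/-- **THE ERROR BOUND OF STAGE 1** for the reference `s` -/
theorem err1 (hη : 0 < η1) (hε2 : 0 < ε2) (hts : I.Tests1 F Bn n1 η1 n2 R0 ε2 ts) (s : S)
    {η' ε' δ : ℝ} (hη' : 0 < η')
    (hN : NOut T.P T.b T.n (fun t w => (T.c w, T.gm t w)) T.cb (fun t g => T.ρ t g.2)
      (fun t (g : C × Γ) => (g.1, T.par t g.2)) (I.k1 s) (F s) (Bn s) η' ε' n1 δ)
    (hF : ∀ s t g b d, |F s t g b d| ≤ 1)
    (hk1 : ∀ t g b d, |I.k1 s t g b d| ≤ 1) (hk0 : ∀ g b d, I.k1 s 0 g b d = 0) {Kc : ℝ}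
    (hLM : LM T.P (fun w => (T.xi w, T.a w)) T.b T.n (fun t w => (T.c w, T.gm t w)) (fun t w => (T.c w, T.gm t w))
      (fun t x => T.ca t x.2) T.cb (fun t g => T.ρ t g.2) (fun t g => T.ρ t g.2) T.J T.near Kc)
    {ε mm : ℝ} (hX : 2 * η1 / (1 + n2 * η1) ≤ 1 / 4) (hηη : η' ≤ 4 * η1 / (1 + n2 * η1))
    (hε : 0 < ε) (hε1 : ε ≤ 1) (h1 : 2 * ε' ≤ ε) (h2 : 2 * ε2 ≤ ε) (hnear : T.near ≤ 2 * η1 / (1 + n2 * η1) / 4)
    (hm1 : moves T.P T.b T.n (fun t w => (T.c w, T.gm t w)) (I.k1 s) * (1 + 32 / η' ^ 2) ≤ mm)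
    (hm2 : (1 + I.p0 + 2 / η1 ^ 2 * ((1 + n2 * η1) ^ 2 + I.p0)) * T.P.Pr (fun w => I.act w T.n s) ≤ mm) :
    T.P.Pr (fun w => ∃ t ≤ T.n, ¬ lost (fun t (g : C × Γ) => (g.1, T.par t g.2)) T.cb (Bn s) n1 t (T.c w, T.gm t w)
      (T.b w) ∧ 1601 * η1 + (1 + n2 * η1) * T.near <
        |iw (T.J t w) (I.k1 s t (T.c w, T.gm t w) (T.b w)) (I.Z1 F Bn n1 η1 n2 R0 ts s t w)|) ≤
      10 ^ 8 * ε * mm / (2 * η1 / (1 + n2 * η1)) ^ 4 * (1 + Real.log (Kc / ε)) := by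
  have hfac : ∀ t, Fac (fun w => ((T.xi w, T.a w), (T.c w, T.gm t w))) (I.Z1 F Bn n1 η1 n2 R0 ts s t) := by
    intro t v w h
    refine I.Z1_fac hη hF hts s t v w ?_
    rw [K1_iff]
    simp only [Prod.mk.injEq] at h
    exact ⟨h.1.1, h.1.2, h.2.1, h.2.2⟩
  have hX1 : (1 : ℝ) ≤ 1 + n2 * η1 := by
    have : (0 : ℝ) ≤ n2 * η1 := by positivity
    linarith
  exact gen_err (P := T.P) (X := fun w => (T.xi w, T.a w)) (Y := T.b) (n := T.n)
    (nx := fun t w => (T.c w, T.gm t w)) (ny := fun t w => (T.c w, T.gm t w)) (cx := fun t x => T.ca t x.2)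
    (cy := T.cb) (ρx := fun t g => T.ρ t g.2) (ρy := fun t g => T.ρ t g.2) (J := T.J) (near := T.near) (Kc := Kc)
    T.ppos T.free_xa hX1 hN (fun t w => by
      show (T.c w, T.par t (T.gm (t + 1) w)) = (T.c w, T.gm t w)
      rw [T.par_gm]) hk1 hk0 hLM T.Jnear (I.Z1 F Bn n1 η1 n2 R0 ts s) hfac (I.Z1_bd hη hF hts s) (I.Z1_zero s) hη
    (fun t _ w g hg => I.Z1_P2 hη hε2 hts s t w g hg) (fun t _ w hl => I.Z1_P1 hη s t w hl)
    hX hη' hηη hε hε1 h1 h2 hnear hm1 ((I.Z1_moves hη hF hts s).trans hm2)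

end Inp

end

end Pool.Agent.M3.S2
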