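import Pool.Agent.M3.S2.Stage2

/-!
# M3/S2/Stage2g : runs of stage 2 with an abstract activity and an abstract target (helper44)

`ac t w` : the pair is active (`Tri.Act` : function of `(xi, a, cb t b, gm t)`, false at `0`, an interval in time);
`tg a d` : the target.  Individuals `(xi, a)` with the public node `(cb t b, gm t)`; restart when `ac` changes; letters
`letg` = current names of all the `(b', c')`.  `Zg` = error process; `Zg_moves`, `Upg_le`, `errg`.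
To be used with the FINE geometry while `ac` is defined by the coarse one.
-/

set_option autoImplicit false
set_option linter.unusedSectionVars false

namespace Pool.Agent.M3.S2

open Finset Pool.Agent.PWZ Pool.Agent.M3.TS
open Inp (nu2 nu2_true)

noncomputable section

variable {Om Ξ A B C V Γ κ : Type} [Fintype Om] [Fintype Ξ] [Fintype A] [Fintype B] [Fintype C] [Fintype V]

namespace Tri

variable (T : Tri Om Ξ A B C V Γ κ)

/-- hypotheses for the activity -/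
structure Act (ac : ℕ → Om → Prop) : Prop where
  cong : ∀ t v w, T.xi v = T.xi w → T.a v = T.a w → T.cb t (T.b v) = T.cb t (T.b w) → T.gm t v = T.gm t w →
    (ac t v ↔ ac t w)
  zero : ∀ w, ¬ ac 0 w
  conv : ∃ p q : ℕ → Om → Prop, (∀ t w, ac t w ↔ p t w ∧ q t w) ∧ (∀ t w, p t w → p (t + 1) w) ∧
    ∀ t w, q (t + 1) w → q t w

/-- the letters tested at `w` -/
def letg (F : ℕ → ℕ → Γ → B × C → V → ℝ) (Bn : ℕ → ℕ → Γ → κ × κ → List (Finset (B × C)))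
    (Nw : ℕ) (n3 : ℝ) (t : ℕ) (w : Om) : Set (V → ℝ) :=
  {f | ∃ i < Nw, ∃ y : B × C, T.cb t y.1 = T.cb t (T.b w) ∧
    T.Rz t (T.ca t (T.a w)) (T.cb t y.1) (T.cc t y.2) (T.gm t w) ∧
    ¬ lost T.par (fun t (y : B × C) => (T.cb t y.1, T.cc t y.2)) (Bn i) n3 t (T.gm t w) y ∧
    f = F i t (T.gm t w) y}

theorem letg_eq {S : Type} (F : S → S → ℕ → ℕ → Γ → B × C → V → ℝ)
    (Bn : S → S → ℕ → ℕ → Γ → κ × κ → List (Finset (B × C))) (Nw : ℕ) (n3 : ℝ) (s s' : S) (t : ℕ) (w : Om) :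
    T.letg (F s s') (Bn s s') Nw n3 t w = T.let2 F Bn Nw n3 s s' t w := rfl

variable (F : ℕ → ℕ → Γ → B × C → V → ℝ) (Bn : ℕ → ℕ → Γ → κ × κ → List (Finset (B × C))) (Nw : ℕ) (n3 : ℝ)
  (ac : ℕ → Om → Prop) (tg : A → V → ℝ)

theorem letg_congr {t : ℕ} {v w : Om} (ha : T.ca t (T.a v) = T.ca t (T.a w))
    (hb : T.cb t (T.b v) = T.cb t (T.b w)) (h : T.gm t v = T.gm t w) :
    T.letg F Bn Nw n3 t v = T.letg F Bn Nw n3 t w := by
  unfold letg
  rw [ha, hb, h]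

/-- all letters tested at `w`, both signs -/
def alg (t : ℕ) (w : Om) : Set (Unit × (V → ℝ)) :=
  {p | ac t w ∧ ∃ f ∈ T.letg F Bn Nw n3 t w, p.2 = f ∨ p.2 = fun d => - f d}

variable {ac} in
theorem alg_congr (hA : T.Act ac) {t : ℕ} {v w : Om} (hx : T.xi v = T.xi w) (ha : T.a v = T.a w)
    (hb : T.cb t (T.b v) = T.cb t (T.b w)) (hg : T.gm t v = T.gm t w) :
    T.alg F Bn Nw n3 ac t v = T.alg F Bn Nw n3 ac t w := by
  unfold alg
  ext p
  simp only [Set.mem_ofPred_eq]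
  rw [hA.cong t v w hx ha hb hg, T.letg_congr F Bn Nw n3 (by rw [ha]) hb hg]

theorem alg_fin (t : ℕ) (w : Om) : (T.alg F Bn Nw n3 ac t w).Finite := by
  classical
  refine Set.Finite.subset (Set.finite_range (fun q : Fin Nw × (B × C) × Bool =>
    ((), if q.2.2 then F q.1 t (T.gm t w) q.2.1 else fun d => - F q.1 t (T.gm t w) q.2.1 d))) ?_
  rintro ⟨⟨⟩, h⟩ ⟨_, f, ⟨i, hi, y, _, _, _, rfl⟩, hf⟩
  rcases hf with hf | hf
  · exact ⟨(⟨i, hi⟩, y, true), by simp only [if_true] at hf ⊢; rw [← hf]⟩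
  · exact ⟨(⟨i, hi⟩, y, false), by
      simp only [Bool.false_eq_true, if_false] at hf ⊢
      rw [← hf]⟩

/-- the list of the letters -/
def lsg (t : ℕ) (w : Om) : List (Unit × (V → ℝ)) := (T.alg_fin F Bn Nw n3 ac t w).toFinset.toList

theorem mem_lsg {t : ℕ} {w : Om} {p : Unit × (V → ℝ)} :
    p ∈ T.lsg F Bn Nw n3 ac t w ↔ p ∈ T.alg F Bn Nw n3 ac t w := by
  unfold lsg
  rw [Finset.mem_toList, Set.Finite.mem_toFinset]

variable {ac} in
theorem lsg_congr (hA : T.Act ac) {t : ℕ} {v w : Om} (hx : T.xi v = T.xi w) (ha : T.a v = T.a w)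
    (hb : T.cb t (T.b v) = T.cb t (T.b w)) (hg : T.gm t v = T.gm t w) :
    T.lsg F Bn Nw n3 ac t v = T.lsg F Bn Nw n3 ac t w := by
  unfold lsg
  congr 1
  ext p
  rw [Set.Finite.mem_toFinset, Set.Finite.mem_toFinset, T.alg_congr F Bn Nw n3 hA hx ha hb hg]

theorem lsg_nil {t : ℕ} {w : Om} (h : ¬ ac t w) : T.lsg F Bn Nw n3 ac t w = [] := by
  refine List.eq_nil_iff_forall_not_mem.2 fun p hp => ?_
  rw [T.mem_lsg] at hp
  exact h hp.1

/-- data of an individual -/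
def locg (t : ℕ) (w : Om) : Loc Unit V where
  m := T.mean t w
  ls := T.lsg F Bn Nw n3 ac t w
  u := fun d => ind (ac t w) * tg (T.a w) d
  v := fun _ _ => 1
  rs := ∃ u, t = u + 1 ∧ ¬ (ac t w ↔ ac u w)

/-- information of an individual -/
def Kg (t : ℕ) (w : Om) : (Ξ × A) × κ × Γ := ((T.xi w, T.a w), (T.cb t (T.b w), T.gm t w))

/-- public information of the cell -/
def Qg (t : ℕ) (w : Om) : (κ × Γ) × κ := ((T.cb t (T.b w), T.gm t w), T.ca t (T.a w))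

variable {T}

theorem Kg_iff {t : ℕ} {v w : Om} : T.Kg t v = T.Kg t w ↔
    T.xi v = T.xi w ∧ T.a v = T.a w ∧ T.cb t (T.b v) = T.cb t (T.b w) ∧ T.gm t v = T.gm t w := by
  unfold Kg
  simp only [Prod.mk.injEq]
  tauto

theorem Qg_iff {t : ℕ} {v w : Om} : T.Qg t v = T.Qg t w ↔
    T.cb t (T.b v) = T.cb t (T.b w) ∧ T.gm t v = T.gm t w ∧ T.ca t (T.a v) = T.ca t (T.a w) := by
  unfold Qg
  simp only [Prod.mk.injEq]
  tauto

theorem Kg_filt : Filt T.Kg := fun t v w h => by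
  rw [Kg_iff] at h ⊢
  exact ⟨h.1, h.2.1, T.nb t _ _ h.2.2.1, T.gm_anc (Nat.le_succ t) h.2.2.2⟩

theorem QKg (t : ℕ) : Fac (T.Kg t) (T.Qg t) := fun v w h => by
  rw [Kg_iff] at h
  rw [Qg_iff]
  exact ⟨h.2.2.1, h.2.2.2, by rw [h.2.1]⟩

variable {F Bn Nw n3 ac tg}

theorem locg_fac (hA : T.Act ac) (t : ℕ) : Fac (T.Kg t) (T.locg F Bn Nw n3 ac tg t) := fun v w h => by
  rw [Kg_iff] at h
  obtain ⟨hx, ha, hb, hg⟩ := h
  have e1 : T.mean t v = T.mean t w := by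
    funext f
    unfold Tri.mean
    rw [hg]
  have e2 : (∃ u, t = u + 1 ∧ ¬ (ac t v ↔ ac u v)) = (∃ u, t = u + 1 ∧ ¬ (ac t w ↔ ac u w)) := by
    refine propext (exists_congr fun u => and_congr_right fun hu => ?_)
    rw [hA.cong t v w hx ha hb hg, hA.cong u v w hx ha (nest_le T.nb (by omega : u ≤ t) hb)
      (T.gm_anc (by omega : u ≤ t) hg)]
  have e3 : (ac t v) = (ac t w) := propext (hA.cong t v w hx ha hb hg)
  unfold locg
  rw [T.lsg_congr F Bn Nw n3 hA hx ha hb hg, ha, e1, e2, e3]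

variable (T F Bn Nw n3 ac tg)

/-- the public tests -/
structure Testsg (η2 : ℝ) (n4 : ℕ) (ε3 : ℝ) (ts : ℕ → Om → List (Unit × (V → ℝ))) : Prop where
  tsQ : ∀ t, Fac (T.Qg t) (ts t)
  bd : ∀ t w, ∀ p ∈ ts t w, ∀ d, |p.2 d| ≤ 1
  P2 : ∀ t w, ∀ g : V → ℝ, (∀ d, |g d| ≤ 1) →
    T.P.ce (T.Qg t) (fun w => ind (Hit η2 n4 (T.locg F Bn Nw n3 ac tg t w)
      (Hi η2 n4 (T.locg F Bn Nw n3 ac tg) ts nu2 t w) ((), g))) w < ε3
  cnt : ∀ t w, ε3 * cntS () (ts t w) ≤ T.P.ce (T.Qg t)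
    (Up η2 n4 (T.locg F Bn Nw n3 ac tg) ts nu2 t) w

theorem testsg {η2 : ℝ} (hη : 0 < η2) (n4 : ℕ) {ε3 : ℝ} (hε : 0 < ε3) :
    ∃ ts, T.Testsg F Bn Nw n3 ac tg η2 n4 ε3 ts := by
  obtain ⟨ts, h1, h2, h3, h4⟩ := exists_tests T.P (Q := T.Qg) (η := η2) (n2 := n4)
    (x := T.locg F Bn Nw n3 ac tg) (N := fun _ _ (_ : Unit) => True) (b := fun _ _ (_ : Unit) => True) hη
    (fun t w => T.isMean t w) hε (fun _ _ => {()}) (fun _ => Fac.const _ _) (fun _ _ _ _ => trivial)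
  exact ⟨ts, h1, fun t w p hp => (h2 t w p hp).2,
    fun t w => h3 t w (T.ppos w) () (Finset.mem_singleton_self _), fun t w => h4 t w (T.ppos w) ()⟩

variable {T F Bn Nw n3 ac tg} {η2 : ℝ} {n4 : ℕ} {ε3 : ℝ} {ts : ℕ → Om → List (Unit × (V → ℝ))}

theorem bd_lsg (hF : ∀ i t g y d, |F i t g y d| ≤ 1) (t : ℕ) (w : Om) : Bd (T.lsg F Bn Nw n3 ac t w) := by
  intro p hp d
  rw [T.mem_lsg] at hp
  obtain ⟨_, f, ⟨i, hi, y, _, _, _, rfl⟩, h⟩ := hp
  rcases h with h | h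
  · rw [h]; exact hF _ _ _ _ _
  · rw [h, abs_neg]; exact hF _ _ _ _ _

/-- the runs satisfy the hypotheses of `RunE` -/
theorem runHypg (hA : T.Act ac) (htg : ∀ a d, |tg a d| ≤ 1) (hη : 0 < η2) (hF : ∀ i t g y d, |F i t g y d| ≤ 1)
    {ts : ℕ → Om → List (Unit × (V → ℝ))} (htK : ∀ t, Fac (T.Kg t) (ts t))
    (hbd : ∀ t w, ∀ p ∈ ts t w, ∀ d, |p.2 d| ≤ 1) :
    RunHyp T.P T.Kg T.mean 0 η2 n4 (T.locg F Bn Nw n3 ac tg) ts nu2 where
  eta := hη
  small := by rw [zero_mul]; positivity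
  filt := Kg_filt
  xK := locg_fac hA
  tsK := htK
  nuK := fun t => Fac.const _ _
  mean := fun t w => T.isMean t w
  Mean := fun t w => T.isMean t w
  near := fun t w f c _ _ => by
    show |T.mean t w f - T.mean t w f| ≤ 0 * c
    rw [sub_self, abs_zero, zero_mul]
  u1 := fun t w d => by
    show |ind (ac t w) * tg (T.a w) d| ≤ 1
    rw [abs_mul, abs_of_nonneg (ind_nonneg _)]
    exact mul_le_one₀ (ind_le_one _) (abs_nonneg _) (htg _ _)
  v1 := fun t w s d => by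
    show |(1 : ℝ)| ≤ 1
    simp
  ls1 := fun t w => bd_lsg hF t w
  ts1 := hbd
  ust := fun t w h => by
    have h1 : ac (t + 1) w ↔ ac t w := by
      by_contra h1
      exact h ⟨t, rfl, h1⟩
    refine ⟨?_, rfl⟩
    show (fun d => ind (ac (t + 1) w) * tg (T.a w) d) = fun d => ind (ac t w) * tg (T.a w) d
    rw [show ac (t + 1) w = ac t w from propext h1]
  mart := fun t f hf => by
    have h1 : Fac (fun w => ((T.xi w, T.a w, T.b w), T.gm t w)) f := fun v w h => by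
      refine hf v w ?_
      rw [Kg_iff]
      simp only [Prod.mk.injEq] at h
      obtain ⟨⟨h2, h3, h4⟩, h5⟩ := h
      exact ⟨h2, h3, by rw [h4], h5⟩
    have := mart_K (P := T.P) (Kp := fun w => (T.xi w, T.a w, T.b w)) (gm := T.gm) (par := T.par) (ρ := T.ρ)
      (N := Fintype.card Ξ * Fintype.card A * Fintype.card B) T.par_gm T.ind_xab_s2 T.mart t f h1
    exact this

/-- the history is empty when the pair is not active -/
theorem Hig_nil (hη : 0 < η2) (ts : ℕ → Om → List (Unit × (V → ℝ))) (t : ℕ) (w : Om) (h : ¬ ac t w) :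
    Hi η2 n4 (T.locg F Bn Nw n3 ac tg) ts nu2 t w = [] := by
  have key : ∀ t, ¬ ac t w → Hp η2 n4 (T.locg F Bn Nw n3 ac tg) ts nu2 t w = [] →
      Hi η2 n4 (T.locg F Bn Nw n3 ac tg) ts nu2 t w = [] := by
    intro t h h1
    have e : Hi η2 n4 (T.locg F Bn Nw n3 ac tg) ts nu2 t w = proc η2 n4 (T.locg F Bn Nw n3 ac tg t w)
        (nu2 t w) (ts t w) (Hp η2 n4 (T.locg F Bn Nw n3 ac tg) ts nu2 t w) := hist_eq t
    rw [e, h1]
    refine proc_nil hη (T.isMean t w) (fun d => ?_) _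
    show ind (ac t w) * _ = 0
    rw [ind_not h, zero_mul]
  induction t with
  | zero => exact key 0 h rfl
  | succ t ih =>
    refine key (t + 1) h ?_
    by_cases hr : (T.locg F Bn Nw n3 ac tg (t + 1) w).rs
    · exact hpre_succ_rs (x := fun t => T.locg F Bn Nw n3 ac tg t w) hr
    · have h1 : ac (t + 1) w ↔ ac t w := by
        by_contra h1
        exact hr ⟨t, rfl, h1⟩
      have e3 : Hp η2 n4 (T.locg F Bn Nw n3 ac tg) ts nu2 (t + 1) w =
        Hi η2 n4 (T.locg F Bn Nw n3 ac tg) ts nu2 t w :=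
        hpre_succ (x := fun t => T.locg F Bn Nw n3 ac tg t w) hr
      rw [e3]
      exact ih fun h3 => h (h1.2 h3)

/-- the error process -/
def Zg (T : Tri Om Ξ A B C V Γ κ) (F : ℕ → ℕ → Γ → B × C → V → ℝ)
    (Bn : ℕ → ℕ → Γ → κ × κ → List (Finset (B × C))) (Nw : ℕ) (n3 : ℝ) (ac : ℕ → Om → Prop) (tg : A → V → ℝ)
    (η2 : ℝ) (n4 : ℕ) (ts : ℕ → Om → List (Unit × (V → ℝ))) (t : ℕ) (w : Om) (d : V) : ℝ :=
  Er η2 n4 (T.locg F Bn Nw n3 ac tg t w).u (T.locg F Bn Nw n3 ac tg t w).v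
    (Hi η2 n4 (T.locg F Bn Nw n3 ac tg) ts nu2 t w) d

/-- the error process while active and not capped -/
theorem Zg_eq {t : ℕ} {w : Om} (h : ac t w)
    (hl : (Hi η2 n4 (T.locg F Bn Nw n3 ac tg) ts nu2 t w).length ≤ n4) (d : V) :
    T.Zg F Bn Nw n3 ac tg η2 n4 ts t w d = tg (T.a w) d -
      η2 * (((Hi η2 n4 (T.locg F Bn Nw n3 ac tg) ts nu2 t w).map Prod.snd).map fun h => h d).sum := by
  unfold Zg Er
  rw [if_pos hl]
  show ind (ac t w) * tg (T.a w) d - _ = _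
  rw [ind_of h, one_mul, List.map_map]
  congr 3
  refine List.map_congr_left fun p _ => ?_
  show p.2 d * 1 = p.2 d
  rw [mul_one]

theorem Zg_nil (hη : 0 < η2) {t : ℕ} {w : Om} (h : ¬ ac t w) (d : V) :
    T.Zg F Bn Nw n3 ac tg η2 n4 ts t w d = 0 := by
  unfold Zg
  rw [Hig_nil hη ts t w h]
  unfold Er
  simp only [List.length_nil, Nat.zero_le, if_true, List.map_nil, List.sum_nil, mul_zero, sub_zero]
  show ind (ac t w) * _ = 0
  rw [ind_not h, zero_mul]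

theorem Hig_fac (hA : T.Act ac) (htK : ∀ t, Fac (T.Kg t) (ts t)) (t : ℕ) :
    Fac (T.Kg t) (Hi η2 n4 (T.locg F Bn Nw n3 ac tg) ts nu2 t) :=
  Hi_fac (η := η2) (n2 := n4) Kg_filt (fun t => locg_fac hA t) htK (fun _ => Fac.const _ _) t

theorem Zg_fac (hA : T.Act ac) (htK : ∀ t, Fac (T.Kg t) (ts t)) (t : ℕ) :
    Fac (T.Kg t) (T.Zg F Bn Nw n3 ac tg η2 n4 ts t) := fun v w h => by
  have h1 := Hig_fac (F := F) (Bn := Bn) (Nw := Nw) (n3 := n3) (tg := tg) (η2 := η2) (n4 := n4) hA htK t v w h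
  have h2 := locg_fac (F := F) (Bn := Bn) (Nw := Nw) (n3 := n3) (tg := tg) hA t v w h
  funext d
  unfold Zg
  rw [h1, h2]

theorem Hig_bd (hA : T.Act ac) (htg : ∀ a d, |tg a d| ≤ 1) (hη : 0 < η2) (hF : ∀ i t g y d, |F i t g y d| ≤ 1)
    (hts : T.Testsg F Bn Nw n3 ac tg η2 n4 ε3 ts) (t : ℕ) (w : Om) :
    Bd (Hi η2 n4 (T.locg F Bn Nw n3 ac tg) ts nu2 t w) :=
  (runHypg (n4 := n4) (Bn := Bn) (Nw := Nw) (n3 := n3) hA htg hη hF
    (fun t => (QKg t).trans (hts.tsQ t)) hts.bd).Hi_bd t w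

theorem Hig_len (hη : 0 < η2) (t : ℕ) (w : Om) :
    (Hi η2 n4 (T.locg F Bn Nw n3 ac tg) ts nu2 t w).length ≤ n4 + 1 :=
  hist_len (x := fun t => T.locg F Bn Nw n3 ac tg t w) (ts := fun t => ts t w) (ν := fun t => nu2 t w) hη
    (fun t => T.isMean t w) t

theorem Zg_bd (hA : T.Act ac) (htg : ∀ a d, |tg a d| ≤ 1) (hη : 0 < η2) (hF : ∀ i t g y d, |F i t g y d| ≤ 1)
    (hts : T.Testsg F Bn Nw n3 ac tg η2 n4 ε3 ts) (t : ℕ) (w : Om) (d : V) :
    |T.Zg F Bn Nw n3 ac tg η2 n4 ts t w d| ≤ 1 + n4 * η2 := by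
  have hR := runHypg (n4 := n4) (Bn := Bn) (Nw := Nw) (n3 := n3) hA htg hη hF
    (fun t => (QKg t).trans (hts.tsQ t)) hts.bd
  exact abs_Er_le (n2 := n4) hη (hR.u1 t w) (hR.v1 t w) (hR.Hi_bd t w) d

theorem hitg_iff {t : ℕ} {w : Om} (g : V → ℝ) :
    Hit η2 n4 (T.locg F Bn Nw n3 ac tg t w) (Hi η2 n4 (T.locg F Bn Nw n3 ac tg) ts nu2 t w) ((), g) ↔
      η2 ≤ iw (T.ρ t (T.gm t w)) g (T.Zg F Bn Nw n3 ac tg η2 n4 ts t w) := by
  unfold Hit Zg
  rw [← T.mean_mul]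
  have e : (fun d => g d * Er η2 n4 (T.locg F Bn Nw n3 ac tg t w).u (T.locg F Bn Nw n3 ac tg t w).v
      (Hi η2 n4 (T.locg F Bn Nw n3 ac tg) ts nu2 t w) d * (T.locg F Bn Nw n3 ac tg t w).v () d) =
      fun d => g d * Er η2 n4 (T.locg F Bn Nw n3 ac tg t w).u (T.locg F Bn Nw n3 ac tg t w).v
      (Hi η2 n4 (T.locg F Bn Nw n3 ac tg) ts nu2 t w) d := by
    funext d
    exact mul_one _
  show η2 ≤ T.mean t w _ ↔ _
  rw [e]

theorem hitg_neg_iff {t : ℕ} {w : Om} (g : V → ℝ) :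
    Hit η2 n4 (T.locg F Bn Nw n3 ac tg t w) (Hi η2 n4 (T.locg F Bn Nw n3 ac tg) ts nu2 t w)
      ((), fun d => - g d) ↔
      iw (T.ρ t (T.gm t w)) g (T.Zg F Bn Nw n3 ac tg η2 n4 ts t w) ≤ - η2 := by
  rw [hitg_iff]
  have e : iw (T.ρ t (T.gm t w)) (fun d => - g d) (T.Zg F Bn Nw n3 ac tg η2 n4 ts t w) =
      - iw (T.ρ t (T.gm t w)) g (T.Zg F Bn Nw n3 ac tg η2 n4 ts t w) := by
    unfold iw
    rw [← Finset.sum_neg_distrib]
    exact Finset.sum_congr rfl fun d _ => by ring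
  rw [e]
  constructor <;> intro h <;> linarith

/-- (P2) for the error process -/
theorem Zg_P2 (hts : T.Testsg F Bn Nw n3 ac tg η2 n4 ε3 ts) (t : ℕ) (w : Om)
    (g : V → ℝ) (hg : ∀ d, |g d| ≤ 1) :
    T.P.ce (T.Qg t) (fun w => ind (η2 ≤ |iw (T.ρ t (T.gm t w)) g (T.Zg F Bn Nw n3 ac tg η2 n4 ts t w)|)) w ≤
      2 * ε3 := by
  have h1 := (hts.P2 t w g hg).le
  have h2 := (hts.P2 t w (fun d => - g d) fun d => by rw [abs_neg]; exact hg d).le
  have hle : T.P.ce (T.Qg t) (fun w => ind (η2 ≤ |iw (T.ρ t (T.gm t w)) g (T.Zg F Bn Nw n3 ac tg η2 n4 ts t w)|)) w ≤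
      T.P.ce (T.Qg t) (fun w => ind (Hit η2 n4 (T.locg F Bn Nw n3 ac tg t w)
        (Hi η2 n4 (T.locg F Bn Nw n3 ac tg) ts nu2 t w) ((), g)) +
        ind (Hit η2 n4 (T.locg F Bn Nw n3 ac tg t w)
        (Hi η2 n4 (T.locg F Bn Nw n3 ac tg) ts nu2 t w) ((), fun d => - g d))) w := by
    refine ce_mono_fib T.P fun v _ => ?_
    refine le_trans (ind_mono fun h => ?_) (ind_or_le _ _)
    rw [hitg_iff, hitg_neg_iff]
    rcases le_abs.1 h with h3 | h3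
    · exact Or.inl h3
    · exact Or.inr (by linarith)
  rw [T.P.ce_add] at hle
  linarith

/-- (P1): the name of `(b, c)` is tested -/
theorem Zg_P1 (hη : 0 < η2) {i : ℕ} (hi : i < Nw) (t : ℕ) (w : Om)
    (hl : ¬ lost T.par (fun t (y : B × C) => (T.cb t y.1, T.cc t y.2)) (Bn i) n3 t (T.gm t w) (T.b w, T.c w)) :
    |iw (T.ρ t (T.gm t w)) (F i t (T.gm t w) (T.b w, T.c w)) (T.Zg F Bn Nw n3 ac tg η2 n4 ts t w)| ≤ η2 := by
  by_cases ha : ac t w
  · have hlet : F i t (T.gm t w) (T.b w, T.c w) ∈ T.letg F Bn Nw n3 t w :=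
      ⟨i, hi, (T.b w, T.c w), rfl, ⟨w, rfl, rfl, rfl, rfl⟩, hl, rfl⟩
    have h1 := hist_P1 (η := η2) (n2 := n4) (x := fun t => T.locg F Bn Nw n3 ac tg t w) (ts := fun t => ts t w)
      (ν := fun t => nu2 t w) hη (fun t => T.isMean t w) t
      (p := ((), F i t (T.gm t w) (T.b w, T.c w))) ((T.mem_lsg F Bn Nw n3 ac).2 ⟨ha, _, hlet, Or.inl rfl⟩)
      (nu2_true t w ())
    have h2 := hist_P1 (η := η2) (n2 := n4) (x := fun t => T.locg F Bn Nw n3 ac tg t w) (ts := fun t => ts t w)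
      (ν := fun t => nu2 t w) hη (fun t => T.isMean t w) t
      (p := ((), fun d => - F i t (T.gm t w) (T.b w, T.c w) d))
      ((T.mem_lsg F Bn Nw n3 ac).2 ⟨ha, _, hlet, Or.inr rfl⟩) (nu2_true t w ())
    have h3 : ¬ Hit η2 n4 (T.locg F Bn Nw n3 ac tg t w) (Hi η2 n4 (T.locg F Bn Nw n3 ac tg) ts nu2 t w)
      ((), F i t (T.gm t w) (T.b w, T.c w)) := h1
    have h4 : ¬ Hit η2 n4 (T.locg F Bn Nw n3 ac tg t w) (Hi η2 n4 (T.locg F Bn Nw n3 ac tg) ts nu2 t w)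
      ((), fun d => - F i t (T.gm t w) (T.b w, T.c w) d) := h2
    rw [hitg_iff] at h3
    rw [hitg_neg_iff] at h4
    rw [abs_le]
    constructor <;> linarith
  · have e : iw (T.ρ t (T.gm t w)) (F i t (T.gm t w) (T.b w, T.c w))
        (T.Zg F Bn Nw n3 ac tg η2 n4 ts t w) = 0 := by
      unfold iw
      refine Finset.sum_eq_zero fun d _ => ?_
      rw [Zg_nil hη ha]
      ring
    rw [e, abs_zero]
    exact hη.le

/-! ### number of moves of the error process -/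

theorem ind_rsg (t : ℕ) (w : Om) : ind (T.locg F Bn Nw n3 ac tg (t + 1) w).rs =
    ind (¬ (ac (t + 1) w ↔ ac t w)) := by
  congr 1
  refine propext ⟨?_, fun h => ⟨t, rfl, h⟩⟩
  rintro ⟨u, hu, h⟩
  have : u = t := by omega
  subst this
  exact h

/-- `ac` changes at most twice, and never if the pair is never active -/
theorem rsg_le (hA : T.Act ac) (w : Om) (n : ℕ) : ∑ t ∈ range n, ind (T.locg F Bn Nw n3 ac tg (t + 1) w).rs ≤
    2 * ind (∃ t ≤ n, ac t w) := by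
  by_cases hβ : ∃ t ≤ n, ac t w
  · rw [ind_of hβ]
    obtain ⟨p, q, hiff, hpm, hqm⟩ := hA.conv
    have hstep : ∀ t, ind (T.locg F Bn Nw n3 ac tg (t + 1) w).rs ≤
        (ind (p (t + 1) w) - ind (p t w)) + (ind (q t w) - ind (q (t + 1) w)) := by
      intro t
      rw [ind_rsg]
      by_cases p0 : p t w
      · have p1 := hpm t w p0
        by_cases q1 : q (t + 1) w
        · have q0 := hqm t w q1
          rw [ind_of p0, ind_of p1, ind_of q0, ind_of q1, ind_not]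
          · norm_num
          · rw [hiff, hiff]
            tauto
        · by_cases q0 : q t w
          · rw [ind_of p0, ind_of p1, ind_of q0, ind_not q1]
            linarith [ind_le_one (¬ (ac (t + 1) w ↔ ac t w))]
          · rw [ind_of p0, ind_of p1, ind_not q0, ind_not q1, ind_not]
            · norm_num
            · rw [hiff, hiff]
              tauto
      · by_cases p1 : p (t + 1) w
        · rw [ind_not p0, ind_of p1]
          have h1 := ind_le_one (¬ (ac (t + 1) w ↔ ac t w))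
          have h2 : ind (q (t + 1) w) ≤ ind (q t w) := ind_mono (hqm t w)
          linarith
        · rw [ind_not p0, ind_not p1, ind_not]
          · have h2 : ind (q (t + 1) w) ≤ ind (q t w) := ind_mono (hqm t w)
            linarith
          · rw [hiff, hiff]
            tauto
    refine (Finset.sum_le_sum fun t _ => hstep t).trans ?_
    rw [Finset.sum_add_distrib, Finset.sum_range_sub (fun t => ind (p t w)),
      Finset.sum_range_sub' (fun t => ind (q t w))]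
    linarith [ind_nonneg (p 0 w), ind_le_one (p n w), ind_le_one (q 0 w), ind_nonneg (q n w)]
  · rw [ind_not hβ, mul_zero]
    refine le_of_eq (Finset.sum_eq_zero fun t ht => ?_)
    rw [ind_rsg]
    rw [Finset.mem_range] at ht
    refine ind_not fun h => h ⟨fun h1 => absurd ⟨t + 1, ht, h1⟩ hβ, fun h1 => absurd ⟨t, ht.le, h1⟩ hβ⟩

open Classical in
/-- the tests which matter -/
def tsg (ac : ℕ → Om → Prop) (ts : ℕ → Om → List (Unit × (V → ℝ))) (t : ℕ) (w : Om) : List (Unit × (V → ℝ)) :=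
  if ac t w then ts t w else []

theorem Hig_ts (hA : T.Act ac) (hη : 0 < η2) (ts : ℕ → Om → List (Unit × (V → ℝ))) (t : ℕ) (w : Om) :
    Hi η2 n4 (T.locg F Bn Nw n3 ac tg) ts nu2 t w =
      Hi η2 n4 (T.locg F Bn Nw n3 ac tg) (tsg ac ts) nu2 t w := by
  induction t with
  | zero =>
    rw [Hig_nil hη ts 0 w (hA.zero w), Hig_nil hη _ 0 w (hA.zero w)]
  | succ t ih =>
    by_cases h : ac (t + 1) w
    · have e1 : Hi η2 n4 (T.locg F Bn Nw n3 ac tg) ts nu2 (t + 1) w = proc η2 n4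
          (T.locg F Bn Nw n3 ac tg (t + 1) w) (nu2 (t + 1) w) (ts (t + 1) w)
          (Hp η2 n4 (T.locg F Bn Nw n3 ac tg) ts nu2 (t + 1) w) := hist_eq (t + 1)
      have e2 : Hi η2 n4 (T.locg F Bn Nw n3 ac tg) (tsg ac ts) nu2 (t + 1) w = proc η2 n4
          (T.locg F Bn Nw n3 ac tg (t + 1) w) (nu2 (t + 1) w) (tsg ac ts (t + 1) w)
          (Hp η2 n4 (T.locg F Bn Nw n3 ac tg) (tsg ac ts) nu2 (t + 1) w) := hist_eq (t + 1)
      have e3 : tsg ac ts (t + 1) w = ts (t + 1) w := by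
        unfold tsg
        rw [if_pos h]
      have e4 : Hp η2 n4 (T.locg F Bn Nw n3 ac tg) ts nu2 (t + 1) w =
          Hp η2 n4 (T.locg F Bn Nw n3 ac tg) (tsg ac ts) nu2 (t + 1) w := by
        by_cases hr : (T.locg F Bn Nw n3 ac tg (t + 1) w).rs
        · have a1 : Hp η2 n4 (T.locg F Bn Nw n3 ac tg) ts nu2 (t + 1) w = [] :=
            hpre_succ_rs (x := fun t => T.locg F Bn Nw n3 ac tg t w) hr
          have a2 : Hp η2 n4 (T.locg F Bn Nw n3 ac tg) (tsg ac ts) nu2 (t + 1) w = [] :=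
            hpre_succ_rs (x := fun t => T.locg F Bn Nw n3 ac tg t w) hr
          rw [a1, a2]
        · have a1 : Hp η2 n4 (T.locg F Bn Nw n3 ac tg) ts nu2 (t + 1) w =
              Hi η2 n4 (T.locg F Bn Nw n3 ac tg) ts nu2 t w :=
            hpre_succ (x := fun t => T.locg F Bn Nw n3 ac tg t w) hr
          have a2 : Hp η2 n4 (T.locg F Bn Nw n3 ac tg) (tsg ac ts) nu2 (t + 1) w =
              Hi η2 n4 (T.locg F Bn Nw n3 ac tg) (tsg ac ts) nu2 t w :=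
            hpre_succ (x := fun t => T.locg F Bn Nw n3 ac tg t w) hr
          rw [a1, a2, ih]
      rw [e1, e2, e3, e4]
    · rw [Hig_nil hη ts _ w h, Hig_nil hη _ _ w h]

theorem Hpg_ts (hA : T.Act ac) (hη : 0 < η2) (ts : ℕ → Om → List (Unit × (V → ℝ))) (t : ℕ) (w : Om) :
    Hp η2 n4 (T.locg F Bn Nw n3 ac tg) ts nu2 t w =
      Hp η2 n4 (T.locg F Bn Nw n3 ac tg) (tsg ac ts) nu2 t w := by
  cases t with
  | zero => rfl
  | succ t =>
    by_cases hr : (T.locg F Bn Nw n3 ac tg (t + 1) w).rs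
    · have a1 : Hp η2 n4 (T.locg F Bn Nw n3 ac tg) ts nu2 (t + 1) w = [] :=
        hpre_succ_rs (x := fun t => T.locg F Bn Nw n3 ac tg t w) hr
      have a2 : Hp η2 n4 (T.locg F Bn Nw n3 ac tg) (tsg ac ts) nu2 (t + 1) w = [] :=
        hpre_succ_rs (x := fun t => T.locg F Bn Nw n3 ac tg t w) hr
      rw [a1, a2]
    · have a1 : Hp η2 n4 (T.locg F Bn Nw n3 ac tg) ts nu2 (t + 1) w =
          Hi η2 n4 (T.locg F Bn Nw n3 ac tg) ts nu2 t w :=
        hpre_succ (x := fun t => T.locg F Bn Nw n3 ac tg t w) hr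
      have a2 : Hp η2 n4 (T.locg F Bn Nw n3 ac tg) (tsg ac ts) nu2 (t + 1) w =
          Hi η2 n4 (T.locg F Bn Nw n3 ac tg) (tsg ac ts) nu2 t w :=
        hpre_succ (x := fun t => T.locg F Bn Nw n3 ac tg t w) hr
      rw [a1, a2, Hig_ts hA hη]

/-- **number of updates** -/
theorem Upg_le (hA : T.Act ac) (htg : ∀ a d, |tg a d| ≤ 1) (hη : 0 < η2) (hF : ∀ i t g y d, |F i t g y d| ≤ 1)
    (htK : ∀ t, Fac (T.Kg t) (ts t)) (hbd : ∀ t w, ∀ p ∈ ts t w, ∀ d, |p.2 d| ≤ 1) (n : ℕ) :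
    ∑ t ∈ range (n + 1), T.P.E (Up η2 n4 (T.locg F Bn Nw n3 ac tg) ts nu2 t) ≤
      6 / η2 ^ 2 * T.P.Pr (fun w => ∃ t ≤ n, ac t w) := by
  have hup : ∀ t, Up η2 n4 (T.locg F Bn Nw n3 ac tg) ts nu2 t =
      Up η2 n4 (T.locg F Bn Nw n3 ac tg) (tsg ac ts) nu2 t := by
    intro t
    funext w
    show ((Hi η2 n4 (T.locg F Bn Nw n3 ac tg) ts nu2 t w).length : ℝ) -
      ((Hp η2 n4 (T.locg F Bn Nw n3 ac tg) ts nu2 t w).length : ℝ) =
      ((Hi η2 n4 (T.locg F Bn Nw n3 ac tg) (tsg ac ts) nu2 t w).length : ℝ) -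
      ((Hp η2 n4 (T.locg F Bn Nw n3 ac tg) (tsg ac ts) nu2 t w).length : ℝ)
    rw [Hig_ts hA hη, Hpg_ts hA hη]
  have htK' : ∀ t, Fac (T.Kg t) (tsg ac ts t) := fun t v w h => by
    have h1 := htK t v w h
    rw [Kg_iff] at h
    unfold tsg
    have e := hA.cong t v w h.1 h.2.1 h.2.2.1 h.2.2.2
    by_cases h2 : ac t w
    · rw [if_pos h2, if_pos (e.2 h2), h1]
    · rw [if_neg h2, if_neg fun h3 => h2 (e.1 h3)]
  have hbd' : ∀ t w, ∀ p ∈ tsg ac ts t w, ∀ d, |p.2 d| ≤ 1 := by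
    intro t w p hp
    unfold tsg at hp
    split_ifs at hp with h
    · exact hbd t w p hp
    · simp at hp
  have hR := runHypg (n4 := n4) (Bn := Bn) (Nw := Nw) (n3 := n3) hA htg hη hF htK' hbd'
  set β : ℕ → Om → Prop := fun t w => ∃ j ≤ t, ac j w with hβ
  have h1 := hR.updates_born (β := β)
    (fun t v w h => by
      rw [Kg_iff] at h
      refine exists_congr fun j => and_congr_right fun hj => ?_
      exact hA.cong j v w h.1 h.2.1 (nest_le T.nb hj h.2.2.1) (T.gm_anc hj h.2.2.2))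
    (fun t w ⟨j, hj, h⟩ => ⟨j, hj.trans (Nat.le_succ t), h⟩)
    (fun t w h => T.lsg_nil F Bn Nw n3 ac fun h1 => h ⟨t, le_rfl, h1⟩)
    (fun t w h => by
      unfold tsg
      rw [if_neg fun h1 => h ⟨t, le_rfl, h1⟩]) n
  have h2 : ∑ t ∈ range n, T.P.Pr (fun w => β t w ∧ (T.locg F Bn Nw n3 ac tg (t + 1) w).rs) ≤
      2 * T.P.Pr (β n) := by
    unfold FP.Pr
    rw [← T.P.E_sum, ← T.P.E_smul]
    refine T.P.E_mono fun w _ => ?_
    refine (Finset.sum_le_sum fun t _ => ind_mono fun h => h.2).trans ?_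
    exact rsg_le hA w n
  have h3 : 0 ≤ 2 / η2 ^ 2 := by positivity
  rw [Finset.sum_congr rfl fun t _ => by rw [hup t]]
  refine h1.trans ?_
  have h4 : 2 / η2 ^ 2 * (T.P.Pr (β n) + ∑ t ∈ range n, T.P.Pr (fun w => β t w ∧
      (T.locg F Bn Nw n3 ac tg (t + 1) w).rs)) ≤ 2 / η2 ^ 2 * (T.P.Pr (β n) + 2 * T.P.Pr (β n)) :=
    mul_le_mul_of_nonneg_left (by linarith) h3
  refine h4.trans (le_of_eq ?_)
  show 2 / η2 ^ 2 * (T.P.Pr (β n) + 2 * T.P.Pr (β n)) = 6 / η2 ^ 2 * T.P.Pr (β n)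
  ring

/-- one step of the error process -/
theorem Zg_step (t : ℕ) (w : Om) :
    ind (T.Zg F Bn Nw n3 ac tg η2 n4 ts (t + 1) w ≠ T.Zg F Bn Nw n3 ac tg η2 n4 ts t w) ≤
      ind (T.locg F Bn Nw n3 ac tg (t + 1) w).rs + Up η2 n4 (T.locg F Bn Nw n3 ac tg) ts nu2 (t + 1) w := by
  have hup : 0 ≤ Up η2 n4 (T.locg F Bn Nw n3 ac tg) ts nu2 (t + 1) w :=
    upd_nonneg (x := fun t => T.locg F Bn Nw n3 ac tg t w) (ts := fun t => ts t w) (ν := fun t => nu2 t w) (t + 1)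
  by_cases hr : (T.locg F Bn Nw n3 ac tg (t + 1) w).rs
  · rw [ind_of hr]
    linarith [ind_le_one (T.Zg F Bn Nw n3 ac tg η2 n4 ts (t + 1) w ≠ T.Zg F Bn Nw n3 ac tg η2 n4 ts t w)]
  · rw [ind_not hr, zero_add]
    have hpre : Hp η2 n4 (T.locg F Bn Nw n3 ac tg) ts nu2 (t + 1) w =
        Hi η2 n4 (T.locg F Bn Nw n3 ac tg) ts nu2 t w :=
      hpre_succ (x := fun t => T.locg F Bn Nw n3 ac tg t w) hr
    have hu : (T.locg F Bn Nw n3 ac tg (t + 1) w).u = (T.locg F Bn Nw n3 ac tg t w).u := by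
      have h1 : ac (t + 1) w ↔ ac t w := by
        by_contra h1
        exact hr ⟨t, rfl, h1⟩
      show (fun d => ind (ac (t + 1) w) * tg (T.a w) d) = fun d => ind (ac t w) * tg (T.a w) d
      rw [show ac (t + 1) w = ac t w from propext h1]
    have hsuf : Hp η2 n4 (T.locg F Bn Nw n3 ac tg) ts nu2 (t + 1) w <:+
        Hi η2 n4 (T.locg F Bn Nw n3 ac tg) ts nu2 (t + 1) w :=
      hpre_suffix (x := fun t => T.locg F Bn Nw n3 ac tg t w) (t + 1)
    by_cases hlen : (Hp η2 n4 (T.locg F Bn Nw n3 ac tg) ts nu2 (t + 1) w).length =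
        (Hi η2 n4 (T.locg F Bn Nw n3 ac tg) ts nu2 (t + 1) w).length
    · have heq := hsuf.eq_of_length hlen
      have hZ : T.Zg F Bn Nw n3 ac tg η2 n4 ts (t + 1) w = T.Zg F Bn Nw n3 ac tg η2 n4 ts t w := by
        funext d
        unfold Zg
        rw [← heq, hpre, hu]
        rfl
      rw [ind_not fun h => h hZ]
      exact hup
    · have h3 := hsuf.length_le
      have h4 : (Hp η2 n4 (T.locg F Bn Nw n3 ac tg) ts nu2 (t + 1) w).length + 1 ≤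
        (Hi η2 n4 (T.locg F Bn Nw n3 ac tg) ts nu2 (t + 1) w).length := by omega
      have h5 : (1 : ℝ) ≤ Up η2 n4 (T.locg F Bn Nw n3 ac tg) ts nu2 (t + 1) w := by
        show (1 : ℝ) ≤ ((Hi η2 n4 (T.locg F Bn Nw n3 ac tg) ts nu2 (t + 1) w).length : ℝ) -
          ((Hp η2 n4 (T.locg F Bn Nw n3 ac tg) ts nu2 (t + 1) w).length : ℝ)
        have : (((Hp η2 n4 (T.locg F Bn Nw n3 ac tg) ts nu2 (t + 1) w).length : ℝ)) + 1 ≤
          ((Hi η2 n4 (T.locg F Bn Nw n3 ac tg) ts nu2 (t + 1) w).length : ℝ) := by exact_mod_cast h4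
        linarith
      exact (ind_le_one _).trans h5

/-- **number of moves** -/
theorem Zg_moves (hA : T.Act ac) (htg : ∀ a d, |tg a d| ≤ 1) (hη : 0 < η2) (hF : ∀ i t g y d, |F i t g y d| ≤ 1)
    (hts : T.Testsg F Bn Nw n3 ac tg η2 n4 ε3 ts) :
    ∑ t ∈ range T.n, T.P.Pr (fun w => T.Zg F Bn Nw n3 ac tg η2 n4 ts (t + 1) w ≠
      T.Zg F Bn Nw n3 ac tg η2 n4 ts t w) ≤
      (2 + 6 / η2 ^ 2) * T.P.Pr (fun w => ∃ t ≤ T.n, ac t w) := by
  have h1 := Upg_le (n4 := n4) (Bn := Bn) (Nw := Nw) (n3 := n3) hA htg hη hF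
    (fun t => (QKg t).trans (hts.tsQ t)) hts.bd T.n
  have h2 : ∑ t ∈ range T.n, T.P.E (fun w => ind (T.locg F Bn Nw n3 ac tg (t + 1) w).rs) ≤
      2 * T.P.Pr (fun w => ∃ t ≤ T.n, ac t w) := by
    unfold FP.Pr
    rw [← T.P.E_sum, ← T.P.E_smul]
    exact T.P.E_mono fun w _ => rsg_le hA w T.n
  have h3 : ∑ t ∈ range T.n, T.P.E (Up η2 n4 (T.locg F Bn Nw n3 ac tg) ts nu2 (t + 1)) ≤
      ∑ t ∈ range (T.n + 1), T.P.E (Up η2 n4 (T.locg F Bn Nw n3 ac tg) ts nu2 t) := by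
    rw [Finset.sum_range_succ']
    have : 0 ≤ T.P.E (Up η2 n4 (T.locg F Bn Nw n3 ac tg) ts nu2 0) := T.P.E_nonneg fun w _ =>
      upd_nonneg (x := fun t => T.locg F Bn Nw n3 ac tg t w) (ts := fun t => ts t w) (ν := fun t => nu2 t w) 0
    linarith
  have h4 : ∑ t ∈ range T.n, T.P.Pr (fun w => T.Zg F Bn Nw n3 ac tg η2 n4 ts (t + 1) w ≠
      T.Zg F Bn Nw n3 ac tg η2 n4 ts t w) ≤ ∑ t ∈ range T.n,
        (T.P.E (fun w => ind (T.locg F Bn Nw n3 ac tg (t + 1) w).rs) +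
          T.P.E (Up η2 n4 (T.locg F Bn Nw n3 ac tg) ts nu2 (t + 1))) := by
    refine Finset.sum_le_sum fun t _ => ?_
    rw [← T.P.E_add]
    exact T.P.E_mono fun w _ => Zg_step t w
  rw [Finset.sum_add_distrib] at h4
  rw [add_mul]
  linarith

/-- **THE ERROR BOUND OF STAGE 2** for the system `i`, any family `U` with the names `F i` -/
theorem errg (hA : T.Act ac) (htg : ∀ a d, |tg a d| ≤ 1) (hη : 0 < η2)
    (hts : T.Testsg F Bn Nw n3 ac tg η2 n4 ε3 ts) {i : ℕ} (hi : i < Nw)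
    {η' ε' δ : ℝ} (hη' : 0 < η') {U : ℕ → Γ → B × C → V → ℝ}
    (hN : NOut T.P (fun w => (T.b w, T.c w)) T.n T.gm (fun t (y : B × C) => (T.cb t y.1, T.cc t y.2)) T.ρ
      T.par U (F i) (Bn i) η' ε' n3 δ)
    (hF : ∀ i t g y d, |F i t g y d| ≤ 1)
    (hU1 : ∀ t g y d, |U t g y d| ≤ 1) (hU0 : ∀ g y d, U 0 g y d = 0) {Kc : ℝ}
    (hLM : LM T.P (fun w => (T.xi w, T.a w)) (fun w => (T.b w, T.c w)) T.n (fun t w => (T.cb t (T.b w), T.gm t w))
      (fun t w => T.gm t w) (fun t x => T.ca t x.2) (fun t y => (T.cb t y.1, T.cc t y.2))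
      (fun t g => T.ρ t g.2) T.ρ T.J T.near Kc)
    {ε mm : ℝ} (hX : 2 * η2 / (1 + n4 * η2) ≤ 1 / 4) (hηη : η' ≤ 4 * η2 / (1 + n4 * η2))
    (hε : 0 < ε) (hε1 : ε ≤ 1) (h1 : 2 * ε' ≤ ε) (h2 : 2 * ε3 ≤ ε) (hnear : T.near ≤ 2 * η2 / (1 + n4 * η2) / 4)
    (hm1 : moves T.P (fun w => (T.b w, T.c w)) T.n T.gm U * (1 + 32 / η' ^ 2) ≤ mm)
    (hm2 : (2 + 6 / η2 ^ 2) * T.P.Pr (fun w => ∃ t ≤ T.n, ac t w) ≤ mm) :
    T.P.Pr (fun w => ∃ t ≤ T.n, ¬ lost T.par (fun t (y : B × C) => (T.cb t y.1, T.cc t y.2)) (Bn i) n3 t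
      (T.gm t w) (T.b w, T.c w) ∧ 1601 * η2 + (1 + n4 * η2) * T.near <
        |iw (T.J t w) (U t (T.gm t w) (T.b w, T.c w)) (T.Zg F Bn Nw n3 ac tg η2 n4 ts t w)|) ≤
      10 ^ 8 * ε * mm / (2 * η2 / (1 + n4 * η2)) ^ 4 * (1 + Real.log (Kc / ε)) := by
  have hfac : ∀ t, Fac (fun w => ((T.xi w, T.a w), (T.cb t (T.b w), T.gm t w)))
      (T.Zg F Bn Nw n3 ac tg η2 n4 ts t) := fun t => Zg_fac hA (fun t => (QKg t).trans (hts.tsQ t)) t
  have hX1 : (1 : ℝ) ≤ 1 + n4 * η2 := by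
    have : (0 : ℝ) ≤ n4 * η2 := by positivity
    linarith
  exact gen_err (P := T.P) (X := fun w => (T.xi w, T.a w)) (Y := fun w => (T.b w, T.c w)) (n := T.n)
    (nx := fun t w => (T.cb t (T.b w), T.gm t w)) (ny := fun t w => T.gm t w) (cx := fun t x => T.ca t x.2)
    (cy := fun t y => (T.cb t y.1, T.cc t y.2)) (ρx := fun t g => T.ρ t g.2) (ρy := T.ρ) (J := T.J)
    (near := T.near) (Kc := Kc)
    T.ppos T.free_xb hX1 hN T.par_gm hU1 hU0 hLM T.Jnear (T.Zg F Bn Nw n3 ac tg η2 n4 ts) hfac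
    (Zg_bd hA htg hη hF hts) (fun w d => Zg_nil hη (hA.zero w) d) hη
    (fun t _ w g hg => Zg_P2 hts t w g hg) (fun t _ w hl => Zg_P1 hη hi t w hl)
    hX hη' hηη hε hε1 h1 h2 hnear hm1 ((Zg_moves hA htg hη hF hts).trans hm2)

end Tri

end

end Pool.Agent.M3.S2
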