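import Pool.Agent.M3.S2.Def

/-!
# M3/S2/Sys : section 2, records, moving families, names with tails, letters (helper44)

`Ξ = S → Fin m` (thresholds).  `dens s t a β` = density of the members of `s` with first vertex `a` in the cell `β`;
`Dm s t w` = twice the running maximum over the compatible cells; `N1` = record of the runs (function of
`(xi, a, cc t c, gm t)`), `NB` = record of stage 2 (function of `(xi, a, cb t b, gm t)`).
`k1 s` = the family `G1 · u s` on the vertex `b` with nodes `(c, g)`, `k2 (s, s', i)` = the family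
`G1 · u s · (i-th letter of c for s')` on the vertex `(b, c)` with nodes `g`.
`NOut` = names with tails; `lost` = more than `n1` births; `letters`.
-/

set_option autoImplicit false

namespace Pool.Agent.M3.S2

open Finset Pool.Agent.PWZ Pool.Agent.M3.TS

noncomputable section

/-! ### names with tails -/

/-- number of births of `x` up to the time `t` (at the ancestors of the node `g`) -/
def cumB {𝒳 Γ κ : Type} (par : ℕ → Γ → Γ) (cl : ℕ → 𝒳 → κ) (Bn : ℕ → Γ → κ → List (Finset 𝒳)) (t : ℕ) (g : Γ)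
    (x : 𝒳) : ℝ := ∑ j ∈ range (t + 1), cnt (Bn j (anc par t g j) (cl j x)) x

/-- `x` is lost at the node `g` of time `t` -/
def lost {𝒳 Γ κ : Type} (par : ℕ → Γ → Γ) (cl : ℕ → 𝒳 → κ) (Bn : ℕ → Γ → κ → List (Finset 𝒳)) (n1 : ℝ) (t : ℕ)
    (g : Γ) (x : 𝒳) : Prop := n1 < cumB par cl Bn t g x

/-- names `F`, births `Bn` of the family `U` : accuracy `η`, density `ε`, more than `n1` births have probability
at most `δ` times the probability that `U` is ever nonzero -/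
structure NOut {Om 𝒳 V Γ κ : Type} [Fintype Om] [Fintype 𝒳] [Fintype V] (P : FP Om) (X : Om → 𝒳) (n : ℕ)
    (nd : ℕ → Om → Γ) (cl : ℕ → 𝒳 → κ) (ρ : ℕ → Γ → V → ℝ) (par : ℕ → Γ → Γ)
    (U F : ℕ → Γ → 𝒳 → V → ℝ) (Bn : ℕ → Γ → κ → List (Finset 𝒳)) (η ε n1 δ : ℝ) : Prop where
  F0 : ∀ g x d, F 0 g x d = 0
  B0 : ∀ g k, Bn 0 g k = []
  F1 : ∀ t g x d, |F t g x d| ≤ 1
  lm : LMeas n nd cl Bn F
  hf : HF n nd cl ρ (fun t g x d => U t g x d - F t g x d) η (2 * ε)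
  sub : ∀ t g k, ∀ S ∈ Bn t g k, S ⊆ cel (cl t) k
  thick : ∀ t g k, ∀ S ∈ Bn t g k, ε * ((cel (cl t) k).card : ℝ) ≤ (S.card : ℝ)
  mean : births P X n nd cl Bn ≤ 32 / η ^ 2 * moves P X n nd U
  tail : P.Pr (fun w => lost par cl Bn n1 n (nd n w) (X w)) ≤ δ * P.Pr (fun w => ∃ t ≤ n, U t (nd t w) (X w) ≠ 0)
  /-- a name is zero before the first birth -/
  zero : ∀ t ≤ n, ∀ w, cumB par cl Bn t (nd t w) (X w) = 0 → ∀ d, F t (nd t w) (X w) d = 0

/-! ### stable numbering of the letters and public tests -/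

section num

variable {Om Ξ A B C V Γ κ S : Type} [Fintype Om] [Fintype Ξ] [Fintype A] [Fintype B] [Fintype C] [Fintype V]

/-- all letters and public tests `h` with `(s', h) ∈ al t w` available for `(b, c)` at the node `g` -/
def Tri.nw (T : Tri Om Ξ A B C V Γ κ) (al : ℕ → Om → Set (S × (V → ℝ))) (s' : S) (t : ℕ) (g : Γ) (b0 : B) (c0 : C) : Set (V → ℝ) :=
  {h | ∃ w, T.cb t (T.b w) = T.cb t b0 ∧ T.c w = c0 ∧ T.gm t w = g ∧ (s', h) ∈ al t w}

open Classical in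
/-- the cumulative list of the letters and public tests for `s'` (stable numbering) -/
def Tri.hl (T : Tri Om Ξ A B C V Γ κ) (al : ℕ → Om → Set (S × (V → ℝ))) (s' : S) : ℕ → Γ → B → C → List (V → ℝ)
  | 0, _, _, _ => []
  | t + 1, g, b0, c0 => T.hl al s' t (T.par t g) b0 c0 ++
      (if h : (T.nw al s' (t + 1) g b0 c0).Finite then
        (h.toFinset \ (T.hl al s' t (T.par t g) b0 c0).toFinset).toList else [])

end num

/-! ### records -/

variable {Om A B C V Γ κ S : Type} [Fintype Om] [Fintype A] [Fintype B] [Fintype C] [Fintype V]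
  [Fintype S] [DecidableEq S] {m : ℕ} {T : Tri Om (S → Fin m) A B C V Γ κ}

namespace Inp

variable (I : Inp T S)

/-- density of the members of `s` in the cell `β` -/
def dens (s : S) (t : ℕ) (a0 : A) (β : κ) : ℝ :=
  (∑ b' ∈ cel (T.cb t) β, ind (I.R.mem s a0 b')) / ((cel (T.cb t) β).card : ℝ)

/-- maximum over the compatible cells, at the time `j` -/
def Zd (s : S) (j : ℕ) (w : Om) : ℝ :=
  (univ : Finset Om).sup' ⟨w, mem_univ w⟩ fun w' =>
    ind (I.on s j w ∧ T.ca j (T.a w') = T.ca j (T.a w) ∧ T.cc j (T.c w') = T.cc j (T.c w) ∧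
      T.gm j w' = T.gm j w) * I.dens s j (T.a w) (T.cb j (T.b w'))

/-- twice the running maximum -/
def Dm (s : S) (t : ℕ) (w : Om) : ℝ := 2 * FP.rmax (I.Zd s) t w

/-- the record of the runs -/
def N1 (R0 : ℝ) (w : Om) (t : ℕ) (s : S) : Prop := (((T.xi w s : Fin m) : ℕ) : ℝ) + 1 ≤ m * (R0 * I.Dm s t w)

/-- the record of stage 2 -/
def NB (R0 : ℝ) (w : Om) (t : ℕ) (s : S) : Prop :=
  ∃ j ≤ t, ∃ w', T.xi w' = T.xi w ∧ T.a w' = T.a w ∧ T.cb j (T.b w') = T.cb j (T.b w) ∧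
    T.gm j w' = T.gm j w ∧ I.N1 R0 w' j s

/-- `s` is active for `(a, c)` -/
def act (w : Om) (t : ℕ) (s : S) : Prop :=
  I.on s t w ∧ T.ca (I.R.tb s) (T.a w) = I.R.al s ∧
    T.Rz (I.R.tb s) (I.R.al s) (I.R.be s) (T.cc (I.R.tb s) (T.c w)) (I.R.gb s)

/-- `s` is on the path and in the cells of `(a, b)` -/
def onab (w : Om) (t : ℕ) (s : S) : Prop :=
  I.on s t w ∧ T.ca (I.R.tb s) (T.a w) = I.R.al s ∧ T.cb (I.R.tb s) (T.b w) = I.R.be s

/-- the pair `(s, s')` is active for `(a, b)` in stage 2 (not more than `nN` recorded references) -/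
def act2 (R0 nN : ℝ) (w : Om) (t : ℕ) (s s' : S) : Prop :=
  I.onab w t s ∧ I.NB R0 w t s' ∧ ∑ r, ind (I.NB R0 w t r) ≤ nN

/-- `s` is introduced for `(b, c)` at the node `g` -/
def intr (s : S) (t : ℕ) (g : Γ) (b0 : B) (c0 : C) : Prop :=
  (I.R.tb s ≤ t ∧ anc T.par t g (I.R.tb s) = I.R.gb s) ∧ T.cb (I.R.tb s) b0 = I.R.be s ∧
    T.Rz (I.R.tb s) (I.R.al s) (I.R.be s) (T.cc (I.R.tb s) c0) (I.R.gb s)

/-- the family `k1 s` : vertex `b`, nodes `(c, g)` -/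
def k1 (s : S) (t : ℕ) (g : C × Γ) (b0 : B) (d : V) : ℝ :=
  ind (I.intr s t g.2 b0 g.1) * I.G1 t g.2 b0 g.1 d * I.R.u s b0 d

/-- the letters of `(c; s)` which are tested at `w` : the current names of all `b'` in the compatible cells -/
def let1 (F : S → ℕ → C × Γ → B → V → ℝ) (Bn : S → ℕ → C × Γ → κ → List (Finset B)) (n1 : ℝ) (s : S) (t : ℕ)
    (w : Om) : Set (V → ℝ) :=
  {f | ∃ b' : B, T.Rz t (T.ca t (T.a w)) (T.cb t b') (T.cc t (T.c w)) (T.gm t w) ∧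
    ¬ lost (fun t (g : C × Γ) => (g.1, T.par t g.2)) T.cb (Bn s) n1 t (T.c w, T.gm t w) b' ∧
    f = F s t (T.c w, T.gm t w) b'}

/-- not too many references at `(b, c)` -/
def capc (al : ℕ → Om → Set (S × (V → ℝ))) (Mc : ℝ) (t : ℕ) (g : Γ) (b0 : B) (c0 : C) : Prop :=
  ∑ s, ind (I.intr s t g b0 c0) ≤ Mc ∧ ∑ s', ind (T.hl al s' t g b0 c0 ≠ []) ≤ Mc

/-- the family `k2 (s, s', i)` : vertex `(b, c)`, nodes `g` -/
def k2 (al : ℕ → Om → Set (S × (V → ℝ))) (Mc : ℝ) (s s' : S) (i : ℕ) (t : ℕ) (g : Γ) (y : B × C) (d : V) : ℝ :=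
  ind (I.intr s t g y.1 y.2 ∧ I.capc al Mc t g y.1 y.2) * I.G1 t g y.1 y.2 d * I.R.u s y.1 d * (T.hl al s' t g y.1 y.2).getD i 0 d

/-- the letters of the systems `(s, s', i)`, `i < Nw`, which are tested at `w` in stage 2 -/
def let2 (F : S → S → ℕ → ℕ → Γ → B × C → V → ℝ) (Bn : S → S → ℕ → ℕ → Γ → κ × κ → List (Finset (B × C)))
    (Nw : ℕ) (n3 : ℝ) (s s' : S) (t : ℕ) (w : Om) : Set (V → ℝ) :=
  {f | ∃ i < Nw, ∃ y : B × C, T.cb t y.1 = T.cb t (T.b w) ∧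
    T.Rz t (T.ca t (T.a w)) (T.cb t y.1) (T.cc t y.2) (T.gm t w) ∧
    ¬ lost T.par (fun t (y : B × C) => (T.cb t y.1, T.cc t y.2)) (Bn s s' i) n3 t (T.gm t w) y ∧
    f = F s s' i t (T.gm t w) y}

end Inp

/-- letters of stage 1 (same as `Inp.let1`, with explicit `T`) -/
def Tri.let1 {Om Ξ A B C V Γ κ S : Type} [Fintype Om] [Fintype Ξ] [Fintype A] [Fintype B] [Fintype C] [Fintype V]
    (T : Tri Om Ξ A B C V Γ κ) (F : S → ℕ → C × Γ → B → V → ℝ) (Bn : S → ℕ → C × Γ → κ → List (Finset B)) (n1 : ℝ)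
    (s : S) (t : ℕ) (w : Om) : Set (V → ℝ) :=
  {f | ∃ b' : B, T.Rz t (T.ca t (T.a w)) (T.cb t b') (T.cc t (T.c w)) (T.gm t w) ∧
    ¬ lost (fun t (g : C × Γ) => (g.1, T.par t g.2)) T.cb (Bn s) n1 t (T.c w, T.gm t w) b' ∧
    f = F s t (T.c w, T.gm t w) b'}

/-- letters of stage 2 (same as `Inp.let2`, with explicit `T`) -/
def Tri.let2 {Om Ξ A B C V Γ κ S : Type} [Fintype Om] [Fintype Ξ] [Fintype A] [Fintype B] [Fintype C] [Fintype V]
    (T : Tri Om Ξ A B C V Γ κ) (F : S → S → ℕ → ℕ → Γ → B × C → V → ℝ)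
    (Bn : S → S → ℕ → ℕ → Γ → κ × κ → List (Finset (B × C)))
    (Nw : ℕ) (n3 : ℝ) (s s' : S) (t : ℕ) (w : Om) : Set (V → ℝ) :=
  {f | ∃ i < Nw, ∃ y : B × C, T.cb t y.1 = T.cb t (T.b w) ∧
    T.Rz t (T.ca t (T.a w)) (T.cb t y.1) (T.cc t y.2) (T.gm t w) ∧
    ¬ lost T.par (fun t (y : B × C) => (T.cb t y.1, T.cc t y.2)) (Bn s s' i) n3 t (T.gm t w) y ∧
    f = F s s' i t (T.gm t w) y}

end

end Pool.Agent.M3.S2
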