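import Pool.Agent.M3.S2.Opt
import Pool.Agent.M3.S2.NumL

/-!
# M3/S2/Vals1 : number of values of the label of `(a, c)` along the public path (helper52)

`clc Q t w0 w` = the points with the vertex `c` of `w0`, an optional node and a possible hidden vertex.
* `pOA` : length of lists at the options and the compatible cells of `a`; `E_pOA`;
* `letO_cum` : the letters of stage 1 along the public path; `tests_O` : the public tests;
* `ACTO` : the references which can be active; `sum_ACTO : E ≤ 2 K^2 Ms`;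
* `entG` : the entries of the histories, `valsG0` : deterministic bound, **`valsG`** : with probability.
-/

set_option autoImplicit false
set_option linter.unusedSectionVars false

namespace Pool.Agent.M3.S2

open Finset Pool.Agent.PWZ Pool.Agent.M3.TS

noncomputable section

open Classical in
/-- a sum of indicators is a number of elements -/
theorem sum_ind_card {α : Type*} [Fintype α] (p : α → Prop) :
    ∑ s, ind (p s) = ((univ.filter (fun s => p s)).card : ℝ) := by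
  rw [Finset.card_filter]
  push_cast
  refine Finset.sum_congr rfl fun s _ => ?_
  by_cases h : p s
  · rw [ind_of h, if_pos h]
  · rw [ind_not h, if_neg h]

section tri

variable {Om Ξ A B C V Γ κ : Type} [Fintype Om] [Fintype Ξ] [Fintype A] [Fintype B]
    [Fintype C] [Fintype V] {υ : ℕ → Type}

/-- length of lists at nodes `(c, g)` and compatible cells of `a`, at the options -/
def Tri.pOA (T : Tri Om Ξ A B C V Γ κ) (Q : ∀ t, Om → υ t) {X : Type} (L : ℕ → C × Γ → κ → List X) (w : Om) : ℕ :=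
  ∑ t ∈ range T.n, ∑ g ∈ T.OPT Q (t + 1) w, ∑ k ∈ T.CAg (t + 1) (T.cb (t + 1) (T.b w)) (T.cc (t + 1) (T.c w)) g,
    (L (t + 1) (T.c w, g) k).length

theorem E_pOA {T : Tri Om Ξ A B C V Γ κ} {Q : ∀ t, Om → υ t} (hP : Pubn T Q) {X : Type}
    (L : ℕ → C × Γ → κ → List X) : T.P.E (fun w => (T.pOA Q L w : ℝ)) ≤
      2 * (T.K * ∑ t ∈ range T.n, T.P.E (fun w => ((L (t + 1) (T.c w, T.gm (t + 1) w) (T.ca (t + 1) (T.a w))).length : ℝ))) := by
  unfold Tri.pOA
  simp only [Nat.cast_sum]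
  rw [T.P.E_sum, Finset.mul_sum, Finset.mul_sum]
  refine Finset.sum_le_sum fun t _ => ?_
  have h1 := hP.E_opt (t + 1) (fun b c g => ∑ k ∈ T.CAg (t + 1) (T.cb (t + 1) b) (T.cc (t + 1) c) g,
    ((L (t + 1) (c, g) k).length : ℝ)) (fun _ _ _ => Finset.sum_nonneg fun _ _ => Nat.cast_nonneg _)
  simp only [T.CAg_eq] at h1
  have h2 := T.E_CA_c (t + 1) (fun y k => ((L (t + 1) y k).length : ℝ)) (fun _ _ => Nat.cast_nonneg _)
  exact h1.trans (mul_le_mul_of_nonneg_left h2 (by norm_num))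

end tri

variable {Om A B C V Γ κ S : Type} [Fintype Om] [Fintype A] [Fintype B] [Fintype C] [Fintype V]
  [Fintype S] [DecidableEq S] {m : ℕ} {T : Tri Om (S → Fin m) A B C V Γ κ} {υ : ℕ → Type} {Q : ∀ t, Om → υ t}

open Classical in
/-- the letters of stage 1 along the public path -/
theorem letO_cum (hP : Pubn T Q) {F : S → ℕ → C × Γ → B → V → ℝ} {Bn : S → ℕ → C × Γ → κ → List (Finset B)} (s : S)
    (hl : LMeas T.n (fun t w => (T.c w, T.gm t w)) T.cb (Bn s) (F s)) (n1 : ℝ) (w0 : Om) :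
    ∃ f : Finset (V → ℝ), f.card ≤ (T.pO1 Q (Bn s) w0 + 1) ^ ⌊n1⌋₊ ∧
      ∀ t ≤ T.n, ∀ w, T.clc Q t w0 w → ∀ h ∈ T.let1 F Bn n1 s t w, h ∈ f := by
  have hp : ∀ t w, (fun t (g : C × Γ) => (g.1, T.par t g.2)) t ((fun t w => (T.c w, T.gm t w)) (t + 1) w) =
      (fun t w => (T.c w, T.gm t w)) t w := fun t w => by
    show (T.c w, T.par t (T.gm (t + 1) w)) = (T.c w, T.gm t w)
    rw [T.par_gm]
  obtain ⟨f, h1, h2⟩ := val_opt (par := fun t (g : C × Γ) => (g.1, T.par t g.2)) hl hp le_rfl (fun t => (T.OPT Q t w0).biUnion fun g =>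
    (T.CB2g t (T.cb t (T.b w0)) (T.cc t (T.c w0)) g).image (fun k => ((T.c w0, g), k))) n1
  refine ⟨f, h1.trans (Nat.pow_le_pow_left (Nat.add_le_add_right ?_ 1) _), ?_⟩
  · refine Finset.sum_le_sum fun t _ => ?_
    refine (sum_biN _ _ _).trans (Finset.sum_le_sum fun g _ => le_of_eq ?_)
    rw [Finset.sum_image (fun _ _ _ _ h => (Prod.mk.inj h).2)]
  · rintro t ht w hw h ⟨b', h3, h4, rfl⟩
    refine h2 t ht w b' (fun j hj => ?_) (cumB_not_lost (nd := fun t w => (T.c w, T.gm t w)) hp h4)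
    have hj' : j + 1 ≤ t := by omega
    have hw' := clc_anc hP.filt hj' hw
    rw [Finset.mem_biUnion]
    refine ⟨T.gm (j + 1) w, hw'.2.1, Finset.mem_image.2 ⟨T.cb (j + 1) b', ?_, ?_⟩⟩
    · refine T.mem_CB2g.2 ⟨T.ca (j + 1) (T.a w), clc_rz hP hw', ?_⟩
      have h5 := T.Rz_anc hj' h3
      rwa [hw.1] at h5
    · rw [hw.1]

namespace Inp

variable {I : Inp T S} {F : S → ℕ → C × Γ → B → V → ℝ} {Bn : S → ℕ → C × Γ → κ → List (Finset B)} {n1 : ℝ}
  {η1 : ℝ} {n2 : ℕ} {R0 ε2 : ℝ} {ts : ℕ → Om → List (S × (V → ℝ))}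

open Classical in
/-- the public tests along the public path -/
theorem testsO_cum (hP : Pubn T Q) (hts : I.Tests1 F Bn n1 η1 n2 R0 ε2 ts) (s : S) (w0 : Om) :
    ∃ f : Finset (V → ℝ), f.card ≤ T.pOA Q (tsL ts T s) w0 ∧
      ∀ t, 1 ≤ t → t ≤ T.n → ∀ w, T.clc Q t w0 w → ∀ h, (s, h) ∈ ts t w → h ∈ f := by
  refine ⟨(range T.n).biUnion fun t => (T.OPT Q (t + 1) w0).biUnion fun g =>
    (T.CAg (t + 1) (T.cb (t + 1) (T.b w0)) (T.cc (t + 1) (T.c w0)) g).biUnion fun α =>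
    ((tsL ts T s (t + 1) (T.c w0, g) α).map Prod.snd).toFinset, ?_, ?_⟩
  · unfold Tri.pOA
    refine Finset.card_biUnion_le.trans (Finset.sum_le_sum fun t _ => ?_)
    refine Finset.card_biUnion_le.trans (Finset.sum_le_sum fun g _ => ?_)
    refine Finset.card_biUnion_le.trans (Finset.sum_le_sum fun α _ => ?_)
    refine (List.toFinset_card_le _).trans ?_
    rw [List.length_map]
  · intro t ht1 htn w hw h hh
    obtain ⟨j, rfl⟩ : ∃ j, t = j + 1 := ⟨t - 1, by omega⟩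
    rw [Finset.mem_biUnion]
    refine ⟨j, Finset.mem_range.2 (by omega), ?_⟩
    rw [Finset.mem_biUnion]
    refine ⟨T.gm (j + 1) w, hw.2.1, ?_⟩
    rw [Finset.mem_biUnion]
    refine ⟨T.ca (j + 1) (T.a w), T.mem_CAg.2 (clc_rz hP hw), ?_⟩
    rw [List.mem_toFinset, List.mem_map]
    refine ⟨(s, h), ?_, rfl⟩
    have h2 := tsL_eq hts s (j + 1) w
    rw [hw.1] at h2
    rw [h2, List.mem_filter]
    exact ⟨hh, by simp⟩

variable (I)

/-- the reference `s` can be active for `(a, c)` along the public path -/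
def ACTO (Q : ∀ t, Om → υ t) (s : S) (w : Om) : Prop :=
  I.R.gb s ∈ T.OPT Q (I.R.tb s) w ∧
    T.Rz (I.R.tb s) (I.R.al s) (T.cb (I.R.tb s) (T.b w)) (T.cc (I.R.tb s) (T.c w)) (I.R.gb s) ∧
    T.Rz (I.R.tb s) (I.R.al s) (I.R.be s) (T.cc (I.R.tb s) (T.c w)) (I.R.gb s)

variable {I}

theorem act_ACTO (hP : Pubn T Q) {t : ℕ} {w0 w : Om} (hw : T.clc Q t w0 w) {s : S} (h : I.act w t s) :
    I.ACTO Q s w0 := by
  obtain ⟨⟨h1, h2⟩, h3, h4⟩ := h
  have hw' := clc_anc hP.filt h1 hw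
  have h5 := clc_rz hP hw'
  rw [h2, h3] at h5
  rw [hw.1] at h4
  refine ⟨?_, h5, h4⟩
  have := hw'.2.1
  rwa [h2] at this

/-- probability that `s` can be active -/
theorem pr_ACTO (hP : Pubn T Q) (s : S) :
    T.P.Pr (I.ACTO Q s) ≤ 2 * (T.K * T.P.Pr (fun w => I.act w T.n s)) := by
  classical
  have hK0 : 0 ≤ T.K := zero_le_one.trans T.K1
  set τ := I.R.tb s with hτ
  -- the options
  have h1 : T.P.Pr (I.ACTO Q s) ≤ 2 * T.P.Pr (fun w => T.gm τ w = I.R.gb s ∧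
      T.Rz τ (I.R.al s) (T.cb τ (T.b w)) (T.cc τ (T.c w)) (I.R.gb s) ∧
      T.Rz τ (I.R.al s) (I.R.be s) (T.cc τ (T.c w)) (I.R.gb s)) := by
    have h2 := hP.E_opt τ (fun b c g => ind (g = I.R.gb s ∧
      T.Rz τ (I.R.al s) (T.cb τ b) (T.cc τ c) (I.R.gb s) ∧
      T.Rz τ (I.R.al s) (I.R.be s) (T.cc τ c) (I.R.gb s))) (fun _ _ _ => ind_nonneg _)
    refine le_trans (T.P.E_mono fun w _ => ?_) h2
    by_cases h : I.ACTO Q s w
    · rw [ind_of h]
      refine le_trans (le_of_eq ?_) (Finset.single_le_sum (f := fun g => ind (g = I.R.gb s ∧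
        T.Rz τ (I.R.al s) (T.cb τ (T.b w)) (T.cc τ (T.c w)) (I.R.gb s) ∧
        T.Rz τ (I.R.al s) (I.R.be s) (T.cc τ (T.c w)) (I.R.gb s))) (fun _ _ => ind_nonneg _) h.1)
      exact (ind_of ⟨rfl, h.2.1, h.2.2⟩).symm
    · rw [ind_not h]
      exact Finset.sum_nonneg fun _ _ => ind_nonneg _
  refine h1.trans (mul_le_mul_of_nonneg_left ?_ (by norm_num))
  -- the cells of `a`
  have hact : ∀ w, I.act w T.n s ↔ (T.gm τ w = I.R.gb s ∧ T.ca τ (T.a w) = I.R.al s ∧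
      T.Rz τ (I.R.al s) (I.R.be s) (T.cc τ (T.c w)) (I.R.gb s)) := fun w =>
    ⟨fun h => ⟨h.1.2, h.2.1, h.2.2⟩, fun h => ⟨⟨I.tbn s, h.1⟩, h.2.1, h.2.2⟩⟩
  rw [Pr_split T.P T.c (fun w => T.gm τ w = I.R.gb s ∧
      T.Rz τ (I.R.al s) (T.cb τ (T.b w)) (T.cc τ (T.c w)) (I.R.gb s) ∧
      T.Rz τ (I.R.al s) (I.R.be s) (T.cc τ (T.c w)) (I.R.gb s)), Pr_split T.P T.c (fun w => I.act w T.n s),
    Finset.mul_sum]
  refine Finset.sum_le_sum fun c0 _ => ?_
  by_cases hc : T.Rz τ (I.R.al s) (I.R.be s) (T.cc τ c0) (I.R.gb s)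
  · have h2 := T.cca τ (I.R.gb s) c0 (I.R.al s)
    refine le_trans (T.P.Pr_mono ?_) (h2.trans (mul_le_mul_of_nonneg_left (T.P.Pr_mono ?_) hK0))
    · rintro w _ ⟨h3, h4, ⟨w', h5, h6, h7, h8⟩, -⟩
      exact ⟨h3, h4, w', h5, h6, by rw [h7, h3], h8⟩
    · rintro w _ ⟨h3, h4, h5⟩
      exact ⟨h3, (hact w).2 ⟨h4, h5, by rw [h3]; exact hc⟩⟩
  · have h3 : T.P.Pr (fun w => T.c w = c0 ∧ T.gm τ w = I.R.gb s ∧
        T.Rz τ (I.R.al s) (T.cb τ (T.b w)) (T.cc τ (T.c w)) (I.R.gb s) ∧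
        T.Rz τ (I.R.al s) (I.R.be s) (T.cc τ (T.c w)) (I.R.gb s)) ≤ T.P.Pr (fun _ => False) :=
      T.P.Pr_mono fun w _ h => hc (by rw [← h.1]; exact h.2.2.2)
    have h4 : T.P.Pr (fun _ : Om => False) = 0 := by
      unfold FP.Pr
      have : (fun _ : Om => ind False) = fun _ => (0 : ℝ) := by
        funext _
        exact ind_not (fun h => h)
      rw [this, T.P.E_const]
    rw [h4] at h3
    exact h3.trans (mul_nonneg hK0 (T.P.Pr_nonneg _))

theorem sum_ACTO (hP : Pubn T Q) : T.P.E (fun w => ∑ s, ind (I.ACTO Q s w)) ≤ 2 * T.K ^ 2 * I.Ms := by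
  have hK0 : 0 ≤ T.K := zero_le_one.trans T.K1
  rw [T.P.E_sum]
  have h1 : ∀ s, T.P.E (fun w => ind (I.ACTO Q s w)) ≤ 2 * T.K ^ 2 * T.P.Pr (fun w => I.onab w T.n s) := by
    intro s
    refine (pr_ACTO (I := I) hP s).trans ?_
    have h2 := mul_le_mul_of_nonneg_left (I.pr_act s) hK0
    calc 2 * (T.K * T.P.Pr (fun w => I.act w T.n s)) ≤ 2 * (T.K * (T.K * T.P.Pr (fun w => I.onab w T.n s))) :=
          mul_le_mul_of_nonneg_left h2 (by norm_num)
      _ = 2 * T.K ^ 2 * T.P.Pr (fun w => I.onab w T.n s) := by ring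
  refine (Finset.sum_le_sum fun s _ => h1 s).trans ?_
  rw [← Finset.mul_sum]
  exact mul_le_mul_of_nonneg_left I.sum_onab (by positivity)

/-! ### the histories -/

variable (I) in
/-- the size is not too large at `w` : at most `M1` references, at most `M` births and tests -/
def okG (Q : ∀ t, Om → υ t) (Bn : S → ℕ → C × Γ → κ → List (Finset B)) (ts : ℕ → Om → List (S × (V → ℝ)))
    (M M1 : ℕ) (w : Om) : Prop :=
  ∑ s, ind (I.ACTO Q s w) ≤ M1 ∧ ∀ s, T.pO1 Q (Bn s) w ≤ M ∧ T.pOA Q (tsL ts T s) w ≤ M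

open Classical in
/-- the entries of the histories -/
theorem entG (hP : Pubn T Q) (hl : ∀ s, LMeas T.n (fun t w => (T.c w, T.gm t w)) T.cb (Bn s) (F s))
    (hts : I.Tests1 F Bn n1 η1 n2 R0 ε2 ts) {M M1 : ℕ} {w0 : Om} (hok : I.okG Q Bn ts M M1 w0) :
    ∃ f : Finset (S × (V → ℝ)), f.card ≤ M1 * (2 * (M + 1) ^ ⌊n1⌋₊ + M) ∧
      ∀ t ≤ T.n, ∀ w, T.clc Q t w0 w → ∀ p ∈ I.alT F Bn n1 ts t w, p ∈ f := by
  choose f hf1 hf2 using fun s => letO_cum (T := T) hP s (hl s) n1 w0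
  choose g hg1 hg2 using fun s => testsO_cum (I := I) hP hts s w0
  set ac : Finset S := univ.filter (fun s => I.ACTO Q s w0) with hac
  have hacc : ac.card ≤ M1 := by
    have h1 := hok.1
    rw [sum_ind_card] at h1
    exact_mod_cast h1
  refine ⟨ac.biUnion fun s => ((f s ∪ (f s).image (fun h d => - h d)) ∪ g s).image (fun h => (s, h)), ?_, ?_⟩
  · calc _ ≤ ∑ s ∈ ac, (((f s ∪ (f s).image (fun h d => - h d)) ∪ g s).image (fun h => (s, h))).card :=
          Finset.card_biUnion_le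
      _ ≤ ∑ s ∈ ac, (2 * (M + 1) ^ ⌊n1⌋₊ + M) := by
          refine Finset.sum_le_sum fun s _ => ?_
          refine Finset.card_image_le.trans ((Finset.card_union_le _ _).trans ?_)
          have h1 : (f s ∪ (f s).image (fun h d => - h d)).card ≤ (f s).card + ((f s).image (fun h d => - h d)).card :=
            Finset.card_union_le _ _
          have h2 : ((f s).image (fun h d => - h d)).card ≤ (f s).card := Finset.card_image_le
          have h3 : (f s).card ≤ (M + 1) ^ ⌊n1⌋₊ :=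
            (hf1 s).trans (Nat.pow_le_pow_left (Nat.add_le_add_right (hok.2 s).1 1) _)
          have h4 : (g s).card ≤ M := (hg1 s).trans (hok.2 s).2
          omega
      _ = ac.card * (2 * (M + 1) ^ ⌊n1⌋₊ + M) := by rw [Finset.sum_const, smul_eq_mul]
      _ ≤ _ := Nat.mul_le_mul_right _ hacc
  · rintro t ht w hw ⟨s, h⟩ hp
    have hact : I.act w t s := alT_act hts t w s h hp
    rw [Finset.mem_biUnion]
    refine ⟨s, Finset.mem_filter.2 ⟨Finset.mem_univ _, act_ACTO hP hw hact⟩, ?_⟩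
    refine Finset.mem_image.2 ⟨h, ?_, rfl⟩
    rcases hp with h1 | h1
    · obtain ⟨_, f0, hf0, h2⟩ := h1
      have h3 := hf2 s t ht w hw f0 hf0
      rcases h2 with h2 | h2
      · have h4 : h = f0 := h2
        rw [h4]
        exact Finset.mem_union_left _ (Finset.mem_union_left _ h3)
      · have h4 : h = fun d => - f0 d := h2
        rw [h4]
        exact Finset.mem_union_left _ (Finset.mem_union_right _ (Finset.mem_image_of_mem _ h3))
    · refine Finset.mem_union_right _ (hg2 s t ?_ ht w hw h h1)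
      have h2 := hact.1.1
      have h3 := I.tb1 s
      omega

/-- number of histories -/
def nG (n1 : ℝ) (n2 M M1 : ℕ) : ℕ := (M1 * (2 * (M + 1) ^ ⌊n1⌋₊ + M) + 1) ^ (n2 + 1)

/-- **deterministic bound** : all the histories of `(a, c)` along the public path -/
theorem valsG0 (hη : 0 < η1) (hP : Pubn T Q)
    (hl : ∀ s, LMeas T.n (fun t w => (T.c w, T.gm t w)) T.cb (Bn s) (F s))
    (hts : I.Tests1 F Bn n1 η1 n2 R0 ε2 ts) (ν : ℕ → Om → S → Prop) {M M1 : ℕ} {w0 : Om}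
    (hok : I.okG Q Bn ts M M1 w0) :
    ∃ f : Finset (List (S × (V → ℝ))), f.card ≤ nG n1 n2 M M1 ∧
      ∀ t ≤ T.n, ∀ w, T.clc Q t w0 w → Hi η1 n2 (I.loc1 F Bn n1) ts ν t w ∈ f := by
  obtain ⟨e, he1, he2⟩ := entG (n1 := n1) hP hl hts hok
  obtain ⟨f, hf1, hf2⟩ := lists_card e (n2 + 1)
  refine ⟨f, hf1.trans (Nat.pow_le_pow_left (Nat.add_le_add_right he1 1) _), fun t ht w hw => ?_⟩
  refine hf2 _ ?_ ?_
  · exact hist_len (η := η1) (n2 := n2) (x := fun t => I.loc1 F Bn n1 t w) (ts := fun t => ts t w)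
      (ν := fun t => ν t w) hη (fun t => T.isMean t w) t
  · intro p hp
    obtain ⟨j, hj1, hjt, -, hal⟩ := Hi_alT hts ν t w p hp
    exact he2 j (hjt.trans ht) w (clc_anc hP.filt hjt hw) p hal

/-- the births at the options, per reference -/
theorem E_pO1_s (hP : Pubn T Q) {η' ε' δ : ℝ} (hε' : 0 < ε')
    (hN : ∀ s, NOut T.P T.b T.n (fun t w => (T.c w, T.gm t w)) T.cb (fun t g => T.ρ t g.2)
      (fun t (g : C × Γ) => (g.1, T.par t g.2)) (I.k1 s) (F s) (Bn s) η' ε' n1 δ) (s : S) :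
    T.P.E (fun w => (T.pO1 Q (Bn s) w : ℝ)) ≤
      2 * T.K ^ 3 * (32 / η' ^ 2 * (I.p0 + 1) / ε') * T.P.Pr (fun w => I.onab w T.n s) := by
  have h1 := E_pO1 hP (Bn s)
  have h2 := births'_le T.side1 (Bn s) hε' (fun t g k S hS => ⟨(hN s).sub t g k S hS, (hN s).thick t g k S hS⟩)
  have h3 := (hN s).mean
  have h4 := I.k1_movesE s
  have h5 : births T.P T.b T.n (fun t w => (T.c w, T.gm t w)) T.cb (Bn s) / ε' ≤
      32 / η' ^ 2 * ((I.p0 + 1) * (T.K * T.P.Pr (fun w => I.onab w T.n s))) / ε' := by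
    refine div_le_div_of_nonneg_right (h3.trans ?_) hε'.le
    exact mul_le_mul_of_nonneg_left h4 (by positivity)
  refine h1.trans ((mul_le_mul_of_nonneg_left (mul_le_mul_of_nonneg_left (h2.trans h5) (by positivity))
    (by norm_num)).trans (le_of_eq ?_))
  ring

/-- the tests at the options, per reference -/
theorem E_pOT_s (hP : Pubn T Q) (hη : 0 < η1) (hε2 : 0 < ε2) (hF : ∀ s t g b d, |F s t g b d| ≤ 1)
    (hts : I.Tests1 F Bn n1 η1 n2 R0 ε2 ts) (s : S) :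
    T.P.E (fun w => (T.pOA Q (tsL ts T s) w : ℝ)) ≤
      2 * T.K ^ 2 * (2 / η1 ^ 2 * ((1 + n2 * η1) ^ 2 + I.p0) / ε2) * T.P.Pr (fun w => I.onab w T.n s) := by
  have hK0 : 0 ≤ T.K := zero_le_one.trans T.K1
  have hp0 : 0 ≤ I.p0 := zero_le_one.trans I.p01
  set c2 : ℝ := 2 / η1 ^ 2 * ((1 + n2 * η1) ^ 2 + I.p0) / ε2 with hc2
  have hc20 : 0 ≤ c2 := by positivity
  have h1 := E_pOA hP (tsL ts T s)
  have h2 : ∑ t ∈ range T.n, T.P.E (fun w => ((tsL ts T s (t + 1) (T.c w, T.gm (t + 1) w)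
      (T.ca (t + 1) (T.a w))).length : ℝ)) ≤ c2 * T.P.Pr (fun w => I.act w T.n s) := by
    refine le_trans (le_of_eq ?_) (E_tests1 hη hε2 hF hts s)
    refine Finset.sum_congr rfl fun t _ => T.P.E_congr fun w _ => ?_
    rw [tsL_eq hts s (t + 1) w]
    exact len_filter_cntS s _
  have h3 := mul_le_mul_of_nonneg_left (I.pr_act s) hc20
  calc _ ≤ 2 * (T.K * (c2 * (T.K * T.P.Pr (fun w => I.onab w T.n s)))) :=
        h1.trans (mul_le_mul_of_nonneg_left (mul_le_mul_of_nonneg_left (h2.trans h3) hK0) (by norm_num))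
    _ = _ := by ring

/-- **NUMBER OF VALUES OF THE LABEL OF `(a, c)`** along the public path -/
theorem valsG (hη : 0 < η1) (hε2 : 0 < ε2) (hP : Pubn T Q) {η' ε' δ : ℝ} (hε' : 0 < ε')
    (hN : ∀ s, NOut T.P T.b T.n (fun t w => (T.c w, T.gm t w)) T.cb (fun t g => T.ρ t g.2)
      (fun t (g : C × Γ) => (g.1, T.par t g.2)) (I.k1 s) (F s) (Bn s) η' ε' n1 δ)
    (hts : I.Tests1 F Bn n1 η1 n2 R0 ε2 ts) (M M1 : ℕ) :
    T.P.Pr (fun w => ¬ I.okG Q Bn ts M M1 w) ≤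
      2 * (T.K ^ 3 * (32 / η' ^ 2 * (I.p0 + 1) / ε') +
        T.K ^ 2 * (2 / η1 ^ 2 * ((1 + n2 * η1) ^ 2 + I.p0) / ε2)) * I.Ms / (M + 1) +
      2 * T.K ^ 2 * I.Ms / (M1 + 1) := by
  classical
  have hK0 : 0 ≤ T.K := zero_le_one.trans T.K1
  have hF : ∀ s t g b d, |F s t g b d| ≤ 1 := fun s t g b d => (hN s).F1 t g b d
  have hM : (0 : ℝ) < M + 1 := by positivity
  have hM1' : (0 : ℝ) < M1 + 1 := by positivity
  have hp0 : 0 ≤ I.p0 := zero_le_one.trans I.p01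
  set c1 : ℝ := 32 / η' ^ 2 * (I.p0 + 1) / ε' with hc1
  set c2 : ℝ := 2 / η1 ^ 2 * ((1 + n2 * η1) ^ 2 + I.p0) / ε2 with hc2
  have hA : T.P.Pr (fun w => (M1 : ℝ) < ∑ s, ind (I.ACTO Q s w)) ≤ 2 * T.K ^ 2 * I.Ms / (M1 + 1) := by
    rw [le_div_iff₀ hM1']
    refine le_trans ?_ (sum_ACTO (I := I) hP)
    unfold FP.Pr
    rw [mul_comm, ← T.P.E_smul]
    refine T.P.E_mono fun w _ => ?_
    by_cases h : (M1 : ℝ) < ∑ s, ind (I.ACTO Q s w)
    · rw [ind_of h, mul_one]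
      rw [sum_ind_card] at h ⊢
      exact_mod_cast h
    · rw [ind_not h, mul_zero]
      exact Finset.sum_nonneg fun _ _ => ind_nonneg _
  have hB : T.P.Pr (fun w => ∃ s, M < T.pO1 Q (Bn s) w ∨ M < T.pOA Q (tsL ts T s) w) ≤
      2 * (T.K ^ 3 * c1 + T.K ^ 2 * c2) * I.Ms / (M + 1) := by
    rw [le_div_iff₀ hM]
    have hmain : T.P.Pr (fun w => ∃ s, M < T.pO1 Q (Bn s) w ∨ M < T.pOA Q (tsL ts T s) w) * (M + 1) ≤
        T.P.E (fun w => ∑ s, ((T.pO1 Q (Bn s) w : ℝ) + (T.pOA Q (tsL ts T s) w : ℝ))) := by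
      unfold FP.Pr
      rw [mul_comm, ← T.P.E_smul]
      refine T.P.E_mono fun w _ => ?_
      have hnn : ∀ s, 0 ≤ (T.pO1 Q (Bn s) w : ℝ) + (T.pOA Q (tsL ts T s) w : ℝ) := fun s => by positivity
      by_cases hb : ∃ s, M < T.pO1 Q (Bn s) w ∨ M < T.pOA Q (tsL ts T s) w
      · rw [ind_of hb, mul_one]
        obtain ⟨s, hs⟩ := hb
        have h2 : M + 1 ≤ T.pO1 Q (Bn s) w + T.pOA Q (tsL ts T s) w := by omega
        have h3 : (M : ℝ) + 1 ≤ (T.pO1 Q (Bn s) w : ℝ) + (T.pOA Q (tsL ts T s) w : ℝ) := by exact_mod_cast h2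
        exact h3.trans (Finset.single_le_sum (f := fun s => (T.pO1 Q (Bn s) w : ℝ) + (T.pOA Q (tsL ts T s) w : ℝ))
          (fun s _ => hnn s) (Finset.mem_univ s))
      · rw [ind_not hb, mul_zero]
        exact Finset.sum_nonneg fun s _ => hnn s
    refine hmain.trans ?_
    rw [T.P.E_sum]
    have h1 : ∀ s, T.P.E (fun w => (T.pO1 Q (Bn s) w : ℝ) + (T.pOA Q (tsL ts T s) w : ℝ)) ≤
        2 * (T.K ^ 3 * c1 + T.K ^ 2 * c2) * T.P.Pr (fun w => I.onab w T.n s) := by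
      intro s
      rw [T.P.E_add]
      have h2 := E_pO1_s (I := I) hP hε' hN s
      have h3 := E_pOT_s (I := I) hP hη hε2 hF hts s
      have e : 2 * (T.K ^ 3 * c1 + T.K ^ 2 * c2) * T.P.Pr (fun w => I.onab w T.n s) =
          2 * T.K ^ 3 * c1 * T.P.Pr (fun w => I.onab w T.n s) +
          2 * T.K ^ 2 * c2 * T.P.Pr (fun w => I.onab w T.n s) := by ring
      rw [e]
      exact add_le_add h2 h3
    refine (Finset.sum_le_sum fun s _ => h1 s).trans ?_
    rw [← Finset.mul_sum]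
    exact mul_le_mul_of_nonneg_left I.sum_onab (by positivity)
  refine le_trans (T.P.Pr_mono (t := fun w => (∃ s, M < T.pO1 Q (Bn s) w ∨ M < T.pOA Q (tsL ts T s) w) ∨
    (M1 : ℝ) < ∑ s, ind (I.ACTO Q s w)) fun w _ h => ?_) (pr_or T.P hB hA)
  by_contra h1
  push Not at h1
  exact h ⟨h1.2, fun s => h1.1 s⟩

end Inp

end

end Pool.Agent.M3.S2
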