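import Pool.Agent.M3.S2.Vals1
import Pool.Agent.M3.S2.Stage2g

/-!
# M3/S2/Vals2 : number of values of the label of `(a, b)` along the public path, the parts (helper52)

`clb Q t w0 w` = the points with the vertex `b` of `w0`, an optional node and a possible hidden vertex.
* `pOAb`, `E_pOAb`, `letgO_cum`, `testsgO_cum` : letters and public tests of stage 2 (one pair `(s, s')`, any `Tri`);
* `okH`, **`valsH0`** : all the histories of one pair; `E_testsg` : expected number of the public tests;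
* `ACTB`, `RECO` : the references which can be live / recorded; `sum_ACTB`, `sum_RECO`.
-/

set_option autoImplicit false
set_option linter.unusedSectionVars false

namespace Pool.Agent.M3.S2

open Finset Pool.Agent.PWZ Pool.Agent.M3.TS
open Inp (nu2 nu2_true)

noncomputable section

section tri

variable {Om Ξ A B C V Γ κ : Type} [Fintype Om] [Fintype Ξ] [Fintype A] [Fintype B]
    [Fintype C] [Fintype V] {υ : ℕ → Type} {T : Tri Om Ξ A B C V Γ κ} {Q : ∀ t, Om → υ t}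

/-- length of lists at nodes `(cell of b, g)` and compatible cells of `a`, at the options -/
def Tri.pOAb (T : Tri Om Ξ A B C V Γ κ) (Q : ∀ t, Om → υ t) {X : Type} (L : ℕ → κ × Γ → κ → List X) (w : Om) : ℕ :=
  ∑ t ∈ range T.n, ∑ g ∈ T.OPT Q (t + 1) w, ∑ k ∈ T.CAg (t + 1) (T.cb (t + 1) (T.b w)) (T.cc (t + 1) (T.c w)) g,
    (L (t + 1) (T.cb (t + 1) (T.b w), g) k).length

theorem E_pOAb (hP : Pubn T Q) {X : Type} (L : ℕ → κ × Γ → κ → List X) :
    T.P.E (fun w => (T.pOAb Q L w : ℝ)) ≤ 2 * (T.K * ∑ t ∈ range T.n,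
      T.P.E (fun w => ((L (t + 1) (T.cb (t + 1) (T.b w), T.gm (t + 1) w) (T.ca (t + 1) (T.a w))).length : ℝ))) := by
  unfold Tri.pOAb
  simp only [Nat.cast_sum]
  rw [T.P.E_sum, Finset.mul_sum, Finset.mul_sum]
  refine Finset.sum_le_sum fun t _ => ?_
  have h1 := hP.E_opt (t + 1) (fun b c g => ∑ k ∈ T.CAg (t + 1) (T.cb (t + 1) b) (T.cc (t + 1) c) g,
    ((L (t + 1) (T.cb (t + 1) b, g) k).length : ℝ)) (fun _ _ _ => Finset.sum_nonneg fun _ _ => Nat.cast_nonneg _)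
  simp only [T.CAg_eq] at h1
  have h2 := T.E_CA_b (t + 1) (fun y k => ((L (t + 1) (T.cb (t + 1) y.1, y.2) k).length : ℝ))
    (fun _ _ => Nat.cast_nonneg _)
  exact h1.trans (mul_le_mul_of_nonneg_left h2 (by norm_num))

variable {F : ℕ → ℕ → Γ → B × C → V → ℝ} {Bn : ℕ → ℕ → Γ → κ × κ → List (Finset (B × C))} {Nw : ℕ} {n3 : ℝ}
  {ac : ℕ → Om → Prop} {tg : A → V → ℝ} {η2 : ℝ} {n4 : ℕ} {ε3 : ℝ} {ts : ℕ → Om → List (Unit × (V → ℝ))}

open Classical in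
/-- the letters of stage 2 along the public path -/
theorem letgO_cum (hP : Pubn T Q)
    (hl : ∀ i < Nw, LMeas T.n T.gm (fun t (y : B × C) => (T.cb t y.1, T.cc t y.2)) (Bn i) (F i))
    (n3 : ℝ) (w0 : Om) :
    ∃ f : Finset (V → ℝ), f.card ≤ ∑ i ∈ range Nw, (T.pO2 Q (Bn i) w0 + 1) ^ ⌊n3⌋₊ ∧
      ∀ t ≤ T.n, ∀ w, T.clb Q t w0 w → ∀ h ∈ T.letg F Bn Nw n3 t w, h ∈ f := by
  have h0 : ∀ i, ∃ f : Finset (V → ℝ), i < Nw → (f.card ≤ (T.pO2 Q (Bn i) w0 + 1) ^ ⌊n3⌋₊ ∧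
      ∀ t ≤ T.n, ∀ w, T.clb Q t w0 w → ∀ y : B × C, T.cb t y.1 = T.cb t (T.b w) →
        T.Rz t (T.ca t (T.a w)) (T.cb t y.1) (T.cc t y.2) (T.gm t w) →
        ¬ lost T.par (fun t (y : B × C) => (T.cb t y.1, T.cc t y.2)) (Bn i) n3 t (T.gm t w) y →
        F i t (T.gm t w) y ∈ f) := by
    intro i
    by_cases hi : i < Nw
    · obtain ⟨f, h1, h2⟩ := val_opt (hl i hi) T.par_gm le_rfl (fun t => (T.OPT Q t w0).biUnion fun g =>
        (T.CC2g t (T.cb t (T.b w0)) (T.cc t (T.c w0)) g).image (fun k => (g, (T.cb t (T.b w0), k)))) n3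
      refine ⟨f, fun _ => ⟨h1.trans (Nat.pow_le_pow_left (Nat.add_le_add_right ?_ 1) _), ?_⟩⟩
      · refine Finset.sum_le_sum fun t _ => ?_
        refine (sum_biN _ _ _).trans (Finset.sum_le_sum fun g _ => le_of_eq ?_)
        rw [Finset.sum_image (fun _ _ _ _ h => (Prod.mk.inj (Prod.mk.inj h).2).2)]
      · intro t ht w hw y h3 h4 h5
        refine h2 t ht w y (fun j hj => ?_) (cumB_not_lost T.par_gm h5)
        have hj' : j + 1 ≤ t := by omega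
        have hw' := clb_anc hP.filt hj' hw
        rw [Finset.mem_biUnion]
        refine ⟨T.gm (j + 1) w, hw'.2.1, Finset.mem_image.2 ⟨T.cc (j + 1) y.2, ?_, ?_⟩⟩
        · refine T.mem_CC2g.2 ⟨T.ca (j + 1) (T.a w), clb_rz hP hw', ?_⟩
          rw [h3, hw.1] at h4
          exact T.Rz_anc hj' h4
        · rw [nest_le T.nb hj' h3, hw.1]
    · exact ⟨∅, fun h => absurd h hi⟩
  choose f hf using h0
  refine ⟨(range Nw).biUnion f, ?_, ?_⟩
  · exact Finset.card_biUnion_le.trans (Finset.sum_le_sum fun i hi => (hf i (Finset.mem_range.1 hi)).1)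
  · rintro t ht w hw h ⟨i, hi, y, h3, h4, h5, rfl⟩
    exact Finset.mem_biUnion.2 ⟨i, Finset.mem_range.2 hi, (hf i hi).2 t ht w hw y h3 h4 h5⟩

/-- the public tests of stage 2 at the nodes and cells -/
def tgL (T : Tri Om Ξ A B C V Γ κ) (ts : ℕ → Om → List (Unit × (V → ℝ))) (t : ℕ) (y : κ × Γ) (α : κ) :
    List (Unit × (V → ℝ)) := lft [] (T.Qg t) (ts t) (y, α)

theorem tgL_eq (htQ : ∀ t, Fac (T.Qg t) (ts t)) (t : ℕ) (w : Om) :
    tgL T ts t (T.cb t (T.b w), T.gm t w) (T.ca t (T.a w)) = ts t w := by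
  unfold tgL
  exact lft_eq (htQ t) w

open Classical in
/-- the public tests along the public path -/
theorem testsgO_cum (hP : Pubn T Q) (htQ : ∀ t, Fac (T.Qg t) (ts t)) (w0 : Om) :
    ∃ f : Finset (Unit × (V → ℝ)), f.card ≤ T.pOAb Q (tgL T ts) w0 ∧
      ∀ t, 1 ≤ t → t ≤ T.n → ∀ w, T.clb Q t w0 w → ∀ p ∈ ts t w, p ∈ f := by
  refine ⟨(range T.n).biUnion fun t => (T.OPT Q (t + 1) w0).biUnion fun g =>
    (T.CAg (t + 1) (T.cb (t + 1) (T.b w0)) (T.cc (t + 1) (T.c w0)) g).biUnion fun α =>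
    (tgL T ts (t + 1) (T.cb (t + 1) (T.b w0), g) α).toFinset, ?_, ?_⟩
  · unfold Tri.pOAb
    refine Finset.card_biUnion_le.trans (Finset.sum_le_sum fun t _ => ?_)
    refine Finset.card_biUnion_le.trans (Finset.sum_le_sum fun g _ => ?_)
    refine Finset.card_biUnion_le.trans (Finset.sum_le_sum fun α _ => ?_)
    exact List.toFinset_card_le _
  · intro t ht1 htn w hw p hp
    obtain ⟨j, rfl⟩ : ∃ j, t = j + 1 := ⟨t - 1, by omega⟩
    rw [Finset.mem_biUnion]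
    refine ⟨j, Finset.mem_range.2 (by omega), ?_⟩
    rw [Finset.mem_biUnion]
    refine ⟨T.gm (j + 1) w, hw.2.1, ?_⟩
    rw [Finset.mem_biUnion]
    refine ⟨T.ca (j + 1) (T.a w), T.mem_CAg.2 (clb_rz hP hw), ?_⟩
    rw [List.mem_toFinset]
    have h2 := tgL_eq htQ (j + 1) w
    rw [hw.1] at h2
    rw [h2]
    exact hp

/-- the sizes of one pair are not too large -/
def okH (T : Tri Om Ξ A B C V Γ κ) (Q : ∀ t, Om → υ t) (Bn : ℕ → ℕ → Γ → κ × κ → List (Finset (B × C)))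
    (ts : ℕ → Om → List (Unit × (V → ℝ))) (Nw M : ℕ) (w : Om) : Prop :=
  (∀ i < Nw, T.pO2 Q (Bn i) w ≤ M) ∧ T.pOAb Q (tgL T ts) w ≤ M

/-- number of histories of one pair -/
def nH (n3 : ℝ) (n4 Nw M : ℕ) : ℕ := (2 * (Nw * (M + 1) ^ ⌊n3⌋₊) + M + 1) ^ (n4 + 1)

open Classical in
/-- **all the histories of one pair** along the public path -/
theorem valsH0 (hη : 0 < η2) (hP : Pubn T Q) (hA : T.Act ac)
    (hl : ∀ i < Nw, LMeas T.n T.gm (fun t (y : B × C) => (T.cb t y.1, T.cc t y.2)) (Bn i) (F i))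
    (htQ : ∀ t, Fac (T.Qg t) (ts t)) {M : ℕ} {w0 : Om} (hok : okH T Q Bn ts Nw M w0) :
    ∃ f : Finset (List (V → ℝ)), f.card ≤ nH n3 n4 Nw M ∧ ∀ t ≤ T.n, ∀ w, T.clb Q t w0 w →
      (Hi η2 n4 (T.locg F Bn Nw n3 ac tg) ts nu2 t w).map Prod.snd ∈ f := by
  obtain ⟨l, hl1, hl2⟩ := letgO_cum hP hl n3 w0
  obtain ⟨g, hg1, hg2⟩ := testsgO_cum hP htQ w0
  set e : Finset (Unit × (V → ℝ)) := ((l ∪ l.image (fun h d => - h d)).image (fun h => ((), h))) ∪ g with he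
  have hce : e.card ≤ 2 * (Nw * (M + 1) ^ ⌊n3⌋₊) + M := by
    have h1 : ((l ∪ l.image (fun h d => - h d)).image (fun h => ((), h))).card ≤
        (l ∪ l.image (fun h d => - h d)).card := Finset.card_image_le
    have h2 : (l ∪ l.image (fun h d => - h d)).card ≤ l.card + (l.image (fun h d => - h d)).card :=
      Finset.card_union_le _ _
    have h3 : (l.image (fun h d => - h d)).card ≤ l.card := Finset.card_image_le
    have h4 : l.card ≤ Nw * (M + 1) ^ ⌊n3⌋₊ := by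
      refine hl1.trans ?_
      calc _ ≤ ∑ i ∈ range Nw, (M + 1) ^ ⌊n3⌋₊ := Finset.sum_le_sum fun i hi =>
            Nat.pow_le_pow_left (Nat.add_le_add_right (hok.1 i (Finset.mem_range.1 hi)) 1) _
        _ = Nw * (M + 1) ^ ⌊n3⌋₊ := by rw [Finset.sum_const, Finset.card_range, smul_eq_mul]
    have h5 : e.card ≤ ((l ∪ l.image (fun h d => - h d)).image (fun h => ((), h))).card + g.card :=
      Finset.card_union_le _ _
    have h6 : g.card ≤ M := hg1.trans hok.2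
    omega
  obtain ⟨f, hf1, hf2⟩ := lists_card e (n4 + 1)
  refine ⟨f.image (fun L => L.map Prod.snd), Finset.card_image_le.trans
    (hf1.trans (Nat.pow_le_pow_left (Nat.add_le_add_right hce 1) _)), fun t ht w hw => ?_⟩
  refine Finset.mem_image.2 ⟨_, hf2 _ ?_ ?_, rfl⟩
  · exact Tri.Hig_len hη t w
  · rw [Tri.Hig_ts hA hη]
    refine hist_mem (η := η2) (n2 := n4) (x := fun t => T.locg F Bn Nw n3 ac tg t w)
      (ts := fun t => Tri.tsg ac ts t w) (ν := fun t => nu2 t w) (T := fun p => p ∈ e) t ?_ ?_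
    · rintro j hj ⟨⟨⟩, h⟩ hp -
      have hp' : ((), h) ∈ T.lsg F Bn Nw n3 ac j w := hp
      rw [T.mem_lsg] at hp'
      obtain ⟨-, f0, hf0, h2⟩ := hp'
      have h3 := hl2 j (hj.trans ht) w (clb_anc hP.filt hj hw) f0 hf0
      refine Finset.mem_union_left _ (Finset.mem_image.2 ⟨h, ?_, rfl⟩)
      rcases h2 with h2 | h2
      · have h4 : h = f0 := h2
        rw [h4]
        exact Finset.mem_union_left _ h3
      · have h4 : h = fun d => - f0 d := h2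
        rw [h4]
        exact Finset.mem_union_right _ (Finset.mem_image_of_mem _ h3)
    · intro j hj p hp _
      have hp' : p ∈ Tri.tsg ac ts j w := hp
      unfold Tri.tsg at hp'
      split_ifs at hp' with h
      · refine Finset.mem_union_right _ (hg2 j ?_ (hj.trans ht) w (clb_anc hP.filt hj hw) p hp')
        by_contra h0
        have h1 : j = 0 := by omega
        subst h1
        exact hA.zero w h
      · simp at hp'

/-- **expected number of the public tests** of one pair -/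
theorem E_testsg (hP : Pubn T Q) (hA : T.Act ac) (htg : ∀ a d, |tg a d| ≤ 1) (hη : 0 < η2) (hε : 0 < ε3)
    (hF : ∀ i t g y d, |F i t g y d| ≤ 1) (hts : T.Testsg F Bn Nw n3 ac tg η2 n4 ε3 ts) :
    T.P.E (fun w => (T.pOAb Q (tgL T ts) w : ℝ)) ≤ 2 * T.K * (6 / η2 ^ 2 / ε3) *
      T.P.Pr (fun w => ∃ t ≤ T.n, ac t w) := by
  have hK0 : 0 ≤ T.K := zero_le_one.trans T.K1
  have h1 := E_pOAb hP (tgL T ts)
  have h2 : ∀ t, T.P.E (fun w => ((tgL T ts t (T.cb t (T.b w), T.gm t w) (T.ca t (T.a w))).length : ℝ)) ≤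
      T.P.E (Up η2 n4 (T.locg F Bn Nw n3 ac tg) ts nu2 t) / ε3 := by
    intro t
    rw [le_div_iff₀ hε, mul_comm, ← T.P.E_smul]
    have h3 : T.P.E (T.P.ce (T.Qg t) (Up η2 n4 (T.locg F Bn Nw n3 ac tg) ts nu2 t)) =
        T.P.E (Up η2 n4 (T.locg F Bn Nw n3 ac tg) ts nu2 t) := T.P.E_ce _ _
    rw [← h3]
    refine T.P.E_mono fun w _ => ?_
    rw [tgL_eq hts.tsQ t w]
    refine le_trans (le_of_eq ?_) (hts.cnt t w)
    congr 1
    unfold cntS
    induction ts t w with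
    | nil => simp
    | cons p L ih =>
      rw [List.length_cons, List.map_cons, List.sum_cons, ind_of (Subsingleton.elim _ _), ← ih]
      push_cast
      ring
  have h3 := Tri.Upg_le (n4 := n4) (Bn := Bn) (Nw := Nw) (n3 := n3) hA htg hη hF (fun t => (Tri.QKg t).trans (hts.tsQ t))
    hts.bd T.n
  rw [Finset.sum_range_succ'] at h3
  have h4 : 0 ≤ T.P.E (Up η2 n4 (T.locg F Bn Nw n3 ac tg) ts nu2 0) := T.P.E_nonneg fun w _ =>
    upd_nonneg (x := fun t => T.locg F Bn Nw n3 ac tg t w) (ts := fun t => ts t w) (ν := fun t => nu2 t w) 0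
  have h5 : ∑ t ∈ range T.n, T.P.E (fun w => ((tgL T ts (t + 1) (T.cb (t + 1) (T.b w), T.gm (t + 1) w)
      (T.ca (t + 1) (T.a w))).length : ℝ)) ≤ 6 / η2 ^ 2 / ε3 * T.P.Pr (fun w => ∃ t ≤ T.n, ac t w) := by
    refine (Finset.sum_le_sum fun t _ => h2 (t + 1)).trans ?_
    rw [← Finset.sum_div, div_le_iff₀ hε]
    have e : 6 / η2 ^ 2 / ε3 * T.P.Pr (fun w => ∃ t ≤ T.n, ac t w) * ε3 =
        6 / η2 ^ 2 * T.P.Pr (fun w => ∃ t ≤ T.n, ac t w) := by field_simp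
    rw [e]
    linarith
  calc _ ≤ 2 * (T.K * (6 / η2 ^ 2 / ε3 * T.P.Pr (fun w => ∃ t ≤ T.n, ac t w))) :=
        h1.trans (mul_le_mul_of_nonneg_left (mul_le_mul_of_nonneg_left h5 hK0) (by norm_num))
    _ = _ := by ring

end tri

/-! ### live and recorded references -/

variable {Om A B C V Γ κ S : Type} [Fintype Om] [Fintype A] [Fintype B] [Fintype C] [Fintype V]
  [Fintype S] [DecidableEq S] {m : ℕ} {T : Tri Om (S → Fin m) A B C V Γ κ} {υ : ℕ → Type} {Q : ∀ t, Om → υ t}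

namespace Inp

variable (I : Inp T S)

/-- the reference `s` can be live for `(a, b)` along the public path -/
def ACTB (Q : ∀ t, Om → υ t) (s : S) (w : Om) : Prop :=
  I.R.gb s ∈ T.OPT Q (I.R.tb s) w ∧ T.cb (I.R.tb s) (T.b w) = I.R.be s ∧
    T.Rz (I.R.tb s) (I.R.al s) (T.cb (I.R.tb s) (T.b w)) (T.cc (I.R.tb s) (T.c w)) (I.R.gb s)

/-- the reference `s` can be recorded for `(a, b)` along the public path -/
def RECO (Q : ∀ t, Om → υ t) (s : S) (w : Om) : Prop :=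
  I.R.gb s ∈ T.OPT Q (I.R.tb s) w ∧
    T.Rz (I.R.tb s) (I.R.al s) (T.cb (I.R.tb s) (T.b w)) (T.cc (I.R.tb s) (T.c w)) (I.R.gb s) ∧
    ∃ γ, T.Rz (I.R.tb s) (I.R.al s) (T.cb (I.R.tb s) (T.b w)) γ (I.R.gb s) ∧
      T.Rz (I.R.tb s) (I.R.al s) (I.R.be s) γ (I.R.gb s)

variable {I}

theorem live_ACTB (hP : Pubn T Q) {t : ℕ} {w0 w : Om} (hw : T.clb Q t w0 w) {s : S} (h : I.live s t w) :
    I.ACTB Q s w0 := by
  obtain ⟨⟨h1, h2⟩, h3⟩ := h
  obtain ⟨h4, h5⟩ := I.mal s _ _ h3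
  have hw' := clb_anc hP.filt h1 hw
  have h6 := clb_rz hP hw'
  rw [h2, h4] at h6
  rw [hw.1] at h5
  refine ⟨?_, h5, h6⟩
  have := hw'.2.1
  rwa [h2] at this

theorem MB_pos {s : S} {w : Om} (h : 0 < I.MB s w) : T.gm (I.R.tb s) w = I.R.gb s ∧
    T.ca (I.R.tb s) (T.a w) = I.R.al s ∧ T.tch2 (I.R.tb s) w (I.R.be s) := by
  obtain ⟨hg, t, ht, hbt, b', htc, hd⟩ := I.le_MB h le_rfl
  have hpos : 0 < I.dens s t (T.a w) (T.cb t b') := lt_of_lt_of_le h hd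
  have hex : ∃ b'' ∈ cel (T.cb t) (T.cb t b'), I.R.mem s (T.a w) b'' := by
    by_contra hcon
    push Not at hcon
    have h0 : I.dens s t (T.a w) (T.cb t b') = 0 := by
      unfold dens
      rw [Finset.sum_eq_zero fun b'' hb'' => ind_not (hcon b'' hb''), zero_div]
    linarith
  obtain ⟨b'', hb'', hm⟩ := hex
  obtain ⟨hal, hbe⟩ := I.mal s _ _ hm
  have h1 : T.cb t b'' = T.cb t b' := mem_cel.1 hb''
  rw [← h1] at htc
  have h2 := T.tch2_anc hbt w b'' htc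
  rw [hbe] at h2
  exact ⟨hg, hal, h2⟩

/-- the second cell is touched in two steps -/
theorem tch2_rz {t : ℕ} {w : Om} {β : κ} (h : T.tch2 t w β) : ∃ γ,
    T.Rz t (T.ca t (T.a w)) (T.cb t (T.b w)) γ (T.gm t w) ∧ T.Rz t (T.ca t (T.a w)) β γ (T.gm t w) := by
  obtain ⟨w', w'', h1, h2, h3, h4, h5, h6, h7⟩ := h
  exact ⟨T.cc t (T.c w'), ⟨w', h1, h2, rfl, h3⟩, ⟨w'', h4, h5, h6, h7⟩⟩

theorem rz_tch2 {t : ℕ} {w : Om} {α β γ : κ} {g : Γ} (ha : T.ca t (T.a w) = α) (hg : T.gm t w = g)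
    (h1 : T.Rz t α (T.cb t (T.b w)) γ g) (h2 : T.Rz t α β γ g) : T.tch2 t w β := by
  obtain ⟨w', a1, a2, a3, a4⟩ := h1
  obtain ⟨w'', b1, b2, b3, b4⟩ := h2
  exact ⟨w', w'', by rw [a1, ha], a2, by rw [a4, hg], by rw [b1, ha], b2, by rw [b3, a3], by rw [b4, hg]⟩

theorem NB_RECO {R0 : ℝ} (hR : 0 ≤ R0) (hP : Pubn T Q) {t : ℕ} (ht : t ≤ T.n) {w0 w : Om} (hw : T.clb Q t w0 w)
    {s : S} (h : I.NB R0 w t s) : I.RECO Q s w0 := by
  have hb : I.R.tb s ≤ t := by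
    obtain ⟨j, hj, w', -, -, -, -, h5⟩ := h
    by_contra hlt
    have hz : I.Dm s j w' = 0 := by
      unfold Dm
      have h6 : FP.rmax (I.Zd s) j w' = 0 := by
        have hZ : ∀ i ≤ j, I.Zd s i w' = 0 := by
          intro i hi
          unfold Zd
          have h7 : ∀ w'' : Om, ind (I.on s i w' ∧ T.ca i (T.a w'') = T.ca i (T.a w') ∧
              T.cc i (T.c w'') = T.cc i (T.c w') ∧ T.gm i w'' = T.gm i w') *
              I.dens s i (T.a w') (T.cb i (T.b w'')) = 0 := by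
            intro w''
            rw [ind_not (fun h8 => by have := h8.1.1; omega), zero_mul]
          refine le_antisymm (Finset.sup'_le _ _ fun w'' _ => (h7 w'').le) ?_
          exact (h7 w').symm.le.trans (Finset.le_sup' (fun w'' => ind (I.on s i w' ∧ T.ca i (T.a w'') =
            T.ca i (T.a w') ∧ T.cc i (T.c w'') = T.cc i (T.c w') ∧ T.gm i w'' = T.gm i w') *
              I.dens s i (T.a w') (T.cb i (T.b w''))) (mem_univ w'))
        refine le_antisymm (FP.rmax_le _ fun i hi => (hZ i hi).le) ?_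
        exact (hZ 0 (Nat.zero_le _)).symm.le.trans (FP.le_rmax _ (Nat.zero_le j) w')
      rw [h6, mul_zero]
    unfold N1 at h5
    rw [hz, mul_zero, mul_zero] at h5
    have : (0 : ℝ) ≤ (((T.xi w' s : Fin m) : ℕ) : ℝ) := Nat.cast_nonneg _
    linarith
  have hpos : 0 < I.MB s w := by
    have h1 := I.NB_thr hR ht h
    by_contra h2
    have h3 : I.MB s w = 0 := le_antisymm (not_lt.1 h2) (I.MB_nonneg s w)
    rw [h3, mul_zero, mul_zero, mul_zero] at h1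
    have : (0 : ℝ) ≤ (((T.xi w s : Fin m) : ℕ) : ℝ) := Nat.cast_nonneg _
    linarith
  obtain ⟨hg, hal, htc⟩ := MB_pos hpos
  have hw' := clb_anc hP.filt hb hw
  have h6 := clb_rz hP hw'
  rw [hg, hal] at h6
  obtain ⟨γ, h7, h8⟩ := tch2_rz htc
  rw [hg, hal] at h7 h8
  rw [hw.1] at h7
  refine ⟨?_, h6, γ, h7, h8⟩
  have := hw'.2.1
  rwa [hg] at this

private theorem pr_false : T.P.Pr (fun _ : Om => False) = 0 := by
  unfold FP.Pr
  have : (fun _ : Om => ind False) = fun _ => (0 : ℝ) := by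
    funext _
    exact ind_not (fun h => h)
  rw [this, T.P.E_const]

theorem pr_ACTB (hP : Pubn T Q) (s : S) :
    T.P.Pr (I.ACTB Q s) ≤ 2 * (T.K * T.P.Pr (fun w => I.onab w T.n s)) := by
  classical
  have hK0 : 0 ≤ T.K := zero_le_one.trans T.K1
  set τ := I.R.tb s with hτ
  have h1 : T.P.Pr (I.ACTB Q s) ≤ 2 * T.P.Pr (fun w => T.gm τ w = I.R.gb s ∧ T.cb τ (T.b w) = I.R.be s ∧
      T.Rz τ (I.R.al s) (T.cb τ (T.b w)) (T.cc τ (T.c w)) (I.R.gb s)) := by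
    have h2 := hP.E_opt τ (fun b c g => ind (g = I.R.gb s ∧ T.cb τ b = I.R.be s ∧
      T.Rz τ (I.R.al s) (T.cb τ b) (T.cc τ c) (I.R.gb s))) (fun _ _ _ => ind_nonneg _)
    refine le_trans (T.P.E_mono fun w _ => ?_) h2
    by_cases h : I.ACTB Q s w
    · rw [ind_of h]
      refine le_trans (le_of_eq ?_) (Finset.single_le_sum (f := fun g => ind (g = I.R.gb s ∧
        T.cb τ (T.b w) = I.R.be s ∧ T.Rz τ (I.R.al s) (T.cb τ (T.b w)) (T.cc τ (T.c w)) (I.R.gb s)))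
        (fun _ _ => ind_nonneg _) h.1)
      exact (ind_of ⟨rfl, h.2.1, h.2.2⟩).symm
    · rw [ind_not h]
      exact Finset.sum_nonneg fun _ _ => ind_nonneg _
  refine h1.trans (mul_le_mul_of_nonneg_left ?_ (by norm_num))
  rw [Pr_split T.P T.b (fun w => T.gm τ w = I.R.gb s ∧ T.cb τ (T.b w) = I.R.be s ∧
      T.Rz τ (I.R.al s) (T.cb τ (T.b w)) (T.cc τ (T.c w)) (I.R.gb s)), Pr_split T.P T.b (fun w => I.onab w T.n s),
    Finset.mul_sum]
  refine Finset.sum_le_sum fun b0 _ => ?_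
  by_cases hb : T.cb τ b0 = I.R.be s
  · have h2 := T.cba τ (I.R.gb s) b0 (I.R.al s)
    refine le_trans (T.P.Pr_mono ?_) (h2.trans (mul_le_mul_of_nonneg_left (T.P.Pr_mono ?_) hK0))
    · rintro w _ ⟨h3, h4, -, ⟨w', h5, h6, h7, h8⟩⟩
      exact ⟨h3, h4, w', h5, by rw [h6, h3], h7, h8⟩
    · rintro w _ ⟨h3, h4, h5⟩
      refine ⟨h3, (I.onab_iff w s).2 ⟨h4, h5, ?_⟩⟩
      rw [h3]
      exact hb
  · have h3 : T.P.Pr (fun w => T.b w = b0 ∧ T.gm τ w = I.R.gb s ∧ T.cb τ (T.b w) = I.R.be s ∧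
        T.Rz τ (I.R.al s) (T.cb τ (T.b w)) (T.cc τ (T.c w)) (I.R.gb s)) ≤ T.P.Pr (fun _ => False) :=
      T.P.Pr_mono fun w _ h => hb (by rw [← h.1]; exact h.2.2.1)
    rw [pr_false] at h3
    exact h3.trans (mul_nonneg hK0 (T.P.Pr_nonneg _))

theorem pr_RECO (hP : Pubn T Q) (s : S) :
    T.P.Pr (I.RECO Q s) ≤ 2 * T.K ^ 3 * T.P.Pr (fun w => I.onab w T.n s) := by
  classical
  have hK0 : 0 ≤ T.K := zero_le_one.trans T.K1
  set τ := I.R.tb s with hτ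
  set D : κ → Prop := fun β => ∃ γ, T.Rz τ (I.R.al s) β γ (I.R.gb s) ∧ T.Rz τ (I.R.al s) (I.R.be s) γ (I.R.gb s)
    with hD
  have h1 : T.P.Pr (I.RECO Q s) ≤ 2 * T.P.Pr (fun w => T.gm τ w = I.R.gb s ∧
      T.Rz τ (I.R.al s) (T.cb τ (T.b w)) (T.cc τ (T.c w)) (I.R.gb s) ∧ D (T.cb τ (T.b w))) := by
    have h2 := hP.E_opt τ (fun b c g => ind (g = I.R.gb s ∧
      T.Rz τ (I.R.al s) (T.cb τ b) (T.cc τ c) (I.R.gb s) ∧ D (T.cb τ b))) (fun _ _ _ => ind_nonneg _)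
    refine le_trans (T.P.E_mono fun w _ => ?_) h2
    by_cases h : I.RECO Q s w
    · rw [ind_of h]
      refine le_trans (le_of_eq ?_) (Finset.single_le_sum (f := fun g => ind (g = I.R.gb s ∧
        T.Rz τ (I.R.al s) (T.cb τ (T.b w)) (T.cc τ (T.c w)) (I.R.gb s) ∧ D (T.cb τ (T.b w))))
        (fun _ _ => ind_nonneg _) h.1)
      exact (ind_of ⟨rfl, h.2.1, h.2.2⟩).symm
    · rw [ind_not h]
      exact Finset.sum_nonneg fun _ _ => ind_nonneg _
  -- the cells of `a`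
  have h2 : T.P.Pr (fun w => T.gm τ w = I.R.gb s ∧
      T.Rz τ (I.R.al s) (T.cb τ (T.b w)) (T.cc τ (T.c w)) (I.R.gb s) ∧ D (T.cb τ (T.b w))) ≤
      T.K * T.P.Pr (fun w => T.gm τ w = I.R.gb s ∧ T.ca τ (T.a w) = I.R.al s ∧ D (T.cb τ (T.b w))) := by
    rw [Pr_split T.P T.b (fun w => T.gm τ w = I.R.gb s ∧
      T.Rz τ (I.R.al s) (T.cb τ (T.b w)) (T.cc τ (T.c w)) (I.R.gb s) ∧ D (T.cb τ (T.b w))),
      Pr_split T.P T.b (fun w => T.gm τ w = I.R.gb s ∧ T.ca τ (T.a w) = I.R.al s ∧ D (T.cb τ (T.b w))),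
      Finset.mul_sum]
    refine Finset.sum_le_sum fun b0 _ => ?_
    by_cases hb : D (T.cb τ b0)
    · have h3 := T.cba τ (I.R.gb s) b0 (I.R.al s)
      refine le_trans (T.P.Pr_mono ?_) (h3.trans (mul_le_mul_of_nonneg_left (T.P.Pr_mono ?_) hK0))
      · rintro w _ ⟨h4, h5, ⟨w', h6, h7, h8, h9⟩, -⟩
        exact ⟨h4, h5, w', h6, by rw [h7, h4], h8, h9⟩
      · rintro w _ ⟨h4, h5, h6⟩
        exact ⟨h4, h5, h6, by rw [h4]; exact hb⟩
    · have h3 : T.P.Pr (fun w => T.b w = b0 ∧ T.gm τ w = I.R.gb s ∧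
          T.Rz τ (I.R.al s) (T.cb τ (T.b w)) (T.cc τ (T.c w)) (I.R.gb s) ∧ D (T.cb τ (T.b w))) ≤
          T.P.Pr (fun _ => False) := T.P.Pr_mono fun w _ h => hb (by rw [← h.1]; exact h.2.2.2)
      rw [pr_false] at h3
      exact h3.trans (mul_nonneg hK0 (T.P.Pr_nonneg _))
  -- two steps
  have h3 : T.P.Pr (fun w => T.gm τ w = I.R.gb s ∧ T.ca τ (T.a w) = I.R.al s ∧ D (T.cb τ (T.b w))) ≤
      T.K ^ 2 * T.P.Pr (fun w => I.onab w T.n s) := by
    rw [Pr_split T.P T.a (fun w => T.gm τ w = I.R.gb s ∧ T.ca τ (T.a w) = I.R.al s ∧ D (T.cb τ (T.b w))),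
      Pr_split T.P T.a (fun w => I.onab w T.n s), Finset.mul_sum]
    refine Finset.sum_le_sum fun a0 _ => ?_
    by_cases ha : T.ca τ a0 = I.R.al s
    · refine le_trans (T.P.Pr_mono ?_) ((T.tch2_cnt τ (I.R.gb s) a0 (I.R.be s)).trans
        (mul_le_mul_of_nonneg_left (T.P.Pr_mono ?_) (sq_nonneg _)))
      · rintro w _ ⟨h4, h5, h6, γ, h7, h8⟩
        exact ⟨⟨h4, rz_tch2 h6 h5 h7 h8⟩, h5⟩
      · rintro w _ ⟨⟨h4, h5⟩, h6⟩
        exact ⟨h4, (I.onab_iff w s).2 ⟨h6, by rw [h4]; exact ha, h5⟩⟩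
    · have h4 : T.P.Pr (fun w => T.a w = a0 ∧ T.gm τ w = I.R.gb s ∧ T.ca τ (T.a w) = I.R.al s ∧
          D (T.cb τ (T.b w))) ≤ T.P.Pr (fun _ => False) :=
        T.P.Pr_mono fun w _ h => ha (by rw [← h.1]; exact h.2.2.1)
      rw [pr_false] at h4
      exact h4.trans (mul_nonneg (sq_nonneg _) (T.P.Pr_nonneg _))
  calc T.P.Pr (I.RECO Q s) ≤ 2 * (T.K * (T.K ^ 2 * T.P.Pr (fun w => I.onab w T.n s))) :=
        h1.trans (mul_le_mul_of_nonneg_left (h2.trans (mul_le_mul_of_nonneg_left h3 hK0)) (by norm_num))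
    _ = _ := by ring

theorem sum_ACTB (hP : Pubn T Q) : T.P.E (fun w => ∑ s, ind (I.ACTB Q s w)) ≤ 2 * T.K * I.Ms := by
  have hK0 : 0 ≤ T.K := zero_le_one.trans T.K1
  rw [T.P.E_sum]
  have h1 : ∀ s, T.P.E (fun w => ind (I.ACTB Q s w)) ≤ 2 * T.K * T.P.Pr (fun w => I.onab w T.n s) := fun s =>
    (pr_ACTB (I := I) hP s).trans (le_of_eq (by ring))
  refine (Finset.sum_le_sum fun s _ => h1 s).trans ?_
  rw [← Finset.mul_sum]
  exact mul_le_mul_of_nonneg_left I.sum_onab (by positivity)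

theorem sum_RECO (hP : Pubn T Q) : T.P.E (fun w => ∑ s, ind (I.RECO Q s w)) ≤ 2 * T.K ^ 3 * I.Ms := by
  have hK0 : 0 ≤ T.K := zero_le_one.trans T.K1
  rw [T.P.E_sum]
  refine (Finset.sum_le_sum fun s _ => pr_RECO (I := I) hP s).trans ?_
  rw [← Finset.mul_sum]
  exact mul_le_mul_of_nonneg_left I.sum_onab (by positivity)

end Inp

end

end Pool.Agent.M3.S2
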