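import Pool.Agent.M3.S2.Vals2

/-!
# M3/S2/Vals3 : number of values of the label of `(a, b)` from the parts (helper52)

`fl_card` : the label `fl` at the points `Cp t w` takes few values, if the live references are in `SA`, the recorded ones
in `SN`, the histories of the pair `(s, s')` in `fH s s'` and the history is empty for the pairs which are not active.
-/

set_option autoImplicit false
set_option linter.unusedSectionVars false

namespace Pool.Agent.M3.S2

open Finset Pool.Agent.PWZ Pool.Agent.M3.TS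

noncomputable section

variable {Om A B C V Γ κ S : Type} [Fintype Om] [Fintype A] [Fintype B] [Fintype C] [Fintype V]
  [Fintype S] [DecidableEq S] {m : ℕ} {T : Tri Om (S → Fin m) A B C V Γ κ}

namespace Inp

variable (I : Inp T S)

/-- number of values of the label of `(a, b)` -/
def nF (I : Inp T S) (nN : ℝ) (MA MN NH : ℕ) : ℕ := (MA + 1) ^ ⌊I.Λ⌋₊ * (MA * MN * NH + 1) ^ ⌊I.Λ * nN⌋₊

open Classical in
/-- the live references -/
def codL (t : ℕ) (w : Om) : Finset S := univ.filter (fun s => I.live s t w)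

open Classical in
/-- the nonempty histories of the live references -/
def codH (H2 : S → S → ℕ → Om → List (V → ℝ)) (t : ℕ) (w : Om) : Finset (S × S × List (V → ℝ)) :=
  ((univ : Finset (S × S)).filter (fun p => I.live p.1 t w ∧ H2 p.1 p.2 t w ≠ [])).image
    (fun p => (p.1, p.2, H2 p.1 p.2 t w))

variable {I}

theorem mem_codL {t : ℕ} {w : Om} {s : S} : s ∈ I.codL t w ↔ I.live s t w := by
  classical
  unfold codL
  rw [Finset.mem_filter]
  exact ⟨fun h => h.2, fun h => ⟨Finset.mem_univ _, h⟩⟩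

theorem mem_codH {H2 : S → S → ℕ → Om → List (V → ℝ)} {t : ℕ} {w : Om} {s s' : S} {L : List (V → ℝ)} :
    (s, s', L) ∈ I.codH H2 t w ↔ I.live s t w ∧ H2 s s' t w ≠ [] ∧ L = H2 s s' t w := by
  classical
  unfold codH
  rw [Finset.mem_image]
  constructor
  · rintro ⟨⟨r, r'⟩, h1, h2⟩
    simp only [Prod.mk.injEq] at h2
    obtain ⟨rfl, rfl, rfl⟩ := h2
    have h3 := (Finset.mem_filter.1 h1).2
    exact ⟨h3.1, h3.2, rfl⟩
  · rintro ⟨h1, h2, rfl⟩
    exact ⟨(s, s'), Finset.mem_filter.2 ⟨Finset.mem_univ _, h1, h2⟩, rfl⟩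

/-- the label is a function of the codes -/
theorem fl_of_cod {H2 : S → S → ℕ → Om → List (V → ℝ)} {η2 : ℝ} {t t' : ℕ} {w w' : Om}
    (h1 : I.codL t w = I.codL t' w') (h2 : I.codH H2 t w = I.codH H2 t' w') :
    I.fl (fun s s' t w d => η2 * ((H2 s s' t w).map fun h => h d).sum) t w =
      I.fl (fun s s' t w d => η2 * ((H2 s s' t w).map fun h => h d).sum) t' w' := by
  have hlive : ∀ s, I.live s t w ↔ I.live s t' w' := fun s => by
    rw [← mem_codL, ← mem_codL, h1]
  have hcf : I.cf t (T.gm t w) (T.a w) (T.b w) = I.cf t' (T.gm t' w') (T.a w') (T.b w') := by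
    refine I.cfs t t' w w' fun s => ?_
    have h3 := hlive s
    unfold live on at h3
    constructor
    · rintro ⟨a1, a2, a3⟩
      obtain ⟨⟨b1, b2⟩, b3⟩ := h3.1 ⟨⟨a1, a2⟩, a3⟩
      exact ⟨b1, b2, b3⟩
    · rintro ⟨a1, a2, a3⟩
      obtain ⟨⟨b1, b2⟩, b3⟩ := h3.2 ⟨⟨a1, a2⟩, a3⟩
      exact ⟨b1, b2, b3⟩
  funext s s' d
  unfold fl
  rw [hcf]
  by_cases hs : I.live s t w
  · have hs' := (hlive s).1 hs
    rw [ind_of hs, ind_of hs']
    have hH : H2 s s' t w = H2 s s' t' w' := by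
      by_cases he : H2 s s' t w = []
      · by_cases he' : H2 s s' t' w' = []
        · rw [he, he']
        · have h3 : (s, s', H2 s s' t' w') ∈ I.codH H2 t' w' := mem_codH.2 ⟨hs', he', rfl⟩
          rw [← h2] at h3
          exact absurd he (mem_codH.1 h3).2.1
      · have h3 : (s, s', H2 s s' t w) ∈ I.codH H2 t w := mem_codH.2 ⟨hs, he, rfl⟩
        rw [h2] at h3
        exact (mem_codH.1 h3).2.2
    show _ * (η2 * ((H2 s s' t w).map fun h => h d).sum) = _ * (η2 * ((H2 s s' t' w').map fun h => h d).sum)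
    rw [hH]
  · rw [ind_not hs, ind_not fun h => hs ((hlive s).2 h)]
    simp

theorem card_codL {t : ℕ} (ht : t ≤ T.n) (w : Om) : (I.codL t w).card ≤ ⌊I.Λ⌋₊ := by
  classical
  refine Nat.le_floor ?_
  have h1 := sum_live (I := I) ht w
  rw [sum_ind_card] at h1
  exact h1

theorem card_codH {H2 : S → S → ℕ → Om → List (V → ℝ)} {R0 nN : ℝ}
    (h4 : ∀ s s' t w, ¬ I.act2 R0 nN w t s s' → H2 s s' t w = []) {t : ℕ} (ht : t ≤ T.n) (w : Om) :
    (I.codH H2 t w).card ≤ ⌊I.Λ * nN⌋₊ := by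
  classical
  rcases (I.codH H2 t w).eq_empty_or_nonempty with he | ⟨⟨s0, s1, L0⟩, hp⟩
  · rw [he, Finset.card_empty]
    exact Nat.zero_le _
  · obtain ⟨-, a2, -⟩ := mem_codH.1 hp
    have hact : I.act2 R0 nN w t s0 s1 := by
      by_contra h
      exact a2 (h4 s0 s1 t w h)
    have hN : ∑ r, ind (I.NB R0 w t r) ≤ nN := hact.2.2
    have hL := sum_live (I := I) ht w
    rw [sum_ind_card] at hN hL
    refine Nat.le_floor ?_
    have h5 : (I.codH H2 t w).card ≤ (univ.filter (fun s => I.live s t w)).card *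
        (univ.filter (fun s => I.NB R0 w t s)).card := by
      rw [← Finset.card_product]
      unfold codH
      refine Finset.card_image_le.trans (Finset.card_le_card ?_)
      rintro ⟨s, s'⟩ h
      obtain ⟨-, h6, h7⟩ := Finset.mem_filter.1 h
      have h8 : I.act2 R0 nN w t s s' := by
        by_contra h9
        exact h7 (h4 s s' t w h9)
      exact Finset.mem_product.2 ⟨Finset.mem_filter.2 ⟨Finset.mem_univ _, h6⟩,
        Finset.mem_filter.2 ⟨Finset.mem_univ _, h8.2.1⟩⟩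
    calc ((I.codH H2 t w).card : ℝ) ≤ ((univ.filter (fun s => I.live s t w)).card : ℝ) *
        ((univ.filter (fun s => I.NB R0 w t s)).card : ℝ) := by exact_mod_cast h5
      _ ≤ I.Λ * nN := mul_le_mul hL hN (Nat.cast_nonneg _) (le_trans zero_le_one I.Λ1)

open Classical in
/-- **the label of `(a, b)` takes few values** -/
theorem fl_card {H2 : S → S → ℕ → Om → List (V → ℝ)} {R0 nN η2 : ℝ}
    (h4 : ∀ s s' t w, ¬ I.act2 R0 nN w t s s' → H2 s s' t w = []) (Cp : ℕ → Om → Prop) (SA SN : Finset S)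
    (fH : S → S → Finset (List (V → ℝ))) {MA MN NH : ℕ} (hSA : SA.card ≤ MA) (hSN : SN.card ≤ MN)
    (hfH : ∀ s s', (fH s s').card ≤ NH) (h1 : ∀ t ≤ T.n, ∀ w, Cp t w → ∀ s, I.live s t w → s ∈ SA)
    (h2 : ∀ t ≤ T.n, ∀ w, Cp t w → ∀ s, I.NB R0 w t s → s ∈ SN)
    (h3 : ∀ t ≤ T.n, ∀ w, Cp t w → ∀ s s', H2 s s' t w ∈ fH s s') :
    ∃ f : Finset (S → S → V → ℝ), f.card ≤ I.nF nN MA MN NH ∧ ∀ t ≤ T.n, ∀ w, Cp t w →
      I.fl (fun s s' t w d => η2 * ((H2 s s' t w).map fun h => h d).sum) t w ∈ f := by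
  set fl' : ℕ → Om → S → S → V → ℝ :=
    I.fl (fun s s' t w d => η2 * ((H2 s s' t w).map fun h => h d).sum) with hfl
  set p1 : Finset (Finset S) := SA.powerset.filter (fun u => u.card ≤ ⌊I.Λ⌋₊) with hp1
  set pl : Finset (S × S × List (V → ℝ)) := (SA ×ˢ SN).biUnion (fun p => (fH p.1 p.2).image (fun L => (p.1, p.2, L)))
    with hpl
  set p2 : Finset (Finset (S × S × List (V → ℝ))) := pl.powerset.filter (fun u => u.card ≤ ⌊I.Λ * nN⌋₊) with hp2
  have hplc : pl.card ≤ MA * MN * NH := by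
    calc pl.card ≤ ∑ p ∈ SA ×ˢ SN, ((fH p.1 p.2).image (fun L => (p.1, p.2, L))).card := Finset.card_biUnion_le
      _ ≤ ∑ p ∈ SA ×ˢ SN, NH := Finset.sum_le_sum fun p _ => Finset.card_image_le.trans (hfH p.1 p.2)
      _ = SA.card * SN.card * NH := by rw [Finset.sum_const, Finset.card_product, smul_eq_mul]
      _ ≤ MA * MN * NH := Nat.mul_le_mul_right _ (Nat.mul_le_mul hSA hSN)
  have hc1 : p1.card ≤ (MA + 1) ^ ⌊I.Λ⌋₊ :=
    (small_card SA ⌊I.Λ⌋₊).trans (Nat.pow_le_pow_left (Nat.add_le_add_right hSA 1) _)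
  have hc2 : p2.card ≤ (MA * MN * NH + 1) ^ ⌊I.Λ * nN⌋₊ :=
    (small_card pl ⌊I.Λ * nN⌋₊).trans (Nat.pow_le_pow_left (Nat.add_le_add_right hplc 1) _)
  let pick : Finset S × Finset (S × S × List (V → ℝ)) → Finset (S → S → V → ℝ) := fun u =>
    if h : ∃ p : ℕ × Om, (I.codL p.1 p.2, I.codH H2 p.1 p.2) = u then {fl' h.choose.1 h.choose.2} else ∅
  have hpick : ∀ u, (pick u).card ≤ 1 := by
    intro u
    show (if h : ∃ p : ℕ × Om, (I.codL p.1 p.2, I.codH H2 p.1 p.2) = u then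
      ({fl' h.choose.1 h.choose.2} : Finset (S → S → V → ℝ)) else ∅).card ≤ 1
    split_ifs with h
    · simp
    · simp
  refine ⟨(p1 ×ˢ p2).biUnion pick, ?_, ?_⟩
  · calc ((p1 ×ˢ p2).biUnion pick).card ≤ ∑ u ∈ p1 ×ˢ p2, (pick u).card := Finset.card_biUnion_le
      _ ≤ ∑ u ∈ p1 ×ˢ p2, 1 := Finset.sum_le_sum fun u _ => hpick u
      _ = p1.card * p2.card := by rw [Finset.sum_const, Finset.card_product, smul_eq_mul, mul_one]
      _ ≤ _ := Nat.mul_le_mul hc1 hc2
  · intro t ht w hw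
    rw [Finset.mem_biUnion]
    refine ⟨(I.codL t w, I.codH H2 t w), ?_, ?_⟩
    · rw [Finset.mem_product]
      constructor
      · exact Finset.mem_filter.2 ⟨Finset.mem_powerset.2 fun s hs => h1 t ht w hw s (mem_codL.1 hs),
          card_codL ht w⟩
      · refine Finset.mem_filter.2 ⟨Finset.mem_powerset.2 ?_, card_codH h4 ht w⟩
        rintro ⟨s, s', L⟩ hs
        obtain ⟨a1, a2, rfl⟩ := mem_codH.1 hs
        have a3 : I.act2 R0 nN w t s s' := by
          by_contra h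
          exact a2 (h4 s s' t w h)
        rw [hpl, Finset.mem_biUnion]
        exact ⟨(s, s'), Finset.mem_product.2 ⟨h1 t ht w hw s a1, h2 t ht w hw s' a3.2.1⟩,
          Finset.mem_image.2 ⟨_, h3 t ht w hw s s', rfl⟩⟩
    · have hex : ∃ p : ℕ × Om, (I.codL p.1 p.2, I.codH H2 p.1 p.2) = (I.codL t w, I.codH H2 t w) := ⟨(t, w), rfl⟩
      show fl' t w ∈ (if h : ∃ p : ℕ × Om, (I.codL p.1 p.2, I.codH H2 p.1 p.2) = (I.codL t w, I.codH H2 t w) then
        ({fl' h.choose.1 h.choose.2} : Finset (S → S → V → ℝ)) else ∅)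
      rw [dif_pos hex, Finset.mem_singleton]
      obtain ⟨h5, h6⟩ := Prod.mk.inj hex.choose_spec
      exact (fl_of_cod (η2 := η2) h5 h6).symm

end Inp

end

end Pool.Agent.M3.S2
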